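import Mathlib

open Finset

namespace BernP

/-- trigonometric polynomial with frequencies in `S` and coefficients `c`. -/
noncomputable def P (S : Finset (ℤ × ℤ)) (c : ℤ × ℤ → ℂ) (x y : ℝ) : ℂ :=
  ∑ k ∈ S, c k * Complex.exp (Complex.I * (k.1 * x + k.2 * y))

/-- normalised `L¹` norm on `[0,2π]²` of a function of two variables. -/
noncomputable def nrm1 (F : ℝ → ℝ → ℂ) : ℝ :=
  (1/(2*Real.pi)^2) * ∫ x in (0:ℝ)..(2*Real.pi), ∫ y in (0:ℝ)..(2*Real.pi), ‖F x y‖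

/-- the hyperbolic cross `Γ(N)` for `d = 2`. -/
noncomputable def Gam (N : ℕ) : Finset (ℤ × ℤ) :=
  ((Icc (-(N:ℤ)) N) ×ˢ (Icc (-(N:ℤ)) N)).filter (fun k => max |k.1| 1 * max |k.2| 1 ≤ (N:ℤ))

/-- one variable factor of the `(r,α)`-derivative. -/
noncomputable def mu (r α : ℝ) (k : ℤ) : ℂ :=
  if k = 0 then 1 else (((|(k:ℝ)|)^r : ℝ) : ℂ) * Complex.exp (Complex.I * ((k.sign : ℝ) * α * Real.pi / 2))

end BernP
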