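import Mathlib

open Finset

namespace BernD

open Classical in
/-- conditional probability of `P` given `x / 2^(K-t) = p` and `y / 2^s = q` (grid `[0,2^K)²`). -/
noncomputable def rct (K : ℕ) (P : ℕ → ℕ → Prop) (t p s q : ℕ) : ℝ :=
  (((range (2^K) ×ˢ range (2^K)).filter
    (fun z => z.1 / 2^(K-t) = p ∧ z.2 / 2^s = q ∧ P z.1 z.2)).card : ℝ) / (2^(K-t) * 2^s)

open Classical in
/-- conditional probability of `P` given `x / 2^(K-t) = p`, for fixed `y`. -/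
noncomputable def prx (K : ℕ) (P : ℕ → ℕ → Prop) (t p y : ℕ) : ℝ :=
  (((range (2^K)).filter (fun x => x / 2^(K-t) = p ∧ P x y)).card : ℝ) / 2^(K-t)

open Classical in
/-- number of points of the grid with property `P` -/
noncomputable def num (K : ℕ) (P : ℕ → ℕ → Prop) : ℝ :=
  (((range (2^K) ×ˢ range (2^K)).filter (fun z => P z.1 z.2)).card : ℝ)

/-- the rectangle `R_t` through `(p,y)` is `lam`-bad. -/
def Bad (K : ℕ) (g : ℕ → ℕ → ℝ) (lam : ℝ) (t p y : ℕ) : Prop :=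
  1/16 < rct K (fun x y => lam < |g x y|) t p (t+1) (y / 2^(t+1))

/-- union of the bad rectangles -/
def Om (K : ℕ) (g : ℕ → ℕ → ℝ) (lam : ℝ) (x y : ℕ) : Prop :=
  ∃ t < K, Bad K g lam t (x / 2^(K-t)) y

open Classical in
/-- conditional expectation of the value of `X` at the first bad time `≥ t`, recursively. -/
noncomputable def Uaux (bad : ℕ → ℕ → Prop) (X : ℕ → ℕ → ℝ) : ℕ → ℕ → ℕ → ℝ
  | 0, t, p => X t p
  | n+1, t, p => if bad t p then X t p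
      else (Uaux bad X n (t+1) (2*p) + Uaux bad X n (t+1) (2*p+1)) / 2

noncomputable def U (K : ℕ) (g : ℕ → ℕ → ℝ) (X : ℕ → ℕ → ℕ → ℝ) (lam : ℝ) (t p y : ℕ) : ℝ :=
  Uaux (fun t p => Bad K g lam t p y) (fun t p => X t p y) (K - t) t p

/-- a conditional median potential for `g`. -/
structure Pot (K : ℕ) (g : ℕ → ℕ → ℝ) (X : ℕ → ℕ → ℕ → ℝ) : Prop where
  top : ∀ x < 2^K, ∀ y < 2^K, X K x y = g x y
  medle : ∀ t ≤ K, ∀ p < 2^t, ∀ y < 2^K,
    2^(K-t) ≤ 2 * ((range (2^K)).filter (fun x => x / 2^(K-t) = p ∧ g x y ≤ X t p y)).card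
  medge : ∀ t ≤ K, ∀ p < 2^t, ∀ y < 2^K,
    2^(K-t) ≤ 2 * ((range (2^K)).filter (fun x => x / 2^(K-t) = p ∧ X t p y ≤ g x y)).card
  inc : ∀ t < K, ∀ p < 2^(t+1), ∀ y < 2^K, ∀ y' < 2^K, y / 2^t = y' / 2^t →
    X (t+1) p y - X t (p/2) y = X (t+1) p y' - X t (p/2) y'

/-- `g` is additive on every rectangle `W_t`. -/
def Additive (K : ℕ) (g : ℕ → ℕ → ℝ) : Prop :=
  ∀ t ≤ K, ∀ x < 2^K, ∀ x' < 2^K, ∀ y < 2^K, ∀ y' < 2^K,
    x / 2^(K-t) = x' / 2^(K-t) → y / 2^t = y' / 2^t → g x y + g x' y' = g x y' + g x' y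

/-- half of the `x_{t+1}` difference of the stopped expectation, cut off at good `W_t`. -/
noncomputable def kk (K : ℕ) (g : ℕ → ℕ → ℝ) (X : ℕ → ℕ → ℕ → ℝ) (lam : ℝ) (t p y : ℕ) : ℝ :=
  (U K g X lam (t+1) (2*p) y - U K g X lam (t+1) (2*p+1) y) / 2

/-- probability of `Om` in `W_t`. -/
noncomputable def pw (K : ℕ) (g : ℕ → ℕ → ℝ) (lam : ℝ) (t p y : ℕ) : ℝ :=
  rct K (Om K g lam) t p t (y / 2^t)

open Classical in
noncomputable def ee (K : ℕ) (g : ℕ → ℕ → ℝ) (X : ℕ → ℕ → ℕ → ℝ) (lam : ℝ) (t p y : ℕ) : ℝ :=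
  (if pw K g (2*lam) t p y ≤ 1/8 then kk K g X (2*lam) t p y else 0) -
  (if pw K g lam t p y ≤ 1/8 then kk K g X lam t p y else 0)

/-- half difference of the `g(·,y)`-averages over the two halves of the `t`-block `p`. -/
noncomputable def kinf (K : ℕ) (g : ℕ → ℕ → ℝ) (t p y : ℕ) : ℝ :=
  ((∑ x ∈ (range (2^K)).filter (fun x => x / 2^(K-(t+1)) = 2*p), g x y) / 2^(K-(t+1)) -
   (∑ x ∈ (range (2^K)).filter (fun x => x / 2^(K-(t+1)) = 2*p+1), g x y) / 2^(K-(t+1))) / 2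

/-- Haar type coefficient attached to `(a,p,q)` -/
noncomputable def cf (K l : ℕ) (k : ℕ → ℕ → ℕ → ℝ) (a p q : ℕ) : ℝ :=
  (∑ y ∈ (range (2^K)).filter (fun y => y / 2^(a+l+1) = q),
    (-1:ℝ)^(y / 2^(a+l)) * k a p y) / 2^(a+l+1)

/-- unnormalised `L¹` norm of the square function of one diagonal -/
noncomputable def SS (K l : ℕ) (c : ℕ → ℕ → ℕ → ℝ) : ℝ :=
  ∑ x ∈ range (2^K), ∑ y ∈ range (2^K),
    Real.sqrt (∑ a ∈ range (K - l), (c a (x / 2^(K-a)) (y / 2^(a+l+1)))^2)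

end BernD
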