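import Mathlib

open Finset Matrix

namespace BernT

/-- averaging over dyadic blocks of length `2^(M-a)` on the cyclic grid of `2^M` points. -/
noncomputable def Em (M a : ℕ) : Matrix (Fin (2^M)) (Fin (2^M)) ℂ :=
  fun x z => if (x:ℕ) / 2^(M-a) = (z:ℕ) / 2^(M-a) then ((2:ℂ)^(M-a))⁻¹ else 0

/-- Haar block: martingale difference projection, Haar functions living on the `a`-blocks. -/
noncomputable def Dm (M a : ℕ) : Matrix (Fin (2^M)) (Fin (2^M)) ℂ := Em M (a+1) - Em M a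

/-- circulant matrix (convolution with the kernel `κ`). -/
def Cm (M : ℕ) (κ : ℤ → ℂ) : Matrix (Fin (2^M)) (Fin (2^M)) ℂ :=
  fun x z => κ ((x:ℤ) - (z:ℤ))

/-- `exp(2πi j / 2^M)`. -/
noncomputable def ex (M : ℕ) (j : ℤ) : ℂ :=
  Complex.exp (2 * Real.pi * Complex.I * (j:ℂ) / (2:ℂ)^M)

/-- kernel with symbol `μ` (frequencies `|k| ≤ B`). -/
noncomputable def ker (M B : ℕ) (μ : ℤ → ℂ) (j : ℤ) : ℂ :=
  ((2:ℂ)^M)⁻¹ * ∑ k ∈ Icc (-(B:ℤ)) (B:ℤ), μ k * ex M (k*j)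

/-- de la Vallée Poussin symbol at scale `2^p`. -/
noncomputable def Vs (p : ℕ) (k : ℤ) : ℝ := max 0 (min 1 (2 - |(k:ℝ)| / 2^p))

/-- tent symbol at scale `2^t`: equals 1 at `|k| = 2^t`, vanishes off `2^(t-1) < |k| < 2^(t+1)`. -/
noncomputable def bt (t : ℕ) (k : ℤ) : ℝ :=
  max 0 (min (2 * (|(k:ℝ)| / 2^t) - 1) (2 - |(k:ℝ)| / 2^t))

/-- low pass operator -/
noncomputable def Vm (M p : ℕ) : Matrix (Fin (2^M)) (Fin (2^M)) ℂ :=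
  Cm M (ker M (2^(p+1)) (fun k => (Vs p k : ℂ)))

/-- symbol of the normalised derivative block: `(|k|/2^t)^r * phase * tent`. -/
noncomputable def ms (r : ℝ) (u v : ℂ) (t : ℕ) (k : ℤ) : ℂ :=
  (((|(k:ℝ)| / 2^t)^r * bt t k : ℝ) : ℂ) * (if 0 < k then u else v)

/-- normalised derivative block operator -/
noncomputable def Mm (r : ℝ) (u v : ℂ) (M t : ℕ) : Matrix (Fin (2^M)) (Fin (2^M)) ℂ :=
  Cm M (ker M (2^(t+1)) (ms r u v t))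

/-- kernel majorant at scale `2^p`. -/
noncomputable def wt (M p : ℕ) (j : ℤ) : ℝ :=
  2^p / (1 + 2^p * |Real.sin (Real.pi * j / 2^M)|)^2

/-- cyclic shift `(Sh v)(x) = v (x-1)`. -/
def Sh (M : ℕ) : Matrix (Fin (2^M)) (Fin (2^M)) ℂ :=
  fun x z => if ((z:ℕ) + 1) % 2^M = (x:ℕ) then 1 else 0

/-- `x` lies in the `q`-block `c` or in a cyclic neighbour of it. -/
def near (M q c : ℕ) (x : Fin (2^M)) : Prop :=
  (x:ℕ) / 2^(M-q) = c ∨ ((x:ℕ) / 2^(M-q) + 1) % 2^q = c ∨ (x:ℕ) / 2^(M-q) = (c+1) % 2^q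

/-- Haar function of level `a` -/
def Haar (M a : ℕ) (v : Fin (2^M) → ℂ) : Prop := Dm M a *ᵥ v = v

/-- `L²` bound on Haar functions of level `a`. -/
def L2b (M a : ℕ) (T : Matrix (Fin (2^M)) (Fin (2^M)) ℂ) (δ : ℝ) : Prop :=
  ∀ v, Haar M a v → ∑ x, ‖(T *ᵥ v) x‖^2 ≤ δ^2 * ∑ x, ‖v x‖^2

open Classical in
/-- off-diagonal bound on Haar functions of level `a`. -/
def Far (M a : ℕ) (T : Matrix (Fin (2^M)) (Fin (2^M)) ℂ) (δ : ℝ) : Prop :=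
  ∀ q ≤ a, ∀ c < 2^q, ∀ v, Haar M a v → (∀ x : Fin (2^M), (x:ℕ) / 2^(M-q) ≠ c → v x = 0) →
    ∑ x ∈ univ.filter (fun x => ¬ near M q c x), ‖(T *ᵥ v) x‖ ≤
      δ * (2:ℝ)^(-(((a:ℝ) - q)/4)) * ∑ x, ‖v x‖

/-- unnormalised `L¹` norm -/
noncomputable def L1 (M : ℕ) (f : Matrix (Fin (2^M)) (Fin (2^M)) ℂ) : ℝ := ∑ x, ∑ y, ‖f x y‖

/-- unnormalised `L¹` norm of the square function of the diagonal `a+b=m`. -/
noncomputable def NN (M m : ℕ) (f : Matrix (Fin (2^M)) (Fin (2^M)) ℂ) : ℝ :=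
  ∑ x, ∑ y, Real.sqrt (∑ a ∈ range (m+1), ‖(Dm M a * f * Dm M (m-a)) x y‖^2)

/-- family of operators: Haar block composed with low pass, scale gap `j`, offset `w`. -/
noncomputable def TV (M j : ℕ) (w : ℤ) (a : ℕ) : Matrix (Fin (2^M)) (Fin (2^M)) ℂ :=
  if 0 ≤ (a:ℤ) - w then Dm M (((a:ℤ) - w).toNat + j) * Vm M ((a:ℤ) - w).toNat else 0

/-- family of operators: derivative blocks with offset `w`. -/
noncomputable def TM (r : ℝ) (u v : ℂ) (M : ℕ) (w : ℤ) (a : ℕ) :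
    Matrix (Fin (2^M)) (Fin (2^M)) ℂ :=
  if 0 ≤ (a:ℤ) - w ∧ ((a:ℤ) - w).toNat + 2 ≤ M then Mm r u v M ((a:ℤ) - w).toNat else 0

/-- the diagonal piece `a+b=m`. -/
noncomputable def Dg (M m : ℕ) (f : Matrix (Fin (2^M)) (Fin (2^M)) ℂ) :
    Matrix (Fin (2^M)) (Fin (2^M)) ℂ := ∑ a ∈ range (m+1), Dm M a * f * Dm M (m-a)

/-- partial sum of the diagonals `m < K`. -/
noncomputable def PK (M K : ℕ) (f : Matrix (Fin (2^M)) (Fin (2^M)) ℂ) :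
    Matrix (Fin (2^M)) (Fin (2^M)) ℂ := ∑ m ∈ range K, Dg M m f

/-- consequences of having spectrum in the hyperbolic cross `|k₁ k₂| ≤ 2^n`, `k₁ k₂ ≠ 0`. -/
def Spec (M n : ℕ) (f : Matrix (Fin (2^M)) (Fin (2^M)) ℂ) : Prop :=
  Em M 0 * f = 0 ∧ f * Em M 0 = 0 ∧
  (∀ p ≤ n, f = Vm M p * f + f * (Vm M (n-p))ᵀ - Vm M p * f * (Vm M (n-p))ᵀ) ∧
  (∀ q, n < q → q + 2 ≤ M → f * (Vm M q)ᵀ = f ∧ Vm M q * f = f)

/-- samples of a trigonometric polynomial on the grid. -/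
noncomputable def tp (M : ℕ) (S : Finset (ℤ × ℤ)) (c : ℤ × ℤ → ℂ) :
    Matrix (Fin (2^M)) (Fin (2^M)) ℂ :=
  fun x y => ∑ k ∈ S, c k * ex M (k.1 * (x:ℤ)) * ex M (k.2 * (y:ℤ))

end BernT
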