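import Mathlib

namespace Pool.Agent.Helper643.CG

open scoped InnerProductSpace

variable {E : Type*} [NormedAddCommGroup E] [InnerProductSpace ℝ E]

/-- A scaled perturbed run of the conjugate gradient recurrences, `K` steps long. -/
structure SRun (T : E →ₗ[ℝ] E) (b : E) (τ : ℝ) (K : ℕ) (x r q : ℕ → E) (a : ℕ → ℝ) : Prop where
  sym : ∀ y z, ⟪T y, z⟫_ℝ = ⟪y, T z⟫_ℝ
  pos : ∀ y, 0 ≤ ⟪y, T y⟫_ℝ
  one : ∀ y, ‖T y‖ ≤ ‖y‖
  tau : 0 ≤ τ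
  b1 : ‖b‖ = 1
  x0 : x 0 = 0
  r0 : r 0 = b
  q0 : q 0 = b
  rne : ∀ k < K, r k ≠ 0
  h1 : ∀ k < K, ‖x (k+1) - x k - a k • q k‖ ≤ τ * (‖x k‖ + |a k| * ‖q k‖)
  h2 : ∀ k < K, ‖r (k+1) - r k + a k • T (q k)‖ ≤ τ * (‖r k‖ + |a k| * ‖q k‖)
  h3 : ∀ k < K, r (k+1) ≠ 0 →
    ‖q (k+1) - (‖r (k+1)‖^2)⁻¹ • r (k+1) - q k‖ ≤ τ * (‖r (k+1)‖⁻¹ + ‖q k‖)
  h4 : ∀ k < K, |a k * ⟪q k, T (q k)⟫_ℝ - 1| ≤ τ * (1 + |a k| * ‖q k‖^2)

lemma T_sq {T : E →ₗ[ℝ] E} (sym : ∀ y z, ⟪T y, z⟫_ℝ = ⟪y, T z⟫_ℝ)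
    (pos : ∀ y, 0 ≤ ⟪y, T y⟫_ℝ) (one : ∀ y, ‖T y‖ ≤ ‖y‖) (y : E) :
    ‖T y‖^2 ≤ ⟪y, T y⟫_ℝ := by
  have h := pos (y - T y)
  have e : ⟪y - T y, T (y - T y)⟫_ℝ = ⟪y, T y⟫_ℝ - 2 * ‖T y‖^2 + ⟪T y, T (T y)⟫_ℝ := by
    rw [map_sub, inner_sub_left, inner_sub_right, inner_sub_right, ← sym y (T y),
      real_inner_self_eq_norm_sq]
    ring
  have h2 : ⟪T y, T (T y)⟫_ℝ ≤ ‖T y‖^2 := by
    calc ⟪T y, T (T y)⟫_ℝ ≤ ‖T y‖ * ‖T (T y)‖ := real_inner_le_norm _ _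
      _ ≤ ‖T y‖ * ‖T y‖ := by gcongr; exact one _
      _ = ‖T y‖^2 := by ring
  rw [e] at h
  linarith

/-- Local facts at step `k`. -/
structure Loc (T : E →ₗ[ℝ] E) (τ Z : ℝ) (r q : ℕ → E) (k : ℕ) : Prop where
  A : |⟪q k, r k⟫_ℝ - 1| ≤ 10 * k * (τ * Z)
  B : ‖r k‖^2 * ⟪q k, T (q k)⟫_ℝ ≤ 1.1
  C : ‖r k‖^2 * |⟪T (q k), q k - (‖r k‖^2)⁻¹ • r k⟫_ℝ| ≤ (170 * k + 160) * (τ * Z)

/-- Facts about step `k`, given the bound on `a k`. -/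
structure Nxt (T : E →ₗ[ℝ] E) (τ Z : ℝ) (r q : ℕ → E) (a : ℕ → ℝ) (k : ℕ) : Prop where
  apos : 0 < a k
  alow : 0.45 * ‖r k‖^2 ≤ a k
  aone : |a k * ⟪q k, T (q k)⟫_ℝ - 1| ≤ 2 * (τ * Z)
  qr_le : ‖q k‖ * ‖r k‖ ≤ 1.5 * Z
  qr_ge : 0.99 ≤ ‖q k‖ * ‖r k‖
  aqq : a k * ‖q k‖^2 ≤ Z
  aq : a k * ‖q k‖ ≤ 1.02 * Z * ‖r k‖
  aup : a k ≤ 1.03 * Z * ‖r k‖^2
  aT : a k * ‖T (q k)‖ ^ 2 ≤ 1.01
  rn : ‖r (k+1)‖ ≤ 2.7 * √(a k)
  qrn : ‖q k‖ * ‖r (k+1)‖ ≤ 4 * Z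
  y : |⟪r (k+1), r k⟫_ℝ| ≤ (170 * k + 169) * (τ * Z) * a k
  z : |⟪q k, r (k+1)⟫_ℝ - (⟪q k, r k⟫_ℝ - 1)| ≤ 4.5 * (τ * Z)

variable {T : E →ₗ[ℝ] E} {b : E} {τ Z : ℝ} {K : ℕ} {x r q : ℕ → E} {a : ℕ → ℝ}

lemma nxt_of_loc (h : SRun T b τ K x r q a) (hZ : 1 ≤ Z) {k : ℕ} (hk : k < K)
    (hs : 100000 * (K * (τ * Z)) ≤ 1) (hL : Loc T τ Z r q k) (hzk : |a k| * ‖q k‖^2 ≤ Z) :
    Nxt T τ Z r q a k := by
  have hτ := h.tau
  have hσ : 0 ≤ τ * Z := by positivity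
  have hkK : (k : ℝ) + 1 ≤ K := by exact_mod_cast hk
  have hk0 : (0 : ℝ) ≤ k := Nat.cast_nonneg k
  have hσk : (k + 1) * (τ * Z) ≤ 1 / 100000 := by nlinarith
  have hσ1 : τ * Z ≤ 1 / 100000 := by nlinarith
  have hτσ : τ ≤ τ * Z := by nlinarith
  have hrne : r k ≠ 0 := h.rne k hk
  have hρ : 0 < ‖r k‖ := norm_pos_iff.2 hrne
  set ρ := ‖r k‖ with hρdef
  set Q := ‖q k‖ with hQdef
  have hQ0 : 0 ≤ Q := norm_nonneg _
  set V := ⟪q k, T (q k)⟫_ℝ with hVdef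
  have hV0 : 0 ≤ V := h.pos _
  have haone : |a k * V - 1| ≤ 2 * (τ * Z) := by
    refine (h.h4 k hk).trans ?_
    nlinarith
  have haV : 0.99 ≤ a k * V := by
    have := (abs_le.1 haone).1
    linarith
  have haV' : a k * V ≤ 1.01 := by
    have := (abs_le.1 haone).2
    linarith
  have hapos : 0 < a k := by
    by_contra hc
    push Not at hc
    nlinarith
  have habs : |a k| = a k := abs_of_pos hapos
  rw [habs] at hzk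
  have hB := hL.B
  have halow : 0.45 * ρ^2 ≤ a k := by
    have h1 : ρ^2 * (a k * V) ≤ 1.1 * a k := by nlinarith
    nlinarith [sq_nonneg ρ]
  have hqr_le : Q * ρ ≤ 1.5 * Z := by
    apply abs_le_of_sq_le_sq' _ (by positivity) |>.2
    have : (Q * ρ)^2 * 0.45 ≤ Z := by
      calc (Q * ρ)^2 * 0.45 = Q^2 * (0.45 * ρ^2) := by ring
        _ ≤ Q^2 * a k := by gcongr
        _ ≤ Z := by linarith
    nlinarith
  have hA := hL.A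
  have hqr_ge : 0.99 ≤ Q * ρ := by
    have h1 := (abs_le.1 hA).1
    have h2 : ⟪q k, r k⟫_ℝ ≤ Q * ρ := real_inner_le_norm _ _
    nlinarith
  have haq : a k * Q ≤ 1.02 * Z * ρ := by
    have : a k * Q * 0.99 ≤ Z * ρ := by
      calc a k * Q * 0.99 ≤ a k * Q * (Q * ρ) := by gcongr
        _ = (a k * Q^2) * ρ := by ring
        _ ≤ Z * ρ := by gcongr
    nlinarith
  have haup : a k ≤ 1.03 * Z * ρ^2 := by
    have h1 : a k * 0.9801 ≤ Z * ρ^2 := by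
      calc a k * 0.9801 = a k * (0.99)^2 := by norm_num
        _ ≤ a k * (Q * ρ)^2 := by gcongr
        _ = (a k * Q^2) * ρ^2 := by ring
        _ ≤ Z * ρ^2 := by gcongr
    nlinarith
  have hTsq : ‖T (q k)‖^2 ≤ V := T_sq h.sym h.pos h.one _
  have haT : a k * ‖T (q k)‖^2 ≤ 1.01 := by nlinarith
  set α := √(a k) with hα
  have hαpos : 0 < α := Real.sqrt_pos.2 hapos
  have hαsq : α^2 = a k := Real.sq_sqrt hapos.le
  have hρα : ρ ≤ 1.5 * α := by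
    apply abs_le_of_sq_le_sq' _ (by positivity) |>.2
    nlinarith
  have haTα : a k * ‖T (q k)‖ ≤ 1.01 * α := by
    apply abs_le_of_sq_le_sq' _ (by positivity) |>.2
    calc (a k * ‖T (q k)‖)^2 = a k * (a k * ‖T (q k)‖^2) := by ring
      _ ≤ a k * 1.01 := by gcongr
      _ ≤ 1.0201 * a k := by linarith
      _ = (1.01 * α)^2 := by rw [mul_pow, hαsq]; norm_num
  have h2 := h.h2 k hk
  rw [habs] at h2
  set e2 := r (k+1) - r k + a k • T (q k) with he2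
  have hr1 : r (k+1) = r k - a k • T (q k) + e2 := by rw [he2]; abel
  have he2n : ‖e2‖ ≤ τ * (ρ + a k * Q) := h2
  have hr1n : ‖r (k+1)‖ ≤ ρ + a k * ‖T (q k)‖ + τ * (ρ + a k * Q) := by
    rw [hr1]
    calc ‖r k - a k • T (q k) + e2‖ ≤ ‖r k - a k • T (q k)‖ + ‖e2‖ := norm_add_le _ _
      _ ≤ ‖r k‖ + ‖a k • T (q k)‖ + ‖e2‖ := by gcongr; exact norm_sub_le _ _
      _ ≤ ρ + a k * ‖T (q k)‖ + τ * (ρ + a k * Q) := by
        rw [norm_smul, Real.norm_eq_abs, habs]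
        gcongr
  have hτ2 : τ * (ρ + a k * Q) ≤ 0.0001 * ρ := by
    have : τ * (ρ + a k * Q) ≤ τ * (ρ + 1.02 * Z * ρ) := by gcongr
    have h3 : τ * (ρ + 1.02 * Z * ρ) = (τ + 1.02 * (τ * Z)) * ρ := by ring
    have h4 : (τ + 1.02 * (τ * Z)) * ρ ≤ 0.0001 * ρ := by
      gcongr
      linarith
    linarith
  have hrn : ‖r (k+1)‖ ≤ 2.7 * α := by linarith
  have hqrn : Q * ‖r (k+1)‖ ≤ 4 * Z := by
    have h5 : Q * (a k * ‖T (q k)‖) ≤ 1.01 * Z := by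
      apply abs_le_of_sq_le_sq' _ (by positivity) |>.2
      calc (Q * (a k * ‖T (q k)‖))^2 = (a k * Q^2) * (a k * ‖T (q k)‖^2) := by ring
        _ ≤ Z * 1.01 := by gcongr
        _ ≤ (1.01 * Z)^2 := by nlinarith
    calc Q * ‖r (k+1)‖ ≤ Q * (ρ + a k * ‖T (q k)‖ + 0.0001 * ρ) := by
          gcongr
          linarith
      _ = 1.0001 * (Q * ρ) + Q * (a k * ‖T (q k)‖) := by ring
      _ ≤ 4 * Z := by linarith
  -- inner product with q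
  have hz : |⟪q k, r (k+1)⟫_ℝ - (⟪q k, r k⟫_ℝ - 1)| ≤ 4.5 * (τ * Z) := by
    have e : ⟪q k, r (k+1)⟫_ℝ - (⟪q k, r k⟫_ℝ - 1) = (1 - a k * V) + ⟪q k, e2⟫_ℝ := by
      rw [hr1, inner_add_right, inner_sub_right, inner_smul_right]
      ring
    rw [e]
    have h6 : |⟪q k, e2⟫_ℝ| ≤ 2.5 * (τ * Z) := by
      calc |⟪q k, e2⟫_ℝ| ≤ Q * ‖e2‖ := abs_real_inner_le_norm _ _
        _ ≤ Q * (τ * (ρ + a k * Q)) := by gcongr
        _ = τ * (Q * ρ + a k * Q^2) := by ring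
        _ ≤ τ * (1.5 * Z + Z) := by gcongr
        _ = 2.5 * (τ * Z) := by ring
    calc |1 - a k * V + ⟪q k, e2⟫_ℝ| ≤ |1 - a k * V| + |⟪q k, e2⟫_ℝ| := abs_add_le _ _
      _ ≤ 2 * (τ * Z) + 2.5 * (τ * Z) := by
        gcongr
        rw [abs_sub_comm]
        exact haone
      _ = 4.5 * (τ * Z) := by ring
  -- consecutive residuals
  have hy : |⟪r (k+1), r k⟫_ℝ| ≤ (170 * k + 169) * (τ * Z) * a k := by
    have hρ2 : (ρ^2)⁻¹ * ρ^2 = 1 := inv_mul_cancel₀ (by positivity)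
    set g := q k - (ρ^2)⁻¹ • r k with hg
    have hrk : r k = ρ^2 • (q k - g) := by
      rw [hg, sub_sub_cancel, smul_smul, mul_comm, hρ2, one_smul]
    have e : ⟪r (k+1), r k⟫_ℝ = ρ^2 * (1 - a k * V) + a k * (ρ^2 * ⟪T (q k), g⟫_ℝ)
        + ⟪e2, r k⟫_ℝ := by
      have e1 : ⟪T (q k), r k⟫_ℝ = ρ^2 * (V - ⟪T (q k), g⟫_ℝ) := by
        conv_lhs => rw [hrk]
        rw [inner_smul_right, inner_sub_right, real_inner_comm (q k) (T (q k))]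
      rw [hr1, inner_add_left, inner_sub_left, inner_smul_left, e1,
        real_inner_self_eq_norm_sq]
      simp only [conj_trivial]
      ring
    have hC := hL.C
    have hC' : |ρ^2 * ⟪T (q k), g⟫_ℝ| ≤ (170 * k + 160) * (τ * Z) := by
      rw [abs_mul, abs_of_nonneg (sq_nonneg ρ)]
      exact hC
    have h7 : |⟪e2, r k⟫_ℝ| ≤ 3.9 * (τ * Z) * a k := by
      calc |⟪e2, r k⟫_ℝ| ≤ ‖e2‖ * ρ := abs_real_inner_le_norm _ _
        _ ≤ (τ * (ρ + a k * Q)) * ρ := by gcongr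
        _ = τ * ρ^2 + τ * (Q * ρ) * a k := by ring
        _ ≤ τ * (2.3 * a k) + τ * (1.5 * Z) * a k := by
          gcongr
          linarith
        _ ≤ 3.9 * (τ * Z) * a k := by nlinarith
    have h8 : |ρ^2 * (1 - a k * V)| ≤ 4.6 * (τ * Z) * a k := by
      rw [abs_mul, abs_of_nonneg (sq_nonneg ρ), abs_sub_comm]
      calc ρ^2 * |a k * V - 1| ≤ (2.3 * a k) * (2 * (τ * Z)) := by
            gcongr
            linarith
        _ = 4.6 * (τ * Z) * a k := by ring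
    have h9 : |a k * (ρ^2 * ⟪T (q k), g⟫_ℝ)| ≤ (170 * k + 160) * (τ * Z) * a k := by
      rw [abs_mul, habs, mul_comm]
      gcongr
    rw [e]
    calc _ ≤ |ρ^2 * (1 - a k * V)| + |a k * (ρ^2 * ⟪T (q k), g⟫_ℝ)| + |⟪e2, r k⟫_ℝ| :=
          abs_add_three _ _ _
      _ ≤ 4.6 * (τ * Z) * a k + (170 * k + 160) * (τ * Z) * a k + 3.9 * (τ * Z) * a k := by
          gcongr
      _ = (170 * k + 168.5) * (τ * Z) * a k := by ring
      _ ≤ (170 * k + 169) * (τ * Z) * a k := by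
          gcongr
          norm_num
  exact ⟨hapos, halow, haone, hqr_le, hqr_ge, hzk, haq, haup, haT, hrn, hqrn, hy, hz⟩

lemma loc_zero (h : SRun T b τ K x r q a) (hZ : 1 ≤ Z) : Loc T τ Z r q 0 := by
  have hτ := h.tau
  have hσ : 0 ≤ τ * Z := by positivity
  have h1 : ‖r 0‖ = 1 := by rw [h.r0, h.b1]
  refine ⟨?_, ?_, ?_⟩
  · rw [h.q0, h.r0, real_inner_self_eq_norm_sq, h.b1]
    simp
  · rw [h1, h.q0]
    have : ⟪b, T b⟫_ℝ ≤ ‖b‖ * ‖T b‖ := real_inner_le_norm _ _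
    have h2 := h.one b
    rw [h.b1] at this h2
    norm_num
    linarith
  · rw [h1, h.q0, h.r0]
    simp
    positivity

lemma loc_succ (h : SRun T b τ K x r q a) (hZ : 1 ≤ Z) {k : ℕ} (hk : k < K)
    (hRne : r (k+1) ≠ 0) (hs : 100000 * (K * (τ * Z)) ≤ 1) (hL : Loc T τ Z r q k) (hN : Nxt T τ Z r q a k) :
    Loc T τ Z r q (k + 1) := by
  have hτ := h.tau
  have hσ : 0 ≤ τ * Z := by positivity
  have hkK : (k : ℝ) + 1 ≤ K := by exact_mod_cast hk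
  have hk0 : (0 : ℝ) ≤ k := Nat.cast_nonneg k
  have hσk : (k + 1) * (τ * Z) ≤ 1 / 100000 := by nlinarith
  have hσ1 : τ * Z ≤ 1 / 100000 := by nlinarith
  have hτσ : τ ≤ τ * Z := by nlinarith
  have hR : 0 < ‖r (k+1)‖ := norm_pos_iff.2 hRne
  have hapos := hN.apos
  have habs : |a k| = a k := abs_of_pos hapos
  have h3 := h.h3 k hk hRne
  have h2 := h.h2 k hk
  rw [habs] at h2
  set R := ‖r (k+1)‖ with hRdef
  set ρ := ‖r k‖ with hρdef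
  set Q := ‖q k‖ with hQdef
  set α := √(a k) with hα
  have hQ0 : 0 ≤ Q := norm_nonneg _
  have hρ0 : 0 ≤ ρ := norm_nonneg _
  have hα0 : 0 ≤ α := Real.sqrt_nonneg _
  have hαsq : α^2 = a k := Real.sq_sqrt hapos.le
  have hρα : ρ ≤ 1.5 * α := by
    apply abs_le_of_sq_le_sq' _ (by positivity) |>.2
    have := hN.alow
    rw [mul_pow, hαsq]
    linarith
  have hRα : R ≤ 2.7 * α := hN.rn
  have hRR : R^2 ≤ 7.29 * a k := by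
    calc R^2 ≤ (2.7 * α)^2 := by gcongr
      _ = 7.29 * a k := by rw [mul_pow, hαsq]; norm_num
  have hRρ : R * ρ ≤ 4.05 * a k := by
    calc R * ρ ≤ (2.7 * α) * (1.5 * α) := by gcongr
      _ = 4.05 * α^2 := by ring
      _ = 4.05 * a k := by rw [hαsq]
  have hQR := hN.qrn
  have hQρ := hN.qr_le
  have haQQ := hN.aqq
  set s := (R^2)⁻¹ • r (k+1) with hs'
  set e3 := q (k+1) - s - q k with he3
  set e2 := r (k+1) - r k + a k • T (q k) with he2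
  have hq1 : q (k+1) = s + q k + e3 := by rw [he3]; abel
  have hRR1 : R^2 * (R^2)⁻¹ = 1 := mul_inv_cancel₀ (by positivity)
  have hRe3 : R * ‖e3‖ ≤ 5 * (τ * Z) := by
    calc R * ‖e3‖ ≤ R * (τ * (R⁻¹ + Q)) := by gcongr
      _ = τ * (R * R⁻¹ + Q * R) := by ring
      _ = τ * (1 + Q * R) := by rw [mul_inv_cancel₀ hR.ne']
      _ ≤ τ * (1 + 4 * Z) := by gcongr
      _ ≤ 5 * (τ * Z) := by linarith
  -- A
  have hs1 : ⟪s, r (k+1)⟫_ℝ = 1 := by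
    rw [hs', inner_smul_left, real_inner_self_eq_norm_sq]
    simp only [conj_trivial]
    rw [mul_comm]; exact hRR1
  have he3r : |⟪e3, r (k+1)⟫_ℝ| ≤ 5 * (τ * Z) := by
    calc |⟪e3, r (k+1)⟫_ℝ| ≤ ‖e3‖ * R := abs_real_inner_le_norm _ _
      _ ≤ 5 * (τ * Z) := by rw [mul_comm]; exact hRe3
  have hqr1 : ⟪q (k+1), r (k+1)⟫_ℝ = 1 + ⟪q k, r (k+1)⟫_ℝ + ⟪e3, r (k+1)⟫_ℝ := by
    conv_lhs => rw [hq1]
    rw [inner_add_left, inner_add_left, hs1]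
  have hz := hN.z
  have hA0 := hL.A
  have hA : |⟪q (k+1), r (k+1)⟫_ℝ - 1| ≤ (10 * k + 9.5) * (τ * Z) := by
    rw [hqr1]
    have e : 1 + ⟪q k, r (k+1)⟫_ℝ + ⟪e3, r (k+1)⟫_ℝ - 1 =
      (⟪q k, r (k+1)⟫_ℝ - (⟪q k, r k⟫_ℝ - 1)) + (⟪q k, r k⟫_ℝ - 1) + ⟪e3, r (k+1)⟫_ℝ := by ring
    rw [e]
    refine (abs_add_three _ _ _).trans ?_
    linarith
  -- inner product of q (k+1) and T (q k)
  have hc : R^2 * |⟪q (k+1), T (q k)⟫_ℝ| ≤ (170 * k + 280) * (τ * Z) := by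
    have e : R^2 * (a k * ⟪q (k+1), T (q k)⟫_ℝ) = ⟪r (k+1), r k⟫_ℝ +
        R^2 * (-(⟪q k, r (k+1)⟫_ℝ - (⟪q k, r k⟫_ℝ - 1)) - ⟪e3, r (k+1)⟫_ℝ)
        + R^2 * ⟪e3, r k⟫_ℝ + R^2 * ⟪q (k+1), e2⟫_ℝ := by
      have e1 : a k • T (q k) = r k - r (k+1) + e2 := by rw [he2]; abel
      have e4 : a k * ⟪q (k+1), T (q k)⟫_ℝ = ⟪q (k+1), r k⟫_ℝ - ⟪q (k+1), r (k+1)⟫_ℝ
          + ⟪q (k+1), e2⟫_ℝ := by
        rw [← inner_smul_right, e1, inner_add_right, inner_sub_right]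
      have e5 : ⟪q (k+1), r k⟫_ℝ = (R^2)⁻¹ * ⟪r (k+1), r k⟫_ℝ + ⟪q k, r k⟫_ℝ + ⟪e3, r k⟫_ℝ := by
        conv_lhs => rw [hq1]
        rw [inner_add_left, inner_add_left, hs', inner_smul_left]
        simp only [conj_trivial]
      rw [e4, e5, hqr1]
      linear_combination (⟪r (k+1), r k⟫_ℝ) * hRR1
    have b1 : |⟪r (k+1), r k⟫_ℝ| ≤ (170 * k + 169) * (τ * Z) * a k := hN.y
    have b2 : |R^2 * (-(⟪q k, r (k+1)⟫_ℝ - (⟪q k, r k⟫_ℝ - 1)) - ⟪e3, r (k+1)⟫_ℝ)| ≤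
        69.3 * (τ * Z) * a k := by
      rw [abs_mul, abs_of_nonneg (sq_nonneg R)]
      calc R^2 * |-(⟪q k, r (k+1)⟫_ℝ - (⟪q k, r k⟫_ℝ - 1)) - ⟪e3, r (k+1)⟫_ℝ|
          ≤ (7.29 * a k) * (9.5 * (τ * Z)) := by
            gcongr
            refine (abs_sub _ _).trans ?_
            rw [abs_neg]
            linarith
        _ ≤ 69.3 * (τ * Z) * a k := by nlinarith
    have hρe3 : ‖e3‖ ≤ τ * (R⁻¹ + Q) := h3
    have b3 : |R^2 * ⟪e3, r k⟫_ℝ| ≤ 15 * (τ * Z) * a k := by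
      rw [abs_mul, abs_of_nonneg (sq_nonneg R)]
      calc R^2 * |⟪e3, r k⟫_ℝ| ≤ R^2 * (‖e3‖ * ρ) := by
            gcongr; exact abs_real_inner_le_norm _ _
        _ ≤ R^2 * ((τ * (R⁻¹ + Q)) * ρ) := by gcongr
        _ = τ * (R * R⁻¹ * (R * ρ) + (Q * ρ) * R^2) := by ring
        _ = τ * (R * ρ + (Q * ρ) * R^2) := by rw [mul_inv_cancel₀ hR.ne', one_mul]
        _ ≤ τ * (4.05 * a k + (1.5 * Z) * (7.29 * a k)) := by gcongr
        _ = 4.05 * τ * a k + 10.935 * (τ * Z) * a k := by ring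
        _ ≤ 15 * (τ * Z) * a k := by nlinarith
    have hq1n : ‖q (k+1)‖ ≤ 1.00001 * (R⁻¹ + Q) := by
      have hsn : ‖s‖ = R⁻¹ := by
        rw [hs', norm_smul, norm_inv, norm_pow, norm_norm, pow_two, mul_inv, mul_assoc,
          inv_mul_cancel₀ hR.ne', mul_one]
      rw [hq1]
      calc ‖s + q k + e3‖ ≤ ‖s‖ + ‖q k‖ + ‖e3‖ := norm_add₃_le
        _ ≤ R⁻¹ + Q + τ * (R⁻¹ + Q) := by rw [hsn]; gcongr
        _ = (1 + τ) * (R⁻¹ + Q) := by ring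
        _ ≤ 1.00001 * (R⁻¹ + Q) := by
          gcongr
          linarith
    have b4 : |R^2 * ⟪q (k+1), e2⟫_ℝ| ≤ 26.6 * (τ * Z) * a k := by
      rw [abs_mul, abs_of_nonneg (sq_nonneg R)]
      calc R^2 * |⟪q (k+1), e2⟫_ℝ| ≤ R^2 * (‖q (k+1)‖ * ‖e2‖) := by
            gcongr; exact abs_real_inner_le_norm _ _
        _ ≤ R^2 * ((1.00001 * (R⁻¹ + Q)) * (τ * (ρ + a k * Q))) := by gcongr
        _ = 1.00001 * τ * ((R * R⁻¹) * (R * ρ) + (R * R⁻¹) * (Q * R) * a k + (Q * ρ) * R^2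
              + (a k * Q^2) * R^2) := by ring
        _ = 1.00001 * τ * ((R * ρ) + (Q * R) * a k + (Q * ρ) * R^2
              + (a k * Q^2) * R^2) := by rw [mul_inv_cancel₀ hR.ne', one_mul, one_mul]
        _ ≤ 1.00001 * τ * (4.05 * a k + (4 * Z) * a k + (1.5 * Z) * (7.29 * a k)
              + Z * (7.29 * a k)) := by gcongr
        _ = 1.00001 * (4.05 * τ * a k + 22.225 * (τ * Z) * a k) := by ring
        _ ≤ 26.6 * (τ * Z) * a k := by nlinarith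
    have tot : |R^2 * (a k * ⟪q (k+1), T (q k)⟫_ℝ)| ≤ ((170 * k + 280) * (τ * Z)) * a k := by
      rw [e]
      refine (abs_add_le _ _).trans ?_
      have := abs_add_three (⟪r (k+1), r k⟫_ℝ)
        (R^2 * (-(⟪q k, r (k+1)⟫_ℝ - (⟪q k, r k⟫_ℝ - 1)) - ⟪e3, r (k+1)⟫_ℝ)) (R^2 * ⟪e3, r k⟫_ℝ)
      nlinarith [mul_nonneg hσ hapos.le]
    have e6 : |R^2 * (a k * ⟪q (k+1), T (q k)⟫_ℝ)| = (R^2 * |⟪q (k+1), T (q k)⟫_ℝ|) * a k := by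
      rw [abs_mul, abs_mul, habs, abs_of_nonneg (sq_nonneg R)]
      ring
    rw [e6] at tot
    exact le_of_mul_le_mul_right tot hapos
  have hc' : (170 * k + 280) * (τ * Z) ≤ 0.0028 := by nlinarith
  set w := R * ‖T (q (k+1))‖ with hw
  have hw0 : 0 ≤ w := by positivity
  have hwsq : w^2 ≤ R^2 * ⟪q (k+1), T (q (k+1))⟫_ℝ := by
    rw [hw, mul_pow]
    gcongr
    exact T_sq h.sym h.pos h.one _
  have he3T : R^2 * |⟪T (q (k+1)), e3⟫_ℝ| ≤ 5 * (τ * Z) * w := by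
    calc R^2 * |⟪T (q (k+1)), e3⟫_ℝ| ≤ R^2 * (‖T (q (k+1))‖ * ‖e3‖) := by
          gcongr; exact abs_real_inner_le_norm _ _
      _ = (R * ‖e3‖) * w := by rw [hw]; ring
      _ ≤ 5 * (τ * Z) * w := by gcongr
  have hgC : R^2 * |⟪T (q (k+1)), q (k+1) - s⟫_ℝ| ≤ (170 * k + 280) * (τ * Z) + 5 * (τ * Z) * w := by
    have e : q (k+1) - s = q k + e3 := by rw [he3]; abel
    rw [e, inner_add_right]
    have e7 : ⟪T (q (k+1)), q k⟫_ℝ = ⟪q (k+1), T (q k)⟫_ℝ := h.sym _ _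
    rw [e7]
    calc R^2 * |⟪q (k+1), T (q k)⟫_ℝ + ⟪T (q (k+1)), e3⟫_ℝ|
        ≤ R^2 * (|⟪q (k+1), T (q k)⟫_ℝ| + |⟪T (q (k+1)), e3⟫_ℝ|) := by
          gcongr; exact abs_add_le _ _
      _ = R^2 * |⟪q (k+1), T (q k)⟫_ℝ| + R^2 * |⟪T (q (k+1)), e3⟫_ℝ| := by ring
      _ ≤ _ := by gcongr
  have hV : R^2 * ⟪q (k+1), T (q (k+1))⟫_ℝ ≤ 1.0001 * w + 0.0028 := by
    have e : ⟪q (k+1), T (q (k+1))⟫_ℝ = ⟪s, T (q (k+1))⟫_ℝ + ⟪T (q (k+1)), q (k+1) - s⟫_ℝ := by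
      rw [inner_sub_right, real_inner_comm s, real_inner_comm (q (k+1)) (T (q (k+1)))]
      ring
    have e8 : R^2 * ⟪s, T (q (k+1))⟫_ℝ ≤ w := by
      rw [hs', inner_smul_left]
      simp only [conj_trivial]
      rw [← mul_assoc, hRR1, one_mul, hw]
      exact real_inner_le_norm _ _
    have e9 : R^2 * ⟪T (q (k+1)), q (k+1) - s⟫_ℝ ≤ R^2 * |⟪T (q (k+1)), q (k+1) - s⟫_ℝ| := by
      gcongr; exact le_abs_self _
    rw [e, mul_add]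
    have : 5 * (τ * Z) * w ≤ 0.0001 * w := by
      gcongr
      linarith
    linarith
  have hV1 : R^2 * ⟪q (k+1), T (q (k+1))⟫_ℝ ≤ 1.1 := by
    by_contra hcon
    push Not at hcon
    have hw1 : 1.09 < w := by linarith
    nlinarith
  have hw1 : w ≤ 1.05 := by
    apply abs_le_of_sq_le_sq' _ (by norm_num) |>.2
    calc w^2 ≤ _ := hwsq
      _ ≤ 1.1 := hV1
      _ ≤ 1.05^2 := by norm_num
  refine ⟨?_, hV1, ?_⟩
  · push_cast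
    refine hA.trans ?_
    nlinarith
  · push_cast
    refine hgC.trans ?_
    have : 5 * (τ * Z) * w ≤ 5 * (τ * Z) * 1.05 := by gcongr
    nlinarith

/-- All local facts, given the bound `|a j| ‖q j‖² ≤ Z` for the earlier steps. -/
theorem loc_all (h : SRun T b τ K x r q a) (hZ : 1 ≤ Z)
    (hs : 100000 * (K * (τ * Z)) ≤ 1) (k : ℕ) (hk : k ≤ K) (hrk : r k ≠ 0)
    (hz : ∀ j < k, |a j| * ‖q j‖^2 ≤ Z) : Loc T τ Z r q k := by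
  induction k with
  | zero => exact loc_zero h hZ
  | succ k ih =>
    have hL := ih (by omega) (h.rne k hk) (fun j hj => hz j (by omega))
    exact loc_succ h hZ hk hrk hs hL (nxt_of_loc h hZ hk hs hL (hz k (by omega)))

theorem nxt_all (h : SRun T b τ K x r q a) (hZ : 1 ≤ Z)
    (hs : 100000 * (K * (τ * Z)) ≤ 1) (k : ℕ) (hk : k < K)
    (hz : ∀ j ≤ k, |a j| * ‖q j‖^2 ≤ Z) : Nxt T τ Z r q a k :=
  nxt_of_loc h hZ hk hs (loc_all h hZ hs k hk.le (h.rne k hk) (fun j hj => hz j hj.le))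
    (hz k le_rfl)

end Pool.Agent.Helper643.CG
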