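import Mathlib

namespace Pool.Agent.Helper643.CG

open scoped InnerProductSpace

variable {E : Type*} [NormedAddCommGroup E] [InnerProductSpace ℝ E]

/-- A run with crude a priori bounds `G` and tiny local errors `η`. -/
structure Sharp (T : E →ₗ[ℝ] E) (G η : ℝ) (K : ℕ) (x r q : ℕ → E) (a : ℕ → ℝ) : Prop where
  sym : ∀ y z, ⟪T y, z⟫_ℝ = ⟪y, T z⟫_ℝ
  one : ∀ y, ‖T y‖ ≤ ‖y‖
  G1 : 1 ≤ G
  η0 : 0 ≤ η
  KG : (K:ℝ) ≤ G
  r01 : ‖r 0‖ = 1
  q0 : q 0 = r 0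
  x0 : x 0 = 0
  rlo : ∀ l ≤ K, 1 ≤ G * ‖r l‖
  rhi : ∀ l ≤ K, ‖r l‖ ≤ G
  ahi : ∀ l < K, a l ≤ G
  alo : ∀ l < K, 0.45 * ‖r l‖^2 ≤ a l
  qhi : ∀ l ≤ K, ‖q l‖ ≤ G
  e1 : ∀ l < K, ‖x (l+1) - x l - a l • q l‖ ≤ η
  e2 : ∀ l < K, ‖r (l+1) - r l + a l • T (q l)‖ ≤ η
  e3 : ∀ l < K, ‖q (l+1) - q l - (‖r (l+1)‖^2)⁻¹ • r (l+1)‖ ≤ η
  l1 : ∀ l < K, |a l * ⟪q l, T (q l)⟫_ℝ - 1| ≤ η
  l2 : ∀ l < K, |⟪q l, r (l+1)⟫_ℝ| ≤ η

variable {T : E →ₗ[ℝ] E} {G η : ℝ} {K : ℕ} {x r q : ℕ → E} {a : ℕ → ℝ}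

/-- The scalar recurrence at the parameter `θ`. -/
structure Scal (θ : ℝ) (r : ℕ → E) (a : ℕ → ℝ) (ψ ζ : ℕ → ℝ) : Prop where
  ψ0 : ψ 0 = 1
  ζ0 : ζ 0 = 1
  hψ : ∀ l, ψ (l+1) = ψ l - θ * a l * ζ l
  hζ : ∀ l, ζ (l+1) = ζ l + ψ (l+1) / ‖r (l+1)‖^2

variable {θ : ℝ} {ψ ζ : ℕ → ℝ}

lemma Sharp.rpos (h : Sharp T G η K x r q a) {l : ℕ} (hl : l ≤ K) : 0 < ‖r l‖ := by
  have h1 := h.rlo l hl
  have h2 := h.G1
  by_contra hcon
  have : ‖r l‖ = 0 := le_antisymm (not_lt.1 hcon) (norm_nonneg _)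
  rw [this] at h1
  linarith

lemma Sharp.rinv (h : Sharp T G η K x r q a) {l : ℕ} (hl : l ≤ K) : ‖r l‖⁻¹ ≤ G := by
  rw [inv_le_iff_one_le_mul₀ (h.rpos hl)]
  exact h.rlo l hl

lemma Sharp.minv (h : Sharp T G η K x r q a) {l : ℕ} (hl : l ≤ K) : (‖r l‖^2)⁻¹ ≤ G^2 := by
  rw [← inv_pow]
  have := h.rinv hl
  have h0 := h.rpos hl
  gcongr

lemma Sharp.apos (h : Sharp T G η K x r q a) {l : ℕ} (hl : l < K) : 0 < a l := by
  have h1 := h.alo l hl
  have h2 := h.rpos hl.le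
  have : 0 < 0.45 * ‖r l‖^2 := by positivity
  linarith

lemma psi_le (h : Sharp T G η K x r q a) (hs : Scal θ r a ψ ζ) (hθ : 0 < θ) {k : ℕ} (hk : k ≤ K)
    (hpos : ∀ l < k, 0 < ζ l) : ∀ l ≤ k, ψ l ≤ 1 := by
  intro l
  induction l with
  | zero => intro _; rw [hs.ψ0]
  | succ l ih =>
    intro hl
    have h1 := ih (by omega)
    have h2 := h.apos (show l < K by omega)
    have h3 := hpos l (by omega)
    rw [hs.hψ]
    have : 0 < θ * a l * ζ l := by positivity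
    linarith

lemma zeta_le (h : Sharp T G η K x r q a) (hs : Scal θ r a ψ ζ) (hθ : 0 < θ) {k : ℕ} (hk : k ≤ K)
    (hpos : ∀ l < k, 0 < ζ l) : ∀ l ≤ k, ζ l ≤ 2 * G^3 := by
  have key : ∀ l ≤ k, ζ l ≤ 1 + l * G^2 := by
    intro l
    induction l with
    | zero => intro _; rw [hs.ζ0]; simp
    | succ l ih =>
      intro hl
      have h1 := ih (by omega)
      have h2 := psi_le h hs hθ hk hpos (l+1) hl
      have h3 := h.minv (show l + 1 ≤ K by omega)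
      rw [hs.hζ, div_eq_mul_inv]
      have h4 : 0 < (‖r (l+1)‖^2)⁻¹ := by
        have := h.rpos (show l + 1 ≤ K by omega)
        positivity
      have h5 : ψ (l+1) * (‖r (l+1)‖^2)⁻¹ ≤ 1 * G^2 := by
        calc ψ (l+1) * (‖r (l+1)‖^2)⁻¹ ≤ 1 * (‖r (l+1)‖^2)⁻¹ := by gcongr
          _ ≤ 1 * G^2 := by gcongr
      push_cast
      linarith
  intro l hl
  have h1 := key l hl
  have hG := h.G1
  have h2 : (l:ℝ) ≤ G := by
    have : (l:ℝ) ≤ K := by exact_mod_cast (by omega : l ≤ K)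
    exact this.trans h.KG
  have h3 : (l:ℝ) * G^2 ≤ G * G^2 := by gcongr
  have h4 : (1:ℝ) ≤ G^3 := one_le_pow₀ hG
  have h5 : G * G^2 = G^3 := by ring
  linarith

lemma psi_ge (h : Sharp T G η K x r q a) (hs : Scal θ r a ψ ζ) (hθ : 0 < θ) (hθ1 : θ ≤ 1)
    {k : ℕ} (hk : k ≤ K) (hpos : ∀ l < k, 0 < ζ l) : ∀ l ≤ k, |ψ l| ≤ 2 * G^5 := by
  have hG := h.G1
  have key : ∀ l ≤ k, 1 - l * (2 * G^4) ≤ ψ l := by
    intro l
    induction l with
    | zero => intro _; rw [hs.ψ0]; simp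
    | succ l ih =>
      intro hl
      have h1 := ih (by omega)
      have h2 := h.apos (show l < K by omega)
      have h3 := hpos l (by omega)
      have h4 := h.ahi l (by omega)
      have h5 := zeta_le h hs hθ hk hpos l (by omega)
      have h6 : θ * a l * ζ l ≤ 1 * G * (2 * G^3) := by gcongr
      have h7 : 1 * G * (2 * G^3) = 2 * G^4 := by ring
      rw [hs.hψ]
      push_cast
      linarith
  intro l hl
  have h1 := key l hl
  have h2 : (l:ℝ) ≤ G := by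
    have : (l:ℝ) ≤ K := by exact_mod_cast (by omega : l ≤ K)
    exact this.trans h.KG
  have h3 : (l:ℝ) * (2 * G^4) ≤ G * (2 * G^4) := by gcongr
  have h4 := psi_le h hs hθ hk hpos l hl
  have h5 : (1:ℝ) ≤ G^5 := one_le_pow₀ hG
  rw [abs_le]
  constructor <;> nlinarith

/-- lower bound for `ζ` well before the crossing -/
lemma zeta_ge (h : Sharp T G η K x r q a) (hs : Scal θ r a ψ ζ) (hθ : 0 < θ)
    {k : ℕ} (hk : k ≤ K) (hpos : ∀ l < k, 0 < ζ l) {l : ℕ} (hl : l + 2 ≤ k) :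
    1 ≤ 2 * G^5 * ζ l := by
  have hG := h.G1
  have hG5 : (1:ℝ) ≤ G^5 := one_le_pow₀ hG
  rcases le_or_gt (1/2) (ζ l) with h1 | h1
  · nlinarith
  · -- some ψ i is quite negative
    have hdec : ∀ i j, i ≤ j → j ≤ k → ψ j ≤ ψ i := by
      intro i j hij
      induction j, hij using Nat.le_induction with
      | base => intro _; exact le_rfl
      | succ j hij ih =>
        intro hj
        have h2 := ih (by omega)
        have h3 := h.apos (show j < K by omega)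
        have h4 := hpos j (by omega)
        rw [hs.hψ]
        have : 0 < θ * a j * ζ j := by positivity
        linarith
    have hex : ∃ i, 1 ≤ i ∧ i ≤ l ∧ ψ i * (2 * G) ≤ -(‖r i‖^2) := by
      by_contra hcon
      push Not at hcon
      have key : ∀ j ≤ l, 1 - j * (2 * G)⁻¹ ≤ ζ j := by
        intro j
        induction j with
        | zero => intro _; rw [hs.ζ0]; simp
        | succ j ih =>
          intro hj
          have h2 := ih (by omega)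
          have h3 := hcon (j+1) (by omega) hj
          have h4 := h.rpos (show j + 1 ≤ K by omega)
          rw [hs.hζ]
          have h5 : -(2 * G)⁻¹ ≤ ψ (j+1) / ‖r (j+1)‖^2 := by
            rw [le_div_iff₀ (by positivity), neg_mul, ← neg_le_neg_iff, neg_neg,
              ← div_eq_inv_mul, le_div_iff₀ (by positivity)]
            linarith
          push_cast
          linarith
      have h2 := key l le_rfl
      have h3 : (l:ℝ) * (2 * G)⁻¹ ≤ 1/2 := by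
        rw [← div_eq_mul_inv, div_le_iff₀ (by positivity)]
        have : (l:ℝ) ≤ K := by exact_mod_cast (by omega : l ≤ K)
        have := h.KG
        linarith
      linarith
    obtain ⟨i, hi1, hil, hi⟩ := hex
    have h2 := hdec i (l+1) (by omega) (by omega)
    have h3 := hpos (l+1) (by omega)
    rw [hs.hζ] at h3
    have h4 := h.rpos (show l + 1 ≤ K by omega)
    have h5 := h.rpos (show i ≤ K by omega)
    have h6 := h.rhi (l+1) (by omega)
    have h7 := h.rlo i (by omega)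
    have h8 : -ψ (l+1) < ζ l * ‖r (l+1)‖^2 := by
      have h9 : 0 < (ζ l + ψ (l+1) / ‖r (l+1)‖^2) * ‖r (l+1)‖^2 := by positivity
      have h10 : (ζ l + ψ (l+1) / ‖r (l+1)‖^2) * ‖r (l+1)‖^2 = ζ l * ‖r (l+1)‖^2 + ψ (l+1) := by
        field_simp
      linarith
    have h9 : ζ l * ‖r (l+1)‖^2 ≤ ζ l * G^2 := by
      have := hpos l (by omega)
      gcongr
    have h10 : (1:ℝ) ≤ G^2 * ‖r i‖^2 := by
      calc (1:ℝ) ≤ (G * ‖r i‖)^2 := one_le_pow₀ h7
        _ = _ := by ring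
    -- combine
    have h11 : ‖r i‖^2 ≤ (2 * G) * (ζ l * G^2) := by nlinarith
    calc (1:ℝ) ≤ G^2 * ‖r i‖^2 := h10
      _ ≤ G^2 * ((2 * G) * (ζ l * G^2)) := by gcongr
      _ = 2 * G^5 * ζ l := by ring

end Pool.Agent.Helper643.CG
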