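import Mathlib
import Pool.Agent.Helper643.CGSharpA

/-!
Consequences of near-orthogonality of the residuals.
-/

namespace Pool.Agent.Helper643.CG

open scoped InnerProductSpace

variable {E : Type*} [NormedAddCommGroup E] [InnerProductSpace ℝ E]
variable {T : E →ₗ[ℝ] E} {G η μ : ℝ} {K m : ℕ} {x r q : ℕ → E} {a : ℕ → ℝ}

/-- Partial sums of the step sizes. -/
noncomputable def sg (a : ℕ → ℝ) (k : ℕ) : ℝ := ∑ j ∈ Finset.range k, a j

lemma sg_succ (a : ℕ → ℝ) (k : ℕ) : sg a (k+1) = sg a k + a k := by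
  rw [sg, Finset.sum_range_succ]; rfl

lemma sg_mono (h : Sharp T G η K x r q a) {i k : ℕ} (hik : i ≤ k) (hk : k ≤ K) :
    sg a i ≤ sg a k := by
  induction k, hik using Nat.le_induction with
  | base => exact le_rfl
  | succ k hik ih =>
    rw [sg_succ]
    have := h.apos (show k < K by omega)
    linarith [ih (by omega)]

lemma bessel_near {N : ℕ} {c : ℝ} (hne : ∀ i < N, r i ≠ 0) (hc0 : 0 ≤ c) (hc : N * c ≤ 0.01)
    (ho : ∀ i < N, ∀ j < N, i ≠ j → |⟪r i, r j⟫_ℝ| ≤ c * (‖r i‖ * ‖r j‖)) (y : E) :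
    ∑ i ∈ Finset.range N, ⟪y, r i⟫_ℝ^2 / ‖r i‖^2 ≤ 1.01 * ‖y‖^2 := by
  set d : ℕ → ℝ := fun i => ⟪y, r i⟫_ℝ / ‖r i‖ with hd
  set S := ∑ i ∈ Finset.range N, d i^2 with hS
  have e0 : ∑ i ∈ Finset.range N, ⟪y, r i⟫_ℝ^2 / ‖r i‖^2 = S := by
    rw [hS]
    exact Finset.sum_congr rfl fun i _ => by rw [hd]; simp only [div_pow]
  rw [e0]
  have hS0 : 0 ≤ S := Finset.sum_nonneg fun _ _ => sq_nonneg _
  set w : E := ∑ i ∈ Finset.range N, (d i / ‖r i‖) • r i with hw
  have e1 : ⟪y, w⟫_ℝ = S := by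
    rw [hw, inner_sum, hS]
    refine Finset.sum_congr rfl fun i _ => ?_
    rw [real_inner_smul_right, hd]
    ring
  have e2 : ‖w‖^2 ≤ 1.01 * S := by
    rw [← real_inner_self_eq_norm_sq]
    conv_lhs => rw [hw]
    rw [sum_inner]
    have e3 : ∀ i ∈ Finset.range N, ⟪(d i / ‖r i‖) • r i, ∑ j ∈ Finset.range N, (d j / ‖r j‖) • r j⟫_ℝ
        ≤ d i^2 + c * (|d i| * ∑ j ∈ Finset.range N, |d j|) := by
      intro i hi
      have hi' := Finset.mem_range.1 hi
      rw [inner_sum]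
      have e4 : ∀ j ∈ Finset.range N, ⟪(d i / ‖r i‖) • r i, (d j / ‖r j‖) • r j⟫_ℝ ≤
          (if i = j then d i^2 else 0) + c * (|d i| * |d j|) := by
        intro j hj
        have hj' := Finset.mem_range.1 hj
        have hri : 0 < ‖r i‖ := norm_pos_iff.2 (hne i hi')
        have hrj : 0 < ‖r j‖ := norm_pos_iff.2 (hne j hj')
        rw [real_inner_smul_left, real_inner_smul_right]
        by_cases hij : i = j
        · rw [if_pos hij, ← hij, real_inner_self_eq_norm_sq]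
          have e5 : d i / ‖r i‖ * (d i / ‖r i‖ * ‖r i‖^2) = d i^2 := by field_simp
          rw [e5]
          have : 0 ≤ c * (|d i| * |d i|) := by positivity
          linarith
        · rw [if_neg hij, zero_add]
          refine (le_abs_self _).trans ?_
          rw [abs_mul, abs_mul, abs_div (d i), abs_div (d j), abs_of_pos hri, abs_of_pos hrj]
          calc |d i| / ‖r i‖ * (|d j| / ‖r j‖ * |⟪r i, r j⟫_ℝ|)
              ≤ |d i| / ‖r i‖ * (|d j| / ‖r j‖ * (c * (‖r i‖ * ‖r j‖))) := by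
                gcongr
                exact ho i hi' j hj' hij
            _ = _ := by field_simp
      refine (Finset.sum_le_sum e4).trans ?_
      rw [Finset.sum_add_distrib, Finset.sum_ite_eq, if_pos hi, ← Finset.mul_sum,
        ← Finset.mul_sum]
    refine (Finset.sum_le_sum e3).trans ?_
    rw [Finset.sum_add_distrib, ← hS, ← Finset.mul_sum, ← Finset.sum_mul]
    have e6 : (∑ i ∈ Finset.range N, |d i|)^2 ≤ N * S := by
      have := sq_sum_le_card_mul_sum_sq (s := Finset.range N) (f := fun i => |d i|)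
      simp only [Finset.card_range, sq_abs] at this
      exact this
    have e7 : c * ((∑ i ∈ Finset.range N, |d i|) * ∑ i ∈ Finset.range N, |d i|) ≤ 0.01 * S := by
      calc c * ((∑ i ∈ Finset.range N, |d i|) * ∑ i ∈ Finset.range N, |d i|)
          = c * (∑ i ∈ Finset.range N, |d i|)^2 := by ring
        _ ≤ c * (N * S) := by gcongr
        _ = (N * c) * S := by ring
        _ ≤ 0.01 * S := by gcongr
    linarith
  have e8 : S^2 ≤ (1.01 * ‖y‖^2) * S := by
    have h1 : S ≤ ‖y‖ * ‖w‖ := by rw [← e1]; exact real_inner_le_norm _ _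
    calc S^2 ≤ (‖y‖ * ‖w‖)^2 := by gcongr
      _ = ‖y‖^2 * ‖w‖^2 := by ring
      _ ≤ ‖y‖^2 * (1.01 * S) := by gcongr
      _ = _ := by ring
  rcases hS0.eq_or_lt with h0 | h0
  · rw [← h0]; positivity
  · rw [sq] at e8
    exact le_of_mul_le_mul_right e8 h0

/-- Near-orthogonality data up to index `m`. -/
structure Near (T : E →ₗ[ℝ] E) (G η μ : ℝ) (K m : ℕ) (x r q : ℕ → E) (a : ℕ → ℝ) : Prop where
  sh : Sharp T G η K x r q a
  mK : m ≤ K
  μ0 : 0 ≤ μ
  orth : ∀ j ≤ m, ∀ i < j, |⟪r i, r j⟫_ℝ| ≤ μ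

lemma Near.orth' (h : Near T G η μ K m x r q a) {i j : ℕ} (hi : i ≤ m) (hj : j ≤ m) (hij : i ≠ j) :
    |⟪r i, r j⟫_ℝ| ≤ μ := by
  rcases lt_or_gt_of_ne hij with h1 | h1
  · exact h.orth j hj i h1
  · rw [real_inner_comm]; exact h.orth i hi j h1

lemma q_inner (h : Near T G η μ K m x r q a) :
    ∀ j ≤ m, ∀ i ≤ m, |⟪q j, r i⟫_ℝ - (if i ≤ j then 1 else 0)| ≤ (j+1) * (G^2 * μ + G * η) := by
  have hs := h.sh
  have hG := hs.G1
  have hη := hs.η0
  have hμ := h.μ0
  have hmK := h.mK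
  intro j
  induction j with
  | zero =>
    intro _ i hi
    rw [hs.q0]
    rcases Nat.eq_zero_or_pos i with h0 | h0
    · rw [h0, real_inner_self_eq_norm_sq, hs.r01]
      simp
      positivity
    · rw [if_neg (by omega), sub_zero]
      have h1 := h.orth' (show 0 ≤ m by omega) hi (by omega : (0:ℕ) ≠ i)
      have h2 : μ ≤ G^2 * μ := le_mul_of_one_le_left hμ (one_le_pow₀ hG)
      have h3 : 0 ≤ G * η := by positivity
      simp
      linarith
  | succ j ih =>
    intro hj i hi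
    have ih' := ih (by omega) i hi
    have hjK : j < K := by omega
    have h3 := hs.e3 j hjK
    set e := q (j+1) - q j - (‖r (j+1)‖^2)⁻¹ • r (j+1) with he
    have e1 : q (j+1) = q j + (‖r (j+1)‖^2)⁻¹ • r (j+1) + e := by rw [he]; abel
    have e2 : ⟪q (j+1), r i⟫_ℝ = ⟪q j, r i⟫_ℝ + (‖r (j+1)‖^2)⁻¹ * ⟪r (j+1), r i⟫_ℝ + ⟪e, r i⟫_ℝ := by
      rw [e1, inner_add_left, inner_add_left, real_inner_smul_left]
    have e3 : |⟪e, r i⟫_ℝ| ≤ G * η := by
      refine (abs_real_inner_le_norm _ _).trans ?_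
      have := hs.rhi i (by omega)
      calc ‖e‖ * ‖r i‖ ≤ η * G := by gcongr
        _ = _ := by ring
    have e4 : |(‖r (j+1)‖^2)⁻¹ * ⟪r (j+1), r i⟫_ℝ - (if i = j + 1 then 1 else 0)| ≤ G^2 * μ := by
      by_cases hij : i = j + 1
      · rw [if_pos hij, hij, real_inner_self_eq_norm_sq]
        have : 0 < ‖r (j+1)‖ := hs.rpos (by omega)
        rw [inv_mul_cancel₀ (by positivity), sub_self, abs_zero]
        positivity
      · rw [if_neg hij, sub_zero, abs_mul, abs_of_nonneg (by positivity)]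
        have h5 := hs.minv (show j + 1 ≤ K by omega)
        have h6 := h.orth' hj hi (Ne.symm hij)
        gcongr
    have e5 : (if i ≤ j + 1 then (1:ℝ) else 0) = (if i ≤ j then 1 else 0) +
        (if i = j + 1 then 1 else 0) := by
      split_ifs <;> first | omega | norm_num
    rw [e2, e5]
    have e6 : ⟪q j, r i⟫_ℝ + (‖r (j+1)‖^2)⁻¹ * ⟪r (j+1), r i⟫_ℝ + ⟪e, r i⟫_ℝ -
        ((if i ≤ j then 1 else 0) + (if i = j + 1 then 1 else 0)) =
        (⟪q j, r i⟫_ℝ - (if i ≤ j then 1 else 0)) +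
        ((‖r (j+1)‖^2)⁻¹ * ⟪r (j+1), r i⟫_ℝ - (if i = j + 1 then 1 else 0)) + ⟪e, r i⟫_ℝ := by ring
    rw [e6]
    refine (abs_add_three _ _ _).trans ?_
    push_cast
    linarith

lemma x_inner (h : Near T G η μ K m x r q a) :
    ∀ k ≤ m, ∀ i ≤ m, |⟪x k, r i⟫_ℝ - (sg a k - sg a (min i k))| ≤
      k * (3 * G^4 * (μ + η)) := by
  have hs := h.sh
  have hG := hs.G1
  have hη := hs.η0
  have hμ := h.μ0
  have hmK := h.mK
  intro k
  induction k with
  | zero =>
    intro _ i _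
    rw [hs.x0]
    simp
  | succ k ih =>
    intro hk i hi
    have ih' := ih (by omega) i hi
    have hkK : k < K := by omega
    have hq := q_inner h k (by omega) i hi
    have h1 := hs.e1 k hkK
    set e := x (k+1) - x k - a k • q k with he
    have e1 : x (k+1) = x k + a k • q k + e := by rw [he]; abel
    have ha := hs.apos hkK
    have haG := hs.ahi k hkK
    have e2 : ⟪x (k+1), r i⟫_ℝ = ⟪x k, r i⟫_ℝ + a k * ⟪q k, r i⟫_ℝ + ⟪e, r i⟫_ℝ := by
      rw [e1, inner_add_left, inner_add_left, real_inner_smul_left]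
    have e3 : |⟪e, r i⟫_ℝ| ≤ G * η := by
      refine (abs_real_inner_le_norm _ _).trans ?_
      have := hs.rhi i (by omega)
      calc ‖e‖ * ‖r i‖ ≤ η * G := by gcongr
        _ = _ := by ring
    have e4 : sg a (k+1) - sg a (min i (k+1)) = (sg a k - sg a (min i k)) +
        a k * (if i ≤ k then 1 else 0) := by
      rcases Nat.lt_or_ge k i with h2 | h2
      · rw [if_neg (by omega), min_eq_right (by omega), min_eq_right (by omega)]; ring
      · rw [if_pos h2, min_eq_left (by omega), min_eq_left h2, sg_succ]; ring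
    rw [e2, e4]
    have e5 : ⟪x k, r i⟫_ℝ + a k * ⟪q k, r i⟫_ℝ + ⟪e, r i⟫_ℝ - ((sg a k - sg a (min i k)) +
        a k * (if i ≤ k then 1 else 0)) = (⟪x k, r i⟫_ℝ - (sg a k - sg a (min i k))) +
        a k * (⟪q k, r i⟫_ℝ - (if i ≤ k then 1 else 0)) + ⟪e, r i⟫_ℝ := by ring
    rw [e5]
    refine (abs_add_three _ _ _).trans ?_
    have e6 : |a k * (⟪q k, r i⟫_ℝ - (if i ≤ k then 1 else 0))| ≤
        G * (G * (G^2 * μ + G * η)) := by
      rw [abs_mul, abs_of_pos ha]
      have hkG : (k:ℝ) + 1 ≤ G := by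
        have : (k:ℝ) + 1 ≤ K := by exact_mod_cast hkK
        exact this.trans hs.KG
      have h5 : 0 ≤ G^2 * μ + G * η := by positivity
      calc a k * |⟪q k, r i⟫_ℝ - (if i ≤ k then 1 else 0)|
          ≤ G * ((k+1) * (G^2 * μ + G * η)) := by gcongr
        _ ≤ _ := by gcongr
    have e7 : G * (G * (G^2 * μ + G * η)) + G * η ≤ 3 * G^4 * (μ + η) := by
      have h2 : G ≤ G^4 := le_self_pow₀ hG (by norm_num)
      have h3 : G^3 ≤ G^4 := pow_le_pow_right₀ hG (by norm_num)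
      have h4 : G * η ≤ G^4 * η := by gcongr
      have h5 : G^3 * η ≤ G^4 * η := by gcongr
      have h6 : 0 ≤ G^4 * μ := by positivity
      have h7 : G * (G * (G^2 * μ + G * η)) = G^4 * μ + G^3 * η := by ring
      rw [h7]
      nlinarith
    push_cast
    linarith

lemma Near.bessel (h : Near T G η μ K m x r q a) (hsm : 200 * (G^3 * μ) ≤ 1) {N : ℕ} (hN : N ≤ m + 1)
    (y : E) : ∑ i ∈ Finset.range N, ⟪y, r i⟫_ℝ^2 / ‖r i‖^2 ≤ 1.01 * ‖y‖^2 := by
  have hs := h.sh
  have hG := hs.G1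
  have hμ := h.μ0
  have hmK := h.mK
  have hpos : ∀ i < N, 0 < ‖r i‖ := fun i hi => hs.rpos (by omega)
  refine bessel_near (c := G^2 * μ) (fun i hi => norm_pos_iff.1 (hpos i hi)) (by positivity) ?_ ?_ y
  · have h1 : (N:ℝ) ≤ 2 * G := by
      have h2 : (N:ℝ) ≤ K + 1 := by exact_mod_cast (show N ≤ K + 1 by omega)
      have := hs.KG
      linarith
    calc (N:ℝ) * (G^2 * μ) ≤ (2 * G) * (G^2 * μ) := by gcongr
      _ = 2 * (G^3 * μ) := by ring
      _ ≤ 0.01 := by linarith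
  · intro i hi j hj hij
    have h1 := h.orth' (show i ≤ m by omega) (show j ≤ m by omega) hij
    have h2 := hs.rlo i (by omega)
    have h3 := hs.rlo j (by omega)
    have h4 : 1 ≤ G^2 * (‖r i‖ * ‖r j‖) := by
      calc (1:ℝ) = 1 * 1 := by ring
        _ ≤ (G * ‖r i‖) * (G * ‖r j‖) := by gcongr
        _ = _ := by ring
    calc |⟪r i, r j⟫_ℝ| ≤ μ * 1 := by rw [mul_one]; exact h1
      _ ≤ μ * (G^2 * (‖r i‖ * ‖r j‖)) := by gcongr
      _ = _ := by ring

/-- The lower bound for the iterates. -/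
theorem x_lower (h : Near T G η μ K m x r q a) (hsm : 10^4 * (G^8 * (μ + η)) ≤ 1) {k : ℕ}
    (hk : k ≤ m) :
    ∑ i ∈ Finset.range k, (sg a k - sg a i)^2 / ‖r i‖^2 ≤ 1.1 * ‖x k‖^2 := by
  have hs := h.sh
  have hG := hs.G1
  have hη := hs.η0
  have hμ := h.μ0
  have hmK := h.mK
  have h8 : G^3 * μ ≤ G^8 * (μ + η) := by
    have : G^3 ≤ G^8 := pow_le_pow_right₀ hG (by norm_num)
    calc G^3 * μ ≤ G^8 * μ := by gcongr
      _ ≤ _ := by gcongr; linarith
  have hb := h.bessel (by linarith) (show k ≤ m + 1 by omega) (x k)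
  have hterm : ∀ i ∈ Finset.range k, (sg a k - sg a i)^2 / ‖r i‖^2 ≤
      1.05 * (⟪x k, r i⟫_ℝ^2 / ‖r i‖^2) := by
    intro i hi
    have hi' := Finset.mem_range.1 hi
    have h1 := x_inner h k hk i (by omega)
    rw [min_eq_left (by omega)] at h1
    have hρ : 0 < ‖r i‖ := hs.rpos (by omega)
    have h2 : 0.45 / G^2 ≤ sg a k - sg a i := by
      have h3 := sg_mono hs (show i + 1 ≤ k by omega) (by omega)
      rw [sg_succ] at h3
      have h4 := hs.alo i (by omega)
      have h5 := hs.rlo i (by omega)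
      have h6 : 1 ≤ G^2 * ‖r i‖^2 := by
        calc (1:ℝ) = 1^2 := by ring
          _ ≤ (G * ‖r i‖)^2 := by gcongr
          _ = _ := by ring
      rw [div_le_iff₀ (by positivity)]
      have h7 : 0.45 ≤ (0.45 * ‖r i‖^2) * G^2 := by nlinarith
      have h8 : (0.45 * ‖r i‖^2) * G^2 ≤ (sg a k - sg a i) * G^2 := by
        gcongr; linarith
      linarith
    set d := sg a k - sg a i with hd
    have h3 : (k:ℝ) * (3 * G^4 * (μ + η)) ≤ 0.01 * d := by
      have hkG : (k:ℝ) ≤ G := by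
        have : (k:ℝ) ≤ K := by exact_mod_cast (show k ≤ K by omega)
        exact this.trans hs.KG
      have h4 : (k:ℝ) * (3 * G^4 * (μ + η)) * G^2 ≤ 0.001 := by
        calc (k:ℝ) * (3 * G^4 * (μ + η)) * G^2 ≤ G * (3 * G^4 * (μ + η)) * G^2 := by gcongr
          _ = 3 * (G^7 * (μ + η)) := by ring
          _ ≤ 3 * (G^8 * (μ + η)) := by
              have : G^7 ≤ G^8 := pow_le_pow_right₀ hG (by norm_num)
              gcongr
          _ ≤ 0.001 := by linarith
      have h5 : (k:ℝ) * (3 * G^4 * (μ + η)) ≤ 0.001 / G^2 := by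
        rw [le_div_iff₀ (by positivity)]; exact h4
      have h6 : (0.001:ℝ) / G^2 ≤ 0.01 * (0.45 / G^2) := by
        rw [← mul_div_assoc]; gcongr; norm_num
      linarith
    have h4 : d^2 ≤ 1.05 * ⟪x k, r i⟫_ℝ^2 := by
      have h5 : |⟪x k, r i⟫_ℝ - d| ≤ 0.01 * d := h1.trans h3
      rw [abs_le] at h5
      have hd0 : 0 ≤ d := le_trans (by positivity) h2
      nlinarith [h5.1, h5.2]
    rw [← mul_div_assoc]
    gcongr
  refine (Finset.sum_le_sum hterm).trans ?_
  rw [← Finset.mul_sum]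
  nlinarith [sq_nonneg ‖x k‖]

end Pool.Agent.Helper643.CG
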