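import Mathlib
import Pool.Agent.Helper643.CGNear
import Pool.Agent.Helper643.CGLocal

/-!
Energy estimates for near-orthogonal residuals.
-/

namespace Pool.Agent.Helper643.CG

open scoped InnerProductSpace

variable {E : Type*} [NormedAddCommGroup E] [InnerProductSpace ℝ E]
variable {T : E →ₗ[ℝ] E} {G η μ : ℝ} {K m : ℕ} {x r q : ℕ → E} {a : ℕ → ℝ} {xs : E} {κ : ℝ}

/-- Energy of the error. -/
noncomputable def En (T : E →ₗ[ℝ] E) (xs : E) (x : ℕ → E) (i : ℕ) : ℝ :=
  ⟪xs - x i, T (xs - x i)⟫_ℝ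

lemma gap_small (h : Sharp T G η K x r q a) (hxs : T xs = r 0) :
    ∀ i ≤ K, ‖T (xs - x i) - r i‖ ≤ i * (2 * η) := by
  have hη := h.η0
  intro i
  induction i with
  | zero => intro _; rw [h.x0, sub_zero, hxs]; simp
  | succ i ih =>
    intro hi
    have ih' := ih (by omega)
    have h1 := h.e1 i (by omega)
    have h2 := h.e2 i (by omega)
    set e1 := x (i+1) - x i - a i • q i with he1
    set e2 := r (i+1) - r i + a i • T (q i) with he2
    have e : T (xs - x (i+1)) - r (i+1) = (T (xs - x i) - r i) - T e1 - e2 := by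
      have f1 : x (i+1) = x i + a i • q i + e1 := by rw [he1]; abel
      have f2 : r (i+1) = r i - a i • T (q i) + e2 := by rw [he2]; abel
      rw [f2]
      have f3 : T (xs - x (i+1)) = T (xs - x i) - a i • T (q i) - T e1 := by
        rw [f1, map_sub, map_sub, map_add, map_add, map_smul]; abel
      rw [f3]; abel
    rw [e]
    have g1 := norm_sub_le ((T (xs - x i) - r i) - T e1) e2
    have g2 := norm_sub_le (T (xs - x i) - r i) (T e1)
    have g3 := h.one e1
    push_cast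
    linarith

variable (hlow : ∀ y : E, ‖y‖^2 ≤ κ * ⟪y, T y⟫_ℝ)

include hlow

lemma pos_of_low (hκ : 1 ≤ κ) (y : E) : 0 ≤ ⟪y, T y⟫_ℝ := by
  by_contra hcon
  push Not at hcon
  have := hlow y
  nlinarith [sq_nonneg ‖y‖]

lemma En_facts (h : Near T G η μ K m x r q a) (hκ : 1 ≤ κ)
    (hsm : 10^4 * (κ * (G^8 * (μ + η))) ≤ 1) (hxs : T xs = r 0) :
    (∀ i ≤ m, 0.9 * ‖r i‖^2 ≤ En T xs x i ∧ ‖xs - x i‖ ≤ 2 * κ * G ∧
      ‖T (xs - x i) - r i‖ ≤ 2 * G * η) ∧
    (∀ i < m, |En T xs x i - En T xs x (i+1) - a i| ≤ 0.01 * a i) := by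
  have hs := h.sh
  have hG := hs.G1
  have hη := hs.η0
  have hμ := h.μ0
  have hmK := h.mK
  have hpos := pos_of_low hlow hκ
  have h8 : 10^4 * (G^8 * (μ + η)) ≤ 1 := by
    have h0 : 0 ≤ G^8 * (μ + η) := by positivity
    nlinarith
  have hGη : ∀ p ≤ 8, 10^4 * (G^p * η) ≤ 1 := by
    intro p hp
    have h1 : G^p ≤ G^8 := pow_le_pow_right₀ hG hp
    have h2 : G^p * η ≤ G^8 * (μ + η) := by
      calc G^p * η ≤ G^8 * η := by gcongr
        _ ≤ _ := by gcongr; linarith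
    linarith
  have hgap : ∀ i ≤ m, ‖T (xs - x i) - r i‖ ≤ 2 * G * η := by
    intro i hi
    refine (gap_small hs hxs i (by omega)).trans ?_
    have : (i:ℝ) ≤ G := by
      have : (i:ℝ) ≤ K := by exact_mod_cast (show i ≤ K by omega)
      exact this.trans hs.KG
    nlinarith
  have ht : ∀ i ≤ m, ‖T (xs - x i)‖ ≤ 2 * G := by
    intro i hi
    have h1 : T (xs - x i) = (T (xs - x i) - r i) + r i := by abel
    rw [h1]
    refine (norm_add_le _ _).trans ?_
    have h2 := hgap i hi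
    have h3 := hs.rhi i (by omega)
    have h4 := hGη 1 (by norm_num)
    rw [pow_one] at h4
    linarith
  refine ⟨fun i hi => ⟨?_, ?_, hgap i hi⟩, ?_⟩
  · have h1 := T_sq hs.sym hpos hs.one (xs - x i)
    have h2 := hgap i hi
    have hρ := hs.rpos (show i ≤ K by omega)
    have hlo := hs.rlo i (by omega)
    have h3 : ‖r i‖ ≤ ‖T (xs - x i)‖ + ‖T (xs - x i) - r i‖ := by
      have h4 : r i = T (xs - x i) - (T (xs - x i) - r i) := by abel
      calc ‖r i‖ = ‖T (xs - x i) - (T (xs - x i) - r i)‖ := by rw [← h4]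
        _ ≤ _ := norm_sub_le _ _
    have h5 : 2 * G * η ≤ 0.01 * ‖r i‖ := by
      have h6 := hGη 2 (by norm_num)
      have h7 : 2 * G * η = 2 * (G * η) * 1 := by ring
      rw [h7]
      calc 2 * (G * η) * 1 ≤ 2 * (G * η) * (G * ‖r i‖) := by gcongr
        _ = 2 * (G^2 * η) * ‖r i‖ := by ring
        _ ≤ 0.01 * ‖r i‖ := by gcongr; linarith
    have h6 : 0.99 * ‖r i‖ ≤ ‖T (xs - x i)‖ := by linarith
    have h7 : 0.9 * ‖r i‖^2 ≤ ‖T (xs - x i)‖^2 := by
      calc 0.9 * ‖r i‖^2 ≤ (0.99 * ‖r i‖)^2 := by nlinarith [sq_nonneg ‖r i‖]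
        _ ≤ _ := by gcongr
    exact h7.trans h1
  · have h1 := hlow (xs - x i)
    have h2 : ⟪xs - x i, T (xs - x i)⟫_ℝ ≤ ‖xs - x i‖ * ‖T (xs - x i)‖ := real_inner_le_norm _ _
    have h3 := ht i hi
    set y := ‖xs - x i‖ with hy
    have hy0 : 0 ≤ y := norm_nonneg _
    have h4 : y^2 ≤ κ * (y * (2 * G)) := by
      refine h1.trans ?_
      gcongr
      exact h2.trans (by gcongr)
    rcases hy0.eq_or_lt with h0 | h0
    · rw [← h0]; positivity
    · have : y * y ≤ (2 * κ * G) * y := by nlinarith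
      exact le_of_mul_le_mul_right this h0
  · intro i hi
    have hiK : i < K := by omega
    have h1 := hs.e1 i hiK
    set e := x (i+1) - x i - a i • q i with he
    set t := T (xs - x i) with htdef
    have ha := hs.apos hiK
    have hqG := hs.qhi i hiK.le
    have hxe : xs - x (i+1) = (xs - x i) - (a i • q i + e) := by rw [he]; abel
    set d := a i • q i + e with hd
    have gen : ∀ y d : E, ⟪y, T y⟫_ℝ - ⟪y - d, T (y - d)⟫_ℝ = 2 * ⟪d, T y⟫_ℝ - ⟪d, T d⟫_ℝ := by
      intro y d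
      have f : ⟪y, T d⟫_ℝ = ⟪d, T y⟫_ℝ := by rw [← hs.sym, real_inner_comm]
      rw [map_sub, inner_sub_left, inner_sub_right, inner_sub_right, f]
      ring
    have e1 : En T xs x i - En T xs x (i+1) = 2 * ⟪d, t⟫_ℝ - ⟪d, T d⟫_ℝ := by
      rw [En, En, hxe]
      exact gen _ _
    have e2 : ⟪d, t⟫_ℝ = a i * ⟪q i, r i⟫_ℝ + a i * ⟪q i, t - r i⟫_ℝ + ⟪e, t⟫_ℝ := by
      rw [hd, inner_add_left, real_inner_smul_left, inner_sub_right]; ring
    have e3 : ⟪d, T d⟫_ℝ = a i * (a i * ⟪q i, T (q i)⟫_ℝ) + 2 * (a i * ⟪e, T (q i)⟫_ℝ) + ⟪e, T e⟫_ℝ := by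
      have f1 : ⟪q i, T e⟫_ℝ = ⟪e, T (q i)⟫_ℝ := by rw [← hs.sym, real_inner_comm]
      rw [hd, map_add, map_smul, inner_add_left, inner_add_right, inner_add_right,
        real_inner_smul_left, real_inner_smul_left, real_inner_smul_right, real_inner_smul_right, f1]
      ring
    have halo : 0.45 ≤ G^2 * a i := by
      have g1 := hs.alo i hiK
      have g2 := hs.rlo i hiK.le
      have g3 : 1 ≤ G^2 * ‖r i‖^2 := by
        calc (1:ℝ) = 1^2 := by ring
          _ ≤ (G * ‖r i‖)^2 := by gcongr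
          _ = _ := by ring
      calc 0.45 ≤ 0.45 * (G^2 * ‖r i‖^2) := by linarith
        _ = G^2 * (0.45 * ‖r i‖^2) := by ring
        _ ≤ _ := by gcongr
    have b1 : |a i * ⟪q i, r i⟫_ℝ - a i| ≤ (G^3 * (μ + η)) * a i := by
      have g1 := q_inner h i hi.le i hi.le
      rw [if_pos le_rfl] at g1
      have g2 : a i * ⟪q i, r i⟫_ℝ - a i = a i * (⟪q i, r i⟫_ℝ - 1) := by ring
      rw [g2, abs_mul, abs_of_pos ha, mul_comm]
      gcongr
      refine g1.trans ?_
      have hiG : (i:ℝ) + 1 ≤ G := by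
        have : (i:ℝ) + 1 ≤ K := by exact_mod_cast hiK
        exact this.trans hs.KG
      have g3 : G * η ≤ G^2 * η := by
        have : G ≤ G^2 := le_self_pow₀ hG (by norm_num)
        gcongr
      calc ((i:ℝ) + 1) * (G^2 * μ + G * η) ≤ G * (G^2 * μ + G^2 * η) := by gcongr
        _ = _ := by ring
    have b2 : |a i * ⟪q i, t - r i⟫_ℝ| ≤ (2 * G^2 * η) * a i := by
      rw [abs_mul, abs_of_pos ha, mul_comm]
      gcongr
      refine (abs_real_inner_le_norm _ _).trans ?_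
      calc ‖q i‖ * ‖t - r i‖ ≤ G * (2 * G * η) := by
            have := hgap i hi.le
            gcongr
        _ = _ := by ring
    have b3 : |⟪e, t⟫_ℝ| ≤ (4.5 * G^3 * η) * a i := by
      refine (abs_real_inner_le_norm _ _).trans ?_
      calc ‖e‖ * ‖t‖ ≤ η * (2 * G) := by
            have := ht i hi.le
            gcongr
        _ = (2 * G * η) * 1 := by ring
        _ ≤ (2 * G * η) * (2.25 * (G^2 * a i)) := by
            gcongr; linarith
        _ = _ := by ring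
    have b4 : |a i * (a i * ⟪q i, T (q i)⟫_ℝ) - a i| ≤ η * a i := by
      have g1 := hs.l1 i hiK
      have g2 : a i * (a i * ⟪q i, T (q i)⟫_ℝ) - a i = a i * (a i * ⟪q i, T (q i)⟫_ℝ - 1) := by ring
      rw [g2, abs_mul, abs_of_pos ha, mul_comm]
      gcongr
    have b5 : |a i * ⟪e, T (q i)⟫_ℝ| ≤ (G * η) * a i := by
      rw [abs_mul, abs_of_pos ha, mul_comm]
      gcongr
      refine (abs_real_inner_le_norm _ _).trans ?_
      calc ‖e‖ * ‖T (q i)‖ ≤ η * G := by
            have := (hs.one (q i)).trans hqG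
            gcongr
        _ = _ := by ring
    have b6 : |⟪e, T e⟫_ℝ| ≤ (2.25 * G^2 * η) * a i := by
      refine (abs_real_inner_le_norm _ _).trans ?_
      have g0 : η ≤ 1 := by
        have := hGη 0 (by norm_num)
        rw [pow_zero, one_mul] at this
        linarith
      calc ‖e‖ * ‖T e‖ ≤ η * η := by
            have := (hs.one e).trans h1
            gcongr
        _ ≤ η * 1 := by gcongr
        _ ≤ η * (2.25 * (G^2 * a i)) := by gcongr; linarith
        _ = _ := by ring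
    have b7 : 3 * (G^3 * (μ + η)) + 2 * (2 * G^2 * η) + 2 * (4.5 * G^3 * η) + η + 2 * (G * η) +
        2.25 * G^2 * η ≤ 0.01 := by
      have g1 : G^3 * (μ + η) ≤ G^8 * (μ + η) := by
        have : G^3 ≤ G^8 := pow_le_pow_right₀ hG (by norm_num)
        gcongr
      have g2 := hGη 2 (by norm_num)
      have g3 := hGη 3 (by norm_num)
      have g4 := hGη 1 (by norm_num)
      have g5 := hGη 0 (by norm_num)
      rw [pow_one] at g4
      rw [pow_zero, one_mul] at g5
      linarith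
    have b8 : (3 * (G^3 * (μ + η)) + 2 * (2 * G^2 * η) + 2 * (4.5 * G^3 * η) + η + 2 * (G * η) +
        2.25 * G^2 * η) * a i ≤ 0.01 * a i := by gcongr
    have b9 : 0 ≤ (G^3 * (μ + η)) * a i := by positivity
    rw [e1, e2, e3]
    rw [abs_le] at b1 b2 b3 b4 b5 b6 ⊢
    constructor
    · linarith [b1.1, b2.1, b3.1, b4.2, b5.2, b6.2]
    · linarith [b1.2, b2.2, b3.2, b4.1, b5.1, b6.1]

theorem En_sum (h : Near T G η μ K m x r q a) (hκ : 1 ≤ κ)
    (hsm : 10^4 * (κ * (G^8 * (μ + η))) ≤ 1) (hxs : T xs = r 0) {i0 j : ℕ} (hj : j ≤ m) :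
    ∑ i ∈ Finset.Ico i0 j, En T xs x i^2 / ‖r i‖^2 ≤ 1.1 * κ * En T xs x i0 := by
  have hs := h.sh
  have hG := hs.G1
  have hη := hs.η0
  have hμ := h.μ0
  have hmK := h.mK
  have hpos := pos_of_low hlow hκ
  obtain ⟨hE, _⟩ := En_facts hlow h hκ hsm hxs
  have h8 : 10^4 * (G^8 * (μ + η)) ≤ 1 := by
    have h0 : 0 ≤ G^8 * (μ + η) := by positivity
    nlinarith
  have h3 : G^3 * μ ≤ G^8 * (μ + η) := by
    have : G^3 ≤ G^8 := pow_le_pow_right₀ hG (by norm_num)
    calc G^3 * μ ≤ G^8 * μ := by gcongr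
      _ ≤ _ := by gcongr; linarith
  have hb := h.bessel (by linarith) (show j ≤ m + 1 by omega) (xs - x i0)
  have hterm : ∀ i ∈ Finset.Ico i0 j, En T xs x i^2 / ‖r i‖^2 ≤
      1.05 * (⟪xs - x i0, r i⟫_ℝ^2 / ‖r i‖^2) := by
    intro i hi
    rw [Finset.mem_Ico] at hi
    obtain ⟨f1, f2, f3⟩ := hE i (by omega)
    have hρ : 0 < ‖r i‖ := hs.rpos (by omega)
    have x1 := x_inner h i (by omega) i (by omega)
    have x2 := x_inner h i0 (by omega) i (by omega)
    rw [min_self, sub_self, sub_zero] at x1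
    rw [min_eq_right hi.1, sub_self, sub_zero] at x2
    have hiG : ∀ i' : ℕ, i' ≤ K → (i':ℝ) * (3 * G^4 * (μ + η)) ≤ 3 * (G^5 * (μ + η)) := by
      intro i' hi'
      have : (i':ℝ) ≤ G := by
        have : (i':ℝ) ≤ K := by exact_mod_cast hi'
        exact this.trans hs.KG
      calc (i':ℝ) * (3 * G^4 * (μ + η)) ≤ G * (3 * G^4 * (μ + η)) := by gcongr
        _ = _ := by ring
    have y1 := x1.trans (hiG i (by omega))
    have y2 := x2.trans (hiG i0 (by omega))
    have e1 : ⟪xs - x i0, r i⟫_ℝ = En T xs x i - ⟪xs - x i, T (xs - x i) - r i⟫_ℝ +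
        ⟪x i, r i⟫_ℝ - ⟪x i0, r i⟫_ℝ := by
      rw [En]
      simp only [inner_sub_left, inner_sub_right]
      ring
    have y3 : |⟪xs - x i, T (xs - x i) - r i⟫_ℝ| ≤ 4 * (κ * (G^2 * η)) := by
      refine (abs_real_inner_le_norm _ _).trans ?_
      calc ‖xs - x i‖ * ‖T (xs - x i) - r i‖ ≤ (2 * κ * G) * (2 * G * η) := by gcongr
        _ = _ := by ring
    have y4 : |⟪xs - x i0, r i⟫_ℝ - En T xs x i| ≤ 10 * (κ * (G^5 * (μ + η))) := by
      have g1 : G^5 * (μ + η) ≤ κ * (G^5 * (μ + η)) := le_mul_of_one_le_left (by positivity) hκ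
      have g2 : κ * (G^2 * η) ≤ κ * (G^5 * (μ + η)) := by
        have g3 : G^2 ≤ G^5 := pow_le_pow_right₀ hG (by norm_num)
        have g4 : G^2 * η ≤ G^5 * (μ + η) := by
          calc G^2 * η ≤ G^5 * η := by gcongr
            _ ≤ _ := by gcongr; linarith
        gcongr
      rw [e1]
      rw [abs_le] at y1 y2 y3 ⊢
      constructor <;> linarith [y1.1, y1.2, y2.1, y2.2, y3.1, y3.2]
    have y5 : 10 * (κ * (G^5 * (μ + η))) ≤ 0.01 * En T xs x i := by
      have hlo := hs.rlo i (by omega)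
      have g3 : 1 ≤ G^2 * ‖r i‖^2 := by
        calc (1:ℝ) = 1^2 := by ring
          _ ≤ (G * ‖r i‖)^2 := by gcongr
          _ = _ := by ring
      calc 10 * (κ * (G^5 * (μ + η))) = 10 * (κ * (G^5 * (μ + η))) * 1 := by ring
        _ ≤ 10 * (κ * (G^5 * (μ + η))) * (G^2 * ‖r i‖^2) := by gcongr
        _ = 10 * (κ * (G^7 * (μ + η))) * ‖r i‖^2 := by ring
        _ ≤ 10 * (κ * (G^8 * (μ + η))) * ‖r i‖^2 := by
            have : G^7 ≤ G^8 := pow_le_pow_right₀ hG (by norm_num)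
            gcongr
        _ ≤ 10 * (1/10^4) * ‖r i‖^2 := by
            gcongr
            linarith
        _ ≤ 0.01 * (0.9 * ‖r i‖^2) := by nlinarith [sq_nonneg ‖r i‖]
        _ ≤ _ := by gcongr
    have y6 : En T xs x i^2 ≤ 1.05 * ⟪xs - x i0, r i⟫_ℝ^2 := by
      have h5 := y4.trans y5
      have hE0 : 0 ≤ En T xs x i := hpos _
      rw [abs_le] at h5
      nlinarith [h5.1, h5.2]
    rw [← mul_div_assoc]
    gcongr
  refine (Finset.sum_le_sum hterm).trans ?_
  rw [← Finset.mul_sum]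
  have hsub : ∑ i ∈ Finset.Ico i0 j, ⟪xs - x i0, r i⟫_ℝ^2 / ‖r i‖^2 ≤
      ∑ i ∈ Finset.range j, ⟪xs - x i0, r i⟫_ℝ^2 / ‖r i‖^2 := by
    apply Finset.sum_le_sum_of_subset_of_nonneg
    · intro i hi
      rw [Finset.mem_Ico] at hi
      exact Finset.mem_range.2 hi.2
    · intro i _ _; positivity
  have h9 := hlow (xs - x i0)
  have h10 : En T xs x i0 = ⟪xs - x i0, T (xs - x i0)⟫_ℝ := rfl
  rw [← h10] at h9
  have h11 : 0 ≤ κ * En T xs x i0 := by rw [h10]; have := hpos (xs - x i0); positivity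
  nlinarith

end Pool.Agent.Helper643.CG
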