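import Mathlib

/-!
Real sequence estimates, finite condition number.
-/

namespace Pool.Agent.Helper643.CG

/-- The sum of square roots of the normalised step sizes. -/
noncomputable def As (ρ a : ℕ → ℝ) (k : ℕ) : ℝ := ∑ i ∈ Finset.range k, √(a i / ρ i^2)

/-- Partial sums. -/
noncomputable def sg' (a : ℕ → ℝ) (k : ℕ) : ℝ := ∑ i ∈ Finset.range k, a i

lemma As_succ (ρ a : ℕ → ℝ) (k : ℕ) : As ρ a (k+1) = As ρ a k + √(a k / ρ k^2) := by
  rw [As, Finset.sum_range_succ]; rfl

lemma sg'_succ (a : ℕ → ℝ) (k : ℕ) : sg' a (k+1) = sg' a k + a k := by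
  rw [sg', Finset.sum_range_succ]; rfl

lemma sum_Ico_eq {f : ℕ → ℝ} {i j : ℕ} (hij : i ≤ j) :
    ∑ l ∈ Finset.Ico i j, f l = (∑ l ∈ Finset.range j, f l) - ∑ l ∈ Finset.range i, f l :=
  Finset.sum_Ico_eq_sub _ hij

/-- Telescoping bound. -/
lemma tele {a d : ℕ → ℝ} {c : ℝ} {i0 j : ℕ} (hij : i0 ≤ j) (hc : 0 ≤ c)
    (hd : ∀ i, i0 ≤ i → i ≤ j → 0 < d i) (ha : ∀ i, i0 ≤ i → i < j → 0 ≤ a i)
    (hst : ∀ i, i0 ≤ i → i < j → a i ≤ c * (d i - d (i+1))) :
    ∑ i ∈ Finset.Ico i0 j, a i / d i^2 ≤ c / d j - c / d i0 := by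
  induction j, hij using Nat.le_induction with
  | base => simp
  | succ j hij ih =>
    have ih' := ih (fun i h1 h2 => hd i h1 (by omega)) (fun i h1 h2 => ha i h1 (by omega))
      (fun i h1 h2 => hst i h1 (by omega))
    rw [Finset.sum_Ico_succ_top hij]
    have h1 := hd j hij (by omega)
    have h2 := hd (j+1) (by omega) le_rfl
    have h3 := hst j hij (by omega)
    have h4 := ha j hij (by omega)
    have h5 : a j / d j^2 ≤ c / d (j+1) - c / d j := by
      rcases hc.eq_or_lt with h0 | h0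
      · rw [← h0] at h3 ⊢
        have : a j = 0 := by linarith
        rw [this]; simp
      have h6 : 0 ≤ d j - d (j+1) := by
        have : 0 ≤ c * (d j - d (j+1)) := h4.trans h3
        exact nonneg_of_mul_nonneg_right this h0
      have h7 : c / d (j+1) - c / d j = c * (d j - d (j+1)) / (d j * d (j+1)) := by
        field_simp
      rw [h7, div_le_div_iff₀ (by positivity) (by positivity)]
      have h8 : d (j+1) ≤ d j := by linarith
      calc a j * (d j * d (j+1)) ≤ (c * (d j - d (j+1))) * (d j * d (j+1)) := by gcongr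
        _ ≤ (c * (d j - d (j+1))) * (d j * d j) := by gcongr
        _ = _ := by ring
    linarith

/-- The key Cauchy–Schwarz estimate. -/
lemma cs_key {ρ a d : ℕ → ℝ} {c : ℝ} {i0 j : ℕ} (hij : i0 ≤ j) (hc : 0 ≤ c)
    (hd : ∀ i, i0 ≤ i → i ≤ j → 0 < d i) (ha : ∀ i, i0 ≤ i → i < j → 0 ≤ a i)
    (hρ : ∀ i, i0 ≤ i → i < j → 0 < ρ i)
    (hst : ∀ i, i0 ≤ i → i < j → a i ≤ c * (d i - d (i+1))) :
    (As ρ a j - As ρ a i0)^2 * d j ≤ c * ∑ i ∈ Finset.Ico i0 j, d i^2 / ρ i^2 := by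
  have h1 := tele hij hc hd ha hst
  have hj := hd j hij le_rfl
  have h0 := hd i0 le_rfl hij
  have h2 : ∑ i ∈ Finset.Ico i0 j, a i / d i^2 ≤ c / d j := by
    have : 0 ≤ c / d i0 := by positivity
    linarith
  have h3 : As ρ a j - As ρ a i0 = ∑ i ∈ Finset.Ico i0 j, (d i / ρ i) * (√(a i) / d i) := by
    rw [As, As, ← sum_Ico_eq hij]
    refine Finset.sum_congr rfl fun i hi => ?_
    rw [Finset.mem_Ico] at hi
    have g1 := hd i hi.1 hi.2.le
    have g2 := hρ i hi.1 hi.2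
    rw [Real.sqrt_div (ha i hi.1 hi.2), Real.sqrt_sq g2.le]
    field_simp
  have h4 := Finset.sum_mul_sq_le_sq_mul_sq (Finset.Ico i0 j) (fun i => d i / ρ i)
    (fun i => √(a i) / d i)
  rw [← h3] at h4
  have h5 : ∑ i ∈ Finset.Ico i0 j, (√(a i) / d i)^2 = ∑ i ∈ Finset.Ico i0 j, a i / d i^2 := by
    refine Finset.sum_congr rfl fun i hi => ?_
    rw [Finset.mem_Ico] at hi
    rw [div_pow, Real.sq_sqrt (ha i hi.1 hi.2)]
  have h6 : ∑ i ∈ Finset.Ico i0 j, (d i / ρ i)^2 = ∑ i ∈ Finset.Ico i0 j, d i^2 / ρ i^2 := by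
    refine Finset.sum_congr rfl fun i _ => by rw [div_pow]
  rw [h5, h6] at h4
  have h7 : 0 ≤ ∑ i ∈ Finset.Ico i0 j, d i^2 / ρ i^2 :=
    Finset.sum_nonneg fun i _ => by positivity
  calc (As ρ a j - As ρ a i0)^2 * d j
      ≤ ((∑ i ∈ Finset.Ico i0 j, d i^2 / ρ i^2) * (c / d j)) * d j := by gcongr; exact h4.trans (by gcongr)
    _ = _ := by field_simp

/-- Discrete first crossing. -/
lemma first_cross {A : ℕ → ℝ} {c b : ℝ} {i j K : ℕ} (hij : i ≤ j) (hjK : j ≤ K) (hc : 0 < c)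
    (hinc : ∀ l < K, A (l+1) ≤ A l + b) (h : c ≤ A j - A i) :
    ∃ i', i < i' ∧ i' ≤ j ∧ c ≤ A i' - A i ∧ A i' - A i ≤ c + b := by
  classical
  have hex : ∃ l, i ≤ l ∧ c ≤ A l - A i := ⟨j, hij, h⟩
  set l := Nat.find hex with hl
  obtain ⟨h1, h2⟩ := Nat.find_spec hex
  rw [← hl] at h1 h2
  have hlj : l ≤ j := Nat.find_le ⟨hij, h⟩
  have hil : i < l := by
    rcases h1.eq_or_lt with h3 | h3
    · rw [← h3] at h2; linarith
    · exact h3
  refine ⟨l, hil, hlj, h2, ?_⟩
  obtain ⟨m, hm⟩ : ∃ m, l = m + 1 := ⟨l - 1, by omega⟩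
  have h4 : ¬ (i ≤ m ∧ c ≤ A m - A i) := Nat.find_min hex (by omega)
  push Not at h4
  have h5 := h4 (by omega)
  have h6 := hinc m (by omega)
  rw [hm]
  linarith

/-- Hypotheses for the finite condition number case. Here `s = √κ`. -/
structure SeqK (K : ℕ) (s ε : ℝ) (ρ a E X : ℕ → ℝ) : Prop where
  s0 : 1 ≤ s
  ε0 : 0 < ε
  ρ0 : ∀ i < K, 0 < ρ i
  E0 : ∀ i ≤ K, 0 < E i
  alo : ∀ i < K, 0.45 * ρ i^2 ≤ a i
  ahi : ∀ i < K, a i ≤ 2.1 * s^2 * ρ i^2
  step : ∀ i < K, |E i - E (i+1) - a i| ≤ 0.01 * a i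
  sumE : ∀ i0 j, j ≤ K → ∑ i ∈ Finset.Ico i0 j, E i^2 / ρ i^2 ≤ 1.1 * s^2 * E i0
  sumX : ∀ k ≤ K, ∑ i ∈ Finset.range k, (sg' a k - sg' a i)^2 / ρ i^2 ≤ 1.1 * X k^2
  X0 : ∀ i ≤ K, 0 ≤ X i
  nc : ∀ i < K, ε / 2 * X i ≤ ρ i

variable {K : ℕ} {s ε : ℝ} {ρ a E X : ℕ → ℝ}

lemma SeqK.apos (h : SeqK K s ε ρ a E X) {i : ℕ} (hi : i < K) : 0 < a i := by
  have h1 := h.alo i hi
  have h2 := h.ρ0 i hi
  have : 0 < 0.45 * ρ i^2 := by positivity
  linarith

lemma SeqK.inc (h : SeqK K s ε ρ a E X) : ∀ l < K, As ρ a (l+1) ≤ As ρ a l + 1.45 * s := by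
  intro l hl
  rw [As_succ]
  have h1 := h.ahi l hl
  have h2 := h.ρ0 l hl
  have hs := h.s0
  have h3 : √(a l / ρ l^2) ≤ 1.45 * s := by
    rw [Real.sqrt_le_left (by positivity), div_le_iff₀ (by positivity)]
    refine h1.trans ?_
    have : 0 ≤ s^2 * ρ l^2 := by positivity
    nlinarith
  linarith

lemma As_mono' {i j : ℕ} (hij : i ≤ j) : As ρ a i ≤ As ρ a j := by
  rw [As, As]
  apply Finset.sum_le_sum_of_subset_of_nonneg
  · intro l hl
    rw [Finset.mem_range] at *
    omega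
  · intro l _ _; positivity

lemma SeqK.E_mono (h : SeqK K s ε ρ a E X) {i j : ℕ} (hij : i ≤ j) (hj : j ≤ K) : E j ≤ E i := by
  induction j, hij using Nat.le_induction with
  | base => exact le_rfl
  | succ j hij ih =>
    have h1 := h.step j (by omega)
    have h2 := h.apos (show j < K by omega)
    rw [abs_le] at h1
    linarith [ih (by omega), h1.1]

lemma SeqK.quarter (h : SeqK K s ε ρ a E X) {i j : ℕ} (hij : i ≤ j) (hj : j ≤ K)
    (hA : 2.2 * s ≤ As ρ a j - As ρ a i) : E j ≤ E i / 4 := by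
  have hs := h.s0
  have h1 := cs_key (ρ := ρ) (a := a) (d := E) (c := 1/0.99) hij (by norm_num)
    (fun l _ h2 => h.E0 l (by omega)) (fun l _ h2 => (h.apos (by omega)).le)
    (fun l _ h2 => h.ρ0 l (by omega)) (fun l _ h2 => by
      have h3 := h.step l (by omega)
      rw [abs_le] at h3
      rw [div_mul_eq_mul_div, one_mul, le_div_iff₀ (by norm_num)]
      linarith [h3.1])
  have h2 := h.sumE i j hj
  have hEj := h.E0 j hj
  have hEi := h.E0 i (by omega)
  have h3 : (2.2 * s)^2 * E j ≤ (1/0.99) * (1.1 * s^2 * E i) := by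
    calc (2.2 * s)^2 * E j ≤ (As ρ a j - As ρ a i)^2 * E j := by gcongr
      _ ≤ _ := h1
      _ ≤ _ := by gcongr
  have hs2 : 0 < s^2 := by positivity
  have h4 : s^2 * (4.84 * E j) ≤ s^2 * (1.112 * E i) := by
    have e1 : s^2 * (4.84 * E j) = (2.2 * s)^2 * E j := by ring
    rw [e1]
    refine h3.trans ?_
    have : 0 < s^2 * E i := by positivity
    nlinarith
  have h5 := le_of_mul_le_mul_left h4 hs2
  linarith

lemma SeqK.decay (h : SeqK K s ε ρ a E X) {j : ℕ} (hj : j ≤ K) :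
    ∀ n i : ℕ, j - i ≤ n → i ≤ j →
      E j * (2:ℝ)^(2 * ((As ρ a j - As ρ a i) / (3.65 * s))) ≤ 4 * E i := by
  have hs := h.s0
  intro n
  induction n with
  | zero =>
    intro i h1 h2
    have : i = j := by omega
    rw [this]
    have := h.E0 j hj
    simp
    linarith
  | succ n ih =>
    intro i h1 h2
    have hEj := h.E0 j hj
    have hEi := h.E0 i (by omega)
    rcases lt_or_ge (As ρ a j - As ρ a i) (3.65 * s) with h3 | h3
    · have h4 : (As ρ a j - As ρ a i) / (3.65 * s) ≤ 1 := by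
        rw [div_le_one (by positivity)]; exact h3.le
      have h5 : (2:ℝ)^(2 * ((As ρ a j - As ρ a i) / (3.65 * s))) ≤ 2^(2:ℝ) := by
        apply Real.rpow_le_rpow_of_exponent_le (by norm_num)
        linarith
      have h6 : (2:ℝ)^(2:ℝ) = 4 := by norm_num
      rw [h6] at h5
      have h7 := h.E_mono h2 hj
      have h8 : (0:ℝ) < (2:ℝ)^(2 * ((As ρ a j - As ρ a i) / (3.65 * s))) := by positivity
      nlinarith
    · obtain ⟨i', g1, g2, g3, g4⟩ := first_cross (A := As ρ a) (c := 2.2 * s) (b := 1.45 * s) h2 hj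
        (by positivity) h.inc (by linarith)
      have h4 := h.quarter g1.le (by omega) g3
      have h5 := ih i' (by omega) g2
      have h6 : (2:ℝ)^(2 * ((As ρ a j - As ρ a i) / (3.65 * s))) ≤
          4 * (2:ℝ)^(2 * ((As ρ a j - As ρ a i') / (3.65 * s))) := by
        have e1 : (4:ℝ) = 2^(2:ℝ) := by norm_num
        rw [e1, ← Real.rpow_add (by norm_num)]
        apply Real.rpow_le_rpow_of_exponent_le (by norm_num)
        have e2 : 2 + 2 * ((As ρ a j - As ρ a i') / (3.65 * s)) =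
          2 * ((As ρ a j - As ρ a i' + 3.65 * s) / (3.65 * s)) := by field_simp; ring
        rw [e2]
        gcongr
        linarith
      calc E j * (2:ℝ)^(2 * ((As ρ a j - As ρ a i) / (3.65 * s)))
          ≤ E j * (4 * (2:ℝ)^(2 * ((As ρ a j - As ρ a i') / (3.65 * s)))) := by gcongr
        _ = 4 * (E j * (2:ℝ)^(2 * ((As ρ a j - As ρ a i') / (3.65 * s)))) := by ring
        _ ≤ 4 * (4 * E i') := by gcongr
        _ ≤ _ := by linarith

/-- The bound for the sum in the case of a finite condition number. -/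
theorem SeqK.main (h : SeqK K s ε ρ a E X) (hs3 : ε^2 * s^3 ≤ 1) :
    As ρ a K ≤ 20 * s * (1 + Real.logb 2 (1 / (ε^2 * s^3)) / 2) := by
  have hs := h.s0
  have hε := h.ε0
  have hpos : 0 < ε^2 * s^3 := by positivity
  set ℓ2 := Real.logb 2 (1 / (ε^2 * s^3)) with hℓ2
  have hℓ : 0 ≤ ℓ2 := Real.logb_nonneg (by norm_num) (by rw [le_div_iff₀ hpos]; linarith)
  have hA0 : As ρ a 0 = 0 := by simp [As]
  rcases lt_or_ge (As ρ a K) (10 * s) with hsm | hbig
  · have : 0 ≤ s * ℓ2 := by positivity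
    nlinarith
  obtain ⟨i1, a1, a2, a3, a4⟩ := first_cross (A := As ρ a) (c := 2.2 * s) (b := 1.45 * s)
    (Nat.zero_le K) le_rfl (by positivity) h.inc (by rw [hA0]; linarith)
  rw [hA0, sub_zero] at a3 a4
  obtain ⟨i2, b1, b2, b3, b4⟩ := first_cross (A := As ρ a) (c := 2.2 * s) (b := 1.45 * s)
    a2 le_rfl (by positivity) h.inc (by linarith)
  have hq := h.quarter b1.le b2 b3
  have hE2 := h.E0 i2 b2
  -- lower bound for `X`
  have hX : ∀ t, i2 ≤ t → t ≤ K → 10 * s^2 * E i2 ≤ X t^2 := by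
    intro t h1 h2
    have hsgpos : ∀ i, i < t → 0 < sg' a t - sg' a i := by
      intro i hi
      rw [sg', sg', ← sum_Ico_eq hi.le]
      exact Finset.sum_pos (fun l hl => h.apos (by rw [Finset.mem_Ico] at hl; omega))
        ⟨i, Finset.mem_Ico.2 ⟨le_rfl, hi⟩⟩
    have h3 := cs_key (ρ := ρ) (a := a) (d := fun i => sg' a t - sg' a i) (c := 1) (Nat.zero_le i1)
      (by norm_num) (fun l _ h5 => hsgpos l (by omega)) (fun l _ h5 => (h.apos (by omega)).le)
      (fun l _ h5 => h.ρ0 l (by omega)) (fun l _ h5 => by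
        simp only [sg'_succ]; linarith)
    simp only [hA0, sub_zero, one_mul] at h3
    have h4 : ∑ i ∈ Finset.Ico 0 i1, (sg' a t - sg' a i)^2 / ρ i^2 ≤ 1.1 * X t^2 := by
      refine le_trans ?_ (h.sumX t h2)
      rw [Nat.Ico_zero_eq_range]
      apply Finset.sum_le_sum_of_subset_of_nonneg
      · intro l hl
        rw [Finset.mem_range] at *
        omega
      · intro l _ _; positivity
    have h5 : 0.74 * E i1 ≤ sg' a t - sg' a i1 := by
      have h6 : ∀ j, i1 ≤ j → j ≤ K → E i1 - E j ≤ 1.01 * (sg' a j - sg' a i1) := by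
        intro j hj
        induction j, hj using Nat.le_induction with
        | base => intro _; simp
        | succ j hj ih =>
          intro hjK
          have g1 := ih (by omega)
          have g2 := h.step j (by omega)
          rw [abs_le] at g2
          rw [sg'_succ]
          linarith [g2.2]
      have h7 := h6 t (by omega) h2
      have h8 := h.E_mono h1 h2
      have h9 := h.E0 i1 (by omega)
      linarith
    have h6 : (2.2 * s)^2 * (0.74 * E i1) ≤ As ρ a i1^2 * (sg' a t - sg' a i1) := by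
      have := h.E0 i1 (by omega)
      gcongr
    have h7 : 4 * E i2 ≤ E i1 := by linarith
    have h8 : s^2 * (4 * E i2) ≤ s^2 * E i1 := by gcongr
    have h9 : (2.2 * s)^2 * (0.74 * E i1) = 3.5816 * (s^2 * E i1) := by ring
    have h10 : 0 < s^2 * E i2 := by positivity
    nlinarith
  -- the last window
  have hex : ∃ l, As ρ a K - As ρ a l < s := ⟨K, by rw [sub_self]; linarith⟩
  classical
  set t2 := Nat.find hex with ht2
  have ht2s := Nat.find_spec hex
  rw [← ht2] at ht2s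
  have ht2K : t2 ≤ K := Nat.find_le (by rw [sub_self]; linarith)
  have ht20 : t2 ≠ 0 := by
    intro h0
    rw [h0, hA0] at ht2s
    linarith
  obtain ⟨t, ht⟩ : ∃ t, t2 = t + 1 := ⟨t2 - 1, by omega⟩
  have ht1 : s ≤ As ρ a K - As ρ a t := not_lt.1 (Nat.find_min hex (by omega))
  have ht3 : As ρ a K - As ρ a t < 2.45 * s := by
    have := h.inc t (by omega)
    rw [ht] at ht2s
    linarith
  have hti : i2 ≤ t := by
    by_contra hcon
    push Not at hcon
    have := As_mono' (ρ := ρ) (a := a) hcon.le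
    linarith
  have hw1 : 1.6 * (ε^2 * s^3) * E i2 ≤ E t := by
    have g1 : ∀ j, t ≤ j → j ≤ K → 0.99 * (sg' a j - sg' a t) ≤ E t - E j := by
      intro j hj
      induction j, hj using Nat.le_induction with
      | base => intro _; simp
      | succ j hj ih =>
        intro hjK
        have g1 := ih (by omega)
        have g2 := h.step j (by omega)
        rw [abs_le] at g2
        rw [sg'_succ]
        linarith [g2.1]
    have g2 := g1 K (by omega) le_rfl
    have g3 := h.E0 K le_rfl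
    have g4 : 1.67 * (ε^2 * s^3) * E i2 ≤ sg' a K - sg' a t := by
      rw [sg', sg', ← sum_Ico_eq (show t ≤ K by omega)]
      have g5 : ∀ l ∈ Finset.Ico t K, (1.67 * ε^2 * s^2 * E i2) * √(a l / ρ l^2) ≤ a l := by
        intro l hl
        rw [Finset.mem_Ico] at hl
        have hρl := h.ρ0 l hl.2
        have hal := h.alo l hl.2
        have hXl := hX l (by omega) hl.2.le
        have hncl := h.nc l hl.2
        have hX0 := h.X0 l hl.2.le
        set y := √(a l / ρ l^2) with hy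
        have hy0 : 0 ≤ y := Real.sqrt_nonneg _
        have hy2 : y^2 = a l / ρ l^2 := Real.sq_sqrt (by have := h.apos hl.2; positivity)
        have hay : a l = y^2 * ρ l^2 := by rw [hy2]; field_simp
        have hy1 : 0.67 ≤ y := by
          apply Real.le_sqrt_of_sq_le
          rw [le_div_iff₀ (by positivity)]
          nlinarith [sq_nonneg (ρ l)]
        have hρX : 2.5 * ε^2 * s^2 * E i2 ≤ ρ l^2 := by
          calc 2.5 * ε^2 * s^2 * E i2 = ε^2/4 * (10 * s^2 * E i2) := by ring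
            _ ≤ ε^2/4 * X l^2 := by gcongr
            _ = (ε / 2 * X l)^2 := by ring
            _ ≤ ρ l^2 := by gcongr
        rw [hay]
        calc (1.67 * ε^2 * s^2 * E i2) * y ≤ (0.67 * (2.5 * ε^2 * s^2 * E i2)) * y := by
              have : 0 ≤ ε^2 * s^2 * E i2 := by positivity
              exact mul_le_mul_of_nonneg_right (by linarith) hy0
          _ ≤ (0.67 * ρ l^2) * y := by gcongr
          _ ≤ (y * ρ l^2) * y := by gcongr
          _ = _ := by ring
      calc 1.67 * (ε^2 * s^3) * E i2 = (1.67 * ε^2 * s^2 * E i2) * s := by ring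
        _ ≤ (1.67 * ε^2 * s^2 * E i2) * (As ρ a K - As ρ a t) := by gcongr
        _ = ∑ l ∈ Finset.Ico t K, (1.67 * ε^2 * s^2 * E i2) * √(a l / ρ l^2) := by
            rw [← Finset.mul_sum, As, As, ← sum_Ico_eq (show t ≤ K by omega)]
        _ ≤ _ := Finset.sum_le_sum g5
    have g5 : 0 < (ε^2 * s^3) * E i2 := by positivity
    nlinarith
  have hdec := h.decay (show t ≤ K by omega) (t - i2) i2 le_rfl hti
  set y := (As ρ a t - As ρ a i2) / (3.65 * s) with hy
  have hlog : 2 * y ≤ 1.4 + ℓ2 := by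
    have h1 : (2:ℝ)^(2*y) ≤ 2.5 * (1 / (ε^2 * s^3)) := by
      have e0 : 2.5 * (1 / (ε^2 * s^3)) = 2.5 / (ε^2 * s^3) := by ring
      rw [e0, le_div_iff₀ hpos]
      have h2 : (1.6 * (ε^2 * s^3) * E i2) * (2:ℝ)^(2*y) ≤ 4 * E i2 := by
        refine le_trans ?_ hdec
        gcongr
      have h3 : ((2:ℝ)^(2*y) * (ε^2 * s^3)) * (1.6 * E i2) ≤ 2.5 * (1.6 * E i2) := by
        calc ((2:ℝ)^(2*y) * (ε^2 * s^3)) * (1.6 * E i2) =
            (1.6 * (ε^2 * s^3) * E i2) * (2:ℝ)^(2*y) := by ring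
          _ ≤ 4 * E i2 := h2
          _ = _ := by ring
      exact le_of_mul_le_mul_right h3 (by positivity)
    have h2 := Real.logb_le_logb_of_le (b := 2) (by norm_num) (by positivity) h1
    rw [Real.logb_rpow (by norm_num) (by norm_num), Real.logb_mul (by norm_num) (by positivity),
      ← hℓ2] at h2
    have h3 : Real.logb 2 2.5 ≤ 1.4 := by
      rw [Real.logb_le_iff_le_rpow (by norm_num) (by norm_num)]
      have h4 : (2.5:ℝ)^5 ≤ ((2:ℝ)^(1.4:ℝ))^5 := by
        rw [← Real.rpow_natCast ((2:ℝ)^(1.4:ℝ)), ← Real.rpow_mul (by norm_num)]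
        norm_num
      exact le_of_pow_le_pow_left₀ (by norm_num) (by positivity) h4
    linarith
  have hy' : As ρ a t - As ρ a i2 = y * (3.65 * s) := by
    rw [hy]; field_simp
  have h9 : 2 * y * s ≤ (1.4 + ℓ2) * s := by gcongr
  have h10 : 0 ≤ ℓ2 * s := by positivity
  nlinarith

end Pool.Agent.Helper643.CG
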