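import Mathlib
import Pool.Agent.Helper643.CGSeqK

/-!
Real sequence estimates, no condition number.
-/

namespace Pool.Agent.Helper643.CG

/-- The truncated normalised step size. -/
noncomputable def tr (ν : ℝ) (ρ a : ℕ → ℝ) (i : ℕ) : ℝ := min (a i / ρ i^2) (ν^2)

/-- The sum of the square roots of the truncated normalised step sizes. -/
noncomputable def At (ν : ℝ) (ρ a : ℕ → ℝ) (k : ℕ) : ℝ := ∑ i ∈ Finset.range k, √(tr ν ρ a i)

/-- Hypotheses for the case without condition number. Here `ν = ε^{-1/6}`. -/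
structure SeqE (K : ℕ) (ν : ℝ) (ρ a X : ℕ → ℝ) : Prop where
  ν1 : 1 ≤ ν
  ρ0 : ∀ i < K, 0 < ρ i
  alo : ∀ i < K, 0.45 * ρ i^2 ≤ a i
  sumX : ∀ k ≤ K, ∑ i ∈ Finset.range k, (sg' a k - sg' a i)^2 / ρ i^2 ≤ 1.1 * X k^2
  X0 : ∀ i ≤ K, 0 ≤ X i
  nc : ∀ i < K, (X i + 1) / (2 * ν^6) ≤ ρ i
  sgK : sg' a K ≤ 10 * ν^12

variable {K : ℕ} {ν : ℝ} {ρ a X : ℕ → ℝ}

lemma At_succ (k : ℕ) : At ν ρ a (k+1) = At ν ρ a k + √(tr ν ρ a k) := by
  rw [At, Finset.sum_range_succ]; rfl

lemma At_mono {i j : ℕ} (hij : i ≤ j) : At ν ρ a i ≤ At ν ρ a j := by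
  rw [At, At]
  apply Finset.sum_le_sum_of_subset_of_nonneg
  · intro l hl
    rw [Finset.mem_range] at *
    omega
  · intro l _ _; positivity

lemma At_le_As {i j : ℕ} (hij : i ≤ j) : At ν ρ a j - At ν ρ a i ≤ As ρ a j - As ρ a i := by
  rw [At, At, As, As, ← sum_Ico_eq hij, ← sum_Ico_eq hij]
  apply Finset.sum_le_sum
  intro l _
  exact Real.sqrt_le_sqrt (min_le_left _ _)

lemma sg'_mono (ha : ∀ i < K, 0 < a i) {i j : ℕ} (hij : i ≤ j) (hj : j ≤ K) :
    sg' a i ≤ sg' a j := by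
  induction j, hij using Nat.le_induction with
  | base => exact le_rfl
  | succ j hij ih =>
    rw [sg'_succ]
    linarith [ih (by omega), ha j (by omega)]

lemma sg'_lt (ha : ∀ i < K, 0 < a i) {i j : ℕ} (hij : i < j) (hj : j ≤ K) :
    sg' a i < sg' a j := by
  have h1 := sg'_mono ha (show i + 1 ≤ j by omega) hj
  rw [sg'_succ] at h1
  linarith [ha i (by omega)]

lemma SeqE.apos (h : SeqE K ν ρ a X) {i : ℕ} (hi : i < K) : 0 < a i := by
  have h1 := h.alo i hi
  have h2 := h.ρ0 i hi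
  have : 0 < 0.45 * ρ i^2 := by positivity
  linarith

lemma SeqE.tr_bounds (h : SeqE K ν ρ a X) {i : ℕ} (hi : i < K) :
    0.45 ≤ tr ν ρ a i ∧ tr ν ρ a i ≤ ν^2 ∧ tr ν ρ a i * ρ i^2 ≤ a i ∧
      0.67 ≤ √(tr ν ρ a i) ∧ √(tr ν ρ a i) ≤ ν ∧ √(tr ν ρ a i) ≤ 1.5 * tr ν ρ a i := by
  have h1 := h.alo i hi
  have h2 := h.ρ0 i hi
  have hν := h.ν1
  have f1 : 0.45 ≤ tr ν ρ a i := by
    rw [tr, le_min_iff]
    constructor
    · rw [le_div_iff₀ (by positivity)]; exact h1
    · nlinarith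
  have f2 : tr ν ρ a i ≤ ν^2 := min_le_right _ _
  have f3 : tr ν ρ a i * ρ i^2 ≤ a i := by
    calc tr ν ρ a i * ρ i^2 ≤ (a i / ρ i^2) * ρ i^2 := by
          gcongr
          exact min_le_left _ _
      _ = _ := by field_simp
  have f4 : 0.67 ≤ √(tr ν ρ a i) := by
    apply Real.le_sqrt_of_sq_le
    norm_num
    linarith
  have f5 : √(tr ν ρ a i) ≤ ν := by
    rw [Real.sqrt_le_left (by linarith)]
    exact f2
  refine ⟨f1, f2, f3, f4, f5, ?_⟩
  have f6 : √(tr ν ρ a i) * √(tr ν ρ a i) = tr ν ρ a i := Real.mul_self_sqrt (by linarith)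
  nlinarith

lemma sum_inv_ge {i j : ℕ} (hij : i ≤ j) (hj : j ≤ K)
    (ha : ∀ i < K, 0 < a i) (hρ : ∀ i < K, 0 < ρ i) :
    (As ρ a j - As ρ a i)^2 ≤ (∑ l ∈ Finset.Ico i j, 1 / ρ l^2) * (sg' a j - sg' a i) := by
  have h1 := Finset.sum_mul_sq_le_sq_mul_sq (Finset.Ico i j) (fun l => 1 / ρ l) (fun l => √(a l))
  have e1 : ∑ l ∈ Finset.Ico i j, 1 / ρ l * √(a l) = As ρ a j - As ρ a i := by
    rw [As, As, ← sum_Ico_eq hij]
    refine Finset.sum_congr rfl fun l hl => ?_
    rw [Finset.mem_Ico] at hl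
    rw [Real.sqrt_div (ha l (by omega)).le, Real.sqrt_sq (hρ l (by omega)).le]
    ring
  have e2 : ∑ l ∈ Finset.Ico i j, √(a l)^2 = sg' a j - sg' a i := by
    rw [sg', sg', ← sum_Ico_eq hij]
    refine Finset.sum_congr rfl fun l hl => ?_
    rw [Finset.mem_Ico] at hl
    exact Real.sq_sqrt (ha l (by omega)).le
  have e3 : ∑ l ∈ Finset.Ico i j, (1 / ρ l)^2 = ∑ l ∈ Finset.Ico i j, 1 / ρ l^2 :=
    Finset.sum_congr rfl fun l _ => by rw [div_pow, one_pow]
  rw [e1, e2, e3] at h1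
  exact h1

/-- One step of the potential argument. -/
lemma pot_step {y y' α c Λ : ℝ} (hy : 0 ≤ y) (hc : 0 < c) (hα : 0 ≤ α) (hαΛ : α ≤ Λ)
    (hstep : y + 0.11 * (α / c) * (1 + y^2) ≤ y') :
    α ≤ 37 * c * (y' / (1 + y') - y / (1 + y)) + Λ * (Real.logb 2 (1 + y') - Real.logb 2 (1 + y)) := by
  have h1 : 0 ≤ α / c := by positivity
  have hyy : y ≤ y' := by
    have : 0 ≤ 0.11 * (α / c) * (1 + y^2) := by positivity
    linarith
  have hy1 : 0 < 1 + y := by linarith
  have hy1' : 0 < 1 + y' := by linarith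
  have hg : y' / (1 + y') - y / (1 + y) = (y' - y) / ((1 + y) * (1 + y')) := by
    field_simp; ring
  have hlog : 0 ≤ Real.logb 2 (1 + y') - Real.logb 2 (1 + y) := by
    rw [sub_nonneg]
    exact Real.logb_le_logb_of_le (by norm_num) (by linarith) (by linarith)
  have hΛ : 0 ≤ Λ := hα.trans hαΛ
  rcases le_or_gt (1 + y') (2 * (1 + y)) with h2 | h2
  · have h3 : α ≤ 37 * c * ((y' - y) / ((1 + y) * (1 + y'))) := by
      rw [← mul_div_assoc, le_div_iff₀ (by positivity)]
      have h4 : α * ((1 + y) * (1 + y')) ≤ α * ((1 + y) * (2 * (1 + y))) := by gcongr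
      have h5 : (1 + y)^2 ≤ 2 * (1 + y^2) := by nlinarith [sq_nonneg (1 - y)]
      have h6 : 0.11 * α * (1 + y^2) ≤ c * (y' - y) := by
        have h7 : 0.11 * (α / c) * (1 + y^2) ≤ y' - y := by linarith
        calc 0.11 * α * (1 + y^2) = c * (0.11 * (α / c) * (1 + y^2)) := by field_simp
          _ ≤ _ := by gcongr
      have h8 : α * (1 + y)^2 ≤ α * (2 * (1 + y^2)) := by gcongr
      have h9 : 0 ≤ α * (1 + y^2) := by positivity
      nlinarith
    rw [hg]
    have : 0 ≤ Λ * (Real.logb 2 (1 + y') - Real.logb 2 (1 + y)) := by positivity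
    linarith
  · have h3 : 1 ≤ Real.logb 2 (1 + y') - Real.logb 2 (1 + y) := by
      have h4 : Real.logb 2 (2 * (1 + y)) ≤ Real.logb 2 (1 + y') :=
        Real.logb_le_logb_of_le (by norm_num) (by linarith) h2.le
      rw [Real.logb_mul (by norm_num) (by linarith), Real.logb_self_eq_one (by norm_num)] at h4
      linarith
    have h5 : 0 ≤ y' / (1 + y') - y / (1 + y) := by
      rw [hg]
      apply div_nonneg (by linarith)
      apply mul_nonneg <;> linarith
    have h6 : 0 ≤ 37 * c * (y' / (1 + y') - y / (1 + y)) := by positivity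
    nlinarith

lemma logb_le_self {y : ℝ} (hy : 1 ≤ y) : Real.logb 2 y ≤ y := by
  rw [Real.logb_le_iff_le_rpow (by norm_num) (by linarith)]
  have h1 : 1 + y * Real.log 2 ≤ Real.exp (y * Real.log 2) := by
    have := Real.add_one_le_exp (y * Real.log 2)
    linarith
  have h2 : (2:ℝ)^y = Real.exp (y * Real.log 2) := by
    rw [Real.rpow_def_of_pos (by norm_num)]; ring_nf
  -- `2^y ≥ 1 + y log 2 + (y log 2)^2/2 ≥ y`
  have h3 : 1 + y * Real.log 2 + (y * Real.log 2)^2 / 2 ≤ Real.exp (y * Real.log 2) :=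
    Real.quadratic_le_exp_of_nonneg (by
      have := Real.log_two_gt_d9
      positivity)
  rw [h2]
  refine le_trans ?_ h3
  have h4 := Real.log_two_gt_d9
  nlinarith [sq_nonneg (y * Real.log 2 - 1)]

/-- The bound for the truncated sum. -/
theorem SeqE.main (h : SeqE K ν ρ a X) : At ν ρ a K ≤ 110 * ν^4 := by
  have hν := h.ν1
  have hν4 : 1 ≤ ν^4 := one_le_pow₀ hν
  have hνν4 : ν ≤ ν^4 := le_self_pow₀ hν (by norm_num)
  have hA0 : At ν ρ a 0 = 0 := by simp [At]
  have hpos : ∀ i < K, 0 < a i := fun i hi => h.apos hi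
  have hinc : ∀ l < K, At ν ρ a (l+1) ≤ At ν ρ a l + ν := by
    intro l hl
    rw [At_succ]
    have := (h.tr_bounds hl).2.2.2.2.1
    linarith
  rcases lt_or_ge (At ν ρ a K) (4 * ν^4) with hsm | hbig
  · linarith
  obtain ⟨t0, a1, a2, a3, a4⟩ := first_cross (A := At ν ρ a) (c := 4 * ν^4) (b := ν)
    (Nat.zero_le K) le_rfl (by positivity) hinc (by rw [hA0]; linarith)
  rw [hA0, sub_zero] at a3 a4
  obtain ⟨j, b1, b2, b3, b4⟩ := first_cross (A := At ν ρ a) (c := ν^4) (b := ν)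
    (Nat.zero_le t0) a2 (by positivity) hinc (by rw [hA0]; linarith)
  rw [hA0, sub_zero] at b3 b4
  have hjt : j < t0 := by
    rcases b2.eq_or_lt with h1 | h1
    · rw [h1] at b4; linarith
    · exact h1
  set D := sg' a t0 - sg' a j with hD
  have hD0 : 0 < D := by
    have := sg'_lt hpos hjt a2
    rw [hD]; linarith
  have hDlo : 0.1 / ν^12 ≤ D := by
    have h1 := sg'_mono hpos (show j + 1 ≤ t0 by omega) a2
    rw [sg'_succ] at h1
    have h2 := h.alo j (by omega)
    have h3 := h.nc j (by omega)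
    have h4 := h.X0 j (by omega)
    have h5 : 1 / (2 * ν^6) ≤ ρ j := by
      refine le_trans ?_ h3
      gcongr
      linarith
    have h6 : (1 / (2 * ν^6))^2 ≤ ρ j^2 := by gcongr
    have h7 : (1 / (2 * ν^6))^2 = 0.25 / ν^12 := by
      field_simp; norm_num
    rw [h7] at h6
    have h8 : (0.1:ℝ) / ν^12 ≤ 0.45 * (0.25 / ν^12) := by
      rw [← mul_div_assoc]; gcongr; norm_num
    linarith
  -- lower bounds for `X`
  have hX : ∀ k, t0 ≤ k → k ≤ K → 0.9 * ν^8 * D ≤ X k^2 ∧
      3.6 * ν^8 * ((sg' a k - sg' a t0)^2 / D) ≤ X k^2 := by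
    intro k hk1 hk2
    have hX := h.sumX k hk2
    have hnn : ∀ i, 0 ≤ (sg' a k - sg' a i)^2 / ρ i^2 := fun i => by positivity
    constructor
    · have h3 := cs_key (ρ := ρ) (a := a) (d := fun i => sg' a k - sg' a i) (c := 1) (Nat.zero_le j)
        (by norm_num) (fun l _ h5 => sub_pos.2 (sg'_lt hpos (by omega) hk2))
        (fun l _ h5 => (hpos l (by omega)).le)
        (fun l _ h5 => h.ρ0 l (by omega)) (fun l _ h5 => by
          simp only [sg'_succ]; linarith)
      simp only [one_mul] at h3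
      have h4 : ∑ i ∈ Finset.Ico 0 j, (sg' a k - sg' a i)^2 / ρ i^2 ≤ 1.1 * X k^2 := by
        refine le_trans ?_ hX
        rw [Nat.Ico_zero_eq_range]
        apply Finset.sum_le_sum_of_subset_of_nonneg
        · intro l hl
          rw [Finset.mem_range] at *
          omega
        · intro l _ _; exact hnn l
      have h5 : ν^4 ≤ As ρ a j - As ρ a 0 := by
        have := At_le_As (ν := ν) (ρ := ρ) (a := a) (Nat.zero_le j)
        rw [hA0, sub_zero] at this
        linarith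
      have h6 : D ≤ sg' a k - sg' a j := by
        have := sg'_mono hpos hk1 hk2
        rw [hD]; linarith
      have h7 : (ν^4)^2 * D ≤ 1.1 * X k^2 := by
        calc (ν^4)^2 * D ≤ (As ρ a j - As ρ a 0)^2 * (sg' a k - sg' a j) := by gcongr
          _ ≤ _ := h3.trans h4
      have h8 : (ν^4)^2 * D = ν^8 * D := by ring
      rw [h8] at h7
      have h9 : 0 < ν^8 * D := by positivity
      linarith
    · have h3 := sum_inv_ge (K := K) (ρ := ρ) (a := a) hjt.le a2 hpos h.ρ0
      rw [← hD] at h3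
      have h4 : 2 * ν^4 ≤ As ρ a t0 - As ρ a j := by
        have := At_le_As (ν := ν) (ρ := ρ) (a := a) hjt.le
        linarith
      have h5 : 4 * ν^8 ≤ (∑ l ∈ Finset.Ico j t0, 1 / ρ l^2) * D := by
        calc 4 * ν^8 = (2 * ν^4)^2 := by ring
          _ ≤ (As ρ a t0 - As ρ a j)^2 := by gcongr
          _ ≤ _ := h3
      set S := sg' a k - sg' a t0 with hS
      have hS0 : 0 ≤ S := by
        have := sg'_mono hpos hk1 hk2
        rw [hS]; linarith
      have h6 : S^2 * ∑ l ∈ Finset.Ico j t0, 1 / ρ l^2 ≤ 1.1 * X k^2 := by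
        refine le_trans ?_ hX
        rw [Finset.mul_sum]
        refine le_trans (Finset.sum_le_sum (g := fun i => (sg' a k - sg' a i)^2 / ρ i^2) ?_) ?_
        · intro l hl
          rw [Finset.mem_Ico] at hl
          rw [mul_one_div]
          have h7 : S ≤ sg' a k - sg' a l := by
            have := sg'_mono hpos hl.2.le a2
            rw [hS]; linarith
          gcongr
        · apply Finset.sum_le_sum_of_subset_of_nonneg
          · intro l hl
            rw [Finset.mem_Ico] at hl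
            rw [Finset.mem_range]
            omega
          · intro l _ _; exact hnn l
      have h7 : S^2 / D * (4 * ν^8) ≤ 1.1 * X k^2 := by
        calc S^2 / D * (4 * ν^8) ≤ S^2 / D * ((∑ l ∈ Finset.Ico j t0, 1 / ρ l^2) * D) := by gcongr
          _ = S^2 * ∑ l ∈ Finset.Ico j t0, 1 / ρ l^2 := by field_simp
          _ ≤ _ := h6
      have h8 : 0 ≤ S^2 / D * ν^8 := by positivity
      nlinarith
  -- the potential
  set y : ℕ → ℝ := fun k => (sg' a k - sg' a t0) / D with hy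
  have hy0 : ∀ k, t0 ≤ k → k ≤ K → 0 ≤ y k := by
    intro k h1 h2
    have := sg'_mono hpos h1 h2
    rw [hy]
    simp only
    apply div_nonneg _ hD0.le
    linarith
  have hystep : ∀ k, t0 ≤ k → k < K →
      y k + 0.11 * (tr ν ρ a k / ν^4) * (1 + (y k)^2) ≤ y (k+1) := by
    intro k h1 h2
    obtain ⟨x1, x2⟩ := hX k h1 h2.le
    obtain ⟨c1, c2, c3, c4, c5, c6⟩ := h.tr_bounds h2
    have h3 := h.nc k h2
    have h4 := h.X0 k h2.le
    have hρ : X k / (2 * ν^6) ≤ ρ k := by
      refine le_trans ?_ h3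
      gcongr
      linarith
    have h5 : X k^2 / (4 * ν^12) ≤ ρ k^2 := by
      calc X k^2 / (4 * ν^12) = (X k / (2 * ν^6))^2 := by ring
        _ ≤ _ := by gcongr
    have e1 : y (k+1) = y k + a k / D := by
      rw [hy]; simp only [sg'_succ]; ring
    rw [e1]
    have h6 : 0.11 * (tr ν ρ a k / ν^4) * (1 + (y k)^2) ≤ a k / D := by
      rw [le_div_iff₀ hD0]
      refine le_trans ?_ c3
      have h7 : 0.11 / ν^4 * (1 + (y k)^2) * D ≤ ρ k^2 := by
        refine le_trans ?_ h5
        have e2 : (y k)^2 * D = (sg' a k - sg' a t0)^2 / D := by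
          rw [hy]; simp only; field_simp
        have h8 : ν^8 * (0.45 * D + 1.8 * ((y k)^2 * D)) ≤ X k^2 := by
          rw [e2]
          have h9 : 0 < ν^8 * D := by positivity
          have h10 : 0 ≤ ν^8 * ((sg' a k - sg' a t0)^2 / D) := by positivity
          linarith
        rw [le_div_iff₀ (by positivity)]
        have e3 : 0.11 / ν^4 * (1 + (y k)^2) * D * (4 * ν^12) =
          ν^8 * (0.44 * (D + (y k)^2 * D)) := by field_simp; ring
        rw [e3]
        refine le_trans ?_ h8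
        have : 0 ≤ (y k)^2 * D := by positivity
        gcongr
        linarith
      calc 0.11 * (tr ν ρ a k / ν^4) * (1 + (y k)^2) * D
          = tr ν ρ a k * (0.11 / ν^4 * (1 + (y k)^2) * D) := by ring
        _ ≤ _ := by gcongr
    linarith
  have hsum : ∀ k, t0 ≤ k → k ≤ K → ∑ i ∈ Finset.Ico t0 k, tr ν ρ a i ≤
      37 * ν^4 * (y k / (1 + y k)) + ν^2 * Real.logb 2 (1 + y k) := by
    intro k hk
    induction k, hk using Nat.le_induction with
    | base =>
      intro _
      have : y t0 = 0 := by rw [hy]; simp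
      rw [this]; simp
    | succ k hk ih =>
      intro hkK
      have ih' := ih (by omega)
      rw [Finset.sum_Ico_succ_top hk]
      obtain ⟨c1, c2, _⟩ := h.tr_bounds (show k < K by omega)
      have h1 := pot_step (hy0 k hk (by omega)) (show 0 < ν^4 by positivity) (by linarith) c2
        (hystep k hk (by omega))
      linarith
  have hfin := hsum K a2 le_rfl
  have hyK0 := hy0 K a2 le_rfl
  have hg1 : y K / (1 + y K) ≤ 1 := by rw [div_le_one (by linarith)]; linarith
  have hyK : y K ≤ 100 * ν^24 := by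
    have h1 : y K ≤ 10 * ν^12 / D := by
      rw [hy]; simp only
      gcongr
      have h2 : 0 ≤ sg' a t0 := by
        have := sg'_mono hpos (Nat.zero_le t0) a2
        simpa [sg'] using this
      linarith [h.sgK]
    refine h1.trans ?_
    rw [div_le_iff₀ hD0]
    calc 10 * ν^12 = 100 * ν^24 * (0.1 / ν^12) := by field_simp; norm_num
      _ ≤ _ := by gcongr
  have hlog : Real.logb 2 (1 + y K) ≤ 31 * ν^2 := by
    have h1 : 1 + y K ≤ 128 * ν^24 := by
      have : 1 ≤ ν^24 := one_le_pow₀ hν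
      linarith
    have h2 := Real.logb_le_logb_of_le (b := 2) (by norm_num) (by linarith) h1
    rw [Real.logb_mul (by norm_num) (by positivity), Real.logb_pow] at h2
    have h3 : Real.logb 2 128 = 7 := by
      rw [show (128:ℝ) = 2^(7:ℕ) by norm_num, Real.logb_pow, Real.logb_self_eq_one (by norm_num)]
      norm_num
    have h4 := logb_le_self hν
    rw [h3] at h2
    push_cast at h2
    nlinarith
  have h1 : ∑ i ∈ Finset.Ico t0 K, tr ν ρ a i ≤ 68 * ν^4 := by
    have h2 : 37 * ν^4 * (y K / (1 + y K)) ≤ 37 * ν^4 * 1 := by gcongr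
    have h3 : ν^2 * Real.logb 2 (1 + y K) ≤ ν^2 * (31 * ν^2) := by gcongr
    nlinarith
  have h2 : At ν ρ a K - At ν ρ a t0 ≤ 1.5 * ∑ i ∈ Finset.Ico t0 K, tr ν ρ a i := by
    rw [At, At, ← sum_Ico_eq a2, Finset.mul_sum]
    apply Finset.sum_le_sum
    intro l hl
    rw [Finset.mem_Ico] at hl
    exact (h.tr_bounds hl.2).2.2.2.2.2
  linarith

end Pool.Agent.Helper643.CG
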