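import Mathlib
import Pool.Agent.Helper643.CGLocal

/-!
Near-orthogonality of the residuals with the sharp amplification factor.
-/

namespace Pool.Agent.Helper643.CG

open scoped InnerProductSpace

variable {E : Type*} [NormedAddCommGroup E] [InnerProductSpace ℝ E]
variable {T : E →ₗ[ℝ] E} {b : E} {τ Z : ℝ} {K : ℕ} {x r q : ℕ → E} {a : ℕ → ℝ}

/-- The amplification factor. -/
noncomputable def gro (r : ℕ → E) (a : ℕ → ℝ) (k : ℕ) : ℝ :=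
  ∏ l ∈ Finset.range k, (40 * (a l / ‖r l‖^2))

lemma gro_succ (r : ℕ → E) (a : ℕ → ℝ) (k : ℕ) :
    gro r a (k+1) = gro r a k * (40 * (a k / ‖r k‖^2)) := by
  rw [gro, Finset.prod_range_succ]; rfl

/-- Ratios of consecutive quantities. -/
lemma ratio_facts (h : SRun T b τ K x r q a) {k : ℕ} (hk : k < K) (hN : Nxt T τ Z r q a k) :
    0 < ‖r k‖ ∧ ‖r k‖^2 ≤ 2.23 * a k ∧ ‖r (k+1)‖^2 ≤ 7.29 * a k ∧
      ‖r k‖ * ‖r (k+1)‖ ≤ 4.05 * a k := by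
  have hρ : 0 < ‖r k‖ := norm_pos_iff.2 (h.rne k hk)
  have ha := hN.apos
  have hlow := hN.alow
  set α := √(a k) with hα
  have hα0 : 0 ≤ α := Real.sqrt_nonneg _
  have hαsq : α^2 = a k := Real.sq_sqrt ha.le
  have hrn := hN.rn
  rw [← hα] at hrn
  have h1 : ‖r k‖ ≤ 1.5 * α := by
    apply abs_le_of_sq_le_sq' _ (by positivity) |>.2
    rw [mul_pow, hαsq]
    linarith
  refine ⟨hρ, by linarith, ?_, ?_⟩
  · calc ‖r (k+1)‖^2 ≤ (2.7 * α)^2 := by gcongr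
      _ = 7.29 * α^2 := by ring
      _ = _ := by rw [hαsq]
  · calc ‖r k‖ * ‖r (k+1)‖ ≤ (1.5 * α) * (2.7 * α) := by gcongr
      _ = 4.05 * α^2 := by ring
      _ = _ := by rw [hαsq]

lemma gro_ge (h : SRun T b τ K x r q a) (hN : ∀ k < K, Nxt T τ Z r q a k) {k : ℕ} (hk : k < K) :
    18 ≤ 40 * (a k / ‖r k‖^2) := by
  obtain ⟨h1, _⟩ := ratio_facts h hk (hN k hk)
  have h2 := (hN k hk).alow
  have : 0.45 ≤ a k / ‖r k‖^2 := by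
    rw [le_div_iff₀ (by positivity)]
    exact h2
  linarith

lemma gro_mono (h : SRun T b τ K x r q a) (hN : ∀ k < K, Nxt T τ Z r q a k) :
    ∀ k ≤ K, 1 ≤ gro r a k ∧ (k < K → gro r a k ≤ gro r a (k+1)) := by
  have h1 : ∀ k ≤ K, 1 ≤ gro r a k := by
    intro k
    induction k with
    | zero => intro _; simp [gro]
    | succ k ih =>
      intro hk
      rw [gro_succ]
      have h2 := ih (by omega)
      have h3 := gro_ge h hN (show k < K by omega)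
      nlinarith
  intro k hk
  refine ⟨h1 k hk, fun hk' => ?_⟩
  rw [gro_succ]
  have h2 := h1 k hk
  have h3 := gro_ge h hN hk'
  nlinarith

/-- `T (q i)` through residuals. -/
lemma err2 (h : SRun T b τ K x r q a) (hZ : 1 ≤ Z) {k : ℕ} (hk : k < K)
    (hN : Nxt T τ Z r q a k) :
    ∃ e : E, T (q k) = (a k)⁻¹ • (r k - r (k+1) + e) ∧ ‖e‖ ≤ 2.02 * (τ * Z) * ‖r k‖ := by
  have hτ := h.tau
  have ha := hN.apos
  have h2 := h.h2 k hk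
  rw [abs_of_pos ha] at h2
  refine ⟨r (k+1) - r k + a k • T (q k), ?_, ?_⟩
  · have e1 : r k - r (k+1) + (r (k+1) - r k + a k • T (q k)) = a k • T (q k) := by abel
    rw [e1, smul_smul, inv_mul_cancel₀ ha.ne', one_smul]
  · refine h2.trans ?_
    have h3 := hN.aq
    have h4 : ‖r k‖ ≤ Z * ‖r k‖ := le_mul_of_one_le_left (norm_nonneg _) hZ
    calc τ * (‖r k‖ + a k * ‖q k‖) ≤ τ * (Z * ‖r k‖ + 1.02 * Z * ‖r k‖) := by gcongr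
      _ = _ := by ring

/-- The increments of `q`. -/
lemma err3 (h : SRun T b τ K x r q a) (hZ : 1 ≤ Z) {k : ℕ} (hk : k < K)
    (hN : Nxt T τ Z r q a k) (hne : r (k+1) ≠ 0) :
    ∃ e : E, q (k+1) = q k + (‖r (k+1)‖^2)⁻¹ • r (k+1) + e ∧ ‖r (k+1)‖ * ‖e‖ ≤ 5 * (τ * Z) := by
  have hτ := h.tau
  have h3 := h.h3 k hk hne
  have hρ : 0 < ‖r (k+1)‖ := norm_pos_iff.2 hne
  refine ⟨q (k+1) - (‖r (k+1)‖^2)⁻¹ • r (k+1) - q k, by abel, ?_⟩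
  have h4 := hN.qrn
  calc ‖r (k+1)‖ * ‖q (k+1) - (‖r (k+1)‖^2)⁻¹ • r (k+1) - q k‖
      ≤ ‖r (k+1)‖ * (τ * (‖r (k+1)‖⁻¹ + ‖q k‖)) := by gcongr
    _ = τ * (‖r (k+1)‖ * ‖r (k+1)‖⁻¹ + ‖q k‖ * ‖r (k+1)‖) := by ring
    _ = τ * (1 + ‖q k‖ * ‖r (k+1)‖) := by rw [mul_inv_cancel₀ hρ.ne']
    _ ≤ τ * (Z + 4 * Z) := by gcongr
    _ = _ := by ring

/-- Bound for `⟪T (r i), z⟫`. -/
lemma inner_Tr (h : SRun T b τ K x r q a) (hZ : 1 ≤ Z) (hN : ∀ k < K, Nxt T τ Z r q a k)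
    {i : ℕ} (hi : i < K) {z : E} {Λ dd : ℝ} (hΛ : 0 ≤ Λ)
    (h0 : |⟪r i, z⟫_ℝ| ≤ Λ * ‖r i‖) (h1 : |⟪r (i+1), z⟫_ℝ - dd| ≤ Λ * ‖r (i+1)‖)
    (hm : ∀ i', i' + 1 = i → |⟪r i', z⟫_ℝ| ≤ Λ * ‖r i'‖) :
    |⟪T (r i), z⟫_ℝ + ‖r i‖^2 / a i * dd| ≤ 18 * (Λ + τ * Z * ‖z‖) * ‖r i‖ := by
  have hτ := h.tau
  have hNi := hN i hi
  obtain ⟨hρ, f1, f2, f3⟩ := ratio_facts h hi hNi
  have ha := hNi.apos
  obtain ⟨e, he, hen⟩ := err2 h hZ hi hNi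
  have hτZ : 0 ≤ τ * Z := by positivity
  set ρ := ‖r i‖ with hρdef
  have hz0 : 0 ≤ ‖z‖ := norm_nonneg z
  -- the first part
  have p1 : |ρ^2 * ⟪T (q i), z⟫_ℝ + ρ^2 / a i * dd| ≤ (6.28 * Λ + 4.51 * (τ * Z) * ‖z‖) * ρ := by
    have e1 : ρ^2 * ⟪T (q i), z⟫_ℝ + ρ^2 / a i * dd =
        ρ^2 / a i * (⟪r i, z⟫_ℝ - (⟪r (i+1), z⟫_ℝ - dd) + ⟪e, z⟫_ℝ) := by
      rw [he, real_inner_smul_left, inner_add_left, inner_sub_left]
      field_simp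
      ring
    have e2 : |⟪e, z⟫_ℝ| ≤ 2.02 * (τ * Z) * ρ * ‖z‖ :=
      (abs_real_inner_le_norm _ _).trans (by gcongr)
    have e3 : |⟪r i, z⟫_ℝ - (⟪r (i+1), z⟫_ℝ - dd) + ⟪e, z⟫_ℝ| ≤
        Λ * ρ + Λ * ‖r (i+1)‖ + 2.02 * (τ * Z) * ρ * ‖z‖ := by
      refine (abs_add_le _ _).trans ?_
      have := abs_sub ⟪r i, z⟫_ℝ (⟪r (i+1), z⟫_ℝ - dd)
      linarith
    have e4 : 0 ≤ ρ^2 / a i := by positivity
    rw [e1, abs_mul, abs_of_nonneg e4]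
    have g1 : ρ^2 / a i ≤ 2.23 := by rw [div_le_iff₀ ha]; exact f1
    have g2 : ρ^2 / a i * ‖r (i+1)‖ ≤ 4.05 * ρ := by
      rw [div_mul_eq_mul_div, div_le_iff₀ ha]
      calc ρ^2 * ‖r (i+1)‖ = ρ * (ρ * ‖r (i+1)‖) := by ring
        _ ≤ ρ * (4.05 * a i) := by gcongr
        _ = _ := by ring
    calc ρ^2 / a i * |⟪r i, z⟫_ℝ - (⟪r (i+1), z⟫_ℝ - dd) + ⟪e, z⟫_ℝ|
        ≤ ρ^2 / a i * (Λ * ρ + Λ * ‖r (i+1)‖ + 2.02 * (τ * Z) * ρ * ‖z‖) := by gcongr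
      _ = (ρ^2 / a i) * (Λ * ρ) + Λ * (ρ^2 / a i * ‖r (i+1)‖) +
          (ρ^2 / a i) * (2.02 * (τ * Z) * ρ * ‖z‖) := by ring
      _ ≤ 2.23 * (Λ * ρ) + Λ * (4.05 * ρ) + 2.23 * (2.02 * (τ * Z) * ρ * ‖z‖) := by gcongr
      _ ≤ _ := by
        have : 0 ≤ (τ * Z) * ρ * ‖z‖ := by positivity
        nlinarith
  rcases Nat.eq_zero_or_pos i with hi0 | hipos
  · -- `i = 0`
    have e1 : r i = ρ^2 • q i := by
      rw [hρdef, hi0, h.r0, h.q0, h.b1]; simp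
    have e2 : ⟪T (r i), z⟫_ℝ = ρ^2 * ⟪T (q i), z⟫_ℝ := by
      conv_lhs => rw [e1]
      rw [map_smul, real_inner_smul_left]
    rw [e2]
    refine p1.trans ?_
    gcongr
    have : 0 ≤ τ * Z * ‖z‖ := by positivity
    linarith
  · obtain ⟨m, rfl⟩ : ∃ m, i = m + 1 := ⟨i - 1, by omega⟩
    have hNm := hN m (by omega)
    obtain ⟨hρm, k1, k2, k3⟩ := ratio_facts h (show m < K by omega) hNm
    have ham := hNm.apos
    obtain ⟨e', he', hen'⟩ := err2 h hZ (show m < K by omega) hNm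
    obtain ⟨d, hd, hdn⟩ := err3 h hZ (show m < K by omega) hNm (h.rne (m+1) hi)
    have hinv : (ρ^2) * (ρ^2)⁻¹ = 1 := mul_inv_cancel₀ (by positivity)
    have e1 : r (m+1) = ρ^2 • (q (m+1) - q m - d) := by
      have : q (m+1) - q m - d = (ρ^2)⁻¹ • r (m+1) := by rw [hd]; abel
      rw [this, smul_smul, hinv, one_smul]
    have e2 : ⟪T (r (m+1)), z⟫_ℝ = ρ^2 * ⟪T (q (m+1)), z⟫_ℝ - ρ^2 * ⟪T (q m), z⟫_ℝ
        - ρ^2 * ⟪T d, z⟫_ℝ := by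
      conv_lhs => rw [e1]
      rw [map_smul, real_inner_smul_left, map_sub, map_sub, inner_sub_left, inner_sub_left]
      ring
    have p2 : |ρ^2 * ⟪T (q m), z⟫_ℝ| ≤ (11.34 * Λ + 8.19 * (τ * Z) * ‖z‖) * ρ := by
      have e3 : ρ^2 * ⟪T (q m), z⟫_ℝ = ρ^2 / a m * (⟪r m, z⟫_ℝ - ⟪r (m+1), z⟫_ℝ + ⟪e', z⟫_ℝ) := by
        rw [he', real_inner_smul_left, inner_add_left, inner_sub_left]
        field_simp
      have e4 : |⟪e', z⟫_ℝ| ≤ 2.02 * (τ * Z) * ‖r m‖ * ‖z‖ :=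
        (abs_real_inner_le_norm _ _).trans (by gcongr)
      have e5 : |⟪r m, z⟫_ℝ - ⟪r (m+1), z⟫_ℝ + ⟪e', z⟫_ℝ| ≤
          Λ * ‖r m‖ + Λ * ρ + 2.02 * (τ * Z) * ‖r m‖ * ‖z‖ := by
        refine (abs_add_le _ _).trans ?_
        have := abs_sub ⟪r m, z⟫_ℝ ⟪r (m+1), z⟫_ℝ
        have := hm m rfl
        linarith
      have e6 : 0 ≤ ρ^2 / a m := by positivity
      rw [e3, abs_mul, abs_of_nonneg e6]
      have g1 : ρ^2 / a m ≤ 7.29 := by rw [div_le_iff₀ ham]; exact k2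
      have g2 : ρ^2 / a m * ‖r m‖ ≤ 4.05 * ρ := by
        rw [div_mul_eq_mul_div, div_le_iff₀ ham]
        calc ρ^2 * ‖r m‖ = ρ * (‖r m‖ * ρ) := by ring
          _ ≤ ρ * (4.05 * a m) := by gcongr
          _ = _ := by ring
      calc ρ^2 / a m * |⟪r m, z⟫_ℝ - ⟪r (m+1), z⟫_ℝ + ⟪e', z⟫_ℝ|
          ≤ ρ^2 / a m * (Λ * ‖r m‖ + Λ * ρ + 2.02 * (τ * Z) * ‖r m‖ * ‖z‖) := by gcongr
        _ = Λ * (ρ^2 / a m * ‖r m‖) + (ρ^2 / a m) * (Λ * ρ) +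
            2.02 * (τ * Z) * ‖z‖ * (ρ^2 / a m * ‖r m‖) := by ring
        _ ≤ Λ * (4.05 * ρ) + 7.29 * (Λ * ρ) + 2.02 * (τ * Z) * ‖z‖ * (4.05 * ρ) := by gcongr
        _ ≤ _ := by
          have : 0 ≤ (τ * Z) * ρ * ‖z‖ := by positivity
          nlinarith
    have p3 : |ρ^2 * ⟪T d, z⟫_ℝ| ≤ 5 * (τ * Z) * ‖z‖ * ρ := by
      rw [abs_mul, abs_of_nonneg (sq_nonneg _)]
      calc ρ^2 * |⟪T d, z⟫_ℝ| ≤ ρ^2 * (‖d‖ * ‖z‖) := by
            gcongr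
            refine (abs_real_inner_le_norm _ _).trans ?_
            gcongr
            exact h.one d
        _ = ρ * (ρ * ‖d‖) * ‖z‖ := by ring
        _ ≤ ρ * (5 * (τ * Z)) * ‖z‖ := by gcongr
        _ = _ := by ring
    have e3 : ⟪T (r (m+1)), z⟫_ℝ + ρ^2 / a (m+1) * dd =
        (ρ^2 * ⟪T (q (m+1)), z⟫_ℝ + ρ^2 / a (m+1) * dd) - ρ^2 * ⟪T (q m), z⟫_ℝ
        - ρ^2 * ⟪T d, z⟫_ℝ := by
      rw [e2]; ring
    rw [e3]
    have q1 := abs_sub ((ρ^2 * ⟪T (q (m+1)), z⟫_ℝ + ρ^2 / a (m+1) * dd) - ρ^2 * ⟪T (q m), z⟫_ℝ)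
      (ρ^2 * ⟪T d, z⟫_ℝ)
    have q2 := abs_sub (ρ^2 * ⟪T (q (m+1)), z⟫_ℝ + ρ^2 / a (m+1) * dd) (ρ^2 * ⟪T (q m), z⟫_ℝ)
    have : 0 ≤ τ * Z * ‖z‖ * ρ := by positivity
    have : 0 ≤ Λ * ρ := by positivity
    nlinarith

theorem orth_all (h : SRun T b τ K x r q a) (hZ : 1 ≤ Z) (hN : ∀ k < K, Nxt T τ Z r q a k)
    {R : ℝ} (hR : ∀ k ≤ K, ‖r k‖ ≤ R) :
    ∀ j ≤ K, ∀ i < j, |⟪r i, r j⟫_ℝ| ≤ 200 * K * (τ * Z) * R * gro r a j * ‖r i‖ := by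
  have hτ := h.tau
  have hτZ : 0 ≤ τ * Z := by positivity
  have hR0 : 0 ≤ R := (norm_nonneg _).trans (hR 0 (by omega))
  set μ := 200 * K * (τ * Z) * R with hμ
  have hμ0 : 0 ≤ μ := by positivity
  -- the consecutive bound
  have hcons : ∀ j < K, |⟪r j, r (j+1)⟫_ℝ| ≤ μ * gro r a (j+1) * ‖r j‖ := by
    intro j hj
    have hNj := hN j hj
    obtain ⟨hρ, _⟩ := ratio_facts h hj hNj
    have h1 := hNj.y
    rw [real_inner_comm] at h1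
    have hg := (gro_mono h hN j hj.le).1
    have ha := hNj.apos
    rw [gro_succ]
    have e1 : a j = a j / ‖r j‖^2 * ‖r j‖ * ‖r j‖ := by field_simp
    have hK : (j:ℝ) + 1 ≤ K := by exact_mod_cast hj
    have hj0 : (0:ℝ) ≤ j := Nat.cast_nonneg j
    have hα0 : 0 ≤ a j / ‖r j‖^2 := by positivity
    calc |⟪r j, r (j+1)⟫_ℝ| ≤ (170 * j + 169) * (τ * Z) * a j := h1
      _ ≤ (200 * K) * (τ * Z) * a j := by
          gcongr; linarith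
      _ = (200 * K) * (τ * Z) * (a j / ‖r j‖^2 * ‖r j‖ * ‖r j‖) := by rw [← e1]
      _ ≤ (200 * K) * (τ * Z) * (a j / ‖r j‖^2 * R * ‖r j‖) := by
          have := hR j hj.le
          gcongr
      _ = μ * (1 * (a j / ‖r j‖^2)) * ‖r j‖ := by rw [hμ]; ring
      _ ≤ μ * (gro r a j * (40 * (a j / ‖r j‖^2))) * ‖r j‖ := by
          gcongr
          linarith
  intro j
  induction j using Nat.strong_induction_on with
  | _ j ih =>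
    intro hj i hi
    obtain ⟨k, rfl⟩ : ∃ k, j = k + 1 := ⟨j - 1, by omega⟩
    rcases Nat.eq_or_lt_of_le (Nat.lt_succ_iff.1 hi) with hik | hik
    · rw [hik]; exact hcons k (by omega)
    -- now `i < k`
    obtain ⟨m, rfl⟩ : ∃ m, k = m + 1 := ⟨k - 1, by omega⟩
    have hk : m + 1 < K := by omega
    have hNk := hN (m+1) hk
    have hNm := hN m (by omega)
    obtain ⟨hρk, f1, f2, f3⟩ := ratio_facts h hk hNk
    obtain ⟨hρm, k1, k2, k3⟩ := ratio_facts h (show m < K by omega) hNm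
    have hak := hNk.apos
    have ham := hNm.apos
    set Λ := μ * gro r a (m+1) with hΛ
    have hg1 := (gro_mono h hN (m+1) (by omega)).1
    have hgm := (gro_mono h hN m (by omega)).2 (by omega)
    have hΛ0 : 0 ≤ Λ := by positivity
    have hΛμ : μ ≤ Λ := le_mul_of_one_le_right hμ0 hg1
    have hcur : ∀ i' < m + 1, |⟪r i', r (m+1)⟫_ℝ| ≤ Λ * ‖r i'‖ := fun i' hi' =>
      ih (m+1) (by omega) (by omega) i' hi'
    have hprev : ∀ i' < m, |⟪r i', r m⟫_ℝ| ≤ Λ * ‖r i'‖ := fun i' hi' => by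
      refine (ih m (by omega) (by omega) i' hi').trans ?_
      rw [hΛ]
      gcongr
    obtain ⟨dd, dd', hdd, hdd', hbal⟩ : ∃ dd dd' : ℝ,
        |⟪r (i+1), r (m+1)⟫_ℝ - dd| ≤ Λ * ‖r (i+1)‖ ∧ |⟪r i, r m⟫_ℝ - dd'| ≤ Λ * ‖r i‖ ∧
        dd' / a m = (‖r (m+1)‖^2)⁻¹ * (‖r i‖^2 / a i * dd) := by
      rcases Nat.eq_or_lt_of_le (show i ≤ m by omega) with him | him
      · refine ⟨‖r (m+1)‖^2, ‖r m‖^2, ?_, ?_, ?_⟩
        · rw [him, real_inner_self_eq_norm_sq, sub_self, abs_zero]; positivity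
        · rw [him, real_inner_self_eq_norm_sq, sub_self, abs_zero]; positivity
        · rw [him]; field_simp
      · refine ⟨0, 0, ?_, ?_, ?_⟩
        · rw [sub_zero]; exact hcur (i+1) (by omega)
        · rw [sub_zero]; exact hprev i him
        · simp
    have hTr := inner_Tr h hZ hN (show i < K by omega) (z := r (m+1)) hΛ0 (hcur i (by omega)) hdd
      (fun i' hi' => hcur i' (by omega))
    obtain ⟨e2, he2, he2n⟩ := err2 h hZ hk hNk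
    obtain ⟨e2', he2', he2n'⟩ := err2 h hZ (show m < K by omega) hNm
    obtain ⟨d, hd, hdn⟩ := err3 h hZ (show m < K by omega) hNm (h.rne (m+1) hk)
    set ρ := ‖r (m+1)‖ with hρdef
    set α := a (m+1) / ρ^2 with hαdef
    have hα0 : 0.45 ≤ α := by
      rw [hαdef, le_div_iff₀ (by positivity)]
      exact hNk.alow
    have hakα : a (m+1) = α * ρ^2 := by rw [hαdef]; field_simp
    -- expression
    have x1 : r (m+1+1) = r (m+1) - a (m+1) • T (q (m+1)) + e2 := by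
      rw [he2, smul_smul, mul_inv_cancel₀ hak.ne', one_smul]; abel
    have x2 : ⟪r i, T (q (m+1))⟫_ℝ = ⟪r i, T (q m)⟫_ℝ + (ρ^2)⁻¹ * ⟪T (r i), r (m+1)⟫_ℝ
        + ⟪r i, T d⟫_ℝ := by
      rw [hd, map_add, map_add, map_smul, inner_add_right, inner_add_right,
        real_inner_smul_right, h.sym]
    have x3 : ⟪r i, r (m+1+1)⟫_ℝ = ⟪r i, r (m+1)⟫_ℝ
        - (a (m+1) * (⟪r i, T (q m)⟫_ℝ - dd' / a m)
          + a (m+1) * (ρ^2)⁻¹ * (⟪T (r i), r (m+1)⟫_ℝ + ‖r i‖^2 / a i * dd)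
          + a (m+1) * ⟪r i, T d⟫_ℝ) + ⟪r i, e2⟫_ℝ := by
      rw [x1, inner_add_right, inner_sub_right, real_inner_smul_right, x2, hbal]
      ring
    have b0 := hcur i (by omega)
    -- term 1
    have b1 : |a (m+1) * (⟪r i, T (q m)⟫_ℝ - dd' / a m)| ≤
        α * (14.58 * Λ + 8.19 * (τ * Z) * ρ) * ‖r i‖ := by
      have y1 : ⟪r i, T (q m)⟫_ℝ - dd' / a m =
          (a m)⁻¹ * ((⟪r i, r m⟫_ℝ - dd') - ⟪r i, r (m+1)⟫_ℝ + ⟪r i, e2'⟫_ℝ) := by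
        rw [he2', real_inner_smul_right, inner_add_right, inner_sub_right]
        field_simp
        ring
      have y2 : |⟪r i, e2'⟫_ℝ| ≤ ‖r i‖ * (2.02 * (τ * Z) * ‖r m‖) :=
        (abs_real_inner_le_norm _ _).trans (by gcongr)
      have y3 : |(⟪r i, r m⟫_ℝ - dd') - ⟪r i, r (m+1)⟫_ℝ + ⟪r i, e2'⟫_ℝ| ≤
          2 * Λ * ‖r i‖ + ‖r i‖ * (2.02 * (τ * Z) * ‖r m‖) := by
        refine (abs_add_le _ _).trans ?_
        have := abs_sub (⟪r i, r m⟫_ℝ - dd') ⟪r i, r (m+1)⟫_ℝ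
        linarith
      have g1 : ρ^2 / a m ≤ 7.29 := by rw [div_le_iff₀ ham]; exact k2
      have g2 : ρ^2 / a m * ‖r m‖ ≤ 4.05 * ρ := by
        rw [div_mul_eq_mul_div, div_le_iff₀ ham]
        calc ρ^2 * ‖r m‖ = ρ * (‖r m‖ * ρ) := by ring
          _ ≤ ρ * (4.05 * a m) := by gcongr
          _ = _ := by ring
      rw [y1, abs_mul, abs_mul, abs_of_pos hak, abs_of_pos (inv_pos.2 ham)]
      calc a (m+1) * ((a m)⁻¹ * |(⟪r i, r m⟫_ℝ - dd') - ⟪r i, r (m+1)⟫_ℝ + ⟪r i, e2'⟫_ℝ|)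
          ≤ a (m+1) * ((a m)⁻¹ * (2 * Λ * ‖r i‖ + ‖r i‖ * (2.02 * (τ * Z) * ‖r m‖))) := by gcongr
        _ = α * (2 * Λ * (ρ^2 / a m) + 2.02 * (τ * Z) * (ρ^2 / a m * ‖r m‖)) * ‖r i‖ := by
            rw [hakα]; ring
        _ ≤ α * (2 * Λ * 7.29 + 2.02 * (τ * Z) * (4.05 * ρ)) * ‖r i‖ := by gcongr
        _ ≤ _ := by
            gcongr α * ?_ * ‖r i‖
            have : 0 ≤ (τ * Z) * ρ := by positivity
            nlinarith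
    have b2 : |a (m+1) * (ρ^2)⁻¹ * (⟪T (r i), r (m+1)⟫_ℝ + ‖r i‖^2 / a i * dd)| ≤
        α * (18 * (Λ + τ * Z * ρ)) * ‖r i‖ := by
      have y1 : a (m+1) * (ρ^2)⁻¹ = α := by rw [hαdef]; rfl
      rw [y1, abs_mul, abs_of_nonneg (by linarith : (0:ℝ) ≤ α)]
      calc α * |⟪T (r i), r (m+1)⟫_ℝ + ‖r i‖^2 / a i * dd| ≤
          α * (18 * (Λ + τ * Z * ρ) * ‖r i‖) := by gcongr
        _ = _ := by ring
    have b3 : |a (m+1) * ⟪r i, T d⟫_ℝ| ≤ α * (5 * (τ * Z) * ρ) * ‖r i‖ := by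
      rw [abs_mul, abs_of_pos hak]
      calc a (m+1) * |⟪r i, T d⟫_ℝ| ≤ a (m+1) * (‖r i‖ * ‖d‖) := by
            gcongr
            refine (abs_real_inner_le_norm _ _).trans ?_
            gcongr
            exact h.one d
        _ = α * ρ * (ρ * ‖d‖) * ‖r i‖ := by rw [hakα]; ring
        _ ≤ α * ρ * (5 * (τ * Z)) * ‖r i‖ := by gcongr
        _ = _ := by ring
    have b4 : |⟪r i, e2⟫_ℝ| ≤ 2.02 * (τ * Z) * ρ * ‖r i‖ := by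
      refine (abs_real_inner_le_norm _ _).trans ?_
      calc ‖r i‖ * ‖e2‖ ≤ ‖r i‖ * (2.02 * (τ * Z) * ρ) := by gcongr
        _ = _ := by ring
    rw [x3]
    have c1 := abs_add_le (⟪r i, r (m+1)⟫_ℝ
        - (a (m+1) * (⟪r i, T (q m)⟫_ℝ - dd' / a m)
          + a (m+1) * (ρ^2)⁻¹ * (⟪T (r i), r (m+1)⟫_ℝ + ‖r i‖^2 / a i * dd)
          + a (m+1) * ⟪r i, T d⟫_ℝ)) ⟪r i, e2⟫_ℝ
    have c2 := abs_sub ⟪r i, r (m+1)⟫_ℝ
        (a (m+1) * (⟪r i, T (q m)⟫_ℝ - dd' / a m)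
          + a (m+1) * (ρ^2)⁻¹ * (⟪T (r i), r (m+1)⟫_ℝ + ‖r i‖^2 / a i * dd)
          + a (m+1) * ⟪r i, T d⟫_ℝ)
    have c3 := abs_add_three (a (m+1) * (⟪r i, T (q m)⟫_ℝ - dd' / a m))
      (a (m+1) * (ρ^2)⁻¹ * (⟪T (r i), r (m+1)⟫_ℝ + ‖r i‖^2 / a i * dd)) (a (m+1) * ⟪r i, T d⟫_ℝ)
    have d1 : τ * Z * ρ ≤ Λ / 200 := by
      have y1 : ρ ≤ R := hR (m+1) (by omega)
      have hK1 : (1:ℝ) ≤ K := by exact_mod_cast (show 1 ≤ K by omega)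
      have y2 : τ * Z * ρ ≤ τ * Z * R := by gcongr
      have y3 : 200 * (τ * Z * R) ≤ μ := by
        have : 0 ≤ τ * Z * R := by positivity
        rw [hμ]
        calc 200 * (τ * Z * R) = 200 * 1 * (τ * Z) * R := by ring
          _ ≤ 200 * K * (τ * Z) * R := by gcongr
      linarith
    have hri := norm_nonneg (r i)
    rw [gro_succ, ← hρdef, ← hαdef]
    have final : Λ * ‖r i‖ + (α * (14.58 * Λ + 8.19 * (τ * Z) * ρ) * ‖r i‖ +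
        α * (18 * (Λ + τ * Z * ρ)) * ‖r i‖ + α * (5 * (τ * Z) * ρ) * ‖r i‖) +
        2.02 * (τ * Z) * ρ * ‖r i‖ ≤ μ * (gro r a (m+1) * (40 * α)) * ‖r i‖ := by
      have e1 : μ * (gro r a (m+1) * (40 * α)) * ‖r i‖ = (40 * α * Λ) * ‖r i‖ := by
        rw [hΛ]; ring
      rw [e1]
      have e2 : Λ * ‖r i‖ + (α * (14.58 * Λ + 8.19 * (τ * Z) * ρ) * ‖r i‖ +
        α * (18 * (Λ + τ * Z * ρ)) * ‖r i‖ + α * (5 * (τ * Z) * ρ) * ‖r i‖) +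
        2.02 * (τ * Z) * ρ * ‖r i‖ = (Λ + α * (32.58 * Λ) + α * (31.19 * (τ * Z * ρ)) +
          2.02 * (τ * Z * ρ)) * ‖r i‖ := by ring
      rw [e2]
      gcongr ?_ * ‖r i‖
      have e3 : α * (31.19 * (τ * Z * ρ)) ≤ α * (31.19 * (Λ / 200)) := by gcongr
      have e4 : 0 ≤ (α - 0.45) * Λ := mul_nonneg (by linarith) hΛ0
      nlinarith
    linarith

end Pool.Agent.Helper643.CG
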