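import Mathlib
import Pool.Agent.Helper643.CGSharpA

namespace Pool.Agent.Helper643.CG

open scoped InnerProductSpace

variable {E : Type*} [NormedAddCommGroup E] [InnerProductSpace ℝ E]
variable {T : E →ₗ[ℝ] E} {G η : ℝ} {K : ℕ} {x r q : ℕ → E} {a : ℕ → ℝ}
variable {θ : ℝ} {ψ ζ : ℕ → ℝ}

/-- The test vectors. -/
def Xv (a ζ : ℕ → ℝ) (q : ℕ → E) (j : ℕ) : E := ∑ i ∈ Finset.range j, (a i * ζ i) • q i

lemma Xv_succ (a ζ : ℕ → ℝ) (q : ℕ → E) (j : ℕ) :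
    Xv a ζ q (j+1) = Xv a ζ q j + (a j * ζ j) • q j := by
  rw [Xv, Xv, Finset.sum_range_succ]

lemma Xv_norm (h : Sharp T G η K x r q a) (hs : Scal θ r a ψ ζ) (hθ : 0 < θ) {k : ℕ} (hk : k ≤ K)
    (hpos : ∀ l < k, 0 < ζ l) {j : ℕ} (hj : j ≤ k) : ‖Xv a ζ q j‖ ≤ 2 * G^6 := by
  have hG := h.G1
  have hjG : (j:ℝ) ≤ G := by
    have : (j:ℝ) ≤ K := by exact_mod_cast (by omega : j ≤ K)
    exact this.trans h.KG
  calc ‖Xv a ζ q j‖ ≤ ∑ i ∈ Finset.range j, ‖(a i * ζ i) • q i‖ := norm_sum_le _ _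
    _ ≤ ∑ _i ∈ Finset.range j, 2 * G^5 := by
        apply Finset.sum_le_sum
        intro i hi
        rw [Finset.mem_range] at hi
        have h1 := h.apos (show i < K by omega)
        have h2 := h.ahi i (by omega)
        have h3 := hpos i (by omega)
        have h4 := zeta_le h hs hθ hk hpos i (by omega)
        have h5 := h.qhi i (by omega)
        rw [norm_smul, Real.norm_eq_abs, abs_of_pos (by positivity)]
        calc a i * ζ i * ‖q i‖ ≤ G * (2 * G^3) * G := by gcongr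
          _ = 2 * G^5 := by ring
    _ = j * (2 * G^5) := by simp
    _ ≤ G * (2 * G^5) := by gcongr
    _ = 2 * G^6 := by ring

/-- The error vector in the Christoffel-Darboux relation. -/
def Er (T : E →ₗ[ℝ] E) (θ : ℝ) (a ψ ζ : ℕ → ℝ) (q r : ℕ → E) (j : ℕ) : E :=
  T (Xv a ζ q (j+1)) - θ • Xv a ζ q (j+1) - ψ (j+1) • q j + ζ j • r (j+1)

lemma Er_norm (h : Sharp T G η K x r q a) (hs : Scal θ r a ψ ζ) (hθ : 0 < θ) (hθ1 : θ ≤ 1)
    {k : ℕ} (hk : k ≤ K) (hpos : ∀ l < k, 0 < ζ l) {j : ℕ} (hj : j + 1 ≤ k) :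
    ‖Er T θ a ψ ζ q r j‖ ≤ 4 * G^6 * η := by
  have hG := h.G1
  have hη := h.η0
  have key : ∀ j, j + 1 ≤ k → ‖Er T θ a ψ ζ q r j‖ ≤ (j+1) * (4 * G^5 * η) := by
    intro j
    induction j with
    | zero =>
      intro hj
      have e1 : Er T θ a ψ ζ q r 0 = r 1 - r 0 + a 0 • T (q 0) := by
        rw [Er, Xv_succ, hs.hψ, hs.ψ0, hs.ζ0, h.q0]
        simp only [Xv, Finset.range_zero, Finset.sum_empty, zero_add, mul_one, map_smul]
        module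
      rw [e1]
      have h2 := h.e2 0 (by omega)
      have h3 : (1:ℝ) ≤ G^5 := one_le_pow₀ hG
      have h4 : η ≤ 4 * G^5 * η := by nlinarith
      simp only [zero_add] at h2
      simp only [Nat.cast_zero, zero_add, one_mul]
      linarith
    | succ j ih =>
      intro hj
      have h1 := ih (by omega)
      have h2 := h.e2 (j+1) (by omega)
      have h3 := h.e3 j (by omega)
      have hz := hpos (j+1) (by omega)
      have hz1 := zeta_le h hs hθ hk hpos (j+1) (by omega)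
      have hp := psi_ge h hs hθ hθ1 hk hpos (j+1) (by omega)
      have hm := h.rpos (show j + 1 ≤ K by omega)
      have e1 : Er T θ a ψ ζ q r (j+1) = Er T θ a ψ ζ q r j
          + ζ (j+1) • (r (j+2) - r (j+1) + a (j+1) • T (q (j+1)))
          - ψ (j+1) • (q (j+1) - q j - (‖r (j+1)‖^2)⁻¹ • r (j+1)) := by
        have e2 : ζ (j+1) = ζ j + ψ (j+1) * (‖r (j+1)‖^2)⁻¹ := by
          rw [hs.hζ, div_eq_mul_inv]
        rw [Er, Er, Xv_succ a ζ q (j+1), hs.hψ (j+1), map_add, map_smul]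
        have e3 : (ψ (j+1) * (‖r (j+1)‖^2)⁻¹) • r (j+1) = (ζ (j+1) - ζ j) • r (j+1) := by
          rw [e2]; congr 1; ring
        simp only [smul_sub, smul_smul, e3]
        module
      rw [e1]
      refine (norm_sub_le _ _).trans ?_
      have n1 := norm_add_le (Er T θ a ψ ζ q r j)
        (ζ (j+1) • (r (j+2) - r (j+1) + a (j+1) • T (q (j+1))))
      have n2 : ‖ζ (j+1) • (r (j+2) - r (j+1) + a (j+1) • T (q (j+1)))‖ ≤ 2 * G^3 * η := by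
        rw [norm_smul, Real.norm_eq_abs, abs_of_pos hz]
        gcongr
      have n3 : ‖ψ (j+1) • (q (j+1) - q j - (‖r (j+1)‖^2)⁻¹ • r (j+1))‖ ≤ 2 * G^5 * η := by
        rw [norm_smul, Real.norm_eq_abs]
        gcongr
      have n4 : 2 * G^3 * η ≤ 2 * G^5 * η := by
        have : G^3 ≤ G^5 := pow_le_pow_right₀ hG (by norm_num)
        gcongr
      push_cast
      linarith
  refine (key j hj).trans ?_
  have hjG : (j:ℝ) + 1 ≤ G := by
    have : (j:ℝ) + 1 ≤ K := by exact_mod_cast (by omega : j + 1 ≤ K)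
    exact this.trans h.KG
  calc ((j:ℝ) + 1) * (4 * G^5 * η) ≤ G * (4 * G^5 * η) := by gcongr
    _ = _ := by ring

/-- `⟨X_j, r_j⟩`. -/
def uu (a ζ : ℕ → ℝ) (q r : ℕ → E) (j : ℕ) : ℝ := ⟪Xv a ζ q j, r j⟫_ℝ

/-- `⟨X_j, T q_j⟩`. -/
def ww (T : E →ₗ[ℝ] E) (a ζ : ℕ → ℝ) (q : ℕ → E) (j : ℕ) : ℝ := ⟪Xv a ζ q j, T (q j)⟫_ℝ

lemma uu_succ (h : Sharp T G η K x r q a) (hs : Scal θ r a ψ ζ) (hθ : 0 < θ) {k : ℕ} (hk : k ≤ K)
    (hpos : ∀ l < k, 0 < ζ l) {j : ℕ} (hj : j < k) :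
    |uu a ζ q r (j+1) - uu a ζ q r j + a j * ww T a ζ q j| ≤ 4 * G^6 * η := by
  have hG := h.G1
  have hη := h.η0
  have e1 : uu a ζ q r (j+1) - uu a ζ q r j + a j * ww T a ζ q j =
      ⟪Xv a ζ q j, r (j+1) - r j + a j • T (q j)⟫_ℝ + a j * ζ j * ⟪q j, r (j+1)⟫_ℝ := by
    rw [uu, uu, ww, Xv_succ, inner_add_left, real_inner_smul_left, inner_add_right,
      inner_sub_right, real_inner_smul_right]
    ring
  rw [e1]
  have h1 : |⟪Xv a ζ q j, r (j+1) - r j + a j • T (q j)⟫_ℝ| ≤ 2 * G^6 * η := by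
    refine (abs_real_inner_le_norm _ _).trans ?_
    have h2 := Xv_norm h hs hθ hk hpos (show j ≤ k by omega)
    have h3 := h.e2 j (by omega)
    gcongr
  have h2 : |a j * ζ j * ⟪q j, r (j+1)⟫_ℝ| ≤ 2 * G^4 * η := by
    have h3 := h.l2 j (by omega)
    have h4 := h.apos (show j < K by omega)
    have h5 := h.ahi j (by omega)
    have h6 := hpos j hj
    have h7 := zeta_le h hs hθ hk hpos j (by omega)
    rw [abs_mul, abs_of_pos (by positivity : 0 < a j * ζ j)]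
    calc a j * ζ j * |⟪q j, r (j+1)⟫_ℝ| ≤ G * (2 * G^3) * η := by gcongr
      _ = _ := by ring
  have h3 : 2 * G^4 * η ≤ 2 * G^6 * η := by
    have : G^4 ≤ G^6 := pow_le_pow_right₀ hG (by norm_num)
    gcongr
  exact (abs_add_le _ _).trans (by linarith)

lemma ww_succ (h : Sharp T G η K x r q a) (hs : Scal θ r a ψ ζ) (hθ : 0 < θ) (hθ1 : θ ≤ 1)
    {k : ℕ} (hk : k ≤ K) (hpos : ∀ l < k, 0 < ζ l) {j : ℕ} (hj : j < k) :
    |ww T a ζ q (j+1) - ww T a ζ q j - θ * uu a ζ q r (j+1) / ‖r (j+1)‖^2| ≤ 10 * G^7 * η := by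
  have hG := h.G1
  have hη := h.η0
  have hm := h.rpos (show j + 1 ≤ K by omega)
  set X := Xv a ζ q (j+1) with hX
  have e1 : ww T a ζ q (j+1) - ww T a ζ q j - θ * uu a ζ q r (j+1) / ‖r (j+1)‖^2 =
      ζ j * (a j * ⟪q j, T (q j)⟫_ℝ - 1) +
      ψ (j+1) * (‖r (j+1)‖^2)⁻¹ * ⟪q j, r (j+1)⟫_ℝ +
      (‖r (j+1)‖^2)⁻¹ * ⟪Er T θ a ψ ζ q r j, r (j+1)⟫_ℝ +
      ⟪X, T (q (j+1) - q j - (‖r (j+1)‖^2)⁻¹ • r (j+1))⟫_ℝ := by
    have e2 : ww T a ζ q (j+1) = ⟪X, T (q (j+1) - q j - (‖r (j+1)‖^2)⁻¹ • r (j+1))⟫_ℝ +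
        ⟪X, T (q j)⟫_ℝ + (‖r (j+1)‖^2)⁻¹ * ⟪T X, r (j+1)⟫_ℝ := by
      rw [ww, ← hX, map_sub, map_sub, map_smul, inner_sub_right, inner_sub_right,
        real_inner_smul_right, h.sym X (r (j+1))]
      ring
    have e3 : ⟪X, T (q j)⟫_ℝ = ww T a ζ q j + a j * ζ j * ⟪q j, T (q j)⟫_ℝ := by
      rw [hX, Xv_succ, inner_add_left, real_inner_smul_left, ww]
    have e4 : ⟪Er T θ a ψ ζ q r j, r (j+1)⟫_ℝ = ⟪T X, r (j+1)⟫_ℝ - θ * uu a ζ q r (j+1)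
        - ψ (j+1) * ⟪q j, r (j+1)⟫_ℝ + ζ j * ‖r (j+1)‖^2 := by
      rw [Er, ← hX, inner_add_left, inner_sub_left, inner_sub_left, real_inner_smul_left,
        real_inner_smul_left, real_inner_smul_left, real_inner_self_eq_norm_sq, uu, ← hX]
    rw [e2, e3, e4]
    field_simp
    ring
  rw [e1]
  have hX1 := Xv_norm h hs hθ hk hpos (show j + 1 ≤ k by omega)
  rw [← hX] at hX1
  have hz := hpos j hj
  have hz1 := zeta_le h hs hθ hk hpos j (by omega)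
  have hp := psi_ge h hs hθ hθ1 hk hpos (j+1) (by omega)
  have hmi := h.minv (show j + 1 ≤ K by omega)
  have hri := h.rinv (show j + 1 ≤ K by omega)
  have hE := Er_norm h hs hθ hθ1 hk hpos (show j + 1 ≤ k by omega)
  have t1 : |ζ j * (a j * ⟪q j, T (q j)⟫_ℝ - 1)| ≤ 2 * G^3 * η := by
    have := h.l1 j (by omega)
    rw [abs_mul, abs_of_pos hz]
    gcongr
  have t2 : |ψ (j+1) * (‖r (j+1)‖^2)⁻¹ * ⟪q j, r (j+1)⟫_ℝ| ≤ 2 * G^7 * η := by
    have := h.l2 j (by omega)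
    rw [abs_mul, abs_mul, abs_of_pos (by positivity : 0 < (‖r (j+1)‖^2)⁻¹)]
    calc |ψ (j+1)| * (‖r (j+1)‖^2)⁻¹ * |⟪q j, r (j+1)⟫_ℝ| ≤ 2 * G^5 * G^2 * η := by gcongr
      _ = _ := by ring
  have t3 : |(‖r (j+1)‖^2)⁻¹ * ⟪Er T θ a ψ ζ q r j, r (j+1)⟫_ℝ| ≤ 4 * G^7 * η := by
    rw [abs_mul, abs_of_pos (by positivity : 0 < (‖r (j+1)‖^2)⁻¹)]
    calc (‖r (j+1)‖^2)⁻¹ * |⟪Er T θ a ψ ζ q r j, r (j+1)⟫_ℝ|
        ≤ (‖r (j+1)‖^2)⁻¹ * (‖Er T θ a ψ ζ q r j‖ * ‖r (j+1)‖) := by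
          gcongr; exact abs_real_inner_le_norm _ _
      _ = ‖Er T θ a ψ ζ q r j‖ * ‖r (j+1)‖⁻¹ := by field_simp
      _ ≤ (4 * G^6 * η) * G := by gcongr
      _ = _ := by ring
  have t4 : |⟪X, T (q (j+1) - q j - (‖r (j+1)‖^2)⁻¹ • r (j+1))⟫_ℝ| ≤ 2 * G^6 * η := by
    refine (abs_real_inner_le_norm _ _).trans ?_
    have h1 := (h.one (q (j+1) - q j - (‖r (j+1)‖^2)⁻¹ • r (j+1))).trans (h.e3 j (by omega))
    gcongr
  have p1 : 2 * G^3 * η ≤ 2 * G^7 * η := by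
    have : G^3 ≤ G^7 := pow_le_pow_right₀ hG (by norm_num)
    gcongr
  have p2 : 2 * G^6 * η ≤ 2 * G^7 * η := by
    have : G^6 ≤ G^7 := pow_le_pow_right₀ hG (by norm_num)
    gcongr
  have q1 := abs_add_le (ζ j * (a j * ⟪q j, T (q j)⟫_ℝ - 1) +
      ψ (j+1) * (‖r (j+1)‖^2)⁻¹ * ⟪q j, r (j+1)⟫_ℝ +
      (‖r (j+1)‖^2)⁻¹ * ⟪Er T θ a ψ ζ q r j, r (j+1)⟫_ℝ)
      (⟪X, T (q (j+1) - q j - (‖r (j+1)‖^2)⁻¹ • r (j+1))⟫_ℝ)
  have q2 := abs_add_le (ζ j * (a j * ⟪q j, T (q j)⟫_ℝ - 1) +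
      ψ (j+1) * (‖r (j+1)‖^2)⁻¹ * ⟪q j, r (j+1)⟫_ℝ)
      ((‖r (j+1)‖^2)⁻¹ * ⟪Er T θ a ψ ζ q r j, r (j+1)⟫_ℝ)
  have q3 := abs_add_le (ζ j * (a j * ⟪q j, T (q j)⟫_ℝ - 1))
      (ψ (j+1) * (‖r (j+1)‖^2)⁻¹ * ⟪q j, r (j+1)⟫_ℝ)
  linarith

/-- The Wronskian. -/
def Om (θ : ℝ) (T : E →ₗ[ℝ] E) (a ψ ζ : ℕ → ℝ) (q r : ℕ → E) (l : ℕ) : ℝ :=
  θ * uu a ζ q r (l+1) * ζ l - ψ (l+1) * ww T a ζ q l

lemma Om_le (h : Sharp T G η K x r q a) (hs : Scal θ r a ψ ζ) (hθ : 0 < θ) (hθ1 : θ ≤ 1)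
    {k : ℕ} (hk : k ≤ K) (hpos : ∀ l < k, 0 < ζ l) {l : ℕ} (hl : l < k) :
    |Om θ T a ψ ζ q r l| ≤ 28 * G^13 * η := by
  have hG := h.G1
  have hη := h.η0
  have key : ∀ l, l < k → |Om θ T a ψ ζ q r l| ≤ (l+1) * (28 * G^12 * η) := by
    intro l
    induction l with
    | zero =>
      intro hl
      have h1 := uu_succ h hs hθ hk hpos hl
      have h2 : ww T a ζ q 0 = 0 := by simp [ww, Xv]
      have h3 : uu a ζ q r 0 = 0 := by simp [uu, Xv]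
      rw [h2, h3, sub_zero, mul_zero, add_zero] at h1
      rw [Om, h2, hs.ζ0, mul_zero, sub_zero, mul_one, abs_mul, abs_of_pos hθ]
      have h4 : G^6 ≤ G^12 := pow_le_pow_right₀ hG (by norm_num)
      simp only [Nat.cast_zero, zero_add, one_mul]
      calc θ * |uu a ζ q r 1| ≤ 1 * (4 * G^6 * η) := by gcongr
        _ ≤ 28 * G^12 * η := by
          have : G^6 * η ≤ G^12 * η := by gcongr
          have h0 : 0 ≤ G^12 * η := by positivity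
          linarith
    | succ l ih =>
      intro hl
      have i1 := ih (by omega)
      have h1 := uu_succ h hs hθ hk hpos hl
      have h2 := ww_succ h hs hθ hθ1 hk hpos (show l < k by omega)
      have hm := h.rpos (show l + 1 ≤ K by omega)
      set ν := uu a ζ q r (l+1+1) - uu a ζ q r (l+1) + a (l+1) * ww T a ζ q (l+1) with hν
      set ν' := ww T a ζ q (l+1) - ww T a ζ q l - θ * uu a ζ q r (l+1) / ‖r (l+1)‖^2 with hν'
      have e1 : Om θ T a ψ ζ q r (l+1) = Om θ T a ψ ζ q r l - ψ (l+1) * ν' +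
          θ * ζ (l+1) * ν := by
        rw [Om, Om, hν, hν', hs.hψ (l+1), hs.hζ l]
        field_simp
        ring
      rw [e1]
      have hz := hpos (l+1) (by omega)
      have hz1 := zeta_le h hs hθ hk hpos (l+1) (by omega)
      have hp := psi_ge h hs hθ hθ1 hk hpos (l+1) (by omega)
      have t1 : |ψ (l+1) * ν'| ≤ 20 * G^12 * η := by
        rw [abs_mul]
        calc |ψ (l+1)| * |ν'| ≤ (2 * G^5) * (10 * G^7 * η) := by gcongr
          _ = _ := by ring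
      have t2 : |θ * ζ (l+1) * ν| ≤ 8 * G^12 * η := by
        rw [abs_mul, abs_of_pos (by positivity : 0 < θ * ζ (l+1))]
        calc θ * ζ (l+1) * |ν| ≤ 1 * (2 * G^3) * (4 * G^6 * η) := by gcongr
          _ = 8 * (G^9 * η) := by ring
          _ ≤ 8 * (G^12 * η) := by
            have : G^9 ≤ G^12 := pow_le_pow_right₀ hG (by norm_num)
            gcongr
          _ = _ := by ring
      have q1 := abs_add_le (Om θ T a ψ ζ q r l - ψ (l+1) * ν') (θ * ζ (l+1) * ν)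
      have q2 := abs_sub (Om θ T a ψ ζ q r l) (ψ (l+1) * ν')
      push_cast
      linarith
  refine (key l hl).trans ?_
  have hjG : (l:ℝ) + 1 ≤ G := by
    have : (l:ℝ) + 1 ≤ K := by exact_mod_cast (by omega : l + 1 ≤ K)
    exact this.trans h.KG
  calc ((l:ℝ) + 1) * (28 * G^12 * η) ≤ G * (28 * G^12 * η) := by gcongr
    _ = _ := by ring

end Pool.Agent.Helper643.CG
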