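import Mathlib
import Pool.Agent.Helper643.CGSharpB

namespace Pool.Agent.Helper643.CG

open scoped InnerProductSpace

variable {E : Type*} [NormedAddCommGroup E] [InnerProductSpace ℝ E]
variable {T : E →ₗ[ℝ] E} {G η : ℝ} {K : ℕ} {x r q : ℕ → E} {a : ℕ → ℝ}
variable {θ : ℝ} {ψ ζ : ℕ → ℝ}

lemma ww_step (h : Sharp T G η K x r q a) (hs : Scal θ r a ψ ζ) (hθ : 0 < θ) (hθ1 : θ ≤ 1)
    {k : ℕ} (hk : k ≤ K) (hpos : ∀ l < k, 0 < ζ l) {l : ℕ} (hl : l + 2 ≤ k) :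
    |ww T a ζ q (l+1)| ≤ ζ (l+1) / ζ l * |ww T a ζ q l| + 66 * G^20 * η := by
  have hG := h.G1
  have hη := h.η0
  have h2 := ww_succ h hs hθ hθ1 hk hpos (show l < k by omega)
  have hO := Om_le h hs hθ hθ1 hk hpos (show l < k by omega)
  have hm := h.rpos (show l + 1 ≤ K by omega)
  have hmi := h.minv (show l + 1 ≤ K by omega)
  have hzl := hpos l (by omega)
  have hzl1 := hpos (l+1) (by omega)
  have hz := zeta_ge h hs hθ hk hpos hl
  set ν' := ww T a ζ q (l+1) - ww T a ζ q l - θ * uu a ζ q r (l+1) / ‖r (l+1)‖^2 with hν'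
  have e1 : ww T a ζ q (l+1) = ζ (l+1) / ζ l * ww T a ζ q l +
      (‖r (l+1)‖^2)⁻¹ * (ζ l)⁻¹ * Om θ T a ψ ζ q r l + ν' := by
    rw [hν', Om, hs.hζ l]
    field_simp
    ring
  have hzi : (ζ l)⁻¹ ≤ 2 * G^5 := by
    rw [inv_le_iff_one_le_mul₀ hzl]; exact hz
  have t1 : |ζ (l+1) / ζ l * ww T a ζ q l| = ζ (l+1) / ζ l * |ww T a ζ q l| := by
    rw [abs_mul, abs_of_pos (by positivity : 0 < ζ (l+1) / ζ l)]
  have t2 : |(‖r (l+1)‖^2)⁻¹ * (ζ l)⁻¹ * Om θ T a ψ ζ q r l| ≤ 56 * G^20 * η := by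
    rw [abs_mul, abs_of_pos (by positivity : 0 < (‖r (l+1)‖^2)⁻¹ * (ζ l)⁻¹)]
    calc (‖r (l+1)‖^2)⁻¹ * (ζ l)⁻¹ * |Om θ T a ψ ζ q r l| ≤ G^2 * (2 * G^5) * (28 * G^13 * η) := by
          gcongr
      _ = _ := by ring
  have t3 : 10 * G^7 * η ≤ 10 * G^20 * η := by
    have : G^7 ≤ G^20 := pow_le_pow_right₀ hG (by norm_num)
    gcongr
  have q1 := abs_add_le (ζ (l+1) / ζ l * ww T a ζ q l +
      (‖r (l+1)‖^2)⁻¹ * (ζ l)⁻¹ * Om θ T a ψ ζ q r l) ν'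
  have q2 := abs_add_le (ζ (l+1) / ζ l * ww T a ζ q l)
      ((‖r (l+1)‖^2)⁻¹ * (ζ l)⁻¹ * Om θ T a ψ ζ q r l)
  rw [← e1] at q1
  linarith

lemma ww_bound (h : Sharp T G η K x r q a) (hs : Scal θ r a ψ ζ) (hθ : 0 < θ) (hθ1 : θ ≤ 1)
    {k : ℕ} (hk : k ≤ K) (hpos : ∀ l < k, 0 < ζ l) {l : ℕ} (hl : l < k) :
    |ww T a ζ q l| ≤ 330 * G^29 * η := by
  have hG := h.G1
  have hη := h.η0
  have hw0 : ww T a ζ q 0 = 0 := by simp [ww, Xv]
  have hlG : ∀ l < k, (l:ℝ) ≤ G := by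
    intro l hl
    have : (l:ℝ) ≤ K := by exact_mod_cast (by omega : l ≤ K)
    exact this.trans h.KG
  have key : ∀ l, l + 2 ≤ k → |ww T a ζ q l| ≤ ζ l * (l * (132 * G^25 * η)) := by
    intro l
    induction l with
    | zero => intro _; rw [hw0]; simp
    | succ l ih =>
      intro hl
      have i1 := ih (by omega)
      have h1 := ww_step h hs hθ hθ1 hk hpos (show l + 2 ≤ k by omega)
      have hz := zeta_ge h hs hθ hk hpos hl
      have hzl := hpos l (by omega)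
      have hzl1 := hpos (l+1) (by omega)
      have h2 : ζ (l+1) / ζ l * |ww T a ζ q l| ≤ ζ (l+1) * (l * (132 * G^25 * η)) := by
        calc ζ (l+1) / ζ l * |ww T a ζ q l| ≤ ζ (l+1) / ζ l * (ζ l * (l * (132 * G^25 * η))) := by
              gcongr
          _ = _ := by field_simp
      have h3 : 66 * G^20 * η ≤ ζ (l+1) * (132 * G^25 * η) := by
        calc 66 * G^20 * η = 66 * G^20 * η * 1 := by ring
          _ ≤ 66 * G^20 * η * (2 * G^5 * ζ (l+1)) := by gcongr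
          _ = _ := by ring
      push_cast
      linarith
  have h29 : G^20 * η ≤ G^29 * η := by
    have : G^20 ≤ G^29 := pow_le_pow_right₀ hG (by norm_num)
    gcongr
  have h29' : 0 ≤ G^29 * η := by positivity
  have key2 : ∀ l, l + 2 ≤ k → ∀ z, 0 ≤ z → z ≤ 2 * G^3 → z * (l * (132 * G^25 * η)) ≤ 264 * G^29 * η := by
    intro l hl z hz0 hz
    have := hlG l (by omega)
    calc z * (l * (132 * G^25 * η)) ≤ (2 * G^3) * (G * (132 * G^25 * η)) := by gcongr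
      _ = _ := by ring
  rcases Nat.lt_or_ge (l+1) k with h1 | h1
  · have h2 := key l (by omega)
    have h3 := key2 l (by omega) (ζ l) (hpos l hl).le (zeta_le h hs hθ hk hpos l (by omega))
    linarith
  · have hlk : l + 1 = k := by omega
    rcases Nat.eq_zero_or_pos l with h0 | h0
    · rw [h0, hw0, abs_zero]; linarith
    · obtain ⟨j, rfl⟩ : ∃ j, l = j + 1 := ⟨l - 1, by omega⟩
      have h2 := ww_step h hs hθ hθ1 hk hpos (show j + 2 ≤ k by omega)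
      have h3 := key j (by omega)
      have hzl := hpos j (by omega)
      have hzl1 := hpos (j+1) (by omega)
      have h4 : ζ (j+1) / ζ j * |ww T a ζ q j| ≤ ζ (j+1) * (j * (132 * G^25 * η)) := by
        calc ζ (j+1) / ζ j * |ww T a ζ q j| ≤ ζ (j+1) / ζ j * (ζ j * (j * (132 * G^25 * η))) := by
              gcongr
          _ = _ := by field_simp
      have h5 := key2 j (by omega) (ζ (j+1)) hzl1.le (zeta_le h hs hθ hk hpos (j+1) (by omega))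
      linarith

/-- the mass -/
def Ma (a ζ : ℕ → ℝ) (j : ℕ) : ℝ := ∑ i ∈ Finset.range j, a i * ζ i^2

lemma energy_est (h : Sharp T G η K x r q a) (hs : Scal θ r a ψ ζ) (hθ : 0 < θ) (hθ1 : θ ≤ 1)
    {k : ℕ} (hk : k ≤ K) (hpos : ∀ l < k, 0 < ζ l) {j : ℕ} (hj : j ≤ k) :
    |⟪Xv a ζ q j, T (Xv a ζ q j)⟫_ℝ - Ma a ζ j| ≤ 1324 * G^34 * η := by
  have hG := h.G1
  have hη := h.η0
  have key : ∀ j, j ≤ k → |⟪Xv a ζ q j, T (Xv a ζ q j)⟫_ℝ - Ma a ζ j| ≤ j * (1324 * G^33 * η) := by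
    intro j
    induction j with
    | zero => intro _; simp [Xv, Ma]
    | succ j ih =>
      intro hj
      have i1 := ih (by omega)
      have hz := hpos j (by omega)
      have hz1 := zeta_le h hs hθ hk hpos j (by omega)
      have ha := h.apos (show j < K by omega)
      have ha1 := h.ahi j (by omega)
      have hw := ww_bound h hs hθ hθ1 hk hpos (show j < k by omega)
      have hl1 := h.l1 j (by omega)
      have e1 : ⟪Xv a ζ q (j+1), T (Xv a ζ q (j+1))⟫_ℝ - Ma a ζ (j+1) =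
          (⟪Xv a ζ q j, T (Xv a ζ q j)⟫_ℝ - Ma a ζ j) + 2 * (a j * ζ j) * ww T a ζ q j +
          a j * ζ j^2 * (a j * ⟪q j, T (q j)⟫_ℝ - 1) := by
        have e2 : ⟪q j, T (Xv a ζ q j)⟫_ℝ = ww T a ζ q j := by
          rw [ww, ← h.sym, real_inner_comm]
        rw [Ma, Finset.sum_range_succ, ← Ma, Xv_succ, map_add, map_smul, inner_add_left,
          inner_add_right, inner_add_right, real_inner_smul_left, real_inner_smul_right,
          real_inner_smul_left, real_inner_smul_right, e2, ← ww]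
        ring
      rw [e1]
      have t1 : |2 * (a j * ζ j) * ww T a ζ q j| ≤ 1320 * G^33 * η := by
        rw [abs_mul, abs_of_pos (by positivity : 0 < 2 * (a j * ζ j))]
        calc 2 * (a j * ζ j) * |ww T a ζ q j| ≤ 2 * (G * (2 * G^3)) * (330 * G^29 * η) := by gcongr
          _ = _ := by ring
      have t2 : |a j * ζ j^2 * (a j * ⟪q j, T (q j)⟫_ℝ - 1)| ≤ 4 * G^33 * η := by
        rw [abs_mul, abs_of_pos (by positivity : 0 < a j * ζ j^2)]
        calc a j * ζ j^2 * |a j * ⟪q j, T (q j)⟫_ℝ - 1| ≤ G * (2 * G^3)^2 * η := by gcongr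
          _ = 4 * (G^7 * η) := by ring
          _ ≤ 4 * (G^33 * η) := by
            have : G^7 ≤ G^33 := pow_le_pow_right₀ hG (by norm_num)
            gcongr
          _ = _ := by ring
      have q1 := abs_add_le ((⟪Xv a ζ q j, T (Xv a ζ q j)⟫_ℝ - Ma a ζ j) +
        2 * (a j * ζ j) * ww T a ζ q j) (a j * ζ j^2 * (a j * ⟪q j, T (q j)⟫_ℝ - 1))
      have q2 := abs_add_le (⟪Xv a ζ q j, T (Xv a ζ q j)⟫_ℝ - Ma a ζ j)
        (2 * (a j * ζ j) * ww T a ζ q j)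
      push_cast
      linarith
  refine (key j hj).trans ?_
  have hjG : (j:ℝ) ≤ G := by
    have : (j:ℝ) ≤ K := by exact_mod_cast (by omega : j ≤ K)
    exact this.trans h.KG
  calc (j:ℝ) * (1324 * G^33 * η) ≤ G * (1324 * G^33 * η) := by gcongr
    _ = _ := by ring

/-- Rayleigh quotient estimate at a crossing. -/
lemma TX_sq (h : Sharp T G η K x r q a) (hs : Scal θ r a ψ ζ) (hθ : 0 < θ) (hθ1 : θ ≤ 1)
    {k : ℕ} (hk : k + 1 ≤ K) (hpos : ∀ l < k + 1, 0 < ζ l) (hcross : ζ (k+1) ≤ 0) :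
    ‖T (Xv a ζ q (k+1))‖^2 ≤ θ * ⟪Xv a ζ q (k+1), T (Xv a ζ q (k+1))⟫_ℝ + 60 * G^13 * η := by
  have hG := h.G1
  have hη := h.η0
  set X := Xv a ζ q (k+1) with hX
  have hm := h.rpos (show k + 1 ≤ K by omega)
  have hO := Om_le h hs hθ hθ1 hk hpos (show k < k + 1 by omega)
  have hE := Er_norm h hs hθ hθ1 hk hpos (show k + 1 ≤ k + 1 by omega)
  have hX1 := Xv_norm h hs hθ hk hpos (show k + 1 ≤ k + 1 by omega)
  rw [← hX] at hX1
  have hz := hpos k (by omega)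
  have hz1 := zeta_le h hs hθ hk hpos k (by omega)
  have hp := psi_ge h hs hθ hθ1 hk hpos (k+1) (by omega)
  have hl1 := h.l1 k (by omega)
  have hl2 := h.l2 k (by omega)
  have hr := h.rhi (k+1) (by omega)
  set Ek := Er T θ a ψ ζ q r k with hEk
  have e1 : T X = θ • X + ψ (k+1) • q k - ζ k • r (k+1) + Ek := by
    rw [hEk, Er, ← hX]; abel
  have e2 : ‖T X‖^2 = θ * ⟪X, T X⟫_ℝ + ψ (k+1) * ⟪q k, T X⟫_ℝ - ζ k * ⟪r (k+1), T X⟫_ℝ +
      ⟪Ek, T X⟫_ℝ := by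
    have e0 : ⟪T X, T X⟫_ℝ = ⟪θ • X + ψ (k+1) • q k - ζ k • r (k+1) + Ek, T X⟫_ℝ :=
      congrArg (fun y => ⟪y, T X⟫_ℝ) e1
    rw [← real_inner_self_eq_norm_sq, e0, inner_add_left, inner_sub_left, inner_add_left,
      real_inner_smul_left, real_inner_smul_left, real_inner_smul_left]
  have e3 : ⟪q k, T X⟫_ℝ = ww T a ζ q k + ζ k + ζ k * (a k * ⟪q k, T (q k)⟫_ℝ - 1) := by
    rw [← h.sym, real_inner_comm, hX, Xv_succ, inner_add_left, real_inner_smul_left, ← ww]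
    ring
  have e4 : ⟪r (k+1), T X⟫_ℝ = θ * uu a ζ q r (k+1) + ψ (k+1) * ⟪q k, r (k+1)⟫_ℝ
      - ζ k * ‖r (k+1)‖^2 + ⟪Ek, r (k+1)⟫_ℝ := by
    rw [real_inner_comm, e1, inner_add_left, inner_sub_left, inner_add_left, real_inner_smul_left,
      real_inner_smul_left, real_inner_smul_left, real_inner_self_eq_norm_sq, uu, ← hX]
  have e5 : ‖T X‖^2 = θ * ⟪X, T X⟫_ℝ - Om θ T a ψ ζ q r k + ‖r (k+1)‖^2 * (ζ k * ζ (k+1)) +
      ψ (k+1) * ζ k * (a k * ⟪q k, T (q k)⟫_ℝ - 1) - ζ k * ψ (k+1) * ⟪q k, r (k+1)⟫_ℝ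
      - ζ k * ⟪Ek, r (k+1)⟫_ℝ + ⟪Ek, T X⟫_ℝ := by
    rw [e2, e3, e4, Om, hs.hζ k]
    field_simp
    ring
  have t1 : |ψ (k+1) * ζ k * (a k * ⟪q k, T (q k)⟫_ℝ - 1)| ≤ 4 * G^8 * η := by
    rw [abs_mul, abs_mul, abs_of_pos hz]
    calc |ψ (k+1)| * ζ k * |a k * ⟪q k, T (q k)⟫_ℝ - 1| ≤ 2 * G^5 * (2 * G^3) * η := by gcongr
      _ = _ := by ring
  have t2 : |ζ k * ψ (k+1) * ⟪q k, r (k+1)⟫_ℝ| ≤ 4 * G^8 * η := by
    rw [abs_mul, abs_mul, abs_of_pos hz]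
    calc ζ k * |ψ (k+1)| * |⟪q k, r (k+1)⟫_ℝ| ≤ (2 * G^3) * (2 * G^5) * η := by gcongr
      _ = _ := by ring
  have t3 : |ζ k * ⟪Ek, r (k+1)⟫_ℝ| ≤ 8 * G^10 * η := by
    rw [abs_mul, abs_of_pos hz]
    calc ζ k * |⟪Ek, r (k+1)⟫_ℝ| ≤ ζ k * (‖Ek‖ * ‖r (k+1)‖) := by
          gcongr; exact abs_real_inner_le_norm _ _
      _ ≤ (2 * G^3) * ((4 * G^6 * η) * G) := by gcongr
      _ = _ := by ring
  have t4 : |⟪Ek, T X⟫_ℝ| ≤ 8 * G^12 * η := by
    refine (abs_real_inner_le_norm _ _).trans ?_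
    have := (h.one X).trans hX1
    calc ‖Ek‖ * ‖T X‖ ≤ (4 * G^6 * η) * (2 * G^6) := by gcongr
      _ = _ := by ring
  have t5 : ‖r (k+1)‖^2 * (ζ k * ζ (k+1)) ≤ 0 := by
    apply mul_nonpos_of_nonneg_of_nonpos (by positivity)
    exact mul_nonpos_of_nonneg_of_nonpos hz.le hcross
  have p1 : G^8 * η ≤ G^13 * η := by
    have : G^8 ≤ G^13 := pow_le_pow_right₀ hG (by norm_num)
    gcongr
  have p2 : G^10 * η ≤ G^13 * η := by
    have : G^10 ≤ G^13 := pow_le_pow_right₀ hG (by norm_num)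
    gcongr
  have p3 : G^12 * η ≤ G^13 * η := by
    have : G^12 ≤ G^13 := pow_le_pow_right₀ hG (by norm_num)
    gcongr
  have p4 : 0 ≤ G^13 * η := by positivity
  have s1 := (abs_le.1 hO).1
  have s2 := (abs_le.1 t1).2
  have s3 := (abs_le.1 t2).1
  have s4 := (abs_le.1 t3).1
  have s5 := (abs_le.1 t4).2
  rw [e5]
  linarith

/-- The form at a crossing. -/
lemma form_le (h : Sharp T G η K x r q a) (hs : Scal θ r a ψ ζ)
    {k : ℕ} (hk : k + 1 ≤ K) (hpos : ∀ l < k + 1, 0 < ζ l) (hcross : ζ (k+1) ≤ 0) :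
    ∑ l ∈ Finset.range k, (|ζ (l+1) - ζ l| * ‖r (l+1)‖)^2 + (ζ k * ‖r (k+1)‖)^2 ≤
      θ * Ma a ζ (k+1) := by
  have key : ∀ j, j ≤ k → ∑ l ∈ Finset.range j, (|ζ (l+1) - ζ l| * ‖r (l+1)‖)^2 =
      ψ j * ζ j - 1 + θ * Ma a ζ j := by
    intro j
    induction j with
    | zero => intro _; simp [Ma, hs.ψ0, hs.ζ0]
    | succ j ih =>
      intro hj
      have i1 := ih (by omega)
      have hm := h.rpos (show j + 1 ≤ K by omega)
      rw [Finset.sum_range_succ, i1, Ma, Ma, Finset.sum_range_succ, mul_pow, sq_abs, hs.hζ j]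
      have e2 : ζ j + ψ (j+1) / ‖r (j+1)‖^2 - ζ j = ψ (j+1) / ‖r (j+1)‖^2 := by ring
      rw [e2, hs.hψ j]
      field_simp
      ring
  have hm := h.rpos hk
  rw [key k le_rfl, Ma, Ma, Finset.sum_range_succ]
  have hz := hpos k (by omega)
  have e1 : ζ (k+1) * ‖r (k+1)‖^2 = ζ k * ‖r (k+1)‖^2 + (ψ k - θ * a k * ζ k) := by
    rw [hs.hζ, hs.hψ]; field_simp
  have e2 : ζ k * (ζ (k+1) * ‖r (k+1)‖^2) ≤ 0 := by
    apply mul_nonpos_of_nonneg_of_nonpos hz.le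
    exact mul_nonpos_of_nonpos_of_nonneg hcross (by positivity)
  rw [e1] at e2
  nlinarith

/-- The norm of the test vector. -/
lemma X_le (h : Sharp T G η K x r q a) (hs : Scal θ r a ψ ζ) (hθ : 0 < θ)
    {k : ℕ} (hk : k + 1 ≤ K) (hpos : ∀ l < k + 1, 0 < ζ l) (hcross : ζ (k+1) ≤ 0)
    {D : ℝ} (hD : 0 ≤ D) (hx : ∀ l ≤ K, ‖x l‖ ≤ D * ‖r l‖) :
    ‖Xv a ζ q (k+1)‖ ≤ D * √((k+1) * (θ * Ma a ζ (k+1))) + 2 * G^4 * η := by
  have hG := h.G1
  have hη := h.η0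
  have key : ∀ j, j ≤ k → ‖Xv a ζ q (j+1) - ζ j • x (j+1) +
      ∑ l ∈ Finset.range j, (ζ (l+1) - ζ l) • x (l+1)‖ ≤ (j+1) * (2 * G^3 * η) := by
    intro j
    induction j with
    | zero =>
      intro _
      have h1 := h.e1 0 (by omega)
      have e1 : Xv a ζ q 1 - ζ 0 • x 1 + ∑ l ∈ Finset.range 0, (ζ (l+1) - ζ l) • x (l+1) =
          -(x (0+1) - x 0 - a 0 • q 0) := by
        rw [h.x0, hs.ζ0]
        simp [Xv, hs.ζ0]
      rw [e1, norm_neg]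
      have h2 : (1:ℝ) ≤ G^3 := one_le_pow₀ hG
      simp only [Nat.cast_zero, zero_add, one_mul]
      nlinarith
    | succ j ih =>
      intro hj
      have i1 := ih (by omega)
      have h1 := h.e1 (j+1) (by omega)
      have hz := hpos (j+1) (by omega)
      have hz1 := zeta_le h hs hθ hk hpos (j+1) (by omega)
      have e1 : Xv a ζ q (j+1+1) - ζ (j+1) • x (j+1+1) +
          ∑ l ∈ Finset.range (j+1), (ζ (l+1) - ζ l) • x (l+1) =
          (Xv a ζ q (j+1) - ζ j • x (j+1) + ∑ l ∈ Finset.range j, (ζ (l+1) - ζ l) • x (l+1)) -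
          ζ (j+1) • (x (j+1+1) - x (j+1) - a (j+1) • q (j+1)) := by
        rw [Finset.sum_range_succ, Xv_succ a ζ q (j+1)]
        module
      rw [e1]
      refine (norm_sub_le _ _).trans ?_
      have n2 : ‖ζ (j+1) • (x (j+1+1) - x (j+1) - a (j+1) • q (j+1))‖ ≤ 2 * G^3 * η := by
        rw [norm_smul, Real.norm_eq_abs, abs_of_pos hz]
        gcongr
      push_cast
      linarith
  have h1 := key k le_rfl
  have hkG : (k:ℝ) + 1 ≤ G := by
    have : (k:ℝ) + 1 ≤ K := by exact_mod_cast hk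
    exact this.trans h.KG
  have h2 : ((k:ℝ) + 1) * (2 * G^3 * η) ≤ 2 * G^4 * η := by
    calc ((k:ℝ) + 1) * (2 * G^3 * η) ≤ G * (2 * G^3 * η) := by gcongr
      _ = _ := by ring
  have hz := hpos k (by omega)
  -- triangle inequality
  have h3 : ‖Xv a ζ q (k+1)‖ ≤ (ζ k * ‖x (k+1)‖ +
      ∑ l ∈ Finset.range k, |ζ (l+1) - ζ l| * ‖x (l+1)‖) + 2 * G^4 * η := by
    have e1 : Xv a ζ q (k+1) = (Xv a ζ q (k+1) - ζ k • x (k+1) +
      ∑ l ∈ Finset.range k, (ζ (l+1) - ζ l) • x (l+1)) + ζ k • x (k+1) -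
      ∑ l ∈ Finset.range k, (ζ (l+1) - ζ l) • x (l+1) := by abel
    have n1 : ‖∑ l ∈ Finset.range k, (ζ (l+1) - ζ l) • x (l+1)‖ ≤
        ∑ l ∈ Finset.range k, |ζ (l+1) - ζ l| * ‖x (l+1)‖ := by
      refine (norm_sum_le _ _).trans (le_of_eq ?_)
      exact Finset.sum_congr rfl fun l _ => by rw [norm_smul, Real.norm_eq_abs]
    have n2 : ‖ζ k • x (k+1)‖ = ζ k * ‖x (k+1)‖ := by
      rw [norm_smul, Real.norm_eq_abs, abs_of_pos hz]
    rw [e1]
    refine (norm_sub_le _ _).trans ?_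
    have n3 := norm_add_le (Xv a ζ q (k+1) - ζ k • x (k+1) +
      ∑ l ∈ Finset.range k, (ζ (l+1) - ζ l) • x (l+1)) (ζ k • x (k+1))
    linarith
  have h4 : ζ k * ‖x (k+1)‖ + ∑ l ∈ Finset.range k, |ζ (l+1) - ζ l| * ‖x (l+1)‖ ≤
      D * (ζ k * ‖r (k+1)‖ + ∑ l ∈ Finset.range k, |ζ (l+1) - ζ l| * ‖r (l+1)‖) := by
    rw [mul_add, Finset.mul_sum]
    apply add_le_add
    · calc ζ k * ‖x (k+1)‖ ≤ ζ k * (D * ‖r (k+1)‖) := by gcongr; exact hx _ hk
        _ = _ := by ring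
    · apply Finset.sum_le_sum
      intro l hl
      rw [Finset.mem_range] at hl
      calc |ζ (l+1) - ζ l| * ‖x (l+1)‖ ≤ |ζ (l+1) - ζ l| * (D * ‖r (l+1)‖) := by
            gcongr; exact hx _ (by omega)
        _ = _ := by ring
  have h5 : ζ k * ‖r (k+1)‖ + ∑ l ∈ Finset.range k, |ζ (l+1) - ζ l| * ‖r (l+1)‖ ≤
      √((k+1) * (θ * Ma a ζ (k+1))) := by
    apply Real.le_sqrt_of_sq_le
    have hf := form_le h hs hk hpos hcross
    set f : ℕ → ℝ := fun l => if l < k then |ζ (l+1) - ζ l| * ‖r (l+1)‖ else ζ k * ‖r (k+1)‖ with hfdef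
    have e1 : ∑ l ∈ Finset.range (k+1), f l =
        ζ k * ‖r (k+1)‖ + ∑ l ∈ Finset.range k, |ζ (l+1) - ζ l| * ‖r (l+1)‖ := by
      rw [Finset.sum_range_succ, add_comm]
      congr 1
      · simp [hfdef]
      · apply Finset.sum_congr rfl
        intro l hl
        rw [Finset.mem_range] at hl
        simp [hfdef, hl]
    have e2 : ∑ l ∈ Finset.range (k+1), f l^2 =
        ∑ l ∈ Finset.range k, (|ζ (l+1) - ζ l| * ‖r (l+1)‖)^2 + (ζ k * ‖r (k+1)‖)^2 := by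
      rw [Finset.sum_range_succ]
      congr 1
      · apply Finset.sum_congr rfl
        intro l hl
        rw [Finset.mem_range] at hl
        simp [hfdef, hl]
      · simp [hfdef]
    rw [← e1]
    refine (sq_sum_le_card_mul_sum_sq).trans ?_
    rw [e2, Finset.card_range]
    push_cast
    gcongr
  calc ‖Xv a ζ q (k+1)‖ ≤ _ := h3
    _ ≤ D * √((k+1) * (θ * Ma a ζ (k+1))) + 2 * G^4 * η := by
      have : D * (ζ k * ‖r (k+1)‖ + ∑ l ∈ Finset.range k, |ζ (l+1) - ζ l| * ‖r (l+1)‖) ≤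
        D * √((k+1) * (θ * Ma a ζ (k+1))) := by gcongr
      linarith

end Pool.Agent.Helper643.CG
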