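import Mathlib
import Pool.Agent.Helper643.CGSharpC

namespace Pool.Agent.Helper643.CG

open scoped InnerProductSpace

variable {E : Type*} [NormedAddCommGroup E] [InnerProductSpace ℝ E]
variable {T : E →ₗ[ℝ] E} {G η : ℝ} {K : ℕ} {x r q : ℕ → E} {a : ℕ → ℝ}
variable {θ : ℝ} {ψ ζ : ℕ → ℝ}

/-- Facts at a crossing. -/
lemma cross_facts (h : Sharp T G η K x r q a) (hs : Scal θ r a ψ ζ) (hθ : 0 < θ) (hθ1 : θ ≤ 1)
    (hsm : 10^6 * (G^40 * η) ≤ 1)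
    {k : ℕ} (hk : k + 1 ≤ K) (hpos : ∀ l < k + 1, 0 < ζ l) (hcross : ζ (k+1) ≤ 0) :
    0.44 ≤ ⟪Xv a ζ q (k+1), T (Xv a ζ q (k+1))⟫_ℝ ∧
    Ma a ζ (k+1) ≤ 1.03 * ⟪Xv a ζ q (k+1), T (Xv a ζ q (k+1))⟫_ℝ ∧
    ‖T (Xv a ζ q (k+1))‖^2 ≤ θ * ⟪Xv a ζ q (k+1), T (Xv a ζ q (k+1))⟫_ℝ + 60 * (G^13 * η) := by
  have hG := h.G1
  have hη := h.η0
  have h1 := energy_est h hs hθ hθ1 hk hpos le_rfl
  have h2 := TX_sq h hs hθ hθ1 hk hpos hcross
  have h34 : G^34 * η ≤ G^40 * η := by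
    have : G^34 ≤ G^40 := pow_le_pow_right₀ hG (by norm_num)
    gcongr
  have hM : 0.45 ≤ Ma a ζ (k+1) := by
    have h3 : a 0 * ζ 0^2 ≤ Ma a ζ (k+1) := by
      apply Finset.single_le_sum (f := fun i => a i * ζ i^2) _ (Finset.mem_range.2 (by omega))
      intro i hi
      rw [Finset.mem_range] at hi
      have := h.apos (show i < K by omega)
      positivity
    have h4 := h.alo 0 (by omega)
    rw [h.r01] at h4
    rw [hs.ζ0] at h3
    linarith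
  rw [abs_le] at h1
  refine ⟨by linarith [h1.1], by linarith [h1.1], by linarith⟩

theorem no_cross_kap (h : Sharp T G η K x r q a) (hs : Scal θ r a ψ ζ) (hθ : 0 < θ) (hθ1 : θ ≤ 1)
    (hsm : 10^6 * (G^40 * η) ≤ 1) {κ : ℝ} (hκ : 0 ≤ κ)
    (hlow : ∀ y, ‖y‖^2 ≤ κ * ⟪y, T y⟫_ℝ) (hκθ : 2 * (κ * θ) ≤ 1)
    (hκs : 1000 * (κ * (G^13 * η)) ≤ 1) :
    ∀ l ≤ K, 0 < ζ l := by
  by_contra hcon
  push Not at hcon
  classical
  have hfind := Nat.find_spec hcon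
  have hmin := fun m => Nat.find_min hcon (m := m)
  set l := Nat.find hcon with hl
  have hl0 : l ≠ 0 := by
    intro h0
    rw [h0, hs.ζ0] at hfind
    linarith [hfind.2]
  obtain ⟨k, hk⟩ : ∃ k, l = k + 1 := ⟨l - 1, by omega⟩
  rw [hk] at hfind hmin
  have hpos : ∀ m < k + 1, 0 < ζ m := by
    intro m hm
    by_contra hc
    exact hmin m hm ⟨by omega, not_lt.1 hc⟩
  obtain ⟨h1, h2, h3⟩ := cross_facts h hs hθ hθ1 hsm hfind.1 hpos hfind.2
  set X := Xv a ζ q (k+1)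
  set e := ⟪X, T X⟫_ℝ with he
  have h4 : e ≤ ‖X‖ * ‖T X‖ := real_inner_le_norm _ _
  have h5 : e^2 ≤ (κ * e) * ‖T X‖^2 := by
    calc e^2 ≤ (‖X‖ * ‖T X‖)^2 := by
          have : 0 ≤ e := by linarith
          gcongr
      _ = ‖X‖^2 * ‖T X‖^2 := by ring
      _ ≤ (κ * e) * ‖T X‖^2 := by
          have := hlow X
          gcongr
  have h6 : e ≤ κ * ‖T X‖^2 := by
    have he0 : 0 < e := by linarith
    have h7 : e * e ≤ e * (κ * ‖T X‖^2) := by nlinarith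
    exact le_of_mul_le_mul_left h7 he0
  have h7 : κ * ‖T X‖^2 ≤ κ * (θ * e + 60 * (G^13 * η)) := by gcongr
  have h8 : κ * θ * e ≤ 1/2 * e := by
    have he0 : 0 < e := by linarith
    gcongr
    linarith
  nlinarith

theorem no_cross_eps (h : Sharp T G η K x r q a) (hs : Scal θ r a ψ ζ) (hθ : 0 < θ) (hθ1 : θ ≤ 1)
    (hsm : 10^6 * (G^40 * η) ≤ 1) {D : ℝ} (hD : 0 ≤ D) (hDG : D ≤ 2 * G)
    (hx : ∀ l ≤ K, ‖x l‖ ≤ D * ‖r l‖) (hDθ : 4 * (D^2 * K * θ^2) ≤ 1) :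
    ∀ l ≤ K, 0 < ζ l := by
  by_contra hcon
  push Not at hcon
  classical
  have hfind := Nat.find_spec hcon
  have hmin := fun m => Nat.find_min hcon (m := m)
  set l := Nat.find hcon with hl
  have hl0 : l ≠ 0 := by
    intro h0
    rw [h0, hs.ζ0] at hfind
    linarith [hfind.2]
  obtain ⟨k, hk⟩ : ∃ k, l = k + 1 := ⟨l - 1, by omega⟩
  rw [hk] at hfind hmin
  have hpos : ∀ m < k + 1, 0 < ζ m := by
    intro m hm
    by_contra hc
    exact hmin m hm ⟨by omega, not_lt.1 hc⟩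
  obtain ⟨h1, h2, h3⟩ := cross_facts h hs hθ hθ1 hsm hfind.1 hpos hfind.2
  have h4 := X_le h hs hθ hfind.1 hpos hfind.2 hD hx
  have hG := h.G1
  have hη := h.η0
  have hKG := h.KG
  set M := Ma a ζ (k+1) with hM
  set X := Xv a ζ q (k+1)
  set e := ⟪X, T X⟫_ℝ with he
  have he0 : 0 < e := by linarith
  have hkK : (k:ℝ) + 1 ≤ K := by exact_mod_cast hfind.1
  have hk0 : (0:ℝ) ≤ k := Nat.cast_nonneg k
  have hM0 : 0 ≤ M := by
    rw [hM, Ma]
    apply Finset.sum_nonneg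
    intro i hi
    rw [Finset.mem_range] at hi
    have := h.apos (show i < K by omega)
    positivity
  set A := D * √((k+1) * (θ * M)) with hA
  have hA0 : 0 ≤ A := by positivity
  have hA2 : A^2 ≤ 1.03 * (D^2 * K * θ) * e := by
    rw [hA, mul_pow, Real.sq_sqrt (by positivity)]
    calc D^2 * (((k:ℝ)+1) * (θ * M)) ≤ D^2 * (K * (θ * (1.03 * e))) := by gcongr
      _ = _ := by ring
  set δ1 := 2 * G^4 * η with hδ1
  have hδ10 : 0 ≤ δ1 := by positivity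
  have hδ11 : δ1 ≤ 0.00001 := by
    have : G^4 * η ≤ G^40 * η := by
      have : G^4 ≤ G^40 := pow_le_pow_right₀ hG (by norm_num)
      gcongr
    rw [hδ1]; linarith
  have hX2 : ‖X‖^2 ≤ 1.1 * A^2 + 11 * δ1^2 := by
    have : ‖X‖^2 ≤ (A + δ1)^2 := by gcongr
    nlinarith [sq_nonneg (A - 10 * δ1)]
  have hδ2 : 60 * (G^13 * η) ≤ 0.0001 := by
    have : G^13 * η ≤ G^40 * η := by
      have : G^13 ≤ G^40 := pow_le_pow_right₀ hG (by norm_num)
      gcongr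
    linarith
  set δ2 := 60 * (G^13 * η) with hδ2def
  have hδ20 : 0 ≤ δ2 := by positivity
  have hDK : D^2 * K * δ2 ≤ 0.001 := by
    calc D^2 * K * δ2 ≤ (2 * G)^2 * G * (60 * (G^13 * η)) := by gcongr
      _ = 240 * (G^16 * η) := by ring
      _ ≤ 240 * (G^40 * η) := by
        have : G^16 ≤ G^40 := pow_le_pow_right₀ hG (by norm_num)
        gcongr
      _ ≤ 0.001 := by linarith
  have h5 : e^2 ≤ ‖X‖^2 * ‖T X‖^2 := by
    calc e^2 ≤ (‖X‖ * ‖T X‖)^2 := by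
          have : e ≤ ‖X‖ * ‖T X‖ := real_inner_le_norm _ _
          gcongr
      _ = _ := by ring
  have h6 : ‖X‖^2 * ‖T X‖^2 ≤ (1.1 * (1.03 * (D^2 * K * θ) * e) + 11 * δ1^2) * (θ * e + δ2) := by
    have : ‖X‖^2 ≤ 1.1 * (1.03 * (D^2 * K * θ) * e) + 11 * δ1^2 := by linarith
    gcongr
  have h7 : (1.1 * (1.03 * (D^2 * K * θ) * e) + 11 * δ1^2) * (θ * e + δ2) =
      1.133 * (D^2 * K * θ^2) * e^2 + 1.133 * (θ * (D^2 * K * δ2)) * e + 11 * δ1^2 * (θ * e + δ2) := by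
    ring
  have h8 : 1.133 * (D^2 * K * θ^2) * e^2 ≤ 0.284 * e^2 := by
    gcongr; linarith
  have h9 : 1.133 * (θ * (D^2 * K * δ2)) * e ≤ 0.0012 * e := by
    have : θ * (D^2 * K * δ2) ≤ 1 * 0.001 := by gcongr
    gcongr; linarith
  have h10 : 11 * δ1^2 * (θ * e + δ2) ≤ 0.0001 * (e + 1) := by
    have : δ1^2 ≤ 0.00001^2 := by gcongr
    have h11 : θ * e + δ2 ≤ 1 * e + 1 := by
      gcongr
      linarith
    calc 11 * δ1^2 * (θ * e + δ2) ≤ 11 * 0.00001^2 * (1 * e + 1) := by gcongr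
      _ ≤ _ := by nlinarith
  nlinarith

/-- If `ζ` stays positive then the run is short. -/
lemma riccati (h : Sharp T G η K x r q a) (hs : Scal θ r a ψ ζ) (hθ : 0 < θ)
    (hpos : ∀ l ≤ K, 0 < ζ l) {γ : ℝ} (hγ : γ^2 = 0.45 * θ) (hγ0 : 0 < γ) (hγ1 : γ ≤ 1/2)
    {l : ℕ} (hl : l + 1 ≤ K) (hl1 : 1 ≤ l) :
    ψ (l+1) / ζ l ≤ ψ l / ζ (l-1) - γ * |ψ l / ζ (l-1)| - γ^2/2 * ‖r l‖^2 := by
  obtain ⟨j, rfl⟩ : ∃ j, l = j + 1 := ⟨l - 1, by omega⟩
  simp only [Nat.add_sub_cancel]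
  have hz := hpos j (by omega)
  have hz1 := hpos (j+1) (by omega)
  have hm := h.rpos (show j + 1 ≤ K by omega)
  have ha := h.alo (j+1) (by omega)
  set m := ‖r (j+1)‖^2 with hmdef
  have hm0 : 0 < m := by positivity
  set s := ψ (j+1) / ζ j with hsdef
  have hψ : ψ (j+1) = s * ζ j := by rw [hsdef]; field_simp
  have hζ1 : ζ (j+1) = ζ j * (1 + s / m) := by
    rw [hs.hζ j, ← hmdef, hψ]; field_simp
  set t := s / m with ht
  have hst : s = t * m := by rw [ht]; field_simp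
  have ht1 : 0 < 1 + t := by
    rw [hζ1] at hz1
    exact (mul_pos_iff_of_pos_left hz).1 hz1
  have e1 : ψ (j+1+1) / ζ (j+1) = s / (1 + t) - θ * a (j+1) := by
    rw [hs.hψ (j+1), sub_div, hψ, hζ1]
    field_simp
  rw [e1]
  have h1 : θ * (0.45 * m) ≤ θ * a (j+1) := by gcongr
  have h2 : θ * (0.45 * m) = γ^2 * m := by rw [hγ]; ring
  -- t/(1+t) ≤ t - γ|t| + γ²/2
  have h3 : t / (1 + t) ≤ t - γ * |t| + γ^2/2 := by
    rw [div_le_iff₀ ht1]
    rcases le_or_gt 0 t with h4 | h4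
    · rw [abs_of_nonneg h4]
      rcases le_or_gt t 1 with h5 | h5
      · nlinarith [sq_nonneg (t - γ), mul_nonneg h4 (sub_nonneg.2 h5), mul_pos hγ0 ht1,
          mul_nonneg h4 h4, mul_nonneg (mul_nonneg h4 h4) hγ0.le]
      · have q1 : 0 ≤ (1 - γ) * t * (t - 1) :=
          mul_nonneg (mul_nonneg (by linarith) h4) (by linarith)
        have q2 : 0 ≤ (1 - 2 * γ) * t := mul_nonneg (by linarith) h4
        have q3 : 0 ≤ γ^2/2 * (1 + t) := by positivity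
        linarith
    · rw [abs_of_neg h4]
      have q1 : 0 ≤ (1 + t) * (t^2 + γ * t + γ^2/2) := by
        apply mul_nonneg ht1.le
        nlinarith [sq_nonneg (2 * t + γ), sq_nonneg γ]
      have q2 : 0 ≤ t^2 * (-t) := mul_nonneg (sq_nonneg t) (by linarith)
      linarith
  have h4 : s / (1 + t) = m * (t / (1 + t)) := by rw [hst]; ring
  have h5 : |s| = |t| * m := by rw [hst, abs_mul, abs_of_pos hm0]
  rw [h4, h5, hst]
  have h6 : m * (t / (1 + t)) ≤ m * (t - γ * |t| + γ^2/2) := by gcongr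
  nlinarith

end Pool.Agent.Helper643.CG
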