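import Mathlib
import Pool.Agent.Helper643.CGSharpD

namespace Pool.Agent.Helper643.CG

open scoped InnerProductSpace

variable {E : Type*} [NormedAddCommGroup E] [InnerProductSpace ℝ E]
variable {T : E →ₗ[ℝ] E} {G η : ℝ} {K : ℕ} {x r q : ℕ → E} {a : ℕ → ℝ}
variable {θ : ℝ} {ψ ζ : ℕ → ℝ}

/-- A real sequence with this recurrence cannot be long. -/
lemma seq_len {S : ℕ → ℝ} {γ β B : ℝ} {N : ℕ} (hγ0 : 0 < γ) (hγ1 : γ ≤ 1/2) (hβ : 0 < β)
    (hβ1 : β ≤ 1) (hB : 1 ≤ B) (h0 : S 0 ≤ 1) (hS : ∀ l < N, S (l+1) ≤ S l - γ * |S l| - β)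
    (hlow : ∀ l ≤ N, -B ≤ S l) : (N:ℝ) ≤ 4/γ * Real.log (4 * B / β) + 2 := by
  -- first phase
  have h1 : ∀ l ≤ N, 1 ≤ l → S l ≤ (1-γ)^l - β := by
    intro l
    induction l with
    | zero => intro _ h; omega
    | succ l ih =>
      intro hl _
      have hle : S l ≤ (1-γ)^l := by
        rcases Nat.eq_zero_or_pos l with h | h
        · rw [h, pow_zero]; exact h0
        · have := ih (by omega) h
          linarith
      have h2 := hS l (by omega)
      have hp : 0 ≤ (1-γ)^l := by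
        have : 0 ≤ 1 - γ := by linarith
        positivity
      rcases le_or_gt 0 (S l) with h3 | h3
      · rw [abs_of_nonneg h3] at h2
        have : (1-γ) * S l ≤ (1-γ) * (1-γ)^l := by
          have : 0 ≤ 1 - γ := by linarith
          gcongr
        rw [pow_succ]
        linarith
      · rw [abs_of_neg h3] at h2
        have h5 : 0 ≤ (1-γ)^(l+1) := by
          have : 0 ≤ 1 - γ := by linarith
          positivity
        nlinarith
  -- second phase
  have h2 : ∀ N1, S N1 ≤ -(β/2) → ∀ j, N1 + j ≤ N → S (N1 + j) ≤ -((1+γ)^j * (β/2)) := by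
    intro N1 hN1 j
    induction j with
    | zero => intro _; simpa using hN1
    | succ j ih =>
      intro hj
      have h3 := ih (by omega)
      have h4 := hS (N1 + j) (by omega)
      have hp : 0 < (1+γ)^j * (β/2) := by positivity
      rw [abs_of_neg (by linarith)] at h4
      rw [← add_assoc, pow_succ]
      nlinarith
  set L := Real.log (4 * B / β) with hL
  have hL0 : 0 < L := by
    apply Real.log_pos
    rw [lt_div_iff₀ hβ]
    linarith
  by_contra hcon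
  push Not at hcon
  set N1 := ⌈L/γ⌉₊ with hN1
  set N2 := ⌈2 * L/γ⌉₊ with hN2
  have hN1a : L/γ ≤ N1 := Nat.le_ceil _
  have hN1b : (N1:ℝ) < L/γ + 1 := Nat.ceil_lt_add_one (by positivity)
  have hN2a : 2 * L/γ ≤ N2 := Nat.le_ceil _
  have hN2b : (N2:ℝ) < 2 * L/γ + 1 := Nat.ceil_lt_add_one (by positivity)
  have hLγ : 0 < L/γ := by positivity
  have e1 : 2 * L/γ = 2 * (L/γ) := by ring
  have e2 : 4/γ * L = 4 * (L/γ) := by ring
  rw [e1] at hN2a hN2b
  rw [e2] at hcon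
  have hNN : N1 + N2 ≤ N := by
    have : (N1:ℝ) + N2 ≤ N := by linarith
    exact_mod_cast this
  have hN1pos : 1 ≤ N1 := Nat.ceil_pos.2 hLγ
  have hexpL : Real.exp (-L) = β / (4 * B) := by
    rw [Real.exp_neg, hL, Real.exp_log (by positivity)]
    field_simp
  have h3 : (1-γ)^N1 ≤ β/2 := by
    calc (1-γ)^N1 ≤ (Real.exp (-γ))^N1 := by
          have : 1 - γ ≤ Real.exp (-γ) := by have := Real.add_one_le_exp (-γ); linarith
          exact pow_le_pow_left₀ (by linarith) this _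
      _ = Real.exp (-(γ * N1)) := by rw [← Real.exp_nat_mul]; congr 1; ring
      _ ≤ Real.exp (-L) := by
          apply Real.exp_le_exp.2
          have : L ≤ γ * N1 := by
            rw [div_le_iff₀ hγ0] at hN1a; linarith
          linarith
      _ = β / (4 * B) := hexpL
      _ ≤ β / 2 := by
          apply div_le_div_of_nonneg_left hβ.le (by norm_num)
          linarith
  have h4 := h1 N1 (by omega) hN1pos
  have h5 := h2 N1 (by linarith) N2 hNN
  have h6 := hlow (N1 + N2) hNN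
  have h7 : 4 * B / β ≤ (1+γ)^N2 := by
    have h8 : Real.exp (γ/2) ≤ 1 + γ := by
      have h9 : Real.exp (γ/2) ≤ 1/(1 - γ/2) := by
        have h10 := Real.add_one_le_exp (-(γ/2))
        rw [Real.exp_neg] at h10
        rw [le_div_iff₀ (by linarith)]
        have h11 : 0 < Real.exp (γ/2) := Real.exp_pos _
        calc Real.exp (γ/2) * (1 - γ/2) ≤ Real.exp (γ/2) * (Real.exp (γ/2))⁻¹ := by
              gcongr; linarith
          _ = 1 := by field_simp
      refine h9.trans ?_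
      rw [div_le_iff₀ (by linarith)]
      nlinarith
    calc 4 * B / β = Real.exp L := by rw [hL, Real.exp_log (by positivity)]
      _ ≤ Real.exp (γ/2 * N2) := by
          apply Real.exp_le_exp.2
          have h9 : L/γ * γ = L := by field_simp
          have h10 : 2 * (L/γ) * γ ≤ N2 * γ := by gcongr
          linarith
      _ = (Real.exp (γ/2))^N2 := by rw [← Real.exp_nat_mul]; congr 1; ring
      _ ≤ (1+γ)^N2 := pow_le_pow_left₀ (Real.exp_pos _).le h8 _
  have h8 : 2 * B ≤ (1+γ)^N2 * (β/2) := by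
    rw [div_le_iff₀ hβ] at h7
    linarith
  linarith

/-- The number of steps is bounded if `ζ` does not cross zero. -/
theorem length_le (h : Sharp T G η K x r q a) (hs : Scal θ r a ψ ζ) (hθ : 0 < θ)
    (hpos : ∀ l ≤ K, 0 < ζ l) {γ : ℝ} (hγ : γ^2 = 0.45 * θ) (hγ0 : 0 < γ) (hγ1 : γ ≤ 1/2) :
    (K:ℝ) ≤ 4/γ * Real.log (8 * G^4 / γ^2) + 3 := by
  have hG := h.G1
  rcases Nat.eq_zero_or_pos K with hK | hK
  · rw [hK, Nat.cast_zero]
    have : 0 ≤ Real.log (8 * G^4 / γ^2) := by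
      apply Real.log_nonneg
      rw [le_div_iff₀ (by positivity)]
      have : (1:ℝ) ≤ G^4 := one_le_pow₀ hG
      nlinarith
    positivity
  obtain ⟨N, hN⟩ : ∃ N, K = N + 1 := ⟨K - 1, by omega⟩
  have key := seq_len (S := fun l => ψ (l+1) / ζ l) (γ := γ) (β := γ^2/2 * (G^2)⁻¹) (B := G^2)
    (N := N) hγ0 hγ1 (by positivity) ?_ (one_le_pow₀ hG) ?_ ?_ ?_
  · have e1 : 4 * G^2 / (γ^2/2 * (G^2)⁻¹) = 8 * G^4 / γ^2 := by
      field_simp; ring
    rw [e1] at key
    rw [hN]; push_cast; linarith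
  · have h1 : (G^2)⁻¹ ≤ 1 := inv_le_one_of_one_le₀ (one_le_pow₀ hG)
    have h2 : γ^2/2 ≤ 1 := by nlinarith
    have : 0 ≤ (G^2)⁻¹ := by positivity
    nlinarith
  · simp only [zero_add]
    rw [hs.hψ, hs.ψ0, hs.ζ0]
    have := h.apos (show 0 < K by omega)
    have : 0 < θ * a 0 := by positivity
    linarith
  · intro l hl
    have h1 := riccati h hs hθ hpos hγ hγ0 hγ1 (l := l+1) (by omega) (by omega)
    simp only [Nat.add_sub_cancel] at h1
    have h2 : (G^2)⁻¹ ≤ ‖r (l+1)‖^2 := by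
      have h3 := h.rlo (l+1) (by omega)
      rw [inv_le_iff_one_le_mul₀ (by positivity)]
      calc (1:ℝ) ≤ (G * ‖r (l+1)‖)^2 := one_le_pow₀ h3
        _ = _ := by ring
    have h3 : γ^2/2 * (G^2)⁻¹ ≤ γ^2/2 * ‖r (l+1)‖^2 := by gcongr
    linarith
  · intro l hl
    have h1 := hpos (l+1) (by omega)
    have h2 := hpos l (by omega)
    have hm := h.rpos (show l + 1 ≤ K by omega)
    have hm2 := h.rhi (l+1) (by omega)
    rw [hs.hζ] at h1
    rw [le_div_iff₀ h2]
    have h3 : 0 < (ζ l + ψ (l+1) / ‖r (l+1)‖^2) * ‖r (l+1)‖^2 := by positivity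
    have h4 : (ζ l + ψ (l+1) / ‖r (l+1)‖^2) * ‖r (l+1)‖^2 = ζ l * ‖r (l+1)‖^2 + ψ (l+1) := by
      field_simp
    have h5 : ζ l * ‖r (l+1)‖^2 ≤ ζ l * G^2 := by gcongr
    linarith

/-- Existence of the scalar sequences. -/
noncomputable def scal (θ : ℝ) (r : ℕ → E) (a : ℕ → ℝ) : ℕ → ℝ × ℝ
  | 0 => (1, 1)
  | (l+1) => ((scal θ r a l).1 - θ * a l * (scal θ r a l).2,
      (scal θ r a l).2 + ((scal θ r a l).1 - θ * a l * (scal θ r a l).2) / ‖r (l+1)‖^2)

lemma scal_spec (θ : ℝ) (r : ℕ → E) (a : ℕ → ℝ) :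
    Scal θ r a (fun l => (scal θ r a l).1) (fun l => (scal θ r a l).2) :=
  ⟨rfl, rfl, fun _ => rfl, fun _ => rfl⟩

/-- Condition number version. -/
theorem steps_kap (h : Sharp T G η K x r q a) (hsm : 10^6 * (G^40 * η) ≤ 1)
    {κ : ℝ} (hκ : 1 ≤ κ) (hlow : ∀ y, ‖y‖^2 ≤ κ * ⟪y, T y⟫_ℝ)
    (hκs : 1000 * (κ * (G^13 * η)) ≤ 1) :
    (K:ℝ) ≤ 12 * √κ * Real.log (40 * G^4 * κ) + 3 := by
  set θ : ℝ := 1/(2*κ) with hθ
  have hθ0 : 0 < θ := by positivity
  have hθ1 : θ ≤ 1/2 := by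
    apply one_div_le_one_div_of_le (by norm_num)
    linarith
  have hs := scal_spec θ r a
  have hpos := no_cross_kap h hs hθ0 (by linarith) hsm (by linarith) hlow
    (by rw [hθ]; field_simp; norm_num) hκs
  set γ := √(0.45 * θ) with hγ
  have hγ2 : γ^2 = 0.45 * θ := Real.sq_sqrt (by positivity)
  have hγ0 : 0 < γ := Real.sqrt_pos.2 (by positivity)
  have hγ1 : γ ≤ 1/2 := by
    rw [hγ, Real.sqrt_le_iff]
    constructor
    · norm_num
    · linarith
  have h1 := length_le h hs hθ0 hpos hγ2 hγ0 hγ1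
  have hG := h.G1
  have e1 : 8 * G^4 / γ^2 ≤ 40 * G^4 * κ := by
    rw [hγ2, hθ, div_le_iff₀ (by positivity)]
    have : 40 * G^4 * κ * (0.45 * (1/(2*κ))) = 9 * G^4 := by field_simp; norm_num
    rw [this]
    have : 0 < G^4 := by positivity
    linarith
  have hlog : Real.log (8 * G^4 / γ^2) ≤ Real.log (40 * G^4 * κ) :=
    Real.log_le_log (by positivity) e1
  have hlog0 : 0 ≤ Real.log (40 * G^4 * κ) := by
    apply Real.log_nonneg
    have : (1:ℝ) ≤ G^4 := one_le_pow₀ hG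
    nlinarith
  have e2 : 4/γ ≤ 12 * √κ := by
    rw [div_le_iff₀ hγ0]
    have h2 : (12 * √κ * γ)^2 = 144 * κ * (0.45 * θ) := by
      rw [mul_pow, mul_pow, Real.sq_sqrt (by linarith), hγ2]; norm_num
    have h3 : 144 * κ * (0.45 * θ) = 32.4 := by rw [hθ]; field_simp; norm_num
    have h4 : (4:ℝ)^2 ≤ (12 * √κ * γ)^2 := by rw [h2, h3]; norm_num
    exact (abs_le_of_sq_le_sq' h4 (by positivity)).2
  have hlog1 : 0 ≤ Real.log (8 * G^4 / γ^2) := by
    apply Real.log_nonneg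
    rw [le_div_iff₀ (by positivity)]
    have : (1:ℝ) ≤ G^4 := one_le_pow₀ hG
    nlinarith
  calc (K:ℝ) ≤ 4/γ * Real.log (8 * G^4 / γ^2) + 3 := h1
    _ ≤ 12 * √κ * Real.log (40 * G^4 * κ) + 3 := by gcongr

/-- Backward error version. -/
theorem steps_eps (h : Sharp T G η K x r q a) (hsm : 10^6 * (G^40 * η) ≤ 1)
    {D : ℝ} (hD : 1 ≤ D) (hDG : D ≤ 2 * G) (hx : ∀ l ≤ K, ‖x l‖ ≤ D * ‖r l‖) :
    (K:ℝ) ≤ 12 * √(D * √K) * Real.log (40 * G^4 * (D * √K)) + 3 := by
  have hG := h.G1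
  rcases Nat.eq_zero_or_pos K with hK | hK
  · rw [hK]
    simp
  have hK1 : (1:ℝ) ≤ K := by exact_mod_cast hK
  set κ : ℝ := D * √K with hκdef
  have hsK : 1 ≤ √(K:ℝ) := Real.one_le_sqrt.2 hK1
  have hκ : 1 ≤ κ := by rw [hκdef]; nlinarith
  set θ : ℝ := 1/(2*κ) with hθ
  have hθ0 : 0 < θ := by positivity
  have hθ1 : θ ≤ 1/2 := by
    apply one_div_le_one_div_of_le (by norm_num)
    linarith
  have hs := scal_spec θ r a
  have hDθ : 4 * (D^2 * K * θ^2) ≤ 1 := by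
    have h1 : κ^2 = D^2 * K := by
      rw [hκdef, mul_pow, Real.sq_sqrt (by linarith)]
    rw [← h1, hθ]
    have : 4 * (κ^2 * (1/(2*κ))^2) = 1 := by field_simp; norm_num
    linarith
  have hpos := no_cross_eps h hs hθ0 (by linarith) hsm (by linarith) hDG hx hDθ
  set γ := √(0.45 * θ) with hγ
  have hγ2 : γ^2 = 0.45 * θ := Real.sq_sqrt (by positivity)
  have hγ0 : 0 < γ := Real.sqrt_pos.2 (by positivity)
  have hγ1 : γ ≤ 1/2 := by
    rw [hγ, Real.sqrt_le_iff]
    constructor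
    · norm_num
    · linarith
  have h1 := length_le h hs hθ0 hpos hγ2 hγ0 hγ1
  have e1 : 8 * G^4 / γ^2 ≤ 40 * G^4 * κ := by
    rw [hγ2, hθ, div_le_iff₀ (by positivity)]
    have : 40 * G^4 * κ * (0.45 * (1/(2*κ))) = 9 * G^4 := by field_simp; norm_num
    rw [this]
    have : 0 < G^4 := by positivity
    linarith
  have hlog : Real.log (8 * G^4 / γ^2) ≤ Real.log (40 * G^4 * κ) :=
    Real.log_le_log (by positivity) e1
  have e2 : 4/γ ≤ 12 * √κ := by
    rw [div_le_iff₀ hγ0]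
    have h2 : (12 * √κ * γ)^2 = 144 * κ * (0.45 * θ) := by
      rw [mul_pow, mul_pow, Real.sq_sqrt (by linarith), hγ2]; norm_num
    have h3 : 144 * κ * (0.45 * θ) = 32.4 := by rw [hθ]; field_simp; norm_num
    have h4 : (4:ℝ)^2 ≤ (12 * √κ * γ)^2 := by rw [h2, h3]; norm_num
    exact (abs_le_of_sq_le_sq' h4 (by positivity)).2
  have hlog1 : 0 ≤ Real.log (8 * G^4 / γ^2) := by
    apply Real.log_nonneg
    rw [le_div_iff₀ (by positivity)]
    have : (1:ℝ) ≤ G^4 := one_le_pow₀ hG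
    nlinarith
  calc (K:ℝ) ≤ 4/γ * Real.log (8 * G^4 / γ^2) + 3 := h1
    _ ≤ 12 * √κ * Real.log (40 * G^4 * κ) + 3 := by gcongr

end Pool.Agent.Helper643.CG
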