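import Mathlib
import Pool.Agent.Helper643.CGLocal

namespace Pool.Agent.Helper643.CG

open scoped InnerProductSpace

variable {E : Type*} [NormedAddCommGroup E] [InnerProductSpace ℝ E]
variable {T : E →ₗ[ℝ] E} {b : E} {τ : ℝ} {K : ℕ} {x r q : ℕ → E} {a : ℕ → ℝ}

/-- The energy functional. -/
noncomputable def fen (T : E →ₗ[ℝ] E) (b y : E) : ℝ := ⟪y, T y⟫_ℝ / 2 - ⟪b, y⟫_ℝ

lemma fen_add (sym : ∀ y z, ⟪T y, z⟫_ℝ = ⟪y, T z⟫_ℝ) (y d : E) :
    fen T b (y + d) = fen T b y - ⟪b - T y, d⟫_ℝ + ⟪d, T d⟫_ℝ / 2 := by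
  unfold fen
  have h1 : ⟪d, T y⟫_ℝ = ⟪y, T d⟫_ℝ := by rw [← sym, real_inner_comm]
  rw [map_add, inner_add_left, inner_add_right, inner_add_right, inner_add_right, inner_sub_left,
    sym y d, h1]
  ring

/-- A point of nonpositive energy with large backward error has bounded norm. -/
lemma S_bound (sym : ∀ y z, ⟪T y, z⟫_ℝ = ⟪y, T z⟫_ℝ) (pos : ∀ y, 0 ≤ ⟪y, T y⟫_ℝ)
    (one : ∀ y, ‖T y‖ ≤ ‖y‖) (b1 : ‖b‖ = 1) {ε : ℝ} (hε : 0 < ε) (hε1 : ε ≤ 1) {y : E}
    (hf : fen T b y ≤ 0) (hη : ε * (‖y‖ + 1) < ‖b - T y‖) : ε^2 * (‖y‖ + 1) ≤ 8 := by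
  set S := ‖y‖ + 1 with hS
  have hS1 : 1 ≤ S := by rw [hS]; linarith [norm_nonneg y]
  have h1 : ‖T y‖^2 ≤ 2 * S := by
    have := T_sq sym pos one y
    unfold fen at hf
    have h2 : ⟪b, y⟫_ℝ ≤ ‖b‖ * ‖y‖ := real_inner_le_norm _ _
    rw [b1] at h2
    linarith
  have h2 : ‖b - T y‖ ≤ 1 + ‖T y‖ := by
    have := norm_sub_le b (T y)
    rwa [b1] at this
  have h3 : ε * S < 1 + ‖T y‖ := by linarith
  by_contra hcon
  push Not at hcon
  have h4 : 8 < ε * S := by nlinarith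
  have h5 : 7/8 * (ε * S) < ‖T y‖ := by linarith
  have h6 : (7/8 * (ε * S))^2 < 2 * S := by
    calc (7/8 * (ε * S))^2 < ‖T y‖^2 := by
          apply pow_lt_pow_left₀ h5 (by positivity) (by norm_num)
      _ ≤ _ := h1
  have h7 : (7/8 * (ε * S))^2 = 49/64 * (ε^2 * S) * S := by ring
  rw [h7] at h6
  nlinarith

/-- The invariant of the energy argument. -/
structure Inv (T : E →ₗ[ℝ] E) (b : E) (τ ε : ℝ) (x r q : ℕ → E) (a : ℕ → ℝ) (k : ℕ) : Prop where
  i : ∀ j < k, |a j| * ‖q j‖^2 ≤ 200 / ε^6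
  ii : ‖(b - T (x k)) - r k‖ ≤ k * (100 * τ / ε^4)
  iii : fen T b (x k) ≤ - (0.1 * ε^2 * k)
  iv : ∀ j < k, ε / 2 ≤ ‖r j‖

lemma inv_facts (h : SRun T b τ K x r q a) {ε : ℝ} (hε : 0 < ε) (hε1 : ε ≤ 1)
    (hτ9 : 10^9 * ((K + 1) * τ) ≤ ε^12) {k : ℕ} (hk : k ≤ K)
    (hη : ε * (‖x k‖ + 1) < ‖b - T (x k)‖) (hI : Inv T b τ ε x r q a k) :
    ε^2 * (‖x k‖ + 1) ≤ 8 ∧ ε / 2 * (‖x k‖ + 1) ≤ ‖r k‖ ∧ ‖r k‖ ≤ 1.01 * (‖x k‖ + 1) ∧
      ‖b - T (x k)‖ ≤ ‖x k‖ + 1 ∧ ‖(b - T (x k)) - r k‖ ≤ ε^8 / 10^7 := by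
  have hτ := h.tau
  have hkK : (k : ℝ) ≤ K := by exact_mod_cast hk
  have hk0 : (0 : ℝ) ≤ k := Nat.cast_nonneg k
  have hf : fen T b (x k) ≤ 0 := by
    have := hI.iii
    have h2 : 0 ≤ 0.1 * ε^2 * k := by positivity
    linarith
  have h1 := S_bound h.sym h.pos h.one h.b1 hε hε1 hf hη
  have hgap : ‖(b - T (x k)) - r k‖ ≤ ε^8 / 10^7 := by
    refine hI.ii.trans ?_
    have h3 : (k : ℝ) * (100 * τ / ε^4) = 100 * (k * τ) / ε^4 := by ring
    rw [h3, div_le_iff₀ (by positivity)]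
    have h4 : (k : ℝ) * τ ≤ (K + 1) * τ := by gcongr; linarith
    have h5 : ε^8 / 10^7 * ε^4 = ε^12 / 10^7 := by ring
    rw [h5]
    linarith
  have hS1 : 1 ≤ ‖x k‖ + 1 := by linarith [norm_nonneg (x k)]
  have hε8 : ε^8 ≤ ε := by
    calc ε^8 ≤ ε^1 := pow_le_pow_of_le_one hε.le hε1 (by norm_num)
      _ = ε := pow_one _
  have ht : ‖b - T (x k)‖ ≤ ‖x k‖ + 1 := by
    have := norm_sub_le b (T (x k))
    rw [h.b1] at this
    linarith [h.one (x k)]
  refine ⟨h1, ?_, ?_, ht, hgap⟩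
  · have h6 : ‖b - T (x k)‖ ≤ ‖(b - T (x k)) - r k‖ + ‖r k‖ := by
      have := norm_add_le ((b - T (x k)) - r k) (r k)
      simpa using this
    nlinarith
  · have h6 : ‖r k‖ ≤ ‖(b - T (x k)) - r k‖ + ‖b - T (x k)‖ := by
      have := norm_sub_le (b - T (x k)) ((b - T (x k)) - r k)
      simp only [sub_sub_cancel] at this
      linarith
    nlinarith

set_option maxHeartbeats 4000000 in
lemma inv_step (h : SRun T b τ K x r q a) {ε : ℝ} (hε : 0 < ε) (hε1 : ε ≤ 1)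
    (hτ9 : 10^9 * ((K + 1) * τ) ≤ ε^12) {k : ℕ} (hk : k < K)
    (hη : ε * (‖x k‖ + 1) < ‖b - T (x k)‖)
    (hη1 : ε * (‖x (k+1)‖ + 1) < ‖b - T (x (k+1))‖) (hI : Inv T b τ ε x r q a k) :
    Inv T b τ ε x r q a (k+1) := by
  have hτ := h.tau
  obtain ⟨hS8, hρlow, hρup, htS, hgap⟩ := inv_facts h hε hε1 hτ9 hk.le hη hI
  have hkK : (k : ℝ) + 1 ≤ K := by exact_mod_cast hk
  have hk0 : (0 : ℝ) ≤ k := Nat.cast_nonneg k
  have hK0 : (0 : ℝ) ≤ K := by linarith
  have hτ12 : 10^9 * τ ≤ ε^12 := by nlinarith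
  have hKτ : 10^9 * (K * τ) ≤ ε^12 := by nlinarith
  have hpow : ∀ m n : ℕ, m ≤ n → ε^n ≤ ε^m := fun m n hmn =>
    pow_le_pow_of_le_one hε.le hε1 hmn
  have hε12 : ε^12 ≤ 1 := pow_le_one₀ hε.le hε1
  have hτ1 : τ ≤ 1 / 10^9 := by linarith
  set Z : ℝ := 200 / ε^6 with hZdef
  have hZε : Z * ε^6 = 200 := by rw [hZdef]; field_simp
  have hZ : 1 ≤ Z := by
    rw [hZdef, le_div_iff₀ (by positivity)]
    have : ε^6 ≤ 1 := pow_le_one₀ hε.le hε1
    linarith
  have hτZ : τ * Z = 200 * τ / ε^6 := by rw [hZdef]; ring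
  have hs : 100000 * (K * (τ * Z)) ≤ 1 := by
    rw [hτZ]
    have e : 100000 * ((K:ℝ) * (200 * τ / ε^6)) = (2 * 10^7) * (K * τ) / ε^6 := by ring
    rw [e, div_le_iff₀ (by positivity), one_mul]
    have := hpow 6 12 (by norm_num)
    have hKτ0 : 0 ≤ (K:ℝ) * τ := by positivity
    linarith
  have hL := loc_all h hZ hs k hk.le (h.rne k hk) hI.i
  set S := ‖x k‖ + 1 with hSdef
  have hS1 : 1 ≤ S := by rw [hSdef]; linarith [norm_nonneg (x k)]
  set ρ := ‖r k‖ with hρdef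
  set Q := ‖q k‖ with hQdef
  set V := ⟪q k, T (q k)⟫_ℝ with hVdef
  set w := |a k| * Q with hwdef
  have hQ0 : 0 ≤ Q := norm_nonneg _
  have hV0 : 0 ≤ V := h.pos _
  have hw0 : 0 ≤ w := by positivity
  have hρ0 : 0 < ρ := lt_of_lt_of_le (by positivity) hρlow
  have hρε : ε / 2 ≤ ρ := le_trans (le_mul_of_one_le_right (by positivity) hS1) hρlow
  -- Q ρ ≥ 0.99
  have hA := hL.A
  have hkσ : 10 * (k:ℝ) * (τ * Z) ≤ 0.001 := by
    have h0 : 0 ≤ τ * Z := by positivity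
    have h1 : (k:ℝ) * (τ * Z) ≤ K * (τ * Z) :=
      mul_le_mul_of_nonneg_right (by linarith) h0
    linarith
  have hqr : 0.999 ≤ ⟪q k, r k⟫_ℝ := by
    have := (abs_le.1 hA).1
    linarith
  have hQρ : 0.99 ≤ Q * ρ := by
    have h2 : ⟪q k, r k⟫_ℝ ≤ Q * ρ := real_inner_le_norm _ _
    linarith
  -- error vectors
  have h1 := h.h1 k hk
  have h2 := h.h2 k hk
  have h4 := h.h4 k hk
  set e1 := x (k+1) - x k - a k • q k with he1
  set e2 := r (k+1) - r k + a k • T (q k) with he2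
  have hx1 : x (k+1) = x k + (a k • q k + e1) := by rw [he1]; abel
  have hr1 : r (k+1) = r k - a k • T (q k) + e2 := by rw [he2]; abel
  have he1n : ‖e1‖ ≤ τ * (S + w) := by
    refine h1.trans ?_
    gcongr
    rw [hSdef]; linarith
  have he2n : ‖e2‖ ≤ τ * (1.01 * S + w) := by
    refine h2.trans ?_
    gcongr
  have habsq : ‖a k • q k‖ = w := by rw [norm_smul, Real.norm_eq_abs]
  set A := |a k| * ‖T (q k)‖ with hAdef
  have hA0 : 0 ≤ A := by positivity
  have hAw : A ≤ w := by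
    rw [hAdef, hwdef]
    gcongr
    exact h.one _
  -- the bound for w
  have hw : ε^2 * w ≤ 5 * S := by
    by_contra hcon
    push Not at hcon
    have hxl : w - ‖x k‖ - ‖e1‖ ≤ ‖x (k+1)‖ := by
      have e : a k • q k = x (k+1) - x k - e1 := by rw [hx1]; abel
      have : ‖a k • q k‖ ≤ ‖x (k+1)‖ + ‖x k‖ + ‖e1‖ := by
        rw [e]
        refine (norm_sub_le _ _).trans ?_
        gcongr
        exact norm_sub_le _ _
      rw [habsq] at this
      linarith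
    have htu : ‖b - T (x (k+1))‖ ≤ S + A + ‖e1‖ := by
      have e : b - T (x (k+1)) = (b - T (x k)) - a k • T (q k) - T e1 := by
        rw [hx1, map_add, map_add, map_smul]; abel
      rw [e]
      calc _ ≤ ‖(b - T (x k)) - a k • T (q k)‖ + ‖T e1‖ := norm_sub_le _ _
        _ ≤ (‖b - T (x k)‖ + ‖a k • T (q k)‖) + ‖e1‖ := by
            gcongr
            · exact norm_sub_le _ _
            · exact h.one _
        _ ≤ S + A + ‖e1‖ := by
            rw [norm_smul, Real.norm_eq_abs]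
            linarith [htS, hAdef]
    have hSw : S ≤ 0.2 * (ε * w) := by
      have : ε^2 * w ≤ ε * w := by
        have := hpow 1 2 (by norm_num)
        rw [pow_one] at this
        gcongr
      linarith
    have hτw : τ * (S + w) ≤ 0.001 * (ε * w) := by
      have h5 : τ ≤ 0.0001 * ε := by
        have := hpow 1 12 (by norm_num)
        rw [pow_one] at this
        linarith
      have h5' : ε * w ≤ w := mul_le_of_le_one_left hw0 hε1
      have h6 : S + w ≤ 1.2 * w := by linarith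
      have h7 : 0 ≤ ε * w := by positivity
      calc τ * (S + w) ≤ (0.0001 * ε) * (1.2 * w) := by gcongr
        _ ≤ 0.001 * (ε * w) := by linarith
    have hAl : 0.59 * (ε * w) ≤ A := by
      have h7 : ε * (w - ‖x k‖ - ‖e1‖ + 1) ≤ ε * (‖x (k+1)‖ + 1) := by gcongr
      have h8 : ε * (‖x k‖ + ‖e1‖) ≤ ‖x k‖ + ‖e1‖ :=
        mul_le_of_le_one_left (by positivity) hε1
      have h9 : ‖x k‖ ≤ S := by rw [hSdef]; linarith
      linarith
    have hA2 : A^2 ≤ |a k| * (1 + τ) + τ * w^2 := by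
      have h5 : ‖T (q k)‖^2 ≤ V := T_sq h.sym h.pos h.one _
      have h6 : |a k| * V ≤ 1 + τ * (1 + |a k| * Q^2) := by
        have h7 : |a k| * V = |a k * V| := by rw [abs_mul, abs_of_nonneg hV0]
        have h8 : |a k * V| ≤ |a k * V - 1| + 1 := by
          have := abs_add_le (a k * V - 1) 1
          simpa using this
        rw [h7]; linarith
      calc A^2 = |a k| * (|a k| * ‖T (q k)‖^2) := by rw [hAdef]; ring
        _ ≤ |a k| * (|a k| * V) := by gcongr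
        _ ≤ |a k| * (1 + τ * (1 + |a k| * Q^2)) := by gcongr
        _ = |a k| * (1 + τ) + τ * w^2 := by rw [hwdef]; ring
    have ha : |a k| ≤ 1.03 * w * S := by
      have h5 : |a k| * 0.99 ≤ w * (1.01 * S) := by
        calc |a k| * 0.99 ≤ |a k| * (Q * ρ) := by gcongr
          _ = w * ρ := by rw [hwdef]; ring
          _ ≤ w * (1.01 * S) := by gcongr
      have h6 : 0 ≤ w * S := by positivity
      linarith
    have h10 : (0.59 * (ε * w))^2 ≤ 1.04 * w * S + τ * w^2 := by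
      calc (0.59 * (ε * w))^2 ≤ A^2 := by gcongr
        _ ≤ |a k| * (1 + τ) + τ * w^2 := hA2
        _ ≤ (1.03 * w * S) * (1.0001) + τ * w^2 := by
            gcongr
            linarith
        _ ≤ 1.04 * w * S + τ * w^2 := by
            have h6 : 0 ≤ w * S := by positivity
            linarith
    have h11 : 1.04 * w * S ≤ 0.208 * (ε^2 * w^2) := by
      have : w * (5 * S) ≤ w * (ε^2 * w) := mul_le_mul_of_nonneg_left hcon.le hw0
      linarith
    have h12 : τ * w^2 ≤ 0.001 * (ε^2 * w^2) := by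
      have : τ ≤ 0.001 * ε^2 := by
        have := hpow 2 12 (by norm_num)
        linarith
      calc τ * w^2 ≤ (0.001 * ε^2) * w^2 := by gcongr
        _ = _ := by ring
    have h13 : 0 < ε^2 * w^2 := by
      have : 0 < w := by
        rcases hw0.eq_or_lt with h5 | h5
        · rw [← h5] at hcon; linarith
        · exact h5
      positivity
    linarith
  have hw4 : ε^4 * w ≤ 40 := by
    calc ε^4 * w = ε^2 * (ε^2 * w) := by ring
      _ ≤ ε^2 * (5 * S) := by gcongr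
      _ = 5 * (ε^2 * S) := by ring
      _ ≤ 40 := by linarith
  -- bound for Q
  have hQb : ε^7 * Q ≤ 610 := by
    rcases Nat.eq_zero_or_pos k with h0 | hpos
    · have : Q = 1 := by rw [hQdef, h0, h.q0, h.b1]
      rw [this]
      have := pow_le_one₀ hε.le hε1 (n := 7)
      linarith
    · obtain ⟨m, rfl⟩ : ∃ m, k = m + 1 := ⟨k - 1, by omega⟩
      have h3 := h.h3 m (by omega) (h.rne (m+1) hk)
      have hNm := nxt_all h hZ hs m (by omega) (fun j hj => hI.i j (by omega))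
      have hrm := hI.iv m (by omega)
      have hq1 : Q ≤ ρ⁻¹ + ‖q m‖ + τ * (ρ⁻¹ + ‖q m‖) := by
        set s := (‖r (m+1)‖^2)⁻¹ • r (m+1) with hs'
        have hsn : ‖s‖ = ρ⁻¹ := by
          rw [hs', norm_smul, norm_inv, norm_pow, norm_norm, pow_two, mul_inv, mul_assoc,
            inv_mul_cancel₀ hρ0.ne', mul_one]
        have e : q (m+1) = (q (m+1) - s - q m) + s + q m := by abel
        calc Q = ‖(q (m+1) - s - q m) + s + q m‖ := by rw [← e]
          _ ≤ ‖q (m+1) - s - q m‖ + ‖s‖ + ‖q m‖ := norm_add₃_le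
          _ ≤ _ := by rw [hsn]; linarith
      have h5 : ρ⁻¹ ≤ 2 / ε := by
        rw [inv_le_comm₀ hρ0 (by positivity), inv_div]
        exact hρε
      have h6 : ‖q m‖ * (ε / 2) ≤ 1.5 * Z := by
        calc ‖q m‖ * (ε / 2) ≤ ‖q m‖ * ‖r m‖ := by gcongr
          _ ≤ 1.5 * Z := hNm.qr_le
      have h7 : ε * ρ⁻¹ ≤ 2 := by
        calc ε * ρ⁻¹ ≤ ε * (2 / ε) := by gcongr
          _ = 2 := by field_simp
      have h8 : ε^7 * ρ⁻¹ ≤ 2 := by
        calc ε^7 * ρ⁻¹ = ε^6 * (ε * ρ⁻¹) := by ring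
          _ ≤ 1 * 2 := by
              gcongr
              exact pow_le_one₀ hε.le hε1
          _ = 2 := by norm_num
      have h9 : ε^7 * ‖q m‖ ≤ 600 := by
        calc ε^7 * ‖q m‖ = 2 * ε^6 * (‖q m‖ * (ε / 2)) := by ring
          _ ≤ 2 * ε^6 * (1.5 * Z) := by gcongr
          _ = 3 * (Z * ε^6) := by ring
          _ = 600 := by rw [hZε]; norm_num
      calc ε^7 * Q ≤ ε^7 * (ρ⁻¹ + ‖q m‖ + τ * (ρ⁻¹ + ‖q m‖)) := by gcongr
        _ = (1 + τ) * (ε^7 * ρ⁻¹ + ε^7 * ‖q m‖) := by ring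
        _ ≤ (1.001) * (2 + 600) := by
            gcongr
            linarith
        _ ≤ 610 := by norm_num
  have hτwQ : τ * (w * Q) ≤ 0.0001 := by
    have h5 : ε^11 * (w * Q) ≤ 24400 := by
      calc ε^11 * (w * Q) = (ε^4 * w) * (ε^7 * Q) := by ring
        _ ≤ 40 * 610 := by gcongr
        _ = 24400 := by norm_num
    have h6 : 10^9 * (τ * (w * Q)) ≤ 24400 := by
      calc 10^9 * (τ * (w * Q)) = (10^9 * τ) * (w * Q) := by ring
        _ ≤ ε^12 * (w * Q) := by gcongr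
        _ ≤ ε^11 * (w * Q) :=
            mul_le_mul_of_nonneg_right (hpow 11 12 (by norm_num)) (by positivity)
        _ ≤ _ := h5
    linarith
  have haV : |a k * V - 1| ≤ 0.001 := by
    refine h4.trans ?_
    have : τ * (1 + |a k| * Q^2) = τ + τ * (w * Q) := by rw [hwdef]; ring
    rw [this]
    linarith
  have haV1 := (abs_le.1 haV).1
  have haV2 := (abs_le.1 haV).2
  have hapos : 0 < a k := by
    by_contra hc
    push Not at hc
    have := mul_nonpos_of_nonpos_of_nonneg hc hV0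
    linarith
  have habs : |a k| = a k := abs_of_pos hapos
  have hB : ρ^2 * V ≤ 1.1 := hL.B
  have halow : 0.9 * ρ^2 ≤ a k := by
    have h5 : ρ^2 * (a k * V) ≤ 1.1 * a k := by
      calc ρ^2 * (a k * V) = a k * (ρ^2 * V) := by ring
        _ ≤ a k * 1.1 := by gcongr
        _ = 1.1 * a k := by ring
    have h6 := mul_le_mul_of_nonneg_left (show 0.999 ≤ a k * V by linarith) (sq_nonneg ρ)
    linarith [sq_nonneg ρ]
  have hρS : ε^2 * S^2 / 4 ≤ ρ^2 := by
    calc ε^2 * S^2 / 4 = (ε / 2 * S)^2 := by ring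
      _ ≤ ρ^2 := by gcongr
  have haZ : |a k| * Q^2 ≤ Z := by
    rw [hZdef, le_div_iff₀ (by positivity), habs]
    have h5 : w^2 = a k * (a k * Q^2) := by rw [hwdef, habs]; ring
    have h6 : (ε^2 * w)^2 ≤ (5 * S)^2 := by gcongr
    have h7 : 0 ≤ a k * Q^2 := by positivity
    have h8 : (0.225 * ε^2 * S^2) * (a k * Q^2) ≤ w^2 := by
      rw [h5]
      gcongr
      linarith
    have h9 : (0.225 * (a k * Q^2 * ε^6)) * S^2 ≤ 25 * S^2 := by
      calc (0.225 * (a k * Q^2 * ε^6)) * S^2 = ε^4 * ((0.225 * ε^2 * S^2) * (a k * Q^2)) := by ring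
        _ ≤ ε^4 * w^2 := by gcongr
        _ = (ε^2 * w)^2 := by ring
        _ ≤ (5 * S)^2 := h6
        _ = 25 * S^2 := by ring
    have h10 : 0.225 * (a k * Q^2 * ε^6) ≤ 25 := le_of_mul_le_mul_right h9 (by positivity)
    linarith
  refine ⟨?_, ?_, ?_, ?_⟩
  · intro j hj
    rcases Nat.lt_succ_iff_lt_or_eq.1 hj with h5 | h5
    · exact hI.i j h5
    · rw [h5]; exact haZ
  · -- gap
    have e : (b - T (x (k+1))) - r (k+1) = ((b - T (x k)) - r k) - T e1 - e2 := by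
      rw [hx1, hr1, map_add, map_add, map_smul]; abel
    rw [e]
    have h5 : τ * (S + w) + τ * (1.01 * S + w) ≤ 100 * τ / ε^4 := by
      rw [le_div_iff₀ (by positivity)]
      have h6 : ε^4 * S ≤ 8 := by
        calc ε^4 * S ≤ ε^2 * S :=
              mul_le_mul_of_nonneg_right (hpow 2 4 (by norm_num)) (by positivity)
          _ ≤ 8 := hS8
      have h7 : (τ * (S + w) + τ * (1.01 * S + w)) * ε^4 = τ * (2.01 * (ε^4 * S) + 2 * (ε^4 * w)) := by
        ring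
      rw [h7]
      have : 2.01 * (ε^4 * S) + 2 * (ε^4 * w) ≤ 100 := by linarith
      calc τ * (2.01 * (ε^4 * S) + 2 * (ε^4 * w)) ≤ τ * 100 := by gcongr
        _ = 100 * τ := by ring
    calc ‖((b - T (x k)) - r k) - T e1 - e2‖ ≤ ‖((b - T (x k)) - r k) - T e1‖ + ‖e2‖ :=
          norm_sub_le _ _
      _ ≤ ‖(b - T (x k)) - r k‖ + ‖T e1‖ + ‖e2‖ := by gcongr; exact norm_sub_le _ _
      _ ≤ k * (100 * τ / ε^4) + τ * (S + w) + τ * (1.01 * S + w) := by
          have := hI.ii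
          have h8 := (h.one e1).trans he1n
          gcongr
      _ ≤ k * (100 * τ / ε^4) + 100 * τ / ε^4 := by linarith
      _ = ((k + 1 : ℕ) : ℝ) * (100 * τ / ε^4) := by push_cast; ring
  · -- energy
    rw [hx1, fen_add h.sym]
    have hwa : w = a k * Q := by rw [hwdef, habs]
    have e3 : ⟪b - T (x k), a k • q k + e1⟫_ℝ = a k * ⟪r k, q k⟫_ℝ
        + a k * ⟪(b - T (x k)) - r k, q k⟫_ℝ + ⟪b - T (x k), e1⟫_ℝ := by
      have e5 : ⟪b - T (x k), q k⟫_ℝ = ⟪r k, q k⟫_ℝ + ⟪(b - T (x k)) - r k, q k⟫_ℝ := by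
        rw [← inner_add_left]; congr 1; abel
      rw [inner_add_right, real_inner_smul_right, e5]
      ring
    have e4 : ⟪a k • q k + e1, T (a k • q k + e1)⟫_ℝ = a k * (a k * V) +
        2 * (a k * ⟪T (q k), e1⟫_ℝ) + ⟪e1, T e1⟫_ℝ := by
      rw [map_add, map_smul, inner_add_left, inner_add_right, inner_add_right,
        real_inner_smul_left, real_inner_smul_left, real_inner_smul_right, real_inner_smul_right,
        ← h.sym (q k) e1, real_inner_comm e1 (T (q k))]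
      ring
    rw [e3, e4]
    have b0 : 0.999 * a k ≤ a k * ⟪r k, q k⟫_ℝ := by
      rw [real_inner_comm, mul_comm 0.999]
      gcongr
    set gp := ‖(b - T (x k)) - r k‖ with hgp
    have b1 : |a k * ⟪(b - T (x k)) - r k, q k⟫_ℝ| ≤ w * gp := by
      rw [abs_mul, habs, hwa]
      calc a k * |⟪(b - T (x k)) - r k, q k⟫_ℝ| ≤ a k * (gp * Q) := by
            gcongr; exact abs_real_inner_le_norm _ _
        _ = a k * Q * gp := by ring
    have b2 : |⟪b - T (x k), e1⟫_ℝ| ≤ S * ‖e1‖ := by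
      calc |⟪b - T (x k), e1⟫_ℝ| ≤ ‖b - T (x k)‖ * ‖e1‖ := abs_real_inner_le_norm _ _
        _ ≤ S * ‖e1‖ := by gcongr
    have b3 : |a k * ⟪T (q k), e1⟫_ℝ| ≤ w * ‖e1‖ := by
      rw [abs_mul, habs, hwa]
      calc a k * |⟪T (q k), e1⟫_ℝ| ≤ a k * (‖T (q k)‖ * ‖e1‖) := by
            gcongr; exact abs_real_inner_le_norm _ _
        _ ≤ a k * (Q * ‖e1‖) := by
            gcongr
            exact h.one _
        _ = a k * Q * ‖e1‖ := by ring
    have b4 : ⟪e1, T e1⟫_ℝ ≤ ‖e1‖ * ‖e1‖ := by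
      calc ⟪e1, T e1⟫_ℝ ≤ ‖e1‖ * ‖T e1‖ := real_inner_le_norm _ _
        _ ≤ ‖e1‖ * ‖e1‖ := by gcongr; exact h.one _
    have b5 : a k * (a k * V) ≤ 1.001 * a k := by
      rw [mul_comm 1.001]
      gcongr
      linarith
    -- sizes
    have c1 : w * gp ≤ ε^4 / 10^5 := by
      calc w * gp ≤ w * (ε^8 / 10^7) := by gcongr
        _ = (ε^4 * w) * ε^4 / 10^7 := by ring
        _ ≤ 40 * ε^4 / 10^7 := by gcongr
        _ ≤ ε^4 / 10^5 := by
            have : 0 ≤ ε^4 := by positivity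
            linarith
    have h6 : ε^4 * S ≤ 8 := by
      calc ε^4 * S ≤ ε^2 * S :=
            mul_le_mul_of_nonneg_right (hpow 2 4 (by norm_num)) (by positivity)
        _ ≤ 8 := hS8
    have c2 : ‖e1‖ ≤ ε^8 / 10^7 := by
      have h7 : 10^9 * (τ * (S + w)) ≤ 48 * ε^8 := by
        calc 10^9 * (τ * (S + w)) = (10^9 * τ) * (S + w) := by ring
          _ ≤ ε^12 * (S + w) := by gcongr
          _ = ε^8 * (ε^4 * S + ε^4 * w) := by ring
          _ ≤ ε^8 * (8 + 40) := by gcongr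
          _ = 48 * ε^8 := by ring
      have h8 : 0 ≤ ε^8 := by positivity
      linarith
    have c3 : S * ‖e1‖ + w * ‖e1‖ ≤ ε^4 / 10^5 := by
      calc S * ‖e1‖ + w * ‖e1‖ = (S + w) * ‖e1‖ := by ring
        _ ≤ (S + w) * (ε^8 / 10^7) := by gcongr
        _ = (ε^4 * S + ε^4 * w) * ε^4 / 10^7 := by ring
        _ ≤ (8 + 40) * ε^4 / 10^7 := by gcongr
        _ ≤ ε^4 / 10^5 := by
            have : 0 ≤ ε^4 := by positivity
            linarith
    have c4 : ‖e1‖ * ‖e1‖ ≤ ε^4 / 10^5 := by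
      have h7 : ‖e1‖ ≤ ε^4 / 10^5 := by
        have := hpow 4 8 (by norm_num)
        have h8 : 0 ≤ ε^8 := by positivity
        linarith
      have h8 : ‖e1‖ ≤ 1 := by
        have := pow_le_one₀ hε.le hε1 (n := 4)
        linarith
      calc ‖e1‖ * ‖e1‖ ≤ ‖e1‖ * 1 := by gcongr
        _ ≤ ε^4 / 10^5 := by rw [mul_one]; exact h7
    have c5 : 0.225 * ε^2 ≤ a k := by
      calc 0.225 * ε^2 = 0.9 * (ε/2)^2 := by ring
        _ ≤ 0.9 * ρ^2 := by gcongr
        _ ≤ a k := halow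
    have c6 : ε^4 ≤ ε^2 := hpow 2 4 (by norm_num)
    have b1' := (abs_le.1 b1).1
    have b2' := (abs_le.1 b2).1
    have b3' := (abs_le.1 b3).2
    have hiii := hI.iii
    have c7 : (0:ℝ) < ε^2 := by positivity
    push_cast
    linarith
  · intro j hj
    rcases Nat.lt_succ_iff_lt_or_eq.1 hj with h5 | h5
    · exact hI.iv j h5
    · rw [h5]; exact hρε

/-- The invariant holds as long as the backward error stays large. -/
theorem inv_all (h : SRun T b τ K x r q a) {ε : ℝ} (hε : 0 < ε) (hε1 : ε ≤ 1)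
    (hτ9 : 10^9 * ((K + 1) * τ) ≤ ε^12)
    (hη : ∀ k ≤ K, ε * (‖x k‖ + 1) < ‖b - T (x k)‖) : ∀ k ≤ K, Inv T b τ ε x r q a k := by
  intro k
  induction k with
  | zero =>
    intro _
    refine ⟨by simp, ?_, ?_, by simp⟩
    · rw [h.x0, h.r0]; simp
    · rw [h.x0]; simp [fen]
  | succ k ih =>
    intro hk
    exact inv_step h hε hε1 hτ9 hk (hη k (by omega)) (hη (k+1) hk) (ih (by omega))

/-- The number of steps with backward error larger than `ε` is at most `80 / ε ^ 4`. -/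
theorem steps_le (h : SRun T b τ K x r q a) {ε : ℝ} (hε : 0 < ε) (hε1 : ε ≤ 1)
    (hτ9 : 10^9 * ((K + 1) * τ) ≤ ε^12)
    (hη : ∀ k ≤ K, ε * (‖x k‖ + 1) < ‖b - T (x k)‖) : (K : ℝ) * ε^4 ≤ 80 := by
  have hI := inv_all h hε hε1 hτ9 hη K le_rfl
  have h1 := (inv_facts h hε hε1 hτ9 le_rfl (hη K le_rfl) hI).1
  have h2 := hI.iii
  have h3 : -‖x K‖ ≤ fen T b (x K) := by
    unfold fen
    have := h.pos (x K)
    have h4 : ⟪b, x K⟫_ℝ ≤ ‖b‖ * ‖x K‖ := real_inner_le_norm _ _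
    rw [h.b1] at h4
    linarith
  have h5 : 0.1 * ε^2 * K ≤ ‖x K‖ := by linarith
  have h6 : ε^2 * (0.1 * ε^2 * K) ≤ ε^2 * (‖x K‖ + 1) := by
    gcongr
    linarith
  nlinarith

end Pool.Agent.Helper643.CG
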