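import Mathlib
import Pool.Agent.Helper643.CGLocal

namespace Pool.Agent.Helper643.CG

open scoped InnerProductSpace

variable {E : Type*} [NormedAddCommGroup E] [InnerProductSpace ℝ E]

lemma linIndep_of_near {m : ℕ} {v : Fin m → E} {c : ℝ} (hc : c * m < 1)
    (hne : ∀ i, v i ≠ 0) (h : ∀ i j, i ≠ j → |⟪v i, v j⟫_ℝ| ≤ c * (‖v i‖ * ‖v j‖)) :
    LinearIndependent ℝ v := by
  rw [Fintype.linearIndependent_iff]
  intro g hg
  rcases isEmpty_or_nonempty (Fin m) with he | hne'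
  · intro i; exact (he.false i).elim
  obtain ⟨i0, hi0⟩ := Finite.exists_max (fun i => |g i| * ‖v i‖)
  have h0 : ∑ i, g i * ⟪v i, v i0⟫_ℝ = 0 := by
    have := congrArg (fun w => ⟪w, v i0⟫_ℝ) hg
    simpa [sum_inner, inner_smul_left] using this
  rw [← Finset.add_sum_erase _ _ (Finset.mem_univ i0), real_inner_self_eq_norm_sq] at h0
  have h1 : |g i0| * ‖v i0‖^2 ≤ ∑ i ∈ Finset.univ.erase i0, |g i * ⟪v i, v i0⟫_ℝ| := by
    have : g i0 * ‖v i0‖^2 = - ∑ i ∈ Finset.univ.erase i0, g i * ⟪v i, v i0⟫_ℝ := by linarith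
    calc |g i0| * ‖v i0‖^2 = |g i0 * ‖v i0‖^2| := by
          rw [abs_mul, abs_of_nonneg (sq_nonneg ‖v i0‖)]
      _ ≤ _ := by
          rw [this, abs_neg]
          exact Finset.abs_sum_le_sum_abs _ _
  have hc0 : 0 ≤ c ∨ m ≤ 1 := by
    by_contra hcon
    push Not at hcon
    obtain ⟨hc', hm⟩ := hcon
    have i1 : ∃ i1 : Fin m, i1 ≠ i0 := by
      have : Nontrivial (Fin m) := Fin.nontrivial_iff_two_le.2 hm
      exact exists_ne i0
    obtain ⟨i1, hi1⟩ := i1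
    have := h i1 i0 hi1
    have h2 := abs_nonneg ⟪v i1, v i0⟫_ℝ
    have h3 : 0 < ‖v i1‖ * ‖v i0‖ := mul_pos (norm_pos_iff.2 (hne _)) (norm_pos_iff.2 (hne _))
    nlinarith
  have hpos : 0 < ‖v i0‖ := norm_pos_iff.2 (hne _)
  have h2 : ∑ i ∈ Finset.univ.erase i0, |g i * ⟪v i, v i0⟫_ℝ| ≤
      (m - 1 : ℝ) * (|c| * (|g i0| * ‖v i0‖^2)) := by
    have hcard : ((Finset.univ.erase i0).card : ℝ) = m - 1 := by
      rw [Finset.card_erase_of_mem (Finset.mem_univ _)]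
      have : 1 ≤ m := Fin.pos_iff_nonempty.2 hne'
      simp [Nat.cast_sub this]
    rw [← hcard, ← nsmul_eq_mul]
    apply Finset.sum_le_card_nsmul
    intro i hi
    have hine : i ≠ i0 := (Finset.mem_erase.1 hi).1
    rw [abs_mul]
    calc |g i| * |⟪v i, v i0⟫_ℝ| ≤ |g i| * (c * (‖v i‖ * ‖v i0‖)) := by
          gcongr; exact h i i0 hine
      _ ≤ |g i| * (|c| * (‖v i‖ * ‖v i0‖)) := by
          gcongr; exact le_abs_self _
      _ = |c| * (|g i| * ‖v i‖) * ‖v i0‖ := by ring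
      _ ≤ |c| * (|g i0| * ‖v i0‖) * ‖v i0‖ :=
          mul_le_mul_of_nonneg_right (mul_le_mul_of_nonneg_left (hi0 i) (abs_nonneg _))
            (norm_nonneg _)
      _ = |c| * (|g i0| * ‖v i0‖^2) := by ring
  have hm1 : (1 : ℝ) ≤ m := by
    have : 1 ≤ m := Fin.pos_iff_nonempty.2 hne'
    exact_mod_cast this
  have hX : 0 ≤ |g i0| * ‖v i0‖^2 := by positivity
  have h4 : (m - 1 : ℝ) * |c| < 1 := by
    rcases hc0 with hc0 | hm
    · rw [abs_of_nonneg hc0]; nlinarith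
    · have : (m : ℝ) ≤ 1 := by exact_mod_cast hm
      have h5 : (m : ℝ) - 1 = 0 := by linarith
      rw [h5]; simp
  have h5 : |g i0| * ‖v i0‖^2 = 0 := by
    by_contra hcon
    have hX' : 0 < |g i0| * ‖v i0‖^2 := lt_of_le_of_ne hX (Ne.symm hcon)
    nlinarith
  have h6 : |g i0| = 0 := by
    rcases mul_eq_zero.1 h5 with h7 | h7
    · exact h7
    · exact absurd h7 (by positivity)
  intro i
  have h7 := hi0 i
  simp only [h6, zero_mul] at h7
  have h8 : 0 < ‖v i‖ := norm_pos_iff.2 (hne i)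
  have h9 : |g i| ≤ 0 := by nlinarith [abs_nonneg (g i)]
  exact abs_eq_zero.1 (le_antisymm h9 (abs_nonneg _))

variable {T : E →ₗ[ℝ] E} {b : E} {τ Z : ℝ} {K : ℕ} {x r q : ℕ → E} {a : ℕ → ℝ}

/-- Direction vectors are sums of scaled residuals. -/
lemma q_sum (h : SRun T b τ K x r q a) (k : ℕ) (hk : k < K) :
    ‖q k - ∑ i ∈ Finset.range (k+1), (‖r i‖^2)⁻¹ • r i‖ ≤
      τ * ∑ i ∈ Finset.range k, (‖r (i+1)‖⁻¹ + ‖q i‖) := by
  induction k with
  | zero =>
    simp [h.q0, h.r0, h.b1]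
  | succ k ih =>
    have ih := ih (by omega)
    have h3 := h.h3 k (by omega) (h.rne (k+1) hk)
    rw [Finset.sum_range_succ (fun i => (‖r i‖^2)⁻¹ • r i) (k+1),
      Finset.sum_range_succ (fun i => ‖r (i+1)‖⁻¹ + ‖q i‖) k]
    calc ‖q (k+1) - (∑ i ∈ Finset.range (k+1), (‖r i‖^2)⁻¹ • r i + (‖r (k+1)‖^2)⁻¹ • r (k+1))‖
        = ‖(q k - ∑ i ∈ Finset.range (k+1), (‖r i‖^2)⁻¹ • r i) +
          (q (k+1) - (‖r (k+1)‖^2)⁻¹ • r (k+1) - q k)‖ := by
          congr 1; abel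
      _ ≤ _ := norm_add_le _ _
      _ ≤ τ * ∑ i ∈ Finset.range k, (‖r (i+1)‖⁻¹ + ‖q i‖) + τ * (‖r (k+1)‖⁻¹ + ‖q k‖) := by
          gcongr
      _ = _ := by ring

/-- Global facts about the residual `r j`. -/
def Glob (τ Z B : ℝ) (r : ℕ → E) (j : ℕ) : Prop :=
  (∀ i ≤ j, ‖r j‖ ≤ 5 * Z^2 * ‖r i‖) ∧ ∀ i < j, |⟪r i, r j⟫_ℝ| ≤ τ * B^j * ‖r i‖

lemma theta (h : SRun T b τ K x r q a) (hZ : 1 ≤ Z) {B : ℝ} (hB : 1 ≤ B)
    (hN : ∀ k < K, Nxt T τ Z r q a k) {k : ℕ} (hk : k < K)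
    (hG : ∀ j ≤ k, Glob τ Z B r j) (l : ℕ) (hl : l ≤ k) :
    |⟪q k, r l⟫_ℝ - 1| * ‖r k‖^2 ≤ 88 * K * Z^5 * (τ * B^k) * ‖r l‖ := by
  have hτ := h.tau
  have hρ : ∀ j ≤ k, 0 < ‖r j‖ := fun j hj => norm_pos_iff.2 (h.rne j (by omega))
  have hK : (k : ℝ) + 1 ≤ K := by exact_mod_cast hk
  have hk0 : (0:ℝ) ≤ k := Nat.cast_nonneg k
  have hr0 : ‖r 0‖ = 1 := by rw [h.r0, h.b1]
  set ρ := ‖r k‖ with hρdef
  have hρk : 0 < ρ := hρ k le_rfl
  have hρZ : ρ ≤ 5 * Z^2 := by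
    have := (hG k le_rfl).1 0 (Nat.zero_le _)
    rwa [hr0, mul_one] at this
  have hBk : 1 ≤ B^k := one_le_pow₀ hB
  have hratio : ∀ i ≤ k, ρ ≤ 5 * Z^2 * ‖r i‖ := fun i hi => (hG k le_rfl).1 i hi
  have hl0 := hρ l hl
  -- the sum
  set S := ∑ i ∈ Finset.range (k+1), (‖r i‖^2)⁻¹ • r i with hS
  have hterm : ∀ i ∈ (Finset.range (k+1)).erase l,
      |(‖r i‖^2)⁻¹ * ⟪r i, r l⟫_ℝ| * ρ^2 ≤ 25 * Z^4 * (τ * B^k) * ‖r l‖ := by
    intro i hi
    obtain ⟨hil, hik⟩ := Finset.mem_erase.1 hi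
    have hik : i ≤ k := by simpa [Nat.lt_succ_iff] using hik
    have hri := hρ i hik
    have hrat := hratio i hik
    have hinv : ‖r i‖⁻¹ * ρ ≤ 5 * Z^2 := by rw [inv_mul_le_iff₀ hri]; linarith
    have hrl := hratio l hl
    rw [abs_mul, abs_of_pos (show 0 < (‖r i‖^2)⁻¹ by positivity)]
    rcases lt_or_gt_of_ne hil with hlt | hgt
    · have h1 := (hG l hl).2 i hlt
      have hBl : B^l ≤ B^k := pow_le_pow_right₀ hB hl
      calc (‖r i‖^2)⁻¹ * |⟪r i, r l⟫_ℝ| * ρ^2 ≤ (‖r i‖^2)⁻¹ * (τ * B^k * ‖r i‖) * ρ^2 := by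
            gcongr
            refine h1.trans ?_
            gcongr
        _ = τ * B^k * (‖r i‖⁻¹ * ρ) * ρ := by
            field_simp
        _ ≤ τ * B^k * (5 * Z^2) * (5 * Z^2 * ‖r l‖) := by
            have : 0 ≤ τ * B^k := by positivity
            have h9 : τ * B^k * (‖r i‖⁻¹ * ρ) ≤ τ * B^k * (5 * Z^2) :=
              mul_le_mul_of_nonneg_left hinv this
            exact mul_le_mul h9 hrl hρk.le (by positivity)
        _ = 25 * Z^4 * (τ * B^k) * ‖r l‖ := by ring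
    · have h1 := (hG i hik).2 l hgt
      rw [real_inner_comm] at h1
      have hBl : B^i ≤ B^k := pow_le_pow_right₀ hB hik
      calc (‖r i‖^2)⁻¹ * |⟪r i, r l⟫_ℝ| * ρ^2 ≤ (‖r i‖^2)⁻¹ * (τ * B^k * ‖r l‖) * ρ^2 := by
            gcongr
            refine h1.trans ?_
            gcongr
        _ = τ * B^k * ‖r l‖ * (‖r i‖⁻¹ * ρ)^2 := by
            field_simp
        _ ≤ τ * B^k * ‖r l‖ * (5 * Z^2)^2 := by
            apply mul_le_mul_of_nonneg_left _ (by positivity)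
            exact pow_le_pow_left₀ (by positivity) hinv 2
        _ = 25 * Z^4 * (τ * B^k) * ‖r l‖ := by ring
  have hsum : |⟪S, r l⟫_ℝ - 1| * ρ^2 ≤ K * (25 * Z^4 * (τ * B^k) * ‖r l‖) := by
    have e : ⟪S, r l⟫_ℝ - 1 = ∑ i ∈ (Finset.range (k+1)).erase l, (‖r i‖^2)⁻¹ * ⟪r i, r l⟫_ℝ := by
      rw [hS, sum_inner]
      simp only [inner_smul_left, conj_trivial]
      rw [← Finset.add_sum_erase _ _ (Finset.mem_range.2 (Nat.lt_succ_of_le hl)),
        real_inner_self_eq_norm_sq, inv_mul_cancel₀ (by positivity)]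
      ring
    rw [e]
    calc |∑ i ∈ (Finset.range (k+1)).erase l, (‖r i‖^2)⁻¹ * ⟪r i, r l⟫_ℝ| * ρ^2
        ≤ (∑ i ∈ (Finset.range (k+1)).erase l, |(‖r i‖^2)⁻¹ * ⟪r i, r l⟫_ℝ|) * ρ^2 := by
          gcongr; exact Finset.abs_sum_le_sum_abs _ _
      _ = ∑ i ∈ (Finset.range (k+1)).erase l, |(‖r i‖^2)⁻¹ * ⟪r i, r l⟫_ℝ| * ρ^2 := by
          rw [Finset.sum_mul]
      _ ≤ ((Finset.range (k+1)).erase l).card • (25 * Z^4 * (τ * B^k) * ‖r l‖) :=
          Finset.sum_le_card_nsmul _ _ _ hterm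
      _ ≤ K * (25 * Z^4 * (τ * B^k) * ‖r l‖) := by
          rw [nsmul_eq_mul]
          gcongr
          calc ((Finset.range (k+1)).erase l).card ≤ (Finset.range (k+1)).card :=
                Finset.card_le_card (Finset.erase_subset _ _)
            _ = k + 1 := Finset.card_range _
            _ ≤ K := hk
  -- the error
  have herr : ‖q k - S‖ * ρ ≤ 12.5 * K * Z^3 * τ := by
    have h1 := q_sum h k hk
    have h2 : (∑ i ∈ Finset.range k, (‖r (i+1)‖⁻¹ + ‖q i‖)) * ρ ≤ K * (12.5 * Z^3) := by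
      rw [Finset.sum_mul]
      calc ∑ i ∈ Finset.range k, (‖r (i+1)‖⁻¹ + ‖q i‖) * ρ
          ≤ (Finset.range k).card • (12.5 * Z^3) := by
            apply Finset.sum_le_card_nsmul
            intro i hi
            have hik : i < k := Finset.mem_range.1 hi
            have hr1 := hρ (i+1) hik
            have hri := hρ i hik.le
            have h3 := hratio (i+1) hik
            have h4 := hratio i hik.le
            have h5 := (hN i (by omega)).qr_le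
            have h6 : ‖r (i+1)‖⁻¹ * ρ ≤ 5 * Z^2 := by rw [inv_mul_le_iff₀ hr1]; linarith
            have h7 : ‖q i‖ * ρ ≤ 7.5 * Z^3 := by
              calc ‖q i‖ * ρ ≤ ‖q i‖ * (5 * Z^2 * ‖r i‖) := by gcongr
                _ = 5 * Z^2 * (‖q i‖ * ‖r i‖) := by ring
                _ ≤ 5 * Z^2 * (1.5 * Z) := by gcongr
                _ = 7.5 * Z^3 := by ring
            have h8 : Z^2 ≤ Z^3 := pow_le_pow_right₀ hZ (by norm_num)
            rw [add_mul]
            linarith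
        _ ≤ K * (12.5 * Z^3) := by
            rw [nsmul_eq_mul, Finset.card_range]
            gcongr
    calc ‖q k - S‖ * ρ ≤ (τ * ∑ i ∈ Finset.range k, (‖r (i+1)‖⁻¹ + ‖q i‖)) * ρ := by gcongr
      _ = τ * ((∑ i ∈ Finset.range k, (‖r (i+1)‖⁻¹ + ‖q i‖)) * ρ) := by ring
      _ ≤ τ * (K * (12.5 * Z^3)) := by gcongr
      _ = _ := by ring
  have herr2 : |⟪q k - S, r l⟫_ℝ| * ρ^2 ≤ 62.5 * K * Z^5 * τ * ‖r l‖ := by
    calc |⟪q k - S, r l⟫_ℝ| * ρ^2 ≤ (‖q k - S‖ * ‖r l‖) * ρ^2 := by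
          gcongr; exact abs_real_inner_le_norm _ _
      _ = (‖q k - S‖ * ρ) * ρ * ‖r l‖ := by ring
      _ ≤ (12.5 * K * Z^3 * τ) * (5 * Z^2) * ‖r l‖ := by gcongr
      _ = _ := by ring
  have e : ⟪q k, r l⟫_ℝ - 1 = (⟪S, r l⟫_ℝ - 1) + ⟪q k - S, r l⟫_ℝ := by
    rw [inner_sub_left]; ring
  rw [e]
  calc |(⟪S, r l⟫_ℝ - 1) + ⟪q k - S, r l⟫_ℝ| * ρ^2
      ≤ (|⟪S, r l⟫_ℝ - 1| + |⟪q k - S, r l⟫_ℝ|) * ρ^2 := by gcongr; exact abs_add_le _ _
    _ = |⟪S, r l⟫_ℝ - 1| * ρ^2 + |⟪q k - S, r l⟫_ℝ| * ρ^2 := by ring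
    _ ≤ K * (25 * Z^4 * (τ * B^k) * ‖r l‖) + 62.5 * K * Z^5 * τ * ‖r l‖ := by gcongr
    _ ≤ K * (25 * Z^5 * (τ * B^k) * ‖r l‖) + 62.5 * K * Z^5 * (τ * B^k) * ‖r l‖ := by
        have hZ45 : Z^4 ≤ Z^5 := pow_le_pow_right₀ hZ (by norm_num)
        gcongr
        nlinarith
    _ ≤ 88 * K * Z^5 * (τ * B^k) * ‖r l‖ := by
        have : 0 ≤ K * (Z^5 * (τ * B^k) * ‖r l‖) := by positivity
        nlinarith

lemma r_next (hZ : 1 ≤ Z) {k : ℕ} (hN : Nxt T τ Z r q a k) :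
    ‖r (k+1)‖ ≤ 2.75 * Z * ‖r k‖ := by
  have h1 := hN.rn
  have h2 := hN.aup
  have hα : √(a k) ^ 2 = a k := Real.sq_sqrt hN.apos.le
  refine h1.trans (abs_le_of_sq_le_sq' ?_ (by positivity)).2
  rw [mul_pow, hα]
  have h3 : Z * ‖r k‖^2 ≤ Z^2 * ‖r k‖^2 := by
    gcongr; nlinarith
  nlinarith [mul_nonneg (sq_nonneg Z) (sq_nonneg ‖r k‖)]

lemma glob_step (h : SRun T b τ K x r q a) (hZ : 1 ≤ Z) {B ε' : ℝ}
    (hB : B = 3500 * K * Z^7) (hε : 0 < ε')
    (hN : ∀ k < K, Nxt T τ Z r q a k) {k : ℕ} (hk : k < K)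
    (hrε : ε' ≤ ‖r k‖) (hS : 100000 * K * Z^7 * (τ * B^K) ≤ ε'^2)
    (hG : ∀ j ≤ k, Glob τ Z B r j) : Glob τ Z B r (k+1) := by
  have hτ := h.tau
  have hρ : ∀ j ≤ k, 0 < ‖r j‖ := fun j hj => norm_pos_iff.2 (h.rne j (by omega))
  have hK1 : (k : ℝ) + 1 ≤ K := by exact_mod_cast hk
  have hk0 : (0:ℝ) ≤ k := Nat.cast_nonneg k
  have hK1' : (1 : ℝ) ≤ K := by linarith
  have hr0 : ‖r 0‖ = 1 := by rw [h.r0, h.b1]
  have hZ7 : 1 ≤ Z^7 := one_le_pow₀ hZ
  have hB1 : 1 ≤ B := by rw [hB]; nlinarith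
  have hBk : 1 ≤ B^k := one_le_pow₀ hB1
  have hBkK : B^k ≤ B^K := pow_le_pow_right₀ hB1 hk.le
  have hth := theta h hZ hB1 hN hk hG
  set ρ := ‖r k‖ with hρdef
  have hρk : 0 < ρ := hρ k le_rfl
  have hratio : ∀ i ≤ k, ρ ≤ 5 * Z^2 * ‖r i‖ := fun i hi => (hG k le_rfl).1 i hi
  have hρZ : ρ ≤ 5 * Z^2 := by
    have := hratio 0 (Nat.zero_le _)
    rwa [hr0, mul_one] at this
  have hup : ∀ l ≤ k, ‖r l‖ ≤ 5 * Z^2 := by
    intro l hl
    have := (hG l hl).1 0 (Nat.zero_le _)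
    rwa [hr0, mul_one] at this
  have hNk := hN k hk
  have hkqr : ‖q k‖ * ρ ≤ 1.5 * Z := hNk.qr_le
  have hkaq : a k * ‖q k‖ ≤ 1.02 * Z * ρ := hNk.aq
  have hkup : a k ≤ 1.03 * Z * ρ^2 := hNk.aup
  have hkaT : a k * ‖T (q k)‖^2 ≤ 1.01 := hNk.aT
  -- inner products with q k are close to 1
  have hclose : ∀ l ≤ k, 0.99 ≤ ‖q k‖ * ‖r l‖ := by
    intro l hl
    have h1 := hth l hl
    have h2 : |⟪q k, r l⟫_ℝ - 1| * ρ^2 ≤ 0.01 * ρ^2 := by
      calc _ ≤ _ := h1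
        _ ≤ 88 * K * Z^5 * (τ * B^K) * (5 * Z^2) := by
            gcongr
            exact hup l hl
        _ = 0.0044 * (100000 * K * Z^7 * (τ * B^K)) := by ring
        _ ≤ 0.0044 * ε'^2 := by gcongr
        _ ≤ 0.01 * ρ^2 := by
            have : ε'^2 ≤ ρ^2 := pow_le_pow_left₀ hε.le hrε 2
            nlinarith [sq_nonneg ε']
    have h3 : |⟪q k, r l⟫_ℝ - 1| ≤ 0.01 := le_of_mul_le_mul_right h2 (by positivity)
    have h4 := (abs_le.1 h3).1
    have h5 : ⟪q k, r l⟫_ℝ ≤ ‖q k‖ * ‖r l‖ := real_inner_le_norm _ _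
    linarith
  have hrn := r_next hZ hNk
  constructor
  · intro l hl
    rcases Nat.lt_or_ge k l with h1 | h1
    · have : l = k + 1 := by omega
      rw [this]
      have : 1 ≤ 5 * Z^2 := by nlinarith
      nlinarith [norm_nonneg (r (k+1))]
    · have h2 := hclose l h1
      have h3 : 0.99 * ρ ≤ 1.5 * Z * ‖r l‖ := by
        calc 0.99 * ρ ≤ (‖q k‖ * ‖r l‖) * ρ := by gcongr
          _ = (‖q k‖ * ρ) * ‖r l‖ := by ring
          _ ≤ (1.5 * Z) * ‖r l‖ := by gcongr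
      calc ‖r (k+1)‖ ≤ 2.75 * Z * ρ := hrn
        _ ≤ 2.75 * Z * (1.52 * Z * ‖r l‖) := by
            gcongr
            nlinarith [mul_nonneg (le_trans zero_le_one hZ) (norm_nonneg (r l))]
        _ = 4.18 * (Z^2 * ‖r l‖) := by ring
        _ ≤ 5 * Z^2 * ‖r l‖ := by nlinarith [mul_nonneg (sq_nonneg Z) (norm_nonneg (r l))]
  · intro j hj
    have hjk : j ≤ k := by omega
    have hBs : B^(k+1) = 3500 * K * Z^7 * B^k := by rw [pow_succ, mul_comm (B^k) B, hB]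
    rcases Nat.eq_or_lt_of_le hjk with hjk' | hjk'
    · -- consecutive
      rw [hjk', real_inner_comm]
      have h1 := hNk.y
      have h2 := hNk.aup
      have ha := hNk.apos.le
      calc |⟪r (k+1), r k⟫_ℝ| ≤ (170 * k + 169) * (τ * Z) * a k := h1
        _ ≤ (170 * K) * (τ * Z) * (1.03 * Z * ρ^2) := by
            gcongr
            linarith
        _ = 175.1 * K * τ * Z^2 * ρ * ρ := by ring
        _ ≤ 175.1 * K * τ * Z^2 * (5 * Z^2) * ρ := by gcongr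
        _ = 875.5 * (K * τ * Z^4 * ρ) := by ring
        _ ≤ 3500 * (K * τ * Z^7 * ρ * B^k) := by
            have h3 : Z^4 ≤ Z^7 := pow_le_pow_right₀ hZ (by norm_num)
            have h4 : K * τ * Z^4 * ρ ≤ K * τ * Z^7 * ρ := by gcongr
            have h5 : 0 ≤ K * τ * Z^7 * ρ := by positivity
            nlinarith
        _ = τ * B^(k+1) * ρ := by rw [hBs]; ring
    · -- non consecutive
      have hj0 := hρ j hjk
      have hNj := hN j (by omega)
      have haj := hNj.apos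
      have hak := hNk.apos
      set X := K * Z^7 * (τ * B^k) with hX
      have hX0 : 0 ≤ X := by positivity
      have hτX : ∀ m ≤ 7, Z^m * τ ≤ X := by
        intro m hm
        have h1 : Z^m ≤ Z^7 := pow_le_pow_right₀ hZ hm
        have h2 : Z^m * τ ≤ Z^7 * τ := by gcongr
        have h3 : Z^7 * τ ≤ K * (Z^7 * τ) := by
          have : 0 ≤ Z^7 * τ := by positivity
          nlinarith
        have h4 : K * (Z^7 * τ) ≤ K * (Z^7 * τ) * B^k := by
          have : 0 ≤ K * (Z^7 * τ) := by positivity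
          nlinarith
        calc Z^m * τ ≤ K * (Z^7 * τ) * B^k := by linarith
          _ = X := by rw [hX]; ring
      -- bound for T (q k) against q i
      have hC2 : ∀ i < k, a i * |⟪q i, T (q k)⟫_ℝ| * ρ^2 ≤
          346 * (K * Z^6 * (τ * B^k)) * ‖r i‖ := by
        intro i hi
        have hNi := hN i (by omega)
        have hai := hNi.apos
        have h2 := h.h2 i (by omega)
        rw [abs_of_pos hai] at h2
        set e2 := r (i+1) - r i + a i • T (q i) with he2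
        have e1 : a i • T (q i) = r i - r (i+1) + e2 := by rw [he2]; abel
        have e3 : a i * ⟪q i, T (q k)⟫_ℝ = (⟪q k, r i⟫_ℝ - 1) - (⟪q k, r (i+1)⟫_ℝ - 1)
            + ⟪q k, e2⟫_ℝ := by
          rw [← h.sym, ← real_inner_smul_left, e1, inner_add_left, inner_sub_left,
            real_inner_comm (q k), real_inner_comm (q k) (r (i+1)), real_inner_comm (q k) e2]
          ring
        have he2n : ‖e2‖ ≤ 2.02 * Z * τ * ‖r i‖ := by
          have hiaq := hNi.aq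
          calc ‖e2‖ ≤ τ * (‖r i‖ + a i * ‖q i‖) := h2
            _ ≤ τ * (‖r i‖ + 1.02 * Z * ‖r i‖) := by gcongr
            _ ≤ τ * (Z * ‖r i‖ + 1.02 * Z * ‖r i‖) := by
                gcongr
                nlinarith [norm_nonneg (r i)]
            _ = 2.02 * Z * τ * ‖r i‖ := by ring
        have b1 := hth i (by omega)
        have b2 := hth (i+1) (by omega)
        have b3 : |⟪q k, e2⟫_ℝ| * ρ^2 ≤ 15.2 * (K * Z^6 * (τ * B^k)) * ‖r i‖ := by
          calc |⟪q k, e2⟫_ℝ| * ρ^2 ≤ (‖q k‖ * ‖e2‖) * ρ^2 := by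
                gcongr; exact abs_real_inner_le_norm _ _
            _ = (‖q k‖ * ρ) * ρ * ‖e2‖ := by ring
            _ ≤ (1.5 * Z) * (5 * Z^2) * (2.02 * Z * τ * ‖r i‖) := by
                gcongr
            _ = 15.15 * (Z^4 * τ * ‖r i‖) := by ring
            _ ≤ 15.2 * (K * Z^6 * (τ * B^k)) * ‖r i‖ := by
                have h3 : Z^4 ≤ Z^6 := pow_le_pow_right₀ hZ (by norm_num)
                have h4 : Z^4 * τ * ‖r i‖ ≤ Z^6 * τ * ‖r i‖ := by gcongr
                have h5 : 0 ≤ Z^6 * τ * ‖r i‖ := by positivity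
                have h6 : Z^6 * τ * ‖r i‖ ≤ K * (Z^6 * τ * ‖r i‖) * B^k := by
                  have : 0 ≤ K * (Z^6 * τ * ‖r i‖) := by positivity
                  nlinarith
                nlinarith
        have hri1 : ‖r (i+1)‖ ≤ 2.75 * Z * ‖r i‖ := r_next hZ hNi
        have b12 : |⟪q k, r i⟫_ℝ - 1| * ρ^2 + |⟪q k, r (i+1)⟫_ℝ - 1| * ρ^2 ≤
            330 * (K * Z^6 * (τ * B^k)) * ‖r i‖ := by
          calc _ ≤ 88 * K * Z^5 * (τ * B^k) * ‖r i‖ + 88 * K * Z^5 * (τ * B^k) * ‖r (i+1)‖ := by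
                gcongr
            _ ≤ 88 * K * Z^5 * (τ * B^k) * (Z * ‖r i‖) +
                88 * K * Z^5 * (τ * B^k) * (2.75 * Z * ‖r i‖) := by
                gcongr
                nlinarith [norm_nonneg (r i)]
            _ = 330 * (K * Z^6 * (τ * B^k)) * ‖r i‖ := by ring
        calc a i * |⟪q i, T (q k)⟫_ℝ| * ρ^2 = |a i * ⟪q i, T (q k)⟫_ℝ| * ρ^2 := by
              rw [abs_mul, abs_of_pos hai]
          _ ≤ (|⟪q k, r i⟫_ℝ - 1| + |⟪q k, r (i+1)⟫_ℝ - 1| + |⟪q k, e2⟫_ℝ|) * ρ^2 := by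
              rw [e3]
              gcongr
              refine (abs_add_le _ _).trans ?_
              gcongr
              exact abs_sub _ _
          _ = (|⟪q k, r i⟫_ℝ - 1| * ρ^2 + |⟪q k, r (i+1)⟫_ℝ - 1| * ρ^2)
              + |⟪q k, e2⟫_ℝ| * ρ^2 := by ring
          _ ≤ 330 * (K * Z^6 * (τ * B^k)) * ‖r i‖ + 15.2 * (K * Z^6 * (τ * B^k)) * ‖r i‖ := by
              gcongr
          _ ≤ 346 * (K * Z^6 * (τ * B^k)) * ‖r i‖ := by
              have : 0 ≤ (K * Z^6 * (τ * B^k)) * ‖r i‖ := by positivity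
              nlinarith
      have hC3 : ∀ i < k, a k * (a i * |⟪q i, T (q k)⟫_ℝ|) ≤ 357 * X * ‖r i‖ := by
        intro i hi
        have hai := (hN i (by omega)).apos
        have hC2i := hC2 i hi
        calc a k * (a i * |⟪q i, T (q k)⟫_ℝ|) ≤ (1.03 * Z * ρ^2) * (a i * |⟪q i, T (q k)⟫_ℝ|) := by
              gcongr
          _ = 1.03 * Z * (a i * |⟪q i, T (q k)⟫_ℝ| * ρ^2) := by ring
          _ ≤ 1.03 * Z * (346 * (K * Z^6 * (τ * B^k)) * ‖r i‖) := by
              gcongr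
          _ = 356.38 * X * ‖r i‖ := by rw [hX]; ring
          _ ≤ 357 * X * ‖r i‖ := by
              have : 0 ≤ X * ‖r i‖ := by positivity
              nlinarith
      -- term i = j
      have t1 : ‖r j‖^2 * (a k * |⟪q j, T (q k)⟫_ℝ|) ≤ 800 * X * ‖r j‖ := by
        have h1 := hC3 j hjk'
        have h2 : 0.45 * ‖r j‖^2 ≤ a j := hNj.alow
        have h3 : (‖r j‖^2 * (a k * |⟪q j, T (q k)⟫_ℝ|)) * 0.45 ≤ 357 * X * ‖r j‖ := by
          calc (‖r j‖^2 * (a k * |⟪q j, T (q k)⟫_ℝ|)) * 0.45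
              = (0.45 * ‖r j‖^2) * (a k * |⟪q j, T (q k)⟫_ℝ|) := by ring
            _ ≤ a j * (a k * |⟪q j, T (q k)⟫_ℝ|) := by gcongr
            _ = a k * (a j * |⟪q j, T (q k)⟫_ℝ|) := by ring
            _ ≤ _ := h1
        nlinarith [mul_nonneg hX0 hj0.le]
      -- the residual r j via q j
      have hej : ∃ g : E, r j = ‖r j‖^2 • (q j - g) ∧
          ‖r j‖^2 * (a k * |⟪g, T (q k)⟫_ℝ|) ≤ 1480 * X * ‖r j‖ := by
        have hinv : (‖r j‖^2) * (‖r j‖^2)⁻¹ = 1 := mul_inv_cancel₀ (by positivity)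
        rcases Nat.eq_zero_or_pos j with h0 | hjpos
        · refine ⟨0, ?_, ?_⟩
          · rw [h0, hr0, h.q0, h.r0]; simp
          · simp; positivity
        · obtain ⟨i, rfl⟩ : ∃ i, j = i + 1 := ⟨j - 1, by omega⟩
          refine ⟨q (i+1) - (‖r (i+1)‖^2)⁻¹ • r (i+1), ?_, ?_⟩
          · rw [sub_sub_cancel, smul_smul, hinv, one_smul]
          · have hNi := hN i (by omega)
            have hai := hNi.apos
            have h3 := h.h3 i (by omega) (h.rne (i+1) (by omega))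
            set e3 := q (i+1) - (‖r (i+1)‖^2)⁻¹ • r (i+1) - q i with he3
            have e : q (i+1) - (‖r (i+1)‖^2)⁻¹ • r (i+1) = q i + e3 := by rw [he3]; abel
            rw [e, inner_add_left]
            have c1 : ‖r (i+1)‖^2 * (a k * |⟪q i, T (q k)⟫_ℝ|) ≤ 1446 * X * ‖r (i+1)‖ := by
              have h1 := hC3 i (by omega)
              set α := √(a i) with hα
              have hα0 : 0 ≤ α := Real.sqrt_nonneg _
              have hαsq : α^2 = a i := Real.sq_sqrt hai.le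
              have hρα : ‖r i‖ ≤ 1.5 * α := by
                apply abs_le_of_sq_le_sq' _ (by positivity) |>.2
                have := hNi.alow
                rw [mul_pow, hαsq]
                linarith
              have hRρ : ‖r (i+1)‖ * ‖r i‖ ≤ 4.05 * a i := by
                calc ‖r (i+1)‖ * ‖r i‖ ≤ (2.7 * α) * (1.5 * α) := by
                      gcongr; exact hNi.rn
                  _ = 4.05 * α^2 := by ring
                  _ = 4.05 * a i := by rw [hαsq]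
              have h2 : (‖r (i+1)‖^2 * (a k * |⟪q i, T (q k)⟫_ℝ|)) * a i ≤
                  (1446 * X * ‖r (i+1)‖) * a i := by
                calc (‖r (i+1)‖^2 * (a k * |⟪q i, T (q k)⟫_ℝ|)) * a i
                    = ‖r (i+1)‖^2 * (a k * (a i * |⟪q i, T (q k)⟫_ℝ|)) := by ring
                  _ ≤ ‖r (i+1)‖^2 * (357 * X * ‖r i‖) := by gcongr
                  _ = 357 * X * ‖r (i+1)‖ * (‖r (i+1)‖ * ‖r i‖) := by ring
                  _ ≤ 357 * X * ‖r (i+1)‖ * (4.05 * a i) := by gcongr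
                  _ ≤ (1446 * X * ‖r (i+1)‖) * a i := by
                      have : 0 ≤ X * ‖r (i+1)‖ * a i := by positivity
                      nlinarith
              exact le_of_mul_le_mul_right h2 hai
            have c2 : ‖r (i+1)‖^2 * (a k * |⟪e3, T (q k)⟫_ℝ|) ≤ 26 * X * ‖r (i+1)‖ := by
              have h1 : ‖r (i+1)‖ * ‖e3‖ ≤ 5 * Z * τ := by
                have hiqrn := hNi.qrn
                calc ‖r (i+1)‖ * ‖e3‖ ≤ ‖r (i+1)‖ * (τ * (‖r (i+1)‖⁻¹ + ‖q i‖)) := by gcongr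
                  _ = τ * (‖r (i+1)‖ * ‖r (i+1)‖⁻¹ + ‖q i‖ * ‖r (i+1)‖) := by ring
                  _ = τ * (1 + ‖q i‖ * ‖r (i+1)‖) := by rw [mul_inv_cancel₀ hj0.ne']
                  _ ≤ τ * (Z + 4 * Z) := by
                      gcongr
                  _ = 5 * Z * τ := by ring
              have h4 : a k * ‖T (q k)‖ ≤ 5.2 * Z^3 := by
                apply abs_le_of_sq_le_sq' _ (by positivity) |>.2
                calc (a k * ‖T (q k)‖)^2 = a k * (a k * ‖T (q k)‖^2) := by ring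
                  _ ≤ (1.03 * Z * ρ^2) * 1.01 := by
                      gcongr
                  _ ≤ (1.03 * Z * (5 * Z^2)^2) * 1.01 := by gcongr
                  _ = 26.0075 * Z^5 := by ring
                  _ ≤ 26.0075 * Z^6 := by
                      have : Z^5 ≤ Z^6 := pow_le_pow_right₀ hZ (by norm_num)
                      gcongr
                  _ ≤ (5.2 * Z^3)^2 := by nlinarith [pow_nonneg (le_trans zero_le_one hZ) 6]
              calc ‖r (i+1)‖^2 * (a k * |⟪e3, T (q k)⟫_ℝ|)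
                  ≤ ‖r (i+1)‖^2 * (a k * (‖e3‖ * ‖T (q k)‖)) := by
                    gcongr; exact abs_real_inner_le_norm _ _
                _ = (‖r (i+1)‖ * ‖e3‖) * (a k * ‖T (q k)‖) * ‖r (i+1)‖ := by ring
                _ ≤ (5 * Z * τ) * (5.2 * Z^3) * ‖r (i+1)‖ := by gcongr
                _ = 26 * (Z^4 * τ) * ‖r (i+1)‖ := by ring
                _ ≤ 26 * X * ‖r (i+1)‖ := by
                    gcongr
                    exact hτX 4 (by norm_num)
            calc ‖r (i+1)‖^2 * (a k * |⟪q i, T (q k)⟫_ℝ + ⟪e3, T (q k)⟫_ℝ|)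
                ≤ ‖r (i+1)‖^2 * (a k * (|⟪q i, T (q k)⟫_ℝ| + |⟪e3, T (q k)⟫_ℝ|)) := by
                  gcongr; exact abs_add_le _ _
              _ = ‖r (i+1)‖^2 * (a k * |⟪q i, T (q k)⟫_ℝ|) +
                  ‖r (i+1)‖^2 * (a k * |⟪e3, T (q k)⟫_ℝ|) := by ring
              _ ≤ 1446 * X * ‖r (i+1)‖ + 26 * X * ‖r (i+1)‖ := by gcongr
              _ ≤ 1480 * X * ‖r (i+1)‖ := by
                  have : 0 ≤ X * ‖r (i+1)‖ := by positivity
                  nlinarith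
      obtain ⟨g, hgj, hgb⟩ := hej
      have h2 := h.h2 k hk
      rw [abs_of_pos hak] at h2
      set e2 := r (k+1) - r k + a k • T (q k) with he2
      have hr1 : r (k+1) = r k - a k • T (q k) + e2 := by rw [he2]; abel
      have he2n : |⟪r j, e2⟫_ℝ| ≤ 10.1 * X * ‖r j‖ := by
        calc |⟪r j, e2⟫_ℝ| ≤ ‖r j‖ * ‖e2‖ := abs_real_inner_le_norm _ _
          _ ≤ ‖r j‖ * (τ * (ρ + a k * ‖q k‖)) := by gcongr
          _ ≤ ‖r j‖ * (τ * (Z * ρ + 1.02 * Z * ρ)) := by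
              have hρZ1 : ρ ≤ Z * ρ := by nlinarith
              gcongr
          _ = 2.02 * (Z * τ) * ρ * ‖r j‖ := by ring
          _ ≤ 2.02 * (Z * τ) * (5 * Z^2) * ‖r j‖ := by gcongr
          _ = 10.1 * (Z^3 * τ) * ‖r j‖ := by ring
          _ ≤ 10.1 * X * ‖r j‖ := by
              gcongr
              exact hτX 3 (by norm_num)
      have e4 : ⟪r j, r (k+1)⟫_ℝ = ⟪r j, r k⟫_ℝ - ‖r j‖^2 * (a k * ⟪q j, T (q k)⟫_ℝ)
          + ‖r j‖^2 * (a k * ⟪g, T (q k)⟫_ℝ) + ⟪r j, e2⟫_ℝ := by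
        have e5 : ⟪r j, T (q k)⟫_ℝ = ‖r j‖^2 * (⟪q j, T (q k)⟫_ℝ - ⟪g, T (q k)⟫_ℝ) := by
          conv_lhs => rw [hgj]
          rw [real_inner_smul_left, inner_sub_left]
        rw [hr1, inner_add_right, inner_sub_right, real_inner_smul_right, e5]
        ring
      rw [e4]
      have f1 : |⟪r j, r k⟫_ℝ| ≤ X * ‖r j‖ := by
        have := (hG k le_rfl).2 j hjk'
        refine this.trans ?_
        gcongr
        rw [hX]
        have h5 : 1 ≤ K * Z^7 := by nlinarith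
        have h6 : 0 ≤ τ * B^k := by positivity
        nlinarith
      have f2 : |‖r j‖^2 * (a k * ⟪q j, T (q k)⟫_ℝ)| ≤ 800 * X * ‖r j‖ := by
        rw [abs_mul, abs_mul, abs_of_pos hak, abs_of_nonneg (sq_nonneg _)]
        exact t1
      have f3 : |‖r j‖^2 * (a k * ⟪g, T (q k)⟫_ℝ)| ≤ 1480 * X * ‖r j‖ := by
        rw [abs_mul, abs_mul, abs_of_pos hak, abs_of_nonneg (sq_nonneg _)]
        exact hgb
      calc |⟪r j, r k⟫_ℝ - ‖r j‖^2 * (a k * ⟪q j, T (q k)⟫_ℝ)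
          + ‖r j‖^2 * (a k * ⟪g, T (q k)⟫_ℝ) + ⟪r j, e2⟫_ℝ|
          ≤ |⟪r j, r k⟫_ℝ - ‖r j‖^2 * (a k * ⟪q j, T (q k)⟫_ℝ)| +
            |‖r j‖^2 * (a k * ⟪g, T (q k)⟫_ℝ)| + |⟪r j, e2⟫_ℝ| := abs_add_three _ _ _
        _ ≤ (|⟪r j, r k⟫_ℝ| + |‖r j‖^2 * (a k * ⟪q j, T (q k)⟫_ℝ)|) +
            |‖r j‖^2 * (a k * ⟪g, T (q k)⟫_ℝ)| + |⟪r j, e2⟫_ℝ| := by
            gcongr; exact abs_sub _ _
        _ ≤ (X * ‖r j‖ + 800 * X * ‖r j‖) + 1480 * X * ‖r j‖ + 10.1 * X * ‖r j‖ := by gcongr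
        _ ≤ 3500 * X * ‖r j‖ := by
            have : 0 ≤ X * ‖r j‖ := by positivity
            nlinarith
        _ = τ * B^(k+1) * ‖r j‖ := by rw [hBs, hX]; ring

/-- All residuals of a run are nearly orthogonal. -/
theorem glob_all (h : SRun T b τ K x r q a) (hZ : 1 ≤ Z) {B ε' : ℝ}
    (hB : B = 3500 * K * Z^7) (hε : 0 < ε')
    (hN : ∀ k < K, Nxt T τ Z r q a k)
    (hrε : ∀ k ≤ K, ε' ≤ ‖r k‖) (hS : 100000 * K * Z^7 * (τ * B^K) ≤ ε'^2) :
    ∀ k ≤ K, Glob τ Z B r k := by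
  intro k
  induction k using Nat.strong_induction_on with
  | _ k ih =>
    intro hk
    rcases Nat.eq_zero_or_pos k with h0 | hpos
    · subst h0
      constructor
      · intro i hi
        have : i = 0 := by omega
        subst this
        have : 1 ≤ 5 * Z^2 := by nlinarith
        nlinarith [norm_nonneg (r 0)]
      · intro i hi; omega
    · obtain ⟨m, rfl⟩ : ∃ m, k = m + 1 := ⟨k - 1, by omega⟩
      exact glob_step h hZ hB hε hN (by omega) (hrε m (by omega)) hS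
        (fun j hj => ih j (by omega) (by omega))

/-- No run of full length keeps all its residuals away from zero. -/
theorem no_full_run [FiniteDimensional ℝ E] (h : SRun T b τ K x r q a) (hZ : 1 ≤ Z) {B ε' : ℝ}
    (hB : B = 3500 * K * Z^7) (hε : 0 < ε') (hε1 : ε' ≤ 1)
    (hK : Module.finrank ℝ E ≤ K) (hK1 : 1 ≤ K)
    (hN : ∀ k < K, Nxt T τ Z r q a k)
    (hrε : ∀ k ≤ K, ε' ≤ ‖r k‖) (hS : 100000 * K * Z^7 * (τ * B^K) ≤ ε'^2) : False := by
  have hG := glob_all h hZ hB hε hN hrε hS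
  have hτ := h.tau
  have hK1' : (1 : ℝ) ≤ K := by exact_mod_cast hK1
  have hZ7 : 1 ≤ Z^7 := one_le_pow₀ hZ
  have hB1 : 1 ≤ B := by rw [hB]; nlinarith
  have hBK : 1 ≤ B^K := one_le_pow₀ hB1
  set c := τ * B^K / ε' with hc
  have hc0 : 0 ≤ c := by positivity
  have hli : LinearIndependent ℝ (fun i : Fin (K+1) => r i) := by
    apply linIndep_of_near (c := c)
    · have h1 : 100000 * K * (τ * B^K) ≤ ε'^2 := by
        refine le_trans ?_ hS
        have : 0 ≤ τ * B^K := by positivity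
        have h5 : 100000 * (K:ℝ) ≤ 100000 * K * Z^7 := by nlinarith
        gcongr
      have h2 : c * ε' = τ * B^K := by rw [hc]; field_simp
      push_cast
      have h3 : 100000 * K * c ≤ 1 := by
        have : (100000 * K * c) * ε' ≤ 1 * ε' := by
          calc (100000 * K * c) * ε' = 100000 * K * (τ * B^K) := by rw [← h2]; ring
            _ ≤ ε'^2 := h1
            _ ≤ 1 * ε' := by nlinarith
        exact le_of_mul_le_mul_right this hε
      nlinarith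
    · intro i
      have := hrε i (Nat.lt_succ_iff.1 i.2)
      exact norm_pos_iff.1 (lt_of_lt_of_le hε this)
    · have key : ∀ i j : Fin (K+1), i < j → |⟪r i, r j⟫_ℝ| ≤ c * (‖r i‖ * ‖r j‖) := by
        intro i j hij
        have h1 := (hG j (Nat.lt_succ_iff.1 j.2)).2 i hij
        have h2 : B^(j:ℕ) ≤ B^K := pow_le_pow_right₀ hB1 (Nat.lt_succ_iff.1 j.2)
        have h3 := hrε j (Nat.lt_succ_iff.1 j.2)
        calc |⟪r i, r j⟫_ℝ| ≤ τ * B^(j:ℕ) * ‖r i‖ := h1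
          _ ≤ τ * B^K * ‖r i‖ := by gcongr
          _ = c * (‖r i‖ * ε') := by rw [hc]; field_simp
          _ ≤ c * (‖r i‖ * ‖r j‖) := by gcongr
      intro i j hij
      rcases lt_or_gt_of_ne hij with h1 | h1
      · exact key i j h1
      · rw [real_inner_comm, mul_comm ‖r i‖]
        exact key j i h1
  have := hli.fintype_card_le_finrank
  simp at this
  omega

end Pool.Agent.Helper643.CG
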