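import Mathlib
import Pool.Agent.Helper643.CGLocal

namespace Pool.Agent.Helper643.CG

open scoped InnerProductSpace

variable {E : Type*} [NormedAddCommGroup E] [InnerProductSpace ℝ E]
variable {T : E →ₗ[ℝ] E} {b : E} {τ : ℝ} {K : ℕ} {x r q : ℕ → E} {a : ℕ → ℝ}

/-- With a lower bound `T ≥ 1/κ`, the step bound holds with `Z = 2κ`. -/
lemma kappa_step (h : SRun T b τ K x r q a) {κ : ℝ} (hκ : 1 ≤ κ)
    (hlow : ∀ y, ‖y‖^2 ≤ κ * ⟪y, T y⟫_ℝ) (hτκ : 1000 * (τ * κ) ≤ 1) {k : ℕ} (hk : k < K) :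
    |a k| * ‖q k‖^2 ≤ 2 * κ := by
  have hτ := h.tau
  have h4 := h.h4 k hk
  have h1 := hlow (q k)
  have hV0 := h.pos (q k)
  set V := ⟪q k, T (q k)⟫_ℝ
  set y := |a k| * ‖q k‖^2 with hy
  have hy0 : 0 ≤ y := by positivity
  have h7 : |a k| * V = |a k * V| := by rw [abs_mul, abs_of_nonneg hV0]
  have h8 : |a k * V| ≤ |a k * V - 1| + 1 := by
    have := abs_add_le (a k * V - 1) 1
    simpa using this
  have h9 : y ≤ κ * (1 + τ * (1 + y)) := by
    calc y ≤ |a k| * (κ * V) := by rw [hy]; gcongr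
      _ = κ * (|a k| * V) := by ring
      _ ≤ κ * (1 + τ * (1 + y)) := by
          gcongr
          linarith
  nlinarith

/-- Crude bounds for iterates and the residual gap, from the local facts only. -/
lemma crude (h : SRun T b τ K x r q a) {Z : ℝ} (hZ : 1 ≤ Z) (hτ1 : 1000 * τ ≤ 1)
    (hN : ∀ k < K, Nxt T τ Z r q a k) (k : ℕ) (hk : k ≤ K) :
    ‖r k‖ ≤ (8 * Z)^k ∧ ‖x k‖ ≤ (8 * Z)^k ∧
      ‖(b - T (x k)) - r k‖ ≤ k * (τ * (8 * Z)^K) := by
  have hτ := h.tau
  have hZ8 : 1 ≤ 8 * Z := by linarith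
  induction k with
  | zero =>
    refine ⟨?_, ?_, ?_⟩
    · rw [h.r0, h.b1]; simp
    · rw [h.x0]; simp
    · rw [h.x0, h.r0]; simp
  | succ k ih =>
    obtain ⟨i1, i2, i3⟩ := ih (by omega)
    have hNk := hN k (by omega)
    have hapos := hNk.apos
    have habs : |a k| = a k := abs_of_pos hapos
    have h1 := h.h1 k (by omega)
    have h2 := h.h2 k (by omega)
    rw [habs] at h1 h2
    set M := (8 * Z)^k with hM
    have hM1 : 1 ≤ M := one_le_pow₀ hZ8
    have hMs : (8 * Z)^(k+1) = 8 * Z * M := by rw [pow_succ, hM]; ring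
    have haq : a k * ‖q k‖ ≤ 1.02 * Z * M := by
      calc a k * ‖q k‖ ≤ 1.02 * Z * ‖r k‖ := hNk.aq
        _ ≤ 1.02 * Z * M := by gcongr
    have hZM : 1 ≤ Z * M := by nlinarith
    have hMZM : M ≤ Z * M := by nlinarith
    have hrn : ‖r (k+1)‖ ≤ 2.75 * Z * M := by
      have h3 := hNk.rn
      have h4 := hNk.aup
      have hα : √(a k) ^ 2 = a k := Real.sq_sqrt hapos.le
      refine h3.trans (abs_le_of_sq_le_sq' ?_ (by positivity)).2
      rw [mul_pow, hα]
      have h5 : Z * ‖r k‖^2 ≤ Z^2 * M^2 := by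
        calc Z * ‖r k‖^2 ≤ Z^2 * ‖r k‖^2 := by
              gcongr
              nlinarith
          _ ≤ Z^2 * M^2 := by gcongr
      nlinarith [mul_nonneg (sq_nonneg Z) (sq_nonneg M)]
    set e1 := x (k+1) - x k - a k • q k with he1
    set e2 := r (k+1) - r k + a k • T (q k) with he2
    have hx1 : x (k+1) = x k + a k • q k + e1 := by rw [he1]; abel
    have hr1 : r (k+1) = r k - a k • T (q k) + e2 := by rw [he2]; abel
    have he1n : ‖e1‖ ≤ τ * (M + 1.02 * Z * M) := by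
      refine h1.trans ?_
      gcongr
    have he2n : ‖e2‖ ≤ τ * (M + 1.02 * Z * M) := by
      refine h2.trans ?_
      gcongr
    have hτM : τ * (M + 1.02 * Z * M) ≤ 0.01 * (Z * M) := by
      calc τ * (M + 1.02 * Z * M) ≤ τ * (2.02 * (Z * M)) := by
            gcongr
            linarith
        _ ≤ 0.001 * (2.02 * (Z * M)) := by
            gcongr
            linarith
        _ ≤ 0.01 * (Z * M) := by linarith
    refine ⟨?_, ?_, ?_⟩
    · rw [hMs]; linarith
    · rw [hMs, hx1]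
      calc ‖x k + a k • q k + e1‖ ≤ ‖x k‖ + ‖a k • q k‖ + ‖e1‖ := norm_add₃_le
        _ ≤ M + 1.02 * Z * M + 0.01 * (Z * M) := by
            rw [norm_smul, Real.norm_eq_abs, habs]
            linarith
        _ ≤ 8 * Z * M := by linarith
    · have e : (b - T (x (k+1))) - r (k+1) = ((b - T (x k)) - r k) - T e1 - e2 := by
        rw [hx1, hr1, map_add, map_add, map_smul]; abel
      rw [e]
      have h5 : (8 * Z)^(k+1) ≤ (8 * Z)^K := pow_le_pow_right₀ hZ8 hk
      rw [hMs] at h5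
      have h6 : τ * (M + 1.02 * Z * M) + τ * (M + 1.02 * Z * M) ≤ τ * (8 * Z)^K := by
        calc _ = τ * (2 * M + 2.04 * (Z * M)) := by ring
          _ ≤ τ * (8 * Z * M) := by
              gcongr
              linarith
          _ ≤ τ * (8 * Z)^K := by gcongr
      calc ‖((b - T (x k)) - r k) - T e1 - e2‖ ≤ ‖((b - T (x k)) - r k) - T e1‖ + ‖e2‖ :=
            norm_sub_le _ _
        _ ≤ ‖(b - T (x k)) - r k‖ + ‖T e1‖ + ‖e2‖ := by gcongr; exact norm_sub_le _ _
        _ ≤ k * (τ * (8 * Z)^K) + τ * (M + 1.02 * Z * M) + τ * (M + 1.02 * Z * M) := by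
            have h8 := (h.one e1).trans he1n
            gcongr
        _ ≤ k * (τ * (8 * Z)^K) + τ * (8 * Z)^K := by linarith
        _ = ((k + 1 : ℕ) : ℝ) * (τ * (8 * Z)^K) := by push_cast; ring

end Pool.Agent.Helper643.CG
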