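import Mathlib
import Pool.Agent.Helper643.CGGlobal
import Pool.Agent.Helper643.CGEnergy
import Pool.Agent.Helper643.CGKappa

namespace Pool.Agent.Helper643.CG

open scoped InnerProductSpace

variable {E : Type*} [NormedAddCommGroup E] [InnerProductSpace ℝ E]
variable {T : E →ₗ[ℝ] E} {b : E} {τ : ℝ} {K : ℕ} {x r q : ℕ → E} {a : ℕ → ℝ}

/-- In a run all of whose iterates have large backward error, the last residual is nonzero. -/
theorem eps_last (h : SRun T b τ K x r q a) {ε : ℝ} (hε : 0 < ε) (hε1 : ε ≤ 1)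
    (hτ9 : 10^9 * ((K + 1) * τ) ≤ ε^12)
    (hη : ∀ k ≤ K, ε * (‖x k‖ + 1) < ‖b - T (x k)‖) :
    (∀ k ≤ K, ε / 2 ≤ ‖r k‖) ∧ (∀ k < K, |a k| * ‖q k‖^2 ≤ 200 / ε^6) := by
  constructor
  · intro k hk
    have hI := inv_all h hε hε1 hτ9 hη k hk
    have h1 := (inv_facts h hε hε1 hτ9 hk (hη k hk) hI).2.1
    have h2 : 1 ≤ ‖x k‖ + 1 := by linarith [norm_nonneg (x k)]
    nlinarith
  · exact (inv_all h hε hε1 hτ9 hη K le_rfl).i

/-- The long-run case. -/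
theorem upper_large (h : SRun T b τ K x r q a) {ε : ℝ} (hε : 0 < ε) (hε1 : ε ≤ 1)
    (hτ9 : 10^9 * ((K + 1) * τ) ≤ ε^12)
    (hη : ∀ k ≤ K, ε * (‖x k‖ + 1) < ‖b - T (x k)‖) :
    0.99 ≤ ‖q K‖ * ‖r K‖ ∧ K * ε^4 ≤ 80 := by
  have hτ := h.tau
  refine ⟨?_, steps_le h hε hε1 hτ9 hη⟩
  obtain ⟨hr, hz⟩ := eps_last h hε hε1 hτ9 hη
  have hε6 : ε^12 ≤ ε^6 := pow_le_pow_of_le_one hε.le hε1 (by norm_num)
  have hε61 : ε^6 ≤ 1 := pow_le_one₀ hε.le hε1
  have hK0 : (0:ℝ) ≤ K := Nat.cast_nonneg K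
  have hZ : 1 ≤ 200 / ε^6 := by
    rw [le_div_iff₀ (by positivity)]
    linarith
  have hs : 100000 * (K * (τ * (200 / ε^6))) ≤ 1 := by
    have e : 100000 * ((K:ℝ) * (τ * (200 / ε^6))) = (2 * 10^7) * (K * τ) / ε^6 := by ring
    rw [e, div_le_iff₀ (by positivity), one_mul]
    have h1 : 0 ≤ (K:ℝ) * τ := by positivity
    linarith
  have hrK : r K ≠ 0 := by
    have := hr K le_rfl
    exact norm_pos_iff.1 (by linarith)
  have hL := loc_all h hZ hs K le_rfl hrK hz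
  have h1 := (abs_le.1 hL.A).1
  have h2 : ⟪q K, r K⟫_ℝ ≤ ‖q K‖ * ‖r K‖ := real_inner_le_norm _ _
  linarith

/-- The common conclusion: the last direction is nonzero and the run is not of full length. -/
theorem conclude [FiniteDimensional ℝ E] (h : SRun T b τ K x r q a) {ε Z : ℝ} {n : ℕ}
    (hε : 0 < ε) (hε1 : ε ≤ 1) (hZ : 1 ≤ Z) (hKn : K ≤ n) (hn : 1 ≤ n)
    (hfin : Module.finrank ℝ E = n)
    (hMC : 400000 * (τ * (4000 * n * Z^7)^(n+1)) ≤ ε^2)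
    (hr : ∀ k ≤ K, ε / 2 ≤ ‖r k‖) (hz : ∀ k < K, |a k| * ‖q k‖^2 ≤ Z) :
    0.99 ≤ ‖q K‖ * ‖r K‖ ∧ K < n := by
  have hτ := h.tau
  have hn1 : (1:ℝ) ≤ n := by exact_mod_cast hn
  have hKn' : (K:ℝ) ≤ n := by exact_mod_cast hKn
  have hZ7 : 1 ≤ Z^7 := one_le_pow₀ hZ
  set W := 4000 * (n:ℝ) * Z^7 with hW
  have hnZ : (n:ℝ) ≤ n * Z^7 := le_mul_of_one_le_right (by positivity) hZ7
  have hW1 : 4000 ≤ W := by rw [hW]; linarith
  have hWn : (n:ℝ) * Z ≤ W := by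
    have h1 : Z ≤ Z^7 := by
      calc Z = Z^1 := (pow_one Z).symm
        _ ≤ Z^7 := pow_le_pow_right₀ hZ (by norm_num)
    have h2 : (n:ℝ) * Z ≤ n * Z^7 := by gcongr
    have h3 : 0 ≤ (n:ℝ) * Z^7 := by positivity
    rw [hW]; linarith
  have hWW : W ≤ W^(n+1) := by
    calc W = W^1 := (pow_one W).symm
      _ ≤ W^(n+1) := pow_le_pow_right₀ (by linarith) (by omega)
  have hε2 : ε^2 ≤ 1 := pow_le_one₀ hε.le hε1
  have hs : 100000 * (K * (τ * Z)) ≤ 1 := by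
    have h1 : (K:ℝ) * (τ * Z) ≤ τ * W^(n+1) := by
      calc (K:ℝ) * (τ * Z) ≤ n * (τ * Z) := by gcongr
        _ = τ * (n * Z) := by ring
        _ ≤ τ * W^(n+1) := by gcongr; exact hWn.trans hWW
    have h0 : 0 ≤ τ * W^(n+1) := by positivity
    linarith
  have hrK : r K ≠ 0 := by
    have := hr K le_rfl
    exact norm_pos_iff.1 (by linarith)
  have hL := loc_all h hZ hs K le_rfl hrK hz
  refine ⟨?_, ?_⟩
  · have h1 := (abs_le.1 hL.A).1
    have h2 : ⟪q K, r K⟫_ℝ ≤ ‖q K‖ * ‖r K‖ := real_inner_le_norm _ _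
    linarith
  · by_contra hcon
    have hKe : K = n := by omega
    have hN : ∀ k < K, Nxt T τ Z r q a k := fun k hk =>
      nxt_all h hZ hs k hk (fun j hj => hz j (by omega))
    refine no_full_run h hZ (B := 3500 * K * Z^7) rfl (ε' := ε / 2) (by positivity) (by linarith)
      (by omega) (by omega) hN hr ?_
    have h1 : (3500 * (K:ℝ) * Z^7)^K ≤ W^K := by
      rw [hW, hKe]
      gcongr
      norm_num
    have h2 : (K:ℝ) * Z^7 ≤ W := by
      rw [hW, hKe]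
      have h3 : 0 ≤ (n:ℝ) * Z^7 := by positivity
      linarith
    calc 100000 * (K:ℝ) * Z^7 * (τ * (3500 * K * Z^7)^K)
        = 100000 * (τ * ((K * Z^7) * (3500 * K * Z^7)^K)) := by ring
      _ ≤ 100000 * (τ * (W * W^K)) := by gcongr
      _ = 100000 * (τ * W^(n+1)) := by rw [hKe]; ring
      _ ≤ (ε / 2)^2 := by
          have : (ε/2)^2 = ε^2 / 4 := by ring
          rw [this]; linarith

/-- Backward-error case: `Z = 200 / ε ^ 6`. -/
theorem upper_eps [FiniteDimensional ℝ E] (h : SRun T b τ K x r q a) {ε : ℝ} {n : ℕ}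
    (hε : 0 < ε) (hε1 : ε ≤ 1) (hKn : K ≤ n) (hn : 1 ≤ n)
    (hfin : Module.finrank ℝ E = n)
    (hMC : 400000 * (τ * (4000 * n * (200 / ε^6)^7)^(n+1)) ≤ ε^2)
    (hη : ∀ k ≤ K, ε * (‖x k‖ + 1) < ‖b - T (x k)‖) :
    0.99 ≤ ‖q K‖ * ‖r K‖ ∧ K < n := by
  have hτ := h.tau
  have hn1 : (1:ℝ) ≤ n := by exact_mod_cast hn
  have hKn' : (K:ℝ) ≤ n := by exact_mod_cast hKn
  set Z := 200 / ε^6 with hZdef
  have hZε : Z * ε^6 = 200 := by rw [hZdef]; field_simp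
  have hZ200 : 200 ≤ Z := by
    rw [hZdef, le_div_iff₀ (by positivity)]
    have : ε^6 ≤ 1 := pow_le_one₀ hε.le hε1
    linarith
  have hZ : 1 ≤ Z := by linarith
  have hZ7 : 1 ≤ Z^7 := one_le_pow₀ hZ
  have hε2 : ε^2 ≤ 1 := pow_le_one₀ hε.le hε1
  have hτ9 : 10^9 * ((K + 1) * τ) ≤ ε^12 := by
    set W := 4000 * (n:ℝ) * Z^7 with hW
    have h1 : ((K:ℝ) + 1) * Z^2 ≤ W := by
      have h2 : Z^2 ≤ Z^7 := pow_le_pow_right₀ hZ (by norm_num)
      calc ((K:ℝ) + 1) * Z^2 ≤ (n + n) * Z^7 := by gcongr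
        _ = 2 * (n * Z^7) := by ring
        _ ≤ W := by
            have h3 : 0 ≤ (n:ℝ) * Z^7 := by positivity
            rw [hW]; linarith
    have hW1 : 1 ≤ W := by
      have h3 : 1 ≤ (n:ℝ) * Z^7 := by nlinarith
      rw [hW]; linarith
    have h4 : ((K:ℝ) + 1) * Z^2 ≤ W^(n+1) := by
      refine h1.trans ?_
      calc W = W^1 := (pow_one W).symm
        _ ≤ W^(n+1) := pow_le_pow_right₀ hW1 (by omega)
    have h5 : 400000 * (τ * (((K:ℝ) + 1) * Z^2)) ≤ 1 := by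
      calc 400000 * (τ * (((K:ℝ) + 1) * Z^2)) ≤ 400000 * (τ * W^(n+1)) := by gcongr
        _ ≤ ε^2 := hMC
        _ ≤ 1 := hε2
    have h6 : Z^2 * ε^12 = 40000 := by
      calc Z^2 * ε^12 = (Z * ε^6)^2 := by ring
        _ = 40000 := by rw [hZε]; norm_num
    have h7 : 400000 * (τ * (((K:ℝ) + 1) * Z^2)) * ε^12 ≤ 1 * ε^12 := by gcongr
    have h8 : 400000 * (τ * (((K:ℝ) + 1) * Z^2)) * ε^12 = 16 * 10^9 * ((K + 1) * τ) := by
      calc 400000 * (τ * (((K:ℝ) + 1) * Z^2)) * ε^12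
          = 400000 * (τ * ((K:ℝ) + 1)) * (Z^2 * ε^12) := by ring
        _ = _ := by rw [h6]; ring
    have h9 : 0 ≤ ((K:ℝ) + 1) * τ := by positivity
    linarith
  obtain ⟨hr, hz⟩ := eps_last h hε hε1 hτ9 hη
  exact conclude h hε hε1 hZ hKn hn hfin hMC hr hz

/-- Condition-number case: `Z = 200 κ ^ 6`. -/
theorem upper_kap [FiniteDimensional ℝ E] (h : SRun T b τ K x r q a) {ε κ : ℝ} {n : ℕ}
    (hε : 0 < ε) (hε1 : ε ≤ 1) (hκ : 1 ≤ κ) (hlow : ∀ y, ‖y‖^2 ≤ κ * ⟪y, T y⟫_ℝ)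
    (hKn : K ≤ n) (hn : 1 ≤ n) (hfin : Module.finrank ℝ E = n)
    (hMC : 400000 * (τ * (4000 * n * (200 * κ^6)^7)^(n+1)) ≤ ε^2)
    (hη : ∀ k ≤ K, ε * (‖x k‖ + 1) < ‖b - T (x k)‖) :
    0.99 ≤ ‖q K‖ * ‖r K‖ ∧ K < n := by
  have hτ := h.tau
  have hn1 : (1:ℝ) ≤ n := by exact_mod_cast hn
  have hKn' : (K:ℝ) ≤ n := by exact_mod_cast hKn
  set Z := 200 * κ^6 with hZdef
  have hκ6 : κ ≤ κ^6 := by
    calc κ = κ^1 := (pow_one κ).symm
      _ ≤ κ^6 := pow_le_pow_right₀ hκ (by norm_num)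
  have hZκ : 200 * κ ≤ Z := by rw [hZdef]; linarith
  have hZ : 1 ≤ Z := by linarith
  have hZ7 : 1 ≤ Z^7 := one_le_pow₀ hZ
  have hε2 : ε^2 ≤ 1 := pow_le_one₀ hε.le hε1
  have hεε : ε^2 ≤ ε := by nlinarith
  set W := 4000 * (n:ℝ) * Z^7 with hW
  have hZZ7 : Z ≤ Z^7 := by
    calc Z = Z^1 := (pow_one Z).symm
      _ ≤ Z^7 := pow_le_pow_right₀ hZ (by norm_num)
  have hnZ : Z^7 ≤ n * Z^7 := le_mul_of_one_le_left (by positivity) hn1
  have h8Z : 8 * Z ≤ W := by rw [hW]; linarith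
  have hnn : (n:ℝ) ≤ n * Z^7 := le_mul_of_one_le_right (by positivity) hZ7
  have hW1 : 1 ≤ W := by linarith
  have hnW : (n:ℝ) ≤ W := by rw [hW]; linarith
  have hWn : W^n ≤ W^(n+1) := pow_le_pow_right₀ hW1 (by omega)
  have hWW : W ≤ W^(n+1) := by
    calc W = W^1 := (pow_one W).symm
      _ ≤ W^(n+1) := pow_le_pow_right₀ hW1 (by omega)
  have hMW0 : 0 ≤ τ * W^(n+1) := by positivity
  have hτκ : 1000 * (τ * κ) ≤ 1 := by
    have h1 : τ * κ ≤ τ * W^(n+1) := by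
      gcongr
      linarith
    linarith
  have hz : ∀ k < K, |a k| * ‖q k‖^2 ≤ Z := fun k hk =>
    (kappa_step h hκ hlow hτκ hk).trans (by linarith)
  have hτ1 : 1000 * τ ≤ 1 := by
    have h1 : τ * 1 ≤ τ * κ := by gcongr
    linarith
  have hs : 100000 * (K * (τ * Z)) ≤ 1 := by
    have h1 : (K:ℝ) * (τ * Z) ≤ τ * W^(n+1) := by
      calc (K:ℝ) * (τ * Z) ≤ n * (τ * Z) := by gcongr
        _ = τ * (n * Z) := by ring
        _ ≤ τ * W^(n+1) := by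
            gcongr
            refine le_trans ?_ hWW
            have h3 : (n:ℝ) * Z ≤ n * Z^7 := by gcongr
            have h4 : 0 ≤ (n:ℝ) * Z^7 := by positivity
            rw [hW]; linarith
    linarith
  have hN : ∀ k < K, Nxt T τ Z r q a k := fun k hk =>
    nxt_all h hZ hs k hk (fun j hj => hz j (by omega))
  have hr : ∀ k ≤ K, ε / 2 ≤ ‖r k‖ := by
    intro k hk
    have h1 := (crude h hZ hτ1 hN k hk).2.2
    have hkn : (k:ℝ) ≤ n := by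
      have : k ≤ n := by omega
      exact_mod_cast this
    have h2 : (k:ℝ) * (τ * (8 * Z)^K) ≤ ε / 2 := by
      calc (k:ℝ) * (τ * (8 * Z)^K) ≤ W * (τ * W^n) := by
            have h3 : (8 * Z)^K ≤ W^n := by
              calc (8 * Z)^K ≤ W^K := by gcongr
                _ ≤ W^n := pow_le_pow_right₀ hW1 hKn
            have h4 : (k:ℝ) ≤ W := hkn.trans hnW
            gcongr
        _ = τ * W^(n+1) := by ring
        _ ≤ ε / 2 := by linarith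
    have h3 : ‖b - T (x k)‖ ≤ ‖(b - T (x k)) - r k‖ + ‖r k‖ := by
      have := norm_add_le ((b - T (x k)) - r k) (r k)
      simpa using this
    have h4 := hη k hk
    have h5 : ε ≤ ε * (‖x k‖ + 1) := by
      have := norm_nonneg (x k)
      nlinarith
    linarith
  exact conclude h hε hε1 hZ hKn hn hfin hMC hr hz

end Pool.Agent.Helper643.CG
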