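import Mathlib
import Pool.Agent.Helper643.CGSharpE
import Pool.Agent.Helper643.CGUpper
import Pool.Agent.Helper643.CGOrth

/-!
Crude a priori bounds for runs with large backward error.
-/

namespace Pool.Agent.Helper643.CG

open scoped InnerProductSpace

variable {E : Type*} [NormedAddCommGroup E] [InnerProductSpace ℝ E]
variable {T : E →ₗ[ℝ] E} {b : E} {τ : ℝ} {K : ℕ} {x r q : ℕ → E} {a : ℕ → ℝ}

/-- The facts needed about a run all of whose iterates have large backward error. -/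
structure BigRun (T : E →ₗ[ℝ] E) (b : E) (τ ε : ℝ) (K : ℕ) (x r q : ℕ → E) (a : ℕ → ℝ) : Prop where
  run : SRun T b τ K x r q a
  ε0 : 0 < ε
  ε1 : ε ≤ 1
  hτ : 10^9 * ((K + 1) * τ) ≤ ε^12
  big : ∀ k ≤ K, ε * (‖x k‖ + 1) < ‖b - T (x k)‖


lemma BigRun.nxt {ε : ℝ} (h : BigRun T b τ ε K x r q a) :
    1 ≤ 200 / ε^6 ∧ (∀ k < K, Nxt T τ (200 / ε^6) r q a k) ∧
    (∀ k ≤ K, ε^2 * (‖x k‖ + 1) ≤ 8 ∧ ε / 2 * (‖x k‖ + 1) ≤ ‖r k‖ ∧ ‖r k‖ ≤ 8.08 / ε^2) ∧
    (∀ k ≤ K, |⟪q k, r k⟫_ℝ - 1| ≤ 10 * k * (τ * (200 / ε^6))) ∧ K * ε^4 ≤ 80 := by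
  have hε := h.ε0
  have hε1 := h.ε1
  have hS := h.run
  have hτ := hS.tau
  obtain ⟨hr, hz⟩ := eps_last hS hε hε1 h.hτ h.big
  have hε6 : ε^12 ≤ ε^6 := pow_le_pow_of_le_one hε.le hε1 (by norm_num)
  have hε61 : ε^6 ≤ 1 := pow_le_one₀ hε.le hε1
  have hK0 : (0:ℝ) ≤ K := Nat.cast_nonneg K
  have hZ : 1 ≤ 200 / ε^6 := by
    rw [le_div_iff₀ (by positivity)]
    linarith
  have hs : 100000 * (K * (τ * (200 / ε^6))) ≤ 1 := by
    have e : 100000 * ((K:ℝ) * (τ * (200 / ε^6))) = (2 * 10^7) * (K * τ) / ε^6 := by ring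
    rw [e, div_le_iff₀ (by positivity), one_mul]
    have h1 : 0 ≤ (K:ℝ) * τ := by positivity
    have := h.hτ
    linarith
  refine ⟨hZ, fun k hk => nxt_all hS hZ hs k hk (fun j hj => hz j (by omega)), ?_, ?_,
    steps_le hS hε hε1 h.hτ h.big⟩
  · intro k hk
    have hI := inv_all hS hε hε1 h.hτ h.big k hk
    obtain ⟨f1, f2, f3, f4, f5⟩ := inv_facts hS hε hε1 h.hτ hk (h.big k hk) hI
    refine ⟨f1, f2, f3.trans ?_⟩
    rw [le_div_iff₀ (by positivity)]
    nlinarith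
  · intro k hk
    have hrk : r k ≠ 0 := by
      have := hr k hk
      exact norm_pos_iff.1 (by linarith)
    exact (loc_all hS hZ hs k hk hrk (fun j hj => hz j (by omega))).A

/-- The size parameter. -/
noncomputable def Gs (ε : ℝ) : ℝ := 20000 / ε^10

theorem sharp_of {ε : ℝ} (h : BigRun T b τ ε K x r q a) :
    Sharp T (Gs ε) (τ * (Gs ε)^2) K x r q a := by
  have hε := h.ε0
  have hε1 := h.ε1
  have hS := h.run
  have hτ := hS.tau
  obtain ⟨hZ, hN, hf, hA, hK⟩ := h.nxt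
  obtain ⟨M, hM⟩ : ∃ M : ℝ, M = 1 / ε := ⟨_, rfl⟩
  have hM1 : 1 ≤ M := by rw [hM, le_div_iff₀ hε]; linarith
  have hG : Gs ε = 20000 * M^10 := by rw [Gs, hM]; ring
  have hZM : 200 / ε^6 = 200 * M^6 := by rw [hM]; ring
  have hεM : ε * M = 1 := by rw [hM]; field_simp
  have hpow : ∀ i j : ℕ, i ≤ j → M^i ≤ M^j := fun i j hij => pow_le_pow_right₀ hM1 hij
  rw [hZM] at hZ hN hA
  have hρhi : ∀ k ≤ K, ‖r k‖ ≤ 8.08 * M^2 := by
    intro k hk
    have := (hf k hk).2.2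
    have e : 8.08 / ε^2 = 8.08 * M^2 := by rw [hM]; ring
    rw [← e]; exact this
  have hρlo : ∀ k ≤ K, 1 ≤ 2 * M * ‖r k‖ := by
    intro k hk
    have h1 := (hf k hk).2.1
    have h2 := norm_nonneg (x k)
    have h3 : ε / 2 ≤ ‖r k‖ := by nlinarith
    calc (1:ℝ) = 2 * M * (ε / 2) := by linarith
      _ ≤ _ := by gcongr
  have hxhi : ∀ k ≤ K, ‖x k‖ ≤ 8 * M^2 := by
    intro k hk
    have h1 := (hf k hk).1
    have h2 : ε^2 * M^2 = 1 := by rw [← mul_pow, hεM, one_pow]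
    have h3 : ‖x k‖ + 1 ≤ 8 * M^2 := by
      calc ‖x k‖ + 1 = (ε^2 * (‖x k‖ + 1)) * M^2 := by
            rw [mul_assoc, mul_comm (‖x k‖ + 1), ← mul_assoc, h2, one_mul]
        _ ≤ 8 * M^2 := by gcongr
    linarith
  have hKM : (K:ℝ) ≤ 80 * M^4 := by
    have h2 : ε^4 * M^4 = 1 := by rw [← mul_pow, hεM, one_pow]
    calc (K:ℝ) = (K * ε^4) * M^4 := by rw [mul_assoc, h2, mul_one]
      _ ≤ 80 * M^4 := by gcongr
  have hqhi : ∀ k < K, ‖q k‖ ≤ 600 * M^7 := by
    intro k hk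
    have h1 := (hN k hk).qr_le
    have h2 := hρlo k hk.le
    calc ‖q k‖ = ‖q k‖ * 1 := (mul_one _).symm
      _ ≤ ‖q k‖ * (2 * M * ‖r k‖) := by gcongr
      _ = 2 * M * (‖q k‖ * ‖r k‖) := by ring
      _ ≤ 2 * M * (1.5 * (200 * M^6)) := by gcongr
      _ = _ := by ring
  have haq : ∀ k < K, a k * ‖q k‖ ≤ 1650 * M^8 := by
    intro k hk
    have h1 := (hN k hk).aq
    have h2 := hρhi k hk.le
    calc a k * ‖q k‖ ≤ 1.02 * (200 * M^6) * ‖r k‖ := h1
      _ ≤ 1.02 * (200 * M^6) * (8.08 * M^2) := by gcongr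
      _ ≤ _ := by
        have : 0 ≤ M^8 := by positivity
        nlinarith
  have hG2 : τ * (Gs ε)^2 = 4 * 10^8 * (τ * M^20) := by rw [hG]; ring
  have hη0 : 0 ≤ τ * M^20 := by positivity
  have hτM : ∀ i ≤ 20, τ * M^i ≤ τ * M^20 := by
    intro i hi
    have := hpow i 20 hi
    gcongr
  have hr0 : ‖r 0‖ = 1 := by rw [hS.r0, hS.b1]
  constructor
  · exact hS.sym
  · exact hS.one
  · rw [hG]
    have := one_le_pow₀ hM1 (n := 10)
    linarith
  · positivity
  · rw [hG]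
    have := hpow 4 10 (by norm_num)
    linarith [one_le_pow₀ hM1 (n := 10)]
  · exact hr0
  · rw [hS.q0, hS.r0]
  · exact hS.x0
  · intro l hl
    refine (hρlo l hl).trans ?_
    rw [hG]
    have := hpow 1 10 (by norm_num)
    rw [pow_one] at this
    gcongr
    linarith [one_le_pow₀ hM1 (n := 10)]
  · intro l hl
    refine (hρhi l hl).trans ?_
    rw [hG]
    have := hpow 2 10 (by norm_num)
    linarith [one_le_pow₀ hM1 (n := 10)]
  · intro l hl
    refine ((hN l hl).aup).trans ?_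
    rw [hG]
    have h2 := hρhi l hl.le
    calc 1.03 * (200 * M^6) * ‖r l‖^2 ≤ 1.03 * (200 * M^6) * (8.08 * M^2)^2 := by gcongr
      _ ≤ _ := by
        have : 0 ≤ M^10 := by positivity
        nlinarith
  · intro l hl
    exact (hN l hl).alow
  · intro l hl
    rw [hG]
    have h710 := hpow 7 10 (by norm_num)
    have h10 := one_le_pow₀ hM1 (n := 10)
    rcases Nat.lt_or_ge l K with h1 | h1
    · refine (hqhi l h1).trans ?_
      linarith
    · have : l = K := le_antisymm hl h1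
      subst this
      rcases Nat.eq_zero_or_pos l with h0 | h0
      · rw [h0, hS.q0, hS.b1]
        linarith
      · obtain ⟨m, rfl⟩ : ∃ m, l = m + 1 := ⟨l - 1, by omega⟩
        have hne : r (m+1) ≠ 0 := by
          intro h2
          have := hρlo (m+1) le_rfl
          rw [h2] at this
          simp at this
          linarith
        obtain ⟨e, he, hen⟩ := err3 hS hZ (show m < m + 1 by omega) (hN m (by omega)) hne
        have h2 := hqhi m (by omega)
        have h3 := hρlo (m+1) le_rfl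
        have hρ : 0 < ‖r (m+1)‖ := norm_pos_iff.2 hne
        have h4 : ‖(‖r (m+1)‖^2)⁻¹ • r (m+1)‖ ≤ 2 * M := by
          rw [norm_smul, norm_inv, norm_pow, norm_norm]
          have : (‖r (m+1)‖^2)⁻¹ * ‖r (m+1)‖ = ‖r (m+1)‖⁻¹ := by field_simp
          rw [this, inv_le_iff_one_le_mul₀ hρ]
          exact h3
        have h5 : ‖e‖ ≤ 2000 * M^7 := by
          have hτ1 : τ ≤ 1 := by
            have := h.hτ
            have h6 : ε^12 ≤ 1 := pow_le_one₀ hε.le hε1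
            have h7 : 0 ≤ ((m + 1 : ℕ) : ℝ) * τ := by positivity
            push_cast at *
            nlinarith
          calc ‖e‖ = ‖e‖ * 1 := (mul_one _).symm
            _ ≤ ‖e‖ * (2 * M * ‖r (m+1)‖) := by gcongr
            _ = 2 * M * (‖r (m+1)‖ * ‖e‖) := by ring
            _ ≤ 2 * M * (5 * (τ * (200 * M^6))) := by gcongr
            _ ≤ 2 * M * (5 * (1 * (200 * M^6))) := by gcongr
            _ = _ := by ring
        rw [he]
        refine norm_add₃_le.trans ?_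
        have h17 := hpow 1 10 (by norm_num)
        rw [pow_one] at h17
        linarith
  · intro l hl
    have h1 := hS.h1 l hl
    rw [abs_of_pos (hN l hl).apos] at h1
    refine h1.trans ?_
    rw [hG2]
    have h2 := hxhi l hl.le
    have h3 := haq l hl
    calc τ * (‖x l‖ + a l * ‖q l‖) ≤ τ * (8 * M^2 + 1650 * M^8) := by gcongr
      _ = 8 * (τ * M^2) + 1650 * (τ * M^8) := by ring
      _ ≤ _ := by linarith [hτM 2 (by norm_num), hτM 8 (by norm_num)]
  · intro l hl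
    have h1 := hS.h2 l hl
    rw [abs_of_pos (hN l hl).apos] at h1
    refine h1.trans ?_
    rw [hG2]
    have h2 := hρhi l hl.le
    have h3 := haq l hl
    calc τ * (‖r l‖ + a l * ‖q l‖) ≤ τ * (8.08 * M^2 + 1650 * M^8) := by gcongr
      _ = 8.08 * (τ * M^2) + 1650 * (τ * M^8) := by ring
      _ ≤ _ := by linarith [hτM 2 (by norm_num), hτM 8 (by norm_num)]
  · intro l hl
    have hne : r (l+1) ≠ 0 := by
      intro h2
      have := hρlo (l+1) (by omega)
      rw [h2] at this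
      simp at this
      linarith
    have h1 := hS.h3 l hl hne
    have e : q (l+1) - q l - (‖r (l+1)‖^2)⁻¹ • r (l+1) =
      q (l+1) - (‖r (l+1)‖^2)⁻¹ • r (l+1) - q l := by abel
    rw [e]
    refine h1.trans ?_
    rw [hG2]
    have hρ : 0 < ‖r (l+1)‖ := norm_pos_iff.2 hne
    have h3 : ‖r (l+1)‖⁻¹ ≤ 2 * M := by
      rw [inv_le_iff_one_le_mul₀ hρ]
      exact hρlo (l+1) (by omega)
    have h4 := hqhi l hl
    calc τ * (‖r (l+1)‖⁻¹ + ‖q l‖) ≤ τ * (2 * M + 600 * M^7) := by gcongr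
      _ = 2 * (τ * M^1) + 600 * (τ * M^7) := by ring
      _ ≤ _ := by linarith [hτM 1 (by norm_num), hτM 7 (by norm_num)]
  · intro l hl
    refine ((hN l hl).aone).trans ?_
    rw [hG2]
    calc 2 * (τ * (200 * M^6)) = 400 * (τ * M^6) := by ring
      _ ≤ _ := by linarith [hτM 6 (by norm_num)]
  · intro l hl
    have h1 := (hN l hl).z
    have h2 := hA l hl.le
    have e : ⟪q l, r (l+1)⟫_ℝ = (⟪q l, r (l+1)⟫_ℝ - (⟪q l, r l⟫_ℝ - 1)) + (⟪q l, r l⟫_ℝ - 1) := by
      ring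
    rw [e]
    refine (abs_add_le _ _).trans ?_
    refine (add_le_add h1 h2).trans ?_
    rw [hG2]
    have hl' : (l:ℝ) ≤ 80 * M^4 := by
      have : (l:ℝ) ≤ K := by exact_mod_cast hl.le
      exact this.trans hKM
    calc 4.5 * (τ * (200 * M^6)) + 10 * l * (τ * (200 * M^6))
        ≤ 4.5 * (τ * (200 * M^6)) + 10 * (80 * M^4) * (τ * (200 * M^6)) := by gcongr
      _ = 900 * (τ * M^6) + 160000 * (τ * M^10) := by ring
      _ ≤ _ := by linarith [hτM 6 (by norm_num), hτM 10 (by norm_num)]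

end Pool.Agent.Helper643.CG
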