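import Mathlib
import Pool.Agent.Helper643.CGSharpF
import Pool.Agent.Helper643.CGNearK
import Pool.Agent.Helper643.CGSeqE

/-!
Bootstrapping: sharp amplification implies near-orthogonality, which bounds the amplification.
-/

namespace Pool.Agent.Helper643.CG

open scoped InnerProductSpace

lemma prod_le_of_sum {k n : ℕ} (hk : k ≤ n) (hn : 1 ≤ n) {y : ℕ → ℝ} {A : ℝ}
    (hy : ∀ i < k, 0 ≤ y i) (hA : ∑ i ∈ Finset.range k, y i ≤ A) :
    ∏ i ∈ Finset.range k, y i ≤ (3 * (1 + A / n))^n := by
  have hA0 : 0 ≤ A := (Finset.sum_nonneg fun i hi => hy i (Finset.mem_range.1 hi)).trans hA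
  have hn' : (0:ℝ) < n := by exact_mod_cast hn
  set c := 1 + A / n with hc
  have hc1 : 1 ≤ c := by
    have : 0 ≤ A / n := by positivity
    linarith
  have hc0 : 0 < c := by linarith
  have h1 : ∏ i ∈ Finset.range k, y i ≤ ∏ i ∈ Finset.range k, (c * Real.exp (y i / c)) := by
    apply Finset.prod_le_prod
    · intro i hi; exact hy i (Finset.mem_range.1 hi)
    · intro i _
      have h2 : y i / c ≤ Real.exp (y i / c) := by
        have := Real.add_one_le_exp (y i / c)
        linarith
      calc y i = c * (y i / c) := by field_simp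
        _ ≤ _ := by gcongr
  refine h1.trans ?_
  rw [Finset.prod_mul_distrib, Finset.prod_const, Finset.card_range, ← Real.exp_sum,
    ← Finset.sum_div]
  have h2 : (∑ i ∈ Finset.range k, y i) / c ≤ n := by
    rw [div_le_iff₀ hc0]
    calc _ ≤ A := hA
      _ ≤ n + A := by linarith
      _ = n * c := by rw [hc]; field_simp
  have h3 : Real.exp ((∑ i ∈ Finset.range k, y i) / c) ≤ 3^n := by
    calc _ ≤ Real.exp (n * 1) := by rw [mul_one]; exact Real.exp_le_exp.2 h2
      _ = (Real.exp 1)^n := by rw [Real.exp_nat_mul]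
      _ ≤ 3^n := by
        gcongr
        have := Real.exp_one_lt_d9
        linarith
  have h4 : c^k ≤ c^n := pow_le_pow_right₀ hc1 hk
  calc c^k * Real.exp ((∑ i ∈ Finset.range k, y i) / c) ≤ c^n * 3^n := by gcongr
    _ = _ := by rw [← mul_pow, mul_comm]

variable {E : Type*} [NormedAddCommGroup E] [InnerProductSpace ℝ E]

/-- Bound for the amplification through the sum of square roots. -/
lemma gro_le_of_As {r : ℕ → E} {a : ℕ → ℝ} {k n : ℕ} (hk : k ≤ n) (hn : 1 ≤ n) {A : ℝ}
    (ha : ∀ i < k, 0 ≤ a i) (hA : As (fun i => ‖r i‖) a k ≤ A) :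
    gro r a k ≤ (20 * (1 + A / n))^(2 * n) := by
  have h1 := prod_le_of_sum hk hn (y := fun i => √(a i / ‖r i‖^2)) (fun i _ => Real.sqrt_nonneg _) hA
  have h0 : 0 ≤ ∏ i ∈ Finset.range k, √(a i / ‖r i‖^2) :=
    Finset.prod_nonneg fun i _ => Real.sqrt_nonneg _
  have e1 : gro r a k = 40^k * (∏ i ∈ Finset.range k, √(a i / ‖r i‖^2))^2 := by
    rw [gro, Finset.prod_mul_distrib, Finset.prod_const, Finset.card_range, ← Finset.prod_pow]
    congr 1
    refine Finset.prod_congr rfl fun i hi => ?_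
    rw [Real.sq_sqrt]
    have := ha i (Finset.mem_range.1 hi)
    positivity
  have hA0 : 0 ≤ A := le_trans (Finset.sum_nonneg fun i _ => Real.sqrt_nonneg _) hA
  have hn' : (0:ℝ) < n := by exact_mod_cast hn
  rw [e1]
  calc (40:ℝ)^k * (∏ i ∈ Finset.range k, √(a i / ‖r i‖^2))^2
      ≤ 40^n * ((3 * (1 + A / n))^n)^2 := by
        have : (40:ℝ)^k ≤ 40^n := pow_le_pow_right₀ (by norm_num) hk
        gcongr
    _ = (40 * (3 * (1 + A / n))^2)^n := by
        rw [mul_pow 40, ← pow_mul, ← pow_mul, mul_comm n 2]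
    _ ≤ ((20 * (1 + A / n))^2)^n := by
        have : 0 ≤ (1 + A / n)^2 := sq_nonneg _
        gcongr
        nlinarith
    _ = _ := by rw [← pow_mul]

/-- Bound for the amplification through the truncated sum. -/
lemma gro_le_of_At {r : ℕ → E} {a : ℕ → ℝ} {k n N : ℕ} (hk : k ≤ n) (hn : 1 ≤ n) {A ν W : ℝ}
    (hν : 1 ≤ ν) (hW : 1 ≤ W) (ha : ∀ i < k, 0 ≤ a i) (haW : ∀ i < k, a i / ‖r i‖^2 ≤ W)
    (hA : At ν (fun i => ‖r i‖) a k ≤ A) (hN : A / ν < N + 1) :
    gro r a k ≤ (20 * (1 + A / n))^(2 * n) * W^N := by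
  set ρ : ℕ → ℝ := fun i => ‖r i‖ with hρ
  have htr0 : ∀ i < k, 0 ≤ tr ν ρ a i := by
    intro i hi
    rw [tr]
    have := ha i hi
    exact le_min (by positivity) (by positivity)
  have h1 := prod_le_of_sum hk hn (y := fun i => √(tr ν ρ a i)) (fun i _ => Real.sqrt_nonneg _) hA
  have h0 : 0 ≤ ∏ i ∈ Finset.range k, √(tr ν ρ a i) :=
    Finset.prod_nonneg fun i _ => Real.sqrt_nonneg _
  set F := (Finset.range k).filter (fun i => ν^2 < a i / ρ i^2) with hF
  have hcard : F.card ≤ N := by
    have h2 : (F.card : ℝ) * ν ≤ A := by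
      calc (F.card : ℝ) * ν = ∑ i ∈ F, ν := by rw [Finset.sum_const, nsmul_eq_mul]
        _ ≤ ∑ i ∈ F, √(tr ν ρ a i) := by
            apply Finset.sum_le_sum
            intro i hi
            rw [hF, Finset.mem_filter] at hi
            apply Real.le_sqrt_of_sq_le
            rw [tr]
            exact le_min hi.2.le le_rfl
        _ ≤ ∑ i ∈ Finset.range k, √(tr ν ρ a i) := by
            apply Finset.sum_le_sum_of_subset_of_nonneg (Finset.filter_subset _ _)
            intro i _ _; positivity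
        _ ≤ A := hA
    have h3 : (F.card : ℝ) ≤ A / ν := by rw [le_div_iff₀ (by linarith)]; exact h2
    have h4 : (F.card : ℝ) < ((N + 1 : ℕ) : ℝ) := by push_cast; linarith
    have : F.card < N + 1 := by exact_mod_cast h4
    omega
  have h5 : gro r a k ≤ 40^k * ((∏ i ∈ Finset.range k, √(tr ν ρ a i))^2 * W^F.card) := by
    rw [gro, Finset.prod_mul_distrib, Finset.prod_const, Finset.card_range]
    gcongr
    have e1 : W^F.card = ∏ i ∈ Finset.range k, (if ν^2 < a i / ρ i^2 then W else 1) := by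
      rw [Finset.prod_ite, Finset.prod_const_one, mul_one, Finset.prod_const]
    rw [e1, ← Finset.prod_pow, ← Finset.prod_mul_distrib]
    apply Finset.prod_le_prod
    · intro i hi
      have := ha i (Finset.mem_range.1 hi)
      positivity
    · intro i hi
      have hi' := Finset.mem_range.1 hi
      rw [Real.sq_sqrt (htr0 i hi')]
      have hw := haW i hi'
      split_ifs with h6
      · have e2 : tr ν ρ a i = ν^2 := by rw [tr]; exact min_eq_right h6.le
        rw [e2]
        have : 1 ≤ ν^2 := one_le_pow₀ hν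
        have hw' : a i / ‖r i‖^2 ≤ W := hw
        nlinarith
      · have e2 : tr ν ρ a i = a i / ρ i^2 := by rw [tr]; exact min_eq_left (not_lt.1 h6)
        rw [e2, mul_one]
  have hA0 : 0 ≤ A := le_trans (Finset.sum_nonneg fun i _ => Real.sqrt_nonneg _) hA
  have hn' : (0:ℝ) < n := by exact_mod_cast hn
  refine h5.trans ?_
  have h6 : W^F.card ≤ W^N := pow_le_pow_right₀ hW hcard
  calc (40:ℝ)^k * ((∏ i ∈ Finset.range k, √(tr ν ρ a i))^2 * W^F.card)
      ≤ 40^n * (((3 * (1 + A / n))^n)^2 * W^N) := by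
        have : (40:ℝ)^k ≤ 40^n := pow_le_pow_right₀ (by norm_num) hk
        gcongr
    _ = (40 * (3 * (1 + A / n))^2)^n * W^N := by
        rw [mul_pow 40, ← pow_mul, ← pow_mul, mul_comm n 2]; ring
    _ ≤ ((20 * (1 + A / n))^2)^n * W^N := by
        have : 0 ≤ (1 + A / n)^2 := sq_nonneg _
        gcongr
        nlinarith
    _ = _ := by rw [← pow_mul]

variable {T : E →ₗ[ℝ] E} {b : E} {τ ε : ℝ} {K : ℕ} {x r q : ℕ → E} {a : ℕ → ℝ}

lemma Gs_facts (hε : 0 < ε) (hε1 : ε ≤ 1) : 1 ≤ Gs ε ∧ 206 / ε^6 ≤ Gs ε ∧ 8.08 / ε^2 ≤ Gs ε ∧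
    20000 ≤ Gs ε := by
  have h6 : ε^10 ≤ ε^6 := pow_le_pow_of_le_one hε.le hε1 (by norm_num)
  have h2 : ε^10 ≤ ε^2 := pow_le_pow_of_le_one hε.le hε1 (by norm_num)
  have h0 : ε^10 ≤ 1 := pow_le_one₀ hε.le hε1
  have h3 : 20000 ≤ Gs ε := by
    rw [Gs, le_div_iff₀ (by positivity)]; linarith
  refine ⟨by linarith, ?_, ?_, h3⟩
  · rw [Gs, div_le_div_iff₀ (by positivity) (by positivity)]
    nlinarith [pow_pos hε 6]
  · rw [Gs, div_le_div_iff₀ (by positivity) (by positivity)]
    nlinarith [pow_pos hε 2]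

/-- The step from a bound of the amplification to near-orthogonality one index further. -/
lemma near_succ (h : BigRun T b τ ε K x r q a) {P : ℝ} (hP : 1 ≤ P) {m : ℕ} (hm : m ≤ K)
    (hg : ∀ m', m' + 1 = m → gro r a m' ≤ P) :
    Near T (Gs ε) (τ * (Gs ε)^2) (8400 * ((Gs ε)^5 * (P * τ))) K m x r q a := by
  have hs := sharp_of h
  obtain ⟨hZ, hN, hf, hA, hK⟩ := h.nxt
  obtain ⟨G1, G2, G3, G4⟩ := Gs_facts h.ε0 h.ε1
  have hτ := h.run.tau
  set G := Gs ε with hG
  set Z := 200 / ε^6 with hZdef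
  have hZG : 1.03 * Z ≤ G := by
    have : 1.03 * Z = 206 / ε^6 := by rw [hZdef]; ring
    rw [this]; exact G2
  have hZG' : Z ≤ G := by linarith
  refine ⟨hs, hm, by positivity, ?_⟩
  intro j hj i hi
  have hR : ∀ k ≤ K, ‖r k‖ ≤ G := fun k hk => (hf k hk).2.2.trans G3
  have h1 := orth_all h.run hZ hN hR j (by omega) i hi
  have hmono : ∀ k, j ≤ k → k ≤ m → gro r a j ≤ gro r a k := by
    intro k hk
    induction k, hk using Nat.le_induction with
    | base => intro _; exact le_rfl
    | succ k hk ih =>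
      intro hkm
      exact (ih (by omega)).trans ((gro_mono h.run hN k (by omega)).2 (by omega))
  have hgj : gro r a j ≤ P * (42 * G) := by
    refine (hmono m hj le_rfl).trans ?_
    rcases Nat.eq_zero_or_pos m with h0 | h0
    · rw [h0]
      simp only [gro, Finset.range_zero, Finset.prod_empty]
      nlinarith
    · obtain ⟨m', rfl⟩ : ∃ m', m = m' + 1 := ⟨m - 1, by omega⟩
      rw [gro_succ]
      have h2 := hg m' rfl
      have h3 := hN m' (by omega)
      have hρ : 0 < ‖r m'‖ := norm_pos_iff.2 (h.run.rne m' (by omega))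
      have h4 : a m' / ‖r m'‖^2 ≤ G := by
        rw [div_le_iff₀ (by positivity)]
        refine h3.aup.trans ?_
        gcongr
      have h5 : 0 ≤ a m' / ‖r m'‖^2 := by have := h3.apos; positivity
      have h6 := (gro_mono h.run hN m' (by omega)).1
      calc gro r a m' * (40 * (a m' / ‖r m'‖^2)) ≤ P * (40 * G) := by gcongr
        _ ≤ _ := by gcongr; norm_num
  refine h1.trans ?_
  have hKG := hs.KG
  have hri := hR i (by omega)
  have hg0 := (gro_mono h.run hN j (by omega)).1
  calc 200 * K * (τ * Z) * G * gro r a j * ‖r i‖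
      ≤ 200 * G * (τ * G) * G * (P * (42 * G)) * G := by gcongr
    _ = _ := by ring

lemma sg_eq (a : ℕ → ℝ) (k : ℕ) : sg a k = sg' a k := rfl

/-- Final linear independence argument. -/
lemma lt_of_near [FiniteDimensional ℝ E] {G η μ : ℝ} {n : ℕ} (h : Near T G η μ K K x r q a)
    (hfin : Module.finrank ℝ E = n) (hsm : 200 * (G^3 * μ) ≤ 1) : K < n := by
  have hs := h.sh
  have hG := hs.G1
  have hμ := h.μ0
  have hli : LinearIndependent ℝ (fun i : Fin (K+1) => r i) := by
    apply linIndep_of_near (c := G^2 * μ)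
    · have h1 : ((K + 1 : ℕ) : ℝ) ≤ 2 * G := by
        push_cast
        linarith [hs.KG]
      calc G^2 * μ * ((K + 1 : ℕ) : ℝ) ≤ G^2 * μ * (2 * G) := by gcongr
        _ = 2 * (G^3 * μ) := by ring
        _ < 1 := by linarith
    · intro i
      exact norm_pos_iff.1 (hs.rpos (Nat.lt_succ_iff.1 i.2))
    · intro i j hij
      have hi := Nat.lt_succ_iff.1 i.2
      have hj := Nat.lt_succ_iff.1 j.2
      have h1 := h.orth' hi hj (fun h0 => hij (Fin.ext h0))
      have h2 := hs.rlo i hi
      have h3 := hs.rlo j hj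
      have h4 : 1 ≤ G^2 * (‖r i‖ * ‖r j‖) := by
        calc (1:ℝ) = 1 * 1 := by ring
          _ ≤ (G * ‖r i‖) * (G * ‖r j‖) := by gcongr
          _ = _ := by ring
      calc |⟪r i, r j⟫_ℝ| ≤ μ * 1 := by rw [mul_one]; exact h1
        _ ≤ μ * (G^2 * (‖r i‖ * ‖r j‖)) := by gcongr
        _ = _ := by ring
  have := hli.fintype_card_le_finrank
  simp at this
  omega

/-- The case of a finite condition number `κ = s ^ 2`. -/
theorem boot_kap [FiniteDimensional ℝ E] (h : BigRun T b τ ε K x r q a) {s : ℝ} {n : ℕ}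
    (hs1 : 1 ≤ s) (hlow : ∀ y : E, ‖y‖^2 ≤ s^2 * ⟪y, T y⟫_ℝ) (hs3 : ε^2 * s^3 ≤ 1)
    (hKn : K ≤ n) (hn : 1 ≤ n) (hfin : Module.finrank ℝ E = n) {P : ℝ}
    (hP : P = (20 * (1 + 20 * s * (1 + Real.logb 2 (1 / (ε^2 * s^3)) / 2) / n))^(2 * n))
    (hsm : 10^8 * (s^2 * ((Gs ε)^13 * (P * τ))) ≤ 1) : K < n := by
  have hε := h.ε0
  have hS := h.run
  have hτ := hS.tau
  obtain ⟨G1, G2, G3, G4⟩ := Gs_facts h.ε0 h.ε1
  obtain ⟨hZ, hN, hf, hA, hK⟩ := h.nxt
  set G := Gs ε with hG
  have hpos : 0 < ε^2 * s^3 := by positivity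
  have hℓ : 0 ≤ Real.logb 2 (1 / (ε^2 * s^3)) :=
    Real.logb_nonneg (by norm_num) (by rw [le_div_iff₀ hpos]; linarith)
  set A := 20 * s * (1 + Real.logb 2 (1 / (ε^2 * s^3)) / 2) with hAdef
  have hA0 : 0 ≤ A := by positivity
  have hn' : (0:ℝ) < n := by exact_mod_cast hn
  have hP1 : 1 ≤ P := by
    rw [hP]
    apply one_le_pow₀
    have : 0 ≤ A / n := by positivity
    linarith
  -- solution of the system
  obtain ⟨xs, hxs⟩ : ∃ xs, T xs = b := by
    have hinj : Function.Injective T := by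
      rw [injective_iff_map_eq_zero]
      intro y hy
      have := hlow y
      rw [hy, inner_zero_right, mul_zero] at this
      have h2 : ‖y‖ = 0 := by nlinarith [norm_nonneg y, sq_nonneg ‖y‖]
      exact norm_eq_zero.1 h2
    exact (LinearMap.injective_iff_surjective.1 hinj) b
  rw [← hS.r0] at hxs
  have hs2 : 1 ≤ s^2 := one_le_pow₀ hs1
  set η := τ * G^2 with hη
  set μ := 8400 * (G^5 * (P * τ)) with hμ
  have hbase : 0 ≤ s^2 * (G^13 * (P * τ)) := by positivity
  have hPτ : τ ≤ P * τ := le_mul_of_one_le_left hτ hP1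
  have hμη : G^8 * (μ + η) ≤ 8401 * (G^13 * (P * τ)) := by
    have h1 : G^8 * η ≤ G^13 * (P * τ) := by
      have : G^10 ≤ G^13 := pow_le_pow_right₀ G1 (by norm_num)
      calc G^8 * η = G^10 * τ := by rw [hη]; ring
        _ ≤ G^13 * (P * τ) := by gcongr
    have h2 : G^8 * μ = 8400 * (G^13 * (P * τ)) := by rw [hμ]; ring
    linarith
  have hsmall : 10^4 * (s^2 * (G^8 * (μ + η))) ≤ 1 := by
    have h1 : s^2 * (G^8 * (μ + η)) ≤ s^2 * (8401 * (G^13 * (P * τ))) := by gcongr
    linarith
  have hsmall' : 10^4 * (G^8 * (μ + η)) ≤ 1 := by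
    have h0 : 0 ≤ G^8 * (μ + η) := by positivity
    have : G^8 * (μ + η) ≤ s^2 * (G^8 * (μ + η)) := le_mul_of_one_le_left h0 hs2
    linarith
  have hτκ : 1000 * (τ * s^2) ≤ 1 := by
    have h1 : τ * s^2 ≤ s^2 * (G^13 * (P * τ)) := by
      have h2 : 1 ≤ G^13 := one_le_pow₀ G1
      calc τ * s^2 = s^2 * (1 * τ) := by ring
        _ ≤ s^2 * (G^13 * (P * τ)) := by gcongr
    linarith
  have key : ∀ m ≤ K, gro r a m ≤ P := by
    intro m
    induction m with
    | zero => intro _; simpa [gro] using hP1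
    | succ m ih =>
      intro hm
      have hnear := near_succ h hP1 hm (fun m' hm' => by
        have : m' = m := by omega
        rw [this]; exact ih (by omega))
      rw [← hG, ← hμ, ← hη] at hnear
      obtain ⟨f1, f2⟩ := En_facts hlow hnear hs2 hsmall hxs
      have hseq : SeqK (m+1) s ε (fun i => ‖r i‖) a (En T xs x) (fun i => ‖x i‖) := by
        constructor
        · exact hs1
        · exact hε
        · intro i hi; exact norm_pos_iff.2 (hS.rne i (by omega))
        · intro i hi
          have h1 := (f1 i hi).1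
          have hρ : 0 < ‖r i‖ := hnear.sh.rpos (by omega)
          have : 0 < 0.9 * ‖r i‖^2 := by positivity
          linarith
        · intro i hi; exact (hN i (by omega)).alow
        · intro i hi
          have h1 := kappa_step hS hs2 hlow hτκ (show i < K by omega)
          have hNi := hN i (by omega)
          have h2 := hNi.qr_ge
          rw [abs_of_pos hNi.apos] at h1
          have h3 : (0.99:ℝ)^2 ≤ (‖q i‖ * ‖r i‖)^2 := by gcongr
          have h4 : a i * (0.99)^2 ≤ 2 * s^2 * ‖r i‖^2 := by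
            calc a i * (0.99)^2 ≤ a i * (‖q i‖ * ‖r i‖)^2 := by
                  have := hNi.apos
                  gcongr
              _ = (a i * ‖q i‖^2) * ‖r i‖^2 := by ring
              _ ≤ (2 * s^2) * ‖r i‖^2 := by gcongr
          have h5 := hNi.apos
          have h6 : 0 ≤ s^2 * ‖r i‖^2 := by positivity
          nlinarith
        · intro i hi; exact f2 i hi
        · intro i0 j hj
          exact En_sum hlow hnear hs2 hsmall hxs hj
        · intro k hk
          exact x_lower hnear hsmall' hk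
        · intro i _; exact norm_nonneg _
        · intro i hi
          have h1 := (hf i (by omega)).2.1
          have h2 := norm_nonneg (x i)
          have h3 : ε / 2 * ‖x i‖ ≤ ε / 2 * (‖x i‖ + 1) := by
            gcongr; linarith
          exact h3.trans h1
      have h1 := hseq.main hs3
      rw [hP]
      exact gro_le_of_As (by omega) hn (fun i hi => (hN i (by omega)).apos.le) h1
  have hnear := near_succ h hP1 le_rfl (fun m' hm' => key m' (by omega))
  rw [← hG, ← hμ, ← hη] at hnear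
  refine lt_of_near hnear hfin ?_
  have h3 : G^3 * μ ≤ G^8 * (μ + η) := by
    have : G^3 ≤ G^8 := pow_le_pow_right₀ G1 (by norm_num)
    have h0 : 0 ≤ η := by positivity
    have h0' : 0 ≤ μ := by positivity
    calc G^3 * μ ≤ G^8 * μ := by gcongr
      _ ≤ _ := by gcongr; linarith
  linarith

/-- The case without condition number, `ε = ν ^ (-6)`. -/
theorem boot_eps [FiniteDimensional ℝ E] (h : BigRun T b τ ε K x r q a) {ν : ℝ} {n N : ℕ}
    (hν : 1 ≤ ν) (hνε : ε * ν^6 = 1) (hN' : 110 * ν^3 < N + 1)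
    (hKn : K ≤ n) (hn : 1 ≤ n) (hfin : Module.finrank ℝ E = n) {P : ℝ}
    (hP : P = (20 * (1 + 110 * ν^4 / n))^(2 * n) * (Gs ε)^N)
    (hsm : 10^8 * ((Gs ε)^13 * (P * τ)) ≤ 1) : K < n := by
  have hε := h.ε0
  have hS := h.run
  have hτ := hS.tau
  obtain ⟨G1, G2, G3, G4⟩ := Gs_facts h.ε0 h.ε1
  obtain ⟨hZ, hN, hf, hA, hK⟩ := h.nxt
  set G := Gs ε with hG
  have hn' : (0:ℝ) < n := by exact_mod_cast hn
  have hP1 : 1 ≤ P := by
    rw [hP]
    have h1 : 1 ≤ (20 * (1 + 110 * ν^4 / n))^(2 * n) := by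
      apply one_le_pow₀
      have : 0 ≤ 110 * ν^4 / n := by positivity
      linarith
    have h2 : 1 ≤ G^N := one_le_pow₀ G1
    nlinarith
  set η := τ * G^2 with hη
  set μ := 8400 * (G^5 * (P * τ)) with hμ
  have hbase : 0 ≤ G^13 * (P * τ) := by positivity
  have hPτ : τ ≤ P * τ := le_mul_of_one_le_left hτ hP1
  have hμη : G^8 * (μ + η) ≤ 8401 * (G^13 * (P * τ)) := by
    have h1 : G^8 * η ≤ G^13 * (P * τ) := by
      have : G^10 ≤ G^13 := pow_le_pow_right₀ G1 (by norm_num)
      calc G^8 * η = G^10 * τ := by rw [hη]; ring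
        _ ≤ G^13 * (P * τ) := by gcongr
    have h2 : G^8 * μ = 8400 * (G^13 * (P * τ)) := by rw [hμ]; ring
    linarith
  have hsmall' : 10^4 * (G^8 * (μ + η)) ≤ 1 := by linarith
  have h1ε : 1 / ε = ν^6 := by field_simp; linarith
  have key : ∀ m ≤ K, gro r a m ≤ P := by
    intro m
    induction m with
    | zero => intro _; simpa [gro] using hP1
    | succ m ih =>
      intro hm
      have hnear := near_succ h hP1 hm (fun m' hm' => by
        have : m' = m := by omega
        rw [this]; exact ih (by omega))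
      rw [← hG, ← hμ, ← hη] at hnear
      have hseq : SeqE (m+1) ν (fun i => ‖r i‖) a (fun i => ‖x i‖) := by
        constructor
        · exact hν
        · intro i hi; exact norm_pos_iff.2 (hS.rne i (by omega))
        · intro i hi; exact (hN i (by omega)).alow
        · intro k hk
          exact x_lower hnear hsmall' hk
        · intro i _; exact norm_nonneg _
        · intro i hi
          have h1 := (hf i (by omega)).2.1
          have h2 : (‖x i‖ + 1) / (2 * ν^6) = ε / 2 * (‖x i‖ + 1) := by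
            have : ε = 1 / ν^6 := by field_simp; exact hνε
            rw [this]; field_simp
          rw [h2]; exact h1
        · have h1 := x_inner hnear (m+1) le_rfl 0 (by omega)
          have h2 : sg a (min 0 (m+1)) = 0 := by simp [sg]
          rw [h2, sub_zero] at h1
          have h3 : ⟪x (m+1), r 0⟫_ℝ ≤ ‖x (m+1)‖ := by
            refine (real_inner_le_norm _ _).trans ?_
            rw [hnear.sh.r01, mul_one]
          have h4 : ‖x (m+1)‖ + 1 ≤ 8 * ν^12 := by
            have h5 := (hf (m+1) hm).1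
            have e : (ε * ν^6)^2 * (‖x (m+1)‖ + 1) = (ε^2 * (‖x (m+1)‖ + 1)) * ν^12 := by ring
            rw [hνε, one_pow, one_mul] at e
            rw [e]; gcongr
          have h5 : ((m + 1 : ℕ) : ℝ) * (3 * G^4 * (μ + η)) ≤ 1 := by
            have h6 : ((m + 1 : ℕ) : ℝ) ≤ G := by
              have : ((m + 1 : ℕ) : ℝ) ≤ K := by exact_mod_cast hm
              exact this.trans hnear.sh.KG
            calc ((m + 1 : ℕ) : ℝ) * (3 * G^4 * (μ + η)) ≤ G * (3 * G^4 * (μ + η)) := by gcongr
              _ = 3 * (G^5 * (μ + η)) := by ring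
              _ ≤ 3 * (G^8 * (μ + η)) := by
                have : G^5 ≤ G^8 := pow_le_pow_right₀ G1 (by norm_num)
                gcongr
              _ ≤ 1 := by linarith
          have h6 : 1 ≤ ν^12 := one_le_pow₀ hν
          rw [abs_le] at h1
          have h7 : sg a (m+1) ≤ 10 * ν^12 := by linarith [h1.1]
          exact h7
      have h1 := hseq.main
      rw [hP]
      refine gro_le_of_At (by omega) hn hν G1 (fun i hi => (hN i (by omega)).apos.le) ?_ h1 ?_
      · intro i hi
        have hNi := hN i (by omega)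
        have hρ : 0 < ‖r i‖ := norm_pos_iff.2 (hS.rne i (by omega))
        rw [div_le_iff₀ (by positivity)]
        refine hNi.aup.trans ?_
        have e : 1.03 * (200 / ε^6) = 206 / ε^6 := by ring
        rw [e]
        gcongr
      · have e : 110 * ν^4 / ν = 110 * ν^3 := by field_simp
        rw [e]; exact hN'
  have hnear := near_succ h hP1 le_rfl (fun m' hm' => key m' (by omega))
  rw [← hG, ← hμ, ← hη] at hnear
  refine lt_of_near hnear hfin ?_
  have h3 : G^3 * μ ≤ G^8 * (μ + η) := by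
    have : G^3 ≤ G^8 := pow_le_pow_right₀ G1 (by norm_num)
    have h0 : 0 ≤ η := by positivity
    have h0' : 0 ≤ μ := by positivity
    calc G^3 * μ ≤ G^8 * μ := by gcongr
      _ ≤ _ := by gcongr; linarith
  linarith

end Pool.Agent.Helper643.CG
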