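import Mathlib

/-!
Floating-point model of the conjugate gradient method: definitions.
-/

namespace Pool.Agent.Helper643.CG

open scoped Matrix.Norms.L2Operator ENNReal

/-- `v` is a possible computed value of a scalar operation with exact result `y`,
the relative error being at most `u`. -/
def Fl (u y v : ℝ) : Prop := ∃ δ : ℝ, |δ| ≤ u ∧ v = y * (1 + δ)

/-- `FlDot u y z S v`: `v` is a possible computed value of the sum of the products `y i * z i`
over `i ∈ S`, every product and every addition being rounded, the additions being done in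
an arbitrary order with arbitrary bracketing. -/
inductive FlDot {n : ℕ} (u : ℝ) (y z : Fin n → ℝ) : Finset (Fin n) → ℝ → Prop
  | leaf (i : Fin n) (v : ℝ) : Fl u (y i * z i) v → FlDot u y z {i} v
  | node (S S' : Finset (Fin n)) (v v' w : ℝ) : Disjoint S S' → FlDot u y z S v →
      FlDot u y z S' v' → Fl u (v + v') w → FlDot u y z (S ∪ S') w

/-- `v` is a possible computed value of the inner product of `y` and `z`. -/
def FlInner {n : ℕ} (u : ℝ) (y z : Fin n → ℝ) (v : ℝ) : Prop := FlDot u y z Finset.univ v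

/-- `w` is a possible computed value of the matrix-vector product `A p`. -/
def FlMulVec {n : ℕ} (u : ℝ) (A : Matrix (Fin n) (Fin n) ℝ) (p w : Fin n → ℝ) : Prop :=
  ∀ i, FlInner u (A i) p (w i)

/-- `d` is a possible computed value of `pᵀ A p`. -/
def FlQuad {n : ℕ} (u : ℝ) (A : Matrix (Fin n) (Fin n) ℝ) (p : Fin n → ℝ) (d : ℝ) : Prop :=
  ∃ w, FlMulVec u A p w ∧ FlInner u p w d

/-- `K` completed steps of the conjugate gradient recurrences for `A x = b`, started at
`x 0 = 0`, all scalar operations being carried out with relative errors at most `u`. Here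
`w k` is the computed `A (p k)`, `ρ k` the computed `(r k)ᵀ (r k)`, `d k` the computed
`(p k)ᵀ A (p k)`. -/
structure Run {n : ℕ} (u : ℝ) (A : Matrix (Fin n) (Fin n) ℝ) (b : Fin n → ℝ) (K : ℕ)
    (x r p w : ℕ → Fin n → ℝ) (ρ d α β : ℕ → ℝ) : Prop where
  x0 : x 0 = 0
  r0 : r 0 = b
  p0 : p 0 = b
  hρ : ∀ k ≤ K, FlInner u (r k) (r k) (ρ k)
  hρ0 : ∀ k < K, ρ k ≠ 0
  hw : ∀ k < K, FlMulVec u A (p k) (w k)
  hd : ∀ k < K, FlInner u (p k) (w k) (d k)
  hd0 : ∀ k < K, d k ≠ 0
  hα : ∀ k < K, Fl u (ρ k / d k) (α k)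
  hx : ∀ k < K, ∀ i, ∃ m, Fl u (α k * p k i) m ∧ Fl u (x k i + m) (x (k+1) i)
  hr : ∀ k < K, ∀ i, ∃ m, Fl u (α k * w k i) m ∧ Fl u (r k i - m) (r (k+1) i)
  hβ : ∀ k < K, Fl u (ρ (k+1) / ρ k) (β k)
  hp : ∀ k < K, ∀ i, ∃ m, Fl u (β k * p k i) m ∧ Fl u (r (k+1) i + m) (p (k+1) i)

/-- Euclidean norm. -/
noncomputable def l2 {n : ℕ} (y : Fin n → ℝ) : ℝ := √(∑ i, y i ^ 2)

/-- The normwise backward error `‖b - A x‖ / (‖A‖ ‖x‖ + ‖b‖)` in the spectral norm. -/
noncomputable def eta {n : ℕ} (A : Matrix (Fin n) (Fin n) ℝ) (b x : Fin n → ℝ) : ℝ :=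
  l2 (b - A.mulVec x) / (‖A‖ * l2 x + l2 b)

/-- `a` is exactly representable with `t` significant bits. -/
def Rep (t : ℕ) (a : ℝ) : Prop := ∃ m e : ℤ, |m| < 2 ^ t ∧ a = m * (2:ℝ) ^ e

/-- The ways in which a run of `K` steps may end. Either all `n` steps have been carried out,
or the next step needs a division by zero: in the strict reading (`brk`) the run may break down
as soon as some computed value of `pᵀ A p` is zero; in the other reading it ends only if every
computed value of `pᵀ A p` is zero (for instance when the residual is zero). -/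
def Ends {n : ℕ} (brk : Prop) (u : ℝ) (A : Matrix (Fin n) (Fin n) ℝ) (K : ℕ)
    (p : ℕ → Fin n → ℝ) : Prop :=
  K = n ∨ (brk ∧ FlQuad u A (p K) 0) ∨ (∀ d, FlQuad u A (p K) d → d = 0)

/-- With `t` bits every run of conjugate gradients reaches backward error at most `ε` within
`n` steps, for all symmetric positive definite systems of order `n` with exactly representable
data and condition number at most `κ`. -/
def Good (brk : Prop) (n : ℕ) (κ : ℝ≥0∞) (ε : ℝ) (t : ℕ) : Prop :=
  ∀ (A : Matrix (Fin n) (Fin n) ℝ) (b : Fin n → ℝ) (hA : A.PosDef),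
    (∀ i j, ENNReal.ofReal (hA.1.eigenvalues i) ≤ κ * ENNReal.ofReal (hA.1.eigenvalues j)) →
    b ≠ 0 → (∀ i j, Rep t (A i j)) → (∀ i, Rep t (b i)) →
    ∀ (K : ℕ) (x r p w : ℕ → Fin n → ℝ) (ρ d α β : ℕ → ℝ), K ≤ n →
      Run (1 / 2 ^ t) A b K x r p w ρ d α β → Ends brk (1 / 2 ^ t) A K p →
      ∃ k ≤ K, eta A b (x k) ≤ ε

/-- The least sufficient precision `t*(n, κ, ε)`. -/
noncomputable def tstar (brk : Prop) (n : ℕ) (κ : ℝ≥0∞) (ε : ℝ) : ℕ∞ :=
  ⨅ t ∈ {t : ℕ | 1 ≤ t ∧ Good brk n κ ε t}, (t : ℕ∞)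

end Pool.Agent.Helper643.CG
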