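import Mathlib
import Pool.Agent.Helper643.CGSharpF

/-!
The tridiagonal model operator of a run.
-/

namespace Pool.Agent.Helper643.CG

open scoped InnerProductSpace

variable {E : Type*} [NormedAddCommGroup E] [InnerProductSpace ℝ E]

/-- A sharp run with some more facts. -/
structure SharpM (T : E →ₗ[ℝ] E) (G η : ℝ) (K : ℕ) (x r q : ℕ → E) (a : ℕ → ℝ) : Prop
    extends Sharp T G η K x r q a where
  G100 : 100 ≤ G
  pos : ∀ y, 0 ≤ ⟪y, T y⟫_ℝ
  mn : ∀ l < K, ‖r (l+1)‖^2 ≤ 7.3 * a l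
  om : ∀ l < K, |⟪r l, r (l+1)⟫_ℝ| ≤ G * η

/-- differences -/
noncomputable def dd (m a γ : ℕ → ℝ) (k : ℕ) : ℝ := (m k * γ k - m (k+1) * γ (k+1)) / a k

/-- the tridiagonal operator -/
noncomputable def tri (m a γ : ℕ → ℝ) : ℕ → ℝ
  | 0 => dd m a γ 0
  | k+1 => dd m a γ (k+1) - dd m a γ k

/-- vector sums -/
noncomputable def vs (v : ℕ → E) (γ : ℕ → ℝ) (n : ℕ) : E := ∑ k ∈ Finset.range n, γ k • v k

/-- the squared norms -/
noncomputable def mm (r : ℕ → E) : ℕ → ℝ := fun k => ‖r k‖^2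

lemma vs_succ (v : ℕ → E) (γ : ℕ → ℝ) (n : ℕ) : vs v γ (n+1) = vs v γ n + γ n • v n := by
  rw [vs, Finset.sum_range_succ]; rfl

lemma tri_zero' {m a γ : ℕ → ℝ} {n : ℕ} (h : ∀ k, n ≤ k → γ k = 0) :
    ∀ k, n + 1 ≤ k → tri m a γ k = 0 := by
  intro k hk
  obtain ⟨j, rfl⟩ : ∃ j, k = j + 1 := ⟨k - 1, by omega⟩
  rw [tri, dd, dd, h j (by omega), h (j+1) (by omega), h (j+1+1) (by omega)]
  simp

lemma dd_add (m a γ δ : ℕ → ℝ) : dd m a (γ + δ) = dd m a γ + dd m a δ := by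
  funext k; simp only [dd, Pi.add_apply]; ring

lemma dd_smul (m a γ : ℕ → ℝ) (c : ℝ) : dd m a (c • γ) = c • dd m a γ := by
  funext k; simp only [dd, Pi.smul_apply, smul_eq_mul]; ring

lemma tri_add (m a γ δ : ℕ → ℝ) : tri m a (γ + δ) = tri m a γ + tri m a δ := by
  funext k
  cases k with
  | zero => simp only [tri, dd_add, Pi.add_apply]
  | succ k => simp only [tri, dd_add, Pi.add_apply]; ring

lemma tri_smul (m a γ : ℕ → ℝ) (c : ℝ) : tri m a (c • γ) = c • tri m a γ := by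
  funext k
  cases k with
  | zero => simp only [tri, dd_smul, Pi.smul_apply]
  | succ k => simp only [tri, dd_smul, Pi.smul_apply, smul_eq_mul]; ring

lemma vs_add (v : ℕ → E) (γ δ : ℕ → ℝ) (n : ℕ) : vs v (γ + δ) n = vs v γ n + vs v δ n := by
  simp only [vs, Pi.add_apply, add_smul, Finset.sum_add_distrib]

lemma vs_smul (v : ℕ → E) (γ : ℕ → ℝ) (c : ℝ) (n : ℕ) : vs v (c • γ) n = c • vs v γ n := by
  simp only [vs, Pi.smul_apply, smul_eq_mul, mul_smul, Finset.smul_sum]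

variable {T : E →ₗ[ℝ] E} {G η : ℝ} {K : ℕ} {x r q : ℕ → E} {a : ℕ → ℝ}

lemma dd_le (h : SharpM T G η K x r q a) {γ : ℕ → ℝ} {M : ℝ} (hγ : ∀ k, |γ k| ≤ M)
    {k : ℕ} (hk : k < K) : |dd (mm r) a γ k| ≤ 9.6 * M := by
  have ha := h.apos hk
  have h1 := h.alo k hk
  have h2 := h.mn k hk
  have hM : 0 ≤ M := (abs_nonneg _).trans (hγ k)
  rw [dd, abs_div, abs_of_pos ha, div_le_iff₀ ha]
  have h3 : |mm r k * γ k| ≤ ‖r k‖^2 * M := by
    rw [abs_mul, mm, abs_of_nonneg (sq_nonneg _)]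
    gcongr
    exact hγ k
  have h4 : |mm r (k+1) * γ (k+1)| ≤ ‖r (k+1)‖^2 * M := by
    rw [abs_mul, mm, abs_of_nonneg (sq_nonneg _)]
    gcongr
    exact hγ (k+1)
  have h5 := abs_sub (mm r k * γ k) (mm r (k+1) * γ (k+1))
  nlinarith

/-- the error at each step -/
lemma verr (h : SharpM T G η K x r q a) {γ : ℕ → ℝ} {M : ℝ} (hγ : ∀ k, |γ k| ≤ M) :
    ∀ n, n < K → ‖T (vs r γ (n+1)) - vs r (tri (mm r) a γ) (n+1)
      - (mm r (n+1) * γ (n+1)) • T (q n) + dd (mm r) a γ n • r (n+1)‖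
        ≤ (n+1) * (2 * (M * G^2 * η)) := by
  have hG := h.G1
  have hG100 := h.G100
  have hη := h.η0
  have hM : 0 ≤ M := (abs_nonneg _).trans (hγ 0)
  have hGG : 10000 ≤ G^2 := by nlinarith
  have hbase : ∀ n < K, |dd (mm r) a γ n| * η ≤ M * G^2 * η := by
    intro n hn
    have h1 := dd_le h hγ hn
    have : 9.6 * M ≤ M * G^2 := by nlinarith
    gcongr
    linarith
  intro n
  induction n with
  | zero =>
    intro hn
    have h2 := h.e2 0 hn
    set e2 := r (0+1) - r 0 + a 0 • T (q 0) with he2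
    have hr1 : r (0+1) = r 0 - a 0 • T (q 0) + e2 := by rw [he2]; abel
    have ha := h.apos hn
    have hD : mm r (0+1) * γ (0+1) = mm r 0 * γ 0 - a 0 * dd (mm r) a γ 0 := by
      rw [dd]; field_simp; ring
    have hm0 : mm r 0 = 1 := by rw [mm, h.r01]; norm_num
    have e : T (vs r γ (0+1)) - vs r (tri (mm r) a γ) (0+1)
      - (mm r (0+1) * γ (0+1)) • T (q 0) + dd (mm r) a γ 0 • r (0+1) = dd (mm r) a γ 0 • e2 := by
      rw [vs_succ, vs_succ, hD, hm0, hr1]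
      simp only [vs, Finset.range_zero, Finset.sum_empty, zero_add, tri, map_smul]
      rw [← h.q0]
      module
    rw [e, norm_smul, Real.norm_eq_abs]
    have h3 := hbase 0 hn
    have h4 : 0 ≤ M * G^2 * η := by positivity
    calc |dd (mm r) a γ 0| * ‖e2‖ ≤ |dd (mm r) a γ 0| * η := by gcongr
      _ ≤ M * G^2 * η := h3
      _ ≤ _ := by push_cast; linarith
  | succ n ih =>
    intro hn
    have ih' := ih (by omega)
    have h2 := h.e2 (n+1) hn
    have h3 := h.e3 n (by omega)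
    have hr := h.rpos (show n+1 ≤ K by omega)
    have hrhi := h.rhi (n+1) (by omega)
    set e2 := r (n+1+1) - r (n+1) + a (n+1) • T (q (n+1)) with he2
    set e3 := q (n+1) - q n - (‖r (n+1)‖^2)⁻¹ • r (n+1) with he3
    have hr1 : r (n+1+1) = r (n+1) - a (n+1) • T (q (n+1)) + e2 := by rw [he2]; abel
    have ha := h.apos hn
    have hD : mm r (n+1+1) * γ (n+1+1) = mm r (n+1) * γ (n+1) - a (n+1) * dd (mm r) a γ (n+1) := by
      rw [dd]; field_simp; ring
    have hrr : T (r (n+1)) = mm r (n+1) • (T (q (n+1)) - T (q n) - T e3) := by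
      have : r (n+1) = mm r (n+1) • (q (n+1) - q n - e3) := by
        rw [he3, sub_sub_cancel, smul_smul, mm, mul_inv_cancel₀ (by positivity), one_smul]
      rw [← map_sub, ← map_sub, ← map_smul, ← this]
    have e : T (vs r γ (n+1+1)) - vs r (tri (mm r) a γ) (n+1+1)
      - (mm r (n+1+1) * γ (n+1+1)) • T (q (n+1)) + dd (mm r) a γ (n+1) • r (n+1+1) =
      (T (vs r γ (n+1)) - vs r (tri (mm r) a γ) (n+1)
      - (mm r (n+1) * γ (n+1)) • T (q n) + dd (mm r) a γ n • r (n+1)) +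
      (dd (mm r) a γ (n+1) • e2 - (γ (n+1) * mm r (n+1)) • T e3) := by
      rw [vs_succ r _ (n+1), vs_succ r _ (n+1), map_add, map_smul, hD, hr1, hrr]
      simp only [tri]
      module
    rw [e]
    have h4 : ‖dd (mm r) a γ (n+1) • e2‖ ≤ M * G^2 * η := by
      rw [norm_smul, Real.norm_eq_abs]
      calc |dd (mm r) a γ (n+1)| * ‖e2‖ ≤ |dd (mm r) a γ (n+1)| * η := by gcongr
        _ ≤ M * G^2 * η := hbase _ hn
    have h5 : ‖(γ (n+1) * mm r (n+1)) • T e3‖ ≤ M * G^2 * η := by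
      rw [norm_smul, Real.norm_eq_abs, abs_mul, mm, abs_of_nonneg (sq_nonneg ‖r (n+1)‖)]
      have h6 := (h.one e3).trans h3
      have h7 := hγ (n+1)
      gcongr
    calc _ ≤ ‖T (vs r γ (n+1)) - vs r (tri (mm r) a γ) (n+1)
      - (mm r (n+1) * γ (n+1)) • T (q n) + dd (mm r) a γ n • r (n+1)‖ +
        ‖dd (mm r) a γ (n+1) • e2 - (γ (n+1) * mm r (n+1)) • T e3‖ := norm_add_le _ _
      _ ≤ (n+1) * (2 * (M * G^2 * η)) + (M * G^2 * η + M * G^2 * η) := by
        have := norm_sub_le (dd (mm r) a γ (n+1) • e2) ((γ (n+1) * mm r (n+1)) • T e3)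
        linarith
      _ = _ := by push_cast; ring

/-- the error for the iterates -/
lemma xerr (h : SharpM T G η K x r q a) {γ : ℕ → ℝ} {M : ℝ} (hγ : ∀ k, |γ k| ≤ M) :
    ∀ n, n < K → ‖vs x (tri (mm r) a γ) (n+1) + vs r γ (n+1)
      - (mm r (n+1) * γ (n+1)) • q n - dd (mm r) a γ n • x (n+1)‖
        ≤ (n+1) * (2 * (M * G^2 * η)) := by
  have hG := h.G1
  have hG100 := h.G100
  have hη := h.η0
  have hM : 0 ≤ M := (abs_nonneg _).trans (hγ 0)
  have hGG : 10000 ≤ G^2 := by nlinarith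
  have hbase : ∀ n < K, |dd (mm r) a γ n| * η ≤ M * G^2 * η := by
    intro n hn
    have h1 := dd_le h hγ hn
    have : 9.6 * M ≤ M * G^2 := by nlinarith
    gcongr
    linarith
  intro n
  induction n with
  | zero =>
    intro hn
    have h2 := h.e1 0 hn
    set e1 := x (0+1) - x 0 - a 0 • q 0 with he1
    have hx1 : x (0+1) = x 0 + a 0 • q 0 + e1 := by rw [he1]; abel
    have ha := h.apos hn
    have hD : mm r (0+1) * γ (0+1) = mm r 0 * γ 0 - a 0 * dd (mm r) a γ 0 := by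
      rw [dd]; field_simp; ring
    have hm0 : mm r 0 = 1 := by rw [mm, h.r01]; norm_num
    have e : vs x (tri (mm r) a γ) (0+1) + vs r γ (0+1)
      - (mm r (0+1) * γ (0+1)) • q 0 - dd (mm r) a γ 0 • x (0+1) = -(dd (mm r) a γ 0 • e1) := by
      rw [vs_succ, vs_succ, hD, hm0, hx1]
      simp only [vs, Finset.range_zero, Finset.sum_empty, zero_add, tri]
      rw [← h.q0]
      module
    rw [e, norm_neg, norm_smul, Real.norm_eq_abs]
    have h3 := hbase 0 hn
    have h4 : 0 ≤ M * G^2 * η := by positivity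
    calc |dd (mm r) a γ 0| * ‖e1‖ ≤ |dd (mm r) a γ 0| * η := by gcongr
      _ ≤ M * G^2 * η := h3
      _ ≤ _ := by push_cast; linarith
  | succ n ih =>
    intro hn
    have ih' := ih (by omega)
    have h2 := h.e1 (n+1) hn
    have h3 := h.e3 n (by omega)
    have hr := h.rpos (show n+1 ≤ K by omega)
    have hrhi := h.rhi (n+1) (by omega)
    set e1 := x (n+1+1) - x (n+1) - a (n+1) • q (n+1) with he1
    set e3 := q (n+1) - q n - (‖r (n+1)‖^2)⁻¹ • r (n+1) with he3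
    have hx1 : x (n+1+1) = x (n+1) + a (n+1) • q (n+1) + e1 := by rw [he1]; abel
    have ha := h.apos hn
    have hD : mm r (n+1+1) * γ (n+1+1) = mm r (n+1) * γ (n+1) - a (n+1) * dd (mm r) a γ (n+1) := by
      rw [dd]; field_simp; ring
    have hrr : r (n+1) = mm r (n+1) • (q (n+1) - q n - e3) := by
      rw [he3, sub_sub_cancel, smul_smul, mm, mul_inv_cancel₀ (by positivity), one_smul]
    have e : vs x (tri (mm r) a γ) (n+1+1) + vs r γ (n+1+1)
      - (mm r (n+1+1) * γ (n+1+1)) • q (n+1) - dd (mm r) a γ (n+1) • x (n+1+1) =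
      (vs x (tri (mm r) a γ) (n+1) + vs r γ (n+1)
      - (mm r (n+1) * γ (n+1)) • q n - dd (mm r) a γ n • x (n+1)) -
      (dd (mm r) a γ (n+1) • e1 + (γ (n+1) * mm r (n+1)) • e3) := by
      rw [vs_succ x _ (n+1), vs_succ r _ (n+1), hD, hx1]
      have hrr' : γ (n+1) • r (n+1) = (γ (n+1) * mm r (n+1)) • (q (n+1) - q n - e3) := by
        rw [mul_smul, ← hrr]
      rw [hrr']
      simp only [tri]
      module
    rw [e]
    have h4 : ‖dd (mm r) a γ (n+1) • e1‖ ≤ M * G^2 * η := by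
      rw [norm_smul, Real.norm_eq_abs]
      calc |dd (mm r) a γ (n+1)| * ‖e1‖ ≤ |dd (mm r) a γ (n+1)| * η := by gcongr
        _ ≤ M * G^2 * η := hbase _ hn
    have h5 : ‖(γ (n+1) * mm r (n+1)) • e3‖ ≤ M * G^2 * η := by
      rw [norm_smul, Real.norm_eq_abs, abs_mul, mm, abs_of_nonneg (sq_nonneg ‖r (n+1)‖)]
      have h7 := hγ (n+1)
      gcongr
    calc _ ≤ ‖vs x (tri (mm r) a γ) (n+1) + vs r γ (n+1)
      - (mm r (n+1) * γ (n+1)) • q n - dd (mm r) a γ n • x (n+1)‖ +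
        ‖dd (mm r) a γ (n+1) • e1 + (γ (n+1) * mm r (n+1)) • e3‖ := norm_sub_le _ _
      _ ≤ (n+1) * (2 * (M * G^2 * η)) + (M * G^2 * η + M * G^2 * η) := by
        have := norm_add_le (dd (mm r) a γ (n+1) • e1) ((γ (n+1) * mm r (n+1)) • e3)
        linarith
      _ = _ := by push_cast; ring

/-- The vector lemma. -/
lemma vlem (h : SharpM T G η K x r q a) (hK : 1 ≤ K) {γ : ℕ → ℝ} {M : ℝ} (hγ : ∀ k, |γ k| ≤ M)
    (h0 : ∀ k, K ≤ k → γ k = 0) :
    ‖T (vs r γ (K+1)) - vs r (tri (mm r) a γ) (K+1)‖ ≤ 2 * (M * G^3 * η) ∧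
    ‖vs x (tri (mm r) a γ) (K+1) + vs r γ (K+1)‖ ≤ 2 * (M * G^3 * η) := by
  have hG := h.G1
  have hη := h.η0
  have hM : 0 ≤ M := (abs_nonneg _).trans (hγ 0)
  obtain ⟨n, rfl⟩ : ∃ n, K = n + 1 := ⟨K - 1, by omega⟩
  have hnG : ((n:ℝ)+1) ≤ G := by
    have := h.KG
    push_cast at this
    exact this
  have htri : tri (mm r) a γ (n+1) = - dd (mm r) a γ n := by
    rw [tri, dd, h0 (n+1) le_rfl, h0 (n+1+1) (by omega)]
    simp
  have hb : (n+1) * (2 * (M * G^2 * η)) ≤ 2 * (M * G^3 * η) := by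
    calc (n+1) * (2 * (M * G^2 * η)) ≤ G * (2 * (M * G^2 * η)) := by gcongr
      _ = _ := by ring
  constructor
  · have h1 := (verr h hγ n (by omega)).trans hb
    refine le_trans (le_of_eq ?_) h1
    rw [vs_succ r γ (n+1), vs_succ r _ (n+1), h0 (n+1) le_rfl, htri, mul_zero, zero_smul,
      zero_smul, add_zero]
    congr 1
    module
  · have h1 := (xerr h hγ n (by omega)).trans hb
    refine le_trans (le_of_eq ?_) h1
    rw [vs_succ r γ (n+1), vs_succ x _ (n+1), h0 (n+1) le_rfl, htri, mul_zero, zero_smul,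
      zero_smul, add_zero]
    congr 1
    module

end Pool.Agent.Helper643.CG
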