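import Mathlib
import Pool.Agent.Helper643.CGF1A

/-!
Commutation of the orthogonality defect with the tridiagonal model.
-/

namespace Pool.Agent.Helper643.CG

open scoped InnerProductSpace

variable {E : Type*} [NormedAddCommGroup E] [InnerProductSpace ℝ E]

/-- tail sums -/
noncomputable def RR (r : ℕ → E) (K : ℕ) (γ : ℕ → ℝ) (i : ℕ) : E := vs r γ (K+1) - vs r γ (i+1)

/-- orthogonality defect -/
noncomputable def BB (r : ℕ → E) (K : ℕ) (γ : ℕ → ℝ) (i : ℕ) : ℝ := ⟪r i, RR r K γ i⟫_ℝ / ‖r i‖^2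

lemma RR_succ (r : ℕ → E) (K : ℕ) (γ : ℕ → ℝ) (i : ℕ) :
    RR r K γ i = γ (i+1) • r (i+1) + RR r K γ (i+1) := by
  rw [RR, RR, vs_succ r γ (i+1)]; abel

lemma RR_add (r : ℕ → E) (K : ℕ) (γ δ : ℕ → ℝ) (i : ℕ) :
    RR r K (γ + δ) i = RR r K γ i + RR r K δ i := by
  rw [RR, RR, RR, vs_add, vs_add]; abel

lemma RR_smul (r : ℕ → E) (K : ℕ) (γ : ℕ → ℝ) (c : ℝ) (i : ℕ) :
    RR r K (c • γ) i = c • RR r K γ i := by
  rw [RR, RR, vs_smul, vs_smul, smul_sub]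

lemma BB_add (r : ℕ → E) (K : ℕ) (γ δ : ℕ → ℝ) : BB r K (γ + δ) = BB r K γ + BB r K δ := by
  funext i; rw [BB, RR_add, inner_add_right, add_div]; rfl

lemma BB_smul (r : ℕ → E) (K : ℕ) (γ : ℕ → ℝ) (c : ℝ) : BB r K (c • γ) = c • BB r K γ := by
  funext i; rw [BB, RR_smul, real_inner_smul_right, mul_div_assoc]; rfl

lemma vs_const {v : ℕ → E} {γ : ℕ → ℝ} {n : ℕ} (h : ∀ k, n ≤ k → γ k = 0) :
    ∀ j, n ≤ j → vs v γ j = vs v γ n := by
  intro j hj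
  induction j, hj using Nat.le_induction with
  | base => rfl
  | succ j hj ih => rw [vs_succ, ih, h j hj, zero_smul, add_zero]

/-- the defect vanishes from the end of the support on -/
lemma BB_zero {r : ℕ → E} {K n : ℕ} {γ : ℕ → ℝ} (hn : n ≤ K + 1) (h : ∀ k, n ≤ k → γ k = 0) :
    ∀ i, n ≤ i + 1 → BB r K γ i = 0 := by
  intro i hi
  rw [BB, RR, vs_const h (K+1) hn, vs_const h (i+1) hi, sub_self, inner_zero_right, zero_div]

variable {T : E →ₗ[ℝ] E} {G η : ℝ} {K : ℕ} {x r q : ℕ → E} {a : ℕ → ℝ}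

lemma RR_norm (h : SharpM T G η K x r q a) (hK : 1 ≤ K) {γ : ℕ → ℝ} {M : ℝ}
    (hγ : ∀ k, |γ k| ≤ M) {i : ℕ} (hi : i ≤ K) : ‖RR r K γ i‖ ≤ 4 * (M * G^2) := by
  have hG := h.G1
  have hM : 0 ≤ M := (abs_nonneg _).trans (hγ 0)
  have hKG := h.KG
  have hK' : (1:ℝ) ≤ K := by exact_mod_cast hK
  have key : ∀ n ≤ K + 1, ‖vs r γ n‖ ≤ 2 * (M * G^2) := by
    intro n hn
    have h1 : ‖vs r γ n‖ ≤ n * (M * G) := by
      unfold vs
      calc ‖∑ k ∈ Finset.range n, γ k • r k‖ ≤ ∑ k ∈ Finset.range n, ‖γ k • r k‖ :=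
            norm_sum_le _ _
        _ ≤ ∑ k ∈ Finset.range n, M * G := by
            apply Finset.sum_le_sum
            intro k hk
            rw [Finset.mem_range] at hk
            rw [norm_smul, Real.norm_eq_abs]
            have h2 := hγ k
            have h3 := h.rhi k (by omega)
            gcongr
        _ = n * (M * G) := by rw [Finset.sum_const, Finset.card_range, nsmul_eq_mul]
    have h2 : (n:ℝ) ≤ 2 * G := by
      have : (n:ℝ) ≤ K + 1 := by exact_mod_cast hn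
      linarith
    calc ‖vs r γ n‖ ≤ n * (M * G) := h1
      _ ≤ (2 * G) * (M * G) := by gcongr
      _ = _ := by ring
  rw [RR]
  have h1 := key (K+1) le_rfl
  have h2 := key (i+1) (by omega)
  have := norm_sub_le (vs r γ (K+1)) (vs r γ (i+1))
  linarith

lemma ainv (h : SharpM T G η K x r q a) {i : ℕ} (hi : i < K) : (a i)⁻¹ ≤ 3 * G^2 := by
  have h1 := h.alo i hi
  have h2 := h.rpos hi.le
  have h3 := h.minv hi.le
  have h4 : (a i)⁻¹ ≤ (0.45 * ‖r i‖^2)⁻¹ := by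
    apply inv_anti₀ (by positivity) h1
  rw [mul_inv] at h4
  have : 0 ≤ (‖r i‖^2)⁻¹ := by positivity
  norm_num at h4 ⊢
  linarith

lemma inner_RR0 (h : SharpM T G η K x r q a) {γ : ℕ → ℝ} {i : ℕ} (hi : i ≤ K) :
    ⟪r i, RR r K γ i⟫_ℝ = mm r i * BB r K γ i := by
  have h2 := h.rpos hi
  rw [BB, mm]; field_simp

lemma inner_RR1 (h : SharpM T G η K x r q a) {γ : ℕ → ℝ} {i : ℕ} (hi : i < K) :
    ⟪r (i+1), RR r K γ i⟫_ℝ = mm r (i+1) * γ (i+1) + mm r (i+1) * BB r K γ (i+1) := by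
  rw [RR_succ, inner_add_right, real_inner_smul_right, inner_RR0 h hi,
    real_inner_self_eq_norm_sq, mm]
  ring

lemma inner_RR2 (h : SharpM T G η K x r q a) {γ : ℕ → ℝ} {i : ℕ} (hi : i < K) :
    ⟪r i, RR r K γ (i+1)⟫_ℝ = mm r i * BB r K γ i - γ (i+1) * ⟪r i, r (i+1)⟫_ℝ := by
  have h1 := RR_succ r K γ i
  have h2 : RR r K γ (i+1) = RR r K γ i - γ (i+1) • r (i+1) := by rw [h1]; abel
  rw [h2, inner_sub_right, real_inner_smul_right, inner_RR0 h hi.le]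

lemma TqR (h : SharpM T G η K x r q a) (hK : 1 ≤ K) {γ : ℕ → ℝ} {M : ℝ}
    (hγ : ∀ k, |γ k| ≤ M) {i : ℕ} (hi : i < K) :
    |⟪T (q i), RR r K γ i⟫_ℝ - (dd (mm r) a (BB r K γ) i - mm r (i+1) * γ (i+1) / a i)| ≤
      12 * (M * G^4 * η) := by
  have hη := h.η0
  have hG := h.G1
  have hM : 0 ≤ M := (abs_nonneg _).trans (hγ 0)
  have ha := h.apos hi
  have h2 := h.e2 i hi
  have h3 := RR_norm h hK hγ hi.le
  have h4 := ainv h hi
  set e2 := r (i+1) - r i + a i • T (q i) with he2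
  have e : ⟪T (q i), RR r K γ i⟫_ℝ - (dd (mm r) a (BB r K γ) i - mm r (i+1) * γ (i+1) / a i) =
      ⟪e2, RR r K γ i⟫_ℝ * (a i)⁻¹ := by
    have e1 : ⟪e2, RR r K γ i⟫_ℝ = ⟪r (i+1), RR r K γ i⟫_ℝ - ⟪r i, RR r K γ i⟫_ℝ +
        a i * ⟪T (q i), RR r K γ i⟫_ℝ := by
      rw [he2, inner_add_left, inner_sub_left, real_inner_smul_left]
    rw [e1, inner_RR0 h hi.le, inner_RR1 h hi, dd]
    field_simp
    ring
  rw [e, abs_mul, abs_of_pos (inv_pos.2 ha)]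
  have h5 : |⟪e2, RR r K γ i⟫_ℝ| ≤ η * (4 * (M * G^2)) :=
    (abs_real_inner_le_norm _ _).trans (by gcongr)
  calc _ ≤ (η * (4 * (M * G^2))) * (3 * G^2) := by gcongr
    _ = _ := by ring

lemma TqR' (h : SharpM T G η K x r q a) (hK : 1 ≤ K) {γ : ℕ → ℝ} {M : ℝ}
    (hγ : ∀ k, |γ k| ≤ M) {i : ℕ} (hi : i < K) :
    |⟪T (q i), RR r K γ (i+1)⟫_ℝ - dd (mm r) a (BB r K γ) i| ≤ 13 * (M * G^4 * η) := by
  have hη := h.η0
  have hG := h.G1
  have hG100 := h.G100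
  have hM : 0 ≤ M := (abs_nonneg _).trans (hγ 0)
  have ha := h.apos hi
  have h2 := h.e2 i hi
  have h3 := RR_norm h hK hγ (show i + 1 ≤ K by omega)
  have h4 := ainv h hi
  have h6 := h.om i hi
  set e2 := r (i+1) - r i + a i • T (q i) with he2
  have e : ⟪T (q i), RR r K γ (i+1)⟫_ℝ - dd (mm r) a (BB r K γ) i =
      (⟪e2, RR r K γ (i+1)⟫_ℝ - γ (i+1) * ⟪r i, r (i+1)⟫_ℝ) * (a i)⁻¹ := by
    have e1 : ⟪e2, RR r K γ (i+1)⟫_ℝ = ⟪r (i+1), RR r K γ (i+1)⟫_ℝ - ⟪r i, RR r K γ (i+1)⟫_ℝ +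
        a i * ⟪T (q i), RR r K γ (i+1)⟫_ℝ := by
      rw [he2, inner_add_left, inner_sub_left, real_inner_smul_left]
    rw [e1, inner_RR0 h (show i + 1 ≤ K by omega), inner_RR2 h hi, dd]
    field_simp
    ring
  rw [e, abs_mul, abs_of_pos (inv_pos.2 ha)]
  have h5 : |⟪e2, RR r K γ (i+1)⟫_ℝ| ≤ η * (4 * (M * G^2)) :=
    (abs_real_inner_le_norm _ _).trans (by gcongr)
  have h7 : |γ (i+1) * ⟪r i, r (i+1)⟫_ℝ| ≤ M * (G * η) := by
    rw [abs_mul]
    have := hγ (i+1)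
    gcongr
  have h8 : |⟪e2, RR r K γ (i+1)⟫_ℝ - γ (i+1) * ⟪r i, r (i+1)⟫_ℝ| ≤
      η * (4 * (M * G^2)) + M * (G * η) := (abs_sub _ _).trans (add_le_add h5 h7)
  calc _ ≤ (η * (4 * (M * G^2)) + M * (G * η)) * (3 * G^2) := by gcongr
    _ = 12 * (M * G^4 * η) + 3 * (M * (G^3) * η) := by ring
    _ ≤ 12 * (M * G^4 * η) + 1 * (M * G^4 * η) := by
        have : 3 * (M * G^3 * η) ≤ 1 * (M * G^4 * η) := by
          calc 3 * (M * G^3 * η) ≤ G * (M * G^3 * η) := by gcongr; linarith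
            _ = _ := by ring
        linarith
    _ = _ := by ring

lemma Xex (h : SharpM T G η K x r q a) (hK : 1 ≤ K) {γ : ℕ → ℝ} {M : ℝ}
    (hγ : ∀ k, |γ k| ≤ M) {i : ℕ} (hi : i < K) :
    ∃ X : E, T (r i) = mm r i • (T (q i) - X) ∧
      |⟪X, RR r K γ i⟫_ℝ - (dd (mm r) a (BB r K γ) i - tri (mm r) a (BB r K γ) i)| ≤
        14 * (M * G^4 * η) := by
  have hη := h.η0
  have hG := h.G1
  have hG100 := h.G100
  have hM : 0 ≤ M := (abs_nonneg _).trans (hγ 0)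
  cases i with
  | zero =>
    refine ⟨0, ?_, ?_⟩
    · rw [sub_zero, mm, h.r01, h.q0]; simp
    · rw [inner_zero_left, tri, sub_self, sub_zero, abs_zero]
      positivity
  | succ i =>
    have h3 := h.e3 i (by omega)
    have hr := h.rpos (show i+1 ≤ K by omega)
    set e3 := q (i+1) - q i - (‖r (i+1)‖^2)⁻¹ • r (i+1) with he3
    refine ⟨T (q i) + T e3, ?_, ?_⟩
    · have : r (i+1) = mm r (i+1) • (q (i+1) - q i - e3) := by
        rw [he3, sub_sub_cancel, smul_smul, mm, mul_inv_cancel₀ (by positivity), one_smul]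
      rw [← map_add, ← map_sub, ← map_smul, ← sub_sub, ← this]
    · have e : dd (mm r) a (BB r K γ) (i+1) - tri (mm r) a (BB r K γ) (i+1) =
          dd (mm r) a (BB r K γ) i := by rw [tri]; ring
      rw [e, inner_add_left]
      have h5 := TqR' h hK hγ (show i < K by omega)
      have h6 : |⟪T e3, RR r K γ (i+1)⟫_ℝ| ≤ 1 * (M * G^4 * η) := by
        have h7 := (h.one e3).trans h3
        have h8 := RR_norm h hK hγ (show i + 1 ≤ K by omega)
        refine (abs_real_inner_le_norm _ _).trans ?_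
        calc ‖T e3‖ * ‖RR r K γ (i+1)‖ ≤ η * (4 * (M * G^2)) := by gcongr
          _ = 4 * (M * G^2 * η) := by ring
          _ ≤ G^2 * (M * G^2 * η) := by
            have : 4 ≤ G^2 := by nlinarith
            gcongr
          _ = _ := by ring
      have e2 : ⟪T (q i), RR r K γ (i+1)⟫_ℝ + ⟪T e3, RR r K γ (i+1)⟫_ℝ -
          dd (mm r) a (BB r K γ) i = (⟪T (q i), RR r K γ (i+1)⟫_ℝ -
          dd (mm r) a (BB r K γ) i) + ⟪T e3, RR r K γ (i+1)⟫_ℝ := by ring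
      rw [e2]
      refine (abs_add_le _ _).trans ?_
      linarith

/-- The commutation lemma. -/
lemma comm (h : SharpM T G η K x r q a) (hK : 1 ≤ K) {γ : ℕ → ℝ} {M : ℝ}
    (hγ : ∀ k, |γ k| ≤ M) (h0 : ∀ k, K ≤ k → γ k = 0) {i : ℕ} (hi : i ≤ K) :
    |BB r K (tri (mm r) a γ) i - tri (mm r) a (BB r K γ) i| ≤ M * G^5 * η := by
  have hη := h.η0
  have hG := h.G1
  have hG100 := h.G100
  have hM : 0 ≤ M := (abs_nonneg _).trans (hγ 0)
  rcases Nat.lt_or_ge i K with hiK | hiK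
  · have ha := h.apos hiK
    have hri := h.rpos hi
    have hrinv := h.rinv hi
    have hminv := h.minv hi
    have hrhi := h.rhi i hi
    have hom := h.om i hiK
    have hmn := h.mn i hiK
    have h2 := h.e2 i hiK
    obtain ⟨X, hX, hXb⟩ := Xex h hK hγ hiK
    have hTq := TqR h hK hγ hiK
    have hv1 := verr h hγ i hiK
    have hv2 := (vlem h hK hγ h0).1
    have hdd := dd_le h hγ hiK
    have hainv := ainv h hiK
    set D := dd (mm r) a γ i with hD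
    set β := BB r K γ with hβ
    set E1 := T (vs r γ (i+1)) - vs r (tri (mm r) a γ) (i+1)
      - (mm r (i+1) * γ (i+1)) • T (q i) + D • r (i+1) with hE1
    set E2 := T (vs r γ (K+1)) - vs r (tri (mm r) a γ) (K+1) with hE2
    set e2 := r (i+1) - r i + a i • T (q i) with he2
    have hi1 : ((i:ℝ)+1) ≤ G := by
      have : ((i:ℝ)+1) ≤ K := by exact_mod_cast hiK
      exact this.trans h.KG
    have hE1n : ‖E1‖ ≤ 2 * (M * G^3 * η) := by
      refine hv1.trans ?_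
      calc (i+1) * (2 * (M * G^2 * η)) ≤ G * (2 * (M * G^2 * η)) := by gcongr
        _ = _ := by ring
    have hRR : RR r K (tri (mm r) a γ) i = T (RR r K γ i) + (mm r (i+1) * γ (i+1)) • T (q i)
        - D • r (i+1) + (E1 - E2) := by
      rw [RR, RR, map_sub, hE1, hE2]; abel
    -- the exact formula
    have key : BB r K (tri (mm r) a γ) i - tri (mm r) a β i =
        (⟪T (q i), RR r K γ i⟫_ℝ - (dd (mm r) a β i - mm r (i+1) * γ (i+1) / a i))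
        - (⟪X, RR r K γ i⟫_ℝ - (dd (mm r) a β i - tri (mm r) a β i))
        + γ (i+1) * (mm r (i+1) / a i) * (⟪r i, e2⟫_ℝ - ⟪r i, r (i+1)⟫_ℝ) * (‖r i‖^2)⁻¹
        - D * ⟪r i, r (i+1)⟫_ℝ * (‖r i‖^2)⁻¹ + ⟪r i, E1 - E2⟫_ℝ * (‖r i‖^2)⁻¹ := by
      have e1 : ⟪r i, RR r K (tri (mm r) a γ) i⟫_ℝ =
          mm r i * (⟪T (q i), RR r K γ i⟫_ℝ - ⟪X, RR r K γ i⟫_ℝ) +
          mm r (i+1) * γ (i+1) * ⟪r i, T (q i)⟫_ℝ - D * ⟪r i, r (i+1)⟫_ℝ + ⟪r i, E1 - E2⟫_ℝ := by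
        rw [hRR, inner_add_right, inner_sub_right, inner_add_right, real_inner_smul_right,
          real_inner_smul_right, ← h.sym, hX, real_inner_smul_left, inner_sub_left]
      have e3 : ⟪r i, T (q i)⟫_ℝ = (mm r i - ⟪r i, r (i+1)⟫_ℝ + ⟪r i, e2⟫_ℝ) / a i := by
        rw [he2, inner_add_right, inner_sub_right, real_inner_smul_right,
          real_inner_self_eq_norm_sq, mm]
        field_simp
        ring
      rw [BB, e1, e3, mm]
      field_simp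
      ring
    have b3 : |γ (i+1) * (mm r (i+1) / a i) * (⟪r i, e2⟫_ℝ - ⟪r i, r (i+1)⟫_ℝ) * (‖r i‖^2)⁻¹| ≤
        15 * (M * G^3 * η) := by
      have f1 : |mm r (i+1) / a i| ≤ 7.3 := by
        rw [abs_div, abs_of_pos ha, mm, abs_of_nonneg (sq_nonneg ‖r (i+1)‖), div_le_iff₀ ha]
        exact hmn
      have f2 : |⟪r i, e2⟫_ℝ - ⟪r i, r (i+1)⟫_ℝ| ≤ 2 * (G * η) := by
        have f3 : |⟪r i, e2⟫_ℝ| ≤ G * η := (abs_real_inner_le_norm _ _).trans (by gcongr)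
        refine (abs_sub _ _).trans ?_
        linarith
      have f4 := hγ (i+1)
      rw [abs_mul, abs_mul, abs_mul, abs_of_pos (by positivity : 0 < (‖r i‖^2)⁻¹)]
      calc _ ≤ M * 7.3 * (2 * (G * η)) * G^2 := by gcongr
        _ = 14.6 * (M * G^3 * η) := by ring
        _ ≤ _ := by
          have : 0 ≤ M * G^3 * η := by positivity
          linarith
    have b4 : |D * ⟪r i, r (i+1)⟫_ℝ * (‖r i‖^2)⁻¹| ≤ 10 * (M * G^3 * η) := by
      rw [abs_mul, abs_mul, abs_of_pos (by positivity : 0 < (‖r i‖^2)⁻¹)]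
      calc _ ≤ (9.6 * M) * (G * η) * G^2 := by gcongr
        _ = 9.6 * (M * G^3 * η) := by ring
        _ ≤ _ := by
          have : 0 ≤ M * G^3 * η := by positivity
          linarith
    have b5 : |⟪r i, E1 - E2⟫_ℝ * (‖r i‖^2)⁻¹| ≤ 4 * (M * G^4 * η) := by
      rw [abs_mul, abs_of_pos (by positivity : 0 < (‖r i‖^2)⁻¹)]
      have f1 : |⟪r i, E1 - E2⟫_ℝ| ≤ ‖r i‖ * (4 * (M * G^3 * η)) := by
        refine (abs_real_inner_le_norm _ _).trans ?_
        have := norm_sub_le E1 E2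
        gcongr
        linarith
      calc |⟪r i, E1 - E2⟫_ℝ| * (‖r i‖^2)⁻¹ ≤ ‖r i‖ * (4 * (M * G^3 * η)) * (‖r i‖^2)⁻¹ := by
            gcongr
        _ = ‖r i‖⁻¹ * (4 * (M * G^3 * η)) := by field_simp
        _ ≤ G * (4 * (M * G^3 * η)) := by gcongr
        _ = _ := by ring
    rw [key]
    have hfin : 25 * (M * G^3 * η) + 30 * (M * G^4 * η) ≤ M * G^5 * η := by
      have f1 : 25 * (M * G^3 * η) ≤ 1 * (M * G^4 * η) := by
        calc 25 * (M * G^3 * η) ≤ G * (M * G^3 * η) := by gcongr; linarith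
          _ = _ := by ring
      calc 25 * (M * G^3 * η) + 30 * (M * G^4 * η) ≤ 31 * (M * G^4 * η) := by linarith
        _ ≤ G * (M * G^4 * η) := by gcongr; linarith
        _ = _ := by ring
    refine le_trans ?_ hfin
    have g1 := abs_add_le ((⟪T (q i), RR r K γ i⟫_ℝ - (dd (mm r) a β i - mm r (i+1) * γ (i+1) / a i))
        - (⟪X, RR r K γ i⟫_ℝ - (dd (mm r) a β i - tri (mm r) a β i))
        + γ (i+1) * (mm r (i+1) / a i) * (⟪r i, e2⟫_ℝ - ⟪r i, r (i+1)⟫_ℝ) * (‖r i‖^2)⁻¹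
        - D * ⟪r i, r (i+1)⟫_ℝ * (‖r i‖^2)⁻¹) (⟪r i, E1 - E2⟫_ℝ * (‖r i‖^2)⁻¹)
    have g2 := abs_sub ((⟪T (q i), RR r K γ i⟫_ℝ - (dd (mm r) a β i - mm r (i+1) * γ (i+1) / a i))
        - (⟪X, RR r K γ i⟫_ℝ - (dd (mm r) a β i - tri (mm r) a β i))
        + γ (i+1) * (mm r (i+1) / a i) * (⟪r i, e2⟫_ℝ - ⟪r i, r (i+1)⟫_ℝ) * (‖r i‖^2)⁻¹)
        (D * ⟪r i, r (i+1)⟫_ℝ * (‖r i‖^2)⁻¹)
    have g3 := abs_add_le ((⟪T (q i), RR r K γ i⟫_ℝ - (dd (mm r) a β i - mm r (i+1) * γ (i+1) / a i))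
        - (⟪X, RR r K γ i⟫_ℝ - (dd (mm r) a β i - tri (mm r) a β i)))
        (γ (i+1) * (mm r (i+1) / a i) * (⟪r i, e2⟫_ℝ - ⟪r i, r (i+1)⟫_ℝ) * (‖r i‖^2)⁻¹)
    have g4 := abs_sub ((⟪T (q i), RR r K γ i⟫_ℝ - (dd (mm r) a β i - mm r (i+1) * γ (i+1) / a i)))
        (⟪X, RR r K γ i⟫_ℝ - (dd (mm r) a β i - tri (mm r) a β i))
    linarith
  · have hiK' : i = K := le_antisymm hi hiK
    have e1 : BB r K (tri (mm r) a γ) i = 0 :=
      BB_zero (n := K+1) le_rfl (tri_zero' h0) i (by omega)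
    have hβ0 : ∀ k, K - 1 ≤ k → BB r K γ k = 0 := fun k hk =>
      BB_zero (n := K) (by omega) h0 k (by omega)
    have e2 : tri (mm r) a (BB r K γ) i = 0 := tri_zero' hβ0 i (by omega)
    rw [e1, e2, sub_zero, abs_zero]
    positivity

end Pool.Agent.Helper643.CG
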