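import Mathlib
import Pool.Agent.Helper643.CGF1B

/-!
Energy lemma and the weighted space.
-/

namespace Pool.Agent.Helper643.CG

set_option linter.unusedSectionVars false

open scoped InnerProductSpace

section energy

variable {H : Type*} [NormedAddCommGroup H] [InnerProductSpace ℝ H]

/-- Stability of the three-term Chebyshev recurrence. -/
lemma energy {N : ℕ} {U W f : ℕ → H} {c : ℝ} (hc : 0 ≤ c)
    (hrec : ∀ i, i + 2 ≤ N → U (i+2) = (2:ℝ) • W (i+1) - U i + f i)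
    (hsym : ∀ i, i + 1 ≤ N → ⟪W (i+1), U i⟫_ℝ = ⟪U (i+1), W i⟫_ℝ)
    (hW : ∀ i ≤ N, ‖W i‖ ≤ ‖U i‖) (h0 : U 0 = 0) (h1 : 1 ≤ N → ‖U 1‖ ≤ c)
    (hf : ∀ i, i + 2 ≤ N → ‖f i‖ ≤ c) : ∀ i ≤ N, ‖U i‖ ≤ (i:ℝ)^2 * c := by
  -- the energy
  have hQ : ∀ i, i + 1 ≤ N → ‖U (i+1)‖^2 + ‖U i‖^2 - 2 * ⟪W (i+1), U i⟫_ℝ ≤ ((i+1) * c)^2 := by
    intro i
    induction i with
    | zero =>
      intro hi
      rw [h0, norm_zero, inner_zero_right]
      have := h1 hi
      have h2 := norm_nonneg (U 1)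
      simp only [Nat.cast_zero, zero_add, one_mul]
      nlinarith
    | succ i ih =>
      intro hi
      have ih' := ih (by omega)
      set Q := ‖U (i+1)‖^2 + ‖U i‖^2 - 2 * ⟪W (i+1), U i⟫_ℝ with hQdef
      have e1 : ‖U (i+1+1)‖^2 + ‖U (i+1)‖^2 - 2 * ⟪W (i+1+1), U (i+1)⟫_ℝ =
          ‖(W (i+1) - U i) + f i‖^2 + (‖U (i+1)‖^2 - ‖W (i+1)‖^2) := by
        have e2 : (W (i+1) - U i) + f i = U (i+1+1) - W (i+1) := by
          rw [hrec i hi]; module
        rw [hsym (i+1) hi, e2, norm_sub_sq_real]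
        ring
      have e3 : Q = ‖W (i+1) - U i‖^2 + (‖U (i+1)‖^2 - ‖W (i+1)‖^2) := by
        rw [norm_sub_sq_real, hQdef]; ring
      have h4 : ‖W (i+1) - U i‖ ≤ (i+1) * c := by
        have h5 : ‖W (i+1)‖^2 ≤ ‖U (i+1)‖^2 := by
          have := hW (i+1) (by omega)
          gcongr
        apply (abs_le_of_sq_le_sq' _ (by positivity)).2
        linarith
      have h5 := hf i hi
      rw [e1]
      have h6 : ‖(W (i+1) - U i) + f i‖ ≤ ‖W (i+1) - U i‖ + ‖f i‖ := norm_add_le _ _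
      have h7 : ‖(W (i+1) - U i) + f i‖^2 ≤ (‖W (i+1) - U i‖ + c)^2 := by
        gcongr
        linarith
      push_cast
      nlinarith [norm_nonneg (W (i+1) - U i)]
  intro i
  induction i with
  | zero => intro _; rw [h0]; simp
  | succ i ih =>
    intro hi
    have ih' := ih (by omega)
    rcases Nat.eq_zero_or_pos i with h | h
    · subst h
      have := h1 hi
      simpa using this
    · obtain ⟨j, rfl⟩ : ∃ j, i = j + 1 := ⟨i - 1, by omega⟩
      have h2 := hQ (j+1) hi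
      have e1 : ‖U (j+1+1)‖^2 + ‖U (j+1)‖^2 - 2 * ⟪W (j+1+1), U (j+1)⟫_ℝ =
          ‖U (j+1+1) - W (j+1)‖^2 + (‖U (j+1)‖^2 - ‖W (j+1)‖^2) := by
        rw [hsym (j+1) hi, norm_sub_sq_real]
        ring
      rw [e1] at h2
      have h5 : ‖W (j+1)‖^2 ≤ ‖U (j+1)‖^2 := by
        have := hW (j+1) (by omega)
        gcongr
      have h6 : ‖U (j+1+1) - W (j+1)‖ ≤ ((j+1:ℕ)+1) * c := by
        apply (abs_le_of_sq_le_sq' _ (by positivity)).2
        linarith
      have h7 : ‖U (j+1+1)‖ ≤ ‖U (j+1+1) - W (j+1)‖ + ‖W (j+1)‖ := by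
        have := norm_add_le (U (j+1+1) - W (j+1)) (W (j+1))
        rwa [sub_add_cancel] at this
      have h8 := hW (j+1) (by omega)
      push_cast at *
      have h9 : 0 ≤ (j:ℝ) := Nat.cast_nonneg j
      nlinarith

end energy

/-- weighted embedding -/
noncomputable def Ph {E : Type*} [NormedAddCommGroup E] (r : ℕ → E) (K : ℕ) (γ : ℕ → ℝ) :
    EuclideanSpace ℝ (Fin (K+1)) := WithLp.toLp 2 (fun k => ‖r k‖ * γ k)

variable {E : Type*} [NormedAddCommGroup E] [InnerProductSpace ℝ E]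
variable {T : E →ₗ[ℝ] E} {G η : ℝ} {K : ℕ} {x r q : ℕ → E} {a : ℕ → ℝ}

lemma Ph_add (γ δ : ℕ → ℝ) : Ph r K (γ + δ) = Ph r K γ + Ph r K δ := by
  ext k; simp [Ph]; ring

lemma Ph_sub (γ δ : ℕ → ℝ) : Ph r K (γ - δ) = Ph r K γ - Ph r K δ := by
  ext k; simp [Ph]; ring

lemma Ph_smul (c : ℝ) (γ : ℕ → ℝ) : Ph r K (c • γ) = c • Ph r K γ := by
  ext k; simp [Ph]; ring

lemma Ph_inner (γ δ : ℕ → ℝ) :
    ⟪Ph r K γ, Ph r K δ⟫_ℝ = ∑ k ∈ Finset.range (K+1), mm r k * γ k * δ k := by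
  rw [Finset.sum_range]
  simp only [Ph, PiLp.inner_apply, mm]
  refine Finset.sum_congr rfl fun k _ => ?_
  simp
  ring

lemma Ph_norm (γ : ℕ → ℝ) :
    ‖Ph r K γ‖^2 = ∑ k ∈ Finset.range (K+1), mm r k * γ k^2 := by
  rw [← real_inner_self_eq_norm_sq, Ph_inner]
  refine Finset.sum_congr rfl fun k _ => ?_
  ring

lemma mm_nonneg (k : ℕ) : 0 ≤ mm r k := sq_nonneg _

/-- componentwise from the weighted norm -/
lemma comp_le (h : SharpM T G η K x r q a) {γ : ℕ → ℝ} {k : ℕ} (hk : k ≤ K) :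
    |γ k| ≤ G * ‖Ph r K γ‖ := by
  have hG : 0 ≤ G := by have := h.G1; linarith
  have hr := h.rpos hk
  have hinv := h.rinv hk
  have h1 : mm r k * γ k^2 ≤ ‖Ph r K γ‖^2 := by
    rw [Ph_norm]
    exact Finset.single_le_sum (f := fun k => mm r k * γ k^2)
      (fun i _ => mul_nonneg (mm_nonneg i) (sq_nonneg _)) (Finset.mem_range.2 (by omega))
  have h2 : ‖r k‖ * |γ k| ≤ ‖Ph r K γ‖ := by
    apply (abs_le_of_sq_le_sq' _ (norm_nonneg _)).2
    rw [mul_pow, sq_abs]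
    exact h1
  calc |γ k| = ‖r k‖⁻¹ * (‖r k‖ * |γ k|) := by field_simp
    _ ≤ G * ‖Ph r K γ‖ := by gcongr

/-- weighted norm from components -/
lemma Ph_le (h : SharpM T G η K x r q a) (hK : 1 ≤ K) {γ : ℕ → ℝ} {M : ℝ}
    (hγ : ∀ k ≤ K, |γ k| ≤ M) : ‖Ph r K γ‖ ≤ M * G^2 := by
  have hG := h.G1
  have hG100 := h.G100
  have hM : 0 ≤ M := (abs_nonneg _).trans (hγ 0 (by omega))
  have hKG := h.KG
  have hK' : (1:ℝ) ≤ K := by exact_mod_cast hK
  apply (abs_le_of_sq_le_sq' _ (by positivity)).2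
  rw [Ph_norm]
  calc ∑ k ∈ Finset.range (K+1), mm r k * γ k^2 ≤ ∑ k ∈ Finset.range (K+1), G^2 * M^2 := by
        apply Finset.sum_le_sum
        intro k hk
        rw [Finset.mem_range] at hk
        have h2 := hγ k (by omega)
        have h3 := h.rhi k (by omega)
        rw [mm, ← sq_abs (γ k)]
        gcongr
    _ = (K+1) * (G^2 * M^2) := by rw [Finset.sum_const, Finset.card_range, nsmul_eq_mul]; push_cast; ring
    _ ≤ (2 * G) * (G^2 * M^2) := by gcongr; linarith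
    _ = 2 * (G^3 * M^2) := by ring
    _ ≤ G * (G^3 * M^2) := by gcongr; linarith
    _ = _ := by ring

lemma parts (m a γ δ : ℕ → ℝ) (n : ℕ) :
    ∑ k ∈ Finset.range (n+1), m k * tri m a γ k * δ k =
      ∑ k ∈ Finset.range n, dd m a γ k * (m k * δ k - m (k+1) * δ (k+1)) +
        m n * δ n * dd m a γ n := by
  induction n with
  | zero => simp [tri]; ring
  | succ n ih =>
    rw [Finset.sum_range_succ, ih, Finset.sum_range_succ _ n, tri]
    ring

lemma parts_K (h : SharpM T G η K x r q a) {γ δ : ℕ → ℝ} (hδ : ∀ k, K ≤ k → δ k = 0) :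
    ⟪Ph r K (tri (mm r) a γ), Ph r K δ⟫_ℝ =
      ∑ k ∈ Finset.range K, a k * (dd (mm r) a γ k * dd (mm r) a δ k) := by
  rw [Ph_inner, parts, hδ K le_rfl, mul_zero, zero_mul, add_zero]
  refine Finset.sum_congr rfl fun k hk => ?_
  rw [Finset.mem_range] at hk
  have ha := h.apos hk
  have : mm r k * δ k - mm r (k+1) * δ (k+1) = a k * dd (mm r) a δ k := by
    rw [dd]; field_simp
  rw [this]
  ring

lemma tri_norm (h : SharpM T G η K x r q a) {γ : ℕ → ℝ} (hγ : ∀ k, K ≤ k → γ k = 0) :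
    ‖Ph r K (tri (mm r) a γ)‖^2 ≤ 20 * ⟪Ph r K (tri (mm r) a γ), Ph r K γ⟫_ℝ := by
  rw [Ph_norm, parts_K h hγ, Finset.mul_sum]
  have key : ∀ n, ∑ k ∈ Finset.range (n+1), mm r k * tri (mm r) a γ k^2 ≤
      ∑ k ∈ Finset.range n, 2 * (mm r k + mm r (k+1)) * dd (mm r) a γ k^2 +
        2 * (mm r n * dd (mm r) a γ n^2) := by
    intro n
    induction n with
    | zero =>
      simp only [Finset.range_one, Finset.sum_singleton, tri, Finset.range_zero,
        Finset.sum_empty, zero_add]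
      have : 0 ≤ mm r 0 * dd (mm r) a γ 0^2 := mul_nonneg (mm_nonneg 0) (sq_nonneg _)
      linarith
    | succ n ih =>
      rw [Finset.sum_range_succ (fun k => mm r k * tri (mm r) a γ k^2) (n+1),
        Finset.sum_range_succ (fun k => 2 * (mm r k + mm r (k+1)) * dd (mm r) a γ k^2) n,
        show tri (mm r) a γ (n+1) = dd (mm r) a γ (n+1) - dd (mm r) a γ n from rfl]
      have h1 : mm r (n+1) * (dd (mm r) a γ (n+1) - dd (mm r) a γ n)^2 ≤
          mm r (n+1) * (2 * dd (mm r) a γ (n+1)^2 + 2 * dd (mm r) a γ n^2) := by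
        apply mul_le_mul_of_nonneg_left _ (mm_nonneg _)
        nlinarith [sq_nonneg (dd (mm r) a γ (n+1) + dd (mm r) a γ n)]
      linarith
  refine (key K).trans ?_
  have h0 : dd (mm r) a γ K = 0 := by
    rw [dd, hγ K le_rfl, hγ (K+1) (by omega)]; simp
  rw [h0]
  simp only [ne_eq, OfNat.ofNat_ne_zero, not_false_eq_true, zero_pow, mul_zero, add_zero]
  apply Finset.sum_le_sum
  intro k hk
  rw [Finset.mem_range] at hk
  have h1 := h.alo k hk
  have h2 := h.mn k hk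
  have ha := h.apos hk
  have h3 : 2 * (mm r k + mm r (k+1)) ≤ 20 * a k := by
    simp only [mm]
    linarith
  calc 2 * (mm r k + mm r (k+1)) * dd (mm r) a γ k^2 ≤ (20 * a k) * dd (mm r) a γ k^2 := by gcongr
    _ = _ := by ring

/-- the contraction -/
noncomputable def SS (m a γ : ℕ → ℝ) : ℕ → ℝ := γ - (1/10 : ℝ) • tri m a γ

lemma SS_sym (h : SharpM T G η K x r q a) {γ δ : ℕ → ℝ} (hγ : ∀ k, K ≤ k → γ k = 0)
    (hδ : ∀ k, K ≤ k → δ k = 0) :
    ⟪Ph r K (SS (mm r) a γ), Ph r K δ⟫_ℝ = ⟪Ph r K γ, Ph r K (SS (mm r) a δ)⟫_ℝ := by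
  rw [SS, SS, Ph_sub, Ph_sub, Ph_smul, Ph_smul, inner_sub_left, inner_sub_right,
    real_inner_smul_left, real_inner_smul_right, parts_K h hδ,
    real_inner_comm (Ph r K (tri (mm r) a δ)) (Ph r K γ), parts_K h hγ]
  congr 2
  refine Finset.sum_congr rfl fun k _ => ?_
  ring

lemma SS_le (h : SharpM T G η K x r q a) {γ : ℕ → ℝ} (hγ : ∀ k, K ≤ k → γ k = 0) :
    ‖Ph r K (SS (mm r) a γ)‖ ≤ ‖Ph r K γ‖ := by
  apply (abs_le_of_sq_le_sq' _ (norm_nonneg _)).2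
  rw [SS, Ph_sub, Ph_smul, norm_sub_sq_real, real_inner_smul_right, norm_smul, mul_pow]
  have h1 := tri_norm h hγ
  rw [real_inner_comm (Ph r K (tri (mm r) a γ)) (Ph r K γ)]
  norm_num
  linarith

end Pool.Agent.Helper643.CG
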