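import Mathlib
import Pool.Agent.Helper643.CGF1C

/-!
Chebyshev sequences.
-/

namespace Pool.Agent.Helper643.CG

set_option linter.unusedSectionVars false

open scoped InnerProductSpace

variable {E : Type*} [NormedAddCommGroup E] [InnerProductSpace ℝ E]

/-- unit sequence -/
noncomputable def e0 : ℕ → ℝ := Pi.single 0 1

/-- model sequences -/
noncomputable def my (m a : ℕ → ℝ) : ℕ → (ℕ → ℝ)
  | 0 => 0
  | 1 => (1/10 : ℝ) • e0
  | i+2 => (2:ℝ) • SS m a (my m a (i+1)) - my m a i + (1/5 : ℝ) • e0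

/-- vector sequences -/
noncomputable def Yv (T : E →ₗ[ℝ] E) (b : E) : ℕ → E
  | 0 => 0
  | 1 => (1/10 : ℝ) • b
  | i+2 => (2:ℝ) • (Yv T b (i+1) - (1/10 : ℝ) • T (Yv T b (i+1))) - Yv T b i + (1/5 : ℝ) • b

lemma e0_succ (k : ℕ) : e0 (k+1) = 0 := by simp [e0]

lemma e0_zero : e0 0 = 1 := by simp [e0]

lemma e0_of {k : ℕ} (hk : 1 ≤ k) : e0 k = 0 := by
  obtain ⟨j, rfl⟩ : ∃ j, k = j + 1 := ⟨k - 1, by omega⟩
  exact e0_succ j

lemma my_supp (m a : ℕ → ℝ) : ∀ i k, i ≤ k → my m a i k = 0 := by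
  intro i
  induction i using Nat.strong_induction_on with
  | _ i ih =>
    intro k hk
    match i, ih, hk with
    | 0, _, _ => rfl
    | 1, _, hk => simp [my, e0_of hk]
    | i+2, ih, hk =>
      have h1 := ih i (by omega) k (by omega)
      have h2 := ih (i+1) (by omega) k (by omega)
      have h3 := tri_zero' (m := m) (a := a) (fun k hk => ih (i+1) (by omega) k hk) k hk
      simp [my, SS, h1, h2, h3, e0_of (show 1 ≤ k by omega)]

lemma vs_sub (v : ℕ → E) (γ δ : ℕ → ℝ) (n : ℕ) : vs v (γ - δ) n = vs v γ n - vs v δ n := by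
  simp only [vs, Pi.sub_apply, sub_smul, Finset.sum_sub_distrib]

lemma BB_sub (r : ℕ → E) (K : ℕ) (γ δ : ℕ → ℝ) : BB r K (γ - δ) = BB r K γ - BB r K δ := by
  have : γ - δ = γ + (-1:ℝ) • δ := by funext k; simp; ring
  rw [this, BB_add, BB_smul]; funext k; simp; ring

lemma vs_e0 (v : ℕ → E) (n : ℕ) : vs v e0 (n+1) = v 0 := by
  have : ∀ k, 1 ≤ k → e0 k = 0 := fun k hk => e0_of hk
  rw [vs_const this (n+1) (by omega), vs_succ]
  simp [vs, e0_zero]

variable {T : E →ₗ[ℝ] E} {G η : ℝ} {K : ℕ} {x r q : ℕ → E} {a : ℕ → ℝ}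

lemma BB_e0 (hK : 1 ≤ K) : BB r K e0 = 0 := by
  funext i
  exact BB_zero (n := 1) (by omega) (fun k hk => e0_of hk) i (by omega)

lemma Ph_e0 (h : SharpM T G η K x r q a) : ‖Ph r K e0‖ ≤ 1 := by
  apply (abs_le_of_sq_le_sq' _ (by norm_num)).2
  rw [Ph_norm, Finset.sum_eq_single 0]
  · rw [mm, h.r01, e0_zero]; norm_num
  · intro k _ hk
    rw [e0_of (Nat.one_le_iff_ne_zero.2 hk)]; simp
  · intro h0
    exact absurd (Finset.mem_range.2 (by omega)) h0

lemma sqG (h : SharpM T G η K x r q a) {i : ℕ} (hi : i ≤ K) : (i:ℝ)^2 ≤ G^2 := by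
  have h1 : (i:ℝ) ≤ K := by exact_mod_cast hi
  have h2 := h1.trans h.KG
  gcongr

/-- The model sequences are bounded. -/
lemma my_le (h : SharpM T G η K x r q a) {i : ℕ} (hi : i ≤ K) (k : ℕ) :
    |my (mm r) a i k| ≤ G^3 := by
  have hG := h.G1
  have h0 : ∀ i ≤ K, ∀ k, K ≤ k → my (mm r) a i k = 0 :=
    fun i hi k hk => my_supp _ _ i k (hi.trans hk)
  have key := energy (N := K) (U := fun i => Ph r K (my (mm r) a i))
    (W := fun i => Ph r K (SS (mm r) a (my (mm r) a i)))
    (f := fun _ => (1/5:ℝ) • Ph r K e0) (c := 1/5) (by norm_num)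
    (by
      intro i _
      show Ph r K (my (mm r) a (i+2)) = _
      rw [my, Ph_add, Ph_sub, Ph_smul, Ph_smul])
    (by
      intro i hi
      exact SS_sym h (h0 (i+1) hi) (h0 i (by omega)))
    (by
      intro i hi
      exact SS_le h (h0 i hi))
    (by
      show Ph r K 0 = 0
      have : (0 : ℕ → ℝ) = (0:ℝ) • e0 := by simp
      rw [this, Ph_smul, zero_smul])
    (by
      intro _
      show ‖Ph r K ((1/10 : ℝ) • e0)‖ ≤ 1/5
      rw [Ph_smul, norm_smul]
      have := Ph_e0 h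
      norm_num
      linarith)
    (by
      intro i _
      rw [norm_smul]
      have := Ph_e0 h
      norm_num
      linarith) i hi
  rcases le_or_gt k K with hk | hk
  · have h1 := comp_le h (γ := my (mm r) a i) hk
    have h2 := sqG h hi
    calc |my (mm r) a i k| ≤ G * ‖Ph r K (my (mm r) a i)‖ := h1
      _ ≤ G * ((i:ℝ)^2 * (1/5)) := by gcongr
      _ ≤ G * (G^2 * 1) := by gcongr; norm_num
      _ = _ := by ring
  · rw [h0 i hi k hk.le, abs_zero]; positivity

/-- The vector sequences are close to the model. -/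
lemma Yv_near (h : SharpM T G η K x r q a) (hK : 1 ≤ K) {i : ℕ} (hi : i ≤ K) :
    ‖Yv T (r 0) i - vs r (my (mm r) a i) (K+1)‖ ≤ G^8 * η := by
  have hG := h.G1
  have hη := h.η0
  have hTl : ∀ u : E, ‖u - (1/10:ℝ) • T u‖ ≤ ‖u‖ := by
    intro u
    apply (abs_le_of_sq_le_sq' _ (norm_nonneg _)).2
    rw [norm_sub_sq_real, real_inner_smul_right, norm_smul, mul_pow]
    have h1 := T_sq h.sym h.pos h.one u
    have h2 := h.pos u
    norm_num
    linarith
  have hTs : ∀ u v : E, ⟪u - (1/10:ℝ) • T u, v⟫_ℝ = ⟪u, v - (1/10:ℝ) • T v⟫_ℝ := by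
    intro u v
    rw [inner_sub_left, inner_sub_right, real_inner_smul_left, real_inner_smul_right, h.sym]
  set U : ℕ → E := fun i => Yv T (r 0) i - vs r (my (mm r) a i) (K+1) with hU
  have key := energy (N := K) (U := U)
    (W := fun i => U i - (1/10:ℝ) • T (U i))
    (f := fun i => -(1/5:ℝ) • (T (vs r (my (mm r) a (i+1)) (K+1)) -
      vs r (tri (mm r) a (my (mm r) a (i+1))) (K+1))) (c := G^6 * η) (by positivity)
    (by
      intro i _
      simp only [hU]
      rw [Yv, my, vs_add, vs_sub, vs_smul, SS, vs_sub, vs_smul, vs_smul, vs_e0]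
      simp only [map_sub]
      module)
    (by
      intro i _
      exact hTs _ _)
    (by
      intro i _
      exact hTl _)
    (by
      simp only [hU]
      show Yv T (r 0) 0 - vs r (my (mm r) a 0) (K+1) = 0
      rw [Yv, my]
      have : (0 : ℕ → ℝ) = (0:ℝ) • e0 := by simp
      rw [this, vs_smul]
      simp)
    (by
      intro _
      simp only [hU]
      rw [Yv, my, vs_smul, vs_e0, sub_self, norm_zero]
      positivity)
    (by
      intro i hi
      have h1 := (vlem h hK (γ := my (mm r) a (i+1)) (my_le h (by omega))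
        (fun k hk => my_supp _ _ (i+1) k (by omega))).1
      show ‖-(1/5:ℝ) • (T (vs r (my (mm r) a (i+1)) (K+1)) -
        vs r (tri (mm r) a (my (mm r) a (i+1))) (K+1))‖ ≤ _
      rw [norm_smul]
      have h2 : 2 * (G^3 * G^3 * η) = 2 * (G^6 * η) := by ring
      have h3 : 0 ≤ G^6 * η := by positivity
      rw [h2] at h1
      norm_num
      linarith) i hi
  refine key.trans ?_
  have h2 := sqG h hi
  calc (i:ℝ)^2 * (G^6 * η) ≤ G^2 * (G^6 * η) := by gcongr
    _ = _ := by ring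

/-- The orthogonality defect of the model sequences is tiny. -/
lemma BB_my (h : SharpM T G η K x r q a) (hK : 1 ≤ K) {i : ℕ} (hi : i ≤ K) (k : ℕ) :
    |BB r K (my (mm r) a i) k| ≤ G^13 * η := by
  have hG := h.G1
  have hη := h.η0
  have h0 : ∀ i ≤ K, ∀ k, K ≤ k → my (mm r) a i k = 0 :=
    fun i hi k hk => my_supp _ _ i k (hi.trans hk)
  have hB0 : ∀ i ≤ K, ∀ k, K ≤ k → BB r K (my (mm r) a i) k = 0 :=
    fun i hi k hk => BB_zero (n := K) (by omega) (h0 i hi) k (by omega)
  have key := energy (N := K) (U := fun i => Ph r K (BB r K (my (mm r) a i)))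
    (W := fun i => Ph r K (SS (mm r) a (BB r K (my (mm r) a i))))
    (f := fun i => -(1/5:ℝ) • Ph r K (BB r K (tri (mm r) a (my (mm r) a (i+1))) -
      tri (mm r) a (BB r K (my (mm r) a (i+1))))) (c := G^10 * η) (by positivity)
    (by
      intro i _
      show Ph r K (BB r K (my (mm r) a (i+2))) = _
      rw [my, BB_add, BB_sub, BB_smul, SS, BB_sub, BB_smul, BB_smul, BB_e0 hK, smul_zero,
        add_zero, Ph_sub, Ph_smul, Ph_sub, Ph_smul, SS, Ph_sub, Ph_smul, Ph_sub]
      module)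
    (by
      intro i hi
      exact SS_sym h (hB0 (i+1) hi) (hB0 i (by omega)))
    (by
      intro i hi
      exact SS_le h (hB0 i hi))
    (by
      show Ph r K (BB r K 0) = 0
      have : (0 : ℕ → ℝ) = (0:ℝ) • e0 := by simp
      rw [this, BB_smul, Ph_smul, zero_smul])
    (by
      intro _
      show ‖Ph r K (BB r K ((1/10 : ℝ) • e0))‖ ≤ _
      rw [BB_smul, BB_e0 hK, smul_zero]
      have : (0 : ℕ → ℝ) = (0:ℝ) • e0 := by simp
      rw [this, Ph_smul, zero_smul, norm_zero]
      positivity)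
    (by
      intro i hi
      show ‖-(1/5:ℝ) • Ph r K (BB r K (tri (mm r) a (my (mm r) a (i+1))) -
        tri (mm r) a (BB r K (my (mm r) a (i+1))))‖ ≤ _
      rw [norm_smul]
      have h1 := Ph_le h hK (γ := BB r K (tri (mm r) a (my (mm r) a (i+1))) -
        tri (mm r) a (BB r K (my (mm r) a (i+1)))) (M := G^3 * G^5 * η) (fun k hk =>
          comm h hK (my_le h (by omega)) (h0 (i+1) (by omega)) hk)
      have h2 : G^3 * G^5 * η * G^2 = G^10 * η := by ring
      have h3 : 0 ≤ G^10 * η := by positivity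
      rw [h2] at h1
      norm_num
      linarith) i hi
  rcases le_or_gt k K with hk | hk
  · have h1 := comp_le h (γ := BB r K (my (mm r) a i)) hk
    have h2 := sqG h hi
    calc |BB r K (my (mm r) a i) k| ≤ G * ‖Ph r K (BB r K (my (mm r) a i))‖ := h1
      _ ≤ G * ((i:ℝ)^2 * (G^10 * η)) := by gcongr
      _ ≤ G * (G^2 * (G^10 * η)) := by gcongr
      _ = _ := by ring
  · rw [hB0 i hi k hk.le, abs_zero]; positivity

lemma tri_le (h : SharpM T G η K x r q a) (hK : 1 ≤ K) {γ : ℕ → ℝ} {M : ℝ}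
    (hγ : ∀ k, |γ k| ≤ M) (h0 : ∀ k, K ≤ k → γ k = 0) {k : ℕ} (hk : k ≤ K) :
    |tri (mm r) a γ k| ≤ 19.2 * M := by
  have hM : 0 ≤ M := (abs_nonneg _).trans (hγ 0)
  have hdd : ∀ k ≤ K, |dd (mm r) a γ k| ≤ 9.6 * M := by
    intro k hk
    rcases Nat.lt_or_ge k K with h1 | h1
    · exact dd_le h hγ h1
    · rw [dd, h0 k h1, h0 (k+1) (by omega)]
      simp; positivity
  cases k with
  | zero =>
    have := hdd 0 hk
    rw [tri]; linarith
  | succ k =>
    rw [tri]
    have h1 := hdd (k+1) hk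
    have h2 := hdd k (by omega)
    have := abs_sub (dd (mm r) a γ (k+1)) (dd (mm r) a γ k)
    linarith

/-- norm of a vector sum in terms of the defect -/
lemma vs_norm (h : SharpM T G η K x r q a) (z : ℕ → ℝ) :
    ‖vs r z (K+1)‖^2 = ∑ k ∈ Finset.range (K+1), (mm r k * z k^2 + 2 * (z k * (mm r k * BB r K z k))) := by
  have key : ∀ n ≤ K, mm r n * z n^2 + 2 * (z n * (mm r n * BB r K z n)) =
      ‖vs r z (K+1) - vs r z n‖^2 - ‖vs r z (K+1) - vs r z (n+1)‖^2 := by
    intro n hn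
    have e1 : vs r z (K+1) - vs r z n = z n • r n + RR r K z n := by
      rw [RR, vs_succ r z n]; abel
    have e2 : vs r z (K+1) - vs r z (n+1) = RR r K z n := rfl
    rw [e1, e2, norm_add_sq_real, real_inner_smul_left, inner_RR0 h hn, norm_smul, mul_pow,
      Real.norm_eq_abs, sq_abs, mm]
    ring
  rw [Finset.sum_congr rfl (fun n hn => key n (by rw [Finset.mem_range] at hn; omega)),
    Finset.sum_range_sub']
  simp [vs]

end Pool.Agent.Helper643.CG
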