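import Mathlib
import Pool.Agent.Helper643.CGF1D

/-!
Convex combinations of Chebyshev polynomials applied to a run.
-/

namespace Pool.Agent.Helper643.CG

set_option linter.unusedSectionVars false

open scoped InnerProductSpace

variable {E : Type*} [NormedAddCommGroup E] [InnerProductSpace ℝ E]
variable {T : E →ₗ[ℝ] E} {G η : ℝ} {K : ℕ} {x r q : ℕ → E} {a : ℕ → ℝ}

/-- weighted model sequence -/
noncomputable def yw (m a : ℕ → ℝ) (w : ℕ → ℝ) : ℕ → (ℕ → ℝ)
  | 0 => 0
  | n+1 => yw m a w n + w n • my m a n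

/-- weighted vector -/
noncomputable def Yw (T : E →ₗ[ℝ] E) (b : E) (w : ℕ → ℝ) (n : ℕ) : E :=
  ∑ i ∈ Finset.range n, w i • Yv T b i

lemma yw_facts (h : SharpM T G η K x r q a) (hK : 1 ≤ K) {w : ℕ → ℝ} (hw : ∀ i, 0 ≤ w i) :
    ∀ n ≤ K + 1, (∀ k, |yw (mm r) a w n k| ≤ (∑ i ∈ Finset.range n, w i) * G^3) ∧
      (∀ k, K ≤ k → yw (mm r) a w n k = 0) ∧
      (∀ k, |BB r K (yw (mm r) a w n) k| ≤ (∑ i ∈ Finset.range n, w i) * (G^13 * η)) ∧
      (∀ k, K ≤ k → BB r K (yw (mm r) a w n) k = 0) ∧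
      ‖Yw T (r 0) w n - vs r (yw (mm r) a w n) (K+1)‖ ≤
        (∑ i ∈ Finset.range n, w i) * (G^8 * η) := by
  intro n
  induction n with
  | zero =>
    intro _
    refine ⟨by simp [yw], by simp [yw], ?_, ?_, ?_⟩
    · intro k
      simp [yw, BB, RR, vs]
    · intro k _
      simp [yw, BB, RR, vs]
    · simp [yw, Yw, vs]
  | succ n ih =>
    intro hn
    obtain ⟨i1, i2, i3, i4, i5⟩ := ih (by omega)
    have hnK : n ≤ K := by omega
    have hm0 : ∀ k, K ≤ k → my (mm r) a n k = 0 := fun k hk => my_supp _ _ n k (hnK.trans hk)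
    have habs : |w n| = w n := abs_of_nonneg (hw n)
    refine ⟨?_, ?_, ?_, ?_, ?_⟩
    · intro k
      rw [yw, Finset.sum_range_succ, add_mul]
      refine (abs_add_le _ _).trans (add_le_add (i1 k) ?_)
      rw [Pi.smul_apply, smul_eq_mul, abs_mul, habs]
      exact mul_le_mul_of_nonneg_left (my_le h hnK k) (hw n)
    · intro k hk
      rw [yw, Pi.add_apply, Pi.smul_apply, i2 k hk, hm0 k hk]
      simp
    · intro k
      rw [yw, BB_add, BB_smul, Finset.sum_range_succ, add_mul]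
      refine (abs_add_le _ _).trans (add_le_add (i3 k) ?_)
      rw [Pi.smul_apply, smul_eq_mul, abs_mul, habs]
      exact mul_le_mul_of_nonneg_left (BB_my h hK hnK k) (hw n)
    · intro k hk
      rw [yw, BB_add, BB_smul, Pi.add_apply, Pi.smul_apply, i4 k hk,
        BB_zero (n := K) (by omega) hm0 k (by omega)]
      simp
    · rw [yw, vs_add, vs_smul, Yw, Finset.sum_range_succ, Finset.sum_range_succ, add_mul]
      have e : ∑ i ∈ Finset.range n, w i • Yv T (r 0) i + w n • Yv T (r 0) n -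
          (vs r (yw (mm r) a w n) (K+1) + w n • vs r (my (mm r) a n) (K+1)) =
          (Yw T (r 0) w n - vs r (yw (mm r) a w n) (K+1)) +
          w n • (Yv T (r 0) n - vs r (my (mm r) a n) (K+1)) := by
        rw [Yw]; module
      rw [e]
      refine (norm_add_le _ _).trans (add_le_add i5 ?_)
      rw [norm_smul, Real.norm_eq_abs, habs]
      exact mul_le_mul_of_nonneg_left (Yv_near h hK hnK) (hw n)

/-- The main inequality. -/
theorem N_main (h : SharpM T G η K x r q a) (hK : 1 ≤ K) {D : ℝ} (hD : 0 ≤ D) (hDG : D ≤ G)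
    (hx : ∀ l ≤ K, ‖x l‖ ≤ D * ‖r l‖) (hsm : 10^6 * (G^25 * η) ≤ 1) {w : ℕ → ℝ}
    (hw : ∀ i, 0 ≤ w i) (hw1 : ∑ i ∈ Finset.range (K+1), w i = 1) :
    ‖Yw T (r 0) w (K+1)‖ ≤ D * √(K+1) * ‖r 0 - T (Yw T (r 0) w (K+1))‖ + 1/8 := by
  have hG := h.G1
  have hG100 := h.G100
  have hη := h.η0
  have hKG := h.KG
  have hK' : (1:ℝ) ≤ K := by exact_mod_cast hK
  have hG0 : 0 ≤ G := by linarith
  obtain ⟨i1, i2, i3, i4, i5⟩ := yw_facts h hK hw (K+1) le_rfl
  rw [hw1] at i1 i3 i5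
  simp only [one_mul] at i1 i3 i5
  set y := yw (mm r) a w (K+1) with hy
  set Y := Yw T (r 0) w (K+1) with hY
  obtain ⟨v1, v2⟩ := vlem h hK i1 i2
  have hG6 : G^3 * G^3 * η = G^6 * η := by ring
  rw [hG6] at v1 v2
  -- the residual sequence
  set z : ℕ → ℝ := e0 - tri (mm r) a y with hz
  have hzV : vs r z (K+1) = r 0 - vs r (tri (mm r) a y) (K+1) := by
    rw [hz, vs_sub, vs_e0]
  have hzx : vs x z (K+1) = - vs x (tri (mm r) a y) (K+1) := by
    rw [hz, vs_sub, vs_e0, h.x0, zero_sub]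
  have hmono : G^6 * η ≤ G^8 * η := by
    have : G^6 ≤ G^8 := pow_le_pow_right₀ hG (by norm_num)
    gcongr
  have hG30 : 0 ≤ G^3 := by positivity
  have hG31 : 1 ≤ G^3 := one_le_pow₀ hG
  have hzle : ∀ k ≤ K, |z k| ≤ 20.2 * G^3 := by
    intro k hk
    have h1 := tri_le h hK i1 i2 hk
    rw [hz, Pi.sub_apply]
    have h2 : |e0 k| ≤ 1 := by
      cases k with
      | zero => rw [e0_zero]; simp
      | succ k => rw [e0_succ]; simp
    have h3 := abs_sub (e0 k) (tri (mm r) a y k)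
    linarith
  have hBz : ∀ k ≤ K, |BB r K z k| ≤ 20 * (G^13 * η) := by
    intro k hk
    have h1 := comm h hK i1 i2 hk
    have h2 := tri_le h hK i3 i4 hk
    have e1 : BB r K z k = -((BB r K (tri (mm r) a y) k - tri (mm r) a (BB r K y) k) +
        tri (mm r) a (BB r K y) k) := by
      rw [hz, BB_sub, BB_e0 hK]; simp
    rw [e1, abs_neg]
    refine (abs_add_le _ _).trans ?_
    have h3 : G^3 * G^5 * η ≤ 0.8 * (G^13 * η) := by
      have h4 : G^3 * G^5 ≤ 0.8 * G^13 := by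
        have : (10:ℝ) ≤ G^5 := by
          calc (10:ℝ) ≤ 100^5 := by norm_num
            _ ≤ G^5 := by gcongr
        have h8 : 0 ≤ G^8 := by positivity
        nlinarith
      calc G^3 * G^5 * η ≤ 0.8 * G^13 * η := by gcongr
        _ = _ := by ring
    linarith
  -- weighted square sum
  set Sg := ∑ k ∈ Finset.range (K+1), mm r k * z k^2 with hSg
  have hS0 : 0 ≤ Sg := Finset.sum_nonneg fun k _ => mul_nonneg (mm_nonneg k) (sq_nonneg _)
  have hS : Sg ≤ ‖vs r z (K+1)‖^2 + G^21 * η := by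
    rw [vs_norm h, Finset.sum_add_distrib, ← hSg]
    have h1 : ∀ k ∈ Finset.range (K+1), -(2 * (20.2 * G^3 * (G^2 * (20 * (G^13 * η))))) ≤
        2 * (z k * (mm r k * BB r K z k)) := by
      intro k hk
      rw [Finset.mem_range] at hk
      have f1 := hzle k (by omega)
      have f2 := hBz k (by omega)
      have f3 : |mm r k| ≤ G^2 := by
        rw [mm, abs_of_nonneg (sq_nonneg _)]
        have := h.rhi k (by omega)
        gcongr
      have f4 : |z k * (mm r k * BB r K z k)| ≤ 20.2 * G^3 * (G^2 * (20 * (G^13 * η))) := by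
        rw [abs_mul, abs_mul]
        gcongr
      have := (abs_le.1 f4).1
      linarith
    have h2 := Finset.sum_le_sum h1
    rw [Finset.sum_const, Finset.card_range, nsmul_eq_mul] at h2
    have h3 : ((K+1:ℕ):ℝ) * (2 * (20.2 * G^3 * (G^2 * (20 * (G^13 * η))))) ≤ G^21 * η := by
      push_cast
      calc ((K:ℝ)+1) * (2 * (20.2 * G^3 * (G^2 * (20 * (G^13 * η))))) ≤
          (2 * G) * (2 * (20.2 * G^3 * (G^2 * (20 * (G^13 * η))))) := by gcongr; linarith
        _ = 1616 * (G^19 * η) := by ring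
        _ ≤ G^2 * (G^19 * η) := by
          have : 1616 ≤ G^2 := by nlinarith
          gcongr
        _ = _ := by ring
    have h4 : ((K+1:ℕ):ℝ) * -(2 * (20.2 * G^3 * (G^2 * (20 * (G^13 * η))))) =
        -(((K+1:ℕ):ℝ) * (2 * (20.2 * G^3 * (G^2 * (20 * (G^13 * η)))))) := by ring
    rw [h4] at h2
    linarith
  -- iterates
  have hxz : ‖vs x z (K+1)‖ ≤ D * √(K+1) * √Sg := by
    have h1 : ‖vs x z (K+1)‖ ≤ D * ∑ k ∈ Finset.range (K+1), |z k| * ‖r k‖ := by
      unfold vs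
      rw [Finset.mul_sum]
      refine (norm_sum_le _ _).trans (Finset.sum_le_sum ?_)
      intro k hk
      rw [Finset.mem_range] at hk
      rw [norm_smul, Real.norm_eq_abs]
      have := hx k (by omega)
      calc |z k| * ‖x k‖ ≤ |z k| * (D * ‖r k‖) := by gcongr
        _ = _ := by ring
    have h2 : ∑ k ∈ Finset.range (K+1), |z k| * ‖r k‖ ≤ √(K+1) * √Sg := by
      rw [← Real.sqrt_mul (by positivity)]
      apply Real.le_sqrt_of_sq_le
      have h3 := sq_sum_le_card_mul_sum_sq (s := Finset.range (K+1)) (f := fun k => |z k| * ‖r k‖)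
      rw [Finset.card_range] at h3
      refine h3.trans (le_of_eq ?_)
      push_cast
      congr 1
      rw [hSg]
      refine Finset.sum_congr rfl fun k _ => ?_
      rw [mul_pow, sq_abs, mm]; ring
    calc ‖vs x z (K+1)‖ ≤ D * ∑ k ∈ Finset.range (K+1), |z k| * ‖r k‖ := h1
      _ ≤ D * (√(K+1) * √Sg) := by gcongr
      _ = _ := by ring
  -- residual
  have hV : ‖vs r z (K+1)‖ ≤ ‖r 0 - T Y‖ + 3 * (G^8 * η) := by
    have e1 : vs r z (K+1) = (r 0 - T Y) + T (Y - vs r y (K+1)) +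
        (T (vs r y (K+1)) - vs r (tri (mm r) a y) (K+1)) := by
      rw [hzV, map_sub]; abel
    rw [e1]
    refine norm_add₃_le.trans ?_
    have h1 := (h.one (Y - vs r y (K+1))).trans i5
    linarith
  have hG25 : 0 ≤ G^25 * η := by positivity
  have hsS : √Sg ≤ ‖r 0 - T Y‖ + 3 * (G^8 * η) + √(G^21 * η) := by
    rw [Real.sqrt_le_left (by positivity)]
    refine hS.trans ?_
    have h1 : √(G^21 * η)^2 = G^21 * η := Real.sq_sqrt (by positivity)
    have h2 : ‖vs r z (K+1)‖^2 ≤ (‖r 0 - T Y‖ + 3 * (G^8 * η))^2 := by gcongr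
    have h3 : 0 ≤ 2 * ((‖r 0 - T Y‖ + 3 * (G^8 * η)) * √(G^21 * η)) := by positivity
    nlinarith
  -- combine
  have hsq : √((K:ℝ)+1) ≤ G := by
    rw [Real.sqrt_le_left hG0]
    nlinarith
  have hsmall1 : √(G^21 * η) * G^2 ≤ 1/1000 := by
    have h1 : √(G^21 * η) * G^2 = √(G^25 * η) := by
      rw [← Real.sqrt_sq (by positivity : 0 ≤ G^2), ← Real.sqrt_mul (by positivity)]
      congr 1
      ring
    rw [h1, Real.sqrt_le_left (by norm_num)]
    norm_num
    linarith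
  have hsmall2 : G^8 * η * G^2 ≤ 1/10^6 := by
    have h1 : G^8 * η * G^2 = G^10 * η := by ring
    have h2 : G^10 * η ≤ G^25 * η := by
      have : G^10 ≤ G^25 := pow_le_pow_right₀ hG (by norm_num)
      gcongr
    rw [h1]
    norm_num at *
    linarith
  have hsmall3 : G^8 * η ≤ 1/10^6 := by
    have h1 : G^8 * η * 1 ≤ G^8 * η * G^2 := by gcongr; nlinarith
    linarith
  have hYn : ‖Y‖ ≤ ‖vs x z (K+1)‖ + 3 * (G^8 * η) := by
    have e1 : Y = (Y - vs r y (K+1)) + (vs x (tri (mm r) a y) (K+1) + vs r y (K+1)) +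
        vs x z (K+1) := by rw [hzx]; abel
    rw [e1]
    refine norm_add₃_le.trans ?_
    linarith
  have hDG2 : D * √(K+1) ≤ G^2 := by
    calc D * √(K+1) ≤ G * G := by gcongr
      _ = _ := by ring
  have hfin : D * √(K+1) * (3 * (G^8 * η) + √(G^21 * η)) ≤
      G^2 * (3 * (G^8 * η) + √(G^21 * η)) := by gcongr
  calc ‖Y‖ ≤ ‖vs x z (K+1)‖ + 3 * (G^8 * η) := hYn
    _ ≤ D * √(K+1) * (‖r 0 - T Y‖ + 3 * (G^8 * η) + √(G^21 * η)) + 3 * (G^8 * η) := by
        have : D * √(K+1) * √Sg ≤ D * √(K+1) * (‖r 0 - T Y‖ + 3 * (G^8 * η) + √(G^21 * η)) := by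
          gcongr
        linarith
    _ = D * √(K+1) * ‖r 0 - T Y‖ + D * √(K+1) * (3 * (G^8 * η) + √(G^21 * η)) +
        3 * (G^8 * η) := by ring
    _ ≤ _ := by
        norm_num at *
        nlinarith

end Pool.Agent.Helper643.CG
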