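import Mathlib

/-!
Convex combinations of cosines; Fejér-type products.
-/

namespace Pool.Agent.Helper643.CG

open Real

/-- `P` is a convex combination of `cos (i θ)`, `i ≤ d`. -/
def CosHull (d : ℕ) (P : ℝ → ℝ) : Prop :=
  ∃ w : ℕ → ℝ, (∀ i, 0 ≤ w i) ∧ ∑ i ∈ Finset.range (d+1), w i = 1 ∧
    ∀ θ, P θ = ∑ i ∈ Finset.range (d+1), w i * cos (i * θ)

/-- convex combinations -/
lemma CosHull.combo {d e : ℕ} {w : ℕ → ℝ} {P : ℕ → ℝ → ℝ} (hw : ∀ i, 0 ≤ w i)
    (hw1 : ∑ i ∈ Finset.range (e+1), w i = 1) (hP : ∀ i ≤ e, CosHull d (P i)) :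
    CosHull d (fun θ => ∑ i ∈ Finset.range (e+1), w i * P i θ) := by
  classical
  have : ∀ i, ∃ v : ℕ → ℝ, (∀ k, 0 ≤ v k) ∧ (i ≤ e → ∑ k ∈ Finset.range (d+1), v k = 1 ∧
      ∀ θ, P i θ = ∑ k ∈ Finset.range (d+1), v k * cos (k * θ)) := by
    intro i
    by_cases hi : i ≤ e
    · obtain ⟨v, h1, h2, h3⟩ := hP i hi
      exact ⟨v, h1, fun _ => ⟨h2, h3⟩⟩
    · exact ⟨0, fun _ => le_rfl, fun h => absurd h hi⟩
  choose v hv0 hv using this
  refine ⟨fun k => ∑ i ∈ Finset.range (e+1), w i * v i k, ?_, ?_, ?_⟩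
  · intro k
    exact Finset.sum_nonneg fun i _ => mul_nonneg (hw i) (hv0 i k)
  · rw [Finset.sum_comm, ← hw1]
    refine Finset.sum_congr rfl fun i hi => ?_
    rw [Finset.mem_range] at hi
    rw [← Finset.mul_sum, (hv i (by omega)).1, mul_one]
  · intro θ
    have e1 : ∀ k ∈ Finset.range (d+1), (∑ i ∈ Finset.range (e+1), w i * v i k) * cos (k * θ) =
        ∑ i ∈ Finset.range (e+1), w i * (v i k * cos (k * θ)) := by
      intro k _
      rw [Finset.sum_mul]
      refine Finset.sum_congr rfl fun i _ => ?_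
      ring
    rw [Finset.sum_congr rfl e1, Finset.sum_comm]
    refine Finset.sum_congr rfl fun i hi => ?_
    rw [Finset.mem_range] at hi
    rw [(hv i (by omega)).2 θ, Finset.mul_sum]

lemma CosHull.base {d i : ℕ} (hi : i ≤ d) : CosHull d (fun θ => cos (i * θ)) := by
  refine ⟨fun k => if k = i then 1 else 0, ?_, ?_, ?_⟩
  · intro k; dsimp only; split_ifs <;> norm_num
  · rw [Finset.sum_ite_eq' (Finset.range (d+1)) i (fun _ => (1:ℝ))]
    rw [if_pos (Finset.mem_range.2 (by omega))]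
  · intro θ
    simp only [ite_mul, one_mul, zero_mul]
    rw [Finset.sum_ite_eq' (Finset.range (d+1)) i (fun k => cos ((k:ℝ) * θ))]
    rw [if_pos (Finset.mem_range.2 (by omega))]

lemma CosHull.congr {d : ℕ} {P Q : ℝ → ℝ} (h : CosHull d P) (hPQ : ∀ θ, Q θ = P θ) :
    CosHull d Q := by
  obtain ⟨w, h1, h2, h3⟩ := h
  exact ⟨w, h1, h2, fun θ => by rw [hPQ, h3]⟩

lemma CosHull.avg {d : ℕ} {P Q : ℝ → ℝ} (hP : CosHull d P) (hQ : CosHull d Q) :
    CosHull d (fun θ => (P θ + Q θ) / 2) := by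
  have := CosHull.combo (d := d) (e := 1) (w := fun _ => (1/2:ℝ))
    (P := fun i => if i = 0 then P else Q) (by intro i; norm_num)
    (by simp) (by
      intro i _
      split_ifs
      · exact hP
      · exact hQ)
  refine this.congr fun θ => ?_
  simp [Finset.sum_range_succ]
  ring

lemma CosHull.mono {d e : ℕ} {P : ℝ → ℝ} (h : CosHull d P) (hde : d ≤ e) : CosHull e P := by
  obtain ⟨w, h1, h2, h3⟩ := h
  have := CosHull.combo (d := e) (e := d) (w := w) (P := fun i θ => cos (i * θ)) h1 h2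
    (fun i hi => CosHull.base (hi.trans hde))
  exact this.congr h3

lemma CosHull.mul_cos {d i : ℕ} {P : ℝ → ℝ} (h : CosHull d P) :
    CosHull (d + i) (fun θ => P θ * cos (i * θ)) := by
  obtain ⟨w, h1, h2, h3⟩ := h
  have := CosHull.combo (d := d + i) (e := d) (w := w)
    (P := fun j θ => cos (j * θ) * cos (i * θ)) h1 h2 ?_
  · refine this.congr fun θ => ?_
    rw [h3, Finset.sum_mul]
    refine Finset.sum_congr rfl fun j _ => ?_
    ring
  · intro j hj
    rcases le_total i j with hij | hij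
    · refine (CosHull.avg (CosHull.base (d := d + i) (i := j + i) (by omega))
        (CosHull.base (d := d + i) (i := j - i) (by omega))).congr fun θ => ?_
      rw [Nat.cast_add, Nat.cast_sub hij, add_mul, sub_mul, cos_add, cos_sub]
      ring
    · refine (CosHull.avg (CosHull.base (d := d + i) (i := j + i) (by omega))
        (CosHull.base (d := d + i) (i := i - j) (by omega))).congr fun θ => ?_
      rw [Nat.cast_add, Nat.cast_sub hij, add_mul, sub_mul, cos_add, cos_sub]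
      ring

lemma CosHull.mul {d e : ℕ} {P Q : ℝ → ℝ} (h : CosHull d P) (hQ : CosHull e Q) :
    CosHull (d + e) (fun θ => P θ * Q θ) := by
  obtain ⟨w, h1, h2, h3⟩ := hQ
  have := CosHull.combo (d := d + e) (e := e) (w := w)
    (P := fun j θ => P θ * cos (j * θ)) h1 h2 (fun i hi => h.mul_cos.mono (by omega))
  refine this.congr fun θ => ?_
  rw [h3, Finset.mul_sum]
  refine Finset.sum_congr rfl fun j _ => ?_
  ring

lemma CosHull.one (d : ℕ) : CosHull d (fun _ => 1) := by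
  have := CosHull.base (d := d) (i := 0) (by omega)
  exact this.congr fun θ => by simp

lemma CosHull.pow {d : ℕ} {P : ℝ → ℝ} (h : CosHull d P) (j : ℕ) :
    CosHull (d * j) (fun θ => P θ ^ j) := by
  induction j with
  | zero => exact (CosHull.one _).congr fun θ => by simp
  | succ j ih =>
    have := ih.mul h
    refine (this.mono (by ring_nf; omega)).congr fun θ => ?_
    rw [pow_succ]

/-- The product `∏_{i<k} (1 + cos (2^i θ))/2`. -/
noncomputable def Fej : ℕ → ℝ → ℝ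
  | 0 => fun _ => 1
  | k+1 => fun θ => Fej k θ * ((1 + cos ((2^k : ℕ) * θ)) / 2)

lemma Fej_hull : ∀ k, CosHull (2^k - 1) (Fej k) := by
  intro k
  induction k with
  | zero => exact CosHull.one _
  | succ k ih =>
    have h1 : CosHull (2^k) (fun θ => (1 + cos ((2^k : ℕ) * θ)) / 2) :=
      (CosHull.one _).avg (CosHull.base le_rfl)
    refine (ih.mul h1).mono ?_
    have : 1 ≤ 2^k := Nat.one_le_two_pow
    rw [pow_succ]; omega

lemma Fej_nonneg (k : ℕ) (θ : ℝ) : 0 ≤ Fej k θ := by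
  induction k with
  | zero => simp [Fej]
  | succ k ih =>
    have := neg_one_le_cos ((2^k : ℕ) * θ)
    rw [Fej]
    exact mul_nonneg ih (by linarith)

lemma Fej_le_one (k : ℕ) (θ : ℝ) : Fej k θ ≤ 1 := by
  induction k with
  | zero => simp [Fej]
  | succ k ih =>
    have h1 := neg_one_le_cos ((2^k : ℕ) * θ)
    have h2 := cos_le_one ((2^k : ℕ) * θ)
    rw [Fej]
    have h3 := Fej_nonneg k θ
    nlinarith

/-- closed form: `4^k (1 - cos θ) F_k = 1 - cos (2^k θ)` -/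
lemma Fej_closed (k : ℕ) (θ : ℝ) : 4^k * (1 - cos θ) * Fej k θ = 1 - cos ((2^k : ℕ) * θ) := by
  induction k with
  | zero => simp [Fej]
  | succ k ih =>
    have e : ((2^(k+1) : ℕ) : ℝ) * θ = 2 * ((2^k : ℕ) * θ) := by push_cast; ring
    rw [Fej, e, cos_two_mul]
    set c := cos ((2^k : ℕ) * θ)
    calc 4^(k+1) * (1 - cos θ) * (Fej k θ * ((1 + c)/2)) =
        (4^k * (1 - cos θ) * Fej k θ) * (2 * (1 + c)) := by ring
      _ = (1 - c) * (2 * (1 + c)) := by rw [ih]
      _ = _ := by ring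

/-- `sin² ≤ 4 (1 - F)` -/
lemma Fej_gap (k : ℕ) (θ : ℝ) : (1 - cos ((2^(k+1) : ℕ) * θ)) / 2 ≤ 4 * (1 - Fej (k+1) θ) := by
  have e : ((2^(k+1) : ℕ) : ℝ) * θ = 2 * ((2^k : ℕ) * θ) := by push_cast; ring
  rw [Fej, e, cos_two_mul]
  have h1 := neg_one_le_cos ((2^k : ℕ) * θ)
  have h2 := cos_le_one ((2^k : ℕ) * θ)
  have h3 := Fej_nonneg k θ
  have h4 := Fej_le_one k θ
  set c := cos ((2^k : ℕ) * θ)
  nlinarith

/-- For `λ = 10 (1 - cos θ)` and `k ≥ 1`: `4^k λ F ≤ 80 (1 - F)`. -/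
lemma Fej_main {k : ℕ} (hk : 1 ≤ k) {θ lam : ℝ} (hθ : cos θ = 1 - lam / 10) :
    4^k * (lam * Fej k θ) ≤ 80 * (1 - Fej k θ) := by
  obtain ⟨j, rfl⟩ : ∃ j, k = j + 1 := ⟨k - 1, by omega⟩
  have h1 := Fej_closed (j+1) θ
  have h2 := Fej_gap j θ
  have h3 : 1 - cos θ = lam / 10 := by rw [hθ]; ring
  rw [h3] at h1
  linarith

/-- For `λ = 10 (1 - cos θ)`: `4^k λ F ≤ 20`. -/
lemma Fej_decay (k : ℕ) {θ lam : ℝ} (hθ : cos θ = 1 - lam / 10) :
    4^k * (lam * Fej k θ) ≤ 20 := by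
  have h1 := Fej_closed k θ
  have h2 := neg_one_le_cos ((2^k : ℕ) * θ)
  have h3 : 1 - cos θ = lam / 10 := by rw [hθ]; ring
  rw [h3] at h1
  linarith

end Pool.Agent.Helper643.CG
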