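import Mathlib
import Pool.Agent.Helper643.CGF1E
import Pool.Agent.Helper643.CGF1F

/-!
Spectral form of the main inequality.
-/

namespace Pool.Agent.Helper643.CG

set_option linter.unusedSectionVars false

open scoped InnerProductSpace

variable {E : Type*} [NormedAddCommGroup E] [InnerProductSpace ℝ E]

/-- scalar sequences -/
noncomputable def bs (lam : ℝ) : ℕ → ℝ
  | 0 => 0
  | 1 => 1/10
  | i+2 => 2 * (bs lam (i+1) - (1/10) * (lam * bs lam (i+1))) - bs lam i + 1/5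

lemma bs_cos {lam θ : ℝ} (hθ : Real.cos θ = 1 - lam / 10) :
    ∀ i : ℕ, lam * bs lam i = 1 - Real.cos (i * θ) := by
  intro i
  induction i using Nat.strong_induction_on with
  | _ i ih =>
    match i, ih with
    | 0, _ => simp [bs]
    | 1, _ =>
      rw [bs]
      simp only [Nat.cast_one, one_mul, hθ]
      ring
    | i+2, ih =>
      have h1 := ih i (by omega)
      have h2 := ih (i+1) (by omega)
      have e1 : ((i+2:ℕ):ℝ) * θ = ((i+1:ℕ):ℝ) * θ + θ := by push_cast; ring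
      have e2 : (i:ℝ) * θ = ((i+1:ℕ):ℝ) * θ - θ := by push_cast; ring
      have e3 : Real.cos (((i+2:ℕ):ℝ) * θ) = 2 * Real.cos θ * Real.cos (((i+1:ℕ):ℝ) * θ) -
          Real.cos ((i:ℝ) * θ) := by
        rw [e1, e2, Real.cos_add, Real.cos_sub]; ring
      rw [e3, bs, hθ]
      have h3 : Real.cos (((i+1:ℕ):ℝ) * θ) = 1 - lam * bs lam (i+1) := by linarith
      have h4 : Real.cos ((i:ℝ) * θ) = 1 - lam * bs lam i := by linarith
      rw [h3, h4]
      ring

variable {T : E →ₗ[ℝ] E} {G η : ℝ} {K : ℕ} {x r q : ℕ → E} {a : ℕ → ℝ}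

lemma Yv_coord {e : E} {lam : ℝ} (he : ∀ v, ⟪e, T v⟫_ℝ = lam * ⟪e, v⟫_ℝ) (b : E) :
    ∀ i, ⟪e, Yv T b i⟫_ℝ = bs lam i * ⟪e, b⟫_ℝ := by
  intro i
  induction i using Nat.strong_induction_on with
  | _ i ih =>
    match i, ih with
    | 0, _ => simp [Yv, bs]
    | 1, _ => rw [Yv, bs, real_inner_smul_right]
    | i+2, ih =>
      have h1 := ih i (by omega)
      have h2 := ih (i+1) (by omega)
      rw [Yv, bs, inner_add_right, inner_sub_right, real_inner_smul_right, inner_sub_right,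
        real_inner_smul_right, real_inner_smul_right, he, h1, h2]
      ring

lemma Yw_coord {e : E} {lam : ℝ} (he : ∀ v, ⟪e, T v⟫_ℝ = lam * ⟪e, v⟫_ℝ) (b : E) (w : ℕ → ℝ)
    (n : ℕ) : ⟪e, Yw T b w n⟫_ℝ = (∑ i ∈ Finset.range n, w i * bs lam i) * ⟪e, b⟫_ℝ := by
  rw [Yw, inner_sum, Finset.sum_mul]
  refine Finset.sum_congr rfl fun i _ => ?_
  rw [real_inner_smul_right, Yv_coord he]
  ring

/-- Bound for the number of steps from a polynomial in the hull. -/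
theorem hull_bound [FiniteDimensional ℝ E] (h : SharpM T G η K x r q a) (hK : 1 ≤ K) {D : ℝ}
    (hD : 0 ≤ D) (hDG : D ≤ G) (hx : ∀ l ≤ K, ‖x l‖ ≤ D * ‖r l‖) (hsm : 10^6 * (G^25 * η) ≤ 1)
    (hT0 : ∀ y, y ≠ 0 → 0 < ⟪y, T y⟫_ℝ) {μ : ℝ} (hμ : ∀ y, μ * ‖y‖^2 ≤ ⟪y, T y⟫_ℝ)
    {P : ℝ → ℝ} (hP : CosHull K P) {s : ℝ} (hs0 : 0 ≤ s) (hs1 : s ≤ 1)
    (hb : ∀ θ lam : ℝ, 0 < lam → lam ≤ 1 → μ ≤ lam → Real.cos θ = 1 - lam / 10 →
      0 ≤ P θ ∧ lam * P θ ≤ s * (1 - P θ)) : 1/2 < D * √(K+1) * s := by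
  obtain ⟨w, hw0, hw1, hw⟩ := hP
  have hmain := N_main h hK hD hDG hx hsm hw0 hw1
  have hsym : T.IsSymmetric := fun y z => h.sym y z
  set eb := hsym.eigenvectorBasis rfl with heb
  set ev := hsym.eigenvalues rfl with hev
  have hTe : ∀ j, T (eb j) = ev j • eb j := by
    intro j
    exact hsym.apply_eigenvectorBasis rfl j
  have hco : ∀ j v, ⟪eb j, T v⟫_ℝ = ev j * ⟪eb j, v⟫_ℝ := by
    intro j v
    rw [← h.sym, hTe, real_inner_smul_left]
  have hn : ∀ j, ‖eb j‖ = 1 := fun j => eb.orthonormal.1 j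
  have hq : ∀ j, ⟪eb j, T (eb j)⟫_ℝ = ev j := by
    intro j
    rw [hTe, real_inner_smul_right, real_inner_self_eq_norm_sq, hn]; ring
  have hev0 : ∀ j, 0 < ev j := by
    intro j
    rw [← hq]
    apply hT0
    intro h0
    have := hn j
    rw [h0, norm_zero] at this
    norm_num at this
  have hevμ : ∀ j, μ ≤ ev j := by
    intro j
    have := hμ (eb j)
    rw [hq, hn] at this
    linarith
  have hev1 : ∀ j, ev j ≤ 1 := by
    intro j
    have h1 := h.one (eb j)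
    rw [hTe, norm_smul, hn, Real.norm_eq_abs, abs_of_pos (hev0 j)] at h1
    linarith
  have hnorm : ∀ z : E, ‖z‖^2 = ∑ j, ⟪eb j, z⟫_ℝ^2 := by
    intro z
    have := eb.sum_sq_norm_inner_right z
    rw [← this]
    simp
  set Y := Yw T (r 0) w (K+1) with hY
  set g : _ → ℝ := fun j => ∑ i ∈ Finset.range (K+1), w i * bs (ev j) i with hg
  have hYc : ∀ j, ⟪eb j, Y⟫_ℝ = g j * ⟪eb j, r 0⟫_ℝ := fun j => Yw_coord (hco j) _ _ _
  have hZc : ∀ j, ⟪eb j, r 0 - T Y⟫_ℝ = (1 - ev j * g j) * ⟪eb j, r 0⟫_ℝ := by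
    intro j
    rw [inner_sub_right, hco, hYc]; ring
  have hpt : ∀ j, 0 ≤ 1 - ev j * g j ∧ 1 - ev j * g j ≤ s * g j ∧ 1/2 ≤ g j := by
    intro j
    set θ := Real.arccos (1 - ev j / 10) with hθ
    have hcos : Real.cos θ = 1 - ev j / 10 := by
      rw [hθ, Real.cos_arccos]
      · have := hev1 j; linarith
      · have := hev0 j; linarith
    have h1 := hb θ (ev j) (hev0 j) (hev1 j) (hevμ j) hcos
    have h2 : ev j * g j = 1 - P θ := by
      rw [hw, hg]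
      simp only
      rw [Finset.mul_sum, ← hw1, ← Finset.sum_sub_distrib]
      refine Finset.sum_congr rfl fun i _ => ?_
      have := bs_cos hcos i
      rw [← mul_one_sub, ← this]
      ring
    have h3 := hev0 j
    have h4 : 1 - ev j * g j = P θ := by rw [h2]; ring
    have h5 : P θ ≤ s * g j := by
      have h6 : ev j * P θ ≤ ev j * (s * g j) := by
        calc ev j * P θ ≤ s * (1 - P θ) := h1.2
          _ = ev j * (s * g j) := by rw [← h2]; ring
      exact le_of_mul_le_mul_left h6 h3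
    refine ⟨by rw [h4]; exact h1.1, by rw [h4]; exact h5, ?_⟩
    have h6 := hev1 j
    have h7 : 1 ≤ (ev j + s) * g j := by linarith
    have h8 : 0 < g j := by
      by_contra hc
      push Not at hc
      have : (ev j + s) * g j ≤ 0 := mul_nonpos_of_nonneg_of_nonpos (by linarith) hc
      linarith
    nlinarith
  have hYn : (1/2:ℝ) ≤ ‖Y‖ := by
    apply (abs_le_of_sq_le_sq' _ (norm_nonneg _)).2
    have h1 : ‖r 0‖^2 = 1 := by rw [h.r01]; norm_num
    rw [hnorm] at h1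
    rw [hnorm Y]
    calc (1/2:ℝ)^2 = ∑ j, (1/2)^2 * ⟪eb j, r 0⟫_ℝ^2 := by rw [← Finset.mul_sum, h1, mul_one]
      _ ≤ ∑ j, ⟪eb j, Y⟫_ℝ^2 := by
        apply Finset.sum_le_sum
        intro j _
        rw [hYc, mul_pow]
        have := (hpt j).2.2
        gcongr
  have hZn : ‖r 0 - T Y‖ ≤ s * ‖Y‖ := by
    apply (abs_le_of_sq_le_sq' _ (by positivity)).2
    rw [mul_pow, hnorm, hnorm Y, Finset.mul_sum]
    apply Finset.sum_le_sum
    intro j _
    rw [hYc, hZc]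
    have h1 := (hpt j).1
    have h2 := (hpt j).2.1
    calc ((1 - ev j * g j) * ⟪eb j, r 0⟫_ℝ)^2 = (1 - ev j * g j)^2 * ⟪eb j, r 0⟫_ℝ^2 := by ring
      _ ≤ (s * g j)^2 * ⟪eb j, r 0⟫_ℝ^2 := by gcongr
      _ = _ := by ring
  by_contra hcon
  push Not at hcon
  have h1 : D * √(K+1) * ‖r 0 - T Y‖ ≤ 1/2 * ‖Y‖ := by
    calc D * √(K+1) * ‖r 0 - T Y‖ ≤ D * √(K+1) * (s * ‖Y‖) := by gcongr
      _ = (D * √(K+1) * s) * ‖Y‖ := by ring
      _ ≤ 1/2 * ‖Y‖ := by gcongr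
  linarith

end Pool.Agent.Helper643.CG
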