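import Mathlib
import Pool.Agent.Helper643.CGDefs
import Pool.Agent.Helper643.CGLocal

namespace Pool.Agent.Helper643.CG

open scoped Matrix.Norms.L2Operator InnerProductSpace

variable {n : ℕ}

/-- The Euclidean vector with given coordinates. -/
noncomputable abbrev vec (y : Fin n → ℝ) : EuclideanSpace ℝ (Fin n) := WithLp.toLp 2 y

lemma norm_vec (y : Fin n → ℝ) : ‖vec y‖ = l2 y := by
  rw [EuclideanSpace.norm_eq]
  simp [l2]

lemma inner_vec (y z : Fin n → ℝ) : ⟪vec y, vec z⟫_ℝ = ∑ i, y i * z i := by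
  simp [PiLp.inner_apply, mul_comm]

lemma abs_le_norm_vec (y : Fin n → ℝ) (i : Fin n) : |y i| ≤ ‖vec y‖ := by
  have := PiLp.norm_apply_le (vec y) i
  simpa using this

lemma norm_vec_le_sum (y : Fin n → ℝ) : ‖vec y‖ ≤ ∑ i, |y i| := by
  rw [norm_vec, l2]
  apply Real.sqrt_le_iff.2
  refine ⟨Finset.sum_nonneg fun i _ => abs_nonneg _, ?_⟩
  have h := Finset.sum_sq_le_sq_sum_of_nonneg (s := Finset.univ) (f := fun i => |y i|)
    (fun i _ => abs_nonneg _)
  simpa using h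

lemma norm_vec_le_of_forall {y : Fin n → ℝ} {c : ℝ} (h : ∀ i, |y i| ≤ c) :
    ‖vec y‖ ≤ n * c := by
  refine (norm_vec_le_sum y).trans ?_
  calc ∑ i, |y i| ≤ ∑ _i : Fin n, c := Finset.sum_le_sum fun i _ => h i
    _ = n * c := by simp

/-- Error of a computed inner product. -/
lemma FlDot.err {u : ℝ} (hu : 0 ≤ u) {y z : Fin n → ℝ} {S : Finset (Fin n)} {v : ℝ}
    (h : FlDot u y z S v) :
    |v - ∑ i ∈ S, y i * z i| ≤ ((1 + u)^S.card - 1) * ∑ i ∈ S, |y i * z i| ∧ 1 ≤ S.card := by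
  induction h with
  | leaf i v hv =>
    obtain ⟨δ, hδ, rfl⟩ := hv
    simp only [Finset.sum_singleton, Finset.card_singleton, pow_one, le_refl, and_true]
    have e : y i * z i * (1 + δ) - y i * z i = δ * (y i * z i) := by ring
    rw [e, abs_mul]
    calc |δ| * |y i * z i| ≤ u * |y i * z i| := by gcongr
      _ = _ := by ring
  | node S S' v v' w hd _ _ hw ih ih' =>
    obtain ⟨δ, hδ, rfl⟩ := hw
    obtain ⟨h1, h2⟩ := ih
    obtain ⟨h1', h2'⟩ := ih'
    rw [Finset.sum_union hd, Finset.sum_union hd, Finset.card_union_of_disjoint hd]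
    refine ⟨?_, by omega⟩
    set s := ∑ i ∈ S, y i * z i
    set s' := ∑ i ∈ S', y i * z i
    set m := ∑ i ∈ S, |y i * z i| with hm
    set m' := ∑ i ∈ S', |y i * z i| with hm'
    have hm0 : 0 ≤ m := Finset.sum_nonneg fun i _ => abs_nonneg _
    have hm0' : 0 ≤ m' := Finset.sum_nonneg fun i _ => abs_nonneg _
    have hs : |s| ≤ m := Finset.abs_sum_le_sum_abs _ _
    have hs' : |s'| ≤ m' := Finset.abs_sum_le_sum_abs _ _
    have e : (v + v') * (1 + δ) - (s + s') =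
        (1 + δ) * (v - s) + (1 + δ) * (v' - s') + δ * s + δ * s' := by ring
    have hδ1 : |1 + δ| ≤ 1 + u := by
      calc |1 + δ| ≤ |1| + |δ| := abs_add_le _ _
        _ ≤ 1 + u := by rw [abs_one]; linarith
    have b1 : |(1 + δ) * (v - s)| ≤ (1 + u) * (((1 + u)^S.card - 1) * m) := by
      rw [abs_mul]; gcongr
    have b2 : |(1 + δ) * (v' - s')| ≤ (1 + u) * (((1 + u)^S'.card - 1) * m') := by
      rw [abs_mul]; gcongr
    have b3 : |δ * s| ≤ u * m := by rw [abs_mul]; gcongr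
    have b4 : |δ * s'| ≤ u * m' := by rw [abs_mul]; gcongr
    have c1 : (1 + u)^(S.card + 1) ≤ (1 + u)^(S.card + S'.card) :=
      pow_le_pow_right₀ (by linarith) (by omega)
    have c2 : (1 + u)^(S'.card + 1) ≤ (1 + u)^(S.card + S'.card) :=
      pow_le_pow_right₀ (by linarith) (by omega)
    rw [e]
    calc _ ≤ |(1 + δ) * (v - s) + (1 + δ) * (v' - s') + δ * s| + |δ * s'| := abs_add_le _ _
      _ ≤ (|(1 + δ) * (v - s)| + |(1 + δ) * (v' - s')| + |δ * s|) + |δ * s'| := by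
          gcongr; exact abs_add_three _ _ _
      _ ≤ ((1 + u) * (((1 + u)^S.card - 1) * m) + (1 + u) * (((1 + u)^S'.card - 1) * m')
            + u * m) + u * m' := by gcongr
      _ = ((1 + u)^(S.card + 1) - 1) * m + ((1 + u)^(S'.card + 1) - 1) * m' := by ring
      _ ≤ ((1 + u)^(S.card + S'.card) - 1) * m + ((1 + u)^(S.card + S'.card) - 1) * m' := by
          gcongr
      _ = _ := by ring

lemma pow_sub_one_le {u : ℝ} (hu : 0 ≤ u) (hnu : n * u ≤ 1/2) : (1 + u)^n - 1 ≤ 2 * n * u := by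
  rcases Nat.eq_zero_or_pos n with h0 | hpos
  · subst h0; simp
  have hn1 : (1:ℝ) ≤ n := by exact_mod_cast hpos
  have hu1 : u ≤ 1/2 := by nlinarith
  have h1 : 1 + (n:ℝ) * (-u) ≤ (1 + (-u))^n := one_add_mul_le_pow (by linarith) n
  have h2 : (1 + u)^n * (1 + (-u))^n ≤ 1 := by
    rw [← mul_pow]
    apply pow_le_one₀
    · nlinarith
    · nlinarith
  have h3 : 0 ≤ (1 + u)^n := by positivity
  have h4 : (1 + u)^n * (1 - n * u) ≤ 1 := by
    calc (1 + u)^n * (1 - n * u) = (1 + u)^n * (1 + (n:ℝ) * (-u)) := by ring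
      _ ≤ (1 + u)^n * (1 + (-u))^n := by gcongr
      _ ≤ 1 := h2
  have h5 : 1 ≤ (1 + 2 * (n * u)) * (1 - n * u) := by nlinarith [mul_nonneg (Nat.cast_nonneg n) hu]
  have h6 : (1 + u)^n ≤ 1 + 2 * (n * u) := by
    have h7 : 0 < 1 - n * u := by linarith
    have h8 : (1 + u)^n * (1 - n * u) ≤ (1 + 2 * (n * u)) * (1 - n * u) := by linarith
    exact le_of_mul_le_mul_right h8 h7
  linarith

lemma FlInner.err {u : ℝ} (hu : 0 ≤ u) (hnu : n * u ≤ 1/2) {y z : Fin n → ℝ} {v : ℝ}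
    (h : FlInner u y z v) : |v - ⟪vec y, vec z⟫_ℝ| ≤ 2 * n * u * (‖vec y‖ * ‖vec z‖) := by
  have h1 := (FlDot.err hu h).1
  rw [Finset.card_univ, Fintype.card_fin, ← inner_vec] at h1
  refine h1.trans ?_
  have h2 := pow_sub_one_le hu hnu
  have h3 : ∑ i, |y i * z i| ≤ ‖vec y‖ * ‖vec z‖ := by
    have h4 : ∑ i, |y i * z i| = ⟪vec (fun i => |y i|), vec (fun i => |z i|)⟫_ℝ := by
      rw [inner_vec]
      exact Finset.sum_congr rfl fun i _ => abs_mul _ _
    have h5 : ∀ y : Fin n → ℝ, ‖vec (fun i => |y i|)‖ = ‖vec y‖ := by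
      intro y
      rw [norm_vec, norm_vec, l2, l2]
      simp
    rw [h4, ← h5 y, ← h5 z]
    exact real_inner_le_norm _ _
  have h6 : 0 ≤ ∑ i, |y i * z i| := Finset.sum_nonneg fun i _ => abs_nonneg _
  have h7 : 0 ≤ 2 * (n:ℝ) * u := by positivity
  calc ((1 + u)^n - 1) * ∑ i, |y i * z i| ≤ (2 * n * u) * ∑ i, |y i * z i| := by gcongr
    _ ≤ _ := by gcongr

/-- The linear operator of a matrix. -/
noncomputable abbrev op (A : Matrix (Fin n) (Fin n) ℝ) :
    EuclideanSpace ℝ (Fin n) →ₗ[ℝ] EuclideanSpace ℝ (Fin n) := Matrix.toEuclideanLin A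

lemma op_vec (A : Matrix (Fin n) (Fin n) ℝ) (y : Fin n → ℝ) : op A (vec y) = vec (A.mulVec y) := by
  simp [op, vec]

lemma op_norm_le (A : Matrix (Fin n) (Fin n) ℝ) (y : EuclideanSpace ℝ (Fin n)) :
    ‖op A y‖ ≤ ‖A‖ * ‖y‖ := Matrix.l2_opNorm_mulVec A y

lemma row_norm_le {A : Matrix (Fin n) (Fin n) ℝ} (hA : A.IsHermitian) (i : Fin n) :
    ‖vec (A i)‖ ≤ ‖A‖ := by
  have h1 : vec (A i) = op A (vec (Pi.single i 1)) := by
    rw [op_vec]
    congr 1
    ext j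
    rw [Matrix.mulVec_single_one]
    have := hA.apply i j
    simpa using this.symm
  rw [h1]
  refine (op_norm_le _ _).trans ?_
  have : ‖vec (Pi.single i (1:ℝ) : Fin n → ℝ)‖ = 1 := by
    simp [vec]
  rw [this, mul_one]

lemma FlMulVec.err {u : ℝ} (hu : 0 ≤ u) (hnu : n * u ≤ 1/2) {A : Matrix (Fin n) (Fin n) ℝ}
    (hA : A.IsHermitian) {p w : Fin n → ℝ} (h : FlMulVec u A p w) :
    ‖vec w - op A (vec p)‖ ≤ 2 * n^2 * u * (‖A‖ * ‖vec p‖) := by
  have e : vec w - op A (vec p) = vec (fun i => w i - A.mulVec p i) := by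
    rw [op_vec]; rfl
  rw [e]
  calc ‖vec (fun i => w i - A.mulVec p i)‖ ≤ n * (2 * n * u * (‖A‖ * ‖vec p‖)) := by
        apply norm_vec_le_of_forall
        intro i
        have h1 := FlInner.err hu hnu (h i)
        rw [inner_vec] at h1
        have h2 : A.mulVec p i = ∑ j, A i j * p j := rfl
        rw [h2]
        refine h1.trans ?_
        gcongr
        exact row_norm_le hA i
    _ = _ := by ring

lemma axpy_err {u : ℝ} (hu : 0 ≤ u) (hu1 : u ≤ 1) {y z v : Fin n → ℝ} {c : ℝ}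
    (h : ∀ i, ∃ m, Fl u (c * z i) m ∧ Fl u (y i + m) (v i)) :
    ‖vec v - vec y - c • vec z‖ ≤ 3 * n * u * (‖vec y‖ + |c| * ‖vec z‖) := by
  have e : vec v - vec y - c • vec z = vec (fun i => v i - y i - c * z i) := rfl
  rw [e]
  calc ‖vec (fun i => v i - y i - c * z i)‖ ≤ n * (3 * u * (‖vec y‖ + |c| * ‖vec z‖)) := by
        apply norm_vec_le_of_forall
        intro i
        obtain ⟨m, ⟨δ, hδ, rfl⟩, ⟨δ', hδ', hv⟩⟩ := h i
        have e2 : v i - y i - c * z i = δ' * y i + (δ + δ' + δ * δ') * (c * z i) := by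
          rw [hv]; ring
        rw [e2]
        have h1 : |δ + δ' + δ * δ'| ≤ 3 * u := by
          calc |δ + δ' + δ * δ'| ≤ |δ| + |δ'| + |δ * δ'| := abs_add_three _ _ _
            _ ≤ u + u + u * 1 := by
                rw [abs_mul]
                gcongr
                exact hδ'.trans hu1
            _ = 3 * u := by ring
        calc |δ' * y i + (δ + δ' + δ * δ') * (c * z i)|
            ≤ |δ' * y i| + |(δ + δ' + δ * δ') * (c * z i)| := abs_add_le _ _
          _ = |δ'| * |y i| + |δ + δ' + δ * δ'| * (|c| * |z i|) := by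
              rw [abs_mul, abs_mul, abs_mul]
          _ ≤ (3 * u) * ‖vec y‖ + (3 * u) * (|c| * ‖vec z‖) := by
              have h2 := abs_le_norm_vec y i
              have h3 := abs_le_norm_vec z i
              gcongr
              linarith
          _ = 3 * u * (‖vec y‖ + |c| * ‖vec z‖) := by ring
    _ = _ := by ring

lemma axmy_err {u : ℝ} (hu : 0 ≤ u) (hu1 : u ≤ 1) {y z v : Fin n → ℝ} {c : ℝ}
    (h : ∀ i, ∃ m, Fl u (c * z i) m ∧ Fl u (y i - m) (v i)) :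
    ‖vec v - vec y + c • vec z‖ ≤ 3 * n * u * (‖vec y‖ + |c| * ‖vec z‖) := by
  have h1 : ∀ i, ∃ m, Fl u ((-c) * z i) m ∧ Fl u (y i + m) (v i) := by
    intro i
    obtain ⟨m, ⟨δ, hδ, hm⟩, hv⟩ := h i
    refine ⟨-m, ⟨δ, hδ, by rw [hm]; ring⟩, ?_⟩
    rwa [← sub_eq_add_neg]
  have h2 := axpy_err hu hu1 h1
  rw [neg_smul, sub_neg_eq_add, abs_neg] at h2
  exact h2

/-- The error of the computed quadratic form. -/
lemma FlQuad.err {u : ℝ} (hu : 0 ≤ u) (hn : 1 ≤ n) (hτ : 2 * n^2 * u ≤ 1/10)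
    {A : Matrix (Fin n) (Fin n) ℝ} (hA : A.IsHermitian) {p w : Fin n → ℝ} {d : ℝ}
    (hw : FlMulVec u A p w) (hd : FlInner u p w d) :
    |d - ⟪vec p, op A (vec p)⟫_ℝ| ≤ 3 * (2 * n^2 * u) * (‖A‖ * ‖vec p‖^2) := by
  have hn1 : (1:ℝ) ≤ n := by exact_mod_cast hn
  have hnn : (n:ℝ) ≤ n^2 := by nlinarith
  set τ := 2 * (n:ℝ)^2 * u with hτdef
  have hτ0 : 0 ≤ τ := by positivity
  have hnu2 : 2 * (n:ℝ) * u ≤ τ := by rw [hτdef]; gcongr
  have hnu : n * u ≤ 1/2 := by linarith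
  have h1 := FlMulVec.err hu hnu hA hw
  rw [← hτdef] at h1
  have h2 := FlInner.err hu hnu hd
  set P := ‖vec p‖ with hP
  have hP0 : 0 ≤ P := norm_nonneg _
  have hw1 : ‖vec w‖ ≤ (1 + τ) * (‖A‖ * P) := by
    have h3 : ‖vec w‖ ≤ ‖vec w - op A (vec p)‖ + ‖op A (vec p)‖ := by
      have := norm_add_le (vec w - op A (vec p)) (op A (vec p))
      simpa using this
    have h4 := op_norm_le A (vec p)
    linarith
  have h5 : |⟪vec p, vec w⟫_ℝ - ⟪vec p, op A (vec p)⟫_ℝ| ≤ τ * (‖A‖ * P^2) := by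
    rw [← inner_sub_right]
    calc |⟪vec p, vec w - op A (vec p)⟫_ℝ| ≤ P * ‖vec w - op A (vec p)‖ :=
          abs_real_inner_le_norm _ _
      _ ≤ P * (τ * (‖A‖ * P)) := by gcongr
      _ = _ := by ring
  have h6 : |d - ⟪vec p, vec w⟫_ℝ| ≤ τ * (1 + τ) * (‖A‖ * P^2) := by
    refine h2.trans ?_
    calc 2 * (n:ℝ) * u * (P * ‖vec w‖) ≤ τ * (P * ((1 + τ) * (‖A‖ * P))) := by gcongr
      _ = _ := by ring
  have h7 : 0 ≤ ‖A‖ * P^2 := by positivity
  calc |d - ⟪vec p, op A (vec p)⟫_ℝ|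
      = |(d - ⟪vec p, vec w⟫_ℝ) + (⟪vec p, vec w⟫_ℝ - ⟪vec p, op A (vec p)⟫_ℝ)| := by
        congr 1; ring
    _ ≤ |d - ⟪vec p, vec w⟫_ℝ| + |⟪vec p, vec w⟫_ℝ - ⟪vec p, op A (vec p)⟫_ℝ| := abs_add_le _ _
    _ ≤ τ * (1 + τ) * (‖A‖ * P^2) + τ * (‖A‖ * P^2) := by gcongr
    _ ≤ 3 * τ * (‖A‖ * P^2) := by
        have h8 : τ * τ ≤ τ * 1 := by gcongr; linarith
        have h9 : (τ * τ) * (‖A‖ * P^2) ≤ (τ * 1) * (‖A‖ * P^2) := by gcongr
        linarith

/-- The scaled run attached to a floating-point run. -/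
theorem run_srun {u : ℝ} (hu : 0 ≤ u) (hn : 1 ≤ n) (hτ : 2 * n^2 * u ≤ 1/10)
    {A : Matrix (Fin n) (Fin n) ℝ} (hA : A.PosDef) {b : Fin n → ℝ} (hb : b ≠ 0) {K : ℕ}
    {x r p w : ℕ → Fin n → ℝ} {ρ d α β : ℕ → ℝ} (h : Run u A b K x r p w ρ d α β) :
    SRun ((‖A‖⁻¹) • op A) ((‖vec b‖⁻¹) • vec b) (5 * (2 * n^2 * u)) K
      (fun k => (‖A‖ / ‖vec b‖) • vec (x k)) (fun k => (‖vec b‖⁻¹) • vec (r k))
      (fun k => (‖vec b‖ / ‖vec (r k)‖^2) • vec (p k))
      (fun k => ‖A‖ * α k * ‖vec (r k)‖^2 / ‖vec b‖^2) := by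
  have hn1 : (1:ℝ) ≤ n := by exact_mod_cast hn
  have hnn : (n:ℝ) ≤ n^2 := by nlinarith
  set τ := 2 * (n:ℝ)^2 * u with hτdef
  have hτ0 : 0 ≤ τ := by positivity
  have hnu2 : 2 * (n:ℝ) * u ≤ τ := by rw [hτdef]; gcongr
  have hnu : n * u ≤ 1/2 := by linarith
  have huτ : 2 * u ≤ τ := by
    calc 2 * u = 2 * 1 * u := by ring
      _ ≤ 2 * (n:ℝ) * u := by gcongr
      _ ≤ τ := hnu2
  have hu1 : u ≤ 1 := by linarith
  have h3n : 3 * (n:ℝ) * u ≤ 1.5 * τ := by linarith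
  have hAh := hA.1
  have hbn : 0 < ‖vec b‖ := by
    rw [norm_pos_iff]
    intro h0
    apply hb
    have := congrArg WithLp.ofLp h0
    simpa using this
  have hA0 : 0 < ‖A‖ := by
    rw [norm_pos_iff]
    rintro rfl
    have h1 := hA.dotProduct_mulVec_pos hb
    simp at h1
  have hsym : ∀ y z, ⟪op A y, z⟫_ℝ = ⟪y, op A z⟫_ℝ := by
    exact Matrix.isSymmetric_toEuclideanLin_iff.2 hAh
  have hposA : ∀ y, 0 ≤ ⟪y, op A y⟫_ℝ := by
    intro y
    have h1 := hA.posSemidef.dotProduct_mulVec_nonneg (WithLp.ofLp y)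
    have h2 : ⟪y, op A y⟫_ℝ = ∑ i, (WithLp.ofLp y) i * A.mulVec (WithLp.ofLp y) i := by
      rw [← inner_vec, ← op_vec]
    rw [h2]
    simpa [dotProduct] using h1
  have hrne : ∀ k < K, vec (r k) ≠ 0 := by
    intro k hk h0
    have h1 := FlInner.err hu hnu (h.hρ k hk.le)
    rw [h0] at h1
    simp at h1
    exact h.hρ0 k hk h1
  set N := ‖A‖ with hN
  set B := ‖vec b‖ with hB
  have hr0 : ∀ k < K, 0 < ‖vec (r k)‖ := fun k hk => norm_pos_iff.2 (hrne k hk)
  -- the computed numbers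
  have hρerr : ∀ k ≤ K, |ρ k - ‖vec (r k)‖^2| ≤ τ * ‖vec (r k)‖^2 := by
    intro k hk
    have h1 := FlInner.err hu hnu (h.hρ k hk)
    rw [real_inner_self_eq_norm_sq] at h1
    refine h1.trans ?_
    rw [← pow_two]
    gcongr
  have hαd : ∀ k < K, |α k * d k - ‖vec (r k)‖^2| ≤ 2 * τ * ‖vec (r k)‖^2 := by
    intro k hk
    obtain ⟨δ, hδ, hα⟩ := h.hα k hk
    have h1 := hρerr k hk.le
    have h2 : α k * d k = ρ k * (1 + δ) := by
      rw [hα]
      have := h.hd0 k hk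
      field_simp
    rw [h2]
    set R := ‖vec (r k)‖^2 with hR
    have hR0 : 0 ≤ R := by positivity
    have h3 : |ρ k| ≤ (1 + τ) * R := by
      have := abs_add_le (ρ k - R) R
      rw [sub_add_cancel, abs_of_nonneg hR0] at this
      linarith
    have e : ρ k * (1 + δ) - R = (ρ k - R) + ρ k * δ := by ring
    rw [e]
    calc |(ρ k - R) + ρ k * δ| ≤ |ρ k - R| + |ρ k * δ| := abs_add_le _ _
      _ ≤ τ * R + ((1 + τ) * R) * (τ / 2) := by
          rw [abs_mul]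
          gcongr
          linarith
      _ ≤ 2 * τ * R := by
          have : τ * (τ * R) ≤ 1 * (τ * R) := by gcongr; linarith
          linarith
  refine ⟨?_, ?_, ?_, by positivity, ?_, ?_, ?_, ?_, ?_, ?_, ?_, ?_, ?_⟩
  · intro y z
    simp only [LinearMap.smul_apply, real_inner_smul_left, real_inner_smul_right, hsym]
  · intro y
    simp only [LinearMap.smul_apply, real_inner_smul_right]
    have := hposA y
    positivity
  · intro y
    simp only [LinearMap.smul_apply, norm_smul, norm_inv, Real.norm_eq_abs, abs_of_pos hA0]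
    rw [inv_mul_le_iff₀ hA0]
    exact op_norm_le A y
  · rw [norm_smul, norm_inv, norm_norm, inv_mul_cancel₀ hbn.ne']
  · show (N / B) • vec (x 0) = 0
    rw [h.x0]
    have : vec (0 : Fin n → ℝ) = 0 := rfl
    rw [this, smul_zero]
  · show B⁻¹ • vec (r 0) = _
    rw [h.r0]
  · show (B / ‖vec (r 0)‖^2) • vec (p 0) = _
    rw [h.r0, h.p0, ← hB]
    congr 1
    field_simp
  · intro k hk
    exact smul_ne_zero (by positivity) (hrne k hk)
  · -- h1
    intro k hk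
    have h1 := axpy_err hu hu1 (h.hx k hk)
    have hR := hr0 k hk
    have e : (N / B) • vec (x (k+1)) - (N / B) • vec (x k) -
        (N * α k * ‖vec (r k)‖^2 / B^2) • (B / ‖vec (r k)‖^2) • vec (p k) =
        (N / B) • (vec (x (k+1)) - vec (x k) - α k • vec (p k)) := by
      rw [smul_smul, smul_sub, smul_sub, smul_smul]
      congr 2
      field_simp
    show ‖(N / B) • vec (x (k+1)) - (N / B) • vec (x k) -
        (N * α k * ‖vec (r k)‖^2 / B^2) • (B / ‖vec (r k)‖^2) • vec (p k)‖ ≤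
        5 * τ * (‖(N / B) • vec (x k)‖ + |N * α k * ‖vec (r k)‖^2 / B^2| *
          ‖(B / ‖vec (r k)‖^2) • vec (p k)‖)
    rw [e, norm_smul, norm_smul, norm_smul, Real.norm_eq_abs, Real.norm_eq_abs, abs_div, abs_div,
      abs_div, abs_mul, abs_mul, abs_of_pos hA0, abs_of_pos hbn, abs_of_pos (pow_pos hR 2),
      abs_of_pos (pow_pos hbn 2)]
    have e2 : N / B * ‖vec (x k)‖ + N * |α k| * ‖vec (r k)‖^2 / B^2 *
        (B / ‖vec (r k)‖^2 * ‖vec (p k)‖) = N / B * (‖vec (x k)‖ + |α k| * ‖vec (p k)‖) := by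
      field_simp
    rw [e2]
    calc N / B * ‖vec (x (k+1)) - vec (x k) - α k • vec (p k)‖
        ≤ N / B * (3 * n * u * (‖vec (x k)‖ + |α k| * ‖vec (p k)‖)) := by gcongr
      _ ≤ N / B * (5 * τ * (‖vec (x k)‖ + |α k| * ‖vec (p k)‖)) := by
          gcongr N / B * (?_ * _)
          linarith
      _ = _ := by ring
  · -- h2
    intro k hk
    have h1 := axmy_err hu hu1 (h.hr k hk)
    have h2 := FlMulVec.err hu hnu hAh (h.hw k hk)
    rw [← hτdef] at h2
    have hR := hr0 k hk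
    have hwn : ‖vec (w k)‖ ≤ 1.1 * (N * ‖vec (p k)‖) := by
      have h3 : ‖vec (w k)‖ ≤ ‖vec (w k) - op A (vec (p k))‖ + ‖op A (vec (p k))‖ := by
        have := norm_add_le (vec (w k) - op A (vec (p k))) (op A (vec (p k)))
        simpa using this
      have h4 := op_norm_le A (vec (p k))
      have h5 : τ * (N * ‖vec (p k)‖) ≤ 0.1 * (N * ‖vec (p k)‖) := by
        gcongr
        linarith
      linarith
    have e : B⁻¹ • vec (r (k+1)) - B⁻¹ • vec (r k) +
        (N * α k * ‖vec (r k)‖^2 / B^2) • (N⁻¹ • op A) ((B / ‖vec (r k)‖^2) • vec (p k)) =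
        B⁻¹ • ((vec (r (k+1)) - vec (r k) + α k • vec (w k)) -
          α k • (vec (w k) - op A (vec (p k)))) := by
      rw [LinearMap.smul_apply, map_smul, smul_smul, smul_smul]
      have e3 : N * α k * ‖vec (r k)‖^2 / B^2 * N⁻¹ * (B / ‖vec (r k)‖^2) = B⁻¹ * α k := by
        field_simp
      rw [e3]
      module
    show ‖B⁻¹ • vec (r (k+1)) - B⁻¹ • vec (r k) +
        (N * α k * ‖vec (r k)‖^2 / B^2) • (N⁻¹ • op A) ((B / ‖vec (r k)‖^2) • vec (p k))‖ ≤
        5 * τ * (‖B⁻¹ • vec (r k)‖ + |N * α k * ‖vec (r k)‖^2 / B^2| *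
          ‖(B / ‖vec (r k)‖^2) • vec (p k)‖)
    rw [e, norm_smul, norm_smul, norm_smul, Real.norm_eq_abs, Real.norm_eq_abs, abs_div, abs_div,
      abs_mul, abs_mul, abs_inv, abs_of_pos hA0, abs_of_pos hbn, abs_of_pos (pow_pos hR 2),
      abs_of_pos (pow_pos hbn 2)]
    have e2 : B⁻¹ * ‖vec (r k)‖ + N * |α k| * ‖vec (r k)‖^2 / B^2 *
        (B / ‖vec (r k)‖^2 * ‖vec (p k)‖) = B⁻¹ * (‖vec (r k)‖ + |α k| * (N * ‖vec (p k)‖)) := by
      field_simp
    rw [e2]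
    have h6 : ‖(vec (r (k+1)) - vec (r k) + α k • vec (w k)) -
          α k • (vec (w k) - op A (vec (p k)))‖ ≤
          5 * τ * (‖vec (r k)‖ + |α k| * (N * ‖vec (p k)‖)) := by
      calc _ ≤ ‖vec (r (k+1)) - vec (r k) + α k • vec (w k)‖ +
            ‖α k • (vec (w k) - op A (vec (p k)))‖ := norm_sub_le _ _
        _ ≤ 3 * n * u * (‖vec (r k)‖ + |α k| * ‖vec (w k)‖) +
            |α k| * (τ * (N * ‖vec (p k)‖)) := by
            rw [norm_smul, Real.norm_eq_abs]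
            gcongr
        _ ≤ 1.5 * τ * (‖vec (r k)‖ + |α k| * (1.1 * (N * ‖vec (p k)‖))) +
            |α k| * (τ * (N * ‖vec (p k)‖)) := by
            gcongr
        _ ≤ 5 * τ * (‖vec (r k)‖ + |α k| * (N * ‖vec (p k)‖)) := by
            have h7 : 0 ≤ τ * ‖vec (r k)‖ := by positivity
            have h8 : 0 ≤ τ * (|α k| * (N * ‖vec (p k)‖)) := by positivity
            linarith
    calc B⁻¹ * ‖_‖ ≤ B⁻¹ * (5 * τ * (‖vec (r k)‖ + |α k| * (N * ‖vec (p k)‖))) := by gcongr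
      _ = _ := by ring
  · -- h3
    intro k hk hr1
    have hr1' : vec (r (k+1)) ≠ 0 := fun h0 => hr1 (by show B⁻¹ • vec (r (k+1)) = 0; rw [h0, smul_zero])
    have hR1 : 0 < ‖vec (r (k+1))‖ := norm_pos_iff.2 hr1'
    have hR := hr0 k hk
    have h1 := axpy_err hu hu1 (h.hp k hk)
    obtain ⟨δ, hδ, hβ⟩ := h.hβ k hk
    have hρ0 := h.hρ0 k hk
    have hρk := hρerr k hk.le
    have hρk1 := hρerr (k+1) hk
    set R := ‖vec (r k)‖ with hRdef
    set R1 := ‖vec (r (k+1))‖ with hR1def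
    set P := ‖vec (p k)‖ with hP
    have hρlow : 0.9 * R^2 ≤ ρ k := by
      have := (abs_le.1 hρk).1
      have h5 : τ * R^2 ≤ 0.1 * R^2 := by gcongr; linarith
      linarith
    have hR2 : 0 < R^2 := by positivity
    have hR12 : 0 < R1^2 := by positivity
    have hρpos : 0 < ρ k := by linarith
    have hβerr : |β k * R^2 / R1^2 - 1| ≤ 3 * τ := by
      have e : β k * R^2 / R1^2 - 1 =
          (ρ (k+1) * (1 + δ) * R^2 - ρ k * R1^2) / (ρ k * R1^2) := by
        rw [hβ]; field_simp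
      rw [e, abs_div, abs_of_pos (show 0 < ρ k * R1^2 by positivity),
        div_le_iff₀ (by positivity)]
      have e2 : ρ (k+1) * (1 + δ) * R^2 - ρ k * R1^2 =
          (ρ (k+1) - R1^2) * R^2 + ρ (k+1) * δ * R^2 - (ρ k - R^2) * R1^2 := by ring
      rw [e2]
      have h4 : |ρ (k+1)| ≤ 1.1 * R1^2 := by
        have := abs_add_le (ρ (k+1) - R1^2) (R1^2)
        rw [sub_add_cancel, abs_of_pos hR12] at this
        have h5 : τ * R1^2 ≤ 0.1 * R1^2 := by gcongr; linarith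
        linarith
      calc |(ρ (k+1) - R1^2) * R^2 + ρ (k+1) * δ * R^2 - (ρ k - R^2) * R1^2|
          ≤ |(ρ (k+1) - R1^2) * R^2 + ρ (k+1) * δ * R^2| + |(ρ k - R^2) * R1^2| := abs_sub _ _
        _ ≤ (|(ρ (k+1) - R1^2) * R^2| + |ρ (k+1) * δ * R^2|) + |(ρ k - R^2) * R1^2| := by
            gcongr; exact abs_add_le _ _
        _ = |ρ (k+1) - R1^2| * R^2 + |ρ (k+1)| * |δ| * R^2 + |ρ k - R^2| * R1^2 := by
            rw [abs_mul, abs_mul, abs_mul, abs_mul, abs_of_pos hR2, abs_of_pos hR12]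
        _ ≤ (τ * R1^2) * R^2 + (1.1 * R1^2) * (τ/2) * R^2 + (τ * R^2) * R1^2 := by
            have hδ' : |δ| ≤ τ/2 := by linarith
            gcongr
        _ = 2.55 * τ * (R^2 * R1^2) := by ring
        _ ≤ 3 * τ * ((0.9 * R^2) * R1^2) := by
            have h6 : 0 ≤ τ * (R^2 * R1^2) := by positivity
            linarith
        _ ≤ 3 * τ * (ρ k * R1^2) := by gcongr
    have e : (B / R1^2) • vec (p (k+1)) - (‖B⁻¹ • vec (r (k+1))‖^2)⁻¹ • B⁻¹ • vec (r (k+1)) -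
        (B / R^2) • vec (p k) = (B / R1^2) • (vec (p (k+1)) - vec (r (k+1)) - β k • vec (p k)) +
        (β k * R^2 / R1^2 - 1) • (B / R^2) • vec (p k) := by
      rw [norm_smul, norm_inv, Real.norm_eq_abs, abs_of_pos hbn, ← hR1def, smul_smul, smul_smul,
        smul_sub, smul_sub, smul_smul]
      have e3 : ((B⁻¹ * R1)^2)⁻¹ * B⁻¹ = B / R1^2 := by field_simp
      have e4 : (β k * R^2 / R1^2 - 1) * (B / R^2) = B / R1^2 * β k - B / R^2 := by
        field_simp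
      rw [e3, e4]
      module
    show ‖(B / R1^2) • vec (p (k+1)) - (‖B⁻¹ • vec (r (k+1))‖^2)⁻¹ • B⁻¹ • vec (r (k+1)) -
        (B / R^2) • vec (p k)‖ ≤ 5 * τ * (‖B⁻¹ • vec (r (k+1))‖⁻¹ + ‖(B / R^2) • vec (p k)‖)
    rw [e]
    have hn1 : ‖B⁻¹ • vec (r (k+1))‖⁻¹ = B / R1 := by
      rw [norm_smul, norm_inv, Real.norm_eq_abs, abs_of_pos hbn, ← hR1def]
      field_simp
    have hn2 : ‖(B / R^2) • vec (p k)‖ = B / R^2 * P := by
      rw [norm_smul, Real.norm_eq_abs, abs_of_pos (by positivity)]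
    rw [hn1, hn2]
    have hβ1 : |β k| * R^2 / R1^2 ≤ 1.3 := by
      have h5 : |β k| * R^2 / R1^2 = |β k * R^2 / R1^2| := by
        rw [abs_div, abs_mul, abs_of_pos hR2, abs_of_pos hR12]
      rw [h5]
      have h6 := abs_add_le (β k * R^2 / R1^2 - 1) 1
      rw [sub_add_cancel, abs_one] at h6
      linarith
    calc ‖(B / R1^2) • (vec (p (k+1)) - vec (r (k+1)) - β k • vec (p k)) +
        (β k * R^2 / R1^2 - 1) • (B / R^2) • vec (p k)‖
        ≤ ‖(B / R1^2) • (vec (p (k+1)) - vec (r (k+1)) - β k • vec (p k))‖ +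
          ‖(β k * R^2 / R1^2 - 1) • (B / R^2) • vec (p k)‖ := norm_add_le _ _
      _ = B / R1^2 * ‖vec (p (k+1)) - vec (r (k+1)) - β k • vec (p k)‖ +
          |β k * R^2 / R1^2 - 1| * (B / R^2 * P) := by
          rw [norm_smul, norm_smul _ ((B / R^2) • vec (p k)), hn2, Real.norm_eq_abs,
            Real.norm_eq_abs, abs_of_pos (show 0 < B / R1^2 by positivity)]
      _ ≤ B / R1^2 * (3 * n * u * (R1 + |β k| * P)) + (3 * τ) * (B / R^2 * P) := by gcongr
      _ ≤ B / R1^2 * (1.5 * τ * (R1 + |β k| * P)) + (3 * τ) * (B / R^2 * P) := by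
          gcongr
      _ = 1.5 * τ * (B / R1) + (1.5 * τ * (|β k| * R^2 / R1^2)) * (B / R^2 * P) +
          (3 * τ) * (B / R^2 * P) := by
          field_simp
      _ ≤ 1.5 * τ * (B / R1) + (1.5 * τ * 1.3) * (B / R^2 * P) + (3 * τ) * (B / R^2 * P) := by
          gcongr
      _ ≤ 5 * τ * (B / R1 + B / R^2 * P) := by
          have h7 : 0 ≤ τ * (B / R1) := by positivity
          have h8 : 0 ≤ τ * (B / R^2 * P) := by positivity
          linarith
  · -- h4
    intro k hk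
    have hR := hr0 k hk
    have h1 := FlQuad.err hu hn (by rw [← hτdef]; exact hτ) hAh (h.hw k hk) (h.hd k hk)
    rw [← hτdef] at h1
    have h2 := hαd k hk
    set R := ‖vec (r k)‖ with hRdef
    set P := ‖vec (p k)‖ with hP
    set V := ⟪vec (p k), op A (vec (p k))⟫_ℝ with hV
    show |N * α k * R^2 / B^2 * ⟪(B / R^2) • vec (p k), (N⁻¹ • op A) ((B / R^2) • vec (p k))⟫_ℝ - 1|
      ≤ 5 * τ * (1 + |N * α k * R^2 / B^2| * ‖(B / R^2) • vec (p k)‖^2)
    have e1 : N * α k * R^2 / B^2 * ⟪(B / R^2) • vec (p k), (N⁻¹ • op A) ((B / R^2) • vec (p k))⟫_ℝ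
        - 1 = (α k * V - R^2) / R^2 := by
      rw [LinearMap.smul_apply, map_smul, real_inner_smul_left, real_inner_smul_right,
        real_inner_smul_right, ← hV]
      field_simp
    have e2 : |N * α k * R^2 / B^2| * ‖(B / R^2) • vec (p k)‖^2 = |α k| * (N * P^2) / R^2 := by
      rw [norm_smul, Real.norm_eq_abs, abs_div, abs_div, abs_mul, abs_mul, abs_of_pos hA0,
        abs_of_pos hbn, abs_of_pos (pow_pos hR 2), abs_of_pos (pow_pos hbn 2), ← hP]
      field_simp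
    rw [e1, e2, abs_div, abs_of_pos (pow_pos hR 2), div_le_iff₀ (pow_pos hR 2)]
    have e3 : 5 * τ * (1 + |α k| * (N * P^2) / R^2) * R^2 =
        5 * τ * R^2 + 5 * τ * (|α k| * (N * P^2)) := by
      field_simp
    rw [e3]
    have e4 : α k * V - R^2 = (α k * d k - R^2) - α k * (d k - V) := by ring
    rw [e4]
    calc |(α k * d k - R^2) - α k * (d k - V)| ≤ |α k * d k - R^2| + |α k * (d k - V)| :=
          abs_sub _ _
      _ ≤ 2 * τ * R^2 + |α k| * (3 * τ * (N * P^2)) := by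
          rw [abs_mul]
          gcongr
      _ ≤ 5 * τ * R^2 + 5 * τ * (|α k| * (N * P^2)) := by
          have h7 : 0 ≤ τ * R^2 := by positivity
          have h8 : 0 ≤ τ * (|α k| * (N * P^2)) := by positivity
          linarith

end Pool.Agent.Helper643.CG
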