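import Mathlib
import Pool.Agent.Helper643.CGModel
import Pool.Agent.Helper643.CGUpper

namespace Pool.Agent.Helper643.CG

open scoped Matrix.Norms.L2Operator InnerProductSpace ENNReal

variable {n : ℕ}

/-- The spectral lower bound coming from the condition number. -/
lemma cond_lower {A : Matrix (Fin n) (Fin n) ℝ} (hA : A.PosDef) {κ : ℝ} (hκ : 0 ≤ κ)
    (h : ∀ i j, hA.1.eigenvalues i ≤ κ * hA.1.eigenvalues j) (y : EuclideanSpace ℝ (Fin n)) :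
    ‖A‖ * ‖y‖^2 ≤ κ * ⟪y, op A y⟫_ℝ := by
  rcases Nat.eq_zero_or_pos n with h0 | hpos
  · subst h0
    have : y = 0 := Subsingleton.elim _ _
    rw [this]; simp
  haveI : Nonempty (Fin n) := ⟨⟨0, hpos⟩⟩
  set e := hA.1.eigenvectorBasis with he
  set l := hA.1.eigenvalues with hl
  have hl0 : ∀ i, 0 < l i := fun i => hA.eigenvalues_pos i
  have hAe : ∀ i, op A (e i) = l i • e i := by
    intro i
    have h1 := hA.1.mulVec_eigenvectorBasis i
    have h2 : op A (e i) = vec (A.mulVec (WithLp.ofLp (e i))) := rfl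
    rw [h2, he, h1]
    rfl
  have hsym : ∀ y z, ⟪op A y, z⟫_ℝ = ⟪y, op A z⟫_ℝ := Matrix.isSymmetric_toEuclideanLin_iff.2 hA.1
  have hcoef : ∀ (z : EuclideanSpace ℝ (Fin n)) i, ⟪e i, op A z⟫_ℝ = l i * ⟪e i, z⟫_ℝ := by
    intro z i
    rw [← hsym, hAe, real_inner_smul_left]
  have hnorm : ∀ z : EuclideanSpace ℝ (Fin n), ‖z‖^2 = ∑ i, ⟪e i, z⟫_ℝ^2 := by
    intro z
    have := e.sum_sq_norm_inner_right z
    rw [← this]
    simp
  have hquad : ⟪y, op A y⟫_ℝ = ∑ i, l i * ⟪e i, y⟫_ℝ^2 := by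
    rw [← e.sum_inner_mul_inner y (op A y)]
    refine Finset.sum_congr rfl fun i _ => ?_
    rw [hcoef, real_inner_comm y (e i)]
    ring
  obtain ⟨i0, hi0⟩ := Finite.exists_max l
  have hAn : ‖A‖ ≤ l i0 := by
    have h1 : ‖A‖ = ‖Matrix.toEuclideanCLM (n := Fin n) (𝕜 := ℝ) A‖ := rfl
    rw [h1]
    apply ContinuousLinearMap.opNorm_le_bound _ (hl0 i0).le
    intro z
    have h2 : ‖op A z‖^2 ≤ (l i0 * ‖z‖)^2 := by
      rw [hnorm (op A z), mul_pow, hnorm z, Finset.mul_sum]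
      apply Finset.sum_le_sum
      intro i _
      rw [hcoef, mul_pow]
      have h3 : l i^2 ≤ l i0^2 := pow_le_pow_left₀ (hl0 i).le (hi0 i) 2
      gcongr
    have h3 : 0 ≤ l i0 * ‖z‖ := mul_nonneg (hl0 i0).le (norm_nonneg _)
    exact (abs_le_of_sq_le_sq' h2 h3).2
  calc ‖A‖ * ‖y‖^2 ≤ l i0 * ‖y‖^2 := by gcongr
    _ = ∑ i, l i0 * ⟪e i, y⟫_ℝ^2 := by rw [hnorm y, Finset.mul_sum]
    _ ≤ ∑ i, κ * (l i * ⟪e i, y⟫_ℝ^2) := by
        apply Finset.sum_le_sum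
        intro i _
        rw [← mul_assoc]
        gcongr
        exact h i0 i
    _ = κ * ⟪y, op A y⟫_ℝ := by rw [hquad, Finset.mul_sum]

/-- Exact evaluation is a possible computed value. -/
lemma Fl.exact {u : ℝ} (hu : 0 ≤ u) (y : ℝ) : Fl u y y := ⟨0, by simpa using hu, by ring⟩

lemma FlDot.exact {u : ℝ} (hu : 0 ≤ u) (y z : Fin n → ℝ) {S : Finset (Fin n)}
    (hS : S.Nonempty) : FlDot u y z S (∑ i ∈ S, y i * z i) := by
  induction hS using Finset.Nonempty.cons_induction with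
  | singleton a =>
    rw [Finset.sum_singleton]
    exact FlDot.leaf a _ (Fl.exact hu _)
  | cons a S ha hS ih =>
    rw [Finset.sum_cons, Finset.cons_eq_insert, Finset.insert_eq]
    exact FlDot.node {a} S _ _ _ (Finset.disjoint_singleton_left.2 ha)
      (FlDot.leaf a _ (Fl.exact hu _)) ih (Fl.exact hu _)

lemma FlInner.exact {u : ℝ} (hu : 0 ≤ u) (hn : 1 ≤ n) (y z : Fin n → ℝ) :
    FlInner u y z (∑ i, y i * z i) := by
  haveI : Nonempty (Fin n) := ⟨⟨0, hn⟩⟩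
  exact FlDot.exact hu y z Finset.univ_nonempty

lemma FlMulVec.exact {u : ℝ} (hu : 0 ≤ u) (hn : 1 ≤ n) (A : Matrix (Fin n) (Fin n) ℝ)
    (p : Fin n → ℝ) : FlMulVec u A p (A.mulVec p) := fun i => FlInner.exact hu hn (A i) p

lemma ends_false {brk : Prop} {u : ℝ} (hu : 0 ≤ u) (hn : 1 ≤ n) (hτ : 2 * n^2 * u ≤ 1/10)
    {A : Matrix (Fin n) (Fin n) ℝ} (hA : A.PosDef) {K : ℕ} {p : ℕ → Fin n → ℝ}
    (hE : Ends brk u A K p) (hp : vec (p K) ≠ 0) (hKn : K < n)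
    (hbrk : brk → ∃ κ : ℝ, 0 ≤ κ ∧ (∀ y, ‖A‖ * ‖y‖^2 ≤ κ * ⟪y, op A y⟫_ℝ) ∧
      3 * (2 * n^2 * u) * κ < 1) : False := by
  rcases hE with h1 | ⟨hb, w, hw, hd⟩ | h1
  · omega
  · obtain ⟨κ, hκ0, hκ, hs⟩ := hbrk hb
    have h1 := FlQuad.err hu hn hτ hA.1 hw hd
    have h2 := hκ (vec (p K))
    set V := ⟪vec (p K), op A (vec (p K))⟫_ℝ with hV
    have h3 : V ≤ 3 * (2 * n^2 * u) * (‖A‖ * ‖vec (p K)‖^2) := by
      have := (abs_le.1 h1).1
      linarith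
    have hA0 : 0 < ‖A‖ := by
      rw [norm_pos_iff]
      rintro rfl
      have h1 := hA.dotProduct_mulVec_pos (x := p K) (by
        rintro h0
        apply hp
        rw [h0]; rfl)
      simp at h1
    have h4 : 0 < ‖A‖ * ‖vec (p K)‖^2 := by
      have := norm_pos_iff.2 hp
      positivity
    have h5 : ‖A‖ * ‖vec (p K)‖^2 ≤ (3 * (2 * n^2 * u) * κ) * (‖A‖ * ‖vec (p K)‖^2) := by
      calc ‖A‖ * ‖vec (p K)‖^2 ≤ κ * V := h2
        _ ≤ κ * (3 * (2 * n^2 * u) * (‖A‖ * ‖vec (p K)‖^2)) := by gcongr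
        _ = _ := by ring
    nlinarith
  · have h2 := h1 _ ⟨A.mulVec (p K), FlMulVec.exact hu hn A (p K), FlInner.exact hu hn _ _⟩
    have h3 := hA.dotProduct_mulVec_pos (x := p K) (by
        rintro h0
        apply hp
        rw [h0]; rfl)
    have h4 : star (p K) ⬝ᵥ A.mulVec (p K) = ∑ i, p K i * A.mulVec (p K) i := by
      simp [dotProduct]
    rw [h4, h2] at h3
    exact lt_irrefl _ h3

/-- Sufficient conditions for the precision to be good. -/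
theorem good_of (brk : Prop) {κ : ℝ≥0∞} {ε : ℝ} {t : ℕ} (hn : 1 ≤ n) (hε : 0 < ε) (hε1 : ε ≤ 1)
    (hτ : 2 * (n:ℝ)^2 * (1 / 2^t) ≤ 1/10)
    (hcases : 400000 * ((5 * (2 * (n:ℝ)^2 * (1/2^t))) * (4000 * n * (200 / ε^6)^7)^(n+1)) ≤ ε^2 ∨
      (∃ κ' : ℝ, κ = ENNReal.ofReal κ' ∧ 1 ≤ κ' ∧
        400000 * ((5 * (2 * (n:ℝ)^2 * (1/2^t))) * (4000 * n * (200 * κ'^6)^7)^(n+1)) ≤ ε^2) ∨
      (10^9 * (((n:ℝ) + 1) * (5 * (2 * (n:ℝ)^2 * (1/2^t)))) ≤ ε^12 ∧ 80 < n * ε^4))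
    (hbrk : brk → ∃ κ' : ℝ, κ ≤ ENNReal.ofReal κ' ∧ 1 ≤ κ' ∧
      3 * (2 * (n:ℝ)^2 * (1/2^t)) * κ' < 1) : Good brk n κ ε t := by
  intro A b hA hcond hb _ _ K x r p w ρ d α β hK hrun hE
  by_contra hcon
  push Not at hcon
  set u : ℝ := 1 / 2^t with hudef
  have hu : 0 ≤ u := by positivity
  have hS := run_srun hu hn hτ hA hb hrun
  have hbn : 0 < ‖vec b‖ := by
    rw [norm_pos_iff]
    intro h0
    apply hb
    have := congrArg WithLp.ofLp h0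
    simpa using this
  have hA0 : 0 < ‖A‖ := by
    rw [norm_pos_iff]
    rintro rfl
    have h1 := hA.dotProduct_mulVec_pos hb
    simp at h1
  have hlowκ : ∀ κ' : ℝ, κ ≤ ENNReal.ofReal κ' → 1 ≤ κ' →
      ∀ y, ‖A‖ * ‖y‖^2 ≤ κ' * ⟪y, op A y⟫_ℝ := by
    intro κ' hκ' hκ1
    apply cond_lower hA (by linarith)
    intro i j
    have h1 := hcond i j
    have hj := hA.eigenvalues_pos j
    have h2 : ENNReal.ofReal (hA.1.eigenvalues i) ≤
        ENNReal.ofReal (κ' * hA.1.eigenvalues j) := by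
      rw [ENNReal.ofReal_mul (by linarith)]
      refine h1.trans ?_
      gcongr
    have h3 : 0 ≤ κ' * hA.1.eigenvalues j := by positivity
    exact (ENNReal.ofReal_le_ofReal_iff h3).1 h2
  -- scaled backward error
  have hη : ∀ k ≤ K, ε * (‖(‖A‖ / ‖vec b‖) • vec (x k)‖ + 1) <
      ‖(‖vec b‖⁻¹) • vec b - ((‖A‖⁻¹) • op A) ((‖A‖ / ‖vec b‖) • vec (x k))‖ := by
    intro k hk
    have h1 := hcon k hk
    unfold eta at h1
    rw [← norm_vec, ← norm_vec, ← norm_vec, lt_div_iff₀ (by positivity)] at h1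
    have e : (‖vec b‖⁻¹) • vec b - ((‖A‖⁻¹) • op A) ((‖A‖ / ‖vec b‖) • vec (x k)) =
        ‖vec b‖⁻¹ • vec (b - A.mulVec (x k)) := by
      have e2 : vec (b - A.mulVec (x k)) = vec b - op A (vec (x k)) := by
        rw [op_vec]; rfl
      rw [e2, LinearMap.smul_apply, map_smul, smul_smul, smul_sub]
      congr 2
      field_simp
    rw [e, norm_smul, norm_smul, norm_inv, norm_norm, Real.norm_eq_abs,
      abs_of_pos (by positivity : 0 < ‖A‖ / ‖vec b‖)]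
    have e3 : ε * (‖A‖ / ‖vec b‖ * ‖vec (x k)‖ + 1) =
        ‖vec b‖⁻¹ * (ε * (‖A‖ * ‖vec (x k)‖ + ‖vec b‖)) := by
      field_simp
    rw [e3]
    gcongr
  have hfin : Module.finrank ℝ (EuclideanSpace ℝ (Fin n)) = n := by simp
  have key : 0.99 ≤ ‖(‖vec b‖ / ‖vec (r K)‖^2) • vec (p K)‖ * ‖(‖vec b‖⁻¹) • vec (r K)‖ ∧ K < n := by
    rcases hcases with h1 | ⟨κ', hκ', hκ1, h1⟩ | ⟨h1, h2⟩
    · exact upper_eps hS hε hε1 hK hn hfin h1 hη
    · refine upper_kap hS hε hε1 hκ1 ?_ hK hn hfin h1 hη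
      intro y
      have h2 := hlowκ κ' hκ'.le hκ1 y
      rw [LinearMap.smul_apply, real_inner_smul_right]
      have h3 : κ' * (‖A‖⁻¹ * ⟪y, op A y⟫_ℝ) = ‖A‖⁻¹ * (κ' * ⟪y, op A y⟫_ℝ) := by ring
      rw [h3, le_inv_mul_iff₀ hA0]
      exact h2
    · have hKn : (K:ℝ) ≤ n := by exact_mod_cast hK
      have h3 := upper_large hS hε hε1 (by
        refine le_trans ?_ h1
        gcongr) hη
      refine ⟨h3.1, ?_⟩
      by_contra hc
      have : K = n := by omega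
      rw [this] at h3
      linarith [h3.2]
  obtain ⟨hq, hKn⟩ := key
  have hp : vec (p K) ≠ 0 := by
    intro h0
    rw [h0] at hq
    simp at hq
    norm_num at hq
  refine ends_false hu hn hτ hA hE hp hKn ?_
  intro hb'
  obtain ⟨κ', h1, h2, h3⟩ := hbrk hb'
  exact ⟨κ', by linarith, hlowκ κ' h1 h2, h3⟩

end Pool.Agent.Helper643.CG
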