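import Mathlib
import Pool.Agent.Helper643.CGBoot
import Pool.Agent.Helper643.CGGood

/-!
From the analysis of scaled runs to sufficient precisions.
-/

namespace Pool.Agent.Helper643.CG

open scoped Matrix.Norms.L2Operator InnerProductSpace ENNReal

variable {n : ℕ}

/-- Sufficient conditions for the precision to be good. -/
theorem good_of2 (brk : Prop) {κ : ℝ≥0∞} {ε : ℝ} {t : ℕ} (hn : 1 ≤ n) (hε : 0 < ε) (hε1 : ε ≤ 1)
    (hτ : 2 * (n:ℝ)^2 * (1 / 2^t) ≤ 1/10)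
    (hτ9 : 10^9 * (((n:ℝ) + 1) * (5 * (2 * (n:ℝ)^2 * (1/2^t)))) ≤ ε^12)
    (hkey : ∀ (T : EuclideanSpace ℝ (Fin n) →ₗ[ℝ] EuclideanSpace ℝ (Fin n))
      (b : EuclideanSpace ℝ (Fin n)) (K : ℕ) (x r q : ℕ → EuclideanSpace ℝ (Fin n)) (a : ℕ → ℝ),
      K ≤ n → BigRun T b (5 * (2 * (n:ℝ)^2 * (1/2^t))) ε K x r q a →
      (∀ κ' : ℝ, 1 ≤ κ' → κ ≤ ENNReal.ofReal κ' → ∀ y, ‖y‖^2 ≤ κ' * ⟪y, T y⟫_ℝ) → K < n)
    (hbrk : brk → ∃ κ' : ℝ, κ ≤ ENNReal.ofReal κ' ∧ 1 ≤ κ' ∧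
      3 * (2 * (n:ℝ)^2 * (1/2^t)) * κ' < 1) : Good brk n κ ε t := by
  intro A b hA hcond hb _ _ K x r p w ρ d α β hK hrun hE
  by_contra hcon
  push Not at hcon
  set u : ℝ := 1 / 2^t with hudef
  have hu : 0 ≤ u := by positivity
  have hS := run_srun hu hn hτ hA hb hrun
  have hbn : 0 < ‖vec b‖ := by
    rw [norm_pos_iff]
    intro h0
    apply hb
    have := congrArg WithLp.ofLp h0
    simpa using this
  have hA0 : 0 < ‖A‖ := by
    rw [norm_pos_iff]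
    rintro rfl
    have h1 := hA.dotProduct_mulVec_pos hb
    simp at h1
  have hlowκ : ∀ κ' : ℝ, κ ≤ ENNReal.ofReal κ' → 1 ≤ κ' →
      ∀ y, ‖A‖ * ‖y‖^2 ≤ κ' * ⟪y, op A y⟫_ℝ := by
    intro κ' hκ' hκ1
    apply cond_lower hA (by linarith)
    intro i j
    have h1 := hcond i j
    have hj := hA.eigenvalues_pos j
    have h2 : ENNReal.ofReal (hA.1.eigenvalues i) ≤
        ENNReal.ofReal (κ' * hA.1.eigenvalues j) := by
      rw [ENNReal.ofReal_mul (by linarith)]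
      refine h1.trans ?_
      gcongr
    have h3 : 0 ≤ κ' * hA.1.eigenvalues j := by positivity
    exact (ENNReal.ofReal_le_ofReal_iff h3).1 h2
  -- scaled backward error
  have hη : ∀ k ≤ K, ε * (‖(‖A‖ / ‖vec b‖) • vec (x k)‖ + 1) <
      ‖(‖vec b‖⁻¹) • vec b - ((‖A‖⁻¹) • op A) ((‖A‖ / ‖vec b‖) • vec (x k))‖ := by
    intro k hk
    have h1 := hcon k hk
    unfold eta at h1
    rw [← norm_vec, ← norm_vec, ← norm_vec, lt_div_iff₀ (by positivity)] at h1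
    have e : (‖vec b‖⁻¹) • vec b - ((‖A‖⁻¹) • op A) ((‖A‖ / ‖vec b‖) • vec (x k)) =
        ‖vec b‖⁻¹ • vec (b - A.mulVec (x k)) := by
      have e2 : vec (b - A.mulVec (x k)) = vec b - op A (vec (x k)) := by
        rw [op_vec]; rfl
      rw [e2, LinearMap.smul_apply, map_smul, smul_smul, smul_sub]
      congr 2
      field_simp
    rw [e, norm_smul, norm_smul, norm_inv, norm_norm, Real.norm_eq_abs,
      abs_of_pos (by positivity : 0 < ‖A‖ / ‖vec b‖)]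
    have e3 : ε * (‖A‖ / ‖vec b‖ * ‖vec (x k)‖ + 1) =
        ‖vec b‖⁻¹ * (ε * (‖A‖ * ‖vec (x k)‖ + ‖vec b‖)) := by
      field_simp
    rw [e3]
    gcongr
  have hKn : (K:ℝ) ≤ n := by exact_mod_cast hK
  have hbig : BigRun ((‖A‖⁻¹) • op A) ((‖vec b‖⁻¹) • vec b) (5 * (2 * (n:ℝ)^2 * u)) ε K
      (fun k => (‖A‖ / ‖vec b‖) • vec (x k)) (fun k => (‖vec b‖⁻¹) • vec (r k))
      (fun k => (‖vec b‖ / ‖vec (r k)‖^2) • vec (p k))
      (fun k => ‖A‖ * α k * ‖vec (r k)‖^2 / ‖vec b‖^2) := by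
    refine ⟨hS, hε, hε1, ?_, hη⟩
    refine le_trans ?_ hτ9
    gcongr
  have hlt : K < n := by
    refine hkey _ _ K _ _ _ _ hK hbig ?_
    intro κ' hκ1 hκ' y
    have h2 := hlowκ κ' hκ' hκ1 y
    rw [LinearMap.smul_apply, real_inner_smul_right]
    have h3 : κ' * (‖A‖⁻¹ * ⟪y, op A y⟫_ℝ) = ‖A‖⁻¹ * (κ' * ⟪y, op A y⟫_ℝ) := by ring
    rw [h3, le_inv_mul_iff₀ hA0]
    exact h2
  have hq := (upper_large hS hε hε1 hbig.hτ hη).1
  have hp : vec (p K) ≠ 0 := by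
    intro h0
    simp only [h0, smul_zero, norm_zero, zero_mul] at hq
    norm_num at hq
  refine ends_false hu hn hτ hA hE hp hlt ?_
  intro hb'
  obtain ⟨κ', h1, h2, h3⟩ := hbrk hb'
  exact ⟨κ', by linarith, hlowκ κ' h1 h2, h3⟩

section

variable {E : Type*} [NormedAddCommGroup E] [InnerProductSpace ℝ E]
variable {T : E →ₗ[ℝ] E} {b : E} {τ ε : ℝ} {K : ℕ} {x r q : ℕ → E} {a : ℕ → ℝ}

lemma log_bound {M Y : ℝ} {i j : ℕ} (hM : 2 ≤ M) (hY0 : 0 < Y) (hY : Y ≤ 2^i * M^j) :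
    Real.log Y ≤ 0.7 * (i + j) * Real.logb 2 M := by
  have hL : 1 ≤ Real.logb 2 M := by
    rw [Real.le_logb_iff_rpow_le (by norm_num) (by linarith), Real.rpow_one]
    exact hM
  have h1 : Real.log Y ≤ Real.log (2^i * M^j) := Real.log_le_log hY0 hY
  rw [Real.log_mul (by positivity) (by positivity), Real.log_pow, Real.log_pow] at h1
  have h2 : Real.log M = Real.logb 2 M * Real.log 2 := by
    rw [Real.logb]; field_simp
  have h3 := Real.log_two_lt_d9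
  have h3' := Real.log_two_gt_d9
  rw [h2] at h1
  have hi : (0:ℝ) ≤ i := Nat.cast_nonneg i
  have hj : (0:ℝ) ≤ j := Nat.cast_nonneg j
  have h4 : (i:ℝ) * Real.log 2 ≤ i * (0.7 * Real.logb 2 M) := by
    gcongr
    linarith
  have h5 : (j:ℝ) * (Real.logb 2 M * Real.log 2) ≤ j * (Real.logb 2 M * 0.7) := by
    gcongr
    linarith
  linarith

/-- Number of steps, finite condition number, tiny precision requirement. -/
theorem nsteps_kap (h : BigRun T b τ ε K x r q a) (hε2 : ε ≤ 1/2) {κ : ℝ} (hκ : 1 ≤ κ)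
    (hlow : ∀ y : E, ‖y‖^2 ≤ κ * ⟪y, T y⟫_ℝ) (hκε : κ * ε^4 ≤ 1)
    (hsm : 10^6 * ((Gs ε)^42 * τ) ≤ 1) :
    (K:ℝ) ≤ 1000 * √κ * Real.logb 2 (1/ε) := by
  have hs := sharp_of h
  have hε := h.ε0
  have hτ := h.run.tau
  obtain ⟨G1, G2, G3, G4⟩ := Gs_facts h.ε0 h.ε1
  have hM2 : 2 ≤ 1/ε := by rw [le_div_iff₀ hε]; linarith
  obtain ⟨M, hM⟩ : ∃ M : ℝ, M = 1 / ε := ⟨_, rfl⟩
  rw [← hM] at hM2 ⊢
  have hG : Gs ε = 20000 * M^10 := by rw [Gs, hM]; ring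
  have hκM : κ ≤ M^4 := by
    have : κ ≤ 1 / ε^4 := by rw [le_div_iff₀ (by positivity)]; exact hκε
    rw [hM]; refine this.trans (le_of_eq ?_); ring
  have hL : 1 ≤ Real.logb 2 M := by
    rw [Real.le_logb_iff_rpow_le (by norm_num) (by linarith), Real.rpow_one]
    exact hM2
  have h1 := steps_kap hs (by
    refine le_trans (le_of_eq ?_) hsm
    ring) hκ hlow (by
    have h2 : κ * ((Gs ε)^13 * (τ * (Gs ε)^2)) ≤ (Gs ε)^42 * τ := by
      have h3 : κ ≤ Gs ε := by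
        refine hκM.trans ?_
        rw [hG]
        have : M^4 ≤ M^10 := pow_le_pow_right₀ (by linarith) (by norm_num)
        have h0 : 0 ≤ M^10 := by positivity
        linarith
      calc κ * ((Gs ε)^13 * (τ * (Gs ε)^2)) ≤ Gs ε * ((Gs ε)^13 * (τ * (Gs ε)^2)) := by gcongr
        _ = (Gs ε)^16 * τ := by ring
        _ ≤ (Gs ε)^42 * τ := by
          have : (Gs ε)^16 ≤ (Gs ε)^42 := pow_le_pow_right₀ G1 (by norm_num)
          gcongr
    linarith)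
  have h2 : Real.log (40 * (Gs ε)^4 * κ) ≤ 0.7 * ((63:ℕ) + (44:ℕ)) * Real.logb 2 M := by
    apply log_bound hM2 (by positivity)
    rw [hG]
    calc 40 * (20000 * M^10)^4 * κ ≤ 40 * (20000 * M^10)^4 * M^4 := by gcongr
      _ = (40 * 20000^4) * M^44 := by ring
      _ ≤ _ := by gcongr; norm_num
  norm_num at h2
  have h3 : 1 ≤ √κ := Real.one_le_sqrt.2 hκ
  have h4 : 12 * √κ * Real.log (40 * (Gs ε)^4 * κ) ≤ 12 * √κ * (75 * Real.logb 2 M) := by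
    gcongr
    linarith
  have h5 : 1 * 1 ≤ √κ * Real.logb 2 M := by gcongr
  nlinarith

/-- Number of steps, no condition number, tiny precision requirement. -/
theorem nsteps_eps (h : BigRun T b τ ε K x r q a) (hε2 : ε ≤ 1/2)
    (hsm : 10^6 * ((Gs ε)^42 * τ) ≤ 1) :
    (K:ℝ)^3 * ε^2 ≤ 3 * 10^12 * Real.logb 2 (1/ε)^4 := by
  have hs := sharp_of h
  have hε := h.ε0
  have hτ := h.run.tau
  obtain ⟨hZ, hN, hf, hA, hKε⟩ := h.nxt
  obtain ⟨G1, G2, G3, G4⟩ := Gs_facts h.ε0 h.ε1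
  have hM2 : 2 ≤ 1/ε := by rw [le_div_iff₀ hε]; linarith
  obtain ⟨M, hM⟩ : ∃ M : ℝ, M = 1 / ε := ⟨_, rfl⟩
  rw [← hM] at hM2 ⊢
  have hεM : ε * M = 1 := by rw [hM]; field_simp
  have hG : Gs ε = 20000 * M^10 := by rw [Gs, hM]; ring
  have hL : 1 ≤ Real.logb 2 M := by
    rw [Real.le_logb_iff_rpow_le (by norm_num) (by linarith), Real.rpow_one]
    exact hM2
  rcases Nat.eq_zero_or_pos K with hK | hK
  · rw [hK]; simp; positivity
  have hK1 : (1:ℝ) ≤ K := by exact_mod_cast hK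
  have hKM : (K:ℝ) ≤ 80 * M^4 := by
    have h2 : ε^4 * M^4 = 1 := by rw [← mul_pow, hεM, one_pow]
    calc (K:ℝ) = (K * ε^4) * M^4 := by rw [mul_assoc, h2, mul_one]
      _ ≤ 80 * M^4 := by gcongr
  have hDG : 2 * M ≤ 2 * Gs ε := by
    rw [hG]
    have : M ≤ M^10 := le_self_pow₀ (by linarith) (by norm_num)
    have h0 : 0 ≤ M^10 := by positivity
    linarith
  have h1 := steps_eps hs (by
    refine le_trans (le_of_eq ?_) hsm
    ring) (D := 2 * M) (by linarith) hDG (by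
    intro l hl
    have h2 := (hf l hl).2.1
    calc ‖x l‖ ≤ ‖x l‖ + 1 := by linarith
      _ = 2 * M * (ε / 2 * (‖x l‖ + 1)) := by
          have : 2 * M * (ε / 2 * (‖x l‖ + 1)) = (ε * M) * (‖x l‖ + 1) := by ring
          rw [this, hεM, one_mul]
      _ ≤ _ := by gcongr)
  set y := 2 * M * √(K:ℝ) with hy
  have hsK1 : 1 ≤ √(K:ℝ) := Real.one_le_sqrt.2 hK1
  have hsK : √(K:ℝ) ≤ 9 * M^2 := by
    rw [Real.sqrt_le_left (by positivity)]
    refine hKM.trans ?_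
    have : 0 ≤ M^4 := by positivity
    nlinarith
  have hy1 : 1 ≤ y := by rw [hy]; nlinarith
  have hy18 : y ≤ 18 * M^3 := by
    rw [hy]
    calc 2 * M * √(K:ℝ) ≤ 2 * M * (9 * M^2) := by gcongr
      _ = _ := by ring
  have h2 : Real.log (40 * (Gs ε)^4 * y) ≤ 0.7 * ((67:ℕ) + (43:ℕ)) * Real.logb 2 M := by
    apply log_bound hM2 (by positivity)
    rw [hG]
    calc 40 * (20000 * M^10)^4 * y ≤ 40 * (20000 * M^10)^4 * (18 * M^3) := by gcongr
      _ = (40 * 20000^4 * 18) * M^43 := by ring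
      _ ≤ _ := by gcongr; norm_num
  norm_num at h2
  have hsy : 1 ≤ √y := Real.one_le_sqrt.2 hy1
  have h3 : (K:ℝ) ≤ 927 * (√y * Real.logb 2 M) := by
    have h4 : 12 * √y * Real.log (40 * (Gs ε)^4 * y) ≤ 12 * √y * (77 * Real.logb 2 M) := by
      gcongr
    have h5 : 1 * 1 ≤ √y * Real.logb 2 M := by gcongr
    nlinarith
  have h4 : (K:ℝ)^4 ≤ 927^4 * (4 * M^2 * K) * Real.logb 2 M^4 := by
    calc (K:ℝ)^4 ≤ (927 * (√y * Real.logb 2 M))^4 := by gcongr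
      _ = 927^4 * (√y^2)^2 * Real.logb 2 M^4 := by ring
      _ = 927^4 * (4 * M^2 * K) * Real.logb 2 M^4 := by
        rw [Real.sq_sqrt (by linarith), hy, mul_pow, Real.sq_sqrt (by linarith)]; ring
  have h5 : (K:ℝ)^3 ≤ 927^4 * (4 * M^2) * Real.logb 2 M^4 := by
    have h6 : (K:ℝ)^3 * K ≤ (927^4 * (4 * M^2) * Real.logb 2 M^4) * K := by
      calc (K:ℝ)^3 * K = K^4 := by ring
        _ ≤ _ := h4
        _ = _ := by ring
    exact le_of_mul_le_mul_right h6 (by linarith)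
  calc (K:ℝ)^3 * ε^2 ≤ (927^4 * (4 * M^2) * Real.logb 2 M^4) * ε^2 := by gcongr
    _ = 927^4 * 4 * (ε * M)^2 * Real.logb 2 M^4 := by ring
    _ = 927^4 * 4 * Real.logb 2 M^4 := by rw [hεM]; ring
    _ ≤ _ := mul_le_mul_of_nonneg_right (by norm_num) (by positivity)

end

end Pool.Agent.Helper643.CG
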