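import Mathlib
import Pool.Agent.Helper643.CGF1G
import Pool.Agent.Helper643.CGGood2

/-!
Step bounds without logarithmic losses.
-/

namespace Pool.Agent.Helper643.CG

open scoped Matrix.Norms.L2Operator InnerProductSpace ENNReal

section

variable {E : Type*} [NormedAddCommGroup E] [InnerProductSpace ℝ E]
variable {T : E →ₗ[ℝ] E} {b : E} {τ ε : ℝ} {K : ℕ} {x r q : ℕ → E} {a : ℕ → ℝ}

theorem sharpM_of (h : BigRun T b τ ε K x r q a) :
    SharpM T (Gs ε) (τ * (Gs ε)^2) K x r q a := by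
  have hε := h.ε0
  have hε1 := h.ε1
  have hS := h.run
  have hτ := hS.tau
  have hsh := sharp_of h
  obtain ⟨hZ, hN, hf, hA, hK⟩ := h.nxt
  obtain ⟨M, hM⟩ : ∃ M : ℝ, M = 1 / ε := ⟨_, rfl⟩
  have hM1 : 1 ≤ M := by rw [hM, le_div_iff₀ hε]; linarith
  have hG : Gs ε = 20000 * M^10 := by rw [Gs, hM]; ring
  have hZM : 200 / ε^6 = 200 * M^6 := by rw [hM]; ring
  have hεM : ε * M = 1 := by rw [hM]; field_simp
  have hM10 : 1 ≤ M^10 := one_le_pow₀ hM1
  have hKM : (K:ℝ) ≤ 80 * M^4 := by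
    have h2 : ε^4 * M^4 = 1 := by rw [← mul_pow, hεM, one_pow]
    calc (K:ℝ) = (K * ε^4) * M^4 := by rw [mul_assoc, h2, mul_one]
      _ ≤ 80 * M^4 := by gcongr
  refine ⟨hsh, ?_, hS.pos, ?_, ?_⟩
  · rw [hG]; linarith
  · intro l hl
    have h1 := (hN l hl).rn
    have h2 := (hN l hl).apos
    calc ‖r (l+1)‖^2 ≤ (2.7 * √(a l))^2 := by gcongr
      _ = 7.29 * a l := by rw [mul_pow, Real.sq_sqrt h2.le]; norm_num
      _ ≤ 7.3 * a l := by linarith
  · intro l hl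
    have h1 := (hN l hl).y
    have h2 := hsh.ahi l hl
    rw [real_inner_comm]
    refine h1.trans ?_
    rw [hZM]
    have hl' : (l:ℝ) ≤ 80 * M^4 := by
      have : (l:ℝ) ≤ K := by exact_mod_cast hl.le
      exact this.trans hKM
    have hM4 : 1 ≤ M^4 := one_le_pow₀ hM1
    have h3 : (170 * (l:ℝ) + 169) ≤ 14000 * M^4 := by linarith
    have h4 := (hN l hl).apos
    calc (170 * (l:ℝ) + 169) * (τ * (200 * M^6)) * a l ≤
        (14000 * M^4) * (τ * (200 * M^6)) * Gs ε := by gcongr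
      _ = 2.8 * 10^6 * (τ * M^10) * Gs ε := by ring
      _ ≤ 4 * 10^8 * (τ * M^10) * Gs ε := by
          have h6 : 0 ≤ (τ * M^10) * Gs ε := by
            rw [hG]; positivity
          nlinarith
      _ ≤ 4 * 10^8 * (τ * M^20) * Gs ε := by
          have h5 : M^10 ≤ M^20 := pow_le_pow_right₀ hM1 (by norm_num)
          have h6 : 0 ≤ Gs ε := by rw [hG]; positivity
          gcongr
      _ = Gs ε * (τ * (Gs ε)^2) := by rw [hG]; ring

lemma big_x (h : BigRun T b τ ε K x r q a) :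
    0 ≤ 2/ε ∧ 2/ε ≤ Gs ε ∧ ∀ l ≤ K, ‖x l‖ ≤ 2/ε * ‖r l‖ := by
  have hε := h.ε0
  have hε1 := h.ε1
  obtain ⟨hZ, hN, hf, hA, hK⟩ := h.nxt
  refine ⟨by positivity, ?_, ?_⟩
  · rw [Gs, div_le_div_iff₀ hε (by positivity)]
    have h1 : ε^10 ≤ ε^1 := pow_le_pow_of_le_one hε.le hε1 (by norm_num)
    rw [pow_one] at h1
    linarith
  · intro l hl
    have h1 := (hf l hl).2.1
    rw [div_mul_eq_mul_div, le_div_iff₀ hε]
    linarith

/-- Number of steps, no condition number. -/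
theorem nsteps_eps2 [FiniteDimensional ℝ E] (h : BigRun T b τ ε K x r q a) (hε2 : ε ≤ 1/2)
    (hT0 : ∀ y, y ≠ 0 → 0 < ⟪y, T y⟫_ℝ) (hsm : 10^6 * ((Gs ε)^42 * τ) ≤ 1) :
    (K:ℝ)^3 * ε^2 ≤ 2 * 10^6 := by
  have hε := h.ε0
  have hτ := h.run.tau
  rcases Nat.lt_or_ge K 16 with hK | hK
  · have h1 : (K:ℝ) ≤ 16 := by exact_mod_cast hK.le
    have h2 : ε^2 ≤ 1 := by nlinarith
    calc (K:ℝ)^3 * ε^2 ≤ 16^3 * 1 := by gcongr
      _ ≤ _ := by norm_num
  · have hM := sharpM_of h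
    obtain ⟨d1, d2, d3⟩ := big_x h
    have hG1 := hM.G1
    have hsm' : 10^6 * ((Gs ε)^25 * (τ * (Gs ε)^2)) ≤ 1 := by
      refine le_trans ?_ hsm
      have e : (Gs ε)^25 * (τ * (Gs ε)^2) = (Gs ε)^27 * τ := by ring
      rw [e]
      have : (Gs ε)^27 ≤ (Gs ε)^42 := pow_le_pow_right₀ hG1 (by norm_num)
      gcongr
    set k := Nat.log 2 (K+1) with hk
    have hk1 : 2^k ≤ K + 1 := Nat.pow_log_le_self 2 (by omega)
    have hk2 : K + 1 < 2^(k+1) := Nat.lt_pow_succ_log_self (by norm_num) _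
    have hk4 : 4 ≤ k := by
      rw [hk]
      exact Nat.le_log_of_pow_le (by norm_num) (by omega)
    have h4k : (K+1:ℝ)^2 ≤ 4 * 4^k := by
      have h1 : ((K:ℝ)+1) ≤ 2^(k+1) := by exact_mod_cast hk2.le
      calc (K+1:ℝ)^2 ≤ (2^(k+1))^2 := by gcongr
        _ = 4 * 4^k := by
          rw [show (4:ℝ)^k = (2^k)^2 by rw [← pow_mul, mul_comm, pow_mul]; norm_num]
          ring
    have h4 : (256:ℝ) ≤ 4^k := by
      calc (256:ℝ) = 4^4 := by norm_num
        _ ≤ 4^k := pow_le_pow_right₀ (by norm_num) hk4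
    have hmain := hull_bound hM (by omega) d1 d2 d3 hsm' hT0 (μ := 0)
      (by intro y; rw [zero_mul]; exact hM.pos y) (P := Fej k)
      ((Fej_hull k).mono (by omega)) (s := 80/4^k) (by positivity)
      (by rw [div_le_one (by positivity)]; linarith)
      (by
        intro θ lam _ _ _ hθ
        refine ⟨Fej_nonneg k θ, ?_⟩
        have := Fej_main (by omega : 1 ≤ k) hθ
        rw [div_mul_eq_mul_div, le_div_iff₀ (by positivity)]
        linarith)
    have hK1 : (0:ℝ) < K + 1 := by positivity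
    have h5 : 4^k * ε < 320 * √(K+1) := by
      have e : 2/ε * √((K:ℝ)+1) * (80/4^k) = 160 * √((K:ℝ)+1) / (ε * 4^k) := by
        field_simp; ring
      rw [e, lt_div_iff₀ (by positivity)] at hmain
      linarith
    have h6 : ((K:ℝ)+1)^2 * ε ≤ 1280 * √(K+1) := by
      calc ((K:ℝ)+1)^2 * ε ≤ (4 * 4^k) * ε := by gcongr
        _ ≤ _ := by linarith
    have h7 : ((K:ℝ)+1)^3 * ε^2 ≤ 1280^2 := by
      have h8 : (((K:ℝ)+1)^2 * ε)^2 ≤ (1280 * √(K+1))^2 := by gcongr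
      rw [mul_pow 1280, Real.sq_sqrt hK1.le] at h8
      have h9 : (((K:ℝ)+1)^3 * ε^2) * (K+1) ≤ 1280^2 * (K+1) := by
        calc (((K:ℝ)+1)^3 * ε^2) * (K+1) = (((K:ℝ)+1)^2 * ε)^2 := by ring
          _ ≤ _ := h8
      exact le_of_mul_le_mul_right h9 hK1
    calc (K:ℝ)^3 * ε^2 ≤ ((K:ℝ)+1)^3 * ε^2 := by gcongr; linarith
      _ ≤ 1280^2 := h7
      _ ≤ _ := by norm_num

/-- Number of steps, finite condition number. -/
theorem nsteps_kap2 [FiniteDimensional ℝ E] (h : BigRun T b τ ε K x r q a) (hε2 : ε ≤ 1/2)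
    (hT0 : ∀ y, y ≠ 0 → 0 < ⟪y, T y⟫_ℝ) (hsm : 10^6 * ((Gs ε)^42 * τ) ≤ 1) {s ℓ : ℝ}
    (hs : 1 ≤ s) (hlow : ∀ y : E, ‖y‖^2 ≤ s^2 * ⟪y, T y⟫_ℝ) (hℓ0 : 0 ≤ ℓ)
    (hℓ : ε^2 * s^3 * (4:ℝ)^ℓ = 1) : (K:ℝ) ≤ 100 * (s * (1 + ℓ)) := by
  have hε := h.ε0
  have hτ := h.run.tau
  have hM := sharpM_of h
  obtain ⟨d1, d2, d3⟩ := big_x h
  have hG1 := hM.G1
  have hsm' : 10^6 * ((Gs ε)^25 * (τ * (Gs ε)^2)) ≤ 1 := by
    refine le_trans ?_ hsm
    have e : (Gs ε)^25 * (τ * (Gs ε)^2) = (Gs ε)^27 * τ := by ring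
    rw [e]
    have : (Gs ε)^27 ≤ (Gs ε)^42 := pow_le_pow_right₀ hG1 (by norm_num)
    gcongr
  have hs0 : 0 < s := by linarith
  -- choose `k`
  have hex : ∃ k : ℕ, 320 * s^2 ≤ 4^k := by
    obtain ⟨k, hk⟩ := pow_unbounded_of_one_lt (320 * s^2) (by norm_num : (1:ℝ) < 4)
    exact ⟨k, hk.le⟩
  classical
  set k := Nat.find hex with hk
  have hk1 : 320 * s^2 ≤ 4^k := Nat.find_spec hex
  have hk0 : 1 ≤ k := by
    by_contra hc
    have : k = 0 := by omega
    rw [this] at hk1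
    nlinarith
  have hk2 : (4:ℝ)^k ≤ 1280 * s^2 := by
    have h1 := Nat.find_min hex (show k - 1 < k by omega)
    push Not at h1
    have h2 : (4:ℝ)^k = 4^(k-1) * 4 := by rw [← pow_succ]; congr 1; omega
    rw [h2]; linarith
  have hm : (2:ℝ)^k ≤ 36 * s := by
    apply (abs_le_of_sq_le_sq' _ (by positivity)).2
    calc ((2:ℝ)^k)^2 = 4^k := by rw [← pow_mul, mul_comm, pow_mul]; norm_num
      _ ≤ 1280 * s^2 := hk2
      _ ≤ (36 * s)^2 := by nlinarith [sq_nonneg s]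
  set m := 2^k with hmdef
  have hmR : (m:ℝ) ≤ 36 * s := by rw [hmdef]; push_cast; exact hm
  have hm0 : 0 < m := by rw [hmdef]; positivity
  set j := K / m with hj
  have hKm : K < m * (j + 1) := by
    rw [hj]; exact Nat.lt_mul_div_succ K hm0
  have hjK : m * j ≤ K := Nat.mul_div_le K m
  have hKR : (K:ℝ) + 1 ≤ 36 * s * (j + 1) := by
    have h1 : (K:ℝ) + 1 ≤ m * (j + 1) := by exact_mod_cast hKm
    calc (K:ℝ) + 1 ≤ m * (j + 1) := h1
      _ ≤ 36 * s * (j + 1) := by gcongr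
  rcases Nat.eq_zero_or_pos j with hj0 | hj0
  · rw [hj0] at hKR
    have h1 : 0 ≤ s * ℓ := by positivity
    push_cast at hKR
    nlinarith
  · have hK1 : 1 ≤ K := by
      have : 1 * 1 ≤ m * j := Nat.mul_le_mul hm0 hj0
      omega
    have h16 : (0:ℝ) < 16^j := by positivity
    obtain ⟨i, hi⟩ : ∃ i, j = i + 1 := ⟨j - 1, by omega⟩
    have hmain := hull_bound hM hK1 d1 d2 d3 hsm' hT0 (μ := 1/s^2)
      (by
        intro y
        have := hlow y
        rw [div_mul_eq_mul_div, one_mul, div_le_iff₀ (by positivity)]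
        linarith) (P := fun θ => Fej k θ ^ j)
      (((Fej_hull k).pow j).mono (by
        calc (2^k - 1) * j ≤ m * j := Nat.mul_le_mul_right j (by omega)
          _ ≤ K := hjK)) (s := 16/15 / (16^j * s^2)) (by positivity)
      (by
        rw [div_le_one (by positivity)]
        have h1 : (16:ℝ) ≤ 16^j := by
          calc (16:ℝ) = 16^1 := by norm_num
            _ ≤ 16^j := pow_le_pow_right₀ (by norm_num) hj0
        have h2 : 1 ≤ s^2 := one_le_pow₀ hs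
        nlinarith)
      (by
        intro θ lam hl0 hl1 hlμ hθ
        have f0 := Fej_nonneg k θ
        refine ⟨by positivity, ?_⟩
        have f1 := Fej_decay k hθ
        have hs2 : 1 ≤ s^2 * lam := by
          rw [div_le_iff₀ (by positivity)] at hlμ
          linarith
        have f2 : lam * Fej k θ ≤ 1 / (16 * s^2) := by
          rw [le_div_iff₀ (by positivity)]
          have : 320 * s^2 * (lam * Fej k θ) ≤ 4^k * (lam * Fej k θ) := by gcongr
          linarith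
        have f3 : Fej k θ ≤ 1/16 := by
          have h1 : s^2 * (lam * Fej k θ) ≤ 1/16 := by
            calc s^2 * (lam * Fej k θ) ≤ s^2 * (1 / (16 * s^2)) := by gcongr
              _ = 1/16 := by field_simp
          have h2 : 1 * Fej k θ ≤ (s^2 * lam) * Fej k θ := by gcongr
          linarith
        have f4 : Fej k θ ^ i ≤ (1/16)^i := by gcongr
        have f5 : Fej k θ ^ j ≤ 1/16 := by
          rw [hi, pow_succ]
          have : Fej k θ ^ i ≤ 1 := pow_le_one₀ f0 (by linarith)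
          calc Fej k θ ^ i * Fej k θ ≤ 1 * (1/16) := by gcongr
            _ = _ := by ring
        have f6 : lam * Fej k θ ^ j ≤ 1 / (16^j * s^2) := by
          calc lam * Fej k θ ^ j = (lam * Fej k θ) * Fej k θ ^ i := by rw [hi, pow_succ]; ring
            _ ≤ (1 / (16 * s^2)) * (1/16)^i := by gcongr
            _ = 1 / (16^j * s^2) := by rw [hi, pow_succ, div_pow, one_pow]; field_simp; ring
        calc lam * Fej k θ ^ j ≤ 1 / (16^j * s^2) := f6
          _ = 16/15 / (16^j * s^2) * (15/16) := by field_simp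
          _ ≤ 16/15 / (16^j * s^2) * (1 - Fej k θ ^ j) := by gcongr; linarith)
    have h5 : 16^j * s^2 * ε * 15 < 64 * √((K:ℝ)+1) := by
      have e : 2/ε * √((K:ℝ)+1) * (16/15 / (16^j * s^2)) =
          32/15 * √((K:ℝ)+1) / (ε * (16^j * s^2)) := by
        field_simp; norm_num
      rw [e, lt_div_iff₀ (by positivity)] at hmain
      linarith
    have h6 : (256:ℝ)^j * s^4 * ε^2 * 225 ≤ 4096 * (36 * s * (j + 1)) := by
      have h8 : (16^j * s^2 * ε * 15)^2 ≤ (64 * √((K:ℝ)+1))^2 := by gcongr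
      rw [mul_pow 64, Real.sq_sqrt (by positivity)] at h8
      calc (256:ℝ)^j * s^4 * ε^2 * 225 = (16^j * s^2 * ε * 15)^2 := by
            rw [show (256:ℝ) = 16^2 by norm_num, ← pow_mul, mul_comm 2 j, pow_mul]; ring
        _ ≤ 64^2 * ((K:ℝ)+1) := h8
        _ ≤ 64^2 * (36 * s * (j + 1)) := by gcongr
        _ = _ := by norm_num
    have h4ℓ : (0:ℝ) < 4^ℓ := by positivity
    -- multiply by `4^ℓ`
    have h7 : (256:ℝ)^j ≤ 656 * (j + 1) * 4^ℓ := by
      have h8 : (256:ℝ)^j * s * 225 ≤ 4096 * (36 * s * (j + 1)) * 4^ℓ := by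
        calc (256:ℝ)^j * s * 225 = (256:ℝ)^j * s * 225 * (ε^2 * s^3 * (4:ℝ)^ℓ) := by
              rw [hℓ, mul_one]
          _ = ((256:ℝ)^j * s^4 * ε^2 * 225) * 4^ℓ := by ring
          _ ≤ _ := by gcongr
      have h9 : ((256:ℝ)^j * 225) * s ≤ (147456 * (j + 1) * 4^ℓ) * s := by linarith
      have h10 := le_of_mul_le_mul_right h9 hs0
      have h11 : 0 ≤ ((j:ℝ) + 1) * 4^ℓ := by positivity
      linarith
    have h8 : ((j:ℝ) + 1) ≤ 2^j := by
      have : j + 1 ≤ 2^j := Nat.lt_two_pow_self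
      exact_mod_cast this
    have h9 : (2:ℝ)^(7 * j) ≤ 2^(10 + 2 * ℓ) := by
      have e1 : (256:ℝ)^j = 2^(7 * j) * 2^j := by
        rw [show (256:ℝ) = 2^8 by norm_num, ← pow_mul, ← pow_add]; congr 1; ring
      have e2 : (2:ℝ)^(10 + 2 * ℓ) = 1024 * 4^ℓ := by
        rw [Real.rpow_add (by norm_num), Real.rpow_mul (by norm_num)]
        norm_num
      rw [e2]
      have h10 : (2:ℝ)^(7 * j) * 2^j ≤ (1024 * 4^ℓ) * 2^j := by
        rw [← e1]
        calc (256:ℝ)^j ≤ 656 * (j + 1) * 4^ℓ := h7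
          _ ≤ 1024 * 2^j * 4^ℓ := by gcongr; norm_num
          _ = _ := by ring
      exact le_of_mul_le_mul_right h10 (by positivity)
    have h10 : (7:ℝ) * j ≤ 10 + 2 * ℓ := by
      have e : (2:ℝ)^(7 * j) = (2:ℝ)^((7:ℝ) * j) := by
        rw [← Real.rpow_natCast]; push_cast; rfl
      rw [e] at h9
      exact (Real.rpow_le_rpow_left_iff (by norm_num)).1 h9
    have h11 : s * (7 * j) ≤ s * (10 + 2 * ℓ) := by gcongr
    have h12 : 0 ≤ s * ℓ := by positivity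
    nlinarith

end

variable {n : ℕ}

/-- Sufficient conditions for the precision to be good, with positivity of the operator. -/
theorem good_of3 (brk : Prop) {κ : ℝ≥0∞} {ε : ℝ} {t : ℕ} (hn : 1 ≤ n) (hε : 0 < ε) (hε1 : ε ≤ 1)
    (hτ : 2 * (n:ℝ)^2 * (1 / 2^t) ≤ 1/10)
    (hτ9 : 10^9 * (((n:ℝ) + 1) * (5 * (2 * (n:ℝ)^2 * (1/2^t)))) ≤ ε^12)
    (hkey : ∀ (T : EuclideanSpace ℝ (Fin n) →ₗ[ℝ] EuclideanSpace ℝ (Fin n))
      (b : EuclideanSpace ℝ (Fin n)) (K : ℕ) (x r q : ℕ → EuclideanSpace ℝ (Fin n)) (a : ℕ → ℝ),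
      K ≤ n → BigRun T b (5 * (2 * (n:ℝ)^2 * (1/2^t))) ε K x r q a →
      (∀ y, y ≠ 0 → 0 < ⟪y, T y⟫_ℝ) →
      (∀ κ' : ℝ, 1 ≤ κ' → κ ≤ ENNReal.ofReal κ' → ∀ y, ‖y‖^2 ≤ κ' * ⟪y, T y⟫_ℝ) → K < n)
    (hbrk : brk → ∃ κ' : ℝ, κ ≤ ENNReal.ofReal κ' ∧ 1 ≤ κ' ∧
      3 * (2 * (n:ℝ)^2 * (1/2^t)) * κ' < 1) : Good brk n κ ε t := by
  intro A b hA hcond hb _ _ K x r p w ρ d α β hK hrun hE
  by_contra hcon
  push Not at hcon
  set u : ℝ := 1 / 2^t with hudef
  have hu : 0 ≤ u := by positivity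
  have hS := run_srun hu hn hτ hA hb hrun
  have hbn : 0 < ‖vec b‖ := by
    rw [norm_pos_iff]
    intro h0
    apply hb
    have := congrArg WithLp.ofLp h0
    simpa using this
  have hA0 : 0 < ‖A‖ := by
    rw [norm_pos_iff]
    rintro rfl
    have h1 := hA.dotProduct_mulVec_pos hb
    simp at h1
  have hlowκ : ∀ κ' : ℝ, κ ≤ ENNReal.ofReal κ' → 1 ≤ κ' →
      ∀ y, ‖A‖ * ‖y‖^2 ≤ κ' * ⟪y, op A y⟫_ℝ := by
    intro κ' hκ' hκ1
    apply cond_lower hA (by linarith)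
    intro i j
    have h1 := hcond i j
    have hj := hA.eigenvalues_pos j
    have h2 : ENNReal.ofReal (hA.1.eigenvalues i) ≤
        ENNReal.ofReal (κ' * hA.1.eigenvalues j) := by
      rw [ENNReal.ofReal_mul (by linarith)]
      refine h1.trans ?_
      gcongr
    have h3 : 0 ≤ κ' * hA.1.eigenvalues j := by positivity
    exact (ENNReal.ofReal_le_ofReal_iff h3).1 h2
  -- scaled backward error
  have hη : ∀ k ≤ K, ε * (‖(‖A‖ / ‖vec b‖) • vec (x k)‖ + 1) <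
      ‖(‖vec b‖⁻¹) • vec b - ((‖A‖⁻¹) • op A) ((‖A‖ / ‖vec b‖) • vec (x k))‖ := by
    intro k hk
    have h1 := hcon k hk
    unfold eta at h1
    rw [← norm_vec, ← norm_vec, ← norm_vec, lt_div_iff₀ (by positivity)] at h1
    have e : (‖vec b‖⁻¹) • vec b - ((‖A‖⁻¹) • op A) ((‖A‖ / ‖vec b‖) • vec (x k)) =
        ‖vec b‖⁻¹ • vec (b - A.mulVec (x k)) := by
      have e2 : vec (b - A.mulVec (x k)) = vec b - op A (vec (x k)) := by
        rw [op_vec]; rfl
      rw [e2, LinearMap.smul_apply, map_smul, smul_smul, smul_sub]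
      congr 2
      field_simp
    rw [e, norm_smul, norm_smul, norm_inv, norm_norm, Real.norm_eq_abs,
      abs_of_pos (by positivity : 0 < ‖A‖ / ‖vec b‖)]
    have e3 : ε * (‖A‖ / ‖vec b‖ * ‖vec (x k)‖ + 1) =
        ‖vec b‖⁻¹ * (ε * (‖A‖ * ‖vec (x k)‖ + ‖vec b‖)) := by
      field_simp
    rw [e3]
    gcongr
  have hKn : (K:ℝ) ≤ n := by exact_mod_cast hK
  have hbig : BigRun ((‖A‖⁻¹) • op A) ((‖vec b‖⁻¹) • vec b) (5 * (2 * (n:ℝ)^2 * u)) ε K
      (fun k => (‖A‖ / ‖vec b‖) • vec (x k)) (fun k => (‖vec b‖⁻¹) • vec (r k))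
      (fun k => (‖vec b‖ / ‖vec (r k)‖^2) • vec (p k))
      (fun k => ‖A‖ * α k * ‖vec (r k)‖^2 / ‖vec b‖^2) := by
    refine ⟨hS, hε, hε1, ?_, hη⟩
    refine le_trans ?_ hτ9
    gcongr
  have hlt : K < n := by
    refine hkey _ _ K _ _ _ _ hK hbig ?_ ?_
    · intro y hy
      rw [LinearMap.smul_apply, real_inner_smul_right]
      have h1 := hA.dotProduct_mulVec_pos (x := WithLp.ofLp y) (by
        intro h0
        apply hy
        ext i
        have := congrFun h0 i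
        simpa using this)
      have h2 : ⟪y, op A y⟫_ℝ = ∑ i, (WithLp.ofLp y) i * A.mulVec (WithLp.ofLp y) i := by
        rw [← inner_vec, ← op_vec]
      have h3 : 0 < ⟪y, op A y⟫_ℝ := by
        rw [h2]
        simpa [dotProduct] using h1
      positivity
    · intro κ' hκ1 hκ' y
      have h2 := hlowκ κ' hκ' hκ1 y
      rw [LinearMap.smul_apply, real_inner_smul_right]
      have h3 : κ' * (‖A‖⁻¹ * ⟪y, op A y⟫_ℝ) = ‖A‖⁻¹ * (κ' * ⟪y, op A y⟫_ℝ) := by ring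
      rw [h3, le_inv_mul_iff₀ hA0]
      exact h2
  have hq := (upper_large hS hε hε1 hbig.hτ hη).1
  have hp : vec (p K) ≠ 0 := by
    intro h0
    simp only [h0, smul_zero, norm_zero, zero_mul] at hq
    norm_num at hq
  refine ends_false hu hn hτ hA hE hp hlt ?_
  intro hb'
  obtain ⟨κ', h1, h2, h3⟩ := hbrk hb'
  exact ⟨κ', by linarith, hlowκ κ' h1 h2, h3⟩

end Pool.Agent.Helper643.CG
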