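import Mathlib

namespace Pool.Agent.Helper643.CG

open scoped InnerProductSpace

variable {E : Type*} [NormedAddCommGroup E] [InnerProductSpace ℝ E]

/-- Data for the bad example: an orthonormal family `e 0, …, e (n-1)`, with `e k = 0` afterwards. -/
structure Base (n : ℕ) (e : ℕ → E) : Prop where
  orth : ∀ i < n, ∀ j < n, ⟪e i, e j⟫_ℝ = if i = j then 1 else 0
  zero : ∀ k, n ≤ k → e k = 0

/-- The differences `e k - e (k+1)`. -/
def cd (e : ℕ → E) (k : ℕ) : E := e k - e (k+1)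

/-- The operator `L`. -/
noncomputable def Lop (n : ℕ) (e : ℕ → E) (y : E) : E :=
  ∑ k ∈ Finset.Ico 1 n, ⟪cd e k, y⟫_ℝ • cd e k

/-- The operator of the bad example. -/
noncomputable def Aop (n : ℕ) (δ : ℝ) (e : ℕ → E) (y : E) : E :=
  ⟪e 0 + e 1, y⟫_ℝ • (e 0 + e 1) + δ • Lop n e y

/-- The unperturbed directions. -/
def Pd (e : ℕ → E) (k : ℕ) : E := e 0 - ∑ j ∈ Finset.Ico 1 (k+1), e j

variable {n : ℕ} {e : ℕ → E} {δ : ℝ}

lemma Base.norm_le (h : Base n e) (k : ℕ) : ‖e k‖ ≤ 1 := by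
  rcases Nat.lt_or_ge k n with h1 | h1
  · have := h.orth k h1 k h1
    rw [if_pos rfl, real_inner_self_eq_norm_sq] at this
    nlinarith [norm_nonneg (e k)]
  · rw [h.zero k h1]; simp

lemma Base.norm_eq (h : Base n e) {k : ℕ} (hk : k < n) : ‖e k‖ = 1 := by
  have := h.orth k hk k hk
  rw [if_pos rfl, real_inner_self_eq_norm_sq] at this
  nlinarith [norm_nonneg (e k)]

lemma Base.inner (h : Base n e) (i j : ℕ) :
    ⟪e i, e j⟫_ℝ = if i = j ∧ i < n then 1 else 0 := by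
  rcases Nat.lt_or_ge i n with hi | hi
  · rcases Nat.lt_or_ge j n with hj | hj
    · rw [h.orth i hi j hj]
      by_cases hij : i = j <;> simp [hij, hi, hj]
    · rw [h.zero j hj, inner_zero_right, if_neg]
      omega
  · rw [h.zero i hi, inner_zero_left, if_neg]
    omega

lemma Base.bessel (h : Base n e) (y : E) : ∑ k ∈ Finset.range n, ⟪e k, y⟫_ℝ^2 ≤ ‖y‖^2 := by
  have ho : Orthonormal ℝ (fun i : Fin n => e i) := by
    rw [orthonormal_iff_ite]
    intro i j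
    have := h.orth i i.2 j j.2
    simp only [Fin.ext_iff]
    exact this
  have := ho.sum_inner_products_le y (s := Finset.univ)
  rw [← Fin.sum_univ_eq_sum_range (fun k => ⟪e k, y⟫_ℝ^2)]
  simpa using this

lemma sum_cd_sq (h : Base n e) (y : E) :
    ∑ k ∈ Finset.Ico 1 n, ⟪cd e k, y⟫_ℝ^2 ≤ 4 * ‖y‖^2 := by
  have h1 : ∀ k ∈ Finset.Ico 1 n, ⟪cd e k, y⟫_ℝ^2 ≤
      2 * ⟪e k, y⟫_ℝ^2 + 2 * ⟪e (k+1), y⟫_ℝ^2 := by
    intro k _
    rw [cd, inner_sub_left]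
    nlinarith [sq_nonneg (⟪e k, y⟫_ℝ + ⟪e (k+1), y⟫_ℝ)]
  have h2 : ∑ k ∈ Finset.Ico 1 n, ⟪e k, y⟫_ℝ^2 ≤ ‖y‖^2 := by
    refine le_trans ?_ (h.bessel y)
    apply Finset.sum_le_sum_of_subset_of_nonneg
    · intro k hk
      rw [Finset.mem_Ico] at hk
      exact Finset.mem_range.2 hk.2
    · intro i _ _; positivity
  have h3 : ∑ k ∈ Finset.Ico 1 n, ⟪e (k+1), y⟫_ℝ^2 ≤ ‖y‖^2 := by
    have h4 : ∑ k ∈ Finset.Ico 1 n, ⟪e (k+1), y⟫_ℝ^2 = ∑ k ∈ Finset.Ico 2 (n+1), ⟪e k, y⟫_ℝ^2 := by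
      rw [Finset.sum_Ico_add' (fun k => ⟪e k, y⟫_ℝ^2) 1 n 1]
    rw [h4]
    rcases Nat.lt_or_ge n 2 with hn | hn
    · rw [Finset.Ico_eq_empty (by omega)]
      simp
    · rw [Finset.sum_Ico_succ_top hn, h.zero n le_rfl, inner_zero_left]
      refine le_trans ?_ (h.bessel y)
      simp only [ne_eq, OfNat.ofNat_ne_zero, not_false_eq_true, zero_pow, add_zero]
      apply Finset.sum_le_sum_of_subset_of_nonneg
      · intro k hk
        rw [Finset.mem_Ico] at hk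
        exact Finset.mem_range.2 hk.2
      · intro i _ _; positivity
  calc _ ≤ ∑ k ∈ Finset.Ico 1 n, (2 * ⟪e k, y⟫_ℝ^2 + 2 * ⟪e (k+1), y⟫_ℝ^2) :=
        Finset.sum_le_sum h1
    _ = 2 * ∑ k ∈ Finset.Ico 1 n, ⟪e k, y⟫_ℝ^2 + 2 * ∑ k ∈ Finset.Ico 1 n, ⟪e (k+1), y⟫_ℝ^2 := by
        rw [Finset.sum_add_distrib, Finset.mul_sum, Finset.mul_sum]
    _ ≤ 4 * ‖y‖^2 := by linarith

lemma inner_Lop (y z : E) :
    ⟪y, Lop n e z⟫_ℝ = ∑ k ∈ Finset.Ico 1 n, ⟪cd e k, y⟫_ℝ * ⟪cd e k, z⟫_ℝ := by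
  rw [Lop, inner_sum]
  refine Finset.sum_congr rfl fun k _ => ?_
  rw [real_inner_smul_right, real_inner_comm y (cd e k)]
  ring

lemma abs_inner_Lop (h : Base n e) (y z : E) : |⟪y, Lop n e z⟫_ℝ| ≤ 4 * ‖y‖ * ‖z‖ := by
  rw [inner_Lop]
  have h1 := Finset.sum_mul_sq_le_sq_mul_sq (Finset.Ico 1 n) (fun k => ⟪cd e k, y⟫_ℝ)
    (fun k => ⟪cd e k, z⟫_ℝ)
  have h2 := sum_cd_sq h y
  have h3 := sum_cd_sq h z
  have h4 : (∑ k ∈ Finset.Ico 1 n, ⟪cd e k, y⟫_ℝ * ⟪cd e k, z⟫_ℝ)^2 ≤ (4 * ‖y‖ * ‖z‖)^2 := by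
    refine h1.trans ?_
    have h5 : 0 ≤ ∑ k ∈ Finset.Ico 1 n, ⟪cd e k, z⟫_ℝ^2 := Finset.sum_nonneg fun _ _ => sq_nonneg _
    calc _ ≤ (4 * ‖y‖^2) * (4 * ‖z‖^2) := by gcongr
      _ = _ := by ring
  exact abs_le_of_sq_le_sq h4 (by positivity)

lemma norm_Lop (h : Base n e) (z : E) : ‖Lop n e z‖ ≤ 4 * ‖z‖ := by
  have h1 := abs_inner_Lop h (Lop n e z) z
  rw [real_inner_self_eq_norm_sq, abs_of_nonneg (sq_nonneg _)] at h1
  by_contra hcon
  push Not at hcon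
  have h2 : 0 ≤ ‖z‖ := norm_nonneg z
  nlinarith

lemma Lop_add (y z : E) : Lop n e (y + z) = Lop n e y + Lop n e z := by
  simp only [Lop, inner_add_right, add_smul, Finset.sum_add_distrib]

lemma norm_v_sq (h : Base n e) (hn : 2 ≤ n) : ‖e 0 + e 1‖^2 = 2 := by
  rw [← real_inner_self_eq_norm_sq, inner_add_left, inner_add_right, inner_add_right,
    h.inner, h.inner, h.inner, h.inner]
  have h0 : 0 < n := by omega
  have h1 : 1 < n := by omega
  simp [h0, h1]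
  norm_num

lemma norm_v_le (h : Base n e) (hn : 2 ≤ n) : ‖e 0 + e 1‖ ≤ 1.4143 := by
  have h1 := norm_v_sq h hn
  refine (abs_le_of_sq_le_sq' ?_ (by norm_num)).2
  rw [h1]; norm_num

lemma norm_v_ge (h : Base n e) (hn : 2 ≤ n) : 1.414 ≤ ‖e 0 + e 1‖ := by
  have h1 := norm_v_sq h hn
  refine (abs_le_of_sq_le_sq' ?_ (norm_nonneg _)).2
  rw [h1]; norm_num

lemma inner_Pd (h : Base n e) (i k : ℕ) (hi : i < n) (hk : k < n) :
    ⟪e i, Pd e k⟫_ℝ = if i = 0 then 1 else if i ≤ k then -1 else 0 := by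
  rw [Pd, inner_sub_right, inner_sum]
  simp only [h.inner, hi, and_true]
  rw [Finset.sum_ite_eq]
  by_cases h0 : i = 0
  · subst h0; simp
  · rw [if_neg h0, if_neg h0]
    by_cases h1 : i ≤ k
    · rw [if_pos (Finset.mem_Ico.2 ⟨by omega, by omega⟩), if_pos h1]; ring
    · rw [if_neg (by rw [Finset.mem_Ico]; omega), if_neg h1]; ring

lemma inner_v_Pd (h : Base n e) (hn : 2 ≤ n) {k : ℕ} (hk1 : 1 ≤ k) (hk : k < n) :
    ⟪e 0 + e 1, Pd e k⟫_ℝ = 0 := by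
  rw [inner_add_left, inner_Pd h 0 k (by omega) hk, inner_Pd h 1 k (by omega) hk]
  simp [hk1]

lemma Lop_Pd (h : Base n e) {k : ℕ} (hk1 : 1 ≤ k) (hk : k < n) :
    Lop n e (Pd e k) = e (k+1) - e k := by
  have h1 : ∀ j ∈ Finset.Ico 1 n, ⟪cd e j, Pd e k⟫_ℝ • cd e j = if j = k then - cd e k else 0 := by
    intro j hj
    rw [Finset.mem_Ico] at hj
    have h2 : ⟪cd e j, Pd e k⟫_ℝ = if j = k then -1 else 0 := by
      have hj0 : ¬ j = 0 := by omega
      have hj1 : ¬ j + 1 = 0 := by omega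
      rw [cd, inner_sub_left, inner_Pd h j k hj.2 hk, if_neg hj0]
      rcases Nat.lt_or_ge (j+1) n with h3 | h3
      · rw [inner_Pd h (j+1) k h3 hk, if_neg hj1]
        rcases lt_trichotomy j k with h4 | h4 | h4
        · have a1 : j ≤ k := by omega
          have a2 : j + 1 ≤ k := by omega
          have a3 : ¬ j = k := by omega
          rw [if_pos a1, if_pos a2, if_neg a3]; ring
        · have a1 : j ≤ k := by omega
          have a2 : ¬ j + 1 ≤ k := by omega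
          rw [if_pos a1, if_neg a2, if_pos h4]; ring
        · have a1 : ¬ j ≤ k := by omega
          have a2 : ¬ j + 1 ≤ k := by omega
          have a3 : ¬ j = k := by omega
          rw [if_neg a1, if_neg a2, if_neg a3]; ring
      · rw [h.zero (j+1) h3, inner_zero_left]
        rcases Nat.lt_or_ge k j with h4 | h4
        · have a1 : ¬ j ≤ k := by omega
          have a3 : ¬ j = k := by omega
          rw [if_neg a1, if_neg a3]; ring
        · have : j = k := by omega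
          rw [if_pos h4, if_pos this]; ring
    rw [h2]
    split_ifs with h5
    · rw [h5]; simp
    · simp
  rw [Lop, Finset.sum_congr rfl h1, Finset.sum_ite_eq', if_pos (Finset.mem_Ico.2 ⟨hk1, hk⟩), cd]
  abel

lemma Pd_succ (k : ℕ) : Pd e (k+1) = Pd e k - e (k+1) := by
  rw [Pd, Pd, Finset.sum_Ico_succ_top (by omega)]
  abel

lemma norm_Pd (h : Base n e) {k : ℕ} (hk : k < n) : ‖Pd e k‖^2 = k + 1 := by
  induction k with
  | zero => simp [Pd, h.norm_eq hk]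
  | succ k ih =>
    rw [Pd_succ, norm_sub_sq_real, ih (by omega), h.norm_eq hk, real_inner_comm,
      inner_Pd h (k+1) k hk (by omega)]
    simp

lemma norm_Pd_le (h : Base n e) {k : ℕ} (hk : k < n) : ‖Pd e k‖ ≤ √n := by
  apply Real.le_sqrt_of_sq_le
  rw [norm_Pd h hk]
  exact_mod_cast hk

end Pool.Agent.Helper643.CG
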