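import Mathlib
import Pool.Agent.Helper643.CGLowA

namespace Pool.Agent.Helper643.CG

open scoped InnerProductSpace

variable {E : Type*} [NormedAddCommGroup E] [InnerProductSpace ℝ E]
variable {n : ℕ} {e : ℕ → E} {δ : ℝ}

lemma inner_Lop_comm (y z : E) : ⟪y, Lop n e z⟫_ℝ = ⟪z, Lop n e y⟫_ℝ := by
  rw [inner_Lop, inner_Lop]
  exact Finset.sum_congr rfl fun k _ => mul_comm _ _

lemma norm_cd_le (h : Base n e) (k : ℕ) : ‖e (k+1) - e k‖ ≤ 1.4143 := by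
  have h1 : ‖e (k+1) - e k‖^2 ≤ 2 := by
    rw [norm_sub_sq_real, h.inner, if_neg (by omega)]
    have h2 := h.norm_le (k+1)
    have h3 := h.norm_le k
    have h4 := norm_nonneg (e (k+1))
    have h5 := norm_nonneg (e k)
    nlinarith
  refine (abs_le_of_sq_le_sq' ?_ (by norm_num)).2
  linarith

lemma inner_Pd_cd (h : Base n e) {k : ℕ} (hk1 : 1 ≤ k) (hk : k < n) :
    ⟪Pd e k, e (k+1) - e k⟫_ℝ = 1 := by
  have h0 : ¬ k = 0 := by omega
  rw [inner_sub_right, real_inner_comm (e k), inner_Pd h k k hk hk, if_neg h0, if_pos le_rfl]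
  have : ⟪Pd e k, e (k+1)⟫_ℝ = 0 := by
    rcases Nat.lt_or_ge (k+1) n with h3 | h3
    · have h1 : ¬ k + 1 = 0 := by omega
      have h2 : ¬ k + 1 ≤ k := by omega
      rw [real_inner_comm, inner_Pd h (k+1) k h3 hk, if_neg h1, if_neg h2]
    · rw [h.zero _ h3, inner_zero_right]
  rw [this]; ring

/-- Numerical facts used in the step. -/
lemma num_facts (hn : 2 ≤ n) (hδ : 0 < δ) (hδn : 200 * √n * δ ≤ 1) :
    1.414 ≤ √(n:ℝ) ∧ δ ≤ 0.0036 := by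
  have h1 : 1.414 ≤ √(n:ℝ) := by
    apply Real.le_sqrt_of_sq_le
    have : (2:ℝ) ≤ n := by exact_mod_cast hn
    norm_num; linarith
  refine ⟨h1, ?_⟩
  nlinarith

lemma V_bounds (h : Base n e) (hn : 2 ≤ n) (hδ : 0 < δ) (hδn : 200 * √n * δ ≤ 1)
    {k : ℕ} (hk1 : 1 ≤ k) (hk : k < n) {p : E} {s : ℝ}
    (hs : s = ⟪e 0 + e 1, p⟫_ℝ) (hsu : |s| ≤ δ^2/16) (hp : ‖p - Pd e k‖ ≤ |s|) :
    |⟪p, Aop n δ e p⟫_ℝ - δ| ≤ 2.9 * |s| * δ := by
  obtain ⟨hn1, hd1⟩ := num_facts hn hδ hδn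
  set dp := p - Pd e k with hdp
  have e1 : p = Pd e k + dp := by rw [hdp]; abel
  have e2 : ⟪p, Aop n δ e p⟫_ℝ = s^2 + δ * ⟪p, Lop n e p⟫_ℝ := by
    rw [Aop, inner_add_right, real_inner_smul_right, real_inner_smul_right,
      real_inner_comm (e 0 + e 1) p, ← hs]
    ring
  have e3 : ⟪p, Lop n e p⟫_ℝ = 1 + 2 * ⟪dp, e (k+1) - e k⟫_ℝ + ⟪dp, Lop n e dp⟫_ℝ := by
    rw [e1, Lop_add, inner_add_left, inner_add_right, inner_add_right,
      inner_Lop_comm (Pd e k) dp, Lop_Pd h hk1 hk, inner_Pd_cd h hk1 hk]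
    ring
  have b1 : |⟪dp, e (k+1) - e k⟫_ℝ| ≤ |s| * 1.4143 :=
    (abs_real_inner_le_norm _ _).trans (mul_le_mul hp (norm_cd_le h k) (norm_nonneg _) (abs_nonneg _))
  have b2 : |⟪dp, Lop n e dp⟫_ℝ| ≤ 4 * |s| * |s| := by
    refine (abs_inner_Lop h dp dp).trans ?_
    gcongr
  rw [e2, e3]
  have hs0 := abs_nonneg s
  have b3 : s^2 ≤ |s| * (δ * 0.001) := by
    rw [← sq_abs]
    nlinarith
  have b4 : |s| * |s| ≤ |s| * 0.001 := by nlinarith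
  have e4 : s^2 + δ * (1 + 2 * ⟪dp, e (k+1) - e k⟫_ℝ + ⟪dp, Lop n e dp⟫_ℝ) - δ =
    s^2 + δ * (2 * ⟪dp, e (k+1) - e k⟫_ℝ) + δ * ⟪dp, Lop n e dp⟫_ℝ := by ring
  rw [e4]
  rw [abs_le] at b1 b2 ⊢
  have c1 : δ * (2 * ⟪dp, e (k+1) - e k⟫_ℝ) ≤ δ * (2 * (|s| * 1.4143)) := by
    gcongr; exact b1.2
  have c2 : δ * (2 * (-(|s| * 1.4143))) ≤ δ * (2 * ⟪dp, e (k+1) - e k⟫_ℝ) := by
    gcongr; exact b1.1
  have c3 : δ * ⟪dp, Lop n e dp⟫_ℝ ≤ δ * (4 * |s| * |s|) := by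
    gcongr; exact b2.2
  have c4 : δ * (-(4 * |s| * |s|)) ≤ δ * ⟪dp, Lop n e dp⟫_ℝ := by
    gcongr; exact b2.1
  have c5 : δ * (|s| * |s|) ≤ δ * (|s| * 0.001) := by gcongr
  constructor
  · nlinarith [sq_nonneg s]
  · nlinarith [sq_nonneg s]

/-- One step of the perturbed recurrence, first half. -/
lemma step_r (h : Base n e) (hn : 2 ≤ n) (hδ : 0 < δ) (hδn : 200 * √n * δ ≤ 1)
    {k : ℕ} (hk1 : 1 ≤ k) (hk : k < n) {r p : E} {s : ℝ}
    (hs : s = ⟪e 0 + e 1, p⟫_ℝ) (hsu : |s| ≤ δ^2/16)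
    (hr : ‖r + e k‖ ≤ |s|) (hp : ‖p - Pd e k‖ ≤ |s|) {α : ℝ}
    (hα : α = ‖r‖^2 / ⟪p, Aop n δ e p⟫_ℝ) :
    0 < ⟪p, Aop n δ e p⟫_ℝ ∧ |‖r‖^2 - 1| ≤ 2.1 * |s| ∧ |α * δ - 1| ≤ 5.1 * |s| ∧
    ‖r - α • Aop n δ e p + e (k+1) + (s/δ) • (e 0 + e 1)‖ ≤ 13 * |s| := by
  obtain ⟨hn1, hd1⟩ := num_facts hn hδ hδn
  have hV := V_bounds h hn hδ hδn hk1 hk hs hsu hp
  have hs0 := abs_nonneg s
  have hs1 : |s| ≤ 0.000001 := by nlinarith
  set V := ⟪p, Aop n δ e p⟫_ℝ with hVdef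
  have hVlo : (1 - 2.9 * |s|) * δ ≤ V := by rw [abs_le] at hV; linarith [hV.1]
  have hVhi : V ≤ (1 + 2.9 * |s|) * δ := by rw [abs_le] at hV; linarith [hV.2]
  have hV0 : 0 < V := lt_of_lt_of_le (by apply mul_pos _ hδ; linarith) hVlo
  have hrr : |‖r‖^2 - 1| ≤ 2.1 * |s| := by
    set dr := r + e k with hdr
    have e1 : r = dr - e k := by rw [hdr]; abel
    rw [e1, norm_sub_sq_real, h.norm_eq hk]
    have b1 : |⟪dr, e k⟫_ℝ| ≤ |s| := by
      refine (abs_real_inner_le_norm _ _).trans ?_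
      rw [h.norm_eq hk, mul_one]; exact hr
    have b2 : ‖dr‖^2 ≤ |s| * 0.001 := by
      have := norm_nonneg dr
      nlinarith
    have b3 := sq_nonneg ‖dr‖
    rw [abs_le] at b1 ⊢
    constructor <;> nlinarith [b1.1, b1.2]
  have hαδ : |α * δ - 1| ≤ 5.1 * |s| := by
    have e1 : α * V = ‖r‖^2 := by rw [hα]; field_simp
    have hα0 : 0 ≤ α := by rw [hα]; positivity
    rw [abs_le] at hrr ⊢
    have b1 : α * ((1 - 2.9 * |s|) * δ) ≤ α * V := by gcongr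
    have b2 : α * V ≤ α * ((1 + 2.9 * |s|) * δ) := by gcongr
    have b3 : 0 ≤ α * δ := by positivity
    constructor
    · by_contra hcon
      push Not at hcon
      nlinarith
    · by_contra hcon
      push Not at hcon
      nlinarith
  refine ⟨hV0, hrr, hαδ, ?_⟩
  set dr := r + e k with hdr
  set dp := p - Pd e k with hdp
  have e1 : r = dr - e k := by rw [hdr]; abel
  have e2 : p = Pd e k + dp := by rw [hdp]; abel
  have e3 : Aop n δ e p = s • (e 0 + e 1) + δ • (e (k+1) - e k + Lop n e dp) := by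
    have : Lop n e p = e (k+1) - e k + Lop n e dp := by
      conv_lhs => rw [e2]
      rw [Lop_add, Lop_Pd h hk1 hk]
    rw [Aop, ← hs, this]
  have e4 : r - α • Aop n δ e p + e (k+1) + (s/δ) • (e 0 + e 1) =
      dr - ((α * δ - 1) * (s / δ)) • (e 0 + e 1) - (α * δ - 1) • (e (k+1) - e k)
        - (α * δ) • Lop n e dp := by
    rw [e3, e1, smul_add, smul_smul, smul_smul, smul_add]
    have e5 : α * s = (α * δ) * (s / δ) := by field_simp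
    rw [e5]
    module
  rw [e4]
  have c1 : ‖((α * δ - 1) * (s / δ)) • (e 0 + e 1)‖ ≤ 5.1 * |s| * 0.001 * 1.4143 := by
    rw [norm_smul, Real.norm_eq_abs, abs_mul, abs_div, abs_of_pos hδ]
    have : |s| / δ ≤ 0.001 := by
      rw [div_le_iff₀ hδ]
      nlinarith
    have h2 := norm_v_le h hn
    gcongr
  have c2 : ‖(α * δ - 1) • (e (k+1) - e k)‖ ≤ 5.1 * |s| * 1.4143 := by
    rw [norm_smul, Real.norm_eq_abs]
    have h2 := norm_cd_le h k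
    gcongr
  have c3 : ‖(α * δ) • Lop n e dp‖ ≤ 1.001 * (4 * |s|) := by
    rw [norm_smul, Real.norm_eq_abs]
    have h2 : |α * δ| ≤ 1.001 := by
      rw [abs_le] at hαδ ⊢
      constructor <;> linarith [hαδ.1, hαδ.2]
    have h3 : ‖Lop n e dp‖ ≤ 4 * |s| := (norm_Lop h dp).trans (by gcongr)
    gcongr
  have c4 := norm_sub_le (dr - ((α * δ - 1) * (s / δ)) • (e 0 + e 1) - (α * δ - 1) • (e (k+1) - e k))
    ((α * δ) • Lop n e dp)
  have c5 := norm_sub_le (dr - ((α * δ - 1) * (s / δ)) • (e 0 + e 1)) ((α * δ - 1) • (e (k+1) - e k))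
  have c6 := norm_sub_le dr (((α * δ - 1) * (s / δ)) • (e 0 + e 1))
  linarith

/-- One step of the perturbed recurrence, second half. -/
lemma step_p (h : Base n e) (hn : 2 ≤ n) (hδ : 0 < δ) (hδn : 200 * √n * δ ≤ 1)
    {k : ℕ} (hk1 : 1 ≤ k) (hk : k + 1 < n) {r p : E} {s : ℝ}
    (hs : s = ⟪e 0 + e 1, p⟫_ℝ) (hsu : |s| ≤ δ^2/16)
    (hr : ‖r + e k‖ ≤ |s|) (hp : ‖p - Pd e k‖ ≤ |s|) {α β s' : ℝ} {r' p' : E}
    (hα : α = ‖r‖^2 / ⟪p, Aop n δ e p⟫_ℝ) (hr' : r' = r - α • Aop n δ e p)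
    (hβ : β = ‖r'‖^2 / ‖r‖^2) (hp' : p' = r' + β • p) (hs' : s' = ⟪e 0 + e 1, p'⟫_ℝ) :
    |β - 1| ≤ 30 * |s| ∧ |s' + 2 * (s/δ)| ≤ 64 * √n * |s| ∧
    ‖r' + e (k+1)‖ ≤ |s'| ∧ ‖p' - Pd e (k+1)‖ ≤ |s'| := by
  obtain ⟨hn1, hd1⟩ := num_facts hn hδ hδn
  obtain ⟨hV0, hrr, hαδ, hω⟩ := step_r h hn hδ hδn hk1 (by omega) hs hsu hr hp hα
  have hs0 := abs_nonneg s
  have hs1 : |s| ≤ 0.000001 := by nlinarith
  rw [← hr'] at hω
  set v := e 0 + e 1 with hv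
  set ω := r' + e (k+1) + (s/δ) • v with hωdef
  have hv1 := norm_v_le h hn
  rw [← hv] at hv1
  have hv2 := norm_v_sq h hn
  rw [← hv] at hv2
  have hsd : |s| / δ ≤ δ / 16 := by
    rw [div_le_iff₀ hδ]; nlinarith
  have hsd0 : 0 ≤ |s| / δ := by positivity
  have hssd : |s| ≤ 0.0036 * (|s| / δ) := by
    have : |s| = δ * (|s| / δ) := by field_simp
    nlinarith
  have hev : ⟪e (k+1), v⟫_ℝ = 0 := by
    rw [hv, inner_add_right, h.inner, h.inner, if_neg (by omega), if_neg (by omega)]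
    ring
  have hr'1 : r' + e (k+1) = ω - (s/δ) • v := by rw [hωdef]; abel
  have hr'2 : ‖r' + e (k+1)‖ ≤ 1.4143 * (|s| / δ) + 13 * |s| := by
    rw [hr'1]
    refine (norm_sub_le _ _).trans ?_
    rw [norm_smul, Real.norm_eq_abs, abs_div, abs_of_pos hδ]
    have : |s| / δ * ‖v‖ ≤ |s| / δ * 1.4143 := by gcongr
    linarith
  have hr'3 : ‖r' + e (k+1)‖ ≤ 1.5 * (|s| / δ) := by linarith
  -- norm of r'
  have hr'4 : |‖r'‖^2 - 1| ≤ 26.2 * |s| := by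
    have e1 : r' = (r' + e (k+1)) - e (k+1) := by abel
    rw [e1, norm_sub_sq_real, h.norm_eq hk]
    have b1 : ⟪r' + e (k+1), e (k+1)⟫_ℝ = ⟪ω, e (k+1)⟫_ℝ := by
      rw [hr'1, inner_sub_left, real_inner_smul_left, real_inner_comm (e (k+1)) v, hev]
      ring
    rw [b1]
    have b2 : |⟪ω, e (k+1)⟫_ℝ| ≤ 13 * |s| := by
      refine (abs_real_inner_le_norm _ _).trans ?_
      rw [h.norm_eq hk, mul_one]; exact hω
    have b3 : ‖r' + e (k+1)‖^2 ≤ 0.15 * |s| := by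
      have c1 : ‖r' + e (k+1)‖^2 ≤ (1.5 * (|s| / δ))^2 := by gcongr
      have c2 : (1.5 * (|s| / δ))^2 = 2.25 * ((|s| / δ) * (|s| / δ)) := by ring
      have c3 : (|s| / δ) * (|s| / δ) ≤ (|s| / δ) * (δ / 16) := by gcongr
      have c4 : (|s| / δ) * (δ / 16) = |s| / 16 := by field_simp
      linarith
    have b4 := sq_nonneg ‖r' + e (k+1)‖
    rw [abs_le] at b2 ⊢
    constructor <;> linarith [b2.1, b2.2]
  have hβ1 : |β - 1| ≤ 30 * |s| := by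
    have hr0 : 0 < ‖r‖^2 := by rw [abs_le] at hrr; linarith [hrr.1]
    have e1 : β * ‖r‖^2 = ‖r'‖^2 := by rw [hβ]; exact div_mul_cancel₀ _ hr0.ne'
    have e2 : (β - 1) * ‖r‖^2 = (‖r'‖^2 - 1) - (‖r‖^2 - 1) := by linarith
    have e3 : |β - 1| * ‖r‖^2 ≤ 26.2 * |s| + 2.1 * |s| := by
      have e4 : |β - 1| * ‖r‖^2 = |(β - 1) * ‖r‖^2| := by rw [abs_mul, abs_of_pos hr0]
      rw [e4, e2]
      exact (abs_sub _ _).trans (by linarith)
    rw [abs_le] at hrr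
    by_contra hcon
    push Not at hcon
    nlinarith [hrr.1, abs_nonneg (β - 1)]
  have hP := norm_Pd_le h (show k < n by omega)
  have hP1 : Pd e (k+1) = Pd e k - e (k+1) := Pd_succ k
  set dp := p - Pd e k with hdp
  have e2 : p = Pd e k + dp := by rw [hdp]; abel
  have hβ2 : |β| ≤ 1.001 := by
    rw [abs_le] at hβ1 ⊢
    constructor <;> linarith [hβ1.1, hβ1.2]
  set ω' := ω + (β - 1) • Pd e k + β • dp with hω'def
  have e3 : p' - Pd e (k+1) = ω' - (s/δ) • v := by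
    rw [hp', hP1, hω'def, hωdef, e2]
    module
  have hω' : ‖ω'‖ ≤ 45 * √n * |s| := by
    have c1 : ‖(β - 1) • Pd e k‖ ≤ 30 * |s| * √n := by
      rw [norm_smul, Real.norm_eq_abs]; gcongr
    have c2 : ‖β • dp‖ ≤ 1.001 * |s| := by
      rw [norm_smul, Real.norm_eq_abs]; gcongr
    have c3 : ‖ω'‖ ≤ ‖ω‖ + ‖(β - 1) • Pd e k‖ + ‖β • dp‖ := by
      rw [hω'def]
      exact norm_add₃_le
    have c4 : 1.414 * |s| ≤ √n * |s| := by gcongr
    linarith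
  have hvP : ⟪v, Pd e (k+1)⟫_ℝ = 0 := inner_v_Pd h hn (by omega) hk
  have e4 : s' + 2 * (s/δ) = ⟪v, ω'⟫_ℝ := by
    have c1 : p' = Pd e (k+1) + (ω' - (s/δ) • v) := by rw [← e3]; abel
    rw [hs', c1, inner_add_right, hvP, inner_sub_right, real_inner_smul_right,
      real_inner_self_eq_norm_sq, hv2]
    ring
  have hs'1 : |s' + 2 * (s/δ)| ≤ 64 * √n * |s| := by
    rw [e4]
    refine (abs_real_inner_le_norm _ _).trans ?_
    calc ‖v‖ * ‖ω'‖ ≤ 1.4143 * (45 * √n * |s|) := by gcongr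
      _ ≤ 64 * √n * |s| := by
        have : 0 ≤ √n * |s| := by positivity
        nlinarith
  have hns : √n * |s| ≤ 0.005 * (|s| / δ) := by
    have c1 : |s| = δ * (|s| / δ) := by field_simp
    have c2 : √n * |s| = (√n * δ) * (|s| / δ) := by rw [mul_assoc, ← c1]
    rw [c2]
    gcongr
    linarith
  have hs'2 : 1.68 * (|s| / δ) ≤ |s'| := by
    have c1 : 2 * (|s| / δ) ≤ |s'| + 64 * √n * |s| := by
      have d1 : |2 * (s/δ)| = 2 * (|s| / δ) := by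
        rw [abs_mul, abs_div, abs_of_pos hδ, abs_of_pos (by norm_num : (0:ℝ) < 2)]
      rw [← d1]
      have d2 : 2 * (s/δ) = (s' + 2 * (s/δ)) - s' := by ring
      rw [d2]
      exact (abs_sub _ _).trans (by linarith)
    linarith
  refine ⟨hβ1, hs'1, by linarith, ?_⟩
  rw [e3]
  refine (norm_sub_le _ _).trans ?_
  rw [norm_smul, Real.norm_eq_abs, abs_div, abs_of_pos hδ]
  have : |s| / δ * ‖v‖ ≤ |s| / δ * 1.4143 := by gcongr
  linarith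

end Pool.Agent.Helper643.CG
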