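import Mathlib
import Pool.Agent.Helper643.CGLowB

namespace Pool.Agent.Helper643.CG

open scoped InnerProductSpace

variable {E : Type*} [NormedAddCommGroup E] [InnerProductSpace ℝ E]
variable {n : ℕ} {e : ℕ → E} {δ : ℝ}

lemma Aop_add (y z : E) : Aop n δ e (y + z) = Aop n δ e y + Aop n δ e z := by
  rw [Aop, Aop, Aop, Lop_add, inner_add_right]
  module

lemma Lop_smul (c : ℝ) (y : E) : Lop n e (c • y) = c • Lop n e y := by
  simp only [Lop, real_inner_smul_right, Finset.smul_sum, smul_smul]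

lemma Aop_smul (c : ℝ) (y : E) : Aop n δ e (c • y) = c • Aop n δ e y := by
  rw [Aop, Aop, Lop_smul, real_inner_smul_right]
  module

/-- Numerical bounds for powers. -/
lemma pow_bounds {x : ℝ} (hx0 : 0 ≤ x) (N : ℕ) (hN : N * x ≤ 0.0884) :
    (1 + x)^N ≤ 1.097 ∧ 0.911 ≤ (1 - x)^N := by
  rcases Nat.eq_zero_or_pos N with h0 | h0
  · subst h0; norm_num
  have h1 : (1:ℝ) ≤ N := by exact_mod_cast h0
  have hx1 : x ≤ 0.0884 := by nlinarith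
  have h2 : 1 - N * x ≤ (1 - x)^N := by
    have := one_add_mul_le_pow (show (-2:ℝ) ≤ -x by linarith) N
    calc 1 - N * x = 1 + N * (-x) := by ring
      _ ≤ _ := this
      _ = _ := by ring
  have h3 : 0.911 ≤ (1 - x)^N := by linarith
  refine ⟨?_, h3⟩
  have h4 : (1 + x)^N * (1 - x)^N ≤ 1 := by
    rw [← mul_pow]
    apply pow_le_one₀
    · nlinarith
    · nlinarith
  by_contra hcon
  push Not at hcon
  have : 1.097 * 0.9116 < (1 + x)^N * (1 - x)^N := by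
    have h5 : 0.9116 ≤ (1 - x)^N := by linarith
    nlinarith
  norm_num at this
  linarith

/-- The run of the bad example, from step `1` on. -/
structure BadRun (n : ℕ) (δ g : ℝ) (e : ℕ → E) (x r p : ℕ → E) (α β : ℕ → ℝ) : Prop where
  x1 : x 1 = e 0
  r1 : r 1 = g • e 0 - e 1
  p1 : p 1 = (1 + g + g^2) • e 0 - e 1
  hα : ∀ k, 1 ≤ k → α k = ‖r k‖^2 / ⟪p k, Aop n δ e (p k)⟫_ℝ
  hx : ∀ k, 1 ≤ k → x (k+1) = x k + α k • p k
  hr : ∀ k, 1 ≤ k → r (k+1) = r k - α k • Aop n δ e (p k)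
  hβ : ∀ k, 1 ≤ k → β k = ‖r (k+1)‖^2 / ‖r k‖^2
  hp : ∀ k, 1 ≤ k → p (k+1) = r (k+1) + β k • p k

/-- size conditions -/
lemma size_facts (hn : 2 ≤ n) (hδ : 0 < δ) (hδn : 256 * (n:ℝ)^2 * δ ≤ 1) :
    200 * √n * δ ≤ 1 ∧ n * (32 * √n * δ) ≤ 0.0884 := by
  have h2 : (2:ℝ) ≤ n := by exact_mod_cast hn
  have h1 : 1.414 ≤ √(n:ℝ) := by
    apply Real.le_sqrt_of_sq_le
    norm_num; linarith
  have h3 : √(n:ℝ) * √(n:ℝ) = n := Real.mul_self_sqrt (by linarith)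
  have h4 : √(n:ℝ) ≤ n := by nlinarith
  constructor
  · have : √(n:ℝ) * δ ≤ n^2 * δ := by
      have : √(n:ℝ) ≤ n^2 := by nlinarith
      gcongr
    nlinarith [mul_pos (show (0:ℝ) < √(n:ℝ) by linarith) hδ]
  · -- n √n ≤ n²/1.414
    have h5 : 1.414 * (n * √n) ≤ (n:ℝ)^2 := by
      have : 1.414 * √(n:ℝ) ≤ √(n:ℝ) * √(n:ℝ) := by gcongr
      nlinarith
    have h6 : 1.414 * (n * √n) * δ ≤ (n:ℝ)^2 * δ := by gcongr
    nlinarith

variable {g : ℝ} {x r p : ℕ → E} {α β : ℕ → ℝ}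

lemma g_facts (hn : 2 ≤ n) (hδ : 0 < δ) (hδn : 256 * (n:ℝ)^2 * δ ≤ 1)
    (hg : g = δ^2/40 * (δ/2)^(n-2)) :
    0 < g ∧ g ≤ δ^2/40 ∧ g ≤ 0.001 ∧ (2/δ)^(n-2) * g = δ^2/40 ∧
      ∀ k, k ≤ n - 2 → (2/δ)^k * g ≤ δ^2/40 := by
  obtain ⟨hδ1, _⟩ := size_facts hn hδ hδn
  obtain ⟨_, hd1⟩ := num_facts hn hδ hδ1
  have hd2 : δ^2 ≤ 0.00002 := by nlinarith
  have hpow : (δ/2)^(n-2) ≤ 1 := pow_le_one₀ (by positivity) (by linarith)
  have hg1 : g ≤ δ^2/40 := by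
    rw [hg]
    calc _ ≤ δ^2/40 * 1 := by gcongr
      _ = _ := by ring
  refine ⟨by rw [hg]; positivity, hg1, by linarith, ?_, ?_⟩
  · rw [hg, mul_comm, mul_assoc, ← mul_pow]
    have : δ / 2 * (2 / δ) = 1 := by field_simp
    rw [this, one_pow, mul_one]
  · intro k hk
    obtain ⟨m, hm⟩ := Nat.exists_eq_add_of_le hk
    rw [hg, hm, pow_add, mul_comm, mul_assoc, mul_comm ((δ/2)^k), mul_assoc, ← mul_pow]
    have : δ / 2 * (2 / δ) = 1 := by field_simp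
    rw [this, one_pow, mul_one]
    have : (δ/2)^m ≤ 1 := pow_le_one₀ (by positivity) (by linarith)
    calc _ ≤ δ^2/40 * 1 := by gcongr
      _ = _ := by ring

lemma inv_bad (h : Base n e) (hn : 2 ≤ n) (hδ : 0 < δ) (hδn : 256 * (n:ℝ)^2 * δ ≤ 1)
    (hg : g = δ^2/40 * (δ/2)^(n-2)) (hrun : BadRun n δ g e x r p α β) :
    ∀ k, 1 ≤ k → k < n →
      ‖r k + e k‖ ≤ |⟪e 0 + e 1, p k⟫_ℝ| ∧ ‖p k - Pd e k‖ ≤ |⟪e 0 + e 1, p k⟫_ℝ| ∧
      |⟪e 0 + e 1, p k⟫_ℝ| ≤ (1 + 32 * √n * δ)^(k-1) * ((2/δ)^(k-1) * (g * (1 + g))) ∧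
      (1 - 32 * √n * δ)^(k-1) * ((2/δ)^(k-1) * (g * (1 + g))) ≤ |⟪e 0 + e 1, p k⟫_ℝ| := by
  obtain ⟨hδ1, hδ2⟩ := size_facts hn hδ hδn
  obtain ⟨hn1, hd1⟩ := num_facts hn hδ hδ1
  obtain ⟨hg0, hg1, hg2, hg3, hg4⟩ := g_facts hn hδ hδn hg
  intro k hk1
  induction k, hk1 using Nat.le_induction with
  | base =>
    intro _
    have e1 : ⟪e 0 + e 1, p 1⟫_ℝ = g * (1 + g) := by
      rw [hrun.p1, inner_sub_right, inner_add_left, inner_add_left, real_inner_smul_right,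
        real_inner_smul_right, h.inner, h.inner, h.inner, h.inner]
      have h0 : 0 < n := by omega
      have h1 : 1 < n := by omega
      simp [h0, h1]
      ring
    have e2 : r 1 + e 1 = g • e 0 := by rw [hrun.r1]; abel
    have e3 : p 1 - Pd e 1 = (g * (1 + g)) • e 0 := by
      have e4 : Pd e 1 = e 0 - e 1 := by simp [Pd]
      rw [hrun.p1, e4]
      module
    have e4 : ‖e 0‖ = 1 := h.norm_eq (by omega)
    have e5 : 0 < g * (1 + g) := by positivity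
    rw [e1, e2, e3, norm_smul, norm_smul, e4, Real.norm_eq_abs, Real.norm_eq_abs,
      abs_of_pos e5, abs_of_pos hg0]
    refine ⟨by nlinarith, by linarith, ?_, ?_⟩ <;> simp
  | succ k hk1 ih =>
    intro hkn
    obtain ⟨i1, i2, i3, i4⟩ := ih (by omega)
    set s := ⟪e 0 + e 1, p k⟫_ℝ with hs
    have hx32 : 0 ≤ 32 * √n * δ := by positivity
    have hNk : ((k-1 : ℕ) : ℝ) * (32 * √n * δ) ≤ 0.0884 := by
      refine le_trans ?_ hδ2
      gcongr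
      omega
    obtain ⟨q1, q2⟩ := pow_bounds hx32 (k-1) hNk
    have hG := hg4 (k-1) (by omega)
    have hG0 : 0 ≤ (2/δ)^(k-1) * g := by positivity
    have hsu : |s| ≤ δ^2/16 := by
      refine i3.trans ?_
      calc (1 + 32 * √n * δ)^(k-1) * ((2/δ)^(k-1) * (g * (1 + g)))
          = (1 + 32 * √n * δ)^(k-1) * (((2/δ)^(k-1) * g) * (1 + g)) := by ring
        _ ≤ 1.097 * ((δ^2/40) * (1 + 0.001)) := by gcongr
        _ ≤ δ^2/16 := by nlinarith [sq_nonneg δ]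
    obtain ⟨f1, f2, f3, f4⟩ := step_p h hn hδ hδ1 hk1 hkn hs hsu i1 i2 (hrun.hα k hk1)
      (hrun.hr k hk1) (hrun.hβ k hk1) (hrun.hp k hk1) rfl
    set s' := ⟪e 0 + e 1, p (k+1)⟫_ℝ with hs'
    have d1 : |2 * (s/δ)| = (2 / δ) * |s| := by
      rw [abs_mul, abs_div, abs_of_pos hδ, abs_of_pos (by norm_num : (0:ℝ) < 2)]
      ring
    have d2 : |s'| ≤ (1 + 32 * √n * δ) * ((2/δ) * |s|) := by
      have : s' = (s' + 2 * (s/δ)) - 2 * (s/δ) := by ring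
      rw [this]
      refine (abs_sub _ _).trans ?_
      rw [d1]
      have e6 : (1 + 32 * √n * δ) * ((2/δ) * |s|) = (2/δ) * |s| + 64 * √n * |s| := by
        field_simp; ring
      rw [e6]; linarith
    have d3 : (1 - 32 * √n * δ) * ((2/δ) * |s|) ≤ |s'| := by
      have e6 : (1 - 32 * √n * δ) * ((2/δ) * |s|) = (2/δ) * |s| - 64 * √n * |s| := by
        field_simp; ring
      rw [e6, ← d1]
      have e7 : 2 * (s/δ) = (s' + 2 * (s/δ)) - s' := by ring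
      have e8 := abs_sub (s' + 2 * (s/δ)) s'
      rw [← e7] at e8
      linarith
    refine ⟨f3, f4, ?_, ?_⟩
    · obtain ⟨j, rfl⟩ : ∃ j, k = j + 1 := ⟨k - 1, by omega⟩
      simp only [Nat.add_sub_cancel] at i3 ⊢
      calc |s'| ≤ (1 + 32 * √n * δ) * ((2/δ) * |s|) := d2
        _ ≤ (1 + 32 * √n * δ) * ((2/δ) * ((1 + 32 * √n * δ)^j * ((2/δ)^j * (g * (1 + g))))) := by
            gcongr
        _ = _ := by ring
    · obtain ⟨j, rfl⟩ : ∃ j, k = j + 1 := ⟨k - 1, by omega⟩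
      simp only [Nat.add_sub_cancel] at i4 ⊢
      have h32 : 0 ≤ 1 - 32 * √n * δ := by
        have h2 : (2:ℝ) ≤ n := by exact_mod_cast hn
        nlinarith
      calc (1 - 32 * √n * δ)^(j+1) * ((2/δ)^(j+1) * (g * (1 + g)))
          = (1 - 32 * √n * δ) * ((2/δ) * ((1 - 32 * √n * δ)^j * ((2/δ)^j * (g * (1 + g))))) := by
            ring
        _ ≤ (1 - 32 * √n * δ) * ((2/δ) * |s|) := by gcongr
        _ ≤ |s'| := d3

/-- Summary of facts for each step `1 ≤ k < n`. -/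
lemma bad_facts (h : Base n e) (hn : 2 ≤ n) (hδ : 0 < δ) (hδn : 256 * (n:ℝ)^2 * δ ≤ 1)
    (hg : g = δ^2/40 * (δ/2)^(n-2)) (hrun : BadRun n δ g e x r p α β) {k : ℕ}
    (hk1 : 1 ≤ k) (hk : k < n) :
    |⟪e 0 + e 1, p k⟫_ℝ| ≤ δ^2/16 ∧ ‖r k + e k‖ ≤ |⟪e 0 + e 1, p k⟫_ℝ| ∧
      ‖p k - Pd e k‖ ≤ |⟪e 0 + e 1, p k⟫_ℝ| ∧
      (1 - 32 * √n * δ)^(k-1) * ((2/δ)^(k-1) * (g * (1 + g))) ≤ |⟪e 0 + e 1, p k⟫_ℝ| := by
  obtain ⟨hδ1, hδ2⟩ := size_facts hn hδ hδn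
  obtain ⟨hg0, hg1, hg2, hg3, hg4⟩ := g_facts hn hδ hδn hg
  obtain ⟨i1, i2, i3, i4⟩ := inv_bad h hn hδ hδn hg hrun k hk1 hk
  refine ⟨?_, i1, i2, i4⟩
  have hx32 : 0 ≤ 32 * √n * δ := by positivity
  have hNk : ((k-1 : ℕ) : ℝ) * (32 * √n * δ) ≤ 0.0884 := by
    refine le_trans ?_ hδ2
    gcongr
    omega
  obtain ⟨q1, q2⟩ := pow_bounds hx32 (k-1) hNk
  have hG := hg4 (k-1) (by omega)
  have hG0 : 0 ≤ (2/δ)^(k-1) * g := by positivity
  refine i3.trans ?_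
  calc (1 + 32 * √n * δ)^(k-1) * ((2/δ)^(k-1) * (g * (1 + g)))
      = (1 + 32 * √n * δ)^(k-1) * (((2/δ)^(k-1) * g) * (1 + g)) := by ring
    _ ≤ 1.097 * ((δ^2/40) * (1 + 0.001)) := by gcongr
    _ ≤ δ^2/16 := by nlinarith [sq_nonneg δ]

lemma bad_r (h : Base n e) (hn : 2 ≤ n) (hδ : 0 < δ) (hδn : 256 * (n:ℝ)^2 * δ ≤ 1)
    (hg : g = δ^2/40 * (δ/2)^(n-2)) (hrun : BadRun n δ g e x r p α β) {k : ℕ}
    (hk1 : 1 ≤ k) (hk : k < n) :
    0 < ⟪p k, Aop n δ e (p k)⟫_ℝ ∧ 0.999 ≤ ‖r k‖ ∧ |α k| ≤ 1.001 / δ ∧ ‖p k‖ ≤ 1.001 * √n := by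
  obtain ⟨hδ1, hδ2⟩ := size_facts hn hδ hδn
  obtain ⟨hn1, hd1⟩ := num_facts hn hδ hδ1
  obtain ⟨hsu, i1, i2, _⟩ := bad_facts h hn hδ hδn hg hrun hk1 hk
  obtain ⟨c1, c2, c3, c4⟩ := step_r h hn hδ hδ1 hk1 hk rfl hsu i1 i2 (hrun.hα k hk1)
  set s := ⟪e 0 + e 1, p k⟫_ℝ with hs
  have hs0 := abs_nonneg s
  have hs1 : |s| ≤ 0.000001 := by nlinarith
  refine ⟨c1, ?_, ?_, ?_⟩
  · have e1 : e k = (r k + e k) - r k := by abel
    have e2 := norm_sub_le (r k + e k) (r k)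
    rw [← e1, h.norm_eq hk] at e2
    linarith
  · have e1 : |α k| * δ = |α k * δ| := by rw [abs_mul, abs_of_pos hδ]
    rw [le_div_iff₀ hδ, e1]
    rw [abs_le] at c3 ⊢
    constructor <;> linarith [c3.1, c3.2]
  · have e1 : p k = Pd e k + (p k - Pd e k) := by abel
    rw [e1]
    refine (norm_add_le _ _).trans ?_
    have := norm_Pd_le h hk
    linarith

lemma bad_last (h : Base n e) (hn : 2 ≤ n) (hδ : 0 < δ) (hδn : 256 * (n:ℝ)^2 * δ ≤ 1)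
    (hg : g = δ^2/40 * (δ/2)^(n-2)) (hrun : BadRun n δ g e x r p α β) :
    0.03 * δ ≤ ‖r n‖ := by
  obtain ⟨hδ1, hδ2⟩ := size_facts hn hδ hδn
  obtain ⟨hn1, hd1⟩ := num_facts hn hδ hδ1
  obtain ⟨hg0, hg1, hg2, hg3, hg4⟩ := g_facts hn hδ hδn hg
  obtain ⟨hsu, i1, i2, i4⟩ := bad_facts h hn hδ hδn hg hrun (k := n-1) (by omega) (by omega)
  obtain ⟨c1, c2, c3, c4⟩ := step_r h hn hδ hδ1 (k := n-1) (by omega) (by omega) rfl hsu i1 i2
    (hrun.hα (n-1) (by omega))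
  rw [← hrun.hr (n-1) (by omega)] at c4
  have e0 : n - 1 + 1 = n := by omega
  rw [e0, h.zero n le_rfl, add_zero] at c4
  set s := ⟪e 0 + e 1, p (n-1)⟫_ℝ with hs
  have hs0 := abs_nonneg s
  have hx32 : 0 ≤ 32 * √n * δ := by positivity
  have hNk : ((n-1-1 : ℕ) : ℝ) * (32 * √n * δ) ≤ 0.0884 := by
    refine le_trans ?_ hδ2
    gcongr
    omega
  obtain ⟨q1, q2⟩ := pow_bounds hx32 (n-1-1) hNk
  have e1 : n - 1 - 1 = n - 2 := by omega
  rw [e1] at i4 q2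
  have hslo : 0.911 * (δ^2/40) ≤ |s| := by
    refine le_trans ?_ i4
    rw [← mul_assoc ((2/δ)^(n-2)), hg3]
    calc 0.911 * (δ^2/40) ≤ (1 - 32 * √n * δ)^(n-2) * (δ^2/40) := by gcongr
      _ ≤ _ := by
        have : 0 ≤ (1 - 32 * √n * δ)^(n-2) := by linarith
        apply mul_le_mul_of_nonneg_left _ this
        nlinarith [sq_nonneg δ]
  have hv := norm_v_ge h hn
  have d1 : (s/δ) • (e 0 + e 1) = (r n + (s/δ) • (e 0 + e 1)) - r n := by abel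
  have d2 := norm_sub_le (r n + (s/δ) • (e 0 + e 1)) (r n)
  rw [← d1, norm_smul, Real.norm_eq_abs, abs_div, abs_of_pos hδ] at d2
  have d3 : |s| / δ * 1.414 ≤ |s| / δ * ‖e 0 + e 1‖ := by gcongr
  have d4 : 0.911 * (δ/40) ≤ |s| / δ := by
    rw [le_div_iff₀ hδ]
    linarith [hslo, show 0.911 * (δ/40) * δ = 0.911 * (δ^2/40) by ring]
  have d5 : |s| ≤ 0.0036 * (|s| / δ) := by
    have : |s| = δ * (|s| / δ) := by field_simp
    have h0 : 0 ≤ |s| / δ := by positivity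
    nlinarith
  linarith

lemma bad_x (h : Base n e) (hn : 2 ≤ n) (hδ : 0 < δ) (hδn : 256 * (n:ℝ)^2 * δ ≤ 1)
    (hg : g = δ^2/40 * (δ/2)^(n-2)) (hrun : BadRun n δ g e x r p α β) :
    ∀ k, 1 ≤ k → k ≤ n → ‖x k‖ ≤ k * (1.003 * √n / δ) ∧
      e 0 - Aop n δ e (x k) = r k - g • e 0 := by
  obtain ⟨hδ1, hδ2⟩ := size_facts hn hδ hδn
  obtain ⟨hn1, hd1⟩ := num_facts hn hδ hδ1
  intro k hk1
  induction k, hk1 using Nat.le_induction with
  | base =>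
    intro _
    constructor
    · rw [hrun.x1, h.norm_eq (by omega)]
      rw [Nat.cast_one, one_mul, le_div_iff₀ hδ]
      linarith
    · rw [hrun.x1, hrun.r1, Aop]
      have e1 : ⟪e 0 + e 1, e 0⟫_ℝ = 1 := by
        rw [inner_add_left, h.inner, h.inner, if_pos ⟨rfl, by omega⟩, if_neg (by omega)]
        ring
      have e2 : Lop n e (e 0) = 0 := by
        rw [Lop]
        apply Finset.sum_eq_zero
        intro k hk
        rw [Finset.mem_Ico] at hk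
        have : ⟪cd e k, e 0⟫_ℝ = 0 := by
          rw [cd, inner_sub_left, h.inner, h.inner, if_neg (by omega), if_neg (by omega)]
          ring
        rw [this, zero_smul]
      rw [e1, e2]
      module
  | succ k hk1 ih =>
    intro hkn
    obtain ⟨i1, i2⟩ := ih (by omega)
    obtain ⟨_, _, c3, c4⟩ := bad_r h hn hδ hδn hg hrun hk1 (by omega)
    constructor
    · rw [hrun.hx k hk1]
      refine (norm_add_le _ _).trans ?_
      rw [norm_smul, Real.norm_eq_abs]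
      have : |α k| * ‖p k‖ ≤ (1.001 / δ) * (1.001 * √n) := by gcongr
      have e1 : (1.001 / δ) * (1.001 * √n) ≤ 1.003 * √n / δ := by
        rw [div_mul_eq_mul_div]
        apply div_le_div_of_nonneg_right _ hδ.le
        nlinarith
      push_cast
      linarith
    · rw [hrun.hx k hk1, hrun.hr k hk1, Aop_add, Aop_smul]
      calc e 0 - (Aop n δ e (x k) + α k • Aop n δ e (p k))
          = (e 0 - Aop n δ e (x k)) - α k • Aop n δ e (p k) := by abel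
        _ = _ := by rw [i2]; abel

/-- The true residuals of the bad example stay large. -/
lemma bad_final (h : Base n e) (hn : 2 ≤ n) (hδ : 0 < δ) (hδn : 256 * (n:ℝ)^2 * δ ≤ 1)
    (hg : g = δ^2/40 * (δ/2)^(n-2)) (hrun : BadRun n δ g e x r p α β) {ε : ℝ}
    (hε : 128 * ε * (n:ℝ)^2 ≤ δ^2) {k : ℕ} (hk1 : 1 ≤ k) (hk : k ≤ n) :
    ε * (3 * ‖x k‖ + 1) < ‖e 0 - Aop n δ e (x k)‖ := by
  obtain ⟨hδ1, hδ2⟩ := size_facts hn hδ hδn
  obtain ⟨hn1, hd1⟩ := num_facts hn hδ hδ1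
  obtain ⟨hg0, hg1, hg2, hg3, hg4⟩ := g_facts hn hδ hδn hg
  obtain ⟨i1, i2⟩ := bad_x h hn hδ hδn hg hrun k hk1 hk
  rw [i2]
  have h2 : (2:ℝ) ≤ n := by exact_mod_cast hn
  have hgd : g ≤ 0.001 * δ := by nlinarith
  have b1 : 0.03 * δ ≤ ‖r k‖ := by
    rcases Nat.lt_or_ge k n with h3 | h3
    · obtain ⟨_, c2, _, _⟩ := bad_r h hn hδ hδn hg hrun hk1 h3
      linarith
    · have : k = n := le_antisymm hk h3
      rw [this]
      exact bad_last h hn hδ hδn hg hrun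
  have b2 : 0.029 * δ ≤ ‖r k - g • e 0‖ := by
    have e1 : r k = (r k - g • e 0) + g • e 0 := by abel
    have e2 := norm_add_le (r k - g • e 0) (g • e 0)
    rw [← e1, norm_smul, h.norm_eq (by omega), Real.norm_eq_abs, abs_of_pos hg0] at e2
    linarith
  refine lt_of_lt_of_le ?_ b2
  rcases le_or_gt ε 0 with hε0 | hε0
  · have : ε * (3 * ‖x k‖ + 1) ≤ 0 := mul_nonpos_of_nonpos_of_nonneg hε0 (by positivity)
    have : 0 < 0.029 * δ := by positivity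
    linarith
  have b3 : 3 * ‖x k‖ + 1 ≤ 3.1 * (n * √n / δ) := by
    have c1 : (k:ℝ) * (1.003 * √n / δ) ≤ n * (1.003 * √n / δ) := by gcongr
    have c2 : (1:ℝ) ≤ 0.01 * (n * √n / δ) := by
      rw [← mul_div_assoc, le_div_iff₀ hδ]
      nlinarith
    have c3 : (n:ℝ) * (1.003 * √n / δ) = 1.003 * (n * √n / δ) := by ring
    linarith
  have b4 : 1.414 * (n * √n) ≤ (n:ℝ)^2 := by
    have h3 : √(n:ℝ) * √(n:ℝ) = n := Real.mul_self_sqrt (by linarith)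
    have : 1.414 * √(n:ℝ) ≤ √(n:ℝ) * √(n:ℝ) := by gcongr
    nlinarith
  calc ε * (3 * ‖x k‖ + 1) ≤ ε * (3.1 * (n * √n / δ)) := by gcongr
    _ = 3.1 * (ε * (n * √n)) / δ := by ring
    _ < 0.029 * δ := by
      rw [div_lt_iff₀ hδ]
      have c1 : ε * (1.414 * (n * √n)) ≤ ε * (n:ℝ)^2 := by gcongr
      nlinarith [pow_pos hδ 2]

end Pool.Agent.Helper643.CG
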