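import Mathlib
import Pool.Agent.Helper643.CGLowC
import Pool.Agent.Helper643.CGModel

namespace Pool.Agent.Helper643.CG

open scoped Matrix.Norms.L2Operator InnerProductSpace ENNReal

variable {n : ℕ}

/-- General tools: eigenvalue bounds from quadratic form bounds. -/
lemma eig_ge {A : Matrix (Fin n) (Fin n) ℝ} (hA : A.IsHermitian) {c : ℝ}
    (h : ∀ y : EuclideanSpace ℝ (Fin n), c * ‖y‖^2 ≤ ⟪y, op A y⟫_ℝ) (i : Fin n) :
    c ≤ hA.eigenvalues i := by
  set e := hA.eigenvectorBasis with he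
  have hAe : op A (e i) = hA.eigenvalues i • e i := by
    have h1 := hA.mulVec_eigenvectorBasis i
    rw [← he] at h1
    have h2 : op A (e i) = vec (A.mulVec (e i).ofLp) := by
      rw [← op_vec]
    rw [h2, h1]; rfl
  have h2 := h (e i)
  rw [hAe, real_inner_smul_right, real_inner_self_eq_norm_sq, e.orthonormal.1 i] at h2
  simpa using h2

lemma eig_le {A : Matrix (Fin n) (Fin n) ℝ} (hA : A.IsHermitian) {c : ℝ}
    (h : ∀ y : EuclideanSpace ℝ (Fin n), ⟪y, op A y⟫_ℝ ≤ c * ‖y‖^2) (i : Fin n) :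
    hA.eigenvalues i ≤ c := by
  set e := hA.eigenvectorBasis with he
  have hAe : op A (e i) = hA.eigenvalues i • e i := by
    have h1 := hA.mulVec_eigenvectorBasis i
    rw [← he] at h1
    have h2 : op A (e i) = vec (A.mulVec (e i).ofLp) := by
      rw [← op_vec]
    rw [h2, h1]; rfl
  have h2 := h (e i)
  rw [hAe, real_inner_smul_right, real_inner_self_eq_norm_sq, e.orthonormal.1 i] at h2
  simpa using h2

lemma posDef_of {A : Matrix (Fin n) (Fin n) ℝ} (hA : A.IsHermitian) {c : ℝ} (hc : 0 < c)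
    (h : ∀ y : EuclideanSpace ℝ (Fin n), c * ‖y‖^2 ≤ ⟪y, op A y⟫_ℝ) : A.PosDef :=
  hA.posDef_iff_eigenvalues_pos.2 fun i => lt_of_lt_of_le hc (eig_ge hA h i)

lemma cond_of {A : Matrix (Fin n) (Fin n) ℝ} (hA : A.IsHermitian) {c C : ℝ} (hc : 0 < c)
    (hC : 0 ≤ C)
    (h : ∀ y : EuclideanSpace ℝ (Fin n), c * ‖y‖^2 ≤ ⟪y, op A y⟫_ℝ)
    (h' : ∀ y : EuclideanSpace ℝ (Fin n), ⟪y, op A y⟫_ℝ ≤ C * ‖y‖^2)
    {κ : ℝ≥0∞} (hκ : ENNReal.ofReal (C / c) ≤ κ) (i j : Fin n) :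
    ENNReal.ofReal (hA.eigenvalues i) ≤ κ * ENNReal.ofReal (hA.eigenvalues j) := by
  have h1 := eig_le hA h' i
  have h2 := eig_ge hA h j
  calc ENNReal.ofReal (hA.eigenvalues i) ≤ ENNReal.ofReal (C / c * hA.eigenvalues j) := by
        apply ENNReal.ofReal_le_ofReal
        rw [div_mul_eq_mul_div, le_div_iff₀ hc]
        calc hA.eigenvalues i * c ≤ C * c := by gcongr
          _ ≤ C * hA.eigenvalues j := by gcongr
    _ = ENNReal.ofReal (C / c) * ENNReal.ofReal (hA.eigenvalues j) := by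
        rw [ENNReal.ofReal_mul (by positivity)]
    _ ≤ _ := by gcongr

lemma opNorm_le {A : Matrix (Fin n) (Fin n) ℝ} {c : ℝ} (hc : 0 ≤ c)
    (h : ∀ y : EuclideanSpace ℝ (Fin n), ‖op A y‖ ≤ c * ‖y‖) : ‖A‖ ≤ c := by
  rw [Matrix.l2_opNorm_def]
  exact ContinuousLinearMap.opNorm_le_bound _ hc h

/-- coordinate vectors (zero for `k ≥ n`). -/
def ek (n : ℕ) (k : ℕ) : Fin n → ℝ := fun i => if (i:ℕ) = k then 1 else 0

/-- the family in Euclidean space -/
noncomputable def ee (n : ℕ) (k : ℕ) : EuclideanSpace ℝ (Fin n) := vec (ek n k)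

lemma base_ee (n : ℕ) : Base n (ee n) where
  orth := by
    intro i hi j hj
    rw [ee, ee, inner_vec]
    have : ∀ m : Fin n, ek n i m * ek n j m = if m = ⟨i, hi⟩ then (if i = j then 1 else 0) else 0 := by
      intro m
      simp only [ek, Fin.ext_iff]
      split_ifs <;> simp_all
    rw [Finset.sum_congr rfl fun m _ => this m, Finset.sum_ite_eq']
    simp
  zero := by
    intro k hk
    have : ek n k = 0 := by
      ext i
      simp only [ek, Pi.zero_apply, ite_eq_right_iff, one_ne_zero, imp_false]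
      omega
    rw [ee, this]; rfl

/-- The bad matrix. -/
noncomputable def Abad (n : ℕ) (δ : ℝ) : Matrix (Fin n) (Fin n) ℝ := fun i j =>
  (ek n 0 i + ek n 1 i) * (ek n 0 j + ek n 1 j) +
    δ * ∑ k ∈ Finset.Ico 1 n, (ek n k i - ek n (k+1) i) * (ek n k j - ek n (k+1) j)

lemma Abad_symm (n : ℕ) (δ : ℝ) : (Abad n δ).IsHermitian := by
  ext i j
  simp only [Matrix.conjTranspose_apply, star_trivial, Abad]
  rw [mul_comm (ek n 0 j + ek n 1 j)]
  congr 1
  congr 1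
  exact Finset.sum_congr rfl fun k _ => mul_comm _ _

lemma op_Abad (n : ℕ) (δ : ℝ) (y : EuclideanSpace ℝ (Fin n)) :
    op (Abad n δ) y = Aop n δ (ee n) y := by
  obtain ⟨y, rfl⟩ : ∃ z, y = vec z := ⟨y.ofLp, rfl⟩
  rw [op_vec]
  ext i
  have e1 : ∀ k, ⟪cd (ee n) k, vec y⟫_ℝ = ∑ j, (ek n k j - ek n (k+1) j) * y j := by
    intro k
    have : cd (ee n) k = vec (fun j => ek n k j - ek n (k+1) j) := rfl
    rw [this, inner_vec]
  have e2 : ⟪ee n 0 + ee n 1, vec y⟫_ℝ = ∑ j, (ek n 0 j + ek n 1 j) * y j := by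
    have : ee n 0 + ee n 1 = vec (fun j => ek n 0 j + ek n 1 j) := rfl
    rw [this, inner_vec]
  simp only [Aop, Lop, e1, e2]
  have e3 : ∀ k, (cd (ee n) k) i = ek n k i - ek n (k+1) i := fun k => rfl
  have e4 : (ee n 0 + ee n 1) i = ek n 0 i + ek n 1 i := rfl
  rw [PiLp.add_apply, PiLp.smul_apply, PiLp.smul_apply, e4, WithLp.ofLp_sum, Finset.sum_apply]
  simp only [PiLp.smul_apply, e3, smul_eq_mul]
  have e5 : (Abad n δ).mulVec y i = ∑ j, Abad n δ i j * y j := rfl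
  rw [e5]
  have e6 : ∀ j, Abad n δ i j * y j =
      ((ek n 0 j + ek n 1 j) * y j) * (ek n 0 i + ek n 1 i) +
        δ * ∑ k ∈ Finset.Ico 1 n, ((ek n k j - ek n (k+1) j) * y j) * (ek n k i - ek n (k+1) i) := by
    intro j
    rw [Abad, add_mul, mul_assoc δ, Finset.sum_mul]
    congr 1
    · ring
    · congr 1; exact Finset.sum_congr rfl fun k _ => by ring
  rw [Finset.sum_congr rfl fun j _ => e6 j, Finset.sum_add_distrib, ← Finset.sum_mul,
    ← Finset.mul_sum, Finset.sum_comm]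
  congr 2
  exact Finset.sum_congr rfl fun k _ => by rw [Finset.sum_mul]

lemma inner_ee (i : Fin n) (z : Fin n → ℝ) : ⟪ee n i, vec z⟫_ℝ = z i := by
  rw [ee, inner_vec]
  have : ∀ m : Fin n, ek n i m * z m = if m = i then z i else 0 := by
    intro m
    simp only [ek, Fin.ext_iff]
    split_ifs with h
    · have : m = i := Fin.ext h
      rw [this, one_mul]
    · simp
  rw [Finset.sum_congr rfl fun m _ => this m, Finset.sum_ite_eq']
  simp

lemma norm_sq_eq_sum (y : EuclideanSpace ℝ (Fin n)) :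
    ‖y‖^2 = ∑ k ∈ Finset.range n, ⟪ee n k, y⟫_ℝ^2 := by
  obtain ⟨y, rfl⟩ : ∃ z, y = vec z := ⟨y.ofLp, rfl⟩
  rw [← Fin.sum_univ_eq_sum_range (fun k => ⟪ee n k, vec y⟫_ℝ^2), EuclideanSpace.norm_sq_eq]
  refine Finset.sum_congr rfl fun i _ => ?_
  rw [inner_ee]
  simp

lemma quad_Abad (δ : ℝ) (y : EuclideanSpace ℝ (Fin n)) :
    ⟪y, op (Abad n δ) y⟫_ℝ = (⟪ee n 0, y⟫_ℝ + ⟪ee n 1, y⟫_ℝ)^2 +
      δ * ∑ k ∈ Finset.Ico 1 n, (⟪ee n k, y⟫_ℝ - ⟪ee n (k+1), y⟫_ℝ)^2 := by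
  rw [op_Abad, Aop, inner_add_right, real_inner_smul_right, real_inner_smul_right, inner_Lop,
    real_inner_comm (ee n 0 + ee n 1) y, inner_add_left]
  congr 1
  · ring
  · congr 1
    refine Finset.sum_congr rfl fun k _ => ?_
    rw [cd, inner_sub_left]
    ring

lemma quad_Abad_ge (hn : 2 ≤ n) {δ : ℝ} (hδ : 0 < δ) (hδ1 : δ ≤ 1) (y : EuclideanSpace ℝ (Fin n)) :
    δ / (2 * n^2) * ‖y‖^2 ≤ ⟪y, op (Abad n δ) y⟫_ℝ := by
  rw [quad_Abad, norm_sq_eq_sum]
  set a : ℕ → ℝ := fun k => ⟪ee n k, y⟫_ℝ with ha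
  set S := ∑ k ∈ Finset.Ico 1 n, (a k - a (k+1))^2 with hS
  have hS0 : 0 ≤ S := Finset.sum_nonneg fun _ _ => sq_nonneg _
  have han : a n = 0 := by
    rw [ha]; simp only
    rw [(base_ee n).zero n le_rfl, inner_zero_left]
  have h2 : (2:ℝ) ≤ n := by exact_mod_cast hn
  have hj : ∀ j, 1 ≤ j → j < n → a j ^2 ≤ n * S := by
    intro j hj1 hjn
    have e1 : a j = ∑ k ∈ Finset.Ico j n, (a k - a (k+1)) := by
      rw [Finset.sum_Ico_eq_sum_range]
      have := Finset.sum_range_sub' (fun i => a (j + i)) (n - j)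
      simp only [Nat.add_zero] at this
      have e2 : j + (n - j) = n := by omega
      rw [e2, han, sub_zero] at this
      rw [← this]
      exact Finset.sum_congr rfl fun i _ => by rw [add_assoc]
    rw [e1]
    refine (sq_sum_le_card_mul_sum_sq).trans ?_
    have e3 : ∑ k ∈ Finset.Ico j n, (a k - a (k+1))^2 ≤ S := by
      apply Finset.sum_le_sum_of_subset_of_nonneg
      · exact Finset.Ico_subset_Ico_left hj1
      · intro i _ _; positivity
    have e4 : (0:ℝ) ≤ ∑ k ∈ Finset.Ico j n, (a k - a (k+1))^2 :=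
      Finset.sum_nonneg fun _ _ => sq_nonneg _
    have e5 : (((Finset.Ico j n).card : ℕ) : ℝ) ≤ n := by
      rw [Nat.card_Ico]
      exact_mod_cast Nat.sub_le _ _
    gcongr
  have h0 : a 0 ^2 ≤ 2 * (a 0 + a 1)^2 + 2 * (n * S) := by
    have := hj 1 le_rfl (by omega)
    nlinarith [sq_nonneg (a 0 + 2 * a 1)]
  have hsum : ∑ k ∈ Finset.range n, a k^2 ≤ 2 * (a 0 + a 1)^2 + 2 * n^2 * S := by
    obtain ⟨m, rfl⟩ : ∃ m, n = m + 1 := ⟨n - 1, by omega⟩
    rw [Finset.sum_range_succ']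
    have e1 : ∑ k ∈ Finset.range m, a (k+1)^2 ≤ ∑ _k ∈ Finset.range m, ((m+1 : ℕ):ℝ) * S := by
      apply Finset.sum_le_sum
      intro k hk
      rw [Finset.mem_range] at hk
      exact hj (k+1) (by omega) (by omega)
    rw [Finset.sum_const, Finset.card_range, nsmul_eq_mul] at e1
    push_cast at *
    have e2 : (0:ℝ) ≤ m := Nat.cast_nonneg m
    have e3 : 0 ≤ (m:ℝ) * ((m + 1) * S) := by positivity
    have e4 : 2 * ((m:ℝ) + 1)^2 * S =
      (m:ℝ) * ((m + 1) * S) + 2 * ((m + 1) * S) + (m:ℝ) * ((m + 1) * S) := by ring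
    linarith
  have hfin : δ / (2 * n^2) * (2 * (a 0 + a 1)^2 + 2 * n^2 * S) =
      δ / n^2 * (a 0 + a 1)^2 + δ * S := by
    field_simp
  calc δ / (2 * n^2) * ∑ k ∈ Finset.range n, a k^2
      ≤ δ / (2 * n^2) * (2 * (a 0 + a 1)^2 + 2 * n^2 * S) := by gcongr
    _ = δ / n^2 * (a 0 + a 1)^2 + δ * S := hfin
    _ ≤ 1 * (a 0 + a 1)^2 + δ * S := by
        have : δ / (n:ℝ)^2 ≤ 1 := by
          rw [div_le_one (by positivity)]
          nlinarith
        gcongr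
    _ = _ := by rw [one_mul]

lemma norm_Aop_le {E : Type*} [NormedAddCommGroup E] [InnerProductSpace ℝ E] {e : ℕ → E}
    (h : Base n e) (hn : 2 ≤ n) {δ : ℝ} (hδ : 0 < δ) (hδ1 : δ ≤ 0.1) (y : E) :
    ‖Aop n δ e y‖ ≤ 3 * ‖y‖ := by
  rw [Aop]
  refine (norm_add_le _ _).trans ?_
  rw [norm_smul, norm_smul, Real.norm_eq_abs, Real.norm_eq_abs, abs_of_pos hδ]
  have h1 := norm_v_le h hn
  have h2 := norm_Lop h y
  have h3 : |⟪e 0 + e 1, y⟫_ℝ| ≤ ‖e 0 + e 1‖ * ‖y‖ := abs_real_inner_le_norm _ _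
  have h4 := norm_nonneg y
  have h5 := norm_nonneg (e 0 + e 1)
  calc |⟪e 0 + e 1, y⟫_ℝ| * ‖e 0 + e 1‖ + δ * ‖Lop n e y‖
      ≤ (1.4143 * ‖y‖) * 1.4143 + 0.1 * (4 * ‖y‖) := by gcongr; exact h3.trans (by gcongr)
    _ ≤ _ := by nlinarith

lemma quad_Abad_le (hn : 2 ≤ n) {δ : ℝ} (hδ : 0 < δ) (hδ1 : δ ≤ 0.1)
    (y : EuclideanSpace ℝ (Fin n)) : ⟪y, op (Abad n δ) y⟫_ℝ ≤ 3 * ‖y‖^2 := by
  refine (real_inner_le_norm _ _).trans ?_
  rw [op_Abad]
  have := norm_Aop_le (base_ee n) hn hδ hδ1 y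
  have h4 := norm_nonneg y
  nlinarith

lemma norm_Abad_le (hn : 2 ≤ n) {δ : ℝ} (hδ : 0 < δ) (hδ1 : δ ≤ 0.1) : ‖Abad n δ‖ ≤ 3 := by
  apply opNorm_le (by norm_num)
  intro y
  rw [op_Abad]
  exact norm_Aop_le (base_ee n) hn hδ hδ1 y

/-- Representability of the entries. -/
lemma rep_Abad {j t : ℕ} (hj : 1 ≤ j) (ht : j + 2 ≤ t) (i i' : Fin n) :
    Rep t (Abad n ((1/2)^j) i i') := by
  set z : ℤ := ((if (i:ℕ) = 0 then 1 else 0) + (if (i:ℕ) = 1 then 1 else 0)) *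
    ((if (i':ℕ) = 0 then 1 else 0) + (if (i':ℕ) = 1 then 1 else 0)) * 2^j +
    ∑ k ∈ Finset.Ico 1 n, ((if (i:ℕ) = k then 1 else 0) - (if (i:ℕ) = k+1 then 1 else 0)) *
      ((if (i':ℕ) = k then 1 else 0) - (if (i':ℕ) = k+1 then 1 else 0)) with hz
  set S := ∑ k ∈ Finset.Ico 1 n, (ek n k i - ek n (k+1) i) * (ek n k i' - ek n (k+1) i') with hS
  have hzr : (z:ℝ) = (ek n 0 i + ek n 1 i) * (ek n 0 i' + ek n 1 i') * 2^j + S := by
    rw [hz, hS]
    push_cast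
    simp only [ek]
  have hSb : |S| ≤ 4 := by
    have h1 := abs_inner_Lop (base_ee n) (ee n i) (ee n i')
    rw [inner_Lop, (base_ee n).norm_eq i.2, (base_ee n).norm_eq i'.2] at h1
    have h2 : ∀ (k : ℕ) (i : Fin n), ⟪cd (ee n) k, ee n i⟫_ℝ = ek n k i - ek n (k+1) i := by
      intro k i
      rw [real_inner_comm]
      exact inner_ee i (fun j => ek n k j - ek n (k+1) j)
    simp only [h2] at h1
    rw [hS]; linarith
  refine ⟨z, -(j:ℤ), ?_, ?_⟩
  · have h1 : |(z:ℝ)| < 2^t := by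
      have h3 : ∀ i : Fin n, 0 ≤ ek n 0 i + ek n 1 i ∧ ek n 0 i + ek n 1 i ≤ 1 := by
        intro i
        simp only [ek]
        split_ifs with h1 h2 <;> first | omega | norm_num
      have h4 : |(ek n 0 i + ek n 1 i) * (ek n 0 i' + ek n 1 i') * 2^j| ≤ 2^j := by
        rw [abs_mul, abs_mul, abs_of_nonneg (h3 i).1, abs_of_nonneg (h3 i').1,
          abs_of_pos (by positivity : (0:ℝ) < 2^j)]
        calc (ek n 0 i + ek n 1 i) * (ek n 0 i' + ek n 1 i') * 2^j ≤ 1 * 1 * 2^j := by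
              have := (h3 i).1
              have := (h3 i').1
              have := (h3 i).2
              have := (h3 i').2
              gcongr
          _ = _ := by ring
      rw [hzr]
      refine (abs_add_le _ _).trans_lt ?_
      have h5 : (2:ℝ)^(j+2) ≤ 2^t := pow_le_pow_right₀ (by norm_num) ht
      have h6 : (2:ℝ)^1 ≤ 2^j := pow_le_pow_right₀ (by norm_num) hj
      rw [pow_add] at h5
      norm_num at h5 h6
      linarith
    have h2 : ((|z| : ℤ) : ℝ) < ((2^t : ℤ) : ℝ) := by push_cast; exact h1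
    exact_mod_cast h2
  · rw [hzr, zpow_neg, zpow_natCast, Abad, ← hS]
    have : (1/2:ℝ)^j = ((2:ℝ)^j)⁻¹ := by rw [one_div, inv_pow]
    rw [this]
    field_simp

lemma rep_zero (t : ℕ) : Rep t 0 := ⟨0, 0, by simp, by simp⟩

lemma rep_one {t : ℕ} (ht : 1 ≤ t) : Rep t 1 := ⟨1, 0, by
  rw [abs_one]; exact one_lt_pow₀ (by norm_num) (by omega), by simp⟩

end Pool.Agent.Helper643.CG
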