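import Mathlib
import Pool.Agent.Helper643.CGLowD
import Pool.Agent.Helper643.CGGood

namespace Pool.Agent.Helper643.CG

open scoped Matrix.Norms.L2Operator InnerProductSpace ENNReal

variable {n : ℕ}

/-- One exact step of conjugate gradients. -/
noncomputable def nxt (A : Matrix (Fin n) (Fin n) ℝ)
    (s : (Fin n → ℝ) × (Fin n → ℝ) × (Fin n → ℝ)) : (Fin n → ℝ) × (Fin n → ℝ) × (Fin n → ℝ) :=
  (s.1 + ((∑ i, s.2.1 i * s.2.1 i) / (∑ i, s.2.2 i * A.mulVec s.2.2 i)) • s.2.2,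
    s.2.1 - ((∑ i, s.2.1 i * s.2.1 i) / (∑ i, s.2.2 i * A.mulVec s.2.2 i)) • A.mulVec s.2.2,
    (s.2.1 - ((∑ i, s.2.1 i * s.2.1 i) / (∑ i, s.2.2 i * A.mulVec s.2.2 i)) • A.mulVec s.2.2) +
    ((∑ i, (s.2.1 - ((∑ i, s.2.1 i * s.2.1 i) / (∑ i, s.2.2 i * A.mulVec s.2.2 i)) •
        A.mulVec s.2.2) i *
      (s.2.1 - ((∑ i, s.2.1 i * s.2.1 i) / (∑ i, s.2.2 i * A.mulVec s.2.2 i)) •
        A.mulVec s.2.2) i) / (∑ i, s.2.1 i * s.2.1 i)) • s.2.2)

/-- The sequence of states; only step `0` is not exact. -/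
noncomputable def st (A : Matrix (Fin n) (Fin n) ℝ) (b x1 r1 p1 : Fin n → ℝ) :
    ℕ → (Fin n → ℝ) × (Fin n → ℝ) × (Fin n → ℝ)
  | 0 => (0, b, b)
  | 1 => (x1, r1, p1)
  | (k+2) => nxt A (st A b x1 r1 p1 (k+1))

lemma st_succ (A : Matrix (Fin n) (Fin n) ℝ) (b x1 r1 p1 : Fin n → ℝ) {k : ℕ} (hk : 1 ≤ k) :
    st A b x1 r1 p1 (k+1) = nxt A (st A b x1 r1 p1 k) := by
  obtain ⟨j, rfl⟩ : ∃ j, k = j + 1 := ⟨k - 1, by omega⟩
  rfl

theorem run_of {u : ℝ} (hu : 0 ≤ u) (hn : 1 ≤ n) {A : Matrix (Fin n) (Fin n) ℝ}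
    {b x1 r1 p1 w0 : Fin n → ℝ} {d0 α0 β0 : ℝ} {K : ℕ}
    (hρ0 : ∑ i, b i * b i ≠ 0) (hw0 : FlMulVec u A b w0) (hd0 : FlInner u b w0 d0)
    (hd0' : d0 ≠ 0) (hα0 : Fl u ((∑ i, b i * b i) / d0) α0)
    (hx1 : ∀ i, ∃ m, Fl u (α0 * b i) m ∧ Fl u (0 + m) (x1 i))
    (hr1 : ∀ i, ∃ m, Fl u (α0 * w0 i) m ∧ Fl u (b i - m) (r1 i))
    (hβ0 : Fl u ((∑ i, r1 i * r1 i) / (∑ i, b i * b i)) β0)
    (hp1 : ∀ i, ∃ m, Fl u (β0 * b i) m ∧ Fl u (r1 i + m) (p1 i))
    (h1 : ∀ k, 1 ≤ k → k < K →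
      ∑ i, (st A b x1 r1 p1 k).2.1 i * (st A b x1 r1 p1 k).2.1 i ≠ 0 ∧
      ∑ i, (st A b x1 r1 p1 k).2.2 i * A.mulVec (st A b x1 r1 p1 k).2.2 i ≠ 0) :
    ∃ w ρ d α β, Run u A b K (fun k => (st A b x1 r1 p1 k).1) (fun k => (st A b x1 r1 p1 k).2.1)
      (fun k => (st A b x1 r1 p1 k).2.2) w ρ d α β := by
  set S := st A b x1 r1 p1 with hS
  have hsucc : ∀ k, 1 ≤ k → S (k+1) = nxt A (S k) := fun k hk => st_succ A b x1 r1 p1 hk
  refine ⟨fun k => if k = 0 then w0 else A.mulVec (S k).2.2,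
    fun k => ∑ i, (S k).2.1 i * (S k).2.1 i,
    fun k => if k = 0 then d0 else ∑ i, (S k).2.2 i * A.mulVec (S k).2.2 i,
    fun k => if k = 0 then α0 else
      (∑ i, (S k).2.1 i * (S k).2.1 i) / (∑ i, (S k).2.2 i * A.mulVec (S k).2.2 i),
    fun k => if k = 0 then β0 else
      (∑ i, (S (k+1)).2.1 i * (S (k+1)).2.1 i) / (∑ i, (S k).2.1 i * (S k).2.1 i), ?_⟩
  constructor
  · rfl
  · rfl
  · rfl
  · intro k _; exact FlInner.exact hu hn _ _
  · intro k hk
    rcases Nat.eq_zero_or_pos k with h0 | h0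
    · subst h0; exact hρ0
    · exact (h1 k h0 hk).1
  · intro k hk
    rcases Nat.eq_zero_or_pos k with h0 | h0
    · subst h0; exact hw0
    · simp only [if_neg h0.ne']; exact FlMulVec.exact hu hn _ _
  · intro k hk
    rcases Nat.eq_zero_or_pos k with h0 | h0
    · subst h0; exact hd0
    · simp only [if_neg h0.ne']; exact FlInner.exact hu hn _ _
  · intro k hk
    rcases Nat.eq_zero_or_pos k with h0 | h0
    · subst h0; exact hd0'
    · simp only [if_neg h0.ne']; exact (h1 k h0 hk).2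
  · intro k hk
    rcases Nat.eq_zero_or_pos k with h0 | h0
    · subst h0; exact hα0
    · simp only [if_neg h0.ne']; exact Fl.exact hu _
  · intro k hk
    rcases Nat.eq_zero_or_pos k with h0 | h0
    · subst h0; exact hx1
    · intro i
      simp only [if_neg h0.ne', hsucc k h0]
      exact ⟨_, Fl.exact hu _, Fl.exact hu _⟩
  · intro k hk
    rcases Nat.eq_zero_or_pos k with h0 | h0
    · subst h0; exact hr1
    · intro i
      simp only [if_neg h0.ne', hsucc k h0]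
      exact ⟨_, Fl.exact hu _, Fl.exact hu _⟩
  · intro k hk
    rcases Nat.eq_zero_or_pos k with h0 | h0
    · subst h0; exact hβ0
    · simp only [if_neg h0.ne']; exact Fl.exact hu _
  · intro k hk
    rcases Nat.eq_zero_or_pos k with h0 | h0
    · subst h0; exact hp1
    · intro i
      simp only [if_neg h0.ne', hsucc k h0]
      exact ⟨_, Fl.exact hu _, Fl.exact hu _⟩

lemma norm_sq_vec (y : Fin n → ℝ) : ‖vec y‖^2 = ∑ i, y i * y i := by
  rw [← real_inner_self_eq_norm_sq, inner_vec]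

lemma badRun_st {δ g : ℝ} :
    BadRun n δ g (ee n)
      (fun k => vec (st (Abad n δ) (ek n 0) (ek n 0) (g • ek n 0 - ek n 1)
        ((1 + g + g^2) • ek n 0 - ek n 1) k).1)
      (fun k => vec (st (Abad n δ) (ek n 0) (ek n 0) (g • ek n 0 - ek n 1)
        ((1 + g + g^2) • ek n 0 - ek n 1) k).2.1)
      (fun k => vec (st (Abad n δ) (ek n 0) (ek n 0) (g • ek n 0 - ek n 1)
        ((1 + g + g^2) • ek n 0 - ek n 1) k).2.2)
      (fun k => (∑ i, (st (Abad n δ) (ek n 0) (ek n 0) (g • ek n 0 - ek n 1)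
        ((1 + g + g^2) • ek n 0 - ek n 1) k).2.1 i * (st (Abad n δ) (ek n 0) (ek n 0)
          (g • ek n 0 - ek n 1) ((1 + g + g^2) • ek n 0 - ek n 1) k).2.1 i) /
        (∑ i, (st (Abad n δ) (ek n 0) (ek n 0) (g • ek n 0 - ek n 1)
        ((1 + g + g^2) • ek n 0 - ek n 1) k).2.2 i * (Abad n δ).mulVec (st (Abad n δ) (ek n 0)
          (ek n 0) (g • ek n 0 - ek n 1) ((1 + g + g^2) • ek n 0 - ek n 1) k).2.2 i))
      (fun k => (∑ i, (st (Abad n δ) (ek n 0) (ek n 0) (g • ek n 0 - ek n 1)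
        ((1 + g + g^2) • ek n 0 - ek n 1) (k+1)).2.1 i * (st (Abad n δ) (ek n 0) (ek n 0)
          (g • ek n 0 - ek n 1) ((1 + g + g^2) • ek n 0 - ek n 1) (k+1)).2.1 i) /
        (∑ i, (st (Abad n δ) (ek n 0) (ek n 0) (g • ek n 0 - ek n 1)
        ((1 + g + g^2) • ek n 0 - ek n 1) k).2.1 i * (st (Abad n δ) (ek n 0) (ek n 0)
          (g • ek n 0 - ek n 1) ((1 + g + g^2) • ek n 0 - ek n 1) k).2.1 i)) := by
  set S := st (Abad n δ) (ek n 0) (ek n 0) (g • ek n 0 - ek n 1)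
        ((1 + g + g^2) • ek n 0 - ek n 1) with hS
  have hsucc : ∀ k, 1 ≤ k → S (k+1) = nxt (Abad n δ) (S k) := fun k hk => st_succ _ _ _ _ _ hk
  have hin : ∀ y : Fin n → ℝ, ⟪vec y, Aop n δ (ee n) (vec y)⟫_ℝ =
      ∑ i, y i * (Abad n δ).mulVec y i := by
    intro y
    rw [← op_Abad, op_vec, inner_vec]
  constructor
  · rfl
  · rfl
  · rfl
  · intro k _
    simp only [norm_sq_vec, hin]
  · intro k hk
    simp only [hsucc k hk]
    rfl
  · intro k hk
    simp only [hsucc k hk, ← op_Abad, op_vec]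
    rfl
  · intro k _
    simp only [norm_sq_vec]
  · intro k hk
    simp only [hsucc k hk]
    rfl

theorem not_good_bad (brk : Prop) {κ : ℝ≥0∞} {ε : ℝ} {j t : ℕ} (hn : 2 ≤ n) (hε0 : 0 < ε)
    (hε1 : ε < 1) (hj : 256 * (n:ℝ)^2 ≤ 2^j) (hε : 128 * ε * (n:ℝ)^2 ≤ ((1/2)^j)^2)
    (hκ : ENNReal.ofReal (6 * n^2 * 2^j) ≤ κ) (ht1 : j + 2 ≤ t) (ht2 : t ≤ n * j) :
    ¬ Good brk n κ ε t := by
  set δ : ℝ := (1/2)^j with hδdef
  have hδ2 : δ * 2^j = 1 := by
    rw [hδdef, ← mul_pow]; norm_num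
  have hδ : 0 < δ := by positivity
  have h2 : (2:ℝ) ≤ n := by exact_mod_cast hn
  have hδn : 256 * (n:ℝ)^2 * δ ≤ 1 := by
    calc 256 * (n:ℝ)^2 * δ ≤ 2^j * δ := by gcongr
      _ = 1 := by rw [mul_comm, hδ2]
  obtain ⟨hδ1, _⟩ := size_facts hn hδ hδn
  obtain ⟨_, hd1⟩ := num_facts hn hδ hδ1
  have hδs : δ ≤ 0.1 := by linarith
  have hj1 : 1 ≤ j := by
    by_contra hcon
    have : j = 0 := by omega
    rw [this] at hj
    nlinarith
  set g : ℝ := δ^2/40 * (δ/2)^(n-2) with hg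
  obtain ⟨hg0, hg1, hg2, hg3, hg4⟩ := g_facts hn hδ hδn hg
  set u : ℝ := 1/2^t with hu
  have hu0 : 0 ≤ u := by positivity
  have hgu : g ≤ u := by
    have e1 : g ≤ δ^n := by
      have e2 : δ^n = δ^2 * δ^(n-2) := by rw [← pow_add]; congr 1; omega
      rw [e2, hg]
      have e3 : δ^2/40 ≤ δ^2 := by nlinarith [pow_pos hδ 2]
      have e4 : δ/2 ≤ δ := by linarith
      gcongr
    have e2 : δ^n = 1 / 2^(n*j) := by
      rw [hδdef, ← pow_mul, mul_comm j n, one_div, inv_pow, one_div]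
    rw [e2] at e1
    refine e1.trans ?_
    rw [hu]
    apply one_div_le_one_div_of_le (by positivity)
    exact pow_le_pow_right₀ (by norm_num) ht2
  intro hgood
  set A := Abad n δ with hA
  have hAs : A.IsHermitian := Abad_symm n δ
  have hc0 : 0 < δ / (2 * (n:ℝ)^2) := by positivity
  have hlo := quad_Abad_ge hn hδ (by linarith : δ ≤ 1)
  have hhi := quad_Abad_le hn hδ hδs
  have hpd : A.PosDef := posDef_of hAs hc0 hlo
  have hb := base_ee n
  have hbn : ‖ee n 0‖ = 1 := hb.norm_eq (by omega)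
  have hbsum : ∑ i, ek n 0 i * ek n 0 i = 1 := by
    rw [← norm_sq_vec]
    have : ‖vec (ek n 0)‖ = 1 := hbn
    rw [this]; norm_num
  have hAe0 : A.mulVec (ek n 0) = ek n 0 + ek n 1 := by
    have h1 := op_Abad n δ (ee n 0)
    have h3 : Aop n δ (ee n) (ee n 0) = ee n 0 + ee n 1 := by
      rw [Aop]
      have e1 : ⟪ee n 0 + ee n 1, ee n 0⟫_ℝ = 1 := by
        rw [inner_add_left, hb.inner, hb.inner, if_pos ⟨rfl, by omega⟩, if_neg (by omega)]
        ring
      have e2 : Lop n (ee n) (ee n 0) = 0 := by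
        rw [Lop]
        apply Finset.sum_eq_zero
        intro k hk
        rw [Finset.mem_Ico] at hk
        have : ⟪cd (ee n) k, ee n 0⟫_ℝ = 0 := by
          rw [cd, inner_sub_left, hb.inner, hb.inner, if_neg (by omega), if_neg (by omega)]
          ring
        rw [this, zero_smul]
      rw [e1, e2]
      module
    rw [h3, ee, op_vec] at h1
    have := congrArg WithLp.ofLp h1
    exact this
  have hd0 : ∑ i, ek n 0 i * (ek n 0 + ek n 1) i = 1 := by
    have h1 : ⟪ee n 0, ee n 0 + ee n 1⟫_ℝ = 1 := by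
      rw [inner_add_right, hb.inner, hb.inner, if_pos ⟨rfl, by omega⟩, if_neg (by omega)]
      ring
    have h3 : ⟪ee n 0, ee n 0 + ee n 1⟫_ℝ = ∑ i, ek n 0 i * (ek n 0 + ek n 1) i := by
      rw [← inner_vec]; rfl
    rw [← h3, h1]
  have hρ1 : ∑ i, (g • ek n 0 - ek n 1) i * (g • ek n 0 - ek n 1) i = 1 + g^2 := by
    rw [← norm_sq_vec]
    have h1 : vec (g • ek n 0 - ek n 1) = g • ee n 0 - ee n 1 := rfl
    rw [h1, norm_sub_sq_real, norm_smul, hbn, hb.norm_eq (show 1 < n by omega),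
      real_inner_smul_left, hb.inner, if_neg (by omega), Real.norm_eq_abs, mul_one, sq_abs]
    ring
  have hbad := badRun_st (n := n) (δ := δ) (g := g)
  obtain ⟨w, ρ, d, α, β, hrun⟩ := run_of (u := u) hu0 (by omega : 1 ≤ n) (A := A) (b := ek n 0)
    (x1 := ek n 0) (r1 := g • ek n 0 - ek n 1) (p1 := (1 + g + g^2) • ek n 0 - ek n 1)
    (w0 := ek n 0 + ek n 1) (d0 := 1) (α0 := 1) (β0 := 1 + g^2) (K := n)
    (by rw [hbsum]; norm_num)
    (by rw [← hAe0]; exact FlMulVec.exact hu0 (by omega) _ _)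
    (by
      have := FlInner.exact hu0 (by omega : 1 ≤ n) (ek n 0) (ek n 0 + ek n 1)
      rw [hd0] at this; exact this)
    one_ne_zero
    (by rw [hbsum]; have := Fl.exact hu0 (1:ℝ); simpa using this)
    (by
      intro i
      exact ⟨_, Fl.exact hu0 _, by have := Fl.exact hu0 (ek n 0 i); simpa using this⟩)
    (by
      intro i
      by_cases hi : (i:ℕ) = 0
      · refine ⟨1 - g, ⟨-g, by rw [abs_neg, abs_of_pos hg0]; exact hgu, ?_⟩, ?_⟩
        · simp [ek, hi]; ring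
        · have := Fl.exact hu0 g
          simpa [ek, hi] using this
      · refine ⟨_, Fl.exact hu0 _, ?_⟩
        have : (g • ek n 0 - ek n 1) i = ek n 0 i - 1 * (ek n 0 + ek n 1) i := by
          simp [ek, hi]
        rw [this]; exact Fl.exact hu0 _)
    (by rw [hbsum, hρ1, div_one]; exact Fl.exact hu0 _)
    (by
      intro i
      refine ⟨_, Fl.exact hu0 _, ?_⟩
      have : ((1 + g + g^2) • ek n 0 - ek n 1) i =
          (g • ek n 0 - ek n 1) i + (1 + g^2) * ek n 0 i := by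
        simp; ring
      rw [this]; exact Fl.exact hu0 _)
    (by
      intro k hk1 hkn
      obtain ⟨c1, c2, _, _⟩ := bad_r hb hn hδ hδn hg hbad hk1 hkn
      constructor
      · rw [← norm_sq_vec]
        have : 0 < ‖vec (st A (ek n 0) (ek n 0) (g • ek n 0 - ek n 1)
          ((1 + g + g^2) • ek n 0 - ek n 1) k).2.1‖ := lt_of_lt_of_le (by norm_num) c2
        positivity
      · rw [← inner_vec, ← op_vec, op_Abad]
        exact c1.ne')
  obtain ⟨k, hkn, hk⟩ := hgood A (ek n 0) hpd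
    (fun i i' => cond_of hAs hc0 (by norm_num) hlo hhi (by
      refine le_trans (le_of_eq ?_) hκ
      congr 1
      have : δ = 1 / 2^j := by rw [hδdef, one_div, inv_pow, one_div]
      rw [this]
      field_simp
      norm_num) i i')
    (by
      intro h0
      rw [h0] at hbsum
      simp at hbsum)
    (fun i i' => rep_Abad hj1 ht1 i i')
    (fun i => by
      simp only [ek]
      split_ifs
      · exact rep_one (by omega)
      · exact rep_zero t)
    n _ _ _ _ _ _ _ _ le_rfl hrun (Or.inl rfl)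
  rw [eta, ← norm_vec, ← norm_vec, ← norm_vec] at hk
  have hbn' : ‖vec (ek n 0)‖ = 1 := hbn
  rw [hbn'] at hk
  have hden : 0 < ‖A‖ * ‖vec (st A (ek n 0) (ek n 0) (g • ek n 0 - ek n 1)
          ((1 + g + g^2) • ek n 0 - ek n 1) k).1‖ + 1 := by positivity
  rw [div_le_iff₀ hden] at hk
  rcases Nat.eq_zero_or_pos k with h0 | h0
  · subst h0
    have e1 : (st A (ek n 0) (ek n 0) (g • ek n 0 - ek n 1)
          ((1 + g + g^2) • ek n 0 - ek n 1) 0).1 = 0 := rfl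
    rw [e1, Matrix.mulVec_zero, sub_zero, hbn'] at hk
    have e2 : ‖vec (0 : Fin n → ℝ)‖ = 0 := by
      have : vec (0 : Fin n → ℝ) = 0 := rfl
      rw [this, norm_zero]
    rw [e2] at hk
    linarith
  · have h3 := bad_final hb hn hδ hδn hg hbad (ε := ε) hε h0 hkn
    have h4 : vec (ek n 0 - A.mulVec (st A (ek n 0) (ek n 0) (g • ek n 0 - ek n 1)
          ((1 + g + g^2) • ek n 0 - ek n 1) k).1) = ee n 0 - Aop n δ (ee n)
          (vec (st A (ek n 0) (ek n 0) (g • ek n 0 - ek n 1)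
          ((1 + g + g^2) • ek n 0 - ek n 1) k).1) := by
      rw [← op_Abad, op_vec]; rfl
    rw [h4] at hk
    have h5 : ‖A‖ ≤ 3 := norm_Abad_le hn hδ hδs
    have h6 : ε * (‖A‖ * ‖vec (st A (ek n 0) (ek n 0) (g • ek n 0 - ek n 1)
          ((1 + g + g^2) • ek n 0 - ek n 1) k).1‖ + 1) ≤
        ε * (3 * ‖vec (st A (ek n 0) (ek n 0) (g • ek n 0 - ek n 1)
          ((1 + g + g^2) • ek n 0 - ek n 1) k).1‖ + 1) := by gcongr
    linarith

end Pool.Agent.Helper643.CG
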