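import Mathlib
import Pool.Agent.Helper643.CGLowE

namespace Pool.Agent.Helper643.CG

open scoped Matrix.Norms.L2Operator InnerProductSpace ENNReal

variable {n : ℕ}

lemma l2_zero' : l2 (0 : Fin n → ℝ) = 0 := by simp [l2]

lemma l2_pos {b : Fin n → ℝ} (hb : b ≠ 0) : 0 < l2 b := by
  rw [← norm_vec, norm_pos_iff]
  intro h
  exact hb (congrArg WithLp.ofLp h)

lemma l2_smul (c : ℝ) (b : Fin n → ℝ) : l2 (c • b) = |c| * l2 b := by
  rw [← norm_vec, ← norm_vec]
  have : vec (c • b) = c • vec b := rfl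
  rw [this, norm_smul, Real.norm_eq_abs]

lemma eta_zero {A : Matrix (Fin n) (Fin n) ℝ} {b : Fin n → ℝ} (hb : b ≠ 0) : eta A b 0 = 1 := by
  rw [eta, Matrix.mulVec_zero, sub_zero, l2_zero', mul_zero, zero_add]
  exact div_self (l2_pos hb).ne'

lemma norm_one_le : ‖(1 : Matrix (Fin n) (Fin n) ℝ)‖ ≤ 1 := by
  apply opNorm_le (by norm_num)
  intro y
  obtain ⟨y, rfl⟩ : ∃ z, y = vec z := ⟨y.ofLp, rfl⟩
  rw [op_vec, Matrix.one_mulVec, one_mul]

lemma quad_one (y : EuclideanSpace ℝ (Fin n)) : ⟪y, op (1 : Matrix (Fin n) (Fin n) ℝ) y⟫_ℝ = ‖y‖^2 := by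
  obtain ⟨y, rfl⟩ : ∃ z, y = vec z := ⟨y.ofLp, rfl⟩
  rw [op_vec, Matrix.one_mulVec, real_inner_self_eq_norm_sq]

lemma FlInner_zero {u : ℝ} (hu : 0 ≤ u) {z : Fin n → ℝ} {v : ℝ}
    (h : FlInner u (0 : Fin n → ℝ) z v) : v = 0 := by
  have := (FlDot.err hu h).1
  simp at this
  exact this

lemma Fl_zero {u v : ℝ} (h : Fl u 0 v) : v = 0 := by
  obtain ⟨δ, _, h⟩ := h
  rw [h, zero_mul]

lemma FlQuad_zero {u : ℝ} (hu : 0 ≤ u) {A : Matrix (Fin n) (Fin n) ℝ} {v : ℝ}
    (h : FlQuad u A (0 : Fin n → ℝ) v) : v = 0 := by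
  obtain ⟨w, _, h2⟩ := h
  exact FlInner_zero hu h2

/-- A one-step run for the identity matrix: computed `A b` is `c b`, the computed solution is
`a b` and the residual vanishes. -/
theorem not_good_one (brk : Prop) {κ : ℝ≥0∞} {ε : ℝ} {t : ℕ} (hn : 1 ≤ n) (hκ : 1 ≤ κ)
    (hε1 : ε < 1) {b : Fin n → ℝ} (hb : b ≠ 0) (hbr : ∀ i, Rep t (b i)) (ht : 1 ≤ t) {a c : ℝ}
    (hc : c ≠ 0) (ha : 0 ≤ a)
    (hw : FlMulVec (1/2^t) (1 : Matrix (Fin n) (Fin n) ℝ) b (c • b))
    (hx : ∀ i, ∃ m, Fl (1/2^t) (c⁻¹ * b i) m ∧ Fl (1/2^t) (0 + m) ((a • b) i))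
    (hη : ε * (a + 1) < |1 - a|) : ¬ Good brk n κ ε t := by
  set u : ℝ := 1/2^t with hu
  have hu0 : 0 ≤ u := by positivity
  have hbs : 0 < ∑ i, b i * b i := by
    rw [← norm_sq_vec]
    have : 0 < ‖vec b‖ := by rw [norm_vec]; exact l2_pos hb
    positivity
  intro hgood
  have hdsum : ∑ i, b i * (c • b) i = c * ∑ i, b i * b i := by
    rw [Finset.mul_sum]
    exact Finset.sum_congr rfl fun i _ => by simp; ring
  obtain ⟨w, ρ, d, α, β, hrun⟩ := run_of (u := u) hu0 hn (A := 1) (b := b)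
    (x1 := a • b) (r1 := 0) (p1 := 0) (w0 := c • b) (d0 := c * ∑ i, b i * b i) (α0 := c⁻¹)
    (β0 := 0) (K := 1) hbs.ne' hw
    (by rw [← hdsum]; exact FlInner.exact hu0 hn _ _)
    (mul_ne_zero hc hbs.ne')
    (by
      have : (∑ i, b i * b i) / (c * ∑ i, b i * b i) = c⁻¹ := by
        generalize (∑ i, b i * b i) = s at hbs
        field_simp
      rw [this]; exact Fl.exact hu0 _)
    hx
    (by
      intro i
      refine ⟨_, Fl.exact hu0 _, ?_⟩
      have : b i - c⁻¹ * (c • b) i = 0 := by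
        simp only [Pi.smul_apply, smul_eq_mul]; field_simp; ring
      rw [this]; exact Fl.exact hu0 _)
    (by simp only [Pi.zero_apply, mul_zero, Finset.sum_const_zero, zero_div]; exact Fl.exact hu0 _)
    (by
      intro i
      refine ⟨_, Fl.exact hu0 _, ?_⟩
      simp only [Pi.zero_apply, zero_mul, add_zero]; exact Fl.exact hu0 _)
    (by intro k h1 h2; omega)
  have hAs : (1 : Matrix (Fin n) (Fin n) ℝ).IsHermitian := Matrix.isHermitian_one
  have hlo : ∀ y : EuclideanSpace ℝ (Fin n), 1 * ‖y‖^2 ≤ ⟪y, op (1 : Matrix (Fin n) (Fin n) ℝ) y⟫_ℝ := by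
    intro y; rw [quad_one, one_mul]
  have hhi : ∀ y : EuclideanSpace ℝ (Fin n), ⟪y, op (1 : Matrix (Fin n) (Fin n) ℝ) y⟫_ℝ ≤ 1 * ‖y‖^2 := by
    intro y; rw [quad_one, one_mul]
  have hpd := posDef_of hAs one_pos hlo
  obtain ⟨k, hk1, hk⟩ := hgood 1 b hpd
    (fun i j => cond_of hAs one_pos (by norm_num) hlo hhi (by simpa using hκ) i j) hb
    (by
      intro i j
      rw [Matrix.one_apply]
      split_ifs
      · exact rep_one ht
      · exact rep_zero t)
    hbr 1 _ _ _ _ _ _ _ _ hn hrun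
    (Or.inr (Or.inr (fun d hd => FlQuad_zero hu0 hd)))
  have hk2 : k = 0 ∨ k = 1 := by omega
  rcases hk2 with h0 | h0
  · subst h0
    have e1 : (st (1 : Matrix (Fin n) (Fin n) ℝ) b (a • b) 0 0 0).1 = 0 := rfl
    rw [e1, eta_zero hb] at hk
    linarith
  · subst h0
    have e1 : (st (1 : Matrix (Fin n) (Fin n) ℝ) b (a • b) 0 0 1).1 = a • b := rfl
    rw [e1, eta, Matrix.one_mulVec] at hk
    have e2 : b - a • b = (1 - a) • b := by rw [sub_smul, one_smul]
    rw [e2, l2_smul, l2_smul, abs_of_nonneg ha] at hk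
    have hbp := l2_pos hb
    have hden : 0 < ‖(1 : Matrix (Fin n) (Fin n) ℝ)‖ * (a * l2 b) + l2 b := by positivity
    rw [div_le_iff₀ hden] at hk
    have h3 := norm_one_le (n := n)
    rcases le_or_gt 0 ε with hε | hε
    · have h4 : ε * (‖(1 : Matrix (Fin n) (Fin n) ℝ)‖ * (a * l2 b) + l2 b) ≤
          ε * (1 * (a * l2 b) + l2 b) := by gcongr
      have h5 : ε * (1 * (a * l2 b) + l2 b) = (ε * (a + 1)) * l2 b := by ring
      have h6 : (ε * (a + 1)) * l2 b < |1 - a| * l2 b := by gcongr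
      linarith
    · have h4 : ε * (‖(1 : Matrix (Fin n) (Fin n) ℝ)‖ * (a * l2 b) + l2 b) < 0 :=
        mul_neg_of_neg_of_pos hε hden
      have h5 : 0 ≤ |1 - a| * l2 b := by positivity
      linarith

/-- `t` must be of order `log (1/ε)`. -/
theorem not_good_eps (brk : Prop) {κ : ℝ≥0∞} {ε : ℝ} {t : ℕ} (hn : 1 ≤ n) (hκ : 1 ≤ κ)
    (hε0 : 0 < ε) (ht : 1 ≤ t) (h : 3 * ε * 2^t ≤ 1) : ¬ Good brk n κ ε t := by
  have hu0 : (0:ℝ) < 1/2^t := by positivity
  have hu1 : (1:ℝ)/2^t ≤ 1/2 := by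
    apply one_div_le_one_div_of_le (by norm_num)
    calc (2:ℝ) = 2^1 := by norm_num
      _ ≤ 2^t := pow_le_pow_right₀ (by norm_num) ht
  have h3 : 3 * ε ≤ 1/2^t := by
    rw [le_div_iff₀ (by positivity)]; exact h
  have hε1 : ε < 1 := by linarith
  have hb : ek n 0 ≠ 0 := by
    intro h0
    have := congrFun h0 ⟨0, hn⟩
    simp [ek] at this
  refine not_good_one brk hn hκ hε1 hb ?_ ht (a := 1 + 1/2^t) (c := 1) one_ne_zero
    (by positivity) ?_ ?_ ?_
  · intro i
    simp only [ek]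
    split_ifs
    · exact rep_one ht
    · exact rep_zero t
  · have := FlMulVec.exact hu0.le hn (1 : Matrix (Fin n) (Fin n) ℝ) (ek n 0)
    rw [Matrix.one_mulVec] at this
    rw [one_smul]; exact this
  · intro i
    refine ⟨_, Fl.exact hu0.le _, 1/2^t, by rw [abs_of_pos hu0], ?_⟩
    simp only [Pi.smul_apply, smul_eq_mul]
    ring
  · have e1 : |1 - (1 + 1/2^t)| = (1:ℝ)/2^t := by
      have : (1:ℝ) - (1 + 1/2^t) = -(1/2^t) := by ring
      rw [this, abs_neg, abs_of_pos hu0]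
    rw [e1]
    nlinarith

/-- `t` must be of order `log n`. -/
theorem not_good_n (brk : Prop) {κ : ℝ≥0∞} {ε : ℝ} {t : ℕ} (hn : 1 ≤ n) (hκ : 1 ≤ κ)
    (hε : ε ≤ 1/2) (ht : 1 ≤ t) (h : 2 * 2^t ≤ (n:ℝ)) : ¬ Good brk n κ ε t := by
  set u : ℝ := 1/2^t with hu
  have hu0 : 0 < u := by positivity
  have hu1 : u ≤ 1/2 := by
    apply one_div_le_one_div_of_le (by norm_num)
    calc (2:ℝ) = 2^1 := by norm_num
      _ ≤ 2^t := pow_le_pow_right₀ (by norm_num) ht
  have hun : 2 ≤ n * u := by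
    rw [hu, mul_one_div, le_div_iff₀ (by positivity)]; exact h
  have hn0 : (0:ℝ) < n := by exact_mod_cast hn
  -- the rounding error
  set q : ℝ := (1/4 : ℝ)^((1:ℝ)/n) with hq
  have hq0 : 0 < q := by positivity
  have hqn : q^n = 1/4 := by
    rw [hq, ← Real.rpow_natCast, ← Real.rpow_mul (by norm_num)]
    have : (1:ℝ)/n * n = 1 := by field_simp
    rw [this, Real.rpow_one]
  have hq1 : q ≤ 1 := by
    apply Real.rpow_le_one (by norm_num) (by norm_num) (by positivity)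
  have hq2 : 1 - u ≤ q := by
    by_contra hcon
    push Not at hcon
    have h1 : q^n < (1 - u)^n := pow_lt_pow_left₀ hcon hq0.le (by omega)
    have h2 : (1 - u)^n ≤ Real.exp (-u)^n := by
      have : 1 - u ≤ Real.exp (-u) := by have := Real.add_one_le_exp (-u); linarith
      exact pow_le_pow_left₀ (by linarith) this n
    have h3 : Real.exp (-u)^n = Real.exp (-(n * u)) := by
      rw [← Real.exp_nat_mul]; congr 1; ring
    have h4 : Real.exp (-(n * u)) ≤ Real.exp (-2) := Real.exp_le_exp.2 (by linarith)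
    have h5 : Real.exp (-2) ≤ 1/4 := by
      rw [Real.exp_neg, ← one_div]
      apply one_div_le_one_div_of_le (by norm_num)
      have h6 : Real.exp 2 = Real.exp 1 * Real.exp 1 := by rw [← Real.exp_add]; norm_num
      have h7 : 2 ≤ Real.exp 1 := by have := Real.add_one_le_exp (1:ℝ); linarith
      rw [h6]; nlinarith
    rw [hqn] at h1
    linarith
  have hqd : |q - 1| ≤ u := by rw [abs_le]; constructor <;> linarith
  have hb : (fun _ : Fin n => (1:ℝ)) ≠ 0 := by
    intro h0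
    have := congrFun h0 ⟨0, hn⟩
    simp at this
  refine not_good_one brk hn hκ (by linarith) hb (fun i => rep_one ht) ht (a := 4) (c := 1/4)
    (by norm_num) (by norm_num) ?_ ?_ ?_
  · intro i
    -- computed inner product
    have key : ∀ T : Finset (Fin n), i ∉ T →
        FlDot u ((1 : Matrix (Fin n) (Fin n) ℝ) i) (fun _ : Fin n => (1:ℝ)) ({i} ∪ T)
          (q^(T.card + 1)) := by
      intro T
      induction T using Finset.induction_on with
      | empty =>
        intro _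
        rw [Finset.union_empty, Finset.card_empty]
        refine FlDot.leaf i _ ⟨q - 1, hqd, ?_⟩
        rw [Matrix.one_apply_eq]; ring
      | insert a T ha ih =>
        intro hi
        rw [Finset.mem_insert, not_or] at hi
        have e1 : {i} ∪ insert a T = ({i} ∪ T) ∪ {a} := by
          ext x; simp; tauto
        rw [e1, Finset.card_insert_of_notMem ha]
        refine FlDot.node ({i} ∪ T) {a} (q^(T.card + 1)) 0 _ ?_ (ih hi.2) ?_ ⟨q - 1, hqd, ?_⟩
        · rw [Finset.disjoint_singleton_right, Finset.mem_union, Finset.mem_singleton, not_or]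
          exact ⟨fun h => hi.1 h.symm, ha⟩
        · refine FlDot.leaf a _ ⟨0, by simpa using hu0.le, ?_⟩
          rw [Matrix.one_apply_ne hi.1]; ring
        · ring
    have h1 := key (Finset.univ.erase i) (Finset.notMem_erase i _)
    have e1 : {i} ∪ Finset.univ.erase i = (Finset.univ : Finset (Fin n)) := by
      ext x; simp
    have e2 : (Finset.univ.erase i).card + 1 = n := by
      rw [Finset.card_erase_of_mem (Finset.mem_univ i), Finset.card_univ, Fintype.card_fin]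
      omega
    rw [e1, e2, hqn] at h1
    have e3 : ((1/4 : ℝ) • (fun _ : Fin n => (1:ℝ))) i = 1/4 := by simp
    rw [e3]
    exact h1
  · intro i
    refine ⟨4, ?_, ?_⟩
    · show Fl u ((1/4:ℝ)⁻¹ * 1) 4
      have e1 : (1/4:ℝ)⁻¹ * 1 = 4 := by norm_num
      rw [e1]; exact Fl.exact hu0.le _
    · show Fl u (0 + 4) (4 * 1)
      have e1 : (0:ℝ) + 4 = 4 * 1 := by norm_num
      rw [e1]; exact Fl.exact hu0.le _
  · norm_num; linarith

end Pool.Agent.Helper643.CG
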