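import Mathlib
import Pool.Agent.Helper643.CGLowF

namespace Pool.Agent.Helper643.CG

open scoped Matrix.Norms.L2Operator InnerProductSpace ENNReal

variable {n : ℕ}

/-- The matrix used for the breakdown reading. -/
noncomputable def Abrk (n : ℕ) (τ : ℝ) : Matrix (Fin n) (Fin n) ℝ := fun i j =>
  if i = j then (if (i:ℕ) = 1 then 1 + τ else 1)
  else if ((i:ℕ) = 0 ∧ (j:ℕ) = 1) ∨ ((i:ℕ) = 1 ∧ (j:ℕ) = 0) then -1 else 0

lemma Abrk_symm (n : ℕ) (τ : ℝ) : (Abrk n τ).IsHermitian := by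
  ext i j
  simp only [Matrix.conjTranspose_apply, star_trivial, Abrk]
  by_cases h : i = j
  · subst h; rfl
  · rw [if_neg h, if_neg (fun h' => h h'.symm)]
    congr 1
    apply propext
    tauto

lemma Abrk_mulVec (hn : 2 ≤ n) (τ : ℝ) (y : Fin n → ℝ) (i : Fin n) :
    (Abrk n τ).mulVec y i = (if (i:ℕ) = 1 then 1 + τ else 1) * y i -
      (if (i:ℕ) = 0 then y ⟨1, hn⟩ else if (i:ℕ) = 1 then y ⟨0, by omega⟩ else 0) := by
  have e1 : ∀ j, Abrk n τ i j * y j =
      (if j = i then (if (i:ℕ) = 1 then 1 + τ else 1) * y i else 0) +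
      (if j = ⟨1, hn⟩ then (if (i:ℕ) = 0 then - y ⟨1, hn⟩ else 0) else 0) +
      (if j = ⟨0, by omega⟩ then (if (i:ℕ) = 1 then - y ⟨0, by omega⟩ else 0) else 0) := by
    intro j
    simp only [Abrk]
    by_cases h : i = j
    · subst h
      simp only [if_true, Fin.ext_iff]
      by_cases h1 : (i:ℕ) = 1
      · simp [h1]
      · by_cases h0 : (i:ℕ) = 0
        · simp [h0]
        · simp [h1, h0]
    · rw [if_neg h, if_neg (fun h' : j = i => h h'.symm)]
      simp only [Fin.ext_iff] at h ⊢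
      by_cases h1 : (j:ℕ) = 1
      · have : j = ⟨1, hn⟩ := Fin.ext h1
        by_cases h0 : (i:ℕ) = 0
        · simp [h1, h0, ← this]
        · have : ¬ (i:ℕ) = 1 := by omega
          simp [h1, h0, this]
      · by_cases h2 : (j:ℕ) = 0
        · have : j = ⟨0, by omega⟩ := Fin.ext h2
          by_cases h0 : (i:ℕ) = 1
          · simp [h2, h0, ← this]
          · simp [h2, h0]
        · simp [h1, h2]
  show ∑ j, Abrk n τ i j * y j = _
  rw [Finset.sum_congr rfl fun j _ => e1 j, Finset.sum_add_distrib, Finset.sum_add_distrib,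
    Finset.sum_ite_eq', Finset.sum_ite_eq', Finset.sum_ite_eq']
  simp only [Finset.mem_univ, if_true]
  by_cases h0 : (i:ℕ) = 0
  · simp [h0]; ring
  · by_cases h1 : (i:ℕ) = 1
    · simp [h1]; ring
    · simp [h0, h1]

lemma sum_split {f : Fin n → ℝ} (hn : 2 ≤ n) :
    ∑ i, f i = f ⟨0, by omega⟩ + f ⟨1, hn⟩ + ∑ i ∈ Finset.univ.filter (fun i : Fin n => 2 ≤ (i:ℕ)), f i := by
  have h1 : (Finset.univ : Finset (Fin n)) =
      insert ⟨0, by omega⟩ (insert ⟨1, hn⟩ (Finset.univ.filter (fun i : Fin n => 2 ≤ (i:ℕ)))) := by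
    ext i
    simp only [Finset.mem_univ, Finset.mem_insert, Finset.mem_filter, true_and, Fin.ext_iff,
      true_iff]
    omega
  conv_lhs => rw [h1]
  rw [Finset.sum_insert, Finset.sum_insert]
  · ring
  · simp
  · simp [Fin.ext_iff]

lemma quad_Abrk (hn : 2 ≤ n) (τ : ℝ) (y : Fin n → ℝ) :
    ⟪vec y, op (Abrk n τ) (vec y)⟫_ℝ = (y ⟨0, by omega⟩ - y ⟨1, hn⟩)^2 + τ * y ⟨1, hn⟩^2 +
      ∑ i ∈ Finset.univ.filter (fun i : Fin n => 2 ≤ (i:ℕ)), y i^2 := by
  rw [op_vec, inner_vec, sum_split hn]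
  have h1 : ∑ i ∈ Finset.univ.filter (fun i : Fin n => 2 ≤ (i:ℕ)), y i * (Abrk n τ).mulVec y i =
      ∑ i ∈ Finset.univ.filter (fun i : Fin n => 2 ≤ (i:ℕ)), y i^2 := by
    apply Finset.sum_congr rfl
    intro i hi
    rw [Finset.mem_filter] at hi
    rw [Abrk_mulVec hn, if_neg (by omega), if_neg (by omega), if_neg (by omega)]
    ring
  rw [h1, Abrk_mulVec hn, Abrk_mulVec hn]
  simp
  ring

lemma norm_sq_split (hn : 2 ≤ n) (y : Fin n → ℝ) :
    ‖vec y‖^2 = y ⟨0, by omega⟩^2 + y ⟨1, hn⟩^2 +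
      ∑ i ∈ Finset.univ.filter (fun i : Fin n => 2 ≤ (i:ℕ)), y i^2 := by
  rw [norm_sq_vec, sum_split hn]
  simp only [pow_two]

lemma quad_Abrk_ge (hn : 2 ≤ n) {τ : ℝ} (hτ : 0 < τ) (hτ1 : τ ≤ 1)
    (y : EuclideanSpace ℝ (Fin n)) : τ / 3 * ‖y‖^2 ≤ ⟪y, op (Abrk n τ) y⟫_ℝ := by
  obtain ⟨y, rfl⟩ : ∃ z, y = vec z := ⟨y.ofLp, rfl⟩
  rw [quad_Abrk hn, norm_sq_split hn]
  set s := ∑ i ∈ Finset.univ.filter (fun i : Fin n => 2 ≤ (i:ℕ)), y i^2 with hs
  have hs0 : 0 ≤ s := Finset.sum_nonneg fun _ _ => sq_nonneg _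
  set a := y ⟨0, by omega⟩
  set b := y ⟨1, hn⟩
  have h1 : τ / 3 * s ≤ 1 * s := by gcongr; linarith
  have h2 : a^2 ≤ 2 * (a - b)^2 + 2 * b^2 := by nlinarith [sq_nonneg (a - 2 * b)]
  have h3 : τ / 3 * a^2 ≤ τ / 3 * (2 * (a - b)^2 + 2 * b^2) := by gcongr
  have h4 : τ * (a - b)^2 ≤ 1 * (a - b)^2 := by gcongr
  nlinarith [sq_nonneg (a - b)]

lemma quad_Abrk_le (hn : 2 ≤ n) {τ : ℝ} (hτ : 0 < τ) (hτ1 : τ ≤ 1)
    (y : EuclideanSpace ℝ (Fin n)) : ⟪y, op (Abrk n τ) y⟫_ℝ ≤ 3 * ‖y‖^2 := by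
  obtain ⟨y, rfl⟩ : ∃ z, y = vec z := ⟨y.ofLp, rfl⟩
  rw [quad_Abrk hn, norm_sq_split hn]
  set s := ∑ i ∈ Finset.univ.filter (fun i : Fin n => 2 ≤ (i:ℕ)), y i^2 with hs
  have hs0 : 0 ≤ s := Finset.sum_nonneg fun _ _ => sq_nonneg _
  set a := y ⟨0, by omega⟩
  set b := y ⟨1, hn⟩
  have h4 : τ * b^2 ≤ 1 * b^2 := by gcongr
  nlinarith [sq_nonneg (a + b)]

lemma rep_Abrk {t : ℕ} (ht : 1 ≤ t) (i j : Fin n) : Rep t (Abrk n (2 * (1/2^t)) i j) := by
  simp only [Abrk]
  split_ifs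
  · -- 1 + 2/2^t
    rcases Nat.lt_or_ge 1 t with h1 | h1
    · obtain ⟨s, rfl⟩ : ∃ s, t = s + 1 := ⟨t - 1, by omega⟩
      refine ⟨2^s + 1, -(s:ℤ), ?_, ?_⟩
      · rw [abs_of_pos (by positivity)]
        have : (2:ℤ)^1 ≤ 2^s := pow_le_pow_right₀ (by norm_num) (by omega)
        rw [pow_succ]; linarith
      · rw [zpow_neg, zpow_natCast, pow_succ]
        push_cast
        field_simp
    · have : t = 1 := by omega
      subst this
      exact ⟨1, 1, by norm_num, by norm_num⟩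
  · exact rep_one ht
  · exact ⟨-1, 0, by rw [abs_neg, abs_one]; exact one_lt_pow₀ (by norm_num) (by omega), by simp⟩
  · exact rep_zero t

theorem not_good_brk {κ : ℝ≥0∞} {ε : ℝ} {t : ℕ} (hn : 2 ≤ n) (hε : ε < 1) (ht : 1 ≤ t)
    (hκ : ENNReal.ofReal (9 * 2^t) ≤ κ) : ¬ Good True n κ ε t := by
  set u : ℝ := 1/2^t with hu
  have hu0 : 0 < u := by positivity
  have hu1 : u ≤ 1/2 := by
    apply one_div_le_one_div_of_le (by norm_num)
    calc (2:ℝ) = 2^1 := by norm_num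
      _ ≤ 2^t := pow_le_pow_right₀ (by norm_num) ht
  set τ := 2 * u with hτ
  have hτ0 : 0 < τ := by positivity
  have hτ1 : τ ≤ 1 := by linarith
  intro hgood
  set A := Abrk n τ with hA
  set b : Fin n → ℝ := ek n 0 + ek n 1 with hb
  have hb0 : b ⟨0, by omega⟩ = 1 := by simp [hb, ek]
  have hb1 : b ⟨1, hn⟩ = 1 := by simp [hb, ek]
  have hbi : ∀ i : Fin n, 2 ≤ (i:ℕ) → b i = 0 := by
    intro i hi
    have h1 : ¬ (i:ℕ) = 0 := by omega
    have h2 : ¬ (i:ℕ) = 1 := by omega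
    simp [hb, ek, h1, h2]
  have hbn : b ≠ 0 := by
    intro h0
    rw [h0] at hb0
    simp at hb0
  have hAs : A.IsHermitian := Abrk_symm n τ
  have hc0 : 0 < τ / 3 := by positivity
  have hlo := quad_Abrk_ge hn hτ0 hτ1
  have hhi := quad_Abrk_le hn hτ0 hτ1
  have hpd : A.PosDef := posDef_of hAs hc0 hlo
  have hw : FlMulVec u A b 0 := by
    intro i
    by_cases h1 : (i:ℕ) = 1
    · -- the rounded row
      have hi : i = ⟨1, hn⟩ := Fin.ext h1
      have l0 : FlDot u (A i) b {⟨0, by omega⟩} (-(1+u)) := by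
        refine FlDot.leaf _ _ ⟨u, by rw [abs_of_pos hu0], ?_⟩
        rw [hb0, hA, Abrk, hi]
        simp
      have l1 : FlDot u (A i) b {⟨1, hn⟩} (1+u) := by
        refine FlDot.leaf _ _ ⟨(1 + u) / (1 + τ) - 1, ?_, ?_⟩
        · have e1 : (1 + u) / (1 + τ) - 1 = -(u / (1 + τ)) := by
            rw [hτ]; field_simp; ring
          rw [e1, abs_neg, abs_of_pos (by positivity)]
          rw [div_le_iff₀ (by positivity)]
          nlinarith
        · rw [hb1, hA, Abrk, hi]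
          simp
          field_simp
      have l01 : FlDot u (A i) b ({⟨0, by omega⟩} ∪ {⟨1, hn⟩}) 0 := by
        refine FlDot.node _ _ _ _ _ (by simp [Fin.ext_iff]) l0 l1 ?_
        have : -(1+u) + (1+u) = 0 := by ring
        rw [this]; exact Fl.exact hu0.le _
      have huniv : (Finset.univ : Finset (Fin n)) = ({⟨0, by omega⟩} ∪ {⟨1, hn⟩}) ∪
          Finset.univ.filter (fun i : Fin n => 2 ≤ (i:ℕ)) := by
        ext i
        simp only [Finset.mem_univ, Finset.mem_union, Finset.mem_singleton, Finset.mem_filter,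
          true_and, Fin.ext_iff, true_iff]
        omega
      show FlDot u (A i) b Finset.univ 0
      rw [huniv]
      rcases Finset.eq_empty_or_nonempty (Finset.univ.filter (fun i : Fin n => 2 ≤ (i:ℕ))) with
        h2 | h2
      · rw [h2, Finset.union_empty]; exact l01
      · have l2 := FlDot.exact hu0.le (A i) b h2
        have e1 : ∑ j ∈ Finset.univ.filter (fun i : Fin n => 2 ≤ (i:ℕ)), A i j * b j = 0 := by
          apply Finset.sum_eq_zero
          intro j hj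
          rw [Finset.mem_filter] at hj
          rw [hbi j hj.2, mul_zero]
        rw [e1] at l2
        refine FlDot.node _ _ _ _ _ ?_ l01 l2 ?_
        · rw [Finset.disjoint_left]
          intro j hj hj'
          simp only [Finset.mem_union, Finset.mem_singleton, Finset.mem_filter, Finset.mem_univ,
            true_and, Fin.ext_iff] at hj hj'
          omega
        · rw [add_zero]; exact Fl.exact hu0.le _
    · have h2 := FlMulVec.exact hu0.le (by omega : 1 ≤ n) A b i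
      have e1 : A.mulVec b i = 0 := by
        rw [hA, Abrk_mulVec hn, if_neg h1, if_neg h1, hb1]
        by_cases h0 : (i:ℕ) = 0
        · rw [if_pos h0]
          have : i = ⟨0, by omega⟩ := Fin.ext h0
          rw [this, hb0]; ring
        · rw [if_neg h0, hbi i (by omega)]; ring
      rw [e1] at h2
      exact h2
  have hd : FlInner u b 0 0 := by
    have := FlInner.exact hu0.le (by omega : 1 ≤ n) b 0
    simpa using this
  have hrun : Run u A b 0 (fun _ => 0) (fun _ => b) (fun _ => b) (fun _ => 0)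
      (fun _ => ∑ i, b i * b i) (fun _ => 0) (fun _ => 0) (fun _ => 0) := by
    constructor
    · rfl
    · rfl
    · rfl
    · intro k _; exact FlInner.exact hu0.le (by omega) _ _
    all_goals (intro k hk; exact absurd hk (Nat.not_lt_zero k))
  obtain ⟨k, hk1, hk⟩ := hgood A b hpd
    (fun i i' => cond_of hAs hc0 (by norm_num) hlo hhi (by
      refine le_trans (ENNReal.ofReal_le_ofReal ?_) hκ
      rw [div_le_iff₀ hc0, hτ, hu]
      have : (0:ℝ) < 2^t := by positivity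
      field_simp
      norm_num) i i')
    hbn (fun i j => rep_Abrk ht i j)
    (by
      intro i
      by_cases h0 : (i:ℕ) = 0
      · have : i = ⟨0, by omega⟩ := Fin.ext h0
        rw [this, hb0]; exact rep_one ht
      · by_cases h1 : (i:ℕ) = 1
        · have : i = ⟨1, hn⟩ := Fin.ext h1
          rw [this, hb1]; exact rep_one ht
        · rw [hbi i (by omega)]; exact rep_zero t)
    0 _ _ _ _ _ _ _ _ (Nat.zero_le n) hrun (Or.inr (Or.inl ⟨trivial, 0, hw, hd⟩))
  rw [eta_zero hbn] at hk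
  linarith

end Pool.Agent.Helper643.CG
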