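import Mathlib
import Pool.Agent.Helper643.CGLowG
import Pool.Agent.Helper643.CGGood

namespace Pool.Agent.Helper643.CG

open scoped ENNReal
open Real (logb)

variable {n : ℕ} {brk : Prop} {κ : ℝ≥0∞} {ε : ℝ}

/-- The effective condition number `min (κ, 1/ε)`. -/
noncomputable def mcond (κ : ℝ≥0∞) (ε : ℝ) : ℝ := (min κ (ENNReal.ofReal (1 / ε))).toReal

lemma tstar_le_of {X C : ℝ} (hX : 0 ≤ X) (hC : X + 1 ≤ C)
    (h : ∀ t : ℕ, 1 ≤ t → X ≤ t → Good brk n κ ε t) :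
    (tstar brk n κ ε : ℝ≥0∞) ≤ ENNReal.ofReal C := by
  set t := max ⌈X⌉₊ 1 with ht
  have h1 : Good brk n κ ε t := h t (le_max_right _ _) ((Nat.le_ceil X).trans (by
    exact_mod_cast le_max_left _ _))
  have h2 : tstar brk n κ ε ≤ t := iInf₂_le t ⟨le_max_right _ _, h1⟩
  have h3 : (t:ℝ) ≤ C := by
    rw [ht]
    push_cast
    apply max_le
    · exact (Nat.ceil_lt_add_one hX).le.trans hC
    · linarith
  calc (tstar brk n κ ε : ℝ≥0∞) ≤ ((t : ℕ∞) : ℝ≥0∞) := by exact_mod_cast h2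
    _ = ENNReal.ofReal t := by simp
    _ ≤ _ := ENNReal.ofReal_le_ofReal h3

lemma le_tstar_of {X : ℝ} (h : ∀ t : ℕ, 1 ≤ t → (t:ℝ) < X → ¬ Good brk n κ ε t) :
    ENNReal.ofReal X ≤ (tstar brk n κ ε : ℝ≥0∞) := by
  have h1 : ((⌈X⌉₊ : ℕ) : ℕ∞) ≤ tstar brk n κ ε := by
    refine le_iInf₂ fun t ht => ?_
    have h2 : X ≤ t := by
      by_contra hcon
      push Not at hcon
      exact h t ht.1 hcon ht.2
    exact_mod_cast Nat.ceil_le.2 h2
  calc ENNReal.ofReal X ≤ ENNReal.ofReal (⌈X⌉₊ : ℝ) := ENNReal.ofReal_le_ofReal (Nat.le_ceil X)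
    _ = (((⌈X⌉₊ : ℕ) : ℕ∞) : ℝ≥0∞) := by simp
    _ ≤ _ := by exact_mod_cast h1

lemma pow_ge_of_logb_le {Y : ℝ} (hY : 0 < Y) {t : ℕ} (h : logb 2 Y ≤ t) : Y ≤ 2^t := by
  rw [Real.logb_le_iff_le_rpow (by norm_num) hY, Real.rpow_natCast] at h
  exact h

lemma lt_of_logb {Y : ℝ} (hY : 0 < Y) {t : ℕ} (h : Y < 2^t) : logb 2 Y < t := by
  rw [Real.logb_lt_iff_lt_rpow (by norm_num) hY, Real.rpow_natCast]
  exact h

/-- Facts on `mcond`. -/
lemma mcond_facts (hκ : 2 ≤ κ) (hε0 : 0 < ε) (hε : ε ≤ 1/2) :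
    2 ≤ mcond κ ε ∧ mcond κ ε ≤ 1/ε ∧ ENNReal.ofReal (mcond κ ε) ≤ κ ∧
    (mcond κ ε = 1/ε ∨ κ = ENNReal.ofReal (mcond κ ε)) := by
  have h1 : (2:ℝ) ≤ 1/ε := by rw [le_div_iff₀ hε0]; linarith
  have hne : min κ (ENNReal.ofReal (1/ε)) ≠ ⊤ :=
    ne_top_of_le_ne_top ENNReal.ofReal_ne_top (min_le_right _ _)
  have h2 : ENNReal.ofReal (mcond κ ε) = min κ (ENNReal.ofReal (1/ε)) := ENNReal.ofReal_toReal hne
  refine ⟨?_, ?_, ?_, ?_⟩
  · rw [mcond]
    refine (ENNReal.ofReal_le_iff_le_toReal hne).1 (le_min ?_ (ENNReal.ofReal_le_ofReal h1))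
    simpa using hκ
  · rw [mcond]
    refine ENNReal.toReal_le_of_le_ofReal (by positivity) (min_le_right _ _)
  · rw [h2]; exact min_le_left _ _
  · rcases le_total κ (ENNReal.ofReal (1/ε)) with h | h
    · right; rw [h2, min_eq_left h]
    · left; rw [mcond, min_eq_right h, ENNReal.toReal_ofReal (by positivity)]

lemma one_le_logb {Y : ℝ} (hY : 2 ≤ Y) : 1 ≤ logb 2 Y := by
  rw [Real.le_logb_iff_rpow_le (by norm_num) (by linarith), Real.rpow_one]
  exact hY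

/-- Numerical part of the upper bound. -/
lemma num_upper {m F : ℝ} (hn : 2 ≤ n) (hm : 2 ≤ m) (hε0 : 0 < ε) (hε : ε ≤ 1/2) (hF : 1 ≤ F) {t : ℕ}
    (ht : ((n:ℝ) * m)^(122 * n) * (1/ε)^2 * F ≤ 2^t) :
    400000 * ((5 * (2 * (n:ℝ)^2 * (1/2^t))) * (4000 * n * (200 * m^6)^7)^(n+1)) ≤ ε^2 ∧
      2 * (n:ℝ)^2 * (1/2^t) ≤ 1/10 ∧ 3 * (2 * (n:ℝ)^2 * (1/2^t)) * F < 1 := by
  have h2 : (2:ℝ) ≤ n := by exact_mod_cast hn
  set N : ℝ := n * m with hN
  have hN4 : 4 ≤ N := by rw [hN]; nlinarith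
  have hN1 : 1 ≤ N := by linarith
  have hnN : (n:ℝ) ≤ N := by rw [hN]; nlinarith
  have hmN : m ≤ N := by rw [hN]; nlinarith
  have hn2 : (n:ℝ)^2 ≤ N^2 := by gcongr
  have a1 : (4000000:ℝ) ≤ N^11 := by
    calc (4000000:ℝ) ≤ 4^11 := by norm_num
      _ ≤ N^11 := by gcongr
  have a2 : (4000:ℝ) ≤ N^6 := by
    calc (4000:ℝ) ≤ 4^6 := by norm_num
      _ ≤ N^6 := by gcongr
  have a3 : (200:ℝ) ≤ N^4 := by
    calc (200:ℝ) ≤ 4^4 := by norm_num
      _ ≤ N^4 := by gcongr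
  have a4 : 4000 * n * (200 * m^6)^7 ≤ N^77 := by
    calc 4000 * n * (200 * m^6)^7 ≤ N^6 * N * (N^4 * N^6)^7 := by gcongr
      _ = N^77 := by ring
  have a5 : 4000000 * (n:ℝ)^2 * (4000 * n * (200 * m^6)^7)^(n+1) ≤ N^(122 * n) := by
    calc 4000000 * (n:ℝ)^2 * (4000 * n * (200 * m^6)^7)^(n+1) ≤ N^11 * N^2 * (N^77)^(n+1) := by
          gcongr
      _ = N^(11 + 2 + 77 * (n+1)) := by rw [← pow_mul, pow_add, pow_add]
      _ ≤ N^(122 * n) := by
          apply pow_le_pow_right₀ hN1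
          omega
  have hT : (0:ℝ) < 2^t := by positivity
  have hε1 : 1 ≤ (1/ε)^2 := by
    apply one_le_pow₀
    rw [le_div_iff₀ hε0]; linarith
  have hNn0 : 0 < N^(122 * n) := by positivity
  have b1 : N^(122*n) * (1/ε)^2 ≤ 2^t := by
    refine le_trans ?_ ht
    have : 0 ≤ N^(122*n) * (1/ε)^2 := by positivity
    nlinarith
  have b2 : N^(122*n) * F ≤ 2^t := by
    refine le_trans ?_ ht
    have : N^(122*n) * 1 * F ≤ N^(122*n) * (1/ε)^2 * F := by gcongr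
    linarith
  have b3 : N^(122*n) ≤ 2^t := by nlinarith
  refine ⟨?_, ?_, ?_⟩
  · have e1 : 400000 * ((5 * (2 * (n:ℝ)^2 * (1/2^t))) * (4000 * n * (200 * m^6)^7)^(n+1)) =
        (4000000 * (n:ℝ)^2 * (4000 * n * (200 * m^6)^7)^(n+1)) / 2^t := by ring
    rw [e1, div_le_iff₀ hT]
    calc _ ≤ N^(122*n) := a5
      _ = ε^2 * (N^(122*n) * (1/ε)^2) := by field_simp
      _ ≤ ε^2 * 2^t := by gcongr
  · have e1 : 2 * (n:ℝ)^2 * (1/2^t) = (2 * (n:ℝ)^2) / 2^t := by ring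
    rw [e1, div_le_iff₀ hT]
    have c1 : (20:ℝ) * n^2 ≤ N^(122*n) := by
      calc (20:ℝ) * n^2 ≤ N^3 * N^2 := by
            have : (20:ℝ) ≤ N^3 := by
              calc (20:ℝ) ≤ 4^3 := by norm_num
                _ ≤ N^3 := by gcongr
            gcongr
        _ = N^5 := by ring
        _ ≤ N^(122*n) := pow_le_pow_right₀ hN1 (by omega)
    linarith
  · have e1 : 3 * (2 * (n:ℝ)^2 * (1/2^t)) * F = (6 * (n:ℝ)^2 * F) / 2^t := by ring
    rw [e1, div_lt_one hT]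
    have c1 : (6:ℝ) * n^2 < N^(122*n) := by
      calc (6:ℝ) * n^2 < 20 * n^2 := by nlinarith
        _ ≤ N^3 * N^2 := by
            have : (20:ℝ) ≤ N^3 := by
              calc (20:ℝ) ≤ 4^3 := by norm_num
                _ ≤ N^3 := by gcongr
            gcongr
        _ = N^5 := by ring
        _ ≤ N^(122*n) := pow_le_pow_right₀ hN1 (by omega)
    calc 6 * (n:ℝ)^2 * F < N^(122*n) * F := by gcongr
      _ ≤ 2^t := b2

/-- logarithm of the bound -/
lemma logb_bound {m F : ℝ} (hn : 2 ≤ n) (hm : 2 ≤ m) (hε0 : 0 < ε) (hF : 1 ≤ F) :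
    logb 2 (((n:ℝ) * m)^(122 * n) * (1/ε)^2 * F) =
      122 * (n * logb 2 (n * m)) + 2 * logb 2 (1/ε) + logb 2 F := by
  have h2 : (2:ℝ) ≤ n := by exact_mod_cast hn
  have h1 : 0 < (n:ℝ) * m := by positivity
  have h3 : 0 < 1/ε := by positivity
  rw [Real.logb_mul (by positivity) (by positivity), Real.logb_mul (by positivity) (by positivity),
    Real.logb_pow, Real.logb_pow]
  push_cast
  ring

theorem upper_main (hn : 2 ≤ n) (hκ : 2 ≤ κ) (hε0 : 0 < ε) (hε : ε ≤ 1/2) {F : ℝ} (hF : 1 ≤ F)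
    (hbrk : brk → κ ≤ ENNReal.ofReal F) :
    (tstar brk n κ ε : ℝ≥0∞) ≤ ENNReal.ofReal
      (123 * (logb 2 (1/ε) + n * logb 2 (n * mcond κ ε) + logb 2 F)) := by
  obtain ⟨hm2, hmε, hmκ, hcase⟩ := mcond_facts hκ hε0 hε
  set m := mcond κ ε with hm
  have h2 : (2:ℝ) ≤ n := by exact_mod_cast hn
  have hL : 1 ≤ logb 2 (1/ε) := one_le_logb (by rw [le_div_iff₀ hε0]; linarith)
  have hl : 1 ≤ logb 2 (n * m) := one_le_logb (by nlinarith)
  have hlF : 0 ≤ logb 2 F := Real.logb_nonneg (by norm_num) hF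
  have hnl : 0 ≤ n * logb 2 (n * m) := by positivity
  apply tstar_le_of (X := 122 * (n * logb 2 (n * m)) + 2 * logb 2 (1/ε) + logb 2 F)
    (by positivity) (by linarith)
  intro t _ ht
  rw [← logb_bound hn hm2 hε0 hF] at ht
  have hY : 0 < ((n:ℝ) * m)^(122 * n) * (1/ε)^2 * F := by positivity
  obtain ⟨c1, c2, c3⟩ := num_upper hn hm2 hε0 hε hF (pow_ge_of_logb_le hY ht)
  refine good_of brk (by omega) hε0 (by linarith) c2 ?_ (fun hb => ⟨F, hbrk hb, hF, c3⟩)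
  rcases hcase with h | h
  · left
    rw [h] at c1
    have e1 : 200 * (1/ε)^6 = 200 / ε^6 := by ring
    rw [e1] at c1
    exact c1
  · right; left
    exact ⟨m, h, by linarith, c1⟩

theorem upper_large' (hn : 2 ≤ n) (hε0 : 0 < ε) (hε : ε ≤ 1/2) {F : ℝ} (hF : 1 ≤ F)
    (hbrk : brk → κ ≤ ENNReal.ofReal F) (hlarge : 80 < n * ε^4) :
    (tstar brk n κ ε : ℝ≥0∞) ≤ ENNReal.ofReal (11 * (logb 2 n + logb 2 F)) := by
  have h2 : (2:ℝ) ≤ n := by exact_mod_cast hn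
  have hl : 1 ≤ logb 2 n := one_le_logb h2
  have hlF : 0 ≤ logb 2 F := Real.logb_nonneg (by norm_num) hF
  apply tstar_le_of (X := 10 * logb 2 n + logb 2 F) (by positivity) (by linarith)
  intro t _ ht
  have e0 : logb 2 ((n:ℝ)^10 * F) = 10 * logb 2 n + logb 2 F := by
    rw [Real.logb_mul (by positivity) (by positivity), Real.logb_pow]
    push_cast; ring
  rw [← e0] at ht
  have hY := pow_ge_of_logb_le (by positivity) ht
  have hT : (0:ℝ) < 2^t := by positivity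
  have hε4 : ε^4 ≤ 1/16 := by
    calc ε^4 ≤ (1/2)^4 := by gcongr
      _ = 1/16 := by norm_num
  obtain ⟨N, hN⟩ : ∃ N : ℝ, N = n := ⟨n, rfl⟩
  rw [← hN] at hlarge hY
  have hnb : (1280:ℝ) < N := by nlinarith
  have hn0 : (0:ℝ) < N := by linarith
  have hε12 : 80^3 / N^3 ≤ ε^12 := by
    rw [div_le_iff₀ (by positivity)]
    calc (80:ℝ)^3 ≤ (N * ε^4)^3 := by gcongr
      _ = _ := by ring
  have hn3 : (10:ℝ)^9 ≤ N^3 := by
    calc (10:ℝ)^9 = 1000^3 := by norm_num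
      _ ≤ N^3 := by gcongr; linarith
  have hY1 : N^10 ≤ 2^t := by
    have : 0 ≤ N^10 := by positivity
    nlinarith
  have hn1 : (1:ℝ) ≤ N := by linarith
  have q1 : 2 * N^2 * (1/2^t) ≤ 1/10 := by
    have e1 : 2 * N^2 * (1/2^t) = (2 * N^2) / 2^t := by ring
    rw [e1, div_le_iff₀ hT]
    have c1 : (20:ℝ) * N^2 ≤ N^10 := by
      calc (20:ℝ) * N^2 ≤ N * N^2 := by gcongr; linarith
        _ = N^3 := by ring
        _ ≤ N^10 := pow_le_pow_right₀ hn1 (by norm_num)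
    linarith
  have q2 : 10^9 * ((N + 1) * (5 * (2 * N^2 * (1/2^t)))) ≤ ε^12 := by
    refine le_trans ?_ hε12
    have e1 : 10^9 * ((N + 1) * (5 * (2 * N^2 * (1/2^t)))) =
      (10^10 * (N + 1) * N^2) / 2^t := by ring
    rw [e1, div_le_div_iff₀ hT (by positivity)]
    have c1 : 10^10 * (N + 1) * N^2 * N^3 ≤ 80^3 * N^10 := by
      have c2 : N^9 ≤ N^10 := pow_le_pow_right₀ hn1 (by norm_num)
      calc 10^10 * (N + 1) * N^2 * N^3 ≤ 10^10 * (N + N) * N^2 * N^3 := by gcongr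
        _ = 20 * (10^9 * N^6) := by ring
        _ ≤ 20 * (N^3 * N^6) := by gcongr
        _ = 20 * N^9 := by ring
        _ ≤ 80^3 * N^9 := by gcongr; norm_num
        _ ≤ 80^3 * N^10 := by gcongr
    calc _ ≤ 80^3 * N^10 := c1
      _ ≤ _ := by gcongr
  have q3 : 3 * (2 * N^2 * (1/2^t)) * F < 1 := by
    have e1 : 3 * (2 * N^2 * (1/2^t)) * F = (6 * N^2 * F) / 2^t := by ring
    rw [e1, div_lt_one hT]
    have c1 : (6:ℝ) * N^2 < N^10 := by
      calc (6:ℝ) * N^2 < N * N^2 := by gcongr; linarith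
        _ = N^3 := by ring
        _ ≤ N^10 := pow_le_pow_right₀ hn1 (by norm_num)
    calc 6 * N^2 * F < N^10 * F := by gcongr
      _ ≤ 2^t := hY
  rw [hN] at q1 q2 q3 hlarge
  exact good_of brk (by omega) hε0 (by linarith) q1 (Or.inr (Or.inr ⟨q2, hlarge⟩))
    (fun hb => ⟨F, hbrk hb, hF, q3⟩)

theorem lower_small (brk : Prop) (hn : 2 ≤ n) (hκ : 2 ≤ κ) (hε0 : 0 < ε) (hε : ε ≤ 1/2) :
    ENNReal.ofReal ((logb 2 (1/ε) + logb 2 n) / 5) ≤ (tstar brk n κ ε : ℝ≥0∞) := by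
  have h2 : (2:ℝ) ≤ n := by exact_mod_cast hn
  have hκ1 : 1 ≤ κ := le_trans (by norm_num) hκ
  apply le_tstar_of
  intro t ht1 ht
  by_cases h1 : 3 * ε * 2^t ≤ 1
  · exact not_good_eps brk (by omega) hκ1 hε0 ht1 h1
  by_cases h3 : 2 * 2^t ≤ (n:ℝ)
  · exact not_good_n brk (by omega) hκ1 hε ht1 h3
  exfalso
  push Not at h1 h3
  have h4 : logb 2 (1/ε) < t + 1.6 := by
    have : 1/ε < 3 * 2^t := by
      rw [div_lt_iff₀ hε0]; linarith
    have h5 : logb 2 (1/ε) < logb 2 (3 * 2^t) := Real.logb_lt_logb (by norm_num) (by positivity) this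
    rw [Real.logb_mul (by norm_num) (by positivity), Real.logb_pow, Real.logb_self_eq_one (by norm_num)] at h5
    have h6 : logb 2 3 < 1.6 := by
      rw [Real.logb_lt_iff_lt_rpow (by norm_num) (by norm_num)]
      have : (3:ℝ)^5 < ((2:ℝ)^(1.6:ℝ))^5 := by
        rw [← Real.rpow_natCast ((2:ℝ)^(1.6:ℝ)), ← Real.rpow_mul (by norm_num)]
        norm_num
      exact lt_of_pow_lt_pow_left₀ 5 (by positivity) this
    linarith
  have h5 : logb 2 n < t + 1 := by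
    have h6 : logb 2 n < logb 2 (2 * 2^t) := Real.logb_lt_logb (by norm_num) (by linarith) h3
    rw [Real.logb_mul (by norm_num) (by positivity), Real.logb_pow, Real.logb_self_eq_one (by norm_num)] at h6
    linarith
  have h6 : (1:ℝ) ≤ t := by exact_mod_cast ht1
  rw [lt_div_iff₀ (by norm_num)] at ht
  linarith

theorem lower_brk (hn : 2 ≤ n) (hε : ε ≤ 1/2) {F : ℝ} (hF : 1 ≤ F) (hκ : ENNReal.ofReal F ≤ κ) :
    ENNReal.ofReal (logb 2 F / 5) ≤ (tstar True n κ ε : ℝ≥0∞) := by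
  apply le_tstar_of
  intro t ht1 ht
  apply not_good_brk hn (by linarith) ht1
  refine (ENNReal.ofReal_le_ofReal ?_).trans hκ
  by_contra hcon
  push Not at hcon
  have h1 : logb 2 F < logb 2 (9 * 2^t) := Real.logb_lt_logb (by norm_num) (by linarith) hcon
  rw [Real.logb_mul (by norm_num) (by positivity), Real.logb_pow, Real.logb_self_eq_one (by norm_num)] at h1
  have h2 : logb 2 9 < 4 := by
    rw [Real.logb_lt_iff_lt_rpow (by norm_num) (by norm_num)]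
    norm_num
  have h3 : (1:ℝ) ≤ t := by exact_mod_cast ht1
  rw [lt_div_iff₀ (by norm_num)] at ht
  linarith

theorem brk_top (hn : 2 ≤ n) (hε : ε ≤ 1/2) : tstar True n ⊤ ε = ⊤ := by
  rw [tstar]
  simp only [iInf_eq_top]
  intro t ht
  exact absurd ht.2 (not_good_brk hn (by linarith) ht.1 le_top)

theorem lower_main (brk : Prop) (hn : 2 ≤ n) (hκ : 2 ≤ κ) (hε0 : 0 < ε) (hε : ε ≤ 1/2)
    (hnm : 2^36 * (n:ℝ)^8 ≤ mcond κ ε) :
    ENNReal.ofReal ((logb 2 (1/ε) + n * logb 2 (mcond κ ε)) / 16) ≤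
      (tstar brk n κ ε : ℝ≥0∞) := by
  obtain ⟨hm2, hmε, hmκ, hcase⟩ := mcond_facts hκ hε0 hε
  set m := mcond κ ε with hm
  have h2 : (2:ℝ) ≤ n := by exact_mod_cast hn
  have hm0 : 0 < m := by linarith
  have hκ1 : 1 ≤ κ := le_trans (by norm_num) hκ
  -- choice of j
  set ℓ := logb 2 m with hℓ
  have hℓ44 : 44 ≤ ℓ := by
    rw [hℓ, Real.le_logb_iff_rpow_le (by norm_num) hm0]
    have h3 : (2:ℝ)^(44:ℝ) = 2^36 * 2^8 := by
      rw [show (44:ℝ) = ((44:ℕ):ℝ) by norm_num, Real.rpow_natCast]; norm_num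
    rw [h3]
    refine le_trans ?_ hnm
    gcongr
  set j := ⌊ℓ/4⌋₊ with hj
  have hj1 : (j:ℝ) ≤ ℓ/4 := Nat.floor_le (by linarith)
  have hj2 : ℓ/4 < j + 1 := Nat.lt_floor_add_one _
  set P : ℝ := 2^j with hP
  have hP0 : 0 < P := by positivity
  have hP4 : P^4 ≤ m := by
    have h3 : logb 2 (P^4) ≤ logb 2 m := by
      rw [hP, Real.logb_pow, Real.logb_pow, Real.logb_self_eq_one (by norm_num)]
      push_cast
      linarith
    exact (Real.logb_le_logb (by norm_num) (by positivity) hm0).1 h3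
  have hP5 : m < (2 * P)^4 := by
    have h3 : logb 2 m < logb 2 ((2 * P)^4) := by
      rw [hP, Real.logb_pow, Real.logb_mul (by norm_num) (by positivity), Real.logb_pow,
        Real.logb_self_eq_one (by norm_num)]
      push_cast
      linarith
    exact (Real.logb_lt_logb_iff (by norm_num) hm0 (by positivity)).1 h3
  have hPn : 256 * (n:ℝ)^2 ≤ P := by
    by_contra hcon
    push Not at hcon
    have h3 : (2 * P)^4 < (2 * (256 * (n:ℝ)^2))^4 := by gcongr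
    have h4 : (2 * (256 * (n:ℝ)^2))^4 = 2^36 * (n:ℝ)^8 := by ring
    linarith
  have hfail : ∀ t : ℕ, 1 ≤ t → t ≤ n * j → ¬ Good brk n κ ε t := by
    intro t ht1 ht
    have hP1 : 1024 ≤ P := by nlinarith
    have hεm : ε * m ≤ 1 := by
      rw [le_div_iff₀ hε0] at hmε; linarith
    have hεP : ε * P^4 ≤ 1 := le_trans (by gcongr) hεm
    rcases Nat.lt_or_ge t (j + 2) with h3 | h3
    · apply not_good_eps brk (by omega) hκ1 hε0 ht1
      have h4 : (2:ℝ)^t ≤ 2^(j+2) := pow_le_pow_right₀ (by norm_num) h3.le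
      have h5 : (2:ℝ)^(j+2) = 4 * P := by rw [hP]; ring
      rw [h5] at h4
      have h6 : P * 12 ≤ P^4 := by
        have : (12:ℝ) ≤ P^3 := by
          calc (12:ℝ) ≤ 1024^3 := by norm_num
            _ ≤ P^3 := by gcongr
        calc P * 12 ≤ P * P^3 := by gcongr
          _ = P^4 := by ring
      calc 3 * ε * 2^t ≤ 3 * ε * (4 * P) := by gcongr
        _ = ε * (P * 12) := by ring
        _ ≤ ε * P^4 := by gcongr
        _ ≤ 1 := hεP
    · have hinv : ((1/2:ℝ)^j)^2 = 1 / P^2 := by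
        rw [hP, one_div, inv_pow, inv_pow, one_div]
      refine not_good_bad brk hn hε0 (by linarith) hPn ?_ ?_ h3 ht
      · rw [hinv, le_div_iff₀ (by positivity)]
        have h4 : 128 * (n:ℝ)^2 ≤ P^2 := by nlinarith
        calc 128 * ε * (n:ℝ)^2 * P^2 = ε * (128 * (n:ℝ)^2) * P^2 := by ring
          _ ≤ ε * P^2 * P^2 := by gcongr
          _ = ε * P^4 := by ring
          _ ≤ 1 := hεP
      · refine le_trans (ENNReal.ofReal_le_ofReal ?_) hmκ
        refine le_trans ?_ hP4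
        have h4 : 6 * (n:ℝ)^2 ≤ P^3 := by
          have : (1:ℝ) ≤ P^2 := by nlinarith
          nlinarith
        calc 6 * (n:ℝ)^2 * P ≤ P^3 * P := by gcongr
          _ = P^4 := by ring
  have hA : ENNReal.ofReal (n * ℓ / 8) ≤ (tstar brk n κ ε : ℝ≥0∞) := by
    apply le_tstar_of
    intro t ht1 ht
    apply hfail t ht1
    have h3 : n * ℓ / 8 ≤ ((n * j : ℕ) : ℝ) := by
      push_cast
      have h4 : ℓ / 8 ≤ j := by linarith
      calc n * ℓ / 8 = n * (ℓ / 8) := by ring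
        _ ≤ n * j := by gcongr
    have h4 : (t:ℝ) < ((n * j : ℕ) : ℝ) := lt_of_lt_of_le ht h3
    have h5 : t < n * j := by exact_mod_cast h4
    exact h5.le
  have hB := lower_small brk hn hκ hε0 hε
  have hL : 1 ≤ logb 2 (1/ε) := one_le_logb (by rw [le_div_iff₀ hε0]; linarith)
  have hln : 1 ≤ logb 2 n := one_le_logb h2
  rcases le_total (n * ℓ / 8) ((logb 2 (1/ε) + logb 2 n) / 5) with h | h
  · refine le_trans (ENNReal.ofReal_le_ofReal ?_) hB
    linarith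
  · refine le_trans (ENNReal.ofReal_le_ofReal ?_) hA
    linarith

end Pool.Agent.Helper643.CG
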