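import Mathlib
import Pool.Agent.Helper643.CGLowB

/-! Weighted version of the bad example. -/

namespace Pool.Agent.Helper643.CG

open scoped InnerProductSpace

variable {E : Type*} [NormedAddCommGroup E] [InnerProductSpace ℝ E]

/-- Weights. -/
structure Wt (n : ℕ) (W : ℝ) (f : ℕ → ℝ) : Prop where
  pos : ∀ k, 0 < f k
  one : f 1 = 1
  lo : ∀ k, f k / 2 ≤ f (k+1)
  hi : ∀ k, f (k+1) ≤ f k
  row : ∀ k, 1 ≤ k → k < n → ∑ l ∈ Finset.Ico k n, f l / f k ≤ W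
  col : ∀ l, 1 ≤ l → l < n → ∑ k ∈ Finset.Ico 1 (l+1), f l / f k ≤ W

/-- The weighted differences. -/
noncomputable def cdf (e : ℕ → E) (f : ℕ → ℝ) (k : ℕ) : E := e k - (f (k+1) / f k) • e (k+1)

/-- The weighted operator `L`. -/
noncomputable def Lf (n : ℕ) (e : ℕ → E) (f : ℕ → ℝ) (y : E) : E :=
  ∑ k ∈ Finset.Ico 1 n, ⟪cdf e f k, y⟫_ℝ • cdf e f k

/-- The operator of the weighted example. -/
noncomputable def Af (n : ℕ) (δ : ℝ) (e : ℕ → E) (f : ℕ → ℝ) (y : E) : E :=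
  ⟪e 0 + e 1, y⟫_ℝ • (e 0 + e 1) + δ • Lf n e f y

/-- The unperturbed directions. -/
noncomputable def Pf (e : ℕ → E) (f : ℕ → ℝ) (k : ℕ) : E :=
  f k • (e 0 - ∑ j ∈ Finset.Ico 1 (k+1), (f j)⁻¹ • e j)

variable {n : ℕ} {e : ℕ → E} {f : ℕ → ℝ} {δ W : ℝ}

lemma Wt.q_lo (w : Wt n W f) (k : ℕ) : 1/2 ≤ f (k+1) / f k := by
  rw [le_div_iff₀ (w.pos k)]
  have := w.lo k
  linarith

lemma Wt.q_hi (w : Wt n W f) (k : ℕ) : f (k+1) / f k ≤ 1 := by
  rw [div_le_one (w.pos k)]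
  exact w.hi k

lemma Wt.q_pos (w : Wt n W f) (k : ℕ) : 0 < f (k+1) / f k := div_pos (w.pos _) (w.pos _)

lemma Wt.anti (w : Wt n W f) : Antitone f := antitone_nat_of_succ_le w.hi

lemma Wt.le_one (w : Wt n W f) {k : ℕ} (hk : 1 ≤ k) : f k ≤ 1 := by
  rw [← w.one]; exact w.anti hk

lemma Wt.pow_le (w : Wt n W f) (k : ℕ) : (1/2)^k ≤ f (k+1) := by
  induction k with
  | zero => simp [w.one]
  | succ k ih =>
    have := w.lo (k+1)
    rw [pow_succ]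
    linarith

lemma Wt.one_le_W (w : Wt n W f) (hn : 2 ≤ n) : 1 ≤ W := by
  have := w.row 1 le_rfl (by omega)
  refine le_trans ?_ this
  have h1 : f 1 / f 1 ≤ ∑ l ∈ Finset.Ico 1 n, f l / f 1 := by
    apply Finset.single_le_sum (f := fun l => f l / f 1)
      (fun i _ => (div_pos (w.pos i) (w.pos 1)).le)
    rw [Finset.mem_Ico]; omega
  rw [div_self (w.pos 1).ne'] at h1
  exact h1

lemma abs_inner_cdf_sq (w : Wt n W f) (h : Base n e) (k : ℕ) (y : E) :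
    ⟪cdf e f k, y⟫_ℝ^2 ≤ 2 * ⟪e k, y⟫_ℝ^2 + 2 * ⟪e (k+1), y⟫_ℝ^2 := by
  rw [cdf, inner_sub_left, real_inner_smul_left]
  have h1 := w.q_hi k
  have h2 := w.q_pos k
  set q := f (k+1) / f k
  set a := ⟪e k, y⟫_ℝ
  set b := ⟪e (k+1), y⟫_ℝ
  have h3 : q^2 ≤ 1 := by nlinarith
  have h4 : q^2 * b^2 ≤ 1 * b^2 := by gcongr
  nlinarith [sq_nonneg (a + q * b)]

lemma sum_cdf_sq (w : Wt n W f) (h : Base n e) (y : E) :
    ∑ k ∈ Finset.Ico 1 n, ⟪cdf e f k, y⟫_ℝ^2 ≤ 4 * ‖y‖^2 := by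
  have h1 : ∀ k ∈ Finset.Ico 1 n, ⟪cdf e f k, y⟫_ℝ^2 ≤
      2 * ⟪e k, y⟫_ℝ^2 + 2 * ⟪e (k+1), y⟫_ℝ^2 := fun k _ => abs_inner_cdf_sq w h k y
  have h2 : ∑ k ∈ Finset.Ico 1 n, ⟪e k, y⟫_ℝ^2 ≤ ‖y‖^2 := by
    refine le_trans ?_ (h.bessel y)
    apply Finset.sum_le_sum_of_subset_of_nonneg
    · intro k hk
      rw [Finset.mem_Ico] at hk
      exact Finset.mem_range.2 hk.2
    · intro i _ _; positivity
  have h3 : ∑ k ∈ Finset.Ico 1 n, ⟪e (k+1), y⟫_ℝ^2 ≤ ‖y‖^2 := by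
    have h4 : ∑ k ∈ Finset.Ico 1 n, ⟪e (k+1), y⟫_ℝ^2 = ∑ k ∈ Finset.Ico 2 (n+1), ⟪e k, y⟫_ℝ^2 := by
      rw [Finset.sum_Ico_add' (fun k => ⟪e k, y⟫_ℝ^2) 1 n 1]
    rw [h4]
    rcases Nat.lt_or_ge n 2 with hn | hn
    · rw [Finset.Ico_eq_empty (by omega)]
      simp
    · rw [Finset.sum_Ico_succ_top hn, h.zero n le_rfl, inner_zero_left]
      refine le_trans ?_ (h.bessel y)
      simp only [ne_eq, OfNat.ofNat_ne_zero, not_false_eq_true, zero_pow, add_zero]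
      apply Finset.sum_le_sum_of_subset_of_nonneg
      · intro k hk
        rw [Finset.mem_Ico] at hk
        exact Finset.mem_range.2 hk.2
      · intro i _ _; positivity
  calc _ ≤ ∑ k ∈ Finset.Ico 1 n, (2 * ⟪e k, y⟫_ℝ^2 + 2 * ⟪e (k+1), y⟫_ℝ^2) :=
        Finset.sum_le_sum h1
    _ = 2 * ∑ k ∈ Finset.Ico 1 n, ⟪e k, y⟫_ℝ^2 + 2 * ∑ k ∈ Finset.Ico 1 n, ⟪e (k+1), y⟫_ℝ^2 := by
        rw [Finset.sum_add_distrib, Finset.mul_sum, Finset.mul_sum]
    _ ≤ 4 * ‖y‖^2 := by linarith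

lemma inner_Lf (y z : E) :
    ⟪y, Lf n e f z⟫_ℝ = ∑ k ∈ Finset.Ico 1 n, ⟪cdf e f k, y⟫_ℝ * ⟪cdf e f k, z⟫_ℝ := by
  rw [Lf, inner_sum]
  refine Finset.sum_congr rfl fun k _ => ?_
  rw [real_inner_smul_right, real_inner_comm y (cdf e f k)]
  ring

lemma inner_Lf_comm (y z : E) : ⟪y, Lf n e f z⟫_ℝ = ⟪z, Lf n e f y⟫_ℝ := by
  rw [inner_Lf, inner_Lf]
  exact Finset.sum_congr rfl fun k _ => mul_comm _ _

lemma abs_inner_Lf (w : Wt n W f) (h : Base n e) (y z : E) :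
    |⟪y, Lf n e f z⟫_ℝ| ≤ 4 * ‖y‖ * ‖z‖ := by
  rw [inner_Lf]
  have h1 := Finset.sum_mul_sq_le_sq_mul_sq (Finset.Ico 1 n) (fun k => ⟪cdf e f k, y⟫_ℝ)
    (fun k => ⟪cdf e f k, z⟫_ℝ)
  have h2 := sum_cdf_sq w h y
  have h3 := sum_cdf_sq w h z
  have h4 : (∑ k ∈ Finset.Ico 1 n, ⟪cdf e f k, y⟫_ℝ * ⟪cdf e f k, z⟫_ℝ)^2 ≤
      (4 * ‖y‖ * ‖z‖)^2 := by
    refine h1.trans ?_
    have h5 : 0 ≤ ∑ k ∈ Finset.Ico 1 n, ⟪cdf e f k, z⟫_ℝ^2 :=
      Finset.sum_nonneg fun _ _ => sq_nonneg _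
    calc _ ≤ (4 * ‖y‖^2) * (4 * ‖z‖^2) := by gcongr
      _ = _ := by ring
  exact abs_le_of_sq_le_sq h4 (by positivity)

lemma norm_Lf (w : Wt n W f) (h : Base n e) (z : E) : ‖Lf n e f z‖ ≤ 4 * ‖z‖ := by
  have h1 := abs_inner_Lf w h (Lf n e f z) z
  rw [real_inner_self_eq_norm_sq, abs_of_nonneg (sq_nonneg _)] at h1
  by_contra hcon
  push Not at hcon
  have h2 : 0 ≤ ‖z‖ := norm_nonneg z
  nlinarith

lemma Lf_add (y z : E) : Lf n e f (y + z) = Lf n e f y + Lf n e f z := by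
  simp only [Lf, inner_add_right, add_smul, Finset.sum_add_distrib]

lemma Lf_smul (c : ℝ) (y : E) : Lf n e f (c • y) = c • Lf n e f y := by
  simp only [Lf, real_inner_smul_right, Finset.smul_sum, smul_smul]

lemma Af_add (y z : E) : Af n δ e f (y + z) = Af n δ e f y + Af n δ e f z := by
  rw [Af, Af, Af, Lf_add, inner_add_right]
  module

lemma Af_smul (c : ℝ) (y : E) : Af n δ e f (c • y) = c • Af n δ e f y := by
  rw [Af, Af, Lf_smul, real_inner_smul_right]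
  module

lemma inner_Pf (w : Wt n W f) (h : Base n e) (i k : ℕ) (hi : i < n) (hk : k < n) :
    ⟪e i, Pf e f k⟫_ℝ = if i = 0 then f k else if i ≤ k then -(f k / f i) else 0 := by
  rw [Pf, real_inner_smul_right, inner_sub_right, inner_sum]
  simp only [real_inner_smul_right, h.inner, hi, and_true]
  have h1 : ∑ j ∈ Finset.Ico 1 (k+1), (f j)⁻¹ * (if i = j then (1:ℝ) else 0) =
      ∑ j ∈ Finset.Ico 1 (k+1), (if i = j then (f j)⁻¹ else 0) := by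
    refine Finset.sum_congr rfl fun j _ => ?_
    split_ifs <;> simp
  rw [h1, Finset.sum_ite_eq]
  by_cases h0 : i = 0
  · subst h0; simp
  · rw [if_neg h0, if_neg h0]
    by_cases h2 : i ≤ k
    · rw [if_pos (Finset.mem_Ico.2 ⟨by omega, by omega⟩), if_pos h2]
      have := (w.pos i).ne'
      field_simp
      ring
    · rw [if_neg (by rw [Finset.mem_Ico]; omega), if_neg h2]; ring

lemma inner_v_Pf (w : Wt n W f) (h : Base n e) (hn : 2 ≤ n) {k : ℕ} (hk1 : 1 ≤ k) (hk : k < n) :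
    ⟪e 0 + e 1, Pf e f k⟫_ℝ = 0 := by
  rw [inner_add_left, inner_Pf w h 0 k (by omega) hk, inner_Pf w h 1 k (by omega) hk]
  simp [hk1, w.one]

lemma inner_cdf_Pf (w : Wt n W f) (h : Base n e) {j k : ℕ} (hj1 : 1 ≤ j) (hj : j < n)
    (hk : k < n) :
    ⟪cdf e f j, Pf e f k⟫_ℝ = if j = k then -1 else 0 := by
  have hj0 : ¬ j = 0 := by omega
  have hj1' : ¬ j + 1 = 0 := by omega
  have p1 := (w.pos j).ne'
  have p2 := (w.pos (j+1)).ne'
  rw [cdf, inner_sub_left, real_inner_smul_left, inner_Pf w h j k hj hk, if_neg hj0]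
  rcases Nat.lt_or_ge (j+1) n with h3 | h3
  · rw [inner_Pf w h (j+1) k h3 hk, if_neg hj1']
    rcases lt_trichotomy j k with h4 | h4 | h4
    · have a1 : j ≤ k := by omega
      have a2 : j + 1 ≤ k := by omega
      have a3 : ¬ j = k := by omega
      rw [if_pos a1, if_pos a2, if_neg a3]
      field_simp
      ring
    · have a1 : j ≤ k := by omega
      have a2 : ¬ j + 1 ≤ k := by omega
      rw [if_pos a1, if_neg a2, if_pos h4]
      subst h4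
      rw [div_self p1]; ring
    · have a1 : ¬ j ≤ k := by omega
      have a2 : ¬ j + 1 ≤ k := by omega
      have a3 : ¬ j = k := by omega
      rw [if_neg a1, if_neg a2, if_neg a3]; ring
  · rw [h.zero (j+1) h3, inner_zero_left]
    rcases Nat.lt_or_ge k j with h4 | h4
    · have a1 : ¬ j ≤ k := by omega
      have a3 : ¬ j = k := by omega
      rw [if_neg a1, if_neg a3]; ring
    · have h5 : j = k := by omega
      rw [if_pos h4, if_pos h5]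
      subst h5
      rw [div_self p1]; ring

lemma Lf_Pf (w : Wt n W f) (h : Base n e) {k : ℕ} (hk1 : 1 ≤ k) (hk : k < n) :
    Lf n e f (Pf e f k) = - cdf e f k := by
  have h1 : ∀ j ∈ Finset.Ico 1 n, ⟪cdf e f j, Pf e f k⟫_ℝ • cdf e f j =
      if j = k then - cdf e f k else 0 := by
    intro j hj
    rw [Finset.mem_Ico] at hj
    rw [inner_cdf_Pf w h hj.1 hj.2 hk]
    split_ifs with h5
    · rw [h5]; simp
    · simp
  rw [Lf, Finset.sum_congr rfl h1, Finset.sum_ite_eq', if_pos (Finset.mem_Ico.2 ⟨hk1, hk⟩)]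

lemma Pf_succ (w : Wt n W f) (k : ℕ) :
    Pf e f (k+1) = (f (k+1) / f k) • Pf e f k - e (k+1) := by
  have p1 := (w.pos k).ne'
  have p2 := (w.pos (k+1)).ne'
  rw [Pf, Pf, Finset.sum_Ico_succ_top (by omega), smul_smul, div_mul_cancel₀ _ p1,
    ← sub_sub, smul_sub _ _ ((f (k+1))⁻¹ • e (k+1)), smul_smul, mul_inv_cancel₀ p2, one_smul]

lemma norm_Pf_sq (w : Wt n W f) (h : Base n e) {k : ℕ} (hk : k < n) :
    ‖Pf e f k‖^2 = f k^2 + ∑ j ∈ Finset.Ico 1 (k+1), (f k / f j)^2 := by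
  induction k with
  | zero =>
    simp [Pf, norm_smul, h.norm_eq hk]
  | succ k ih =>
    have p1 := (w.pos k).ne'
    have p2 := (w.pos (k+1)).ne'
    have h1 : ⟪Pf e f k, e (k+1)⟫_ℝ = 0 := by
      rw [real_inner_comm, inner_Pf w h (k+1) k hk (by omega)]
      simp
    rw [Pf_succ w, norm_sub_sq_real, norm_smul, mul_pow, ih (by omega), h.norm_eq hk,
      real_inner_smul_left, h1, Finset.sum_Ico_succ_top (by omega : 1 ≤ k + 1), div_self p2,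
      Real.norm_eq_abs, sq_abs, mul_add, Finset.mul_sum]
    have h2 : ∀ j ∈ Finset.Ico 1 (k+1), (f (k+1) / f k)^2 * (f k / f j)^2 = (f (k+1) / f j)^2 := by
      intro j _
      have p3 := (w.pos j).ne'
      field_simp
    rw [Finset.sum_congr rfl h2]
    field_simp
    ring

lemma norm_Pf_le (w : Wt n W f) (h : Base n e) {k : ℕ} (hk1 : 1 ≤ k) (hk : k < n) :
    ‖Pf e f k‖^2 ≤ 1 + W := by
  rw [norm_Pf_sq w h hk]
  have h1 : f k ^2 ≤ 1 := by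
    have := w.le_one hk1
    have := w.pos k
    nlinarith
  have h2 : ∑ j ∈ Finset.Ico 1 (k+1), (f k / f j)^2 ≤ ∑ j ∈ Finset.Ico 1 (k+1), f k / f j := by
    apply Finset.sum_le_sum
    intro j hj
    rw [Finset.mem_Ico] at hj
    have h3 : f k / f j ≤ 1 := by
      rw [div_le_one (w.pos j)]
      exact w.anti (by omega)
    have h4 : 0 < f k / f j := div_pos (w.pos _) (w.pos _)
    nlinarith
  have h3 := w.col k hk1 hk
  linarith

lemma norm_cdf_le (w : Wt n W f) (h : Base n e) (k : ℕ) : ‖cdf e f k‖ ≤ 1.4143 := by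
  have h1 : ‖cdf e f k‖^2 ≤ 2 := by
    rw [cdf, norm_sub_sq_real, real_inner_smul_right, h.inner, if_neg (by omega), norm_smul,
      Real.norm_eq_abs, abs_of_pos (w.q_pos k)]
    have h2 := h.norm_le (k+1)
    have h3 := h.norm_le k
    have h4 := norm_nonneg (e (k+1))
    have h5 := norm_nonneg (e k)
    have h6 := w.q_hi k
    have h7 := w.q_pos k
    have h8 : f (k+1) / f k * ‖e (k+1)‖ ≤ 1 * 1 := by gcongr
    have h9 : 0 ≤ f (k+1) / f k * ‖e (k+1)‖ := by positivity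
    nlinarith
  refine (abs_le_of_sq_le_sq' ?_ (by norm_num)).2
  linarith

end Pool.Agent.Helper643.CG
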