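import Mathlib
import Pool.Agent.Helper643.CGLow2A

/-! One step of the perturbed recurrence (weighted example, hat variables). -/

namespace Pool.Agent.Helper643.CG

open scoped InnerProductSpace

variable {E : Type*} [NormedAddCommGroup E] [InnerProductSpace ℝ E]
variable {n : ℕ} {e : ℕ → E} {f : ℕ → ℝ} {δ W : ℝ}

lemma V_bounds2 (w : Wt n W f) (h : Base n e) (hδ : 0 < δ) (hδ5 : δ ≤ 1/512)
    {k : ℕ} (hk1 : 1 ≤ k) (hk : k < n) {q : E} {s : ℝ}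
    (hs : s = ⟪e 0 + e 1, q⟫_ℝ) (hsu : |s| ≤ δ/20) (hq : ‖q - Pf e f k‖ ≤ |s|) :
    |⟪q, Af n δ e f q⟫_ℝ - δ| ≤ 2.9 * |s| * δ := by
  set dq := q - Pf e f k with hdq
  have e1 : q = Pf e f k + dq := by rw [hdq]; abel
  have e2 : ⟪q, Af n δ e f q⟫_ℝ = s^2 + δ * ⟪q, Lf n e f q⟫_ℝ := by
    rw [Af, inner_add_right, real_inner_smul_right, real_inner_smul_right,
      real_inner_comm (e 0 + e 1) q, ← hs]
    ring
  have e0 : ⟪Pf e f k, cdf e f k⟫_ℝ = -1 := by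
    rw [real_inner_comm, inner_cdf_Pf w h hk1 hk hk, if_pos rfl]
  have e3 : ⟪q, Lf n e f q⟫_ℝ = 1 - 2 * ⟪dq, cdf e f k⟫_ℝ + ⟪dq, Lf n e f dq⟫_ℝ := by
    rw [e1, Lf_add, inner_add_left, inner_add_right, inner_add_right,
      inner_Lf_comm (Pf e f k) dq, Lf_Pf w h hk1 hk, inner_neg_right, inner_neg_right, e0]
    ring
  have b1 : |⟪dq, cdf e f k⟫_ℝ| ≤ |s| * 1.4143 :=
    (abs_real_inner_le_norm _ _).trans
      (mul_le_mul hq (norm_cdf_le w h k) (norm_nonneg _) (abs_nonneg _))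
  have b2 : |⟪dq, Lf n e f dq⟫_ℝ| ≤ 4 * |s| * |s| := by
    refine (abs_inner_Lf w h dq dq).trans ?_
    gcongr
  rw [e2, e3]
  have hs0 := abs_nonneg s
  have b3 : s^2 ≤ |s| * (δ * 0.05) := by
    rw [← sq_abs]
    nlinarith
  have b4 : |s| * |s| ≤ |s| * 0.0001 := by nlinarith
  have e4 : s^2 + δ * (1 - 2 * ⟪dq, cdf e f k⟫_ℝ + ⟪dq, Lf n e f dq⟫_ℝ) - δ =
    s^2 - δ * (2 * ⟪dq, cdf e f k⟫_ℝ) + δ * ⟪dq, Lf n e f dq⟫_ℝ := by ring
  rw [e4]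
  rw [abs_le] at b1 b2 ⊢
  have c1 : δ * (2 * ⟪dq, cdf e f k⟫_ℝ) ≤ δ * (2 * (|s| * 1.4143)) := by
    gcongr; exact b1.2
  have c2 : δ * (2 * (-(|s| * 1.4143))) ≤ δ * (2 * ⟪dq, cdf e f k⟫_ℝ) := by
    gcongr; exact b1.1
  have c3 : δ * ⟪dq, Lf n e f dq⟫_ℝ ≤ δ * (4 * |s| * |s|) := by
    gcongr; exact b2.2
  have c4 : δ * (-(4 * |s| * |s|)) ≤ δ * ⟪dq, Lf n e f dq⟫_ℝ := by
    gcongr; exact b2.1
  have c5 : δ * (|s| * |s|) ≤ δ * (|s| * 0.0001) := by gcongr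
  have c6 : 0 ≤ |s| * δ := by positivity
  constructor
  · nlinarith [sq_nonneg s]
  · nlinarith [sq_nonneg s]

/-- One step of the perturbed recurrence, first half. -/
lemma step_r2 (w : Wt n W f) (h : Base n e) (hn : 2 ≤ n) (hδ : 0 < δ) (hδ5 : δ ≤ 1/512)
    {k : ℕ} (hk1 : 1 ≤ k) (hk : k < n) {r q : E} {s : ℝ}
    (hs : s = ⟪e 0 + e 1, q⟫_ℝ) (hsu : |s| ≤ δ/20)
    (hr : ‖r + e k‖ ≤ |s|) (hq : ‖q - Pf e f k‖ ≤ |s|) :
    0.99 * δ ≤ ⟪q, Af n δ e f q⟫_ℝ ∧ 0.999 ≤ ‖r‖ ∧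
    ‖r - (1 / ⟪q, Af n δ e f q⟫_ℝ) • Af n δ e f q + (f (k+1) / f k) • e (k+1)
      + (s/δ) • (e 0 + e 1)‖ ≤ 9.5 * |s| := by
  have hV := V_bounds2 w h hδ hδ5 hk1 hk hs hsu hq
  have hs0 := abs_nonneg s
  have hs1 : |s| ≤ 0.0001 := by linarith
  set V := ⟪q, Af n δ e f q⟫_ℝ with hVdef
  have hVlo : (1 - 2.9 * |s|) * δ ≤ V := by rw [abs_le] at hV; linarith [hV.1]
  have hVhi : V ≤ (1 + 2.9 * |s|) * δ := by rw [abs_le] at hV; linarith [hV.2]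
  have hV0 : 0 < V := lt_of_lt_of_le (by apply mul_pos _ hδ; linarith) hVlo
  have hV99 : 0.99 * δ ≤ V := le_trans (by nlinarith) hVlo
  refine ⟨hV99, ?_, ?_⟩
  · have e1 : e k = (r + e k) - r := by abel
    have e2 := norm_sub_le (r + e k) r
    rw [← e1, h.norm_eq hk] at e2
    linarith
  set α := 1 / V with hα
  have hαV : α * V = 1 := by rw [hα]; field_simp
  have hα0 : 0 < α := by rw [hα]; positivity
  have hαδ : |α * δ - 1| ≤ 3 * |s| := by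
    have b1 : α * ((1 - 2.9 * |s|) * δ) ≤ α * V := by gcongr
    have b2 : α * V ≤ α * ((1 + 2.9 * |s|) * δ) := by gcongr
    have b3 : 0 ≤ α * δ := by positivity
    rw [abs_le]
    constructor
    · by_contra hcon
      push Not at hcon
      nlinarith
    · by_contra hcon
      push Not at hcon
      nlinarith
  set dr := r + e k with hdr
  set dq := q - Pf e f k with hdq
  have e1 : r = dr - e k := by rw [hdr]; abel
  have e2 : q = Pf e f k + dq := by rw [hdq]; abel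
  have e3 : Af n δ e f q = s • (e 0 + e 1) + δ • (- cdf e f k + Lf n e f dq) := by
    have : Lf n e f q = - cdf e f k + Lf n e f dq := by
      conv_lhs => rw [e2]
      rw [Lf_add, Lf_Pf w h hk1 hk]
    rw [Af, ← hs, this]
  have e4 : r - α • Af n δ e f q + (f (k+1) / f k) • e (k+1) + (s/δ) • (e 0 + e 1) =
      dr - ((α * δ - 1) * (s / δ)) • (e 0 + e 1) + (α * δ - 1) • cdf e f k
        - (α * δ) • Lf n e f dq := by
    rw [e3, e1, smul_add, smul_smul, smul_smul, smul_add, cdf]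
    have e5 : α * s = (α * δ) * (s / δ) := by field_simp
    rw [e5]
    module
  rw [e4]
  have c1 : ‖((α * δ - 1) * (s / δ)) • (e 0 + e 1)‖ ≤ 3 * |s| * 0.05 * 1.4143 := by
    rw [norm_smul, Real.norm_eq_abs, abs_mul, abs_div, abs_of_pos hδ]
    have : |s| / δ ≤ 0.05 := by
      rw [div_le_iff₀ hδ]
      linarith
    have h2 := norm_v_le h hn
    gcongr
  have c2 : ‖(α * δ - 1) • cdf e f k‖ ≤ 3 * |s| * 1.4143 := by
    rw [norm_smul, Real.norm_eq_abs]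
    have h2 := norm_cdf_le w h k
    gcongr
  have c3 : ‖(α * δ) • Lf n e f dq‖ ≤ 1.001 * (4 * |s|) := by
    rw [norm_smul, Real.norm_eq_abs]
    have h2 : |α * δ| ≤ 1.001 := by
      rw [abs_le] at hαδ ⊢
      constructor <;> linarith [hαδ.1, hαδ.2]
    have h3 : ‖Lf n e f dq‖ ≤ 4 * |s| := (norm_Lf w h dq).trans (by gcongr)
    gcongr
  have c4 := norm_sub_le (dr - ((α * δ - 1) * (s / δ)) • (e 0 + e 1) + (α * δ - 1) • cdf e f k)
    ((α * δ) • Lf n e f dq)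
  have c5 := norm_add_le (dr - ((α * δ - 1) * (s / δ)) • (e 0 + e 1)) ((α * δ - 1) • cdf e f k)
  have c6 := norm_sub_le dr (((α * δ - 1) * (s / δ)) • (e 0 + e 1))
  linarith

/-- One step of the perturbed recurrence, second half. -/
lemma step_p2 (w : Wt n W f) (h : Base n e) (hn : 2 ≤ n) (hδ : 0 < δ) (hδ5 : δ ≤ 1/512)
    {k : ℕ} (hk1 : 1 ≤ k) (hk : k + 1 < n) {r q r' q' : E} {s s' : ℝ}
    (hs : s = ⟪e 0 + e 1, q⟫_ℝ) (hsu : |s| ≤ δ^2/16)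
    (hr : ‖r + e k‖ ≤ |s|) (hq : ‖q - Pf e f k‖ ≤ |s|)
    (hr' : r' = (f (k+1) / f k)⁻¹ • (r - (1 / ⟪q, Af n δ e f q⟫_ℝ) • Af n δ e f q))
    (hq' : q' = (f (k+1) / f k) • q + (‖r'‖^2)⁻¹ • r') (hs' : s' = ⟪e 0 + e 1, q'⟫_ℝ) :
    0.999 ≤ ‖r'‖^2 ∧ 1.8 * (|s| / δ) ≤ |s'| ∧
    ‖r' + e (k+1)‖ ≤ |s'| ∧ ‖q' - Pf e f (k+1)‖ ≤ |s'| ∧ |s'| ≤ 5 * (|s| / δ) := by
  have hs0 := abs_nonneg s
  have hsu' : |s| ≤ δ/20 := by nlinarith
  obtain ⟨_, _, hω⟩ := step_r2 w h hn hδ hδ5 hk1 (by omega) hs hsu' hr hq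
  set a := 1 / ⟪q, Af n δ e f q⟫_ℝ with ha
  set qb := f (k+1) / f k with hqb
  have hq1 : 1/2 ≤ qb := w.q_lo k
  have hq2 : qb ≤ 1 := w.q_hi k
  have hq0 : 0 < qb := by linarith
  have hqi1 : 1 ≤ qb⁻¹ := by rw [one_le_inv₀ hq0]; exact hq2
  have hqi2 : qb⁻¹ ≤ 2 := by
    rw [inv_le_comm₀ hq0 (by norm_num)]; linarith
  have hqi0 : 0 < qb⁻¹ := by linarith
  set v := e 0 + e 1 with hv
  set ω := r - a • Af n δ e f q + qb • e (k+1) + (s/δ) • v with hωdef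
  have hv1 := norm_v_le h hn
  rw [← hv] at hv1
  have hv2 := norm_v_sq h hn
  rw [← hv] at hv2
  have hsd0 : 0 ≤ |s| / δ := by positivity
  have hsd : |s| / δ ≤ δ / 16 := by
    rw [div_le_iff₀ hδ]; nlinarith
  set σ := |s| / δ with hσ
  have hss : |s| = δ * σ := by rw [hσ]; field_simp
  have hs1 : |s| ≤ σ * (1/512) := by rw [hss]; nlinarith
  have hsσ : σ ≤ 1/8192 := by linarith
  have hev : ⟪e (k+1), v⟫_ℝ = 0 := by
    rw [hv, inner_add_right, h.inner, h.inner, if_neg (by omega), if_neg (by omega)]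
    ring
  -- t = s / (δ qb)
  set t := qb⁻¹ * (s/δ) with ht
  have htabs : |t| = qb⁻¹ * σ := by
    rw [ht, abs_mul, abs_of_pos hqi0, abs_div, abs_of_pos hδ]
  set τ := qb⁻¹ * σ with hτ
  have hτ0 : 0 ≤ τ := by positivity
  have hτσ : σ ≤ τ := by rw [hτ]; nlinarith
  have hτσ2 : τ ≤ 2 * σ := by rw [hτ]; nlinarith
  have hωq : ‖qb⁻¹ • ω‖ ≤ 9.5 * (1/512) * τ := by
    rw [norm_smul, Real.norm_eq_abs, abs_of_pos hqi0]
    calc qb⁻¹ * ‖ω‖ ≤ qb⁻¹ * (9.5 * |s|) := by gcongr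
      _ ≤ qb⁻¹ * (9.5 * (σ * (1/512))) := by gcongr
      _ = _ := by rw [hτ]; ring
  have hωq2 : ‖qb⁻¹ • ω‖ ≤ 19 * |s| := by
    rw [norm_smul, Real.norm_eq_abs, abs_of_pos hqi0]
    calc qb⁻¹ * ‖ω‖ ≤ 2 * (9.5 * |s|) := by gcongr
      _ = _ := by ring
  have hr'1 : r' + e (k+1) = qb⁻¹ • ω - t • v := by
    have e1 : e (k+1) = qb⁻¹ • (qb • e (k+1)) := by
      rw [smul_smul, inv_mul_cancel₀ hq0.ne', one_smul]
    rw [hr', ht, hωdef]
    nth_rewrite 1 [e1]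
    rw [smul_add, smul_add, smul_smul qb⁻¹ (s/δ)]
    abel
  have hr'2 : ‖r' + e (k+1)‖ ≤ 1.433 * τ := by
    rw [hr'1]
    refine (norm_sub_le _ _).trans ?_
    rw [norm_smul t, Real.norm_eq_abs, htabs]
    have : τ * ‖v‖ ≤ τ * 1.4143 := by gcongr
    linarith
  have hr'4 : |‖r'‖^2 - 1| ≤ 39 * |s| := by
    have e1 : r' = (r' + e (k+1)) - e (k+1) := by abel
    rw [e1, norm_sub_sq_real, h.norm_eq hk]
    have b1 : ⟪r' + e (k+1), e (k+1)⟫_ℝ = ⟪qb⁻¹ • ω, e (k+1)⟫_ℝ := by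
      rw [hr'1, inner_sub_left, real_inner_smul_left v (e (k+1)) t, real_inner_comm (e (k+1)) v, hev]
      ring
    rw [b1]
    have b2 : |⟪qb⁻¹ • ω, e (k+1)⟫_ℝ| ≤ 19 * |s| := by
      refine (abs_real_inner_le_norm _ _).trans ?_
      rw [h.norm_eq hk, mul_one]; exact hωq2
    have b3 : ‖r' + e (k+1)‖^2 ≤ 0.52 * |s| := by
      have c1 : ‖r' + e (k+1)‖^2 ≤ (1.433 * τ)^2 := by gcongr
      have c2 : (1.433 * τ)^2 ≤ (1.433 * (2 * σ))^2 := by gcongr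
      have c3 : (1.433 * (2 * σ))^2 = 8.213956 * (σ * σ) := by ring
      have c4 : σ * σ ≤ σ * (δ / 16) := by gcongr
      have c5 : σ * (δ/16) = |s| / 16 := by rw [hss]; ring
      linarith
    have b4 := sq_nonneg ‖r' + e (k+1)‖
    rw [abs_le] at b2 ⊢
    constructor <;> linarith [b2.1, b2.2]
  have hs2 : |s| ≤ 0.000001 := by nlinarith
  have hN0 : 0.999 ≤ ‖r'‖^2 := by rw [abs_le] at hr'4; linarith [hr'4.1]
  set N := (‖r'‖^2)⁻¹ with hN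
  have hNr : N * ‖r'‖^2 = 1 := inv_mul_cancel₀ (by linarith)
  have hNpos : 0 < N := by rw [hN]; apply inv_pos.2; linarith
  have hN1 : |N - 1| ≤ 40 * |s| := by
    rw [abs_le] at hr'4 ⊢
    have b1 : N * (1 - 39 * |s|) ≤ N * ‖r'‖^2 := by gcongr; linarith [hr'4.1]
    have b2 : N * ‖r'‖^2 ≤ N * (1 + 39 * |s|) := by gcongr; linarith [hr'4.2]
    constructor
    · by_contra hcon
      push Not at hcon
      nlinarith
    · by_contra hcon
      push Not at hcon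
      nlinarith
  have hN2 : N ≤ 1.0001 := by rw [abs_le] at hN1; linarith [hN1.2]
  have hP1 : Pf e f (k+1) = qb • Pf e f k - e (k+1) := Pf_succ w k
  set dq := q - Pf e f k with hdq
  have e2 : q = Pf e f k + dq := by rw [hdq]; abel
  have e3 : q' - Pf e f (k+1) = qb • dq + N • (r' + e (k+1)) + (1 - N) • e (k+1) := by
    rw [hq', hP1, e2]
    module
  have hqdq : ‖qb • dq‖ ≤ (1/512) * τ := by
    rw [norm_smul, Real.norm_eq_abs, abs_of_pos hq0]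
    have c1 : qb * ‖dq‖ ≤ 1 * |s| := by gcongr
    linarith
  have h1N : |1 - N| ≤ 40 * (1/512) * τ := by
    rw [abs_sub_comm]
    linarith
  have hQ : ‖q' - Pf e f (k+1)‖ ≤ 1.52 * τ := by
    rw [e3]
    refine norm_add₃_le.trans ?_
    have c1 : ‖N • (r' + e (k+1))‖ ≤ 1.0001 * (1.433 * τ) := by
      rw [norm_smul, Real.norm_eq_abs, abs_of_pos hNpos]
      gcongr
    have c2 : ‖(1 - N) • e (k+1)‖ ≤ 40 * (1/512) * τ := by
      rw [norm_smul, Real.norm_eq_abs, h.norm_eq hk, mul_one]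
      exact h1N
    linarith
  have hvP : ⟪v, Pf e f k⟫_ℝ = 0 := inner_v_Pf w h hn hk1 (by omega)
  have hve : ⟪v, e (k+1)⟫_ℝ = 0 := by rw [real_inner_comm]; exact hev
  have e4 : s' + 2 * t = qb * s + (1 - N) * (2 * t) + N * ⟪v, qb⁻¹ • ω⟫_ℝ := by
    have c1 : r' = (qb⁻¹ • ω - t • v) - e (k+1) := by rw [← hr'1]; abel
    have c2 : ⟪v, r'⟫_ℝ = ⟪v, qb⁻¹ • ω⟫_ℝ - 2 * t := by
      rw [c1, inner_sub_right, inner_sub_right, hve, real_inner_smul_right v v,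
        real_inner_self_eq_norm_sq, hv2]
      ring
    rw [hs', hq', inner_add_right, real_inner_smul_right, real_inner_smul_right, ← hs, c2]
    ring
  have hs'1 : |s' + 2 * t| ≤ 0.06 * τ := by
    rw [e4]
    have c1 : |qb * s| ≤ (1/512) * τ := by
      rw [abs_mul, abs_of_pos hq0]
      have : qb * |s| ≤ 1 * |s| := by gcongr
      linarith
    have c2 : |(1 - N) * (2 * t)| ≤ 0.0001 * τ := by
      rw [abs_mul, abs_mul, htabs, abs_of_pos (by norm_num : (0:ℝ) < 2)]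
      have : |1 - N| ≤ 0.00005 := by rw [abs_sub_comm]; linarith
      nlinarith
    have c3 : |N * ⟪v, qb⁻¹ • ω⟫_ℝ| ≤ 1.0001 * (1.4143 * (9.5 * (1/512) * τ)) := by
      rw [abs_mul, abs_of_pos hNpos]
      have := abs_real_inner_le_norm v (qb⁻¹ • ω)
      have c4 : ‖v‖ * ‖qb⁻¹ • ω‖ ≤ 1.4143 * (9.5 * (1/512) * τ) := by gcongr
      have c5 := this.trans c4
      gcongr
    have c6 := abs_add_le (qb * s + (1 - N) * (2 * t)) (N * ⟪v, qb⁻¹ • ω⟫_ℝ)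
    have c7 := abs_add_le (qb * s) ((1 - N) * (2 * t))
    linarith
  have hs'2 : 1.94 * τ ≤ |s'| := by
    have d1 : |2 * t| = 2 * τ := by
      rw [abs_mul, htabs, abs_of_pos (by norm_num : (0:ℝ) < 2)]
    have d2 : 2 * t = (s' + 2 * t) - s' := by ring
    have d3 := abs_sub (s' + 2 * t) s'
    rw [← d2, d1] at d3
    linarith
  have hs'3 : |s'| ≤ 2.06 * τ := by
    have d1 : |2 * t| = 2 * τ := by
      rw [abs_mul, htabs, abs_of_pos (by norm_num : (0:ℝ) < 2)]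
    have d2 : s' = (s' + 2 * t) - 2 * t := by ring
    have d3 := abs_sub (s' + 2 * t) (2 * t)
    rw [← d2, d1] at d3
    linarith
  exact ⟨hN0, by linarith, by linarith, by linarith, by linarith⟩

/-- The last residual. -/
lemma step_last (w : Wt n W f) (h : Base n e) (hn : 2 ≤ n) (hδ : 0 < δ) (hδ5 : δ ≤ 1/512)
    {r q : E} {s : ℝ}
    (hs : s = ⟪e 0 + e 1, q⟫_ℝ) (hsu : |s| = δ/20)
    (hr : ‖r + e (n-1)‖ ≤ |s|) (hq : ‖q - Pf e f (n-1)‖ ≤ |s|) :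
    0.069 ≤ ‖r - (1 / ⟪q, Af n δ e f q⟫_ℝ) • Af n δ e f q‖ := by
  obtain ⟨_, _, hω⟩ := step_r2 w h hn hδ hδ5 (k := n-1) (by omega) (by omega) hs hsu.le hr hq
  have e0 : n - 1 + 1 = n := by omega
  rw [e0, h.zero n le_rfl, smul_zero, add_zero] at hω
  set y := r - (1 / ⟪q, Af n δ e f q⟫_ℝ) • Af n δ e f q with hy
  have hv := norm_v_ge h hn
  have d1 : (s/δ) • (e 0 + e 1) = (y + (s/δ) • (e 0 + e 1)) - y := by abel
  have d2 := norm_sub_le (y + (s/δ) • (e 0 + e 1)) y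
  rw [← d1, norm_smul, Real.norm_eq_abs, abs_div, abs_of_pos hδ] at d2
  have d3 : |s| / δ = 1/20 := by rw [hsu]; field_simp
  rw [d3] at d2
  rw [hsu] at hω
  linarith

end Pool.Agent.Helper643.CG
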