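import Mathlib
import Pool.Agent.Helper643.CGLow2B

/-! Truncated dynamics and the choice of the first perturbation. -/

namespace Pool.Agent.Helper643.CG

open scoped InnerProductSpace

variable {E : Type*} [NormedAddCommGroup E] [InnerProductSpace ℝ E]
variable {n : ℕ} {e : ℕ → E} {f : ℕ → ℝ} {δ W : ℝ}

/-- Truncated residual update. -/
noncomputable def tR (n : ℕ) (δ : ℝ) (e : ℕ → E) (f : ℕ → ℝ) (k : ℕ) (z : E × E) : E :=
  (f (k+1) / f k)⁻¹ • (z.1 - (1 / max ⟪z.2, Af n δ e f z.2⟫_ℝ (δ/2)) • Af n δ e f z.2)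

/-- Truncated direction update. -/
noncomputable def tQ (n : ℕ) (δ : ℝ) (e : ℕ → E) (f : ℕ → ℝ) (k : ℕ) (z : E × E) : E :=
  (f (k+1) / f k) • z.2 + (max (‖tR n δ e f k z‖^2) (1/2))⁻¹ • tR n δ e f k z

/-- The truncated dynamics; index `m` is step `m + 1`. -/
noncomputable def tq (n : ℕ) (δ : ℝ) (e : ℕ → E) (f : ℕ → ℝ) (g : ℝ) : ℕ → E × E
  | 0 => (g • e 0 - e 1, (1 + g^2)⁻¹ • ((1 + g + g^2) • e 0 - e 1))
  | (m+1) => (tR n δ e f (m+1) (tq n δ e f g m), tQ n δ e f (m+1) (tq n δ e f g m))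

/-- The growing quantity. -/
noncomputable def tS (n : ℕ) (δ : ℝ) (e : ℕ → E) (f : ℕ → ℝ) (g : ℝ) (m : ℕ) : ℝ :=
  ⟪e 0 + e 1, (tq n δ e f g m).2⟫_ℝ

lemma cont_Af : Continuous (Af n δ e f) := by
  unfold Af Lf
  fun_prop

lemma cont_tR (hδ : 0 < δ) (k : ℕ) : Continuous (tR n δ e f k) := by
  unfold tR
  have h1 : Continuous (Af n δ e f) := cont_Af
  have h2 : Continuous fun z : E × E => Af n δ e f z.2 := h1.comp continuous_snd
  have h3 : Continuous fun z : E × E => max ⟪z.2, Af n δ e f z.2⟫_ℝ (δ/2) :=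
    (continuous_snd.inner h2).max continuous_const
  have h4 : Continuous fun z : E × E => 1 / max ⟪z.2, Af n δ e f z.2⟫_ℝ (δ/2) := by
    refine continuous_const.div h3 fun z => ?_
    have : 0 < max ⟪z.2, Af n δ e f z.2⟫_ℝ (δ/2) := lt_max_of_lt_right (by positivity)
    exact this.ne'
  exact (continuous_fst.sub (h4.smul h2)).const_smul _

lemma cont_tQ (hδ : 0 < δ) (k : ℕ) : Continuous (tQ n δ e f k) := by
  unfold tQ
  have h1 := cont_tR (n := n) (e := e) (f := f) hδ k
  have h3 : Continuous fun z : E × E => max (‖tR n δ e f k z‖^2) (1/2 : ℝ) :=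
    (h1.norm.pow 2).max continuous_const
  have h4 : Continuous fun z : E × E => (max (‖tR n δ e f k z‖^2) (1/2 : ℝ))⁻¹ := by
    refine h3.inv₀ fun z => ?_
    have : (0:ℝ) < max (‖tR n δ e f k z‖^2) (1/2 : ℝ) := lt_max_of_lt_right (by norm_num)
    exact this.ne'
  exact (continuous_snd.const_smul _).add (h4.smul h1)

lemma cont_tq (hδ : 0 < δ) (m : ℕ) : Continuous fun g => tq n δ e f g m := by
  induction m with
  | zero =>
    have h1 : ∀ g : ℝ, 1 + g^2 ≠ 0 := fun g => by positivity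
    have h2 : Continuous fun g : ℝ => (1 + g^2)⁻¹ := by
      refine Continuous.inv₀ (by fun_prop) h1
    show Continuous fun g : ℝ => (g • e 0 - e 1, (1 + g^2)⁻¹ • ((1 + g + g^2) • e 0 - e 1))
    refine Continuous.prodMk (by fun_prop) ?_
    exact h2.smul (by fun_prop)
  | succ m ih =>
    exact ((cont_tR hδ _).comp ih).prodMk ((cont_tQ hδ _).comp ih)

lemma cont_tS (hδ : 0 < δ) (m : ℕ) : Continuous fun g => tS n δ e f g m := by
  unfold tS
  exact continuous_const.inner (continuous_snd.comp (cont_tq hδ m))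

lemma tS_zero (h : Base n e) (hn : 2 ≤ n) (g : ℝ) : tS n δ e f g 0 = g * (1 + g) / (1 + g^2) := by
  have h0 : 0 < n := by omega
  have h1 : 1 < n := by omega
  have h2 : (1 + g^2) ≠ 0 := by positivity
  show ⟪e 0 + e 1, (1 + g^2)⁻¹ • ((1 + g + g^2) • e 0 - e 1)⟫_ℝ = _
  rw [real_inner_smul_right, inner_sub_right, inner_add_left, inner_add_left,
    real_inner_smul_right, real_inner_smul_right, h.inner, h.inner, h.inner, h.inner]
  simp [h0, h1]
  field_simp
  ring

/-- The invariants. -/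
lemma tinv (w : Wt n W f) (h : Base n e) (hn : 2 ≤ n) (hδ : 0 < δ) (hδ5 : δ ≤ 1/512) {g : ℝ}
    (hg0 : 0 ≤ g) (hg1 : g ≤ 1) :
    ∀ m, m + 2 ≤ n → (∀ i < m, |tS n δ e f g i| ≤ δ^2/16) →
      ‖(tq n δ e f g m).1 + e (m+1)‖ ≤ |tS n δ e f g m| ∧
      ‖(tq n δ e f g m).2 - Pf e f (m+1)‖ ≤ |tS n δ e f g m| ∧
      (1.8/δ)^m * g ≤ |tS n δ e f g m| ∧
      (g = 0 → tS n δ e f g m = 0) := by
  intro m
  induction m with
  | zero =>
    intro _ _
    have e0 := tS_zero (δ := δ) (f := f) h hn g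
    have e1 : g ≤ |tS n δ e f g 0| := by
      rw [e0, abs_of_nonneg (by positivity), le_div_iff₀ (by positivity)]
      nlinarith
    have h00 : ‖e 0‖ = 1 := h.norm_eq (by omega)
    have h11 : ‖e 1‖ = 1 := h.norm_eq (by omega)
    have h01 : ⟪e 0, e 1⟫_ℝ = 0 := by rw [h.inner, if_neg (by omega)]
    refine ⟨?_, ?_, by simpa using e1, ?_⟩
    · have : (tq n δ e f g 0).1 + e (0+1) = g • e 0 := by
        show g • e 0 - e 1 + e 1 = _
        abel
      rw [this, norm_smul, h00, Real.norm_eq_abs, abs_of_nonneg hg0, mul_one]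
      exact e1
    · refine le_trans ?_ e1
      have h2 : (1 + g^2) ≠ 0 := by positivity
      have e3 : (tq n δ e f g 0).2 - Pf e f (0+1) = (g / (1+g^2)) • (e 0 + g • e 1) := by
        show (1 + g^2)⁻¹ • ((1 + g + g^2) • e 0 - e 1) - Pf e f 1 = _
        have e4 : Pf e f 1 = e 0 - e 1 := by simp [Pf, w.one]
        rw [e4]
        have e5 : (1 + g^2)⁻¹ * (1 + g + g^2) = 1 + g / (1 + g^2) := by field_simp; ring
        have e6 : (1 + g^2)⁻¹ = 1 - g / (1 + g^2) * g := by field_simp; ring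
        rw [smul_sub, smul_smul, e5]
        nth_rewrite 1 [e6]
        module
      rw [e3, norm_smul, Real.norm_eq_abs, abs_of_nonneg (by positivity)]
      have e7 : ‖e 0 + g • e 1‖^2 = 1 + g^2 := by
        rw [norm_add_sq_real, norm_smul, h00, h11, real_inner_smul_right, h01,
          Real.norm_eq_abs, mul_one, sq_abs]
        ring
      have e8 : ‖e 0 + g • e 1‖ ≤ 1 + g^2 := by
        have := norm_nonneg (e 0 + g • e 1)
        nlinarith [sq_nonneg g]
      calc g / (1 + g^2) * ‖e 0 + g • e 1‖ ≤ g / (1 + g^2) * (1 + g^2) := by gcongr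
        _ = g := by field_simp
    · intro hg
      rw [e0, hg]; simp
  | succ m ih =>
    intro hmn hsm
    obtain ⟨i1, i2, i3, i4⟩ := ih (by omega) (fun i hi => hsm i (by omega))
    have hsu := hsm m (by omega)
    have hs0 := abs_nonneg (tS n δ e f g m)
    have hsu' : |tS n δ e f g m| ≤ δ/20 := by nlinarith
    obtain ⟨c1, _, _⟩ := step_r2 w h hn hδ hδ5 (k := m+1) (by omega) (by omega)
      (s := tS n δ e f g m) rfl hsu' i1 i2
    have hmax : max ⟪(tq n δ e f g m).2, Af n δ e f (tq n δ e f g m).2⟫_ℝ (δ/2) =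
        ⟪(tq n δ e f g m).2, Af n δ e f (tq n δ e f g m).2⟫_ℝ := max_eq_left (by linarith)
    have hR : (tq n δ e f g (m+1)).1 = (f (m+1+1) / f (m+1))⁻¹ • ((tq n δ e f g m).1 -
        (1 / ⟪(tq n δ e f g m).2, Af n δ e f (tq n δ e f g m).2⟫_ℝ) •
          Af n δ e f (tq n δ e f g m).2) := by
      rw [← hmax]; rfl
    set R' := (tq n δ e f g (m+1)).1 with hR'
    -- first with the untruncated direction
    set Q' := (f (m+1+1) / f (m+1)) • (tq n δ e f g m).2 + (‖R'‖^2)⁻¹ • R' with hQ'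
    obtain ⟨d1, d2, d3, d4, d5⟩ := step_p2 w h hn hδ hδ5 (k := m+1) (by omega) (by omega)
      (s := tS n δ e f g m) (r := (tq n δ e f g m).1) (q := (tq n δ e f g m).2) (r' := R')
      (q' := Q') rfl hsu i1 i2 hR hQ' rfl
    have hQ : (tq n δ e f g (m+1)).2 = Q' := by
      show (f (m+1+1) / f (m+1)) • (tq n δ e f g m).2 + (max (‖R'‖^2) (1/2))⁻¹ • R' = Q'
      rw [max_eq_left (by linarith)]
    have hS : tS n δ e f g (m+1) = ⟪e 0 + e 1, Q'⟫_ℝ := by rw [tS, hQ]
    rw [hQ, hS]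
    refine ⟨d3, d4, ?_, ?_⟩
    · calc (1.8/δ)^(m+1) * g = 1.8 * (((1.8/δ)^m * g) / δ) := by rw [pow_succ]; ring
        _ ≤ 1.8 * (|tS n δ e f g m| / δ) := by gcongr
        _ ≤ _ := d2
    · intro hg
      have := i4 hg
      rw [this, abs_zero, zero_div, mul_zero] at d5
      exact abs_eq_zero.1 (le_antisymm d5 (abs_nonneg _))

/-- Choice of the perturbation. -/
lemma exists_g (w : Wt n W f) (h : Base n e) (hn : 2 ≤ n) (hδ : 0 < δ) (hδ5 : δ ≤ 1/512) {u : ℝ}
    (hu1 : u ≤ 1) (hu : δ^(n-1) ≤ u) :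
    ∃ g, 0 < g ∧ g ≤ u ∧ (∀ m, m + 2 < n → |tS n δ e f g m| ≤ δ^2/16) ∧
      |tS n δ e f g (n-2)| = δ/20 := by
  have hu0 : 0 < u := lt_of_lt_of_le (by positivity) hu
  set c : ℕ → ℝ := fun m => if m + 2 < n then δ^2/16 else δ/20 with hc
  have hcpos : ∀ m, 0 < c m := by
    intro m; simp only [hc]; split_ifs <;> positivity
  have hcle : ∀ m, c m ≤ δ/20 := by
    intro m; simp only [hc]; split_ifs
    · nlinarith
    · exact le_rfl
  have hne : (Finset.range (n-1)).Nonempty := ⟨0, by rw [Finset.mem_range]; omega⟩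
  set M : ℝ → ℝ := fun g => (Finset.range (n-1)).sup' hne (fun m => |tS n δ e f g m| / c m) with hM
  have hMc : Continuous M := by
    rw [hM]
    apply Continuous.finset_sup'_apply
    intro m _
    exact ((cont_tS hδ m).abs).div_const _
  have hM0 : M 0 ≤ 1 := by
    rw [hM]
    simp only
    apply Finset.sup'_le
    intro m hm
    rw [Finset.mem_range] at hm
    have hz : ∀ i, i + 2 ≤ n → tS n δ e f 0 i = 0 := by
      intro i
      induction i using Nat.strong_induction_on with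
      | _ i ih =>
        intro hi
        refine (tinv w h hn hδ hδ5 le_rfl zero_le_one i hi ?_).2.2.2 rfl
        intro j hj
        rw [ih j hj (by omega), abs_zero]
        positivity
    rw [hz m (by omega), abs_zero, zero_div]
    exact zero_le_one
  have hMu : 1 ≤ M u := by
    by_contra hcon
    push Not at hcon
    rw [hM] at hcon
    simp only [Finset.sup'_lt_iff, Finset.mem_range] at hcon
    have h1 : ∀ m, m < n - 1 → |tS n δ e f u m| < c m := by
      intro m hm
      have := hcon m hm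
      rwa [div_lt_one (hcpos m)] at this
    have h2 := (tinv w h hn hδ hδ5 hu0.le hu1 (n-2) (by omega) (by
      intro i hi
      have := h1 i (by omega)
      simp only [hc] at this
      rw [if_pos (by omega)] at this
      exact this.le)).2.2.1
    have h3 := h1 (n-2) (by omega)
    have h4 := hcle (n-2)
    have h5 : δ ≤ (1.8/δ)^(n-2) * u := by
      calc δ = (1/δ)^(n-2) * δ^(n-1) := by
            have : δ^(n-1) = δ^(n-2) * δ := by rw [← pow_succ]; congr 1; omega
            rw [this, ← mul_assoc, ← mul_pow, one_div, inv_mul_cancel₀ hδ.ne', one_pow, one_mul]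
        _ ≤ (1.8/δ)^(n-2) * u := by
            gcongr
            norm_num
    linarith
  obtain ⟨g, ⟨hg0, hg1⟩, hg⟩ := intermediate_value_Icc hu0.le hMc.continuousOn ⟨hM0, hMu⟩
  have hle : ∀ m, m < n - 1 → |tS n δ e f g m| ≤ c m := by
    intro m hm
    have h1 : |tS n δ e f g m| / c m ≤ M g := by
      rw [hM]
      exact Finset.le_sup' (fun m => |tS n δ e f g m| / c m) (Finset.mem_range.2 hm)
    rw [hg, div_le_one (hcpos m)] at h1
    exact h1
  obtain ⟨m, hm, hmeq⟩ := Finset.exists_mem_eq_sup' hne (fun m => |tS n δ e f g m| / c m)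
  rw [Finset.mem_range] at hm
  have hmeq' : |tS n δ e f g m| = c m := by
    have : M g = |tS n δ e f g m| / c m := hmeq
    rw [hg] at this
    rw [eq_div_iff (hcpos m).ne'] at this
    linarith
  have hle1 : ∀ m, m + 2 < n → |tS n δ e f g m| ≤ δ^2/16 := by
    intro i hi
    have := hle i (by omega)
    simp only [hc] at this
    rwa [if_pos hi] at this
  have hmn : m = n - 2 := by
    by_contra hcon
    have hm2 : m + 2 < n := by omega
    have h1 : |tS n δ e f g m| = δ^2/16 := by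
      rw [hmeq']; simp only [hc]; rw [if_pos hm2]
    -- one more step
    obtain ⟨i1, i2, _, _⟩ := tinv w h hn hδ hδ5 hg0 (hg1.trans hu1) m (by omega)
      (fun i hi => hle1 i (by omega))
    have hs0 := abs_nonneg (tS n δ e f g m)
    have hsu' : |tS n δ e f g m| ≤ δ/20 := by nlinarith
    obtain ⟨c1, _, _⟩ := step_r2 w h hn hδ hδ5 (k := m+1) (by omega) (by omega)
      (s := tS n δ e f g m) rfl hsu' i1 i2
    have hmax : max ⟪(tq n δ e f g m).2, Af n δ e f (tq n δ e f g m).2⟫_ℝ (δ/2) =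
        ⟪(tq n δ e f g m).2, Af n δ e f (tq n δ e f g m).2⟫_ℝ := max_eq_left (by linarith)
    have hR : (tq n δ e f g (m+1)).1 = (f (m+1+1) / f (m+1))⁻¹ • ((tq n δ e f g m).1 -
        (1 / ⟪(tq n δ e f g m).2, Af n δ e f (tq n δ e f g m).2⟫_ℝ) •
          Af n δ e f (tq n δ e f g m).2) := by
      rw [← hmax]; rfl
    set R' := (tq n δ e f g (m+1)).1 with hR'
    set Q' := (f (m+1+1) / f (m+1)) • (tq n δ e f g m).2 + (‖R'‖^2)⁻¹ • R' with hQ'
    obtain ⟨d1, d2, d3, d4, d5⟩ := step_p2 w h hn hδ hδ5 (k := m+1) (by omega) (by omega)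
      (s := tS n δ e f g m) (r := (tq n δ e f g m).1) (q := (tq n δ e f g m).2) (r' := R')
      (q' := Q') rfl h1.le i1 i2 hR hQ' rfl
    have hQ : (tq n δ e f g (m+1)).2 = Q' := by
      show (f (m+1+1) / f (m+1)) • (tq n δ e f g m).2 + (max (‖R'‖^2) (1/2))⁻¹ • R' = Q'
      rw [max_eq_left (by linarith)]
    have hS : tS n δ e f g (m+1) = ⟪e 0 + e 1, Q'⟫_ℝ := by rw [tS, hQ]
    rw [← hS, h1] at d2
    have h6 := (hle (m+1) (by omega)).trans (hcle (m+1))
    have h7 : 1.8 * (δ^2/16/δ) = 0.1125 * δ := by field_simp; norm_num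
    rw [h7] at d2
    linarith
  subst hmn
  have hlast : |tS n δ e f g (n-2)| = δ/20 := by
    rw [hmeq']; simp only [hc]; rw [if_neg (by omega)]
  refine ⟨g, ?_, hg1, hle1, hlast⟩
  rcases hg0.lt_or_eq with h1 | h1
  · exact h1
  · exfalso
    have := (tinv w h hn hδ hδ5 hg0 (hg1.trans hu1) (n-2) (by omega)
      (fun i hi => hle1 i (by omega))).2.2.2 h1.symm
    rw [this, abs_zero] at hlast
    linarith

end Pool.Agent.Helper643.CG
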