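import Mathlib
import Pool.Agent.Helper643.CGLow2C

/-! The true conjugate gradient run of the weighted example. -/

namespace Pool.Agent.Helper643.CG

open scoped InnerProductSpace

variable {E : Type*} [NormedAddCommGroup E] [InnerProductSpace ℝ E]
variable {n : ℕ} {e : ℕ → E} {f : ℕ → ℝ} {δ W g : ℝ}

/-- The run of the weighted bad example, from step `1` on. -/
structure BadRun2 (n : ℕ) (δ g : ℝ) (e : ℕ → E) (f : ℕ → ℝ) (x r p : ℕ → E) (α β : ℕ → ℝ) :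
    Prop where
  x1 : x 1 = e 0
  r1 : r 1 = g • e 0 - e 1
  p1 : p 1 = (1 + g + g^2) • e 0 - e 1
  hα : ∀ k, 1 ≤ k → α k = ‖r k‖^2 / ⟪p k, Af n δ e f (p k)⟫_ℝ
  hx : ∀ k, 1 ≤ k → x (k+1) = x k + α k • p k
  hr : ∀ k, 1 ≤ k → r (k+1) = r k - α k • Af n δ e f (p k)
  hβ : ∀ k, 1 ≤ k → β k = ‖r (k+1)‖^2 / ‖r k‖^2
  hp : ∀ k, 1 ≤ k → p (k+1) = r (k+1) + β k • p k

/-- Conditions on the perturbation. -/
structure GoodG (n : ℕ) (δ g : ℝ) (e : ℕ → E) (f : ℕ → ℝ) : Prop where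
  pos : 0 < g
  le : g ≤ 1
  small : ∀ m, m + 2 < n → |tS n δ e f g m| ≤ δ^2/16
  last : |tS n δ e f g (n-2)| = δ/20

variable {x r p : ℕ → E} {α β : ℕ → ℝ}

lemma GoodG.le_all (hG : GoodG n δ g e f) (hδ : 0 < δ) (hδ5 : δ ≤ 1/512) {m : ℕ}
    (hm : m + 2 ≤ n) : |tS n δ e f g m| ≤ δ/20 := by
  rcases Nat.lt_or_ge (m+2) n with h | h
  · have := hG.small m h
    nlinarith
  · have : m = n - 2 := by omega
    rw [this, hG.last]

lemma GoodG.inv (hG : GoodG n δ g e f) (w : Wt n W f) (h : Base n e) (hn : 2 ≤ n) (hδ : 0 < δ)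
    (hδ5 : δ ≤ 1/512) {m : ℕ} (hm : m + 2 ≤ n) :
    ‖(tq n δ e f g m).1 + e (m+1)‖ ≤ |tS n δ e f g m| ∧
      ‖(tq n δ e f g m).2 - Pf e f (m+1)‖ ≤ |tS n δ e f g m| ∧
      (1.8/δ)^m * g ≤ |tS n δ e f g m| := by
  obtain ⟨a, b, c, _⟩ := tinv w h hn hδ hδ5 hG.pos.le hG.le m hm
    (fun i hi => hG.small i (by omega))
  exact ⟨a, b, c⟩

lemma GoodG.facts (hG : GoodG n δ g e f) (w : Wt n W f) (h : Base n e) (hn : 2 ≤ n) (hδ : 0 < δ)
    (hδ5 : δ ≤ 1/512) {m : ℕ} (hm : m + 2 ≤ n) :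
    0.99 * δ ≤ ⟪(tq n δ e f g m).2, Af n δ e f (tq n δ e f g m).2⟫_ℝ ∧
      0.999 ≤ ‖(tq n δ e f g m).1‖ ∧ ‖(tq n δ e f g m).2‖ ≤ √(1 + W) + 0.0001 := by
  obtain ⟨i1, i2, _⟩ := hG.inv w h hn hδ hδ5 hm
  have hsu := hG.le_all hδ hδ5 hm
  obtain ⟨c1, c2, _⟩ := step_r2 w h hn hδ hδ5 (k := m+1) (by omega) (by omega)
      (s := tS n δ e f g m) rfl hsu i1 i2
  refine ⟨c1, c2, ?_⟩
  have e1 : (tq n δ e f g m).2 = Pf e f (m+1) + ((tq n δ e f g m).2 - Pf e f (m+1)) := by abel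
  rw [e1]
  refine (norm_add_le _ _).trans ?_
  have h1 : ‖Pf e f (m+1)‖ ≤ √(1+W) := by
    apply Real.le_sqrt_of_sq_le
    exact norm_Pf_le w h (by omega) (by omega)
  linarith

/-- Real step in terms of hat variables. -/
lemma real_of_hat (hG : GoodG n δ g e f) (w : Wt n W f) (h : Base n e) (hn : 2 ≤ n) (hδ : 0 < δ)
    (hδ5 : δ ≤ 1/512) (hrun : BadRun2 n δ g e f x r p α β) :
    ∀ m, m + 2 ≤ n → r (m+1) = f (m+1) • (tq n δ e f g m).1 ∧
      p (m+1) = (‖r (m+1)‖^2 / f (m+1)) • (tq n δ e f g m).2 := by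
  intro m
  induction m with
  | zero =>
    intro _
    have h00 : ‖e 0‖ = 1 := h.norm_eq (by omega)
    have h11 : ‖e 1‖ = 1 := h.norm_eq (by omega)
    have h01 : ⟪e 0, e 1⟫_ℝ = 0 := by rw [h.inner, if_neg (by omega)]
    have hr1 : ‖r 1‖^2 = 1 + g^2 := by
      rw [hrun.r1, norm_sub_sq_real, norm_smul, h00, h11, real_inner_smul_left, h01,
        Real.norm_eq_abs, mul_one, sq_abs]
      ring
    constructor
    · show r 1 = f 1 • (g • e 0 - e 1)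
      rw [hrun.r1, w.one, one_smul]
    · show p 1 = (‖r 1‖^2 / f 1) • ((1 + g^2)⁻¹ • ((1 + g + g^2) • e 0 - e 1))
      have h2 : (1 + g^2) ≠ 0 := by positivity
      rw [hrun.p1, hr1, w.one, div_one, smul_smul, mul_inv_cancel₀ h2, one_smul]
  | succ m ih =>
    intro hm
    obtain ⟨i1, i2⟩ := ih (by omega)
    obtain ⟨c1, c2, _⟩ := hG.facts w h hn hδ hδ5 (m := m) (by omega)
    obtain ⟨c1', c2', _⟩ := hG.facts w h hn hδ hδ5 (m := m+1) (by omega)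
    have f0 := w.pos (m+1)
    have f1 := w.pos (m+2)
    set R := (tq n δ e f g m).1 with hR
    set Q := (tq n δ e f g m).2 with hQ
    set V := ⟪Q, Af n δ e f Q⟫_ℝ with hV
    have hV0 : 0 < V := lt_of_lt_of_le (by positivity) c1
    have hmax : max V (δ/2) = V := max_eq_left (by linarith)
    set R' := (tq n δ e f g (m+1)).1 with hR'
    have eR' : R' = (f (m+2) / f (m+1))⁻¹ • (R - (1 / V) • Af n δ e f Q) := by
      rw [← hmax]; rfl
    have hR'0 : 0.999 ≤ ‖R'‖ := c2'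
    have hR'1 : 0.99 ≤ ‖R'‖^2 := by nlinarith
    have eQ' : (tq n δ e f g (m+1)).2 = (f (m+2) / f (m+1)) • Q + (‖R'‖^2)⁻¹ • R' := by
      show (f (m+1+1) / f (m+1)) • Q + (max (‖R'‖^2) (1/2))⁻¹ • R' = _
      rw [max_eq_left (by linarith)]
    have hr0 : 0 < ‖r (m+1)‖^2 := by
      rw [i1, norm_smul, Real.norm_eq_abs, abs_of_pos f0]
      have : 0 < ‖R‖ := by linarith
      positivity
    set ρ := ‖r (m+1)‖^2 with hρ
    have hAp : Af n δ e f (p (m+1)) = (ρ / f (m+1)) • Af n δ e f Q := by rw [i2, Af_smul]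
    have hpAp : ⟪p (m+1), Af n δ e f (p (m+1))⟫_ℝ = (ρ / f (m+1))^2 * V := by
      rw [hAp, i2, real_inner_smul_left, real_inner_smul_right]
      ring
    have hα := hrun.hα (m+1) (by omega)
    rw [hpAp, ← hρ] at hα
    have hαA : α (m+1) * (ρ / f (m+1)) = f (m+1) * (1 / V) := by
      rw [hα]; field_simp
    have er' : r (m+1+1) = f (m+2) • R' := by
      rw [hrun.hr (m+1) (by omega), hAp, smul_smul, hαA, i1, eR', smul_smul, inv_div,
        mul_div_cancel₀ _ f1.ne', smul_sub, smul_smul]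
    refine ⟨er', ?_⟩
    have hβ := hrun.hβ (m+1) (by omega)
    rw [← hρ] at hβ
    have hn' : ‖r (m+1+1)‖^2 = f (m+2)^2 * ‖R'‖^2 := by
      rw [er', norm_smul, mul_pow, Real.norm_eq_abs, sq_abs]
    have hR'2 : ‖R'‖^2 ≠ 0 := by linarith
    have ep : p (m+1+1) = r (m+1+1) + (‖r (m+1+1)‖^2 / f (m+1)) • Q := by
      rw [hrun.hp (m+1) (by omega), hβ, i2, smul_smul]
      congr 2
      field_simp
    rw [ep, eQ', smul_add, smul_smul, smul_smul]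
    show r (m+1+1) + _ = (‖r (m+1+1)‖^2 / f (m+2) * (f (m+2) / f (m+1))) • Q + _
    have e1 : ‖r (m+1+1)‖^2 / f (m+2) * (f (m+2) / f (m+1)) = ‖r (m+1+1)‖^2 / f (m+1) := by
      field_simp
    have e2 : ‖r (m+1+1)‖^2 / f (m+1+1) * (‖R'‖^2)⁻¹ = f (m+2) := by
      rw [hn']
      show f (m+2)^2 * ‖R'‖^2 / f (m+2) * (‖R'‖^2)⁻¹ = f (m+2)
      field_simp
    rw [e1, e2, er', add_comm]

lemma bad_r2 (hG : GoodG n δ g e f) (w : Wt n W f) (h : Base n e) (hn : 2 ≤ n) (hδ : 0 < δ)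
    (hδ5 : δ ≤ 1/512) (hrun : BadRun2 n δ g e f x r p α β) {k : ℕ} (hk1 : 1 ≤ k) (hk : k < n) :
    0 < ⟪p k, Af n δ e f (p k)⟫_ℝ ∧ 0.999 * f k ≤ ‖r k‖ ∧
      ‖α k • p k‖ ≤ f k * ((√(1 + W) + 0.0001) / (0.99 * δ)) := by
  obtain ⟨m, rfl⟩ : ∃ m, k = m + 1 := ⟨k - 1, by omega⟩
  obtain ⟨i1, i2⟩ := real_of_hat hG w h hn hδ hδ5 hrun m (by omega)
  obtain ⟨c1, c2, c3⟩ := hG.facts w h hn hδ hδ5 (m := m) (by omega)
  have f0 := w.pos (m+1)
  set R := (tq n δ e f g m).1 with hR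
  set Q := (tq n δ e f g m).2 with hQ
  set V := ⟪Q, Af n δ e f Q⟫_ℝ with hV
  have hV0 : 0 < V := lt_of_lt_of_le (by positivity) c1
  have hr1 : 0.999 * f (m+1) ≤ ‖r (m+1)‖ := by
    rw [i1, norm_smul, Real.norm_eq_abs, abs_of_pos f0]
    nlinarith
  have hr0 : 0 < ‖r (m+1)‖^2 := by
    have : 0 < ‖r (m+1)‖ := lt_of_lt_of_le (by positivity) hr1
    positivity
  set ρ := ‖r (m+1)‖^2 with hρ
  have hAp : Af n δ e f (p (m+1)) = (ρ / f (m+1)) • Af n δ e f Q := by rw [i2, Af_smul]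
  have hpAp : ⟪p (m+1), Af n δ e f (p (m+1))⟫_ℝ = (ρ / f (m+1))^2 * V := by
    rw [hAp, i2, real_inner_smul_left, real_inner_smul_right]
    ring
  have hα := hrun.hα (m+1) (by omega)
  rw [hpAp, ← hρ] at hα
  have hαA : α (m+1) * (ρ / f (m+1)) = f (m+1) * (1 / V) := by
    rw [hα]; field_simp
  refine ⟨by rw [hpAp]; positivity, hr1, ?_⟩
  rw [i2, smul_smul, hαA, norm_smul, Real.norm_eq_abs, abs_of_pos (by positivity)]
  calc f (m+1) * (1/V) * ‖Q‖ ≤ f (m+1) * (1/(0.99 * δ)) * (√(1 + W) + 0.0001) := by gcongr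
    _ = _ := by ring

lemma bad_last2 (hG : GoodG n δ g e f) (w : Wt n W f) (h : Base n e) (hn : 2 ≤ n) (hδ : 0 < δ)
    (hδ5 : δ ≤ 1/512) (hrun : BadRun2 n δ g e f x r p α β) :
    0.069 * f (n-1) ≤ ‖r n‖ := by
  obtain ⟨m, rfl⟩ : ∃ m, n = m + 2 := ⟨n - 2, by omega⟩
  obtain ⟨i1, i2⟩ := real_of_hat hG w h hn hδ hδ5 hrun m (by omega)
  obtain ⟨c1, c2, c3⟩ := hG.facts w h hn hδ hδ5 (m := m) (by omega)
  obtain ⟨j1, j2, _⟩ := hG.inv w h hn hδ hδ5 (m := m) (by omega)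
  have f0 := w.pos (m+1)
  have hl := step_last w h hn hδ hδ5 (s := tS (m+2) δ e f g m) rfl hG.last j1 j2
  set R := (tq (m+2) δ e f g m).1 with hR
  set Q := (tq (m+2) δ e f g m).2 with hQ
  set V := ⟪Q, Af (m+2) δ e f Q⟫_ℝ with hV
  have hV0 : 0 < V := lt_of_lt_of_le (by positivity) c1
  have hr1 : 0.999 * f (m+1) ≤ ‖r (m+1)‖ := by
    rw [i1, norm_smul, Real.norm_eq_abs, abs_of_pos f0]
    nlinarith
  have hr0 : 0 < ‖r (m+1)‖^2 := by
    have : 0 < ‖r (m+1)‖ := lt_of_lt_of_le (by positivity) hr1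
    positivity
  set ρ := ‖r (m+1)‖^2 with hρ
  have hAp : Af (m+2) δ e f (p (m+1)) = (ρ / f (m+1)) • Af (m+2) δ e f Q := by rw [i2, Af_smul]
  have hpAp : ⟪p (m+1), Af (m+2) δ e f (p (m+1))⟫_ℝ = (ρ / f (m+1))^2 * V := by
    rw [hAp, i2, real_inner_smul_left, real_inner_smul_right]
    ring
  have hα := hrun.hα (m+1) (by omega)
  rw [hpAp, ← hρ] at hα
  have hαA : α (m+1) * (ρ / f (m+1)) = f (m+1) * (1 / V) := by
    rw [hα]; field_simp
  have er' : r (m+1+1) = f (m+1) • (R - (1 / V) • Af (m+2) δ e f Q) := by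
    rw [hrun.hr (m+1) (by omega), hAp, smul_smul, hαA, i1, smul_sub, smul_smul]
  show 0.069 * f (m+1) ≤ ‖r (m+1+1)‖
  rw [er', norm_smul, Real.norm_eq_abs, abs_of_pos f0]
  nlinarith

lemma Lf_e0 (h : Base n e) : Lf n e f (e 0) = 0 := by
  rw [Lf]
  apply Finset.sum_eq_zero
  intro k hk
  rw [Finset.mem_Ico] at hk
  have : ⟪cdf e f k, e 0⟫_ℝ = 0 := by
    rw [cdf, inner_sub_left, real_inner_smul_left, h.inner, h.inner, if_neg (by omega),
      if_neg (by omega)]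
    ring
  rw [this, zero_smul]

lemma Af_e0 (h : Base n e) (hn : 2 ≤ n) : Af n δ e f (e 0) = e 0 + e 1 := by
  rw [Af, Lf_e0 h]
  have e1 : ⟪e 0 + e 1, e 0⟫_ℝ = 1 := by
    rw [inner_add_left, h.inner, h.inner, if_pos ⟨rfl, by omega⟩, if_neg (by omega)]
    ring
  rw [e1]
  module

lemma bad_x2 (hG : GoodG n δ g e f) (w : Wt n W f) (h : Base n e) (hn : 2 ≤ n) (hδ : 0 < δ)
    (hδ5 : δ ≤ 1/512) (hrun : BadRun2 n δ g e f x r p α β) :
    ∀ k, 1 ≤ k → k ≤ n →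
      ‖x k‖ ≤ 1 + (∑ j ∈ Finset.Ico 1 k, f j) * ((√(1 + W) + 0.0001) / (0.99 * δ)) ∧
      e 0 - Af n δ e f (x k) = r k - g • e 0 := by
  intro k hk1
  induction k, hk1 using Nat.le_induction with
  | base =>
    intro _
    constructor
    · rw [hrun.x1, h.norm_eq (by omega)]
      simp
    · rw [hrun.x1, hrun.r1, Af_e0 h hn]
      module
  | succ k hk1 ih =>
    intro hkn
    obtain ⟨i1, i2⟩ := ih (by omega)
    obtain ⟨_, _, c3⟩ := bad_r2 hG w h hn hδ hδ5 hrun hk1 (by omega)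
    constructor
    · rw [hrun.hx k hk1, Finset.sum_Ico_succ_top (by omega), add_mul]
      refine (norm_add_le _ _).trans ?_
      linarith
    · rw [hrun.hx k hk1, hrun.hr k hk1, Af_add, Af_smul]
      calc e 0 - (Af n δ e f (x k) + α k • Af n δ e f (p k))
          = (e 0 - Af n δ e f (x k)) - α k • Af n δ e f (p k) := by abel
        _ = _ := by rw [i2]; abel

/-- size of the perturbation -/
lemma GoodG.g_le (hG : GoodG n δ g e f) (w : Wt n W f) (h : Base n e) (hn : 2 ≤ n) (hδ : 0 < δ)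
    (hδ5 : δ ≤ 1/512) : g ≤ 0.0001 * f (n-1) := by
  obtain ⟨_, _, c⟩ := hG.inv w h hn hδ hδ5 (m := n-2) (by omega)
  rw [hG.last] at c
  have h1 := w.pow_le (n-2)
  have e1 : n - 2 + 1 = n - 1 := by omega
  rw [e1] at h1
  have h2 : (2:ℝ)^(n-2) ≤ (1.8/δ)^(n-2) := by
    gcongr
    rw [le_div_iff₀ hδ]
    linarith
  have hg := hG.pos
  have h3 : (2:ℝ)^(n-2) * g ≤ δ/20 := le_trans (by gcongr) c
  have h4 : (1/2:ℝ)^(n-2) * ((2:ℝ)^(n-2) * g) = g := by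
    rw [← mul_assoc, ← mul_pow]; norm_num
  calc g = (1/2:ℝ)^(n-2) * ((2:ℝ)^(n-2) * g) := h4.symm
    _ ≤ (1/2:ℝ)^(n-2) * (δ/20) := by gcongr
    _ ≤ (1/2:ℝ)^(n-2) * 0.0001 := by gcongr; linarith
    _ ≤ f (n-1) * 0.0001 := by gcongr
    _ = _ := by ring

/-- The true residuals of the bad example stay large. -/
lemma bad_final2 (hG : GoodG n δ g e f) (w : Wt n W f) (h : Base n e) (hn : 2 ≤ n) (hδ : 0 < δ)
    (hδ5 : δ ≤ 1/512) (hrun : BadRun2 n δ g e f x r p α β) {ε : ℝ} (hε0 : 0 < ε)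
    (hε : 65 * ε * (W * √W) ≤ δ * f (n-1)) {k : ℕ} (hk1 : 1 ≤ k) (hk : k ≤ n) :
    ε * (3 * ‖x k‖ + 1) < ‖e 0 - Af n δ e f (x k)‖ := by
  obtain ⟨i1, i2⟩ := bad_x2 hG w h hn hδ hδ5 hrun k hk1 hk
  rw [i2]
  have hgl := hG.g_le w h hn hδ hδ5
  have hg0 := hG.pos
  have fn := w.pos (n-1)
  have b1 : 0.069 * f (n-1) ≤ ‖r k‖ := by
    rcases Nat.lt_or_ge k n with h3 | h3
    · obtain ⟨_, c2, _⟩ := bad_r2 hG w h hn hδ hδ5 hrun hk1 h3
      have : f (n-1) ≤ f k := w.anti (by omega)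
      linarith
    · have : k = n := le_antisymm hk h3
      rw [this]
      exact bad_last2 hG w h hn hδ hδ5 hrun
  have b2 : 0.0689 * f (n-1) ≤ ‖r k - g • e 0‖ := by
    have e1 : r k = (r k - g • e 0) + g • e 0 := by abel
    have e2 := norm_add_le (r k - g • e 0) (g • e 0)
    rw [← e1, norm_smul, h.norm_eq (by omega), Real.norm_eq_abs, abs_of_pos hg0] at e2
    linarith
  refine lt_of_lt_of_le ?_ b2
  have hW := w.one_le_W hn
  have hsW : 1 ≤ √W := by rw [Real.one_le_sqrt]; exact hW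
  have hsum : ∑ j ∈ Finset.Ico 1 k, f j ≤ W := by
    have h1 := w.row 1 le_rfl (by omega)
    rw [w.one] at h1
    simp only [div_one] at h1
    refine le_trans ?_ h1
    apply Finset.sum_le_sum_of_subset_of_nonneg
    · exact Finset.Ico_subset_Ico_right hk
    · intro i _ _; exact (w.pos i).le
  have hsq : √(1 + W) ≤ 1.4143 * √W := by
    rw [Real.sqrt_le_left (by positivity), mul_pow, Real.sq_sqrt (by linarith)]
    nlinarith
  have hT : 1 ≤ δ⁻¹ * (1/512) := by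
    rw [← div_eq_inv_mul, le_div_iff₀ hδ]; linarith
  have hWW : 1 ≤ W * √W := by nlinarith
  have hx : ‖x k‖ ≤ 1.45 * (W * √W) * δ⁻¹ := by
    refine i1.trans ?_
    have c1 : (∑ j ∈ Finset.Ico 1 k, f j) * ((√(1 + W) + 0.0001) / (0.99 * δ)) ≤
        W * ((1.4143 * √W + 0.0001 * √W) / (0.99 * δ)) := by
      gcongr
      linarith
    have c2 : W * ((1.4143 * √W + 0.0001 * √W) / (0.99 * δ)) = (1.4144/0.99) * (W * √W) * δ⁻¹ := by
      field_simp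
      ring
    have c3 : (1:ℝ) ≤ (W * √W) * (δ⁻¹ * (1/512)) := by nlinarith
    have c4 : (1.4144/0.99) * (W * √W) * δ⁻¹ ≤ 1.4288 * (W * √W) * δ⁻¹ := by
      have : 0 ≤ (W * √W) * δ⁻¹ := by positivity
      nlinarith
    nlinarith
  have h3 : 3 * ‖x k‖ + 1 ≤ 4.36 * ((W * √W) * δ⁻¹) := by
    have c3 : (1:ℝ) ≤ (W * √W) * (δ⁻¹ * (1/512)) := by nlinarith
    nlinarith
  calc ε * (3 * ‖x k‖ + 1) ≤ ε * (4.36 * ((W * √W) * δ⁻¹)) := by gcongr
    _ = (4.36/65) * ((65 * ε * (W * √W)) * δ⁻¹) := by ring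
    _ ≤ (4.36/65) * ((δ * f (n-1)) * δ⁻¹) := by gcongr
    _ = (4.36/65) * f (n-1) := by field_simp
    _ < 0.0689 * f (n-1) := by nlinarith

end Pool.Agent.Helper643.CG
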