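import Mathlib
import Pool.Agent.Helper643.CGLow2D
import Pool.Agent.Helper643.CGLowE

/-! The matrix of the weighted example. -/

namespace Pool.Agent.Helper643.CG

open scoped Matrix.Norms.L2Operator InnerProductSpace ENNReal

variable {n : ℕ} {f : ℕ → ℝ} {W δ : ℝ}

/-- The bad matrix with weights. -/
noncomputable def Abad2 (n : ℕ) (δ : ℝ) (f : ℕ → ℝ) : Matrix (Fin n) (Fin n) ℝ := fun i j =>
  (ek n 0 i + ek n 1 i) * (ek n 0 j + ek n 1 j) +
    δ * ∑ k ∈ Finset.Ico 1 n, (ek n k i - f (k+1) / f k * ek n (k+1) i) *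
      (ek n k j - f (k+1) / f k * ek n (k+1) j)

lemma Abad2_symm (n : ℕ) (δ : ℝ) (f : ℕ → ℝ) : (Abad2 n δ f).IsHermitian := by
  ext i j
  simp only [Matrix.conjTranspose_apply, star_trivial, Abad2]
  rw [mul_comm (ek n 0 j + ek n 1 j)]
  congr 1
  congr 1
  exact Finset.sum_congr rfl fun k _ => mul_comm _ _

lemma op_Abad2 (n : ℕ) (δ : ℝ) (f : ℕ → ℝ) (y : EuclideanSpace ℝ (Fin n)) :
    op (Abad2 n δ f) y = Af n δ (ee n) f y := by
  obtain ⟨y, rfl⟩ : ∃ z, y = vec z := ⟨y.ofLp, rfl⟩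
  rw [op_vec]
  ext i
  have e1 : ∀ k, ⟪cdf (ee n) f k, vec y⟫_ℝ = ∑ j, (ek n k j - f (k+1) / f k * ek n (k+1) j) * y j := by
    intro k
    have : cdf (ee n) f k = vec (fun j => ek n k j - f (k+1) / f k * ek n (k+1) j) := rfl
    rw [this, inner_vec]
  have e2 : ⟪ee n 0 + ee n 1, vec y⟫_ℝ = ∑ j, (ek n 0 j + ek n 1 j) * y j := by
    have : ee n 0 + ee n 1 = vec (fun j => ek n 0 j + ek n 1 j) := rfl
    rw [this, inner_vec]
  simp only [Af, Lf, e1, e2]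
  have e3 : ∀ k, (cdf (ee n) f k) i = ek n k i - f (k+1) / f k * ek n (k+1) i := fun k => rfl
  have e4 : (ee n 0 + ee n 1) i = ek n 0 i + ek n 1 i := rfl
  rw [PiLp.add_apply, PiLp.smul_apply, PiLp.smul_apply, e4, WithLp.ofLp_sum, Finset.sum_apply]
  simp only [PiLp.smul_apply, e3, smul_eq_mul]
  have e5 : (Abad2 n δ f).mulVec y i = ∑ j, Abad2 n δ f i j * y j := rfl
  rw [e5]
  have e6 : ∀ j, Abad2 n δ f i j * y j =
      ((ek n 0 j + ek n 1 j) * y j) * (ek n 0 i + ek n 1 i) +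
        δ * ∑ k ∈ Finset.Ico 1 n, ((ek n k j - f (k+1) / f k * ek n (k+1) j) * y j) *
          (ek n k i - f (k+1) / f k * ek n (k+1) i) := by
    intro j
    rw [Abad2, add_mul, mul_assoc δ, Finset.sum_mul]
    congr 1
    · ring
    · congr 1; exact Finset.sum_congr rfl fun k _ => by ring
  rw [Finset.sum_congr rfl fun j _ => e6 j, Finset.sum_add_distrib, ← Finset.sum_mul,
    ← Finset.mul_sum, Finset.sum_comm]
  congr 2
  exact Finset.sum_congr rfl fun k _ => by rw [Finset.sum_mul]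

lemma quad_Abad2 (δ : ℝ) (f : ℕ → ℝ) (y : EuclideanSpace ℝ (Fin n)) :
    ⟪y, op (Abad2 n δ f) y⟫_ℝ = (⟪ee n 0, y⟫_ℝ + ⟪ee n 1, y⟫_ℝ)^2 +
      δ * ∑ k ∈ Finset.Ico 1 n, (⟪ee n k, y⟫_ℝ - f (k+1) / f k * ⟪ee n (k+1), y⟫_ℝ)^2 := by
  rw [op_Abad2, Af, inner_add_right, real_inner_smul_right, real_inner_smul_right, inner_Lf,
    real_inner_comm (ee n 0 + ee n 1) y, inner_add_left]
  congr 1
  · ring
  · congr 1
    refine Finset.sum_congr rfl fun k _ => ?_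
    rw [cdf, inner_sub_left, real_inner_smul_left]
    ring

/-- Schur test. -/
lemma schur (w : Wt n W f) (hn : 2 ≤ n) {a y : ℕ → ℝ} (hy : y n = 0)
    (ha : ∀ k, a k = y k - f (k+1) / f k * y (k+1)) :
    ∑ k ∈ Finset.Ico 1 n, y k^2 ≤ W^2 * ∑ k ∈ Finset.Ico 1 n, a k^2 := by
  have hW := w.one_le_W hn
  have hy1 : ∀ k, 1 ≤ k → k < n → y k = ∑ l ∈ Finset.Ico k n, f l / f k * a l := by
    intro k _ hk
    have e1 : ∀ l ∈ Finset.Ico k n, f l / f k * a l = (f l * y l - f (l+1) * y (l+1)) / f k := by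
      intro l _
      have := (w.pos l).ne'
      have := (w.pos k).ne'
      rw [ha]
      field_simp
    rw [Finset.sum_congr rfl e1, ← Finset.sum_div, Finset.sum_Ico_eq_sum_range]
    have := Finset.sum_range_sub' (fun i => f (k + i) * y (k + i)) (n - k)
    simp only [Nat.add_zero] at this
    have e2 : k + (n - k) = n := by omega
    rw [e2, hy, mul_zero, sub_zero] at this
    have e3 : ∑ i ∈ Finset.range (n - k), (f (k + i) * y (k + i) - f (k + i + 1) * y (k + i + 1)) =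
        f k * y k := by
      rw [← this]
      exact Finset.sum_congr rfl fun i _ => by rw [add_assoc]
    rw [e3]
    have := (w.pos k).ne'
    field_simp
  have hy2 : ∀ k ∈ Finset.Ico 1 n, y k^2 ≤ W * ∑ l ∈ Finset.Ico k n, f l / f k * a l^2 := by
    intro k hk
    rw [Finset.mem_Ico] at hk
    rw [hy1 k hk.1 hk.2]
    have hp : ∀ l, 0 ≤ f l / f k := fun l => (div_pos (w.pos l) (w.pos k)).le
    refine (Finset.sum_sq_le_sum_mul_sum_of_sq_le_mul (Finset.Ico k n)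
      (f := fun l => f l / f k) (g := fun l => f l / f k * a l^2) (fun l _ => hp l)
      (fun l _ => mul_nonneg (hp l) (sq_nonneg _)) (fun l _ => le_of_eq (by ring))).trans ?_
    apply mul_le_mul_of_nonneg_right (w.row k hk.1 hk.2)
    exact Finset.sum_nonneg fun l _ => mul_nonneg (hp l) (sq_nonneg _)
  calc ∑ k ∈ Finset.Ico 1 n, y k^2
      ≤ ∑ k ∈ Finset.Ico 1 n, W * ∑ l ∈ Finset.Ico k n, f l / f k * a l^2 := Finset.sum_le_sum hy2
    _ = W * ∑ k ∈ Finset.Ico 1 n, ∑ l ∈ Finset.Ico k n, f l / f k * a l^2 := by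
        rw [Finset.mul_sum]
    _ = W * ∑ l ∈ Finset.Ico 1 n, ∑ k ∈ Finset.Ico 1 (l+1), f l / f k * a l^2 := by
        congr 1
        apply Finset.sum_comm'
        intro k l
        simp only [Finset.mem_Ico]
        omega
    _ ≤ W * ∑ l ∈ Finset.Ico 1 n, W * a l^2 := by
        apply mul_le_mul_of_nonneg_left _ (by linarith)
        apply Finset.sum_le_sum
        intro l hl
        rw [Finset.mem_Ico] at hl
        rw [← Finset.sum_mul]
        exact mul_le_mul_of_nonneg_right (w.col l hl.1 hl.2) (sq_nonneg _)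
    _ = _ := by rw [← Finset.mul_sum]; ring

lemma quad_Abad2_ge (w : Wt n W f) (hn : 2 ≤ n) (hδ : 0 < δ) (hδ1 : δ ≤ 1)
    (y : EuclideanSpace ℝ (Fin n)) :
    δ / (3 * W^2) * ‖y‖^2 ≤ ⟪y, op (Abad2 n δ f) y⟫_ℝ := by
  rw [quad_Abad2, norm_sq_eq_sum]
  have hW := w.one_le_W hn
  set a : ℕ → ℝ := fun k => ⟪ee n k, y⟫_ℝ with ha
  have han : a n = 0 := by
    rw [ha]; simp only
    rw [(base_ee n).zero n le_rfl, inner_zero_left]
  have h1 := schur w hn (y := a) (a := fun k => a k - f (k+1) / f k * a (k+1)) han (fun k => rfl)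
  set S := ∑ k ∈ Finset.Ico 1 n, (a k - f (k+1) / f k * a (k+1))^2 with hS
  set T := ∑ k ∈ Finset.Ico 1 n, a k^2 with hT
  have hS0 : 0 ≤ S := Finset.sum_nonneg fun _ _ => sq_nonneg _
  have hsum : ∑ k ∈ Finset.range n, a k^2 = a 0^2 + T := by
    rw [Finset.range_eq_Ico, Finset.sum_eq_sum_Ico_succ_bot (by omega : 0 < n)]
  have ha1 : a 1^2 ≤ T := by
    rw [hT]
    apply Finset.single_le_sum (f := fun k => a k^2) (fun i _ => sq_nonneg _)
    rw [Finset.mem_Ico]; omega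
  have h0 : a 0^2 ≤ 2 * (a 0 + a 1)^2 + 2 * a 1^2 := by nlinarith [sq_nonneg (a 0 + 2 * a 1)]
  have h2 : ∑ k ∈ Finset.range n, a k^2 ≤ 2 * (a 0 + a 1)^2 + 3 * W^2 * S := by
    rw [hsum]; nlinarith
  calc δ / (3 * W^2) * ∑ k ∈ Finset.range n, a k^2
      ≤ δ / (3 * W^2) * (2 * (a 0 + a 1)^2 + 3 * W^2 * S) := by gcongr
    _ = (2 * δ / (3 * W^2)) * (a 0 + a 1)^2 + δ * S := by field_simp
    _ ≤ 1 * (a 0 + a 1)^2 + δ * S := by
        have : 2 * δ / (3 * W^2) ≤ 1 := by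
          rw [div_le_one (by positivity)]
          nlinarith
        gcongr
    _ = _ := by rw [one_mul]

lemma norm_Af_le {E : Type*} [NormedAddCommGroup E] [InnerProductSpace ℝ E] {e : ℕ → E}
    (w : Wt n W f) (h : Base n e) (hn : 2 ≤ n) (hδ : 0 < δ) (hδ1 : δ ≤ 0.1) (y : E) :
    ‖Af n δ e f y‖ ≤ 3 * ‖y‖ := by
  rw [Af]
  refine (norm_add_le _ _).trans ?_
  rw [norm_smul, norm_smul, Real.norm_eq_abs, Real.norm_eq_abs, abs_of_pos hδ]
  have h1 := norm_v_le h hn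
  have h2 := norm_Lf w h y
  have h3 : |⟪e 0 + e 1, y⟫_ℝ| ≤ ‖e 0 + e 1‖ * ‖y‖ := abs_real_inner_le_norm _ _
  have h4 := norm_nonneg y
  have h5 := norm_nonneg (e 0 + e 1)
  calc |⟪e 0 + e 1, y⟫_ℝ| * ‖e 0 + e 1‖ + δ * ‖Lf n e f y‖
      ≤ (1.4143 * ‖y‖) * 1.4143 + 0.1 * (4 * ‖y‖) := by gcongr; exact h3.trans (by gcongr)
    _ ≤ _ := by nlinarith

lemma quad_Abad2_le (w : Wt n W f) (hn : 2 ≤ n) (hδ : 0 < δ) (hδ1 : δ ≤ 0.1)
    (y : EuclideanSpace ℝ (Fin n)) : ⟪y, op (Abad2 n δ f) y⟫_ℝ ≤ 3 * ‖y‖^2 := by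
  refine (real_inner_le_norm _ _).trans ?_
  rw [op_Abad2]
  have := norm_Af_le w (base_ee n) hn hδ hδ1 y
  have h4 := norm_nonneg y
  nlinarith

lemma norm_Abad2_le (w : Wt n W f) (hn : 2 ≤ n) (hδ : 0 < δ) (hδ1 : δ ≤ 0.1) :
    ‖Abad2 n δ f‖ ≤ 3 := by
  apply opNorm_le (by norm_num)
  intro y
  rw [op_Abad2]
  exact norm_Af_le w (base_ee n) hn hδ hδ1 y

/-- Representability of the entries. -/
lemma rep_Abad2 (w : Wt n W f) {c : ℕ → ℤ} (hc : ∀ k, f (k+1) / f k = (c k : ℝ) / 2) {j t : ℕ}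
    (hj : 3 ≤ j) (ht : j + 3 ≤ t) (i i' : Fin n) :
    Rep t (Abad2 n ((1/2)^j) f i i') := by
  set z : ℤ := ((if (i:ℕ) = 0 then 1 else 0) + (if (i:ℕ) = 1 then 1 else 0)) *
    ((if (i':ℕ) = 0 then 1 else 0) + (if (i':ℕ) = 1 then 1 else 0)) * 2^(j+2) +
    ∑ k ∈ Finset.Ico 1 n, (2 * (if (i:ℕ) = k then 1 else 0) - c k * (if (i:ℕ) = k+1 then 1 else 0)) *
      (2 * (if (i':ℕ) = k then 1 else 0) - c k * (if (i':ℕ) = k+1 then 1 else 0)) with hz
  set S := ∑ k ∈ Finset.Ico 1 n, (ek n k i - f (k+1) / f k * ek n (k+1) i) *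
    (ek n k i' - f (k+1) / f k * ek n (k+1) i') with hS
  have hzr : (z:ℝ) = (ek n 0 i + ek n 1 i) * (ek n 0 i' + ek n 1 i') * 2^(j+2) + 4 * S := by
    rw [hz, hS]
    push_cast
    rw [Finset.mul_sum]
    congr 1
    refine Finset.sum_congr rfl fun k _ => ?_
    rw [hc k]
    simp only [ek]
    ring
  have hSb : |S| ≤ 4 := by
    have h1 := abs_inner_Lf w (base_ee n) (ee n i) (ee n i')
    rw [inner_Lf, (base_ee n).norm_eq i.2, (base_ee n).norm_eq i'.2] at h1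
    have h2 : ∀ (k : ℕ) (i : Fin n), ⟪cdf (ee n) f k, ee n i⟫_ℝ =
        ek n k i - f (k+1) / f k * ek n (k+1) i := by
      intro k i
      rw [real_inner_comm]
      exact inner_ee i (fun j => ek n k j - f (k+1) / f k * ek n (k+1) j)
    simp only [h2] at h1
    rw [hS]; linarith
  refine ⟨z, -((j+2 : ℕ):ℤ), ?_, ?_⟩
  · have h1 : |(z:ℝ)| < 2^t := by
      have h3 : ∀ i : Fin n, 0 ≤ ek n 0 i + ek n 1 i ∧ ek n 0 i + ek n 1 i ≤ 1 := by
        intro i
        simp only [ek]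
        split_ifs with h1 h2 <;> first | omega | norm_num
      have h4 : |(ek n 0 i + ek n 1 i) * (ek n 0 i' + ek n 1 i') * 2^(j+2)| ≤ 2^(j+2) := by
        rw [abs_mul, abs_mul, abs_of_nonneg (h3 i).1, abs_of_nonneg (h3 i').1,
          abs_of_pos (by positivity : (0:ℝ) < 2^(j+2))]
        calc (ek n 0 i + ek n 1 i) * (ek n 0 i' + ek n 1 i') * 2^(j+2) ≤ 1 * 1 * 2^(j+2) := by
              have := (h3 i).1
              have := (h3 i').1
              have := (h3 i).2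
              have := (h3 i').2
              gcongr
          _ = _ := by ring
      rw [hzr]
      refine (abs_add_le _ _).trans_lt ?_
      have h5 : (2:ℝ)^(j+3) ≤ 2^t := pow_le_pow_right₀ (by norm_num) ht
      have h6 : (2:ℝ)^5 ≤ 2^(j+2) := pow_le_pow_right₀ (by norm_num) (by omega)
      have h7 : (2:ℝ)^(j+3) = 2 * 2^(j+2) := by ring
      have h8 : |4 * S| ≤ 16 := by rw [abs_mul, abs_of_pos (by norm_num : (0:ℝ) < 4)]; linarith
      norm_num at h6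
      linarith
    have h2 : ((|z| : ℤ) : ℝ) < ((2^t : ℤ) : ℝ) := by push_cast; exact h1
    exact_mod_cast h2
  · rw [hzr, zpow_neg, zpow_natCast, Abad2, ← hS]
    have h1 : (1/2:ℝ)^j = ((2:ℝ)^j)⁻¹ := by rw [one_div, inv_pow]
    have h2 : (2:ℝ)^(j+2) = 2^j * 4 := by rw [pow_add]; norm_num
    rw [h1, h2]
    field_simp

lemma badRun2_st {δ g : ℝ} {f : ℕ → ℝ} {A : Matrix (Fin n) (Fin n) ℝ} (hA : A = Abad2 n δ f)
    {S : ℕ → (Fin n → ℝ) × (Fin n → ℝ) × (Fin n → ℝ)}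
    (hS : S = st A (ek n 0) (ek n 0) (g • ek n 0 - ek n 1) ((1 + g + g^2) • ek n 0 - ek n 1)) :
    BadRun2 n δ g (ee n) f (fun k => vec (S k).1) (fun k => vec (S k).2.1)
      (fun k => vec (S k).2.2)
      (fun k => (∑ i, (S k).2.1 i * (S k).2.1 i) / (∑ i, (S k).2.2 i * A.mulVec (S k).2.2 i))
      (fun k => (∑ i, (S (k+1)).2.1 i * (S (k+1)).2.1 i) /
        (∑ i, (S k).2.1 i * (S k).2.1 i)) := by
  have hsucc : ∀ k, 1 ≤ k → S (k+1) = nxt A (S k) := fun k hk => by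
    rw [hS]; exact st_succ _ _ _ _ _ hk
  have hin : ∀ y : Fin n → ℝ, ⟪vec y, Af n δ (ee n) f (vec y)⟫_ℝ =
      ∑ i, y i * A.mulVec y i := by
    intro y
    rw [hA, ← op_Abad2, op_vec, inner_vec]
  constructor
  · simp only [hS]; rfl
  · simp only [hS]; rfl
  · simp only [hS]; rfl
  · intro k _
    simp only [norm_sq_vec, hin]
  · intro k hk
    simp only [hsucc k hk]
    rfl
  · intro k hk
    simp only [hsucc k hk, ← op_Abad2, ← hA, op_vec]
    rfl
  · intro k _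
    simp only [norm_sq_vec]
  · intro k hk
    simp only [hsucc k hk]
    rfl

end Pool.Agent.Helper643.CG
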