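import Mathlib
import Pool.Agent.Helper643.CGLow2E

/-! Failure of low precision for the weighted example. -/

namespace Pool.Agent.Helper643.CG

open scoped Matrix.Norms.L2Operator InnerProductSpace ENNReal

variable {n : ℕ}

theorem not_good_bad2 (brk : Prop) {κ : ℝ≥0∞} {ε W : ℝ} {f : ℕ → ℝ} {j t : ℕ} (hn : 2 ≤ n)
    (w : Wt n W f) {c : ℕ → ℤ} (hc : ∀ k, f (k+1) / f k = (c k : ℝ) / 2)
    (hε0 : 0 < ε) (hε1 : ε < 1) (hj : 9 ≤ j)
    (hε : 65 * ε * (W * √W) ≤ (1/2)^j * f (n-1))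
    (hκ : ENNReal.ofReal (9 * W^2 * 2^j) ≤ κ) (ht1 : j + 3 ≤ t) (ht2 : t ≤ (n-1) * j) :
    ¬ Good brk n κ ε t := by
  set δ : ℝ := (1/2)^j with hδdef
  have hδ2 : δ * 2^j = 1 := by
    rw [hδdef, ← mul_pow]; norm_num
  have hδ : 0 < δ := by positivity
  have hδ5 : δ ≤ 1/512 := by
    rw [hδdef]
    calc (1/2:ℝ)^j ≤ (1/2)^9 := pow_le_pow_of_le_one (by norm_num) (by norm_num) hj
      _ = 1/512 := by norm_num
  have hδs : δ ≤ 0.1 := by linarith
  have hW := w.one_le_W hn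
  set u : ℝ := 1/2^t with hu
  have hu0 : 0 ≤ u := by positivity
  have hu1 : u ≤ 1 := by
    rw [hu, div_le_one (by positivity)]
    exact one_le_pow₀ (by norm_num)
  have hδu : δ^(n-1) ≤ u := by
    have e2 : δ^(n-1) = 1 / 2^((n-1)*j) := by
      rw [hδdef, ← pow_mul, mul_comm j (n-1), one_div, inv_pow, one_div]
    rw [e2, hu]
    apply one_div_le_one_div_of_le (by positivity)
    exact pow_le_pow_right₀ (by norm_num) ht2
  have hb := base_ee n
  obtain ⟨g, hg0, hgu, hgs, hgl⟩ := exists_g w hb hn hδ hδ5 hu1 hδu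
  have hG : GoodG n δ g (ee n) f := ⟨hg0, hgu.trans hu1, hgs, hgl⟩
  intro hgood
  set A := Abad2 n δ f with hA
  have hAs : A.IsHermitian := Abad2_symm n δ f
  have hc0 : 0 < δ / (3 * W^2) := by positivity
  have hlo := quad_Abad2_ge w hn hδ (by linarith : δ ≤ 1)
  have hhi := quad_Abad2_le w hn hδ hδs
  have hpd : A.PosDef := posDef_of hAs hc0 hlo
  have hbn : ‖ee n 0‖ = 1 := hb.norm_eq (by omega)
  have hbsum : ∑ i, ek n 0 i * ek n 0 i = 1 := by
    rw [← norm_sq_vec]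
    have : ‖vec (ek n 0)‖ = 1 := hbn
    rw [this]; norm_num
  have hAe0 : A.mulVec (ek n 0) = ek n 0 + ek n 1 := by
    have h1 := op_Abad2 n δ f (ee n 0)
    rw [Af_e0 hb hn, ee, op_vec] at h1
    have := congrArg WithLp.ofLp h1
    exact this
  have hd0 : ∑ i, ek n 0 i * (ek n 0 + ek n 1) i = 1 := by
    have h1 : ⟪ee n 0, ee n 0 + ee n 1⟫_ℝ = 1 := by
      rw [inner_add_right, hb.inner, hb.inner, if_pos ⟨rfl, by omega⟩, if_neg (by omega)]
      ring
    have h3 : ⟪ee n 0, ee n 0 + ee n 1⟫_ℝ = ∑ i, ek n 0 i * (ek n 0 + ek n 1) i := by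
      rw [← inner_vec]; rfl
    rw [← h3, h1]
  have hρ1 : ∑ i, (g • ek n 0 - ek n 1) i * (g • ek n 0 - ek n 1) i = 1 + g^2 := by
    rw [← norm_sq_vec]
    have h1 : vec (g • ek n 0 - ek n 1) = g • ee n 0 - ee n 1 := rfl
    rw [h1, norm_sub_sq_real, norm_smul, hbn, hb.norm_eq (show 1 < n by omega),
      real_inner_smul_left, hb.inner, if_neg (by omega), Real.norm_eq_abs, mul_one, sq_abs]
    ring
  set S := st A (ek n 0) (ek n 0) (g • ek n 0 - ek n 1) ((1 + g + g^2) • ek n 0 - ek n 1) with hS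
  have hbad := badRun2_st (n := n) (δ := δ) (g := g) (f := f) hA hS
  obtain ⟨w', ρ, d, α, β, hrun⟩ := run_of (u := u) hu0 (by omega : 1 ≤ n) (A := A) (b := ek n 0)
    (x1 := ek n 0) (r1 := g • ek n 0 - ek n 1) (p1 := (1 + g + g^2) • ek n 0 - ek n 1)
    (w0 := ek n 0 + ek n 1) (d0 := 1) (α0 := 1) (β0 := 1 + g^2) (K := n)
    (by rw [hbsum]; norm_num)
    (by rw [← hAe0]; exact FlMulVec.exact hu0 (by omega) _ _)
    (by
      have := FlInner.exact hu0 (by omega : 1 ≤ n) (ek n 0) (ek n 0 + ek n 1)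
      rw [hd0] at this; exact this)
    one_ne_zero
    (by rw [hbsum]; have := Fl.exact hu0 (1:ℝ); simpa using this)
    (by
      intro i
      exact ⟨_, Fl.exact hu0 _, by have := Fl.exact hu0 (ek n 0 i); simpa using this⟩)
    (by
      intro i
      by_cases hi : (i:ℕ) = 0
      · refine ⟨1 - g, ⟨-g, by rw [abs_neg, abs_of_pos hg0]; exact hgu, ?_⟩, ?_⟩
        · simp [ek, hi]; ring
        · have := Fl.exact hu0 g
          simpa [ek, hi] using this
      · refine ⟨_, Fl.exact hu0 _, ?_⟩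
        have : (g • ek n 0 - ek n 1) i = ek n 0 i - 1 * (ek n 0 + ek n 1) i := by
          simp [ek, hi]
        rw [this]; exact Fl.exact hu0 _)
    (by rw [hbsum, hρ1, div_one]; exact Fl.exact hu0 _)
    (by
      intro i
      refine ⟨_, Fl.exact hu0 _, ?_⟩
      have : ((1 + g + g^2) • ek n 0 - ek n 1) i =
          (g • ek n 0 - ek n 1) i + (1 + g^2) * ek n 0 i := by
        simp; ring
      rw [this]; exact Fl.exact hu0 _)
    (by
      intro k hk1 hkn
      obtain ⟨c1, c2, _⟩ := bad_r2 hG w hb hn hδ hδ5 hbad hk1 hkn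
      constructor
      · rw [← norm_sq_vec]
        have : 0 < ‖vec (S k).2.1‖ := lt_of_lt_of_le (by have := w.pos k; positivity) c2
        positivity
      · rw [← inner_vec, ← op_vec, op_Abad2]
        exact c1.ne')
  obtain ⟨k, hkn, hk⟩ := hgood A (ek n 0) hpd
    (fun i i' => cond_of hAs hc0 (by norm_num) hlo hhi (by
      refine le_trans (le_of_eq ?_) hκ
      congr 1
      have : δ = 1 / 2^j := by rw [hδdef, one_div, inv_pow, one_div]
      rw [this]
      field_simp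
      norm_num) i i')
    (by
      intro h0
      rw [h0] at hbsum
      simp at hbsum)
    (fun i i' => rep_Abad2 w hc (by omega) ht1 i i')
    (fun i => by
      simp only [ek]
      split_ifs
      · exact rep_one (by omega)
      · exact rep_zero t)
    n _ _ _ _ _ _ _ _ le_rfl hrun (Or.inl rfl)
  rw [eta, ← norm_vec, ← norm_vec, ← norm_vec] at hk
  have hbn' : ‖vec (ek n 0)‖ = 1 := hbn
  rw [hbn'] at hk
  have hden : 0 < ‖A‖ * ‖vec (S k).1‖ + 1 := by positivity
  rw [div_le_iff₀ hden] at hk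
  rcases Nat.eq_zero_or_pos k with h0 | h0
  · subst h0
    have e1 : (S 0).1 = 0 := rfl
    rw [e1, Matrix.mulVec_zero, sub_zero, hbn'] at hk
    have e2 : ‖vec (0 : Fin n → ℝ)‖ = 0 := by
      have : vec (0 : Fin n → ℝ) = 0 := rfl
      rw [this, norm_zero]
    rw [e2] at hk
    linarith
  · have h3 := bad_final2 hG w hb hn hδ hδ5 hbad (ε := ε) hε0 hε h0 hkn
    have h4 : vec (ek n 0 - A.mulVec (S k).1) = ee n 0 - Af n δ (ee n) f (vec (S k).1) := by
      rw [← op_Abad2, op_vec]; rfl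
    rw [h4] at hk
    have h5 : ‖A‖ ≤ 3 := norm_Abad2_le w hn hδ hδs
    have h6 : ε * (‖A‖ * ‖vec (S k).1‖ + 1) ≤ ε * (3 * ‖vec (S k).1‖ + 1) := by gcongr
    linarith

end Pool.Agent.Helper643.CG
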