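import Mathlib
import Pool.Agent.Helper643.CGLow2F
import Pool.Agent.Helper643.CGFinal

/-! Choice of the weights and of the parameters of the weighted example. -/

namespace Pool.Agent.Helper643.CG

open scoped ENNReal
open Real (logb)

variable {n : ℕ}

lemma div_mod_step {M : ℕ} (hM : 1 ≤ M) (k : ℕ) :
    ((k+1)/M = k/M ∧ (k+1)%M = k%M+1) ∨ ((k+1)/M = k/M+1 ∧ (k+1)%M = 0 ∧ k%M + 1 = M) := by
  have h1 := Nat.div_add_mod k M
  have h2 := Nat.mod_lt k (show 0 < M by omega)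
  rcases Nat.lt_or_ge (k%M+1) M with h3 | h3
  · left
    rw [Nat.div_mod_unique (by omega)]
    constructor
    · linarith
    · exact h3
  · right
    have h4 : k%M + 1 = M := by omega
    have h5 : (k+1)/M = k/M+1 ∧ (k+1)%M = 0 := by
      rw [Nat.div_mod_unique (by omega)]
      constructor
      · rw [mul_add]; linarith
      · omega
    exact ⟨h5.1, h5.2, h4⟩

/-- The weights `2^{-⌊(k-1)/M⌋}`. -/
noncomputable def fw (M k : ℕ) : ℝ := (1/2)^((k-1)/M)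

lemma fw_pos (M k : ℕ) : 0 < fw M k := by unfold fw; positivity

lemma fw_step {M : ℕ} (hM : 1 ≤ M) (k : ℕ) :
    (fw M (k+2) = fw M (k+1) ∧ (k+1)%M = k%M+1) ∨
      (fw M (k+2) = fw M (k+1)/2 ∧ (k+1)%M = 0 ∧ k%M + 1 = M) := by
  rcases div_mod_step hM k with ⟨h1, h2⟩ | ⟨h1, h2, h3⟩
  · left
    refine ⟨?_, h2⟩
    simp only [fw, show k + 2 - 1 = k + 1 by omega, show k + 1 - 1 = k by omega, h1]
  · right
    refine ⟨?_, h2, h3⟩
    simp only [fw, show k + 2 - 1 = k + 1 by omega, show k + 1 - 1 = k by omega, h1]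
    rw [pow_succ]; ring

lemma fw_row {M : ℕ} (hM : 1 ≤ M) (d : ℕ) : ∀ k, 1 ≤ k →
    ∑ l ∈ Finset.Ico k (k+d), fw M l ≤ (2 * M - ((k-1)%M : ℕ)) * fw M k := by
  induction d with
  | zero =>
    intro k _
    simp only [Nat.add_zero, Finset.Ico_self, Finset.sum_empty]
    have h2 := Nat.mod_lt (k-1) (show 0 < M by omega)
    have h3 : (((k-1)%M : ℕ):ℝ) ≤ M := by exact_mod_cast h2.le
    have h4 : (0:ℝ) ≤ M := Nat.cast_nonneg M
    have := fw_pos M k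
    apply mul_nonneg _ this.le
    linarith
  | succ d ih =>
    intro k hk
    obtain ⟨j, rfl⟩ : ∃ j, k = j + 1 := ⟨k - 1, by omega⟩
    rw [Finset.sum_eq_sum_Ico_succ_bot (by omega)]
    have h1 := ih (j+1+1) (by omega)
    have e1 : j + 1 + 1 + d = j + 1 + (d + 1) := by omega
    rw [e1] at h1
    have h0 := fw_pos M (j+1)
    simp only [Nat.add_sub_cancel] at h1 ⊢
    rcases fw_step hM j with ⟨h2, h3⟩ | ⟨h2, h3, h4⟩
    · rw [h3] at h1
      have h2' : fw M (j+1+1) = fw M (j+1) := h2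
      rw [h2'] at h1
      push_cast at h1
      linarith
    · rw [h3] at h1
      have h2' : fw M (j+1+1) = fw M (j+1)/2 := h2
      rw [h2'] at h1
      have h5 : ((j % M : ℕ):ℝ) + 1 = M := by exact_mod_cast h4
      push_cast at h1
      have h6 : (2 * (M:ℝ) - (j % M : ℕ)) = M + 1 := by linarith
      rw [h6]
      linarith

lemma fw_col {M : ℕ} (hM : 1 ≤ M) : ∀ l,
    ∑ k ∈ Finset.Ico 1 (l+2), (fw M k)⁻¹ ≤ (M + 1 + (l%M : ℕ)) * (fw M (l+1))⁻¹ := by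
  intro l
  induction l with
  | zero =>
    have e1 : fw M 1 = 1 := by simp [fw]
    simp [e1]
  | succ l ih =>
    rw [Finset.sum_Ico_succ_top (by omega)]
    have h0 := fw_pos M (l+1)
    have h0' := inv_pos.2 h0
    rcases fw_step hM l with ⟨h2, h3⟩ | ⟨h2, h3, h4⟩
    · rw [h3, h2]
      push_cast
      linarith
    · rw [h3, h2, inv_div]
      have h5 : ((l % M : ℕ):ℝ) + 1 = M := by exact_mod_cast h4
      have h6 : ((M:ℝ) + 1 + (l % M : ℕ)) = 2 * M := by linarith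
      rw [h6] at ih
      have e1 : 2 / fw M (l+1) = 2 * (fw M (l+1))⁻¹ := by ring
      rw [e1]
      push_cast
      linarith

lemma wt_fw {M : ℕ} (hM : 1 ≤ M) : Wt n (2 * M) (fw M) where
  pos := fw_pos M
  one := by simp [fw]
  lo := by
    intro k
    rcases Nat.eq_zero_or_pos k with h0 | h0
    · subst h0; simp [fw]; norm_num
    · obtain ⟨j, rfl⟩ : ∃ j, k = j + 1 := ⟨k - 1, by omega⟩
      have h0 := fw_pos M (j+1)
      rcases fw_step hM j with ⟨h2, _⟩ | ⟨h2, _⟩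
      · show _ ≤ fw M (j+2); rw [h2]; linarith
      · show _ ≤ fw M (j+2); rw [h2]
  hi := by
    intro k
    rcases Nat.eq_zero_or_pos k with h0 | h0
    · subst h0; simp [fw]
    · obtain ⟨j, rfl⟩ : ∃ j, k = j + 1 := ⟨k - 1, by omega⟩
      have h0 := fw_pos M (j+1)
      rcases fw_step hM j with ⟨h2, _⟩ | ⟨h2, _⟩
      · show fw M (j+2) ≤ _; rw [h2]
      · show fw M (j+2) ≤ _; rw [h2]; linarith
  row := by
    intro k hk1 hk
    have h1 := fw_row hM (n - k) k hk1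
    have e1 : k + (n - k) = n := by omega
    rw [e1] at h1
    rw [← Finset.sum_div, div_le_iff₀ (fw_pos M k)]
    refine h1.trans ?_
    have h2 : (0:ℝ) ≤ ((k-1)%M : ℕ) := Nat.cast_nonneg _
    have := fw_pos M k
    nlinarith
  col := by
    intro l hl1 hl
    obtain ⟨j, rfl⟩ : ∃ j, l = j + 1 := ⟨l - 1, by omega⟩
    have h1 := fw_col hM j
    have h0 := fw_pos M (j+1)
    have e1 : ∑ k ∈ Finset.Ico 1 (j+1+1), fw M (j+1) / fw M k =
        fw M (j+1) * ∑ k ∈ Finset.Ico 1 (j+2), (fw M k)⁻¹ := by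
      rw [Finset.mul_sum]
      exact Finset.sum_congr rfl fun k _ => by rw [div_eq_mul_inv]
    rw [e1]
    have h2 : (((j % M : ℕ)):ℝ) + 1 ≤ M := by
      have := Nat.mod_lt j (show 0 < M by omega)
      exact_mod_cast this
    calc fw M (j+1) * ∑ k ∈ Finset.Ico 1 (j+2), (fw M k)⁻¹
        ≤ fw M (j+1) * ((M + 1 + (j%M : ℕ)) * (fw M (j+1))⁻¹) := by gcongr
      _ = M + 1 + (j%M : ℕ) := by field_simp
      _ ≤ _ := by linarith

lemma fw_c {M : ℕ} (hM : 1 ≤ M) : ∃ c : ℕ → ℤ, ∀ k, fw M (k+1) / fw M k = (c k : ℝ) / 2 := by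
  have : ∀ k, ∃ c : ℤ, fw M (k+1) / fw M k = (c : ℝ) / 2 := by
    intro k
    rcases Nat.eq_zero_or_pos k with h0 | h0
    · subst h0
      refine ⟨2, ?_⟩
      simp [fw]
    · obtain ⟨j, rfl⟩ : ∃ j, k = j + 1 := ⟨k - 1, by omega⟩
      have h0 := (fw_pos M (j+1)).ne'
      rcases fw_step hM j with ⟨h2, _⟩ | ⟨h2, _⟩
      · refine ⟨2, ?_⟩
        show fw M (j+2) / _ = _
        rw [h2, div_self h0]; norm_num
      · refine ⟨1, ?_⟩
        show fw M (j+2) / _ = _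
        rw [h2]; field_simp; norm_num
  choose c hc using this
  exact ⟨c, hc⟩

lemma fail_M (brk : Prop) {κ : ℝ≥0∞} {ε : ℝ} {M j t : ℕ} (hn : 2 ≤ n) (hκ1 : 1 ≤ κ) (hε0 : 0 < ε)
    (hε1 : ε < 1) (hM : 1 ≤ M) (hj : 9 ≤ j)
    (h1 : 33800 * ε^2 * (M:ℝ)^3 * 4^j * 4^((n-2)/M) ≤ 1)
    (h2 : ENNReal.ofReal (36 * (M:ℝ)^2 * 2^j) ≤ κ) (ht1 : 1 ≤ t) (ht2 : t ≤ (n-1)*j) :
    ¬ Good brk n κ ε t := by
  have hM1 : (1:ℝ) ≤ M := by exact_mod_cast hM
  have e4 : (4:ℝ)^j = (2^j)^2 := by rw [← pow_mul, mul_comm, pow_mul]; norm_num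
  have h4 : (1:ℝ) ≤ 4^((n-2)/M) := one_le_pow₀ (by norm_num)
  rcases Nat.lt_or_ge t (j+3) with h3 | h3
  · apply not_good_eps brk (by omega) hκ1 hε0 ht1
    have h5 : (2:ℝ)^t ≤ 2^(j+2) := pow_le_pow_right₀ (by norm_num) (by omega)
    have h6 : (2:ℝ)^(j+2) = 4 * 2^j := by rw [pow_add]; ring
    have h7 : (12 * (ε * 2^j))^2 ≤ 1^2 := by
      have h8 : 33800 * (ε * 2^j)^2 ≤ 1 := by
        refine le_trans ?_ h1
        calc 33800 * (ε * 2^j)^2 = 33800 * ε^2 * 1^3 * 4^j * 1 := by rw [e4]; ring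
          _ ≤ _ := by gcongr
      nlinarith
    have h8 := abs_le_of_sq_le_sq h7 (by norm_num)
    have h9 := (abs_le.1 h8).2
    calc 3 * ε * 2^t ≤ 3 * ε * 2^(j+2) := by gcongr
      _ = 12 * (ε * 2^j) := by rw [h6]; ring
      _ ≤ 1 := h9
  · obtain ⟨c, hc⟩ := fw_c hM
    refine not_good_bad2 brk hn (wt_fw hM) hc hε0 hε1 hj ?_ ?_ h3 ht2
    · have e1 : fw M (n-1) = (1/2)^((n-2)/M) := by rw [fw, show n - 1 - 1 = n - 2 by omega]
      rw [e1]
      set W : ℝ := 2 * M with hW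
      have hW0 : 0 ≤ W := by positivity
      refine (abs_le_of_sq_le_sq' ?_ (by positivity)).2
      have e2 : (65 * ε * (W * √W))^2 = 4225 * ε^2 * W^3 := by
        rw [mul_pow, mul_pow, mul_pow, Real.sq_sqrt hW0]; ring
      have e3 : ((1/2:ℝ)^j * (1/2)^((n-2)/M))^2 * (4^j * 4^((n-2)/M)) = 1 := by
        have a1 : ∀ i : ℕ, ((1/2:ℝ)^i)^2 * 4^i = 1 := by
          intro i
          rw [← pow_mul, mul_comm i 2, pow_mul, ← mul_pow]
          norm_num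
        calc _ = (((1/2:ℝ)^j)^2 * 4^j) * (((1/2)^((n-2)/M))^2 * 4^((n-2)/M)) := by ring
          _ = 1 := by rw [a1, a1, mul_one]
      rw [e2]
      have e5 : (0:ℝ) < 4^j * 4^((n-2)/M) := by positivity
      have e6 : 4225 * ε^2 * W^3 * (4^j * 4^((n-2)/M)) ≤
          ((1/2:ℝ)^j * (1/2)^((n-2)/M))^2 * (4^j * 4^((n-2)/M)) := by
        rw [e3, hW]
        calc _ = 33800 * ε^2 * (M:ℝ)^3 * 4^j * 4^((n-2)/M) := by ring
          _ ≤ 1 := h1
      exact le_of_mul_le_mul_right e6 e5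
    · refine le_trans (ENNReal.ofReal_le_ofReal ?_) h2
      have : 9 * (2 * (M:ℝ))^2 * 2^j = 36 * (M:ℝ)^2 * 2^j := by ring
      rw [this]

lemma tstar_ge_of_fail {brk : Prop} {κ : ℝ≥0∞} {ε : ℝ} {j : ℕ}
    (h : ∀ t : ℕ, 1 ≤ t → t ≤ (n-1)*j → ¬ Good brk n κ ε t) (hn : 2 ≤ n) :
    ENNReal.ofReal ((n:ℝ) * j / 2) ≤ (tstar brk n κ ε : ℝ≥0∞) := by
  apply le_tstar_of
  intro t ht1 ht
  apply h t ht1
  have h2 : (2:ℝ) ≤ n := by exact_mod_cast hn
  have h3 : (n:ℝ) * j / 2 ≤ (((n-1)*j : ℕ):ℝ) := by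
    push_cast
    rw [Nat.cast_sub (by omega)]
    push_cast
    have : (0:ℝ) ≤ j := Nat.cast_nonneg j
    nlinarith
  have h4 : (t:ℝ) < (((n-1)*j : ℕ):ℝ) := lt_of_lt_of_le ht h3
  have h5 : t < (n-1)*j := by exact_mod_cast h4
  exact h5.le

/-- choice of `j` -/
lemma choose_j {X : ℝ} {c : ℕ} (hX : (4:ℝ)^9 * 2^c ≤ X) :
    ∃ j : ℕ, 9 ≤ j ∧ (4:ℝ)^j * 2^c ≤ X ∧ logb 2 X ≤ 2 * j + 2 + c := by
  have h1 : (1:ℝ) ≤ X / 2^c := by
    rw [le_div_iff₀ (by positivity)]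
    refine le_trans ?_ hX
    have : (0:ℝ) < 2^c := by positivity
    nlinarith
  obtain ⟨j, hj1, hj2⟩ := exists_nat_pow_near h1 (by norm_num : (1:ℝ) < 4)
  rw [le_div_iff₀ (by positivity)] at hj1
  rw [div_lt_iff₀ (by positivity)] at hj2
  have hX0 : 0 < X := lt_of_lt_of_le (by positivity) hX
  refine ⟨j, ?_, hj1, ?_⟩
  · have h2 : (4:ℝ)^9 * 2^c < 4^(j+1) * 2^c := lt_of_le_of_lt hX hj2
    have h3 : (4:ℝ)^9 < 4^(j+1) := lt_of_mul_lt_mul_right h2 (by positivity)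
    have h4 : 9 < j + 1 := (pow_lt_pow_iff_right₀ (by norm_num)).1 h3
    omega
  · have h3 : logb 2 X ≤ logb 2 ((4:ℝ)^(j+1) * 2^c) :=
      Real.logb_le_logb_of_le (by norm_num) hX0 hj2.le
    rw [Real.logb_mul (by positivity) (by positivity), Real.logb_pow, Real.logb_pow,
      Real.logb_self_eq_one (by norm_num)] at h3
    have h4 : logb 2 (4:ℝ) = 2 := by
      rw [show (4:ℝ) = 2^2 by norm_num, Real.logb_pow, Real.logb_self_eq_one (by norm_num)]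
      norm_num
    rw [h4] at h3
    push_cast at h3
    linarith

end Pool.Agent.Helper643.CG
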