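import Mathlib
import Pool.Agent.Helper643.CGGood2
import Pool.Agent.Helper643.CGFinal

/-!
Upper bounds for the least sufficient precision.
-/

namespace Pool.Agent.Helper643.CG

open scoped ENNReal InnerProductSpace
open Real (logb)

variable {n : ℕ} {brk : Prop} {κ : ℝ≥0∞} {ε : ℝ}

lemma logb_Gs (hε0 : 0 < ε) (hε : ε ≤ 1/2) : logb 2 (Gs ε) ≤ 25 * logb 2 (1/ε) := by
  have hM2 : 2 ≤ 1/ε := by rw [le_div_iff₀ hε0]; linarith
  have hL : 1 ≤ logb 2 (1/ε) := one_le_logb hM2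
  have e : Gs ε = 20000 * (1/ε)^10 := by rw [Gs]; ring
  rw [e, Real.logb_mul (by norm_num) (by positivity), Real.logb_pow]
  have h1 : logb 2 20000 ≤ 15 := by
    rw [Real.logb_le_iff_le_rpow (by norm_num) (by norm_num)]
    norm_num
  push_cast
  linarith

lemma logb_two_add {y : ℝ} (hy : 0 ≤ y) : 1 ≤ logb 2 (2 + y) := one_le_logb (by linarith)

lemma logb_nat_le (hn : 2 ≤ n) : logb 2 (n:ℝ) ≤ n := logb_le_self (by
  have : (2:ℝ) ≤ n := by exact_mod_cast hn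
  linarith)

lemma logb_1e10 : logb 2 (10^10) ≤ 34 := by
  rw [Real.logb_le_iff_le_rpow (by norm_num) (by norm_num)]
  norm_num

lemma logb_1e11 : logb 2 (10^11) ≤ 37 := by
  rw [Real.logb_le_iff_le_rpow (by norm_num) (by norm_num)]
  norm_num

/-- numerical consequences of `Y ≤ 2 ^ t` -/
lemma num3 (hn : 2 ≤ n) (hε0 : 0 < ε) (hε : ε ≤ 1/2) {P F : ℝ} (hP : (n:ℝ) ≤ P) (hF : 1 ≤ F) {t : ℕ}
    {W : ℝ} (hW : 1 ≤ W) (ht : 10^10 * (n:ℝ)^2 * W * (Gs ε)^13 * P * F ≤ 2^t) :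
    2 * (n:ℝ)^2 * (1/2^t) ≤ 1/10 ∧
    10^9 * (((n:ℝ) + 1) * (5 * (2 * (n:ℝ)^2 * (1/2^t)))) ≤ ε^12 ∧
    3 * (2 * (n:ℝ)^2 * (1/2^t)) * F < 1 ∧
    10^8 * (W * ((Gs ε)^13 * (P * (5 * (2 * (n:ℝ)^2 * (1/2^t)))))) ≤ 1 := by
  have h2 : (2:ℝ) ≤ n := by exact_mod_cast hn
  obtain ⟨G1, G2, G3, G4⟩ := Gs_facts hε0 (by linarith : ε ≤ 1)
  have hT : (0:ℝ) < 2^t := by positivity
  set G := Gs ε with hG
  have hG13 : 1 ≤ G^13 := one_le_pow₀ G1
  have hP1 : 1 ≤ P := by linarith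
  have hn2 : 0 < (n:ℝ)^2 := by positivity
  have a0 : 10^10 * (n:ℝ)^2 ≤ 2^t := by
    refine le_trans ?_ ht
    calc 10^10 * (n:ℝ)^2 = 10^10 * (n:ℝ)^2 * 1 * 1 * 1 * 1 := by ring
      _ ≤ 10^10 * (n:ℝ)^2 * W * G^13 * P * F := by gcongr
  have a1 : 10^10 * (n:ℝ)^2 * F ≤ 2^t := by
    refine le_trans ?_ ht
    calc 10^10 * (n:ℝ)^2 * F = 10^10 * (n:ℝ)^2 * 1 * 1 * 1 * F := by ring
      _ ≤ 10^10 * (n:ℝ)^2 * W * G^13 * P * F := by gcongr
  have a2 : 10^10 * (n:ℝ)^2 * W * G^13 * P ≤ 2^t := by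
    refine le_trans ?_ ht
    exact le_mul_of_one_le_right (by positivity) hF
  have a3 : 10^10 * (n:ℝ)^2 * G^13 * n ≤ 2^t := by
    refine le_trans ?_ a2
    calc 10^10 * (n:ℝ)^2 * G^13 * n = 10^10 * (n:ℝ)^2 * 1 * G^13 * n := by ring
      _ ≤ _ := by gcongr
  refine ⟨?_, ?_, ?_, ?_⟩
  · have e : 2 * (n:ℝ)^2 * (1/2^t) = (2 * (n:ℝ)^2) / 2^t := by ring
    rw [e, div_le_iff₀ hT]
    linarith
  · have e : 10^9 * (((n:ℝ) + 1) * (5 * (2 * (n:ℝ)^2 * (1/2^t)))) =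
      (10^10 * ((n:ℝ) + 1) * n^2) / 2^t := by ring
    rw [e, div_le_iff₀ hT]
    have h3 : 2 ≤ ε^12 * G^13 := by
      have e2 : ε^12 * G^13 = ε^12 * (20000 / ε^10)^13 := by rw [hG, Gs]
      rw [e2]
      have e3 : ε^12 * (20000 / ε^10)^13 = 20000^13 / ε^118 := by
        field_simp
      rw [e3, le_div_iff₀ (by positivity)]
      have : ε^118 ≤ 1 := pow_le_one₀ hε0.le (by linarith)
      nlinarith
    calc 10^10 * ((n:ℝ) + 1) * (n:ℝ)^2 ≤ 10^10 * (2 * (n:ℝ)) * (n:ℝ)^2 := by gcongr; linarith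
      _ = 2 * (10^10 * (n:ℝ)^2 * n) := by ring
      _ ≤ (ε^12 * G^13) * (10^10 * (n:ℝ)^2 * n) := by gcongr
      _ = ε^12 * (10^10 * (n:ℝ)^2 * G^13 * n) := by ring
      _ ≤ ε^12 * 2^t := by gcongr
  · have e : 3 * (2 * (n:ℝ)^2 * (1/2^t)) * F = (6 * (n:ℝ)^2 * F) / 2^t := by ring
    rw [e, div_lt_one hT]
    have : 0 < (n:ℝ)^2 * F := by positivity
    linarith
  · have e : 10^8 * (W * (G^13 * (P * (5 * (2 * (n:ℝ)^2 * (1/2^t)))))) =
      (10^9 * (n:ℝ)^2 * W * G^13 * P) / 2^t := by ring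
    rw [e, div_le_one hT]
    have : 0 < (n:ℝ)^2 * W * G^13 * P := by positivity
    linarith

/-- Finite condition number `κ = s²`, with `ε² s³ ≤ 1`. -/
theorem up_A (hn : 2 ≤ n) (hε0 : 0 < ε) (hε : ε ≤ 1/2) {F s : ℝ} (hF : 1 ≤ F)
    (hbrk : brk → κ ≤ ENNReal.ofReal F) (hs1 : 1 ≤ s) (hs : κ ≤ ENNReal.ofReal (s^2))
    (hs3 : ε^2 * s^3 ≤ 1) :
    (tstar brk n κ ε : ℝ≥0∞) ≤ ENNReal.ofReal
      (400 * (logb 2 (1/ε) + n * logb 2 (2 + s * (1 + logb 2 (1 / (ε^2 * s^3)) / 2) / n)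
        + logb 2 F)) := by
  have h2 : (2:ℝ) ≤ n := by exact_mod_cast hn
  have hL : 1 ≤ logb 2 (1/ε) := one_le_logb (by rw [le_div_iff₀ hε0]; linarith)
  have hlF : 0 ≤ logb 2 F := Real.logb_nonneg (by norm_num) hF
  have hpos : 0 < ε^2 * s^3 := by positivity
  have hℓ : 0 ≤ logb 2 (1 / (ε^2 * s^3)) :=
    Real.logb_nonneg (by norm_num) (by rw [le_div_iff₀ hpos]; linarith)
  set nc := s * (1 + logb 2 (1 / (ε^2 * s^3)) / 2) with hnc
  have hnc0 : 0 ≤ nc := by positivity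
  obtain ⟨y, hy⟩ : ∃ y : ℝ, y = nc / n := ⟨_, rfl⟩
  have hy0 : 0 ≤ y := by rw [hy]; positivity
  rw [← hy]
  have hl := logb_two_add hy0
  set l := logb 2 (2 + y) with hldef
  obtain ⟨G1, G2, G3, G4⟩ := Gs_facts hε0 (by linarith : ε ≤ 1)
  have hlG := logb_Gs hε0 hε
  set P := (20 * (1 + 20 * s * (1 + logb 2 (1 / (ε^2 * s^3)) / 2) / n))^(2 * n) with hP
  have hPy : P = (20 * (1 + 20 * y))^(2 * n) := by
    rw [hP, hy, hnc]; congr 2; ring
  have hbase1 : 1 ≤ 20 * (1 + 20 * y) := by linarith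
  have hPn : (n:ℝ) ≤ P := by
    rw [hPy]
    have h3 : (n:ℝ) ≤ 2^n := by
      have : n < 2^n := Nat.lt_two_pow_self
      exact_mod_cast this.le
    refine h3.trans ?_
    calc (2:ℝ)^n ≤ (20 * (1 + 20 * y))^n := by gcongr; linarith
      _ ≤ _ := pow_le_pow_right₀ hbase1 (by omega)
  have hP0 : 0 < P := by linarith
  set Y := 10^10 * (n:ℝ)^2 * s^2 * (Gs ε)^13 * P * F with hY
  have hY0 : 0 < Y := by positivity
  have hlogY : logb 2 Y ≤ 399 * (logb 2 (1/ε) + n * l + logb 2 F) := by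
    have e1 : logb 2 Y = logb 2 (10^10) + 2 * logb 2 n + logb 2 (s^2) + 13 * logb 2 (Gs ε) +
        2 * n * logb 2 (20 * (1 + 20 * y)) + logb 2 F := by
      rw [hY, hPy, Real.logb_mul (by positivity) (by positivity),
        Real.logb_mul (by positivity) (by positivity), Real.logb_mul (by positivity) (by positivity),
        Real.logb_mul (by positivity) (by positivity), Real.logb_mul (by positivity) (by positivity),
        Real.logb_pow (b := 2) (x := (n:ℝ)), Real.logb_pow (b := 2) (x := Gs ε),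
        Real.logb_pow (b := 2) (x := 20 * (1 + 20 * y))]
      push_cast; ring
    have b1 := logb_1e10
    have b2 := logb_nat_le hn
    have b3 : logb 2 (s^2) ≤ 2 * logb 2 (1/ε) := by
      have e2 : 2 * logb 2 (1/ε) = logb 2 ((1/ε)^2) := by rw [Real.logb_pow]; push_cast; ring
      rw [e2]
      apply Real.logb_le_logb_of_le (by norm_num) (by positivity)
      have h3 : s^3 ≤ (1/ε)^2 := by
        rw [one_div, inv_pow, ← one_div, le_div_iff₀ (by positivity)]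
        linarith
      refine le_trans ?_ h3
      exact pow_le_pow_right₀ hs1 (by norm_num)
    have b4 : logb 2 (20 * (1 + 20 * y)) ≤ 10 * l := by
      have h3 : 20 * (1 + 20 * y) ≤ 2^9 * (2 + y) := by
        norm_num; linarith
      have h4 := Real.logb_le_logb_of_le (b := 2) (by norm_num) (by positivity) h3
      have h5 : logb 2 (2^9 * (2 + y)) = 9 + l := by
        rw [Real.logb_mul (by norm_num) (by positivity), Real.logb_pow,
          Real.logb_self_eq_one (by norm_num)]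
        norm_num
        rfl
      linarith
    have b5 : 2 * (n:ℝ) * logb 2 (20 * (1 + 20 * y)) ≤ 2 * n * (10 * l) := by gcongr
    have b6 : (n:ℝ) * 1 ≤ n * l := by gcongr
    rw [e1]
    generalize logb 2 ((10:ℝ)^10) = A at b1 ⊢
    linarith
  have hnl : 0 ≤ (n:ℝ) * l := by positivity
  have hXnn : 0 ≤ 399 * (logb 2 (1/ε) + n * l + logb 2 F) := by linarith
  apply tstar_le_of hXnn (by linarith)
  intro t _ ht
  have hYt := pow_ge_of_logb_le hY0 (hlogY.trans ht)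
  obtain ⟨c1, c2, c3, c4⟩ := num3 hn hε0 hε hPn hF (one_le_pow₀ hs1) hYt
  refine good_of2 brk (by omega) hε0 (by linarith) c1 c2 ?_ (fun hb => ⟨F, hbrk hb, hF, c3⟩)
  intro T b K x r q a hK hbig hlow
  exact boot_kap hbig hs1 (hlow (s^2) (one_le_pow₀ hs1) hs) hs3 hK (by omega) (by simp) hP c4

/-- No condition number, `n ≥ ν^{3.5}`, `ε = ν^{-6}`. -/
theorem up_B (hn : 2 ≤ n) (hε0 : 0 < ε) (hε : ε ≤ 1/2) {F ν : ℝ} (hF : 1 ≤ F)
    (hbrk : brk → κ ≤ ENNReal.ofReal F) (hν1 : 1 ≤ ν) (hνε : ε * ν^6 = 1)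
    (hnν : ν^7 ≤ (n:ℝ)^2) :
    (tstar brk n κ ε : ℝ≥0∞) ≤ ENNReal.ofReal
      (40000 * (logb 2 (1/ε) + n * logb 2 (2 + ν^4 / n) + logb 2 F)) := by
  have h2 : (2:ℝ) ≤ n := by exact_mod_cast hn
  have hL : 1 ≤ logb 2 (1/ε) := one_le_logb (by rw [le_div_iff₀ hε0]; linarith)
  have hlF : 0 ≤ logb 2 F := Real.logb_nonneg (by norm_num) hF
  obtain ⟨y, hy⟩ : ∃ y : ℝ, y = ν^4 / n := ⟨_, rfl⟩
  have hy0 : 0 ≤ y := by rw [hy]; positivity
  rw [← hy]
  have hl := logb_two_add hy0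
  set l := logb 2 (2 + y) with hldef
  obtain ⟨G1, G2, G3, G4⟩ := Gs_facts hε0 (by linarith : ε ≤ 1)
  have hlG := logb_Gs hε0 hε
  set N := ⌊110 * ν^3⌋₊ with hN
  have hN1 : 110 * ν^3 < N + 1 := Nat.lt_floor_add_one _
  have hN2 : (N:ℝ) ≤ 110 * ν^3 := Nat.floor_le (by positivity)
  set P := (20 * (1 + 110 * ν^4 / n))^(2 * n) * (Gs ε)^N with hP
  have hPy : P = (20 * (1 + 110 * y))^(2 * n) * (Gs ε)^N := by
    rw [hP, hy]; congr 3; ring
  have hbase1 : 1 ≤ 20 * (1 + 110 * y) := by linarith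
  have hPn : (n:ℝ) ≤ P := by
    rw [hPy]
    have h3 : (n:ℝ) ≤ 2^n := by
      have : n < 2^n := Nat.lt_two_pow_self
      exact_mod_cast this.le
    refine h3.trans ?_
    calc (2:ℝ)^n ≤ (20 * (1 + 110 * y))^n := by gcongr; linarith
      _ ≤ (20 * (1 + 110 * y))^(2 * n) := pow_le_pow_right₀ hbase1 (by omega)
      _ ≤ _ := le_mul_of_one_le_right (by positivity) (one_le_pow₀ G1)
  have hP0 : 0 < P := by linarith
  set Y := 10^10 * (n:ℝ)^2 * 1 * (Gs ε)^13 * P * F with hY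
  have hY0 : 0 < Y := by positivity
  -- `N * log G ≤ 33000 n`
  have hLν : logb 2 (1/ε) ≤ 12 * √ν := by
    have e1 : 1/ε = (√ν)^12 := by
      have : (√ν)^12 = ((√ν)^2)^6 := by ring
      rw [this, Real.sq_sqrt (by linarith)]
      field_simp; linarith
    rw [e1, Real.logb_pow]
    have h3 : 1 ≤ √ν := Real.one_le_sqrt.2 hν1
    have h4 := logb_le_self h3
    push_cast
    linarith
  have hν35 : ν^3 * √ν ≤ n := by
    apply abs_le_of_sq_le_sq' _ (by positivity) |>.2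
    calc (ν^3 * √ν)^2 = ν^6 * (√ν)^2 := by ring
      _ = ν^7 := by rw [Real.sq_sqrt (by linarith)]; ring
      _ ≤ _ := hnν
  have hNG : (N:ℝ) * logb 2 (Gs ε) ≤ 33000 * n := by
    have h0 : 0 ≤ logb 2 (Gs ε) := Real.logb_nonneg (by norm_num) G1
    calc (N:ℝ) * logb 2 (Gs ε) ≤ (110 * ν^3) * (25 * (12 * √ν)) := by
          have := hlG.trans (by gcongr : 25 * logb 2 (1/ε) ≤ 25 * (12 * √ν))
          gcongr
      _ = 33000 * (ν^3 * √ν) := by ring
      _ ≤ _ := by gcongr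
  have hlogY : logb 2 Y ≤ 39999 * (logb 2 (1/ε) + n * l + logb 2 F) := by
    have e1 : logb 2 Y = logb 2 (10^10) + 2 * logb 2 n + 13 * logb 2 (Gs ε) +
        (2 * n * logb 2 (20 * (1 + 110 * y)) + N * logb 2 (Gs ε)) + logb 2 F := by
      rw [hY, mul_one, hPy, Real.logb_mul (by positivity) (by positivity),
        Real.logb_mul (by positivity) (by positivity), Real.logb_mul (by positivity) (by positivity),
        Real.logb_mul (by positivity) (by positivity), Real.logb_mul (by positivity) (by positivity),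
        Real.logb_pow (b := 2) (x := (n:ℝ)), Real.logb_pow (b := 2) (x := Gs ε),
        Real.logb_pow (b := 2) (x := 20 * (1 + 110 * y)), Real.logb_pow (b := 2) (x := Gs ε)]
      push_cast; ring
    have b1 := logb_1e10
    have b2 := logb_nat_le hn
    have b4 : logb 2 (20 * (1 + 110 * y)) ≤ 13 * l := by
      have h3 : 20 * (1 + 110 * y) ≤ 2^12 * (2 + y) := by
        norm_num; linarith
      have h4 := Real.logb_le_logb_of_le (b := 2) (by norm_num) (by positivity) h3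
      have h5 : logb 2 (2^12 * (2 + y)) = 12 + l := by
        rw [Real.logb_mul (by norm_num) (by positivity), Real.logb_pow,
          Real.logb_self_eq_one (by norm_num)]
        norm_num
        rfl
      linarith
    have b5 : 2 * (n:ℝ) * logb 2 (20 * (1 + 110 * y)) ≤ 2 * n * (13 * l) := by gcongr
    have b6 : (n:ℝ) * 1 ≤ n * l := by gcongr
    rw [e1]
    generalize logb 2 ((10:ℝ)^10) = A at b1 ⊢
    linarith
  have hnl : 0 ≤ (n:ℝ) * l := by positivity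
  have hXnn : 0 ≤ 39999 * (logb 2 (1/ε) + n * l + logb 2 F) := by linarith
  apply tstar_le_of hXnn (by linarith)
  intro t _ ht
  have hYt := pow_ge_of_logb_le hY0 (hlogY.trans ht)
  obtain ⟨c1, c2, c3, c4⟩ := num3 hn hε0 hε hPn hF le_rfl hYt
  refine good_of2 brk (by omega) hε0 (by linarith) c1 c2 ?_ (fun hb => ⟨F, hbrk hb, hF, c3⟩)
  intro T b K x r q a hK hbig hlow
  exact boot_eps hbig hν1 hνε hN1 hK (by omega) (by simp) hP (by rw [one_mul] at c4; exact c4)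

/-- No condition number, small `n`. -/
theorem up_C (hn : 2 ≤ n) (hκ : 2 ≤ κ) (hε0 : 0 < ε) (hε : ε ≤ 1/2) {F ν : ℝ} (hF : 1 ≤ F)
    (hbrk : brk → κ ≤ ENNReal.ofReal F) (hν1 : 1 ≤ ν) (hνε : ε * ν^6 = 1)
    (hnν : (n:ℝ)^2 ≤ ν^7) :
    (tstar brk n κ ε : ℝ≥0∞) ≤ ENNReal.ofReal
      (40000 * (logb 2 (1/ε) + n * logb 2 (2 + ν^4 / n) + logb 2 F)) := by
  have h2 : (2:ℝ) ≤ n := by exact_mod_cast hn
  have hL : 1 ≤ logb 2 (1/ε) := one_le_logb (by rw [le_div_iff₀ hε0]; linarith)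
  have hlF : 0 ≤ logb 2 F := Real.logb_nonneg (by norm_num) hF
  refine (upper_main hn hκ hε0 hε hF hbrk).trans (ENNReal.ofReal_le_ofReal ?_)
  obtain ⟨hm2, hmε, hmκ, hcase⟩ := mcond_facts hκ hε0 hε
  set m := mcond κ ε with hm
  have h1ε : 1 / ε = ν^6 := by field_simp; linarith
  have e1 : logb 2 (n * m) ≤ 19 * logb 2 (2 + ν^4 / n) := by
    have h3 : ((n:ℝ) * m)^2 ≤ ((2 + ν^4/n)^19)^2 := by
      have h4 : √ν ≤ 2 + ν^4 / n := by
        have h5 : √ν ≤ ν^4 / n := by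
          rw [le_div_iff₀ (by linarith)]
          have h6 : (n:ℝ) ≤ ν^3 * √ν := by
            apply abs_le_of_sq_le_sq' _ (by positivity) |>.2
            calc (n:ℝ)^2 ≤ ν^7 := hnν
              _ = ν^6 * (√ν)^2 := by rw [Real.sq_sqrt (by linarith)]; ring
              _ = _ := by ring
          calc √ν * n ≤ √ν * (ν^3 * √ν) := by gcongr
            _ = ν^3 * (√ν)^2 := by ring
            _ = ν^4 := by rw [Real.sq_sqrt (by linarith)]; ring
        linarith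
      calc ((n:ℝ) * m)^2 = (n:ℝ)^2 * m^2 := by ring
        _ ≤ ν^7 * (ν^6)^2 := by
            have : m ≤ ν^6 := by rw [← h1ε]; exact hmε
            gcongr
        _ = (√ν ^ 2)^19 := by rw [Real.sq_sqrt (by linarith)]; ring
        _ = (√ν ^ 19)^2 := by ring
        _ ≤ _ := by gcongr
    have h5 : (n:ℝ) * m ≤ (2 + ν^4/n)^19 := (abs_le_of_sq_le_sq' h3 (by positivity)).2
    have h6 := Real.logb_le_logb_of_le (b := 2) (by norm_num) (by positivity) h5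
    rw [Real.logb_pow] at h6
    push_cast at h6
    linarith
  have h3 : 0 ≤ ν^4 / n := by positivity
  have h4 := logb_two_add h3
  have h5 : (n:ℝ) * logb 2 (n * m) ≤ n * (19 * logb 2 (2 + ν^4 / n)) := by gcongr
  have h6 : 0 ≤ (n:ℝ) * logb 2 (2 + ν^4 / n) := by positivity
  linarith

/-- Large `n`. -/
theorem up_D (hn : 2 ≤ n) (hε0 : 0 < ε) (hε : ε ≤ 1/2) {F : ℝ} (hF : 1 ≤ F)
    (hbrk : brk → κ ≤ ENNReal.ofReal F)
    (hlarge : (∃ k : ℝ, 1 ≤ k ∧ κ ≤ ENNReal.ofReal k ∧ k * ε^4 ≤ 1 ∧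
        1000 * √k * logb 2 (1/ε) < n) ∨
      3 * 10^12 * logb 2 (1/ε)^4 < (n:ℝ)^3 * ε^2) :
    (tstar brk n κ ε : ℝ≥0∞) ≤ ENNReal.ofReal
      (1100 * (logb 2 (1/ε) + logb 2 n + logb 2 F)) := by
  have h2 : (2:ℝ) ≤ n := by exact_mod_cast hn
  have hL : 1 ≤ logb 2 (1/ε) := one_le_logb (by rw [le_div_iff₀ hε0]; linarith)
  have hln : 1 ≤ logb 2 n := one_le_logb h2
  have hlF : 0 ≤ logb 2 F := Real.logb_nonneg (by norm_num) hF
  obtain ⟨G1, G2, G3, G4⟩ := Gs_facts hε0 (by linarith : ε ≤ 1)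
  have hlG := logb_Gs hε0 hε
  set Y := 10^10 * (n:ℝ)^2 * (Gs ε)^29 * (Gs ε)^13 * n * F with hY
  have hG42 : 1 ≤ (Gs ε)^29 := one_le_pow₀ G1
  have hY0 : 0 < Y := by positivity
  have hlogY : logb 2 Y ≤ 1099 * (logb 2 (1/ε) + logb 2 n + logb 2 F) := by
    have e1 : logb 2 Y = logb 2 (10^10) + 2 * logb 2 n + 29 * logb 2 (Gs ε) + 13 * logb 2 (Gs ε) +
        logb 2 n + logb 2 F := by
      rw [hY, Real.logb_mul (by positivity) (by positivity),
        Real.logb_mul (by positivity) (by positivity), Real.logb_mul (by positivity) (by positivity),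
        Real.logb_mul (by positivity) (by positivity), Real.logb_mul (by positivity) (by positivity),
        Real.logb_pow (b := 2) (x := (n:ℝ)), Real.logb_pow (b := 2) (x := Gs ε),
        Real.logb_pow (b := 2) (x := Gs ε)]
      push_cast; ring
    have b1 := logb_1e10
    rw [e1]
    generalize logb 2 ((10:ℝ)^10) = A at b1 ⊢
    linarith
  apply tstar_le_of (X := 1099 * (logb 2 (1/ε) + logb 2 n + logb 2 F)) (by positivity) (by linarith)
  intro t _ ht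
  have hYt := pow_ge_of_logb_le hY0 (hlogY.trans ht)
  obtain ⟨c1, c2, c3, c4⟩ := num3 hn hε0 hε le_rfl hF hG42 hYt
  refine good_of2 brk (by omega) hε0 (by linarith) c1 c2 ?_ (fun hb => ⟨F, hbrk hb, hF, c3⟩)
  intro T b K x r q a hK hbig hlow
  have hτ := hbig.run.tau
  set τ := 5 * (2 * (n:ℝ)^2 * (1/2^t)) with hτdef
  have hsm : 10^6 * ((Gs ε)^42 * τ) ≤ 1 := by
    refine le_trans ?_ c4
    have e : 10^8 * ((Gs ε)^29 * ((Gs ε)^13 * ((n:ℝ) * τ))) = 10^8 * ((Gs ε)^42 * τ) * n := by ring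
    rw [e]
    have : 0 ≤ (Gs ε)^42 * τ := by positivity
    nlinarith
  rcases hlarge with ⟨k, k1, k2, k3, k4⟩ | h1
  · have h3 := nsteps_kap hbig hε k1 (hlow k k1 k2) k3 hsm
    have h4 : (K:ℝ) < n := lt_of_le_of_lt h3 k4
    exact_mod_cast h4
  · have h3 := nsteps_eps hbig hε hsm
    by_contra hcon
    have hKn : (n:ℝ) ≤ K := by exact_mod_cast (not_lt.1 hcon)
    have h4 : (n:ℝ)^3 * ε^2 ≤ K^3 * ε^2 := by gcongr
    linarith

end Pool.Agent.Helper643.CG
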