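import Mathlib
import Pool.Agent.Helper643.CGLow2G
import Pool.Agent.Helper643.CGUp3

/-! Sharp lower bound. -/

namespace Pool.Agent.Helper643.CG

open scoped ENNReal
open Real (logb)

variable {n : ℕ} {κ : ℝ≥0∞} {ε : ℝ}

/-- First case of the choice of parameters. -/
lemma lower_caseA (brk : Prop) (hn : 2 ≤ n) (hκ : 2 ≤ κ) (hε0 : 0 < ε) (hε : ε ≤ 1/2) {s ℓ : ℝ}
    (hs1 : 1 ≤ s) (hsκ : ENNReal.ofReal (s^2) ≤ κ) (hℓ0 : 0 ≤ ℓ)
    (hℓ : ε^2 * s^3 * (4:ℝ)^ℓ = 1) (hy : 16384 * n ≤ s*(1+ℓ)) (hh : 1 + ℓ ≤ 2 * n) :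
    ENNReal.ofReal (n * logb 2 (s*(1+ℓ)/n) / 4) ≤ (tstar brk n κ ε : ℝ≥0∞) := by
  have h2 : (2:ℝ) ≤ n := by exact_mod_cast hn
  have hn0 : (0:ℝ) < n := by linarith
  have hκ1 : 1 ≤ κ := le_trans (by norm_num) hκ
  set h := 1 + ℓ with hh'
  have hh0 : 0 < h := by linarith
  set y := s * h / n with hy'
  have hy0 : 16384 ≤ y := by rw [hy', le_div_iff₀ hn0]; exact hy
  obtain ⟨j, hj9, hj1, hj2⟩ := choose_j (X := y^3) (c := 24) (by
    calc (4:ℝ)^9 * 2^24 = 16384^3 := by norm_num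
      _ ≤ y^3 := by gcongr)
  set M := ⌈2 * n / h⌉₊ with hM
  have hq : 1 ≤ 2 * n / h := by rw [le_div_iff₀ hh0]; linarith
  have hM1 : 1 ≤ M := by
    rw [hM]; exact Nat.one_le_ceil_iff.2 (by linarith)
  have hMlo : 2 * n / h ≤ M := Nat.le_ceil _
  have hMhi : (M:ℝ) ≤ 4 * n / h := by
    have := Nat.ceil_lt_add_one (show 0 ≤ 2 * n / h by positivity)
    rw [← hM] at this
    have e : 4 * n / h = 2 * n / h + 2 * n / h := by ring
    linarith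
  -- the power of 4
  have hpow : (4:ℝ)^((n-2)/M) ≤ 2 * 2^ℓ := by
    have a1 : ((((n-2)/M : ℕ)):ℝ) ≤ h/2 := by
      have b1 : ((((n-2)/M : ℕ)):ℝ) ≤ ((n-2 : ℕ):ℝ) / M := Nat.cast_div_le
      have b2 : ((n-2 : ℕ):ℝ) / M ≤ n / M := by
        gcongr
        omega
      have b3 : (n:ℝ) / M ≤ h / 2 := by
        have hM0 : (0:ℝ) < M := by exact_mod_cast hM1
        rw [div_le_div_iff₀ hM0 (by norm_num)]
        rw [div_le_iff₀ hh0] at hMlo
        linarith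
      linarith
    calc (4:ℝ)^((n-2)/M) = (4:ℝ)^((((n-2)/M : ℕ)):ℝ) := by rw [Real.rpow_natCast]
      _ ≤ (4:ℝ)^(h/2) := Real.rpow_le_rpow_of_exponent_le (by norm_num) a1
      _ = 2^h := by
          rw [show (4:ℝ) = 2^(2:ℝ) by norm_num, ← Real.rpow_mul (by norm_num)]
          congr 1; ring
      _ = 2 * 2^ℓ := by rw [hh', Real.rpow_add (by norm_num), Real.rpow_one]
  have h4ℓ : (4:ℝ)^ℓ = 2^ℓ * 2^ℓ := by
    rw [← Real.mul_rpow (by norm_num) (by norm_num)]; norm_num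
  have h2ℓ : (1:ℝ) ≤ 2^ℓ := Real.one_le_rpow (by norm_num) hℓ0
  have hεs : ε^2 * s^3 * 2^ℓ ≤ 1 := by
    have a0 : 0 ≤ ε^2 * s^3 * 2^ℓ := by positivity
    have a1 : (ε^2 * s^3 * 2^ℓ) * 2^ℓ = 1 := by rw [← hℓ, h4ℓ]; ring
    nlinarith
  have hny : 4 * n / h * y = 4 * s := by rw [hy']; field_simp
  have hM0 : (0:ℝ) ≤ M := Nat.cast_nonneg M
  have hy00 : 0 < y := by linarith
  have hfail : ∀ t : ℕ, 1 ≤ t → t ≤ (n-1)*j → ¬ Good brk n κ ε t := by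
    intro t ht1 ht2
    refine fail_M brk hn hκ1 hε0 (by linarith) hM1 hj9 ?_ ?_ ht1 ht2
    · have a1 : (4:ℝ)^j ≤ y^3 / 2^24 := by rw [le_div_iff₀ (by positivity)]; exact hj1
      calc 33800 * ε^2 * (M:ℝ)^3 * 4^j * 4^((n-2)/M)
          ≤ 33800 * ε^2 * (4 * n / h)^3 * (y^3 / 2^24) * (2 * 2^ℓ) := by gcongr
        _ = 33800 * 2 / 2^24 * (ε^2 * (4 * n / h * y)^3 * 2^ℓ) := by ring
        _ = 33800 * 2 * 64 / 2^24 * (ε^2 * s^3 * 2^ℓ) := by rw [hny]; ring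
        _ ≤ 33800 * 2 * 64 / 2^24 * 1 := by gcongr
        _ ≤ 1 := by norm_num
    · refine le_trans (ENNReal.ofReal_le_ofReal ?_) hsκ
      have a2 : (2:ℝ)^j ≤ y^2 / 2^12 := by
        rw [le_div_iff₀ (by positivity)]
        refine (abs_le_of_sq_le_sq' ?_ (by positivity)).2
        calc ((2:ℝ)^j * 2^12)^2 = 4^j * 2^24 := by
              rw [mul_pow, ← pow_mul, mul_comm j 2, pow_mul]; norm_num
          _ ≤ y^3 := hj1
          _ ≤ y^4 := pow_le_pow_right₀ (by linarith) (by norm_num)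
          _ = _ := by ring
      calc 36 * (M:ℝ)^2 * 2^j ≤ 36 * (4 * n / h)^2 * (y^2 / 2^12) := by gcongr
        _ = 36 / 2^12 * (4 * n / h * y)^2 := by ring
        _ = 36 * 16 / 2^12 * s^2 := by rw [hny]; ring
        _ ≤ s^2 := by nlinarith [sq_nonneg s]
  refine le_trans (ENNReal.ofReal_le_ofReal ?_) (tstar_ge_of_fail hfail hn)
  have h3 : logb 2 (y^3) = 3 * logb 2 y := by rw [Real.logb_pow]; norm_num
  rw [h3] at hj2
  have hj9' : (9:ℝ) ≤ j := by exact_mod_cast hj9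
  push_cast at hj2
  have h4 : logb 2 y ≤ 2 * j := by linarith
  nlinarith

/-- Second case of the choice of parameters. -/
lemma lower_caseB (brk : Prop) (hn : 2 ≤ n) (hκ : 2 ≤ κ) (hε0 : 0 < ε) (hε : ε ≤ 1/2) {s ℓ : ℝ}
    (hs1 : 4096 ≤ s) (hsκ : ENNReal.ofReal (s^2) ≤ κ) (hℓ0 : 0 ≤ ℓ)
    (hℓ : ε^2 * s^3 * (4:ℝ)^ℓ = 1) (hh : 2 * n ≤ 1 + ℓ) :
    ENNReal.ofReal (n * logb 2 s / 4) ≤ (tstar brk n κ ε : ℝ≥0∞) := by
  have h2 : (2:ℝ) ≤ n := by exact_mod_cast hn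
  have hκ1 : 1 ≤ κ := le_trans (by norm_num) hκ
  obtain ⟨j, hj9, hj1, hj2⟩ := choose_j (X := s^3) (c := 17) (by
    calc (4:ℝ)^9 * 2^17 ≤ 4096^3 := by norm_num
      _ ≤ s^3 := by gcongr)
  have hpow : (4:ℝ)^((n-2)/1) ≤ 2 * 2^ℓ := by
    rw [Nat.div_one]
    calc (4:ℝ)^(n-2) ≤ 4^n := pow_le_pow_right₀ (by norm_num) (by omega)
      _ = (2:ℝ)^(2*n) := by rw [pow_mul]; norm_num
      _ = (2:ℝ)^((2*n : ℕ):ℝ) := by rw [Real.rpow_natCast]
      _ ≤ 2^(1+ℓ) := Real.rpow_le_rpow_of_exponent_le (by norm_num) (by push_cast; exact hh)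
      _ = 2 * 2^ℓ := by rw [Real.rpow_add (by norm_num), Real.rpow_one]
  have h4ℓ : (4:ℝ)^ℓ = 2^ℓ * 2^ℓ := by
    rw [← Real.mul_rpow (by norm_num) (by norm_num)]; norm_num
  have h2ℓ : (1:ℝ) ≤ 2^ℓ := Real.one_le_rpow (by norm_num) hℓ0
  have hεs : ε^2 * s^3 * 2^ℓ ≤ 1 := by
    have a0 : 0 ≤ ε^2 * s^3 * 2^ℓ := by positivity
    have a1 : (ε^2 * s^3 * 2^ℓ) * 2^ℓ = 1 := by rw [← hℓ, h4ℓ]; ring
    nlinarith
  have hfail : ∀ t : ℕ, 1 ≤ t → t ≤ (n-1)*j → ¬ Good brk n κ ε t := by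
    intro t ht1 ht2
    refine fail_M (M := 1) brk hn hκ1 hε0 (by linarith) le_rfl hj9 ?_ ?_ ht1 ht2
    · have a1 : (4:ℝ)^j ≤ s^3 / 2^17 := by rw [le_div_iff₀ (by positivity)]; exact hj1
      calc 33800 * ε^2 * ((1:ℕ):ℝ)^3 * 4^j * 4^((n-2)/1)
          ≤ 33800 * ε^2 * ((1:ℕ):ℝ)^3 * (s^3 / 2^17) * (2 * 2^ℓ) := by gcongr
        _ = 33800 * 2 / 2^17 * (ε^2 * s^3 * 2^ℓ) := by push_cast; ring
        _ ≤ 33800 * 2 / 2^17 * 1 := by gcongr
        _ ≤ 1 := by norm_num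
    · refine le_trans (ENNReal.ofReal_le_ofReal ?_) hsκ
      have a2 : (2:ℝ)^j ≤ s^2 / 36 := by
        rw [le_div_iff₀ (by positivity)]
        refine (abs_le_of_sq_le_sq' ?_ (by positivity)).2
        calc ((2:ℝ)^j * 36)^2 ≤ 4^j * 2^17 := by
              rw [mul_pow, ← pow_mul, mul_comm j 2, pow_mul]
              have : (0:ℝ) < (2^2)^j := by positivity
              norm_num
          _ ≤ s^3 := hj1
          _ ≤ s^4 := pow_le_pow_right₀ (by linarith) (by norm_num)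
          _ = _ := by ring
      calc 36 * ((1:ℕ):ℝ)^2 * 2^j ≤ 36 * ((1:ℕ):ℝ)^2 * (s^2 / 36) := by gcongr
        _ = s^2 := by push_cast; ring
  refine le_trans (ENNReal.ofReal_le_ofReal ?_) (tstar_ge_of_fail hfail hn)
  have h3 : logb 2 (s^3) = 3 * logb 2 s := by rw [Real.logb_pow]; norm_num
  rw [h3] at hj2
  have hj9' : (9:ℝ) ≤ j := by exact_mod_cast hj9
  push_cast at hj2
  have h4 : logb 2 s ≤ 2 * j := by linarith
  nlinarith

/-- Sharp lower bound. -/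
theorem lower_sharp (brk : Prop) (hn : 2 ≤ n) (hκ : 2 ≤ κ) (hε0 : 0 < ε) (hε : ε ≤ 1/2) {s ℓ : ℝ}
    (hs1 : 1 ≤ s) (hsκ : ENNReal.ofReal (s^2) ≤ κ) (hℓ0 : 0 ≤ ℓ)
    (hℓ : ε^2 * s^3 * (4:ℝ)^ℓ = 1) (hy : 16384 * n ≤ s*(1+ℓ)) :
    ENNReal.ofReal ((logb 2 (1/ε) + n * logb 2 (2 + s*(1+ℓ)/n)) / 100) ≤
      (tstar brk n κ ε : ℝ≥0∞) := by
  have h2 : (2:ℝ) ≤ n := by exact_mod_cast hn
  have hn0 : (0:ℝ) < n := by linarith
  have hL : 1 ≤ logb 2 (1/ε) := one_le_logb (by rw [le_div_iff₀ hε0]; linarith)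
  have hln : 1 ≤ logb 2 n := one_le_logb h2
  have hsm := lower_small brk hn hκ hε0 hε
  set y := s*(1+ℓ)/n with hy'
  have hy0 : 16384 ≤ y := by rw [hy', le_div_iff₀ hn0]; exact hy
  have hly : logb 2 (2 + y) ≤ 1 + logb 2 y := by
    calc logb 2 (2 + y) ≤ logb 2 (2 * y) :=
          Real.logb_le_logb_of_le (by norm_num) (by linarith) (by linarith)
      _ = 1 + logb 2 y := by
          rw [Real.logb_mul (by norm_num) (by linarith), Real.logb_self_eq_one (by norm_num)]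
  have hlg : 1 ≤ logb 2 y := one_le_logb (by linarith)
  rcases le_total (1+ℓ) (2*n) with hh | hh
  · have hA := lower_caseA brk hn hκ hε0 hε hs1 hsκ hℓ0 hℓ hy hh
    rw [← hy'] at hA
    rcases le_total (n * logb 2 y / 4) ((logb 2 (1/ε) + logb 2 n) / 5) with h | h
    · refine le_trans (ENNReal.ofReal_le_ofReal ?_) hsm
      have : n * logb 2 (2 + y) ≤ n * (logb 2 y + logb 2 y) := by gcongr; linarith
      linarith
    · refine le_trans (ENNReal.ofReal_le_ofReal ?_) hA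
      have : n * logb 2 (2 + y) ≤ n * (logb 2 y + logb 2 y) := by gcongr; linarith
      linarith
  · -- `ℓ ≤ L`
    have hℓL : ℓ ≤ logb 2 (1/ε) := by
      have a1 : (4:ℝ)^ℓ ≤ (1/ε)^2 := by
        have a2 : ε^2 * (4:ℝ)^ℓ ≤ 1 := by
          rw [← hℓ]
          have : (1:ℝ) ≤ s^3 := one_le_pow₀ hs1
          have a3 : 0 ≤ ε^2 * (4:ℝ)^ℓ := by positivity
          nlinarith
        calc (4:ℝ)^ℓ = (1/ε)^2 * (ε^2 * 4^ℓ) := by field_simp
          _ ≤ (1/ε)^2 * 1 := by gcongr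
          _ = _ := by ring
      have a2 : logb 2 ((4:ℝ)^ℓ) ≤ logb 2 ((1/ε)^2) :=
        Real.logb_le_logb_of_le (by norm_num) (by positivity) a1
      have e4 : logb 2 ((4:ℝ)^ℓ) = 2 * ℓ := by
        rw [show (4:ℝ) = 2^(2:ℝ) by norm_num, ← Real.rpow_mul (by norm_num),
          Real.logb_rpow (by norm_num) (by norm_num)]
      rw [e4, Real.logb_pow] at a2
      push_cast at a2
      linarith
    have e1 : logb 2 y = logb 2 s + logb 2 ((1+ℓ)/n) := by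
      rw [hy', mul_div_assoc, Real.logb_mul (by positivity) (by positivity)]
    have e2 : n * logb 2 ((1+ℓ)/n) ≤ 1 + ℓ := by
      have a1 : 1 ≤ (1+ℓ)/n := by rw [le_div_iff₀ hn0]; linarith
      have a2 := logb_le_self a1
      calc n * logb 2 ((1+ℓ)/n) ≤ n * ((1+ℓ)/n) := by gcongr
        _ = 1 + ℓ := by field_simp
    have e3 : n * logb 2 (2 + y) ≤ n + (n * logb 2 s + (1 + ℓ)) := by
      calc n * logb 2 (2 + y) ≤ n * (1 + logb 2 y) := by gcongr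
        _ = n + (n * logb 2 s + n * logb 2 ((1+ℓ)/n)) := by rw [e1]; ring
        _ ≤ _ := by linarith
    have e4 : n * logb 2 (2 + y) ≤ n * logb 2 s + 3 * logb 2 (1/ε) := by
      have : (n:ℝ) ≤ logb 2 (1/ε) := by linarith
      linarith
    rcases le_total 4096 s with hs | hs
    · have hB := lower_caseB brk hn hκ hε0 hε hs hsκ hℓ0 hℓ hh
      rcases le_total (n * logb 2 s / 4) ((logb 2 (1/ε) + logb 2 n) / 5) with h | h
      · refine le_trans (ENNReal.ofReal_le_ofReal ?_) hsm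
        linarith
      · refine le_trans (ENNReal.ofReal_le_ofReal ?_) hB
        linarith
    · refine le_trans (ENNReal.ofReal_le_ofReal ?_) hsm
      have a1 : logb 2 s ≤ 12 := by
        rw [Real.logb_le_iff_le_rpow (by norm_num) (by linarith)]
        refine hs.trans ?_
        norm_num
      have a2 : n * logb 2 s ≤ n * 12 := by gcongr
      have : (n:ℝ) ≤ logb 2 (1/ε) := by linarith
      linarith

end Pool.Agent.Helper643.CG
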