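import Mathlib
import Pool.Agent.Helper643.CGUp3
import Pool.Agent.Helper643.CGLow2H

/-! The critical order. -/

namespace Pool.Agent.Helper643.CG

open scoped ENNReal
open Real (logb)

/-- `min (κ, ε^(-4/3))`. -/
noncomputable def kcut (κ : ℝ≥0∞) (ε : ℝ) : ℝ :=
  (min κ (ENNReal.ofReal (ε ^ (-(4/3) : ℝ)))).toReal

/-- The critical order `√k (1 + log₂ (1 / (ε k^(3/4))))`, where `k = min (κ, ε^(-4/3))`. -/
noncomputable def ncrit (κ : ℝ≥0∞) (ε : ℝ) : ℝ :=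
  √(kcut κ ε) * (1 + logb 2 (1 / (ε * kcut κ ε ^ (3/4 : ℝ))))

variable {n : ℕ} {κ : ℝ≥0∞} {ε : ℝ}

lemma ncrit_facts (hκ : 2 ≤ κ) (hε0 : 0 < ε) (hε : ε ≤ 1/2) :
    ∃ s ℓ : ℝ, 1 ≤ s ∧ ENNReal.ofReal (s^2) ≤ κ ∧ 0 ≤ ℓ ∧ ε^2 * s^3 * (4:ℝ)^ℓ = 1 ∧
      ncrit κ ε = s * (1 + ℓ) ∧
      (κ ≤ ENNReal.ofReal (s^2) ∨ ∃ ν : ℝ, 1 ≤ ν ∧ ε * ν^6 = 1 ∧ s = ν^4 ∧ ℓ = 0) := by
  have hε1 : ε ≤ 1 := by linarith
  set E := ε ^ (-(4/3) : ℝ) with hE
  have hE1 : 1 ≤ E := Real.one_le_rpow_of_pos_of_le_one_of_nonpos hε0 hε1 (by norm_num)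
  have hE0 : 0 < E := by linarith
  have key : ∀ k : ℝ, 1 ≤ k → k ≤ E → 0 ≤ logb 2 (1 / (ε * k ^ (3/4 : ℝ))) ∧
      ε^2 * (√k)^3 * (4:ℝ)^(logb 2 (1 / (ε * k ^ (3/4 : ℝ)))) = 1 := by
    intro k hk1 hkE
    have hk0 : 0 < k := by linarith
    have hkp : 0 < k ^ (3/4 : ℝ) := Real.rpow_pos_of_pos hk0 _
    have h1 : ε * k ^ (3/4 : ℝ) ≤ 1 := by
      have h2 : k ^ (3/4 : ℝ) ≤ E ^ (3/4 : ℝ) := Real.rpow_le_rpow hk0.le hkE (by norm_num)
      have h3 : E ^ (3/4 : ℝ) = ε⁻¹ := by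
        rw [hE, ← Real.rpow_mul hε0.le, ← Real.rpow_neg_one]
        norm_num
      calc ε * k ^ (3/4 : ℝ) ≤ ε * ε⁻¹ := by rw [← h3]; gcongr
        _ = 1 := mul_inv_cancel₀ hε0.ne'
    have hx : 0 < 1 / (ε * k ^ (3/4 : ℝ)) := by positivity
    refine ⟨Real.logb_nonneg (by norm_num) (by rw [le_div_iff₀ (by positivity)]; linarith), ?_⟩
    have h4' : ∀ z : ℝ, 0 < z → (4:ℝ)^(logb 2 z) = z^2 := by
      intro z hz
      rw [show (4:ℝ) = 2 * 2 by norm_num, Real.mul_rpow (by norm_num) (by norm_num),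
        Real.rpow_logb (by norm_num) (by norm_num) hz]
      ring
    have h4 := h4' _ hx
    have h5 : (√k)^3 = (k ^ (3/4 : ℝ))^2 := by
      rw [Real.sqrt_eq_rpow, ← Real.rpow_natCast, ← Real.rpow_mul hk0.le, ← Real.rpow_natCast,
        ← Real.rpow_mul hk0.le]
      norm_num
    rw [h4, h5]
    field_simp
  rcases le_total κ (ENNReal.ofReal E) with h | h
  · have hκt : κ ≠ ⊤ := ne_top_of_le_ne_top ENNReal.ofReal_ne_top h
    have hk : kcut κ ε = κ.toReal := by rw [kcut, min_eq_left h]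
    have hk2 : 2 ≤ κ.toReal := (ENNReal.ofReal_le_iff_le_toReal hκt).1 (by simpa using hκ)
    have hkE : κ.toReal ≤ E := ENNReal.toReal_le_of_le_ofReal hE0.le h
    obtain ⟨h1, h2⟩ := key κ.toReal (by linarith) hkE
    have hsq : (√κ.toReal)^2 = κ.toReal := Real.sq_sqrt (by linarith)
    refine ⟨√κ.toReal, _, ?_, ?_, h1, h2, by rw [ncrit, hk], Or.inl ?_⟩
    · rw [Real.one_le_sqrt]; linarith
    · rw [hsq, ENNReal.ofReal_toReal hκt]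
    · rw [hsq, ENNReal.ofReal_toReal hκt]
  · have hk : kcut κ ε = E := by
      rw [kcut, min_eq_right h, ENNReal.toReal_ofReal hE0.le]
    obtain ⟨h1, h2⟩ := key E hE1 le_rfl
    have h3 : E ^ (3/4 : ℝ) = ε⁻¹ := by
      rw [hE, ← Real.rpow_mul hε0.le, ← Real.rpow_neg_one]
      norm_num
    have hℓ : logb 2 (1 / (ε * E ^ (3/4 : ℝ))) = 0 := by
      rw [h3, mul_inv_cancel₀ hε0.ne']; simp
    have hsq : (√E)^2 = E := Real.sq_sqrt (by linarith)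
    refine ⟨√E, _, ?_, ?_, h1, h2, by rw [ncrit, hk], Or.inr ⟨ε ^ (-(1/6) : ℝ), ?_, ?_, ?_, hℓ⟩⟩
    · rw [Real.one_le_sqrt]; linarith
    · rw [hsq]; exact h
    · exact Real.one_le_rpow_of_pos_of_le_one_of_nonpos hε0 hε1 (by norm_num)
    · rw [← Real.rpow_natCast, ← Real.rpow_mul hε0.le]
      norm_num
      rw [Real.rpow_neg_one, mul_inv_cancel₀ hε0.ne']
    · rw [Real.sqrt_eq_rpow, hE, ← Real.rpow_mul hε0.le, ← Real.rpow_natCast,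
        ← Real.rpow_mul hε0.le]
      norm_num

lemma logb_four_rpow (ℓ : ℝ) : logb 2 ((4:ℝ)^ℓ) = 2 * ℓ := by
  rw [show (4:ℝ) = 2^(2:ℝ) by norm_num, ← Real.rpow_mul (by norm_num),
    Real.logb_rpow (by norm_num) (by norm_num)]

/-- The general upper bound. -/
theorem upper_ncrit {brk : Prop} (hn : 2 ≤ n) (hκ : 2 ≤ κ) (hε0 : 0 < ε) (hε : ε ≤ 1/2) {F : ℝ}
    (hF : 1 ≤ F) (hbrk : brk → κ ≤ ENNReal.ofReal F) :
    (tstar brk n κ ε : ℝ≥0∞) ≤ ENNReal.ofReal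
      (40000 * (logb 2 (1/ε) + n * logb 2 (2 + ncrit κ ε / n) + logb 2 F)) := by
  have h2 : (2:ℝ) ≤ n := by exact_mod_cast hn
  have hL : 1 ≤ logb 2 (1/ε) := one_le_logb (by rw [le_div_iff₀ hε0]; linarith)
  have hlF : 0 ≤ logb 2 F := Real.logb_nonneg (by norm_num) hF
  obtain ⟨s, ℓ, hs1, hsκ, hℓ0, hℓ, hnc, hcase⟩ := ncrit_facts hκ hε0 hε
  rw [hnc]
  rcases hcase with h | ⟨ν, hν1, hνε, hsν, hℓν⟩
  · have h4 : (1:ℝ) ≤ 4^ℓ := Real.one_le_rpow (by norm_num) hℓ0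
    have hs3 : ε^2 * s^3 ≤ 1 := by
      rw [← hℓ]
      exact le_mul_of_one_le_right (by positivity) h4
    refine (up_A hn hε0 hε hF hbrk hs1 h hs3).trans (ENNReal.ofReal_le_ofReal ?_)
    have e1 : logb 2 (1/(ε^2*s^3)) / 2 = ℓ := by
      have : 1/(ε^2*s^3) = 4^ℓ := by field_simp; linarith
      rw [this, logb_four_rpow]; ring
    rw [e1]
    have h5 : 0 ≤ s * (1 + ℓ) / n := by positivity
    have h6 := logb_two_add h5
    have h7 : 0 ≤ (n:ℝ) * logb 2 (2 + s * (1 + ℓ) / n) := by positivity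
    linarith
  · rw [hsν, hℓν, add_zero, mul_one]
    rcases le_total (ν^7) ((n:ℝ)^2) with h | h
    · exact up_B hn hε0 hε hF hbrk hν1 hνε h
    · exact up_C hn hκ hε0 hε hF hbrk hν1 hνε h

/-- The upper bound for large `n`. -/
theorem upper_large_ncrit {brk : Prop} (hn : 2 ≤ n) (hκ : 2 ≤ κ) (hε0 : 0 < ε) (hε : ε ≤ 1/2)
    {F : ℝ} (hF : 1 ≤ F) (hbrk : brk → κ ≤ ENNReal.ofReal F)
    (hlarge : (κ ≤ ENNReal.ofReal (1/ε) ∧ 20000 * ncrit κ ε ≤ n) ∨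
      20000 * (ncrit κ ε * logb 2 (1/ε) ^ (4/3 : ℝ)) ≤ n) :
    (tstar brk n κ ε : ℝ≥0∞) ≤ ENNReal.ofReal
      (1100 * (logb 2 (1/ε) + logb 2 n + logb 2 F)) := by
  have h2 : (2:ℝ) ≤ n := by exact_mod_cast hn
  have hL : 1 ≤ logb 2 (1/ε) := one_le_logb (by rw [le_div_iff₀ hε0]; linarith)
  set L := logb 2 (1/ε) with hLdef
  obtain ⟨s, ℓ, hs1, hsκ, hℓ0, hℓ, hnc, hcase⟩ := ncrit_facts hκ hε0 hε
  rw [hnc] at hlarge
  have h4 : (1:ℝ) ≤ 4^ℓ := Real.one_le_rpow (by norm_num) hℓ0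
  have hs3 : ε^2 * s^3 ≤ 1 := by
    rw [← hℓ]
    exact le_mul_of_one_le_right (by positivity) h4
  have hsε : s^2 * ε^4 ≤ 1 := by
    calc s^2 * ε^4 = (ε^2 * s^2) * ε^2 := by ring
      _ ≤ (ε^2 * s^3) * 1 := by
          have a1 : s^2 ≤ s^3 := pow_le_pow_right₀ hs1 (by norm_num)
          have a2 : ε^2 ≤ 1 := by nlinarith
          gcongr
      _ ≤ 1 := by linarith
  apply up_D hn hε0 hε hF hbrk
  have hcase1 : κ ≤ ENNReal.ofReal (s^2) → 1000 * s * L < n → (∃ k : ℝ, 1 ≤ k ∧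
      κ ≤ ENNReal.ofReal k ∧ k * ε^4 ≤ 1 ∧ 1000 * √k * logb 2 (1/ε) < n) := by
    intro a b
    refine ⟨s^2, one_le_pow₀ hs1, a, hsε, ?_⟩
    rw [Real.sqrt_sq (by linarith)]
    exact b
  rcases hlarge with ⟨h1, h3⟩ | h1
  · -- `κ ≤ 1/ε`
    left
    have hs2 : s^2 ≤ 1/ε := by
      have := hsκ.trans h1
      rwa [ENNReal.ofReal_le_ofReal_iff (by positivity)] at this
    have hκs : κ ≤ ENNReal.ofReal (s^2) := by
      rcases hcase with h | ⟨ν, hν1, hνε, hsν, hℓν⟩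
      · exact h
      · refine h1.trans (ENNReal.ofReal_le_ofReal ?_)
        have e1 : 1/ε = ν^6 := by field_simp; linarith
        rw [e1, hsν, ← pow_mul]
        exact pow_le_pow_right₀ hν1 (by norm_num)
    apply hcase1 hκs
    have h5 : L ≤ 4 * ℓ := by
      have a1 : 1/ε ≤ ((4:ℝ)^ℓ)^2 := by
        have a2 : (ε^2 * s^3 * (4:ℝ)^ℓ)^2 = 1 := by rw [hℓ]; norm_num
        have a3 : (s^2)^3 ≤ (1/ε)^3 := by gcongr
        have a4 : ε^4 * (s^2)^3 ≤ ε := by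
          calc ε^4 * (s^2)^3 ≤ ε^4 * (1/ε)^3 := by gcongr
            _ = ε := by field_simp
        have a5 : (1:ℝ) ≤ ε * ((4:ℝ)^ℓ)^2 := by
          calc (1:ℝ) = (ε^4 * (s^2)^3) * ((4:ℝ)^ℓ)^2 := by rw [← a2]; ring
            _ ≤ ε * ((4:ℝ)^ℓ)^2 := by gcongr
        rw [div_le_iff₀ hε0]; linarith
      have a6 : L ≤ logb 2 (((4:ℝ)^ℓ)^2) :=
        Real.logb_le_logb_of_le (by norm_num) (by positivity) a1
      rw [Real.logb_pow, logb_four_rpow] at a6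
      push_cast at a6
      linarith
    have h6 : s * L ≤ s * (4 * (1 + ℓ)) := by gcongr; linarith
    have h7 : 0 < s * L := by positivity
    linarith
  · have hLp : L ≤ L ^ (4/3 : ℝ) := by
      calc L = L ^ (1:ℝ) := (Real.rpow_one _).symm
        _ ≤ L ^ (4/3 : ℝ) := Real.rpow_le_rpow_of_exponent_le hL (by norm_num)
    rcases hcase with h | ⟨ν, hν1, hνε, hsν, hℓν⟩
    · left
      apply hcase1 h
      have h6 : s * L ≤ s * (1 + ℓ) * L ^ (4/3 : ℝ) := by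
        have : s * 1 * L ≤ s * (1 + ℓ) * L ^ (4/3 : ℝ) := by gcongr; linarith
        linarith
      have h7 : 0 < s * L := by positivity
      linarith
    · right
      rw [hsν, hℓν, add_zero, mul_one] at h1
      have h8 : (20000 * (ν^4 * L ^ (4/3 : ℝ)))^3 ≤ (n:ℝ)^3 := by gcongr
      have h9 : (L ^ (4/3 : ℝ))^3 = L^4 := by
        rw [← Real.rpow_natCast, ← Real.rpow_mul (by linarith), ← Real.rpow_natCast]
        norm_num
      have h10 : (20000 * (ν^4 * L ^ (4/3 : ℝ)))^3 = 8 * 10^12 * (ν^12 * L^4) := by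
        calc (20000 * (ν^4 * L ^ (4/3 : ℝ)))^3 = 20000^3 * (ν^12 * (L ^ (4/3 : ℝ))^3) := by ring
          _ = _ := by rw [h9]; ring
      rw [h10] at h8
      have h11 : ε^2 * ν^12 = 1 := by
        calc ε^2 * ν^12 = (ε * ν^6)^2 := by ring
          _ = 1 := by rw [hνε]; norm_num
      calc 3 * 10^12 * L^4 < 8 * 10^12 * L^4 := by
            have : 0 < L^4 := by positivity
            linarith
        _ = 8 * 10^12 * L^4 * (ε^2 * ν^12) := by rw [h11, mul_one]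
        _ = 8 * 10^12 * (ν^12 * L^4) * ε^2 := by ring
        _ ≤ (n:ℝ)^3 * ε^2 := by gcongr

/-- The lower bound for small `n`. -/
theorem lower_ncrit (brk : Prop) (hn : 2 ≤ n) (hκ : 2 ≤ κ) (hε0 : 0 < ε) (hε : ε ≤ 1/2)
    (hy : 16384 * n ≤ ncrit κ ε) :
    ENNReal.ofReal ((logb 2 (1/ε) + n * logb 2 (2 + ncrit κ ε / n)) / 100) ≤
      (tstar brk n κ ε : ℝ≥0∞) := by
  obtain ⟨s, ℓ, hs1, hsκ, hℓ0, hℓ, hnc, hcase⟩ := ncrit_facts hκ hε0 hε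
  rw [hnc] at hy ⊢
  exact lower_sharp brk hn hκ hε0 hε hs1 hsκ hℓ0 hℓ hy

end Pool.Agent.Helper643.CG
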