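import Mathlib
import Pool.Agent.Helper643.CGNc
import Pool.Agent.Helper643.CGF1H

/-! The upper bound above the critical order, and extension to all parameters. -/

namespace Pool.Agent.Helper643.CG

open scoped ENNReal InnerProductSpace
open Real (logb)

variable {n : ℕ} {brk : Prop} {κ : ℝ≥0∞} {ε : ℝ}

/-- Large `n`. -/
theorem up_D2 (hn : 2 ≤ n) (hε0 : 0 < ε) (hε : ε ≤ 1/2) {F : ℝ} (hF : 1 ≤ F)
    (hbrk : brk → κ ≤ ENNReal.ofReal F)
    (hlarge : (∃ s ℓ : ℝ, 1 ≤ s ∧ κ ≤ ENNReal.ofReal (s^2) ∧ 0 ≤ ℓ ∧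
        ε^2 * s^3 * (4:ℝ)^ℓ = 1 ∧ 100 * (s * (1 + ℓ)) < n) ∨ 2 * 10^6 < (n:ℝ)^3 * ε^2) :
    (tstar brk n κ ε : ℝ≥0∞) ≤ ENNReal.ofReal
      (1100 * (logb 2 (1/ε) + logb 2 n + logb 2 F)) := by
  have h2 : (2:ℝ) ≤ n := by exact_mod_cast hn
  have hL : 1 ≤ logb 2 (1/ε) := one_le_logb (by rw [le_div_iff₀ hε0]; linarith)
  have hln : 1 ≤ logb 2 n := one_le_logb h2
  have hlF : 0 ≤ logb 2 F := Real.logb_nonneg (by norm_num) hF
  obtain ⟨G1, G2, G3, G4⟩ := Gs_facts hε0 (by linarith : ε ≤ 1)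
  have hlG := logb_Gs hε0 hε
  set Y := 10^10 * (n:ℝ)^2 * (Gs ε)^29 * (Gs ε)^13 * n * F with hY
  have hG42 : 1 ≤ (Gs ε)^29 := one_le_pow₀ G1
  have hY0 : 0 < Y := by positivity
  have hlogY : logb 2 Y ≤ 1099 * (logb 2 (1/ε) + logb 2 n + logb 2 F) := by
    have e1 : logb 2 Y = logb 2 (10^10) + 2 * logb 2 n + 29 * logb 2 (Gs ε) + 13 * logb 2 (Gs ε) +
        logb 2 n + logb 2 F := by
      rw [hY, Real.logb_mul (by positivity) (by positivity),
        Real.logb_mul (by positivity) (by positivity), Real.logb_mul (by positivity) (by positivity),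
        Real.logb_mul (by positivity) (by positivity), Real.logb_mul (by positivity) (by positivity),
        Real.logb_pow (b := 2) (x := (n:ℝ)), Real.logb_pow (b := 2) (x := Gs ε),
        Real.logb_pow (b := 2) (x := Gs ε)]
      push_cast; ring
    have b1 := logb_1e10
    rw [e1]
    generalize logb 2 ((10:ℝ)^10) = A at b1 ⊢
    linarith
  apply tstar_le_of (X := 1099 * (logb 2 (1/ε) + logb 2 n + logb 2 F)) (by positivity) (by linarith)
  intro t _ ht
  have hYt := pow_ge_of_logb_le hY0 (hlogY.trans ht)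
  obtain ⟨c1, c2, c3, c4⟩ := num3 hn hε0 hε le_rfl hF hG42 hYt
  refine good_of3 brk (by omega) hε0 (by linarith) c1 c2 ?_ (fun hb => ⟨F, hbrk hb, hF, c3⟩)
  intro T b K x r q a hK hbig hT0 hlow
  have hτ := hbig.run.tau
  set τ := 5 * (2 * (n:ℝ)^2 * (1/2^t)) with hτdef
  have hsm : 10^6 * ((Gs ε)^42 * τ) ≤ 1 := by
    refine le_trans ?_ c4
    have e : 10^8 * ((Gs ε)^29 * ((Gs ε)^13 * ((n:ℝ) * τ))) = 10^8 * ((Gs ε)^42 * τ) * n := by ring
    rw [e]
    have : 0 ≤ (Gs ε)^42 * τ := by positivity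
    nlinarith
  rcases hlarge with ⟨s, ℓ, k1, k2, k3, k4, k5⟩ | h1
  · have h3 := nsteps_kap2 hbig hε hT0 hsm k1 (hlow (s^2) (one_le_pow₀ k1) k2) k3 k4
    have h4 : (K:ℝ) < n := lt_of_le_of_lt h3 k5
    exact_mod_cast h4
  · have h3 := nsteps_eps2 hbig hε hT0 hsm
    by_contra hcon
    have hKn : (n:ℝ) ≤ K := by exact_mod_cast (not_lt.1 hcon)
    have h4 : (n:ℝ)^3 * ε^2 ≤ K^3 * ε^2 := by gcongr
    linarith

/-- The upper bound above the critical order. -/
theorem upper_large2 (hn : 2 ≤ n) (hκ : 2 ≤ κ) (hε0 : 0 < ε) (hε : ε ≤ 1/2)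
    {F : ℝ} (hF : 1 ≤ F) (hbrk : brk → κ ≤ ENNReal.ofReal F)
    (hlarge : 200 * ncrit κ ε ≤ n) :
    (tstar brk n κ ε : ℝ≥0∞) ≤ ENNReal.ofReal
      (1100 * (logb 2 (1/ε) + logb 2 n + logb 2 F)) := by
  obtain ⟨s, ℓ, hs1, hsκ, hℓ0, hℓ, hnc, hcase⟩ := ncrit_facts hκ hε0 hε
  rw [hnc] at hlarge
  apply up_D2 hn hε0 hε hF hbrk
  rcases hcase with h | ⟨ν, hν1, hνε, hsν, hℓν⟩
  · left
    refine ⟨s, ℓ, hs1, h, hℓ0, hℓ, ?_⟩
    have : 0 < s * (1 + ℓ) := by positivity
    linarith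
  · right
    rw [hsν, hℓν, add_zero, mul_one] at hlarge
    have h8 : (200 * ν^4)^3 ≤ (n:ℝ)^3 := by gcongr
    have h11 : ε^2 * ν^12 = 1 := by
      calc ε^2 * ν^12 = (ε * ν^6)^2 := by ring
        _ = 1 := by rw [hνε]; norm_num
    calc (2 * 10^6 : ℝ) < 8 * 10^6 * (ε^2 * ν^12) := by rw [h11]; norm_num
      _ = (200 * ν^4)^3 * ε^2 := by ring
      _ ≤ (n:ℝ)^3 * ε^2 := by gcongr

lemma Good.mono_kappa {κ' : ℝ≥0∞} {t : ℕ} (h : κ ≤ κ') (hg : Good brk n κ' ε t) :
    Good brk n κ ε t := by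
  intro A b hA hc
  exact hg A b hA (fun i j => (hc i j).trans (by gcongr))

lemma Good.mono_eps {ε' : ℝ} {t : ℕ} (h : ε ≤ ε') (hg : Good brk n κ ε t) :
    Good brk n κ ε' t := by
  intro A b hA hc hb hr hr' K x r p w ρ d α β hK hrun hE
  obtain ⟨k, h1, h2⟩ := hg A b hA hc hb hr hr' K x r p w ρ d α β hK hrun hE
  exact ⟨k, h1, h2.trans h⟩

lemma tstar_mono {κ' : ℝ≥0∞} {ε' : ℝ} {n' : ℕ} {brk' : Prop}
    (h : ∀ t, Good brk' n' κ' ε' t → Good brk n κ ε t) :
    (tstar brk n κ ε : ℝ≥0∞) ≤ (tstar brk' n' κ' ε' : ℝ≥0∞) := by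
  have : tstar brk n κ ε ≤ tstar brk' n' κ' ε' := by
    refine le_iInf₂ fun t ht => ?_
    exact iInf₂_le t ⟨ht.1, h t ht.2⟩
  exact_mod_cast this

/-- For `n = 1` the condition number plays no role. -/
lemma Good.one_kappa {κ' : ℝ≥0∞} {t : ℕ} (hκ' : 1 ≤ κ') (hg : Good brk 1 κ' ε t) :
    Good brk 1 κ ε t := by
  intro A b hA _
  refine hg A b hA (fun i j => ?_)
  have : i = j := Subsingleton.elim _ _
  subst this
  calc ENNReal.ofReal (hA.1.eigenvalues i) = 1 * ENNReal.ofReal (hA.1.eigenvalues i) :=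
        (one_mul _).symm
    _ ≤ _ := by gcongr

/-- The case `n = 1`. -/
theorem upper_one (hε0 : 0 < ε) (hε : ε ≤ 1/2) :
    (tstar brk 1 κ ε : ℝ≥0∞) ≤ ENNReal.ofReal (200 * logb 2 (1/ε)) := by
  have hL : 1 ≤ logb 2 (1/ε) := one_le_logb (by rw [le_div_iff₀ hε0]; linarith)
  refine (tstar_mono (κ' := ENNReal.ofReal 1) (ε' := ε) (n' := 1) (brk' := brk)
    (fun t ht => Good.one_kappa (by simp) ht)).trans ?_
  have hY : (0:ℝ) < 2^160 * (1/ε)^2 := by positivity
  apply tstar_le_of (X := logb 2 (2^160 * (1/ε)^2))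
  · apply Real.logb_nonneg (by norm_num)
    have : (1:ℝ) ≤ (1/ε)^2 := by
      apply one_le_pow₀
      rw [le_div_iff₀ hε0]; linarith
    linarith
  · rw [Real.logb_mul (by norm_num) (by positivity), Real.logb_pow, Real.logb_pow,
      Real.logb_self_eq_one (by norm_num)]
    push_cast
    linarith
  intro t _ ht
  have hYt := pow_ge_of_logb_le hY ht
  have hT : (0:ℝ) < 2^t := by positivity
  have h1 : (1:ℝ) ≤ (1/ε)^2 := by
    apply one_le_pow₀
    rw [le_div_iff₀ hε0]; linarith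
  have h160 : (2:ℝ)^160 ≤ 2^t := by linarith
  have hε2 : 2^160 ≤ ε^2 * 2^t := by
    calc (2:ℝ)^160 = ε^2 * (2^160 * (1/ε)^2) := by field_simp
      _ ≤ ε^2 * 2^t := by gcongr
  refine good_of brk le_rfl hε0 (by linarith) ?_ (Or.inr (Or.inl ⟨1, rfl, le_rfl, ?_⟩))
    (fun _ => ⟨1, le_rfl, le_rfl, ?_⟩)
  · push_cast
    rw [mul_one_div, div_le_iff₀ hT]
    norm_num at h160 ⊢
    linarith
  · push_cast
    have e : 400000 * (5 * (2 * (1:ℝ)^2 * (1/2^t)) * (4000 * 1 * (200 * 1^6)^7)^(1+1)) =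
        (4000000 * (4000 * 200^7)^2) / 2^t := by ring
    rw [e, div_le_iff₀ hT]
    refine le_trans ?_ hε2
    norm_num
  · push_cast
    have e : 3 * (2 * (1:ℝ)^2 * (1/2^t)) * 1 = 6 / 2^t := by ring
    rw [e, div_lt_one hT]
    norm_num at h160 ⊢
    linarith

/-- `t` must be of order `log n`, any `ε < 1`. -/
theorem not_good_n' (brk : Prop) {t : ℕ} (hn : 1 ≤ n) (hκ : 1 ≤ κ)
    (hε0 : 0 < ε) (hε : ε < 1) (ht : 1 ≤ t) (h : Real.log (3/(1-ε)) * 2^t ≤ (n:ℝ)) :
    ¬ Good brk n κ ε t := by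
  set u : ℝ := 1/2^t with hu
  have hu0 : 0 < u := by positivity
  have hu1 : u ≤ 1/2 := by
    apply one_div_le_one_div_of_le (by norm_num)
    calc (2:ℝ) = 2^1 := by norm_num
      _ ≤ 2^t := pow_le_pow_right₀ (by norm_num) ht
  have h1ε : 0 < 1 - ε := by linarith
  set a : ℝ := 3/(1-ε) with ha
  have ha3 : 3 ≤ a := by rw [ha, le_div_iff₀ h1ε]; linarith
  have ha0 : 0 < a := by linarith
  have hun : Real.log a ≤ n * u := by
    rw [hu, mul_one_div, le_div_iff₀ (by positivity)]; exact h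
  have hn0 : (0:ℝ) < n := by exact_mod_cast hn
  -- the rounding error
  set q : ℝ := (1/a : ℝ)^((1:ℝ)/n) with hq
  have hq0 : 0 < q := by positivity
  have hqn : q^n = 1/a := by
    rw [hq, ← Real.rpow_natCast, ← Real.rpow_mul (by positivity)]
    have : (1:ℝ)/n * n = 1 := by field_simp
    rw [this, Real.rpow_one]
  have hq1 : q ≤ 1 := by
    apply Real.rpow_le_one (by positivity) _ (by positivity)
    rw [div_le_one ha0]; linarith
  have hq2 : 1 - u ≤ q := by
    by_contra hcon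
    push Not at hcon
    have h1 : q^n < (1 - u)^n := pow_lt_pow_left₀ hcon hq0.le (by omega)
    have h2 : (1 - u)^n ≤ Real.exp (-u)^n := by
      have : 1 - u ≤ Real.exp (-u) := by have := Real.add_one_le_exp (-u); linarith
      exact pow_le_pow_left₀ (by linarith) this n
    have h3 : Real.exp (-u)^n = Real.exp (-(n * u)) := by
      rw [← Real.exp_nat_mul]; congr 1; ring
    have h4 : Real.exp (-(n * u)) ≤ Real.exp (-Real.log a) := Real.exp_le_exp.2 (by linarith)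
    have h5 : Real.exp (-Real.log a) = 1/a := by
      rw [Real.exp_neg, Real.exp_log ha0, one_div]
    rw [hqn] at h1
    linarith
  have hqd : |q - 1| ≤ u := by rw [abs_le]; constructor <;> linarith
  have hb : (fun _ : Fin n => (1:ℝ)) ≠ 0 := by
    intro h0
    have := congrFun h0 ⟨0, hn⟩
    simp at this
  refine not_good_one brk hn hκ (by linarith) hb (fun i => rep_one ht) ht (a := a) (c := 1/a)
    (by positivity) (by positivity) ?_ ?_ ?_
  · intro i
    -- computed inner product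
    have key : ∀ T : Finset (Fin n), i ∉ T →
        FlDot u ((1 : Matrix (Fin n) (Fin n) ℝ) i) (fun _ : Fin n => (1:ℝ)) ({i} ∪ T)
          (q^(T.card + 1)) := by
      intro T
      induction T using Finset.induction_on with
      | empty =>
        intro _
        rw [Finset.union_empty, Finset.card_empty]
        refine FlDot.leaf i _ ⟨q - 1, hqd, ?_⟩
        rw [Matrix.one_apply_eq]; ring
      | insert a T ha ih =>
        intro hi
        rw [Finset.mem_insert, not_or] at hi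
        have e1 : {i} ∪ insert a T = ({i} ∪ T) ∪ {a} := by
          ext x; simp; tauto
        rw [e1, Finset.card_insert_of_notMem ha]
        refine FlDot.node ({i} ∪ T) {a} (q^(T.card + 1)) 0 _ ?_ (ih hi.2) ?_ ⟨q - 1, hqd, ?_⟩
        · rw [Finset.disjoint_singleton_right, Finset.mem_union, Finset.mem_singleton, not_or]
          exact ⟨fun h => hi.1 h.symm, ha⟩
        · refine FlDot.leaf a _ ⟨0, by simpa using hu0.le, ?_⟩
          rw [Matrix.one_apply_ne hi.1]; ring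
        · ring
    have h1 := key (Finset.univ.erase i) (Finset.notMem_erase i _)
    have e1 : {i} ∪ Finset.univ.erase i = (Finset.univ : Finset (Fin n)) := by
      ext x; simp
    have e2 : (Finset.univ.erase i).card + 1 = n := by
      rw [Finset.card_erase_of_mem (Finset.mem_univ i), Finset.card_univ, Fintype.card_fin]
      omega
    rw [e1, e2, hqn] at h1
    have e3 : ((1/a : ℝ) • (fun _ : Fin n => (1:ℝ))) i = 1/a := by simp
    rw [e3]
    exact h1
  · intro i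
    refine ⟨a, ?_, ?_⟩
    · show Fl u ((1/a:ℝ)⁻¹ * 1) a
      have e1 : (1/a:ℝ)⁻¹ * 1 = a := by field_simp
      rw [e1]; exact Fl.exact hu0.le _
    · show Fl u (0 + a) (a * 1)
      have e1 : (0:ℝ) + a = a * 1 := by ring
      rw [e1]; exact Fl.exact hu0.le _
  · rw [abs_of_neg (by linarith)]
    have : a * (1 - ε) = 3 := by rw [ha]; field_simp
    nlinarith

theorem lower_n (brk : Prop) (hn : 1 ≤ n) (hκ : 1 ≤ κ) (hε0 : 0 < ε) (hε : ε < 1) :
    ENNReal.ofReal (logb 2 (n / Real.log (3/(1-ε)))) ≤ (tstar brk n κ ε : ℝ≥0∞) := by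
  have h1ε : 0 < 1 - ε := by linarith
  have ha3 : 3 ≤ 3/(1-ε) := by rw [le_div_iff₀ h1ε]; linarith
  have hlog : 0 < Real.log (3/(1-ε)) := Real.log_pos (by linarith)
  have hn0 : (0:ℝ) < n := by exact_mod_cast hn
  apply le_tstar_of
  intro t ht1 ht
  apply not_good_n' brk hn hκ hε0 hε ht1
  rw [Real.lt_logb_iff_rpow_lt (by norm_num) (by positivity), Real.rpow_natCast,
    lt_div_iff₀ hlog] at ht
  linarith

end Pool.Agent.Helper643.CG
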