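import Mathlib
import Pool.Agent.Helper643.CGNc2

/-! The critical order for all parameters; general forms of the bounds. -/

namespace Pool.Agent.Helper643.CG

open scoped ENNReal InnerProductSpace
open Real (logb)

variable {n : ℕ} {brk : Prop} {κ : ℝ≥0∞} {ε : ℝ}

lemma kcut_facts (hκ : 1 ≤ κ) (hε0 : 0 < ε) (hε : ε < 1) :
    1 ≤ kcut κ ε ∧ 0 ≤ logb 2 (1 / (ε * kcut κ ε ^ (3/4 : ℝ))) := by
  set E := ε ^ (-(4/3) : ℝ) with hE
  have hE1 : 1 ≤ E := Real.one_le_rpow_of_pos_of_le_one_of_nonpos hε0 hε.le (by norm_num)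
  have hne : min κ (ENNReal.ofReal E) ≠ ⊤ :=
    ne_top_of_le_ne_top ENNReal.ofReal_ne_top (min_le_right _ _)
  have hk1 : 1 ≤ kcut κ ε := by
    rw [kcut]
    refine (ENNReal.ofReal_le_iff_le_toReal hne).1 (le_min ?_ (ENNReal.ofReal_le_ofReal hE1))
    simpa using hκ
  have hkE : kcut κ ε ≤ E := by
    rw [kcut]
    exact ENNReal.toReal_le_of_le_ofReal (by linarith) (min_le_right _ _)
  refine ⟨hk1, Real.logb_nonneg (by norm_num) ?_⟩
  have h2 : kcut κ ε ^ (3/4 : ℝ) ≤ E ^ (3/4 : ℝ) :=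
    Real.rpow_le_rpow (by linarith) hkE (by norm_num)
  have h3 : E ^ (3/4 : ℝ) = ε⁻¹ := by
    rw [hE, ← Real.rpow_mul hε0.le, ← Real.rpow_neg_one]
    norm_num
  have hkp : 0 < kcut κ ε ^ (3/4 : ℝ) := Real.rpow_pos_of_pos (by linarith) _
  rw [le_div_iff₀ (by positivity), one_mul]
  calc ε * kcut κ ε ^ (3/4 : ℝ) ≤ ε * ε⁻¹ := by rw [← h3]; gcongr
    _ = 1 := mul_inv_cancel₀ hε0.ne'

lemma one_le_ncrit (hκ : 1 ≤ κ) (hε0 : 0 < ε) (hε : ε < 1) : 1 ≤ ncrit κ ε := by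
  obtain ⟨h1, h2⟩ := kcut_facts hκ hε0 hε
  have h3 : 1 ≤ √(kcut κ ε) := Real.one_le_sqrt.2 h1
  rw [ncrit]
  nlinarith

/-- size of the critical order for `κ ≤ 2` -/
lemma ncrit_small (hκ : 1 ≤ κ) (hκ2 : κ ≤ 2) (hε0 : 0 < ε) (hε : ε ≤ 1/2) :
    logb 2 (1/ε) ≤ ncrit κ ε ∧ ncrit κ ε ≤ 3 * logb 2 (1/ε) := by
  obtain ⟨h1, h2⟩ := kcut_facts hκ hε0 (by linarith)
  have hk2 : kcut κ ε ≤ 2 := by
    rw [kcut]
    refine ENNReal.toReal_le_of_le_ofReal (by norm_num) ((min_le_left _ _).trans ?_)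
    simpa using hκ2
  have hL : 1 ≤ logb 2 (1/ε) := one_le_logb (by rw [le_div_iff₀ hε0]; linarith)
  set k := kcut κ ε with hk
  have hk0 : 0 < k := by linarith
  have hkp : 0 < k ^ (3/4 : ℝ) := Real.rpow_pos_of_pos hk0 _
  have e1 : logb 2 (1 / (ε * k ^ (3/4 : ℝ))) = logb 2 (1/ε) - 3/4 * logb 2 k := by
    have : 1 / (ε * k ^ (3/4 : ℝ)) = (1/ε) / (k ^ (3/4 : ℝ)) := by field_simp
    rw [this, Real.logb_div (by positivity) (by positivity),
      Real.logb_rpow_eq_mul_logb_of_pos hk0]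
  have h3 : 0 ≤ logb 2 k := Real.logb_nonneg (by norm_num) h1
  have h4 : logb 2 k ≤ 1 := by
    rw [Real.logb_le_iff_le_rpow (by norm_num) hk0, Real.rpow_one]
    exact hk2
  have h5 : 1 ≤ √k := Real.one_le_sqrt.2 h1
  have h6 : √k ≤ 3/2 := by
    rw [Real.sqrt_le_left (by norm_num)]
    linarith
  rw [ncrit, ← hk, e1]
  constructor
  · nlinarith
  · calc √k * (1 + (logb 2 (1/ε) - 3/4 * logb 2 k)) ≤ 3/2 * (1 + logb 2 (1/ε)) := by
          gcongr
          all_goals linarith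
      _ ≤ _ := by linarith

/-- comparison with `κ ≥ 2` -/
lemma ncrit_max (hκ : 1 ≤ κ) (hε0 : 0 < ε) (hε : ε ≤ 1/2) :
    ncrit (max κ 2) ε ≤ 3 * ncrit κ ε := by
  have h1 := one_le_ncrit hκ hε0 (by linarith)
  rcases le_total κ 2 with h | h
  · rw [max_eq_right h]
    obtain ⟨a1, a2⟩ := ncrit_small hκ h hε0 hε
    obtain ⟨b1, b2⟩ := ncrit_small (κ := 2) (by norm_num) le_rfl hε0 hε
    linarith
  · rw [max_eq_left h]; linarith

/-- crude upper bound -/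
lemma ncrit_crude (hκ : 2 ≤ κ) (hε0 : 0 < ε) (hε : ε ≤ 1/2) : ncrit κ ε ≤ (1/ε)^2 := by
  obtain ⟨s, ℓ, hs1, hsκ, hℓ0, hℓ, hnc, hcase⟩ := ncrit_facts hκ hε0 hε
  rw [hnc]
  have h1 : 1 + ℓ ≤ 4^ℓ := by
    have h2 : Real.log 4 * ℓ + 1 ≤ Real.exp (Real.log 4 * ℓ) := Real.add_one_le_exp _
    have h3 : Real.exp (Real.log 4 * ℓ) = 4^ℓ := by
      rw [Real.rpow_def_of_pos (by norm_num)]
    have h4 : 1 ≤ Real.log 4 := by
      rw [Real.le_log_iff_exp_le (by norm_num)]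
      have := Real.exp_one_lt_d9
      linarith
    rw [h3] at h2
    nlinarith
  have h4 : (0:ℝ) < 4^ℓ := by positivity
  have h5 : (1/ε)^2 = s^3 * 4^ℓ := by
    have : (1/ε)^2 * (ε^2 * s^3 * (4:ℝ)^ℓ) = s^3 * 4^ℓ := by field_simp
    rw [hℓ, mul_one] at this
    exact this
  rw [h5]
  calc s * (1 + ℓ) ≤ s * 4^ℓ := by gcongr
    _ ≤ s^3 * 4^ℓ := by
      have : s ≤ s^3 := le_self_pow₀ hs1 (by norm_num)
      gcongr

lemma logb_two_add_le {y : ℝ} (hy : 0 ≤ y) : logb 2 (2 + y) ≤ 1 + y := by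
  rw [Real.logb_le_iff_le_rpow (by norm_num) (by linarith), Real.rpow_add (by norm_num),
    Real.rpow_one]
  have h1 : y * Real.log 2 + 1 ≤ Real.exp (y * Real.log 2) := Real.add_one_le_exp _
  have h2 : Real.exp (y * Real.log 2) = 2^y := by
    rw [Real.rpow_def_of_pos (by norm_num), mul_comm]
  have h3 := Real.log_two_gt_d9
  rw [h2] at h1
  nlinarith

lemma logb_mul_three {y : ℝ} (hy : 0 ≤ y) : logb 2 (2 + 3 * y) ≤ 3 * logb 2 (2 + y) := by
  have h1 : 2 + 3 * y ≤ (2 + y)^3 := by nlinarith [sq_nonneg y, mul_nonneg hy (sq_nonneg y)]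
  have h2 := Real.logb_le_logb_of_le (b := 2) (by norm_num) (by positivity) h1
  rw [Real.logb_pow] at h2
  push_cast at h2
  exact h2

theorem lower_small1 (brk : Prop) (hn : 1 ≤ n) (hκ : 1 ≤ κ) (hε0 : 0 < ε) (hε : ε ≤ 1/2) :
    ENNReal.ofReal ((logb 2 (1/ε) + logb 2 n) / 5) ≤ (tstar brk n κ ε : ℝ≥0∞) := by
  have h2 : (1:ℝ) ≤ n := by exact_mod_cast hn
  apply le_tstar_of
  intro t ht1 ht
  by_cases h1 : 3 * ε * 2^t ≤ 1
  · exact not_good_eps brk (by omega) hκ hε0 ht1 h1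
  by_cases h3 : 2 * 2^t ≤ (n:ℝ)
  · exact not_good_n brk (by omega) hκ hε ht1 h3
  exfalso
  push Not at h1 h3
  have h4 : logb 2 (1/ε) < t + 1.6 := by
    have : 1/ε < 3 * 2^t := by
      rw [div_lt_iff₀ hε0]; linarith
    have h5 : logb 2 (1/ε) < logb 2 (3 * 2^t) := Real.logb_lt_logb (by norm_num) (by positivity) this
    rw [Real.logb_mul (by norm_num) (by positivity), Real.logb_pow, Real.logb_self_eq_one (by norm_num)] at h5
    have h6 : logb 2 3 < 1.6 := by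
      rw [Real.logb_lt_iff_lt_rpow (by norm_num) (by norm_num)]
      have : (3:ℝ)^5 < ((2:ℝ)^(1.6:ℝ))^5 := by
        rw [← Real.rpow_natCast ((2:ℝ)^(1.6:ℝ)), ← Real.rpow_mul (by norm_num)]
        norm_num
      exact lt_of_pow_lt_pow_left₀ 5 (by positivity) this
    linarith
  have h5 : logb 2 n < t + 1 := by
    have h6 : logb 2 n < logb 2 (2 * 2^t) := Real.logb_lt_logb (by norm_num) (by linarith) h3
    rw [Real.logb_mul (by norm_num) (by positivity), Real.logb_pow, Real.logb_self_eq_one (by norm_num)] at h6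
    linarith
  have h6 : (1:ℝ) ≤ t := by exact_mod_cast ht1
  rw [lt_div_iff₀ (by norm_num)] at ht
  linarith

theorem lower_brk1 (hn : 2 ≤ n) (hε : ε < 1) {F : ℝ} (hF : 1 ≤ F) (hκ : ENNReal.ofReal F ≤ κ) :
    ENNReal.ofReal (logb 2 F / 5) ≤ (tstar True n κ ε : ℝ≥0∞) := by
  apply le_tstar_of
  intro t ht1 ht
  apply not_good_brk hn hε ht1
  refine (ENNReal.ofReal_le_ofReal ?_).trans hκ
  by_contra hcon
  push Not at hcon
  have h1 : logb 2 F < logb 2 (9 * 2^t) := Real.logb_lt_logb (by norm_num) (by linarith) hcon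
  rw [Real.logb_mul (by norm_num) (by positivity), Real.logb_pow, Real.logb_self_eq_one (by norm_num)] at h1
  have h2 : logb 2 9 < 4 := by
    rw [Real.logb_lt_iff_lt_rpow (by norm_num) (by norm_num)]
    norm_num
  have h3 : (1:ℝ) ≤ t := by exact_mod_cast ht1
  rw [lt_div_iff₀ (by norm_num)] at ht
  linarith

theorem brk_top1 (hn : 2 ≤ n) (hε : ε < 1) : tstar True n ⊤ ε = ⊤ := by
  rw [tstar]
  simp only [iInf_eq_top]
  intro t ht
  exact absurd ht.2 (not_good_brk hn hε ht.1 le_top)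

/-- General upper bounds for `ε ≤ 1/2` and `n ≥ 2`. -/
theorem upper_all (hn : 2 ≤ n) (hκ : 1 ≤ κ) (hε0 : 0 < ε) (hε : ε ≤ 1/2) {F : ℝ} (hF : 2 ≤ F)
    (hbrk : brk → κ ≤ ENNReal.ofReal F) :
    (tstar brk n κ ε : ℝ≥0∞) ≤ ENNReal.ofReal
      (120000 * (logb 2 (1/ε) + n * logb 2 (2 + ncrit κ ε / n) + logb 2 F)) := by
  have hL : 1 ≤ logb 2 (1/ε) := one_le_logb (by rw [le_div_iff₀ hε0]; linarith)
  have hlF : 0 ≤ logb 2 F := Real.logb_nonneg (by norm_num) (by linarith)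
  have hn0 : (0:ℝ) < n := by exact_mod_cast (by omega : 0 < n)
  have h1 := upper_ncrit (brk := brk) (κ := max κ 2) hn (le_max_right _ _) hε0 hε
    (by linarith : 1 ≤ F) (fun hb => max_le (hbrk hb) (by simpa using ENNReal.ofReal_le_ofReal hF))
  refine (tstar_mono (fun t ht => Good.mono_kappa (le_max_left κ 2) ht)).trans
    (h1.trans (ENNReal.ofReal_le_ofReal ?_))
  have h2 := ncrit_max hκ hε0 hε
  have h3 := one_le_ncrit hκ hε0 (by linarith)
  have h4 := one_le_ncrit (κ := max κ 2) (hκ.trans (le_max_left _ _)) hε0 (by linarith)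
  have h5 : 0 ≤ ncrit κ ε / n := by positivity
  have h6 : logb 2 (2 + ncrit (max κ 2) ε / n) ≤ 3 * logb 2 (2 + ncrit κ ε / n) := by
    refine le_trans (Real.logb_le_logb_of_le (by norm_num) (by positivity) ?_) (logb_mul_three h5)
    have : ncrit (max κ 2) ε / n ≤ 3 * ncrit κ ε / n := by gcongr
    rw [mul_div_assoc] at this
    linarith
  have h7 : (n:ℝ) * logb 2 (2 + ncrit (max κ 2) ε / n) ≤ n * (3 * logb 2 (2 + ncrit κ ε / n)) := by
    gcongr
  linarith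

theorem upper_large_all (hn : 2 ≤ n) (hκ : 1 ≤ κ) (hε0 : 0 < ε) (hε : ε ≤ 1/2) {F : ℝ} (hF : 2 ≤ F)
    (hbrk : brk → κ ≤ ENNReal.ofReal F) (hlarge : 600 * ncrit κ ε ≤ n) :
    (tstar brk n κ ε : ℝ≥0∞) ≤ ENNReal.ofReal
      (1100 * (logb 2 (1/ε) + logb 2 n + logb 2 F)) := by
  have h1 := upper_large2 (brk := brk) (κ := max κ 2) hn (le_max_right _ _) hε0 hε
    (by linarith : 1 ≤ F) (fun hb => max_le (hbrk hb) (by simpa using ENNReal.ofReal_le_ofReal hF))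
    (by have := ncrit_max hκ hε0 hε; linarith)
  exact (tstar_mono (fun t ht => Good.mono_kappa (le_max_left κ 2) ht)).trans h1

/-- General lower bound for `ε ≤ 1/2`. -/
theorem lower_all (brk : Prop) (hn : 1 ≤ n) (hκ : 1 ≤ κ) (hε0 : 0 < ε) (hε : ε ≤ 1/2)
    (hy : 16384 * n ≤ ncrit κ ε) :
    ENNReal.ofReal ((logb 2 (1/ε) + n * logb 2 (2 + ncrit κ ε / n)) / 100) ≤
      (tstar brk n κ ε : ℝ≥0∞) := by
  have hL : 1 ≤ logb 2 (1/ε) := one_le_logb (by rw [le_div_iff₀ hε0]; linarith)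
  have hn1 : (1:ℝ) ≤ n := by exact_mod_cast hn
  have hln : 0 ≤ logb 2 (n:ℝ) := Real.logb_nonneg (by norm_num) hn1
  have hnc0 : 0 ≤ ncrit κ ε / n := by
    have := one_le_ncrit hκ hε0 (by linarith)
    positivity
  rcases le_total κ 2 with h | h
  · -- `κ ≤ 2`
    obtain ⟨a1, a2⟩ := ncrit_small hκ h hε0 hε
    refine le_trans (ENNReal.ofReal_le_ofReal ?_) (lower_small1 brk hn hκ hε0 hε)
    have h1 := logb_two_add_le hnc0
    have h2 : (n:ℝ) * logb 2 (2 + ncrit κ ε / n) ≤ n * (1 + ncrit κ ε / n) := by gcongr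
    have h3 : (n:ℝ) * (1 + ncrit κ ε / n) = n + ncrit κ ε := by field_simp
    linarith
  · rcases Nat.lt_or_ge n 2 with hn2 | hn2
    · have hn' : n = 1 := by omega
      subst hn'
      refine le_trans (ENNReal.ofReal_le_ofReal ?_) (lower_small1 brk le_rfl hκ hε0 hε)
      have h1 := ncrit_crude h hε0 hε
      have hx : 2 ≤ 1/ε := by rw [le_div_iff₀ hε0]; linarith
      have h2 : logb 2 (2 + ncrit κ ε / (1:ℕ)) ≤ 3 * logb 2 (1/ε) := by
        have e : 3 * logb 2 (1/ε) = logb 2 ((1/ε)^3) := by rw [Real.logb_pow]; push_cast; ring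
        rw [e]
        apply Real.logb_le_logb_of_le (by norm_num) (by positivity)
        push_cast
        rw [div_one]
        nlinarith
      have e1 : logb 2 ((1:ℕ):ℝ) = 0 := by simp
      rw [e1]
      have h4 : ((1:ℕ):ℝ) * logb 2 (2 + ncrit κ ε / (1:ℕ)) ≤ 3 * logb 2 (1/ε) := by
        rw [Nat.cast_one, one_mul]
        rw [Nat.cast_one] at h2
        exact h2
      linarith
    · exact lower_ncrit brk hn2 h hε0 hε hy

end Pool.Agent.Helper643.CG
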